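import Mathlib
import Pool.Agent.Q16.SQ.Stm5
import Pool.Agent.Helper549.Tri.Basic
import Pool.Agent.Helper549.Tri.Angles
import Pool.Agent.Helper549.Tri.RealChar

/-!
# Project SQ (helper16): the normalization of a dissection with rational angles (helper18)
-/

set_option autoImplicit false

noncomputable section

open scoped BigOperators
open Pool.Agent.Helper549.Tri
open Pool.Agent.Helper549.Tri.Basic Pool.Agent.Helper549.Tri.Angles

namespace Pool.Agent.Q18.SQN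

theorem cr_mul (c z w : ℂ) : cr (c * z) (c * w) = Complex.normSq c * cr z w := by
  simp only [cr, Complex.mul_re, Complex.mul_im, Complex.normSq_apply]
  ring

theorem dd_mul (c : ℂ) (v : Fin 3 → ℂ) : dd (fun m => c * v m) = Complex.normSq c * dd v := by
  unfold dd
  rw [← cr_mul, mul_sub, mul_sub]

/-- multiplication by `c` -/
def mh (c : ℂ) (hc : c ≠ 0) : ℂ ≃ₜ ℂ := Homeomorph.mulLeft₀ c hc

theorem hull_mul (c : ℂ) (v : Fin 3 → ℂ) : hull (fun m => c * v m) = (fun z => c * z) '' hull v := by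
  unfold hull
  have h := (LinearMap.mulLeft ℝ c).image_convexHull (Set.range v)
  have h1 : (⇑(LinearMap.mulLeft ℝ c) : ℂ → ℂ) = fun z => c * z := rfl
  rw [h1] at h
  rw [h, ← Set.range_comp]
  rfl

theorem int_hull_mul (c : ℂ) (hc : c ≠ 0) (v : Fin 3 → ℂ) :
    interior (hull (fun m => c * v m)) = (fun z => c * z) '' interior (hull v) := by
  rw [hull_mul]
  exact ((mh c hc).image_interior (hull v)).symm

theorem dis_mul {N : ℕ} {T : Fin 3 → ℂ} {t : Fin N → Fin 3 → ℂ} (h : Dis N T t) (c : ℂ)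
    (hc : c ≠ 0) : Dis N (fun m => c * T m) (fun i m => c * t i m) where
  ccwT := by
    rw [dd_mul]
    exact mul_pos (Complex.normSq_pos.2 hc) h.ccwT
  ccwt i := by
    rw [dd_mul]
    exact mul_pos (Complex.normSq_pos.2 hc) (h.ccwt i)
  cover := by
    rw [hull_mul, ← h.cover, Set.image_iUnion]
    exact Set.iUnion_congr fun i => hull_mul c (t i)
  disj i j hij := by
    rw [int_hull_mul c hc, int_hull_mul c hc]
    exact (Set.disjoint_image_iff (mul_right_injective₀ hc)).2 (h.disj i j hij)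

theorem sd_mul (c : ℂ) (v : Fin 3 → ℂ) (k : Fin 3) : sd (fun m => c * v m) k = c * sd v k := by
  unfold sd
  rw [mul_sub]

theorem len_mul (c : ℂ) (v : Fin 3 → ℂ) (k : Fin 3) : len (fun m => c * v m) k = ‖c‖ * len v k := by
  unfold len
  rw [sd_mul, norm_mul]

theorem dir_mul (c : ℂ) (v : Fin 3 → ℂ) (k : Fin 3) :
    dir (fun m => c * v m) k = c / (‖c‖ : ℂ) * dir v k := by
  unfold dir
  rw [sd_mul, len_mul]
  push_cast
  rw [mul_div_mul_comm]

theorem ang_mul (c : ℂ) (hc : c ≠ 0) (v : Fin 3 → ℂ) (k : Fin 3) :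
    ang (fun m => c * v m) k = ang v k := by
  unfold ang EuclideanGeometry.angle InnerProductGeometry.angle
  simp only [vsub_eq_sub, ← mul_sub, norm_mul]
  have h : ∀ A B : ℂ, inner ℝ (c * A) (c * B) = ‖c‖ * ‖c‖ * inner ℝ A B := by
    intro A B
    rw [aux_inner, aux_inner, Complex.norm_mul_self_eq_normSq]
    simp only [Complex.mul_re, Complex.mul_im, Complex.normSq_apply]
    ring
  rw [h]
  have hn : ‖c‖ ≠ 0 := norm_ne_zero_iff.2 hc
  congr 1
  rw [mul_mul_mul_comm, mul_div_mul_left _ _ (mul_ne_zero hn hn)]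

theorem cnt_mul {N : ℕ} (c : ℂ) (hc : c ≠ 0) (t : Fin N → Fin 3 → ℂ)
    (τ : Fin N → Equiv.Perm (Fin 3)) (p : ℂ) (k : Fin 3) :
    cnt (fun i m => c * t i m) τ (c * p) k = cnt t τ p k := by
  unfold cnt
  refine Finset.sum_congr rfl fun i _ => Finset.sum_congr rfl fun m _ => ?_
  simp only [mul_right_inj' hc]

theorem rt_add (M : ℕ) (k l : ℤ) : Q16.SQ.rt M (k + l) = Q16.SQ.rt M k * Q16.SQ.rt M l := by
  unfold Q16.SQ.rt
  rw [← Complex.exp_add]
  congr 1
  push_cast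
  ring

theorem rt_sub (M : ℕ) (k l : ℤ) : Q16.SQ.rt M (k - l) * Q16.SQ.rt M l = Q16.SQ.rt M k := by
  rw [← rt_add, sub_add_cancel]

theorem rt_form (n : ℕ) (hn : 0 < n) (a : Fin 3 → ℕ) (θ : Fin 3 → ℝ)
    (hθ : ∀ k, θ k = Real.pi * a k / n) (m : ℤ) (x : Fin 3 → ℤ) :
    (-1 : ℂ) ^ m * Complex.exp (Complex.I * ∑ k, (x k : ℂ) * (θ k : ℂ)) =
      Q16.SQ.rt (4 * n) (2 * n * m + 2 * ∑ k, x k * a k) := by
  have hn' : (n : ℂ) ≠ 0 := by exact_mod_cast hn.ne'
  have h1 : (-1 : ℂ) ^ m = Complex.exp (m * (Real.pi * Complex.I)) := by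
    rw [Complex.exp_int_mul, Complex.exp_pi_mul_I]
  rw [h1, ← Complex.exp_add]
  unfold Q16.SQ.rt
  congr 1
  simp only [Fin.sum_univ_three, hθ]
  push_cast
  field_simp
  ring

end Pool.Agent.Q18.SQN

namespace Pool.Agent.Q18.SQN

open Q16.SQ

theorem t_NORM : S_NORM := by
  intro N T t h hN τ ℓ θ hlen hang n a hn ha hsum hθ
  have hi : ∃ i : Fin N, True := ⟨⟨0, hN⟩, trivial⟩
  obtain ⟨i0, -⟩ := hi
  have hn' : (0 : ℝ) < n := by exact_mod_cast hn
  -- types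
  have hτ : ∀ k, ∃ m, τ i0 m = k := fun k => (τ i0).surjective k
  have hθpos : ∀ k, 0 < θ k := by
    intro k
    obtain ⟨m, rfl⟩ := hτ k
    rw [← hang]
    exact ang_pos _ (h.ccwt i0) m
  have hθpi : ∀ k, θ k < Real.pi := by
    intro k
    obtain ⟨m, rfl⟩ := hτ k
    rw [← hang]
    exact ang_lt_pi _ (h.ccwt i0) m
  have hℓpos : ∀ k, 0 < ℓ k := by
    intro k
    obtain ⟨m, rfl⟩ := hτ k
    rw [← hlen]
    exact len_pos _ (h.ccwt i0) m
  have hsine : ∀ k l, ℓ k * Real.sin (θ l) = ℓ l * Real.sin (θ k) := by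
    intro k l
    obtain ⟨m, rfl⟩ := hτ k
    obtain ⟨m', rfl⟩ := hτ l
    rw [← hlen, ← hlen, ← hang, ← hang]
    exact sine_law _ (h.ccwt i0) m m'
  have hsin : ∀ k, 0 < Real.sin (θ k) := fun k => Real.sin_pos_of_pos_of_lt_pi (hθpos k) (hθpi k)
  -- the factor
  set ρ : ℝ := ℓ 0 / Real.sin (θ 0) with hρ
  have hρpos : 0 < ρ := div_pos (hℓpos 0) (hsin 0)
  have hℓρ : ∀ k, ℓ k = ρ * Real.sin (θ k) := by
    intro k
    rw [hρ, div_mul_eq_mul_div, eq_div_iff (hsin 0).ne']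
    exact (hsine 0 k).symm ▸ rfl
  have hd0 : ‖dir T 0‖ = 1 := norm_dir T h.ccwT 0
  set d : ℂ := (starRingEnd ℂ) (dir T 0) with hd
  have hdn : ‖d‖ = 1 := by rw [hd, Complex.norm_conj, hd0]
  have hdd : d * dir T 0 = 1 := by
    rw [hd, mul_comm, Complex.mul_conj, Complex.normSq_eq_norm_sq, hd0]
    norm_num
  set c : ℂ := d / (ρ : ℂ) with hcdef
  have hρC : (ρ : ℂ) ≠ 0 := by exact_mod_cast hρpos.ne'
  have hcn : ‖c‖ = 1 / ρ := by
    rw [hcdef, norm_div, hdn, Complex.norm_real, Real.norm_of_nonneg hρpos.le]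
  have hc : c ≠ 0 := by
    rw [← norm_ne_zero_iff, hcn]
    positivity
  have hcd : c / (‖c‖ : ℂ) = d := by
    rw [hcn, hcdef]
    push_cast
    field_simp
  -- directions
  have hdir : ∀ i l, ∃ q : ℤ, d * dir (t i) l = rt (4 * n) q := by
    intro i l
    obtain ⟨m, x, hx⟩ := RealChar.dir_coset h τ θ hang i l 0
    refine ⟨2 * n * m + 2 * ∑ k, x k * a k, ?_⟩
    rw [← rt_form n hn a θ hθ m x, hx, ← mul_assoc, ← mul_assoc, hdd, one_mul]
  refine ⟨fun m => c * T m, fun i m => c * t i m,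
    ⟨dis_mul h c hc, hn, ha, hsum, ?_, ?_, ?_, ?_⟩, ?_⟩
  · intro i m
    rw [len_mul, hlen, hcn, hℓρ, ← hθ]
    field_simp
  · intro i m
    rw [ang_mul c hc, hang, hθ]
  · intro i k
    obtain ⟨q, hq⟩ := hdir i k
    exact ⟨q, by rw [dir_mul, hcd, hq]⟩
  · intro k
    obtain ⟨q, hq⟩ := hdir i0 0
    obtain ⟨m, x, hx⟩ := RealChar.dir_coset h τ θ hang i0 0 k
    refine ⟨q - (2 * n * m + 2 * ∑ k, x k * a k), ?_⟩
    rw [dir_mul, hcd]
    have h1 : rt (4 * n) (2 * n * m + 2 * ∑ k, x k * a k) ≠ 0 := Complex.exp_ne_zero _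
    apply mul_right_cancel₀ h1
    rw [rt_sub, ← hq, hx, ← rt_form n hn a θ hθ m x]
    ring
  · intro j k
    exact cnt_mul c hc t τ (T j) k

end Pool.Agent.Q18.SQN
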