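import Pool.Agent.Q201.AR.Stm3
import Pool.Agent.Helper227.EN.Alg

/-! Project AR (helper201), job INF: models of `PA` are infinite. -/

set_option autoImplicit false

open FirstOrder FirstOrder.Language Pool.Agent.Helper227.EN Q201.AR

namespace Pool.Agent.Q18.AR

theorem t_INF : S_INF := by
  intro M _ _ h
  have h' : M ⊨ PAminus := h.mono Set.subset_union_left
  obtain ⟨i1, i2, i3, _, _⟩ := exists_alg M h'
  have hinj : Function.Injective (Nat.cast : ℕ → M) := by
    intro a b hab
    exact Nat.cast_injective hab
  exact Infinite.of_injective _ hinj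

end Pool.Agent.Q18.AR
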