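import Pool.Agent.Helper884.IC.Compl

set_option linter.style.haveILetI false
set_option linter.unusedSectionVars false

open scoped BigOperators Classical MonoidAlgebra
open Representation Pool.Agent.Helper884.IC

noncomputable section

namespace Pool.Agent.Q18.Anz

variable {G : Type} [Group G]

/-- order of the centralizer -/
def cen (g : G) : ℕ := Nat.card (Subgroup.centralizer ({g} : Set G))

section basics

lemma schur {V : Type} [AddCommGroup V] [Module ℂ V] [FiniteDimensional ℂ V]
    (rho : Representation ℂ G V) (hirr : rho.IsIrreducible) (T : V →ₗ[ℂ] V)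
    (hcomm : ∀ (h : G) (v : V), T (rho h v) = rho h (T v)) : ∃ c : ℂ, T = c • LinearMap.id := by
  let T' : IntertwiningMap rho rho := T.intertwiningMap_of_isIntertwiningMap rho rho hcomm
  obtain ⟨c, hc⟩ := (Representation.IsIrreducible.algebraMap_intertwiningMap_bijective_of_isAlgClosed
    (ρ := rho)).2 T'
  refine ⟨c, ?_⟩
  ext v
  have := congrArg (fun S : IntertwiningMap rho rho => S v) hc
  have h2 : T' v = T v := rfl
  rw [← h2]
  exact this.symm

lemma irr_nontrivial {V : Type} [AddCommGroup V] [Module ℂ V] [FiniteDimensional ℂ V]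
    (rho : Representation ℂ G V) (hirr : rho.IsIrreducible) : Nontrivial V := by
  by_contra hn
  rw [not_nontrivial_iff_subsingleton] at hn
  have : Subsingleton (Subrepresentation rho) := by
    constructor
    intro a b
    ext x
    have : x = 0 := Subsingleton.elim _ _
    subst this
    simp
  have h5 := hirr.toNontrivial
  exact not_subsingleton (Subrepresentation rho) this

/-- the subrepresentations do not change when pulling back along a surjection -/
def subIso {H : Type} [Group H] (f : G →* H) (hf : Function.Surjective f) {V : Type}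
    [AddCommGroup V] [Module ℂ V] (rho : Representation ℂ H V) (sigma : Representation ℂ G V)
    (h : ∀ g, sigma g = rho (f g)) : Subrepresentation sigma ≃o Subrepresentation rho where
  toFun W := ⟨W.toSubmodule, by
    intro g v hv
    obtain ⟨g', rfl⟩ := hf g
    rw [← h]
    exact W.apply_mem_toSubmodule g' hv⟩
  invFun W := ⟨W.toSubmodule, by
    intro g v hv
    rw [h]
    exact W.apply_mem_toSubmodule (f g) hv⟩
  left_inv W := rfl
  right_inv W := rfl
  map_rel_iff' := Iff.rfl

lemma irr_pull {H : Type} [Group H] (f : G →* H) (hf : Function.Surjective f) {V : Type}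
    [AddCommGroup V] [Module ℂ V] (rho : Representation ℂ H V) (sigma : Representation ℂ G V)
    (h : ∀ g, sigma g = rho (f g)) : sigma.IsIrreducible ↔ rho.IsIrreducible :=
  OrderIso.isSimpleOrder_iff (subIso f hf rho sigma h)

lemma descend {H : Type} [Group H] (f : G →* H) (hf : Function.Surjective f) {V : Type}
    [AddCommGroup V] [Module ℂ V] (rho : Representation ℂ G V) (h : ∀ g, f g = 1 → rho g = 1) :
    ∃ rho' : Representation ℂ H V, ∀ g, rho g = rho' (f g) := by
  have key : ∀ a b : G, f a = f b → rho a = rho b := by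
    intro a b hab
    have h1 : rho (a * b⁻¹) = 1 := h _ (by rw [map_mul, map_inv, hab, mul_inv_cancel])
    calc rho a = rho (a * b⁻¹ * b) := by rw [inv_mul_cancel_right]
      _ = rho b := by rw [map_mul, h1, one_mul]
  refine ⟨{ toFun := fun x => rho (Function.surjInv hf x), map_one' := ?_, map_mul' := ?_ }, ?_⟩
  · rw [← map_one rho]
    apply key
    rw [Function.surjInv_eq hf, map_one]
  · intro x y
    rw [← map_mul]
    apply key
    rw [map_mul, Function.surjInv_eq hf, Function.surjInv_eq hf, Function.surjInv_eq hf]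
  · intro g
    apply key
    exact (Function.surjInv_eq hf (f g)).symm

lemma char_isConj {chi : G → ℂ} (h : IsIrrChar chi) {x y : G} (hxy : IsConj x y) :
    chi x = chi y := by
  obtain ⟨c, rfl⟩ := isConj_iff.mp hxy
  obtain ⟨V, _, _, _, ρ, hr, rfl⟩ := h
  exact (ρ.char_conj x c).symm

lemma char_one_ne {chi : G → ℂ} (h : IsIrrChar chi) : chi 1 ≠ 0 := by
  obtain ⟨V, _, _, _, ρ, hr, rfl⟩ := h
  haveI := irr_nontrivial ρ hr
  rw [ρ.char_one]
  exact_mod_cast (Module.finrank_pos (R := ℂ) (M := V)).ne'

/-- pull back of characters -/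
lemma infl_irr {H : Type} [Group H] (f : G →* H) (hf : Function.Surjective f) {psi : H → ℂ}
    (h : IsIrrChar psi) : IsIrrChar (fun g => psi (f g)) := by
  obtain ⟨V, i1, i2, i3, ρ, hr, rfl⟩ := h
  exact ⟨V, i1, i2, i3, ρ.comp f, (irr_pull f hf ρ (ρ.comp f) (fun _ => rfl)).2 hr, rfl⟩

/-- central elements are never zeros -/
lemma char_central_ne {chi : G → ℂ} (h : IsIrrChar chi) {z : G} (hz : ∀ g, g * z = z * g) :
    chi z ≠ 0 := by
  obtain ⟨V, i1, i2, i3, ρ, hr, rfl⟩ := h
  obtain ⟨c, hc⟩ := schur ρ hr (ρ z) (by
    intro h v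
    rw [← Module.End.mul_apply, ← Module.End.mul_apply, ← map_mul, ← map_mul, hz])
  haveI := irr_nontrivial ρ hr
  have hc0 : c ≠ 0 := by
    rintro rfl
    have h1 : ρ z * ρ z⁻¹ = 1 := by rw [← map_mul, mul_inv_cancel, map_one]
    rw [hc, zero_smul, zero_mul] at h1
    obtain ⟨v, hv⟩ := exists_ne (0 : V)
    have h2 := congrArg (fun S : V →ₗ[ℂ] V => S v) h1
    simp at h2
    exact hv h2.symm
  unfold Representation.character
  rw [hc, map_smul, LinearMap.trace_id, smul_eq_mul]
  exact mul_ne_zero hc0 (by exact_mod_cast (Module.finrank_pos (R := ℂ) (M := V)).ne')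

/-- a character that is not inflated along `f` vanishes where the class contains a coset of
the kernel -/
lemma vanish [Fintype G] {H : Type} [Group H] (f : G →* H) (hf : Function.Surjective f)
    {chi : G → ℂ} (h : IsIrrChar chi)
    (hn : ¬ ∃ psi : H → ℂ, IsIrrChar psi ∧ chi = fun g => psi (f g)) {g : G}
    (hg : ∀ y, f y = 1 → IsConj g (g * y)) : chi g = 0 := by
  obtain ⟨V, i1, i2, i3, ρ, hr, rfl⟩ := h
  set P : V →ₗ[ℂ] V := ∑ y ∈ Finset.univ.filter (fun y : G => f y = 1), ρ y with hP
  obtain ⟨c, hc⟩ := schur ρ hr P (by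
    intro x v
    rw [hP]
    simp only [LinearMap.sum_apply, map_sum]
    apply Finset.sum_nbij' (fun y => x⁻¹ * y * x) (fun y => x * y * x⁻¹)
    · intro y hy
      simp only [Finset.mem_filter, Finset.mem_univ, true_and] at hy ⊢
      simp [hy]
    · intro y hy
      simp only [Finset.mem_filter, Finset.mem_univ, true_and] at hy ⊢
      simp [hy]
    · intro y _
      group
    · intro y _
      group
    · intro y _
      rw [← Module.End.mul_apply, ← Module.End.mul_apply, ← map_mul, ← map_mul]
      congr 2
      group)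
  have hc0 : c = 0 := by
    by_contra hc0
    apply hn
    have htriv : ∀ y, f y = 1 → ρ y = 1 := by
      intro y hy
      have h1 : ρ y * P = P := by
        rw [hP, Finset.mul_sum]
        apply Finset.sum_nbij' (fun x => y * x) (fun x => y⁻¹ * x)
        · intro x hx
          simp only [Finset.mem_filter, Finset.mem_univ, true_and] at hx ⊢
          simp [hx, hy]
        · intro x hx
          simp only [Finset.mem_filter, Finset.mem_univ, true_and] at hx ⊢
          simp [hx, hy]
        · intro x _
          group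
        · intro x _
          group
        · intro x _
          rw [map_mul]
      rw [hc] at h1
      ext v
      have h2 := congrArg (fun S : V →ₗ[ℂ] V => S (c⁻¹ • v)) h1
      simp only [Module.End.mul_apply, LinearMap.smul_apply, LinearMap.id_apply, smul_smul,
        mul_inv_cancel₀ hc0, one_smul] at h2
      rw [h2]
      rfl
    obtain ⟨ρ', hρ'⟩ := descend f hf ρ htriv
    refine ⟨ρ'.character, ⟨V, i1, i2, i3, ρ', (irr_pull f hf ρ' ρ hρ').1 hr, rfl⟩, ?_⟩
    funext x
    unfold Representation.character
    rw [hρ']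
  have hP0 : P = 0 := by rw [hc, hc0, zero_smul]
  have h3 : ∑ y ∈ Finset.univ.filter (fun y : G => f y = 1), ρ.character (g * y) = 0 := by
    have h4 : LinearMap.trace ℂ V (ρ g * P) = 0 := by rw [hP0, mul_zero, map_zero]
    rw [hP, Finset.mul_sum, map_sum] at h4
    rw [← h4]
    apply Finset.sum_congr rfl
    intro y _
    rw [← map_mul]
    rfl
  have h5 : ∀ y ∈ Finset.univ.filter (fun y : G => f y = 1), ρ.character (g * y) =
      ρ.character g := by
    intro y hy
    simp only [Finset.mem_filter, Finset.mem_univ, true_and] at hy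
    exact (char_isConj ⟨V, i1, i2, i3, ρ, hr, rfl⟩ (hg y hy)).symm
  rw [Finset.sum_congr rfl h5, Finset.sum_const, nsmul_eq_mul, mul_eq_zero] at h3
  rcases h3 with h3 | h3
  · exfalso
    have h6 : (1 : G) ∈ Finset.univ.filter (fun y : G => f y = 1) := by simp
    have h7 : 0 < (Finset.univ.filter (fun y : G => f y = 1)).card := Finset.card_pos.2 ⟨1, h6⟩
    have h8 : (Finset.univ.filter (fun y : G => f y = 1)).card = 0 := by exact_mod_cast h3
    omega
  · exact h3

end basics

section counting

variable [Fintype G]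

/-- the size of the class times the order of the centraliser -/
lemma card_class_mul (x : G) : Nat.card {y : G // IsConj x y} * cen x = Nat.card G := by
  unfold cen
  rw [Subgroup.nat_card_centralizer_nat_card_stabilizer]
  have h1 := MulAction.card_orbit_mul_card_stabilizer_eq_card_group (ConjAct G) x
  have h2 : Nat.card {y : G // IsConj x y} = Nat.card (MulAction.orbit (ConjAct G) x) := by
    refine Nat.card_congr (Equiv.subtypeEquivRight fun y => ?_)
    rw [ConjAct.mem_orbit_conjAct, isConj_comm]
  rw [h2]
  simp only [Nat.card_eq_fintype_card]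
  rw [h1]
  rfl

lemma cen_pos (x : G) : 0 < cen x := Nat.card_pos

lemma class_pos (x : G) : 0 < Nat.card {y : G // IsConj x y} := by
  haveI : Nonempty {y : G // IsConj x y} := ⟨⟨x, IsConj.refl x⟩⟩
  exact Nat.card_pos

lemma cen_congr {x y : G} (h : IsConj x y) : cen x = cen y := by
  have h1 := card_class_mul x
  have h2 := card_class_mul y
  have h3 : Nat.card {z : G // IsConj x z} = Nat.card {z : G // IsConj y z} := by
    refine Nat.card_congr (Equiv.subtypeEquivRight fun z => ?_)
    exact ⟨fun h1 => h.symm.trans h1, fun h1 => h.trans h1⟩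
  rw [h3] at h1
  exact Nat.eq_of_mul_eq_mul_left (class_pos y) (h1.trans h2.symm)

/-- weighted sum over the elements against the sum over the classes -/
lemma sum_classes (f : ConjClasses G → ℕ) :
    ∑ g : G, cen g * f (ConjClasses.mk g) = Nat.card G * ∑ K : ConjClasses G, f K := by
  rw [← Finset.sum_fiberwise Finset.univ (fun g : G => ConjClasses.mk g), Finset.mul_sum]
  apply Finset.sum_congr rfl
  intro K _
  obtain ⟨x, rfl⟩ := ConjClasses.exists_rep K
  have h1 : ∀ g ∈ Finset.univ.filter (fun g : G => ConjClasses.mk g = ConjClasses.mk x),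
      cen g * f (ConjClasses.mk g) = cen x * f (ConjClasses.mk x) := by
    intro g hg
    simp only [Finset.mem_filter, Finset.mem_univ, true_and] at hg
    rw [hg, cen_congr (ConjClasses.mk_eq_mk_iff_isConj.1 hg)]
  rw [Finset.sum_congr rfl h1, Finset.sum_const, smul_eq_mul, ← mul_assoc, ← card_class_mul x]
  congr 2
  rw [Nat.card_eq_fintype_card, Fintype.card_subtype]
  congr 1
  ext g
  simp only [Finset.mem_filter, Finset.mem_univ, true_and]
  rw [ConjClasses.mk_eq_mk_iff_isConj, isConj_comm]

/-- column orthogonality on the diagonal -/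
lemma col_orth (h : G) : ∑ chi ∈ Irr G, chi h * chi h⁻¹ = (cen h : ℂ) := by
  set f : G → ℂ := fun g => if IsConj h g then 1 else 0 with hf
  have hcl : IsClass f := by
    intro g y
    have : IsConj h (y * g * y⁻¹) ↔ IsConj h g := by
      have h2 : IsConj g (y * g * y⁻¹) := isConj_iff.mpr ⟨y, rfl⟩
      exact ⟨fun h => h.trans h2.symm, fun h => h.trans h2⟩
    simp only [hf, this]
  have hB : ∀ chi ∈ Irr G, B f chi = (cen h : ℂ)⁻¹ * chi h⁻¹ := by
    intro chi hchi
    have hirr := mem_Irr.1 hchi
    unfold B
    have h1 : ∑ g : G, f g * chi g⁻¹ = (Nat.card {y : G // IsConj h y} : ℂ) * chi h⁻¹ := by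
      simp only [hf, ite_mul, one_mul, zero_mul]
      rw [← Finset.sum_filter]
      have h2 : ∀ g ∈ Finset.univ.filter (fun g : G => IsConj h g), chi g⁻¹ = chi h⁻¹ := by
        intro g hg
        simp only [Finset.mem_filter, Finset.mem_univ, true_and] at hg
        apply char_isConj hirr
        obtain ⟨c, rfl⟩ := isConj_iff.mp hg
        rw [isConj_comm]
        exact isConj_iff.mpr ⟨c, by group⟩
      rw [Finset.sum_congr rfl h2, Finset.sum_const, nsmul_eq_mul]
      congr 2
      rw [Nat.card_eq_fintype_card, Fintype.card_subtype]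
    rw [h1, ← card_class_mul h]
    have h3 : ((Nat.card {y : G // IsConj h y} : ℕ) : ℂ) ≠ 0 := by
      exact_mod_cast (class_pos h).ne'
    have h4 : ((cen h : ℕ) : ℂ) ≠ 0 := by exact_mod_cast (cen_pos h).ne'
    push_cast
    field_simp
  have h5 := congrFun (expand f hcl) h
  rw [Finset.sum_apply] at h5
  simp only [Pi.smul_apply, smul_eq_mul] at h5
  rw [Finset.sum_congr rfl (g := fun chi => (cen h : ℂ)⁻¹ * (chi h * chi h⁻¹))
    (fun chi hchi => by rw [hB chi hchi]; ring), ← Finset.mul_sum] at h5
  have h6 : f h = 1 := by simp only [hf, IsConj.refl, if_true]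
  rw [h6] at h5
  have h4 : ((cen h : ℕ) : ℂ) ≠ 0 := by exact_mod_cast (cen_pos h).ne'
  field_simp at h5
  exact h5.symm

/-- `|Irr G| = k(G)`, weighted form -/
lemma card_irr_mul : Nat.card G * (Irr G).card = ∑ g : G, cen g := by
  have h1 : ∑ g : G, ∑ chi ∈ Irr G, chi g * chi g⁻¹ = ∑ g : G, (cen g : ℂ) :=
    Finset.sum_congr rfl (fun g _ => col_orth g)
  rw [Finset.sum_comm] at h1
  have h2 : ∀ chi ∈ Irr G, ∑ g : G, chi g * chi g⁻¹ = (Nat.card G : ℂ) := by
    intro chi hchi
    have h3 := B_irr (mem_Irr.1 hchi) (mem_Irr.1 hchi)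
    rw [if_pos rfl] at h3
    unfold B at h3
    have h4 : (Nat.card G : ℂ) ≠ 0 := cardG_ne
    field_simp at h3
    exact h3
  rw [Finset.sum_congr rfl h2, Finset.sum_const, nsmul_eq_mul, mul_comm] at h1
  exact_mod_cast h1

lemma card_irr : (Irr G).card = Nat.card (ConjClasses G) := by
  have h1 := card_irr_mul (G := G)
  have h2 := sum_classes (G := G) (fun _ => 1)
  simp only [mul_one, Finset.sum_const, Finset.card_univ, smul_eq_mul] at h2
  rw [h2, ← Nat.card_eq_fintype_card] at h1
  exact Nat.eq_of_mul_eq_mul_left Nat.card_pos h1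

end counting

end Pool.Agent.Q18.Anz
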