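import Pool.Agent.Q18.Anz1

set_option linter.style.haveILetI false
set_option linter.unusedSectionVars false

open scoped BigOperators Classical MonoidAlgebra
open Representation Pool.Agent.Helper884.IC

noncomputable section

namespace Pool.Agent.Q18.Anz

variable {G : Type} [Group G] [Fintype G] {H : Type} [Group H] [Fintype H]

/-- number of zeros in the column of `g` -/
def zr (g : G) : ℕ := ((Irr G).filter (fun chi => chi g = 0)).card

/-- number of nonzero entries in the column of `g` -/
def nz (g : G) : ℕ := ((Irr G).filter (fun chi => chi g ≠ 0)).card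

lemma zr_add_nz (g : G) : zr g + nz g = (Irr G).card := by
  unfold zr nz
  exact Finset.card_filter_add_card_filter_not _

lemma zr_congr {x y : G} (h : IsConj x y) : zr x = zr y := by
  unfold zr
  congr 1
  apply Finset.filter_congr
  intro chi hchi
  rw [char_isConj (mem_Irr.1 hchi) h]

lemma nz_congr {x y : G} (h : IsConj x y) : nz x = nz y := by
  unfold nz
  congr 1
  apply Finset.filter_congr
  intro chi hchi
  rw [char_isConj (mem_Irr.1 hchi) h]

/-- inflated characters -/
def infl (f : G →* H) : Finset (G → ℂ) := (Irr H).image (fun psi g => psi (f g))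

lemma mem_infl {f : G →* H} {chi : G → ℂ} :
    chi ∈ infl f ↔ ∃ psi : H → ℂ, IsIrrChar psi ∧ chi = fun g => psi (f g) := by
  unfold infl
  rw [Finset.mem_image]
  constructor
  · rintro ⟨psi, h1, rfl⟩
    exact ⟨psi, mem_Irr.1 h1, rfl⟩
  · rintro ⟨psi, h1, rfl⟩
    exact ⟨psi, mem_Irr.2 h1, rfl⟩

lemma pull_inj {f : G →* H} (hf : Function.Surjective f) :
    Function.Injective (fun (psi : H → ℂ) (g : G) => psi (f g)) := by
  intro a b hab
  funext x
  obtain ⟨g, rfl⟩ := hf x
  exact congrFun hab g

lemma infl_subset {f : G →* H} (hf : Function.Surjective f) : infl f ⊆ Irr G := by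
  intro chi h
  obtain ⟨psi, h1, rfl⟩ := mem_infl.1 h
  exact mem_Irr.2 (infl_irr f hf h1)

lemma card_infl {f : G →* H} (hf : Function.Surjective f) : (infl f).card = (Irr H).card :=
  Finset.card_image_of_injective _ (pull_inj hf)

lemma card_infl_filter_zero {f : G →* H} (hf : Function.Surjective f) (g : G) :
    ((infl f).filter (fun chi => chi g = 0)).card = zr (f g) := by
  unfold infl zr
  rw [Finset.filter_image, Finset.card_image_of_injective _ (pull_inj hf)]

lemma card_infl_filter_ne {f : G →* H} (hf : Function.Surjective f) (g : G) :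
    ((infl f).filter (fun chi => chi g ≠ 0)).card = nz (f g) := by
  unfold infl nz
  rw [Finset.filter_image, Finset.card_image_of_injective _ (pull_inj hf)]

lemma zr_ge {f : G →* H} (hf : Function.Surjective f) (g : G) : zr (f g) ≤ zr g := by
  rw [← card_infl_filter_zero hf]
  exact Finset.card_le_card (Finset.filter_subset_filter _ (infl_subset hf))

lemma nz_ge {f : G →* H} (hf : Function.Surjective f) (g : G) : nz (f g) ≤ nz g := by
  rw [← card_infl_filter_ne hf]
  exact Finset.card_le_card (Finset.filter_subset_filter _ (infl_subset hf))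

lemma zr_unsplit {f : G →* H} (hf : Function.Surjective f) {g : G}
    (hg : ∀ y, f y = 1 → IsConj g (g * y)) :
    zr (f g) + ((Irr G).card - (Irr H).card) ≤ zr g := by
  rw [← card_infl_filter_zero hf, ← card_infl hf, ← Finset.card_sdiff_of_subset (infl_subset hf)]
  unfold zr
  rw [← Finset.card_union_of_disjoint]
  · apply Finset.card_le_card
    intro chi h
    rw [Finset.mem_union] at h
    rw [Finset.mem_filter]
    rcases h with h | h
    · rw [Finset.mem_filter] at h
      exact ⟨infl_subset hf h.1, h.2⟩
    · rw [Finset.mem_sdiff] at h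
      exact ⟨h.1, vanish f hf (mem_Irr.1 h.1) (fun h3 => h.2 (mem_infl.2 h3)) hg⟩
  · rw [Finset.disjoint_left]
    intro chi h1 h2
    rw [Finset.mem_filter] at h1
    rw [Finset.mem_sdiff] at h2
    exact h2.2 h1.1

lemma irr_le {f : G →* H} (hf : Function.Surjective f) : (Irr H).card ≤ (Irr G).card := by
  rw [← card_infl hf]
  exact Finset.card_le_card (infl_subset hf)

/-- sum of a pulled back function -/
lemma sum_pull {f : G →* H} (hf : Function.Surjective f) (F : H → ℕ) :
    ∑ g : G, F (f g) = Nat.card f.ker * ∑ x : H, F x := by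
  rw [← Finset.sum_fiberwise Finset.univ (fun g : G => f g), Finset.mul_sum]
  apply Finset.sum_congr rfl
  intro x _
  have h1 : ∀ g ∈ Finset.univ.filter (fun g : G => f g = x), F (f g) = F x := by
    intro g hg
    simp only [Finset.mem_filter, Finset.mem_univ, true_and] at hg
    rw [hg]
  rw [Finset.sum_congr rfl h1, Finset.sum_const, smul_eq_mul]
  congr 1
  obtain ⟨g0, rfl⟩ := hf x
  have h2 : Nat.card f.ker = (Finset.univ.filter (fun y : G => f y = 1)).card := by
    rw [Nat.card_eq_fintype_card]
    exact Fintype.card_of_subtype _ (fun y => by simp [MonoidHom.mem_ker])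
  rw [h2]
  apply Finset.card_nbij' (fun g => g0⁻¹ * g) (fun y => g0 * y)
  · intro g hg
    simp only [Finset.coe_filter, Finset.mem_univ, true_and, Set.mem_ofPred_eq] at hg ⊢
    simp [hg]
  · intro g hg
    simp only [Finset.coe_filter, Finset.mem_univ, true_and, Set.mem_ofPred_eq] at hg ⊢
    simp [hg]
  · intro g _
    group
  · intro g _
    group

lemma card_eq_ker_mul {f : G →* H} (hf : Function.Surjective f) :
    Nat.card G = Nat.card f.ker * Nat.card H := by
  have h1 := sum_pull hf (fun _ => 1)
  simp only [Finset.sum_const, Finset.card_univ, smul_eq_mul, mul_one] at h1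
  rw [Nat.card_eq_fintype_card (α := G), Nat.card_eq_fintype_card (α := H)]
  exact h1

lemma card_conj_to (g g' : G) :
    (Finset.univ.filter (fun x : G => x * g * x⁻¹ = g')).card = if IsConj g g' then cen g else 0 := by
  by_cases h : IsConj g g'
  · rw [if_pos h]
    obtain ⟨c, rfl⟩ := isConj_iff.mp h
    unfold cen
    have h2 : Nat.card (Subgroup.centralizer ({g} : Set G)) =
        (Finset.univ.filter (fun y : G => y * g = g * y)).card := by
      rw [Nat.card_eq_fintype_card]
      exact Fintype.card_of_subtype _ (fun y => by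
        simp only [Finset.mem_filter, Finset.mem_univ, true_and, Subgroup.mem_centralizer_singleton_iff])
    rw [h2]
    apply Finset.card_nbij' (fun x => c⁻¹ * x) (fun y => c * y)
    · intro x hx
      simp only [Finset.coe_filter, Finset.mem_univ, true_and, Set.mem_ofPred_eq] at hx ⊢
      calc c⁻¹ * x * g = c⁻¹ * (x * g * x⁻¹) * x := by group
        _ = g * (c⁻¹ * x) := by rw [hx]; group
    · intro y hy
      simp only [Finset.coe_filter, Finset.mem_univ, true_and, Set.mem_ofPred_eq] at hy ⊢
      calc c * y * g * (c * y)⁻¹ = c * (y * g) * (c * y)⁻¹ := by group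
        _ = c * g * c⁻¹ := by rw [hy]; group
    · intro x _
      group
    · intro x _
      group
  · rw [if_neg h, Finset.card_eq_zero, Finset.filter_eq_empty_iff]
    intro x _ hx
    exact h (isConj_iff.mpr ⟨x, hx⟩)

/-- comparison of centralizer orders in a quotient -/
lemma cen_quot {f : G →* H} (hf : Function.Surjective f) (g : G) :
    Nat.card f.ker * cen (f g) =
      (Finset.univ.filter (fun y : G => f y = 1 ∧ IsConj g (g * y))).card * cen g := by
  have h1 : Nat.card f.ker * cen (f g) =
      (Finset.univ.filter (fun x : G => f x * f g * (f x)⁻¹ = f g)).card := by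
    have h2 := sum_pull hf (fun x => if x * f g * x⁻¹ = f g then 1 else 0)
    rw [Finset.sum_boole, Finset.sum_boole] at h2
    have h3 := card_conj_to (f g) (f g)
    rw [if_pos (IsConj.refl _)] at h3
    rw [Nat.cast_id, Nat.cast_id, h3] at h2
    exact h2.symm
  rw [h1]
  have h4 : (Finset.univ.filter (fun x : G => f x * f g * (f x)⁻¹ = f g)).card =
      ∑ y ∈ Finset.univ.filter (fun y : G => f y = 1),
        (Finset.univ.filter (fun x : G => x * g * x⁻¹ = g * y)).card := by
    rw [← Finset.card_biUnion]
    · congr 1
      ext x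
      simp only [Finset.mem_filter, Finset.mem_univ, true_and, Finset.mem_biUnion]
      constructor
      · intro hx
        refine ⟨g⁻¹ * (x * g * x⁻¹), ?_, by group⟩
        rw [map_mul, map_mul, map_mul, map_inv, map_inv, hx, inv_mul_cancel]
      · rintro ⟨y, hy, hx⟩
        have h5 := congrArg f hx
        simpa [hy] using h5
    · intro y _ y' _ hne
      rw [Function.onFun, Finset.disjoint_left]
      intro x hx hx'
      simp only [Finset.mem_filter, Finset.mem_univ, true_and] at hx hx'
      rw [hx] at hx'
      exact hne (mul_left_cancel hx')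
  rw [h4]
  simp_rw [card_conj_to]
  rw [← Finset.sum_filter, Finset.sum_const, smul_eq_mul, Finset.filter_filter]

lemma cen_quot_le {f : G →* H} (hf : Function.Surjective f) (g : G) :
    cen g ≤ Nat.card f.ker * cen (f g) := by
  rw [cen_quot hf g]
  have h1 : (1 : G) ∈ Finset.univ.filter (fun y : G => f y = 1 ∧ IsConj g (g * y)) := by
    rw [Finset.mem_filter, mul_one]
    exact ⟨Finset.mem_univ _, map_one f, IsConj.refl g⟩
  exact Nat.le_mul_of_pos_left _ (Finset.card_pos.2 ⟨1, h1⟩)

lemma cen_quot_ge {f : G →* H} (hf : Function.Surjective f) (g : G) : cen (f g) ≤ cen g := by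
  have h1 := cen_quot hf g
  have h2 : (Finset.univ.filter (fun y : G => f y = 1 ∧ IsConj g (g * y))).card ≤
      Nat.card f.ker := by
    have h3 : Nat.card f.ker = (Finset.univ.filter (fun y : G => f y = 1)).card := by
      rw [Nat.card_eq_fintype_card]
      exact Fintype.card_of_subtype _ (fun y => by simp [MonoidHom.mem_ker])
    rw [h3]
    apply Finset.card_le_card
    intro y hy
    simp only [Finset.mem_filter, Finset.mem_univ, true_and] at hy ⊢
    exact hy.1
  have h4 : Nat.card f.ker * cen (f g) ≤ Nat.card f.ker * cen g := by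
    rw [h1]; exact Nat.mul_le_mul_right _ h2
  exact Nat.le_of_mul_le_mul_left h4 Nat.card_pos

/-- `k(G) ≤ |ker| k(H)` -/
lemma irr_card_le {f : G →* H} (hf : Function.Surjective f) :
    (Irr G).card ≤ Nat.card f.ker * (Irr H).card := by
  have h1 := card_irr_mul (G := G)
  have h2 := card_irr_mul (G := H)
  have h3 : ∑ g : G, cen g ≤ ∑ g : G, Nat.card f.ker * cen (f g) :=
    Finset.sum_le_sum (fun g _ => cen_quot_le hf g)
  rw [← Finset.mul_sum, sum_pull hf (fun x => cen x), ← h1, ← h2, card_eq_ker_mul hf] at h3
  have h4 : Nat.card f.ker * Nat.card H * (Irr G).card ≤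
      Nat.card f.ker * Nat.card H * (Nat.card f.ker * (Irr H).card) := by
    calc _ ≤ _ := h3
      _ = _ := by ring
  exact Nat.le_of_mul_le_mul_left h4 (Nat.mul_pos Nat.card_pos Nat.card_pos)

/-- centralizer orders in the quotient by a central subgroup of prime order -/
lemma cen_prime {p : ℕ} (hp : p.Prime) {f : G →* H} (hf : Function.Surjective f) {z : G}
    (hz : ∀ g, g * z = z * g) (hzp : orderOf z = p) (hk : ∀ y, f y = 1 ↔ y ∈ Subgroup.zpowers z)
    (g : G) : (IsConj g (g * z) → cen g = cen (f g)) ∧ (¬ IsConj g (g * z) →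
      cen g = p * cen (f g)) ∧ (IsConj g (g * z) → ∀ y, f y = 1 → IsConj g (g * y)) := by
  have hcard : Nat.card f.ker = p := by
    have : f.ker = Subgroup.zpowers z := by
      ext y
      rw [MonoidHom.mem_ker, hk]
    rw [this, Nat.card_zpowers, hzp]
  -- powers
  have hpow : ∀ y, (∀ g, g * y = y * g) → IsConj g (g * y) → ∀ i : ℕ, IsConj g (g * y ^ i) := by
    intro y hy hc i
    obtain ⟨x, hx⟩ := isConj_iff.mp hc
    induction i with
    | zero =>
      rw [pow_zero, mul_one]
    | succ i ih =>
      obtain ⟨w, hw⟩ := isConj_iff.mp ih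
      refine isConj_iff.mpr ⟨x * w, ?_⟩
      have hyi : ∀ g, g * y ^ i = y ^ i * g := by
        intro g
        exact ((Commute.pow_right (show Commute g y from hy g) i))
      calc x * w * g * (x * w)⁻¹ = x * (w * g * w⁻¹) * x⁻¹ := by group
        _ = x * (g * y ^ i) * x⁻¹ := by rw [hw]
        _ = (x * g) * (y ^ i * x⁻¹) := by group
        _ = (x * g) * (x⁻¹ * y ^ i) := by rw [hyi]
        _ = (x * g * x⁻¹) * y ^ i := by group
        _ = g * y * y ^ i := by rw [hx]
        _ = g * y ^ (i + 1) := by rw [pow_succ']; group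
  have hcz : ∀ i : ℕ, ∀ g, g * z ^ i = z ^ i * g := by
    intro i g
    exact ((Commute.pow_right (show Commute g z from hz g) i))
  have hall : IsConj g (g * z) → ∀ y, f y = 1 → IsConj g (g * y) := by
    intro hc y hy
    rw [hk] at hy
    obtain ⟨i, rfl⟩ := (Submonoid.mem_powers_iff _ _).1
      ((mem_powers_iff_mem_zpowers (x := z) (y := y)).2 hy)
    exact hpow z hz hc i
  refine ⟨?_, ?_, hall⟩
  · intro hc
    have h1 := cen_quot hf g
    have h2 : Finset.univ.filter (fun y : G => f y = 1 ∧ IsConj g (g * y)) =
        Finset.univ.filter (fun y : G => f y = 1) := by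
      ext y
      simp only [Finset.mem_filter, Finset.mem_univ, true_and, and_iff_left_iff_imp]
      exact hall hc y
    have h3 : Nat.card f.ker = (Finset.univ.filter (fun y : G => f y = 1)).card := by
      rw [Nat.card_eq_fintype_card]
      exact Fintype.card_of_subtype _ (fun y => by simp [MonoidHom.mem_ker])
    rw [h2, ← h3] at h1
    exact (Nat.eq_of_mul_eq_mul_left Nat.card_pos h1).symm
  · intro hc
    have h1 := cen_quot hf g
    have h2 : Finset.univ.filter (fun y : G => f y = 1 ∧ IsConj g (g * y)) = {1} := by
      ext y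
      simp only [Finset.mem_filter, Finset.mem_univ, true_and, Finset.mem_singleton]
      constructor
      · rintro ⟨hy, hy2⟩
        by_contra hy1
        apply hc
        rw [hk] at hy
        obtain ⟨i, rfl⟩ := (Submonoid.mem_powers_iff _ _).1
          ((mem_powers_iff_mem_zpowers (x := z) (y := y)).2 hy)
        have hi : ¬ p ∣ i := by
          intro hi
          apply hy1
          rw [← hzp] at hi
          exact orderOf_dvd_iff_pow_eq_one.1 hi
        have hcop : Nat.Coprime i p := ((Nat.Prime.coprime_iff_not_dvd hp).2 hi).symm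
        obtain ⟨j, hj⟩ := Nat.exists_mul_mod_eq_one_of_coprime hcop hp.one_lt
        have h3 := hpow (z ^ i) (hcz i) hy2 j
        rw [← pow_mul] at h3
        have h4 : z ^ (i * j) = z := by
          rw [pow_eq_pow_iff_modEq (n := i * j) (m := 1) |>.2, pow_one]
          rw [hzp]
          unfold Nat.ModEq
          rw [hj.2, Nat.mod_eq_of_lt hp.one_lt]
        rwa [h4] at h3
      · rintro rfl
        rw [mul_one]
        exact ⟨map_one f, IsConj.refl g⟩
    rw [h2, Finset.card_singleton, one_mul, hcard] at h1
    exact h1.symm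

end Pool.Agent.Q18.Anz
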