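import Pool.Agent.Q18.Anz2

set_option linter.style.haveILetI false
set_option linter.unusedSectionVars false

open scoped BigOperators Classical MonoidAlgebra
open Representation Pool.Agent.Helper884.IC

noncomputable section

namespace Pool.Agent.Q18.Anz

/-- number of irreducible characters -/
def kk (G : Type) [Group G] [Fintype G] : ℕ := (Irr G).card

/-- number of zeros of the character table -/
def zz (G : Type) [Group G] [Fintype G] : ℕ :=
  ∑ K : ConjClasses G, ((Irr G).filter (fun chi => ∀ g, ConjClasses.mk g = K → chi g = 0)).card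

variable {G : Type} [Group G] [Fintype G] {H : Type} [Group H] [Fintype H]

lemma kk_mul : Nat.card G * kk G = ∑ g : G, cen g := card_irr_mul

lemma zz_mul : Nat.card G * zz G = ∑ g : G, cen g * zr g := by
  unfold zz
  rw [← sum_classes]
  apply Finset.sum_congr rfl
  intro g _
  congr 1
  unfold zr
  congr 1
  apply Finset.filter_congr
  intro chi hchi
  constructor
  · intro h
    exact h g rfl
  · intro h g' hg'
    rw [char_isConj (mem_Irr.1 hchi) (ConjClasses.mk_eq_mk_iff_isConj.1 hg'), h]

lemma kk_pos : 0 < kk G := by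
  have h1 := kk_mul (G := G)
  have h2 : 0 < ∑ g : G, cen g := Finset.sum_pos (fun g _ => cen_pos g) ⟨1, Finset.mem_univ _⟩
  rw [← h1] at h2
  exact Nat.pos_of_mul_pos_left h2 |> fun h => by
    rcases Nat.eq_zero_or_pos (kk G) with h0 | h0
    · rw [h0, mul_zero] at h2; exact absurd h2 (lt_irrefl _)
    · exact h0

theorem data {p : ℕ} (hp : p.Prime) {f : G →* H} (hf : Function.Surjective f) {z : G}
    (hz : ∀ g, g * z = z * g) (hzp : orderOf z = p)
    (hk : ∀ y, f y = 1 ↔ y ∈ Subgroup.zpowers z) :
    ∃ s c zS zU nU : ℝ, 1 ≤ s ∧ 0 ≤ c ∧ 0 ≤ zS ∧ (kk H : ℝ) = s + c ∧ (kk G : ℝ) = p * s + c ∧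
      (zz H : ℝ) = zS + zU ∧ p * zS + zU + c * (kk G - kk H) ≤ zz G ∧ nU = c * kk H - zU ∧
      (∀ h, IsConj h (h * z) → (nz (f h) : ℝ) ≤ nU) := by
  have hcard : Nat.card f.ker = p := by
    have : f.ker = Subgroup.zpowers z := by
      ext y
      rw [MonoidHom.mem_ker, hk]
    rw [this, Nat.card_zpowers, hzp]
  have hGH : Nat.card G = p * Nat.card H := by rw [card_eq_ker_mul hf, hcard]
  have hGpos : (0 : ℝ) < Nat.card G := by exact_mod_cast Nat.card_pos
  set Un := Finset.univ.filter (fun g : G => IsConj g (g * z)) with hUn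
  set Sp := Finset.univ.filter (fun g : G => ¬ IsConj g (g * z)) with hSp
  set S : ℕ := ∑ g ∈ Sp, cen (f g) with hS
  set C : ℕ := ∑ g ∈ Un, cen (f g) with hC
  set ZS : ℕ := ∑ g ∈ Sp, cen (f g) * zr (f g) with hZS
  set ZU : ℕ := ∑ g ∈ Un, cen (f g) * zr (f g) with hZU
  set NU : ℕ := ∑ g ∈ Un, cen (f g) * nz (f g) with hNU
  have hsplit : ∀ F : G → ℕ, ∑ g : G, F g = ∑ g ∈ Un, F g + ∑ g ∈ Sp, F g := by
    intro F
    exact (Finset.sum_filter_add_sum_filter_not Finset.univ _ F).symm
  -- k1
  have e1 : C + S = Nat.card G * kk H := by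
    rw [hC, hS, ← hsplit, sum_pull hf (fun x => cen x), ← kk_mul, hcard, hGH]; ring
  have e2 : C + p * S = Nat.card G * kk G := by
    rw [kk_mul, hsplit, hC, hS, Finset.mul_sum]
    congr 1
    · apply Finset.sum_congr rfl
      intro g hg
      exact ((cen_prime hp hf hz hzp hk g).1 (Finset.mem_filter.1 hg).2).symm
    · apply Finset.sum_congr rfl
      intro g hg
      exact ((cen_prime hp hf hz hzp hk g).2.1 (Finset.mem_filter.1 hg).2).symm
  have e3 : ZU + ZS = Nat.card G * zz H := by
    rw [hZU, hZS, ← hsplit, sum_pull hf (fun x => cen x * zr x), ← zz_mul, hcard, hGH]; ring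
  have e4 : ZU + C * (kk G - kk H) + p * ZS ≤ Nat.card G * zz G := by
    rw [zz_mul, hsplit]
    apply Nat.add_le_add
    · rw [hZU, hC, Finset.sum_mul, ← Finset.sum_add_distrib]
      apply Finset.sum_le_sum
      intro g hg
      have h1 := cen_prime hp hf hz hzp hk g
      have h2 := (Finset.mem_filter.1 hg).2
      rw [h1.1 h2, ← mul_add]
      exact Nat.mul_le_mul_left _ (zr_unsplit hf (h1.2.2 h2))
    · rw [hZS, Finset.mul_sum]
      apply Finset.sum_le_sum
      intro g hg
      have h1 := cen_prime hp hf hz hzp hk g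
      have h2 := (Finset.mem_filter.1 hg).2
      rw [h1.2.1 h2, ← mul_assoc]
      exact Nat.mul_le_mul_left _ (zr_ge hf g)
  have e5 : NU + ZU = C * kk H := by
    rw [hNU, hZU, hC, ← Finset.sum_add_distrib, Finset.sum_mul]
    apply Finset.sum_congr rfl
    intro g _
    rw [← mul_add, add_comm, zr_add_nz]
    rfl
  have e6 : Nat.card G ≤ S := by
    have h1 : (Finset.univ.filter (fun y : G => f y = 1)) ⊆ Sp := by
      intro y hy
      simp only [Finset.mem_filter, Finset.mem_univ, true_and] at hy
      rw [hSp, Finset.mem_filter]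
      refine ⟨Finset.mem_univ _, ?_⟩
      intro hc
      obtain ⟨x, hx⟩ := isConj_iff.mp hc
      rw [hk] at hy
      obtain ⟨i, rfl⟩ := Subgroup.mem_zpowers_iff.1 hy
      have hcom : x * z ^ i = z ^ i * x := (Commute.zpow_right (show Commute x z from hz x) i)
      rw [hcom, mul_assoc, mul_inv_cancel, mul_one] at hx
      have h2 : z = 1 := by
        have := mul_left_cancel (a := z ^ i) (b := 1) (c := z) (by rw [mul_one]; exact hx)
        exact this.symm
      rw [h2, orderOf_one] at hzp
      exact hp.one_lt.ne hzp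
    have h2 : ∑ y ∈ Finset.univ.filter (fun y : G => f y = 1), cen (f y) ≤ S := by
      rw [hS]
      exact Finset.sum_le_sum_of_subset h1
    have h3 : ∀ y ∈ Finset.univ.filter (fun y : G => f y = 1), cen (f y) = Nat.card H := by
      intro y hy
      simp only [Finset.mem_filter, Finset.mem_univ, true_and] at hy
      rw [hy]
      have h4 := card_class_mul (1 : H)
      have h5 : Nat.card {y : H // IsConj 1 y} = 1 := by
        rw [Nat.card_eq_one_iff_unique]
        constructor
        · constructor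
          rintro ⟨a, ha⟩ ⟨b, hb⟩
          exact Subtype.ext ((isConj_one_right.1 ha).trans (isConj_one_right.1 hb).symm)
        · exact ⟨⟨1, IsConj.refl 1⟩⟩
      rw [h5, one_mul] at h4
      exact h4
    have h4 : (Finset.univ.filter (fun y : G => f y = 1)).card = p := by
      rw [← hcard, Nat.card_eq_fintype_card]
      exact (Fintype.card_of_subtype _ (fun y => by simp [MonoidHom.mem_ker])).symm
    rw [Finset.sum_congr rfl h3, Finset.sum_const, smul_eq_mul, h4, ← hGH] at h2
    exact h2
  have e7 : ∀ h, IsConj h (h * z) → Nat.card G * nz (f h) ≤ NU := by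
    intro h hc
    have h1 : ∑ g : G, (if IsConj (f h) (f g) then cen (f g) * nz (f g) else 0) ≤ NU := by
      rw [← Finset.sum_filter, hNU]
      apply Finset.sum_le_sum_of_subset
      intro g hg
      simp only [Finset.mem_filter, Finset.mem_univ, true_and] at hg
      rw [hUn, Finset.mem_filter]
      refine ⟨Finset.mem_univ _, ?_⟩
      obtain ⟨x, hx⟩ := isConj_iff.mp hg
      obtain ⟨w, rfl⟩ := hf x
      rw [← map_inv, ← map_mul, ← map_mul] at hx
      -- g = w h w⁻¹ y with y in the kernel
      set y := (w * h * w⁻¹)⁻¹ * g with hy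
      have hfy : f y = 1 := by rw [hy, map_mul, map_inv, hx, inv_mul_cancel]
      rw [hk] at hfy
      obtain ⟨i, hi⟩ := Subgroup.mem_zpowers_iff.1 hfy
      have hcom : ∀ u, u * y = y * u := by
        intro u
        rw [← hi]
        exact (Commute.zpow_right (show Commute u z from hz u) i)
      have hg2 : g = w * h * w⁻¹ * y := by rw [hy]; group
      obtain ⟨v, hv⟩ := isConj_iff.mp hc
      refine isConj_iff.mpr ⟨w * v * w⁻¹, ?_⟩
      calc w * v * w⁻¹ * g * (w * v * w⁻¹)⁻¹
          = w * v * w⁻¹ * (w * h * w⁻¹ * y) * (w * v * w⁻¹)⁻¹ := by rw [← hg2]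
        _ = w * (v * h) * w⁻¹ * (y * (w * v⁻¹ * w⁻¹)) := by group
        _ = w * (v * h) * w⁻¹ * ((w * v⁻¹ * w⁻¹) * y) := by rw [hcom]
        _ = w * (v * h * v⁻¹) * w⁻¹ * y := by group
        _ = w * (h * z) * w⁻¹ * y := by rw [hv]
        _ = w * h * (z * w⁻¹) * y := by group
        _ = w * h * (w⁻¹ * z) * y := by rw [hz w⁻¹]
        _ = w * h * w⁻¹ * (z * y) := by group
        _ = w * h * w⁻¹ * (y * z) := by rw [hz y]
        _ = g * z := by rw [hg2]; group
    have h2 := sum_pull hf (fun x => if IsConj (f h) x then cen x * nz x else 0)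
    rw [h2, ← Finset.sum_filter] at h1
    have h3 : ∀ x ∈ Finset.univ.filter (fun x : H => IsConj (f h) x), cen x * nz x =
        cen (f h) * nz (f h) := by
      intro x hx
      simp only [Finset.mem_filter, Finset.mem_univ, true_and] at hx
      rw [cen_congr hx, nz_congr hx]
    rw [Finset.sum_congr rfl h3, Finset.sum_const, smul_eq_mul] at h1
    have h4 : (Finset.univ.filter (fun x : H => IsConj (f h) x)).card =
        Nat.card {y : H // IsConj (f h) y} := by
      rw [Nat.card_eq_fintype_card, Fintype.card_subtype]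
    rw [h4, ← mul_assoc (Nat.card _) (cen _), card_class_mul, ← mul_assoc, hcard, ← hGH] at h1
    exact h1
  have e8 : kk H ≤ kk G := irr_le hf
  -- real versions
  have r1 : (C : ℝ) + S = Nat.card G * kk H := by exact_mod_cast e1
  have r2 : (C : ℝ) + p * S = Nat.card G * kk G := by exact_mod_cast e2
  have r3 : (ZU : ℝ) + ZS = Nat.card G * zz H := by exact_mod_cast e3
  have r4 : (ZU : ℝ) + C * (kk G - kk H) + p * ZS ≤ Nat.card G * zz G := by
    have := (Nat.cast_le (α := ℝ)).2 e4
    push_cast [Nat.cast_sub e8] at this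
    exact this
  have r5 : (NU : ℝ) + ZU = C * kk H := by exact_mod_cast e5
  have r6 : (Nat.card G : ℝ) ≤ S := by exact_mod_cast e6
  have hne : (Nat.card G : ℝ) ≠ 0 := hGpos.ne'
  refine ⟨S / Nat.card G, C / Nat.card G, ZS / Nat.card G, ZU / Nat.card G, NU / Nat.card G,
    ?_, by positivity, by positivity, ?_, ?_, ?_, ?_, ?_, ?_⟩
  · rw [le_div_iff₀ hGpos, one_mul]; exact r6
  · rw [← add_div, eq_div_iff hne]; linarith
  · rw [← mul_div_assoc, ← add_div, eq_div_iff hne]; linarith
  · rw [← add_div, eq_div_iff hne]; linarith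
  · have : (p : ℝ) * (ZS / Nat.card G) + ZU / Nat.card G + C / Nat.card G * (kk G - kk H) =
        (ZU + C * (kk G - kk H) + p * ZS) / Nat.card G := by
      field_simp
      ring
    rw [this, div_le_iff₀ hGpos]
    linarith
  · have : (C : ℝ) / Nat.card G * kk H - ZU / Nat.card G = (C * kk H - ZU) / Nat.card G := by
      field_simp
    rw [this, ← r5]
    ring
  · intro h hc
    rw [le_div_iff₀ hGpos]
    have := (Nat.cast_le (α := ℝ)).2 (e7 h hc)
    push_cast at this
    linarith

end Pool.Agent.Q18.Anz
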