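import Pool.Agent.Q18.Anz3

set_option linter.style.haveILetI false
set_option linter.unusedSectionVars false

open scoped BigOperators Classical MonoidAlgebra commutatorElement
open Representation Pool.Agent.Helper884.IC

noncomputable section

namespace Pool.Agent.Q18.Anz

lemma exists_h {G : Type*} [Group G] [Finite G] {p : ℕ} [hp : Fact p.Prime] (hG : IsPGroup p G)
    (hn : ∃ x y : G, x * y ≠ y * x) :
    ∃ h : G, (∃ y, h * y ≠ y * h) ∧
      ∀ x y, (x * h * x⁻¹ * h⁻¹) * y = y * (x * h * x⁻¹ * h⁻¹) := by
  have hnt : Nontrivial (G ⧸ Subgroup.center G) := by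
    rw [QuotientGroup.nontrivial_iff]
    intro h
    obtain ⟨x, y, hxy⟩ := hn
    apply hxy
    have : x ∈ Subgroup.center G := by rw [h]; trivial
    exact (Subgroup.mem_center_iff.1 this y).symm
  have hQ : IsPGroup p (G ⧸ Subgroup.center G) := hG.to_quotient _
  have hc : Nontrivial (Subgroup.center (G ⧸ Subgroup.center G)) := hQ.center_nontrivial
  obtain ⟨⟨q, hq⟩, hq1⟩ := exists_ne (1 : Subgroup.center (G ⧸ Subgroup.center G))
  obtain ⟨h, rfl⟩ := QuotientGroup.mk_surjective q
  refine ⟨h, ?_, ?_⟩
  · by_contra hcon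
    push Not at hcon
    apply hq1
    apply Subtype.ext
    show ((h : G) : G ⧸ Subgroup.center G) = 1
    rw [QuotientGroup.eq_one_iff, Subgroup.mem_center_iff]
    intro g
    exact (hcon g).symm
  · intro x y
    have h1 : ((x * h * x⁻¹ * h⁻¹ : G) : G ⧸ Subgroup.center G) = 1 := by
      have h2 := Subgroup.mem_center_iff.1 hq (x : G ⧸ Subgroup.center G)
      simp only [QuotientGroup.mk_mul, QuotientGroup.mk_inv]
      rw [h2]
      group
    rw [QuotientGroup.eq_one_iff, Subgroup.mem_center_iff] at h1
    exact (h1 y).symm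

/-- nonlinear characters of `p`-groups vanish at half of the elements at least -/
lemma vanish_half {G : Type} [Group G] [Fintype G] {p : ℕ} [hp : Fact p.Prime]
    (hG : IsPGroup p G) {H : Type} [Group H] [Fintype H] {f : G →* H}
    (hf : Function.Surjective f) (hker : ∀ x, f x = 1 → x ∈ commutator G) {chi : G → ℂ}
    (h : IsIrrChar chi) (hn : ¬ ∃ psi : H → ℂ, IsIrrChar psi ∧ chi = fun g => psi (f g)) :
    Nat.card G ≤ 2 * (Finset.univ.filter (fun g => chi g = 0)).card := by
  obtain ⟨V, i1, i2, i3, ρ, hr, rfl⟩ := h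
  set φ := MonoidHom.toHomUnits ρ with hφ
  have hφv : ∀ g, ((φ g : (V →ₗ[ℂ] V)ˣ) : V →ₗ[ℂ] V) = ρ g := fun g => rfl
  have hφeq : ∀ a b : G, φ a = φ b ↔ ρ a = ρ b := by
    intro a b
    rw [← hφv, ← hφv]
    exact Units.ext_iff
  have hR : IsPGroup p φ.range := hG.of_surjective φ.rangeRestrict φ.rangeRestrict_surjective
  haveI : Finite φ.range := Finite.of_surjective _ φ.rangeRestrict_surjective
  have hnab : ∃ x y : φ.range, x * y ≠ y * x := by
    by_contra hcon
    push Not at hcon
    apply hn
    have htriv : ∀ y, f y = 1 → ρ y = 1 := by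
      intro y hy
      have h1 := hker y hy
      have h2 : commutator G ≤ φ.ker := by
        rw [commutator_def, Subgroup.commutator_le]
        intro a _ b _
        rw [MonoidHom.mem_ker, map_commutatorElement, commutatorElement_eq_one_iff_mul_comm]
        have h3 := hcon ⟨φ a, a, rfl⟩ ⟨φ b, b, rfl⟩
        exact congrArg Subtype.val h3
      have h4 := h2 h1
      rw [MonoidHom.mem_ker, ← map_one φ, hφeq, map_one] at h4
      exact h4
    obtain ⟨ρ', hρ'⟩ := descend f hf ρ htriv
    refine ⟨ρ'.character, ⟨V, i1, i2, i3, ρ', (irr_pull f hf ρ' ρ hρ').1 hr, rfl⟩, ?_⟩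
    funext x
    unfold Representation.character
    rw [hρ']
  obtain ⟨⟨_, h, rfl⟩, ⟨⟨_, y0, rfl⟩, hy0⟩, hcen⟩ := exists_h hR hnab
  have hy0' : ρ (h * y0) ≠ ρ (y0 * h) := by
    intro hcon
    apply hy0
    apply Subtype.ext
    show φ h * φ y0 = φ y0 * φ h
    rw [← map_mul, ← map_mul, hφeq]
    exact hcon
  have hcen' : ∀ x y : G, ρ (x * h * x⁻¹ * h⁻¹ * y) = ρ (y * (x * h * x⁻¹ * h⁻¹)) := by
    intro x y
    have h1 := congrArg Subtype.val (hcen ⟨φ x, x, rfl⟩ ⟨φ y, y, rfl⟩)
    rw [← hφeq]
    simp only [map_mul, map_inv]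
    exact h1
  -- the proper subgroup
  set M : Subgroup G := (Subgroup.centralizer ({φ h} : Set (V →ₗ[ℂ] V)ˣ)).comap φ with hM
  have hMmem : ∀ g, g ∈ M ↔ ρ (g * h) = ρ (h * g) := by
    intro g
    rw [hM, Subgroup.mem_comap, Subgroup.mem_centralizer_singleton_iff, ← map_mul, ← map_mul, hφeq]
  have hMne : M ≠ ⊤ := by
    intro hcon
    have : y0 ∈ M := by rw [hcon]; trivial
    rw [hMmem] at this
    exact hy0' this.symm
  have hzero : ∀ g, g ∉ M → ρ.character g = 0 := by
    intro g hg
    set c := g * h * g⁻¹ * h⁻¹ with hc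
    obtain ⟨ζ, hζ⟩ := schur ρ hr (ρ c) (by
      intro x v
      rw [← Module.End.mul_apply, ← Module.End.mul_apply, ← map_mul, ← map_mul, hcen'])
    haveI := irr_nontrivial ρ hr
    have hζ1 : ζ ≠ 1 := by
      rintro rfl
      apply hg
      rw [hMmem]
      have h1 : g * h = c * (h * g) := by rw [hc]; group
      rw [h1, map_mul, hζ, one_smul]
      rfl
    have h2 : ρ.character (c * (h * g * h⁻¹)) = ζ * ρ.character (h * g * h⁻¹) := by
      unfold Representation.character
      rw [map_mul, hζ, Module.End.mul_eq_comp, LinearMap.smul_comp, LinearMap.id_comp, map_smul,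
        smul_eq_mul]
    have h3 : c * (h * g * h⁻¹) = g := by rw [hc]; group
    rw [h3, ρ.char_conj] at h2
    have h4 : (1 - ζ) * ρ.character g = 0 := by linear_combination h2
    rcases mul_eq_zero.1 h4 with h5 | h5
    · exact absurd (sub_eq_zero.1 h5).symm hζ1
    · exact h5
  have hMcard : 2 * Nat.card M ≤ Nat.card G := by
    rw [← M.index_mul_card]
    apply Nat.mul_le_mul_right
    have h1 : M.index ≠ 1 := fun h1 => hMne (Subgroup.index_eq_one.1 h1)
    have h2 : M.index ≠ 0 := Subgroup.index_ne_zero_of_finite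
    omega
  have h1 : Nat.card M + (Finset.univ.filter (fun g => ρ.character g = 0)).card ≥ Nat.card G := by
    have h2 : Nat.card M = (Finset.univ.filter (fun g => g ∈ M)).card := by
      rw [Nat.card_eq_fintype_card]
      exact Fintype.card_of_subtype _ (fun y => by simp)
    rw [h2, ge_iff_le, Nat.card_eq_fintype_card, ← Finset.card_univ]
    refine le_trans (Finset.card_le_card ?_) (Finset.card_union_le _ _)
    intro g _
    rw [Finset.mem_union, Finset.mem_filter, Finset.mem_filter]
    by_cases hg : g ∈ M
    · left; exact ⟨Finset.mem_univ _, hg⟩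
    · right; exact ⟨Finset.mem_univ _, hzero g hg⟩
  omega

variable {G : Type} [Group G] [Fintype G]

lemma cen_comm {H : Type} [Group H] [Fintype H] (hH : ∀ x y : H, x * y = y * x) (h : H) :
    cen h = Nat.card H := by
  unfold cen
  have : Subgroup.centralizer ({h} : Set H) = ⊤ := by
    ext x
    rw [Subgroup.mem_centralizer_singleton_iff]
    simp [hH]
  rw [this, Subgroup.card_top]

lemma kk_comm {H : Type} [Group H] [Fintype H] (hH : ∀ x y : H, x * y = y * x) :
    kk H = Nat.card H := by
  have h1 := kk_mul (G := H)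
  rw [Finset.sum_congr rfl (fun h _ => cen_comm hH h), Finset.sum_const, smul_eq_mul,
    Finset.card_univ, ← Nat.card_eq_fintype_card] at h1
  exact Nat.eq_of_mul_eq_mul_left Nat.card_pos h1

lemma nz_central {H : Type} [Group H] [Fintype H] {h : H} (hh : ∀ x, x * h = h * x) :
    nz h = kk H := by
  unfold nz kk
  congr 1
  rw [Finset.filter_eq_self]
  intro chi hchi
  exact char_central_ne (mem_Irr.1 hchi) hh

lemma zr_central {H : Type} [Group H] [Fintype H] {h : H} (hh : ∀ x, x * h = h * x) :
    zr h = 0 := by
  have h1 := zr_add_nz h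
  rw [nz_central hh] at h1
  unfold kk at h1
  omega

lemma comm_quot (x y : G ⧸ commutator G) : x * y = y * x := by
  obtain ⟨a, rfl⟩ := QuotientGroup.mk_surjective x
  obtain ⟨b, rfl⟩ := QuotientGroup.mk_surjective y
  rw [← QuotientGroup.mk_mul, ← QuotientGroup.mk_mul, QuotientGroup.eq]
  have : (a * b)⁻¹ * (b * a) = ⁅b⁻¹, a⁻¹⁆ := by
    rw [commutatorElement_def]; group
  rw [this, commutator_def]
  exact Subgroup.commutator_mem_commutator (Subgroup.mem_top _) (Subgroup.mem_top _)

/-- `2 z(G) ≥ N L` -/
theorem dichotomy {p : ℕ} [hp : Fact p.Prime] (hG : IsPGroup p G) :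
    (kk G - (commutator G).index) * (commutator G).index ≤ 2 * zz G := by
  set f := QuotientGroup.mk' (commutator G) with hfdef
  have hf : Function.Surjective f := QuotientGroup.mk'_surjective _
  set L := (commutator G).index with hL
  have hLcard : Nat.card (G ⧸ commutator G) = L := rfl
  have hkH : kk (G ⧸ commutator G) = L := by rw [kk_comm comm_quot]; exact hLcard
  have h1 : Nat.card G * zz G = ∑ chi ∈ Irr G, ∑ g : G, (if chi g = 0 then cen g else 0) := by
    rw [zz_mul, Finset.sum_comm]
    apply Finset.sum_congr rfl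
    intro g _
    unfold zr
    rw [Finset.card_filter, Finset.mul_sum]
    apply Finset.sum_congr rfl
    intro chi _
    split_ifs <;> simp
  have h2 : ∀ chi ∈ Irr G \ infl f, Nat.card G * L ≤
      2 * ∑ g : G, (if chi g = 0 then cen g else 0) := by
    intro chi hchi
    rw [Finset.mem_sdiff] at hchi
    have h3 := vanish_half hG hf (fun x hx => (QuotientGroup.eq_one_iff x).1 hx)
      (mem_Irr.1 hchi.1) (fun h => hchi.2 (mem_infl.2 h))
    have h4 : (Finset.univ.filter (fun g => chi g = 0)).card * L ≤
        ∑ g : G, (if chi g = 0 then cen g else 0) := by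
      rw [← Finset.sum_filter, ← smul_eq_mul, ← Finset.sum_const]
      apply Finset.sum_le_sum
      intro g _
      have h5 := cen_quot_ge hf g
      rw [cen_comm comm_quot, hLcard] at h5
      exact h5
    calc Nat.card G * L ≤ 2 * (Finset.univ.filter (fun g => chi g = 0)).card * L :=
          Nat.mul_le_mul_right _ h3
      _ = 2 * ((Finset.univ.filter (fun g => chi g = 0)).card * L) := by ring
      _ ≤ _ := Nat.mul_le_mul_left _ h4
  have h3 : (Irr G \ infl f).card = kk G - L := by
    rw [Finset.card_sdiff_of_subset (infl_subset hf), card_infl hf]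
    show kk G - kk (G ⧸ commutator G) = _
    rw [hkH]
  have h4 : (kk G - L) * (Nat.card G * L) ≤ 2 * (Nat.card G * zz G) := by
    rw [← h3, h1, ← smul_eq_mul, ← Finset.sum_const]
    calc ∑ _chi ∈ Irr G \ infl f, Nat.card G * L
        ≤ ∑ chi ∈ Irr G \ infl f, 2 * ∑ g : G, (if chi g = 0 then cen g else 0) :=
          Finset.sum_le_sum h2
      _ ≤ ∑ chi ∈ Irr G, 2 * ∑ g : G, (if chi g = 0 then cen g else 0) :=
          Finset.sum_le_sum_of_subset Finset.sdiff_subset
      _ = 2 * ∑ chi ∈ Irr G, ∑ g : G, (if chi g = 0 then cen g else 0) := by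
          rw [Finset.mul_sum]
  have h5 : Nat.card G * ((kk G - L) * L) ≤ Nat.card G * (2 * zz G) := by
    calc Nat.card G * ((kk G - L) * L) = (kk G - L) * (Nat.card G * L) := by ring
      _ ≤ _ := h4
      _ = _ := by ring
  exact Nat.le_of_mul_le_mul_left h5 Nat.card_pos

/-- the case of few nonlinear characters: `1 ≤ N k - z ≤ 2 N ^ 2`. -/
theorem few {p : ℕ} [hp : Fact p.Prime] (hG : IsPGroup p G) :
    zz G + (kk G - (commutator G).index) ≤ (kk G - (commutator G).index) * kk G ∧
    (kk G - (commutator G).index) * kk G ≤ zz G + 2 * (kk G - (commutator G).index) ^ 2 := by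
  set f := QuotientGroup.mk' (commutator G) with hfdef
  have hf : Function.Surjective f := QuotientGroup.mk'_surjective _
  set L := (commutator G).index with hL
  have hLcard : Nat.card (G ⧸ commutator G) = L := rfl
  have hkH : kk (G ⧸ commutator G) = L := by rw [kk_comm comm_quot]; exact hLcard
  have hLle : L ≤ kk G := by
    rw [← hkH]; exact irr_le hf
  set N := kk G - L with hN
  have hcenL : ∀ g : G, L ≤ cen g := by
    intro g
    have h5 := cen_quot_ge hf g
    rwa [cen_comm comm_quot, hLcard] at h5
  have hzrN : ∀ g : G, zr g ≤ N := by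
    intro g
    have h1 := zr_add_nz g
    have h2 := nz_ge hf g
    rw [nz_central (fun x => comm_quot x (f g)), hkH] at h2
    have h3 : (Irr G).card = kk G := rfl
    omega
  have hzr1 : zr (1 : G) = 0 := zr_central (fun x => by rw [mul_one, one_mul])
  have hcen1 : cen (1 : G) = Nat.card G := by
    unfold cen
    have : Subgroup.centralizer ({1} : Set G) = ⊤ := by
      ext x
      rw [Subgroup.mem_centralizer_singleton_iff]
      simp
    rw [this, Subgroup.card_top]
  have hk := kk_mul (G := G)
  have hz := zz_mul (G := G)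
  constructor
  · have h1 : Nat.card G * zz G + Nat.card G * N ≤ Nat.card G * (N * kk G) := by
      have h2 : ∑ g : G, cen g * zr g + Nat.card G * N ≤ ∑ g : G, cen g * N := by
        have h1m : (1 : G) ∈ (Finset.univ : Finset G) := Finset.mem_univ _
        rw [← Finset.add_sum_erase _ _ h1m, ← Finset.add_sum_erase _ (fun g => cen g * N) h1m,
          hzr1, hcen1, mul_zero, zero_add, add_comm]
        apply Nat.add_le_add_left
        exact Finset.sum_le_sum (fun g _ => Nat.mul_le_mul_left _ (hzrN g))
      rw [← Finset.sum_mul, ← hk] at h2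
      rw [hz]
      calc _ ≤ _ := h2
        _ = _ := by ring
    rw [← mul_add] at h1
    exact Nat.le_of_mul_le_mul_left h1 Nat.card_pos
  · -- columns
    have hcol : ∀ g : G, cen g * N + 2 * N * L ≤ cen g * zr g + 2 * N * cen g := by
      intro g
      rcases (hcenL g).eq_or_lt with h1 | h1
      · -- cen g = L, so zr g = N
        have h2 := cen_quot hf g
        rw [cen_comm comm_quot, hLcard, ← h1] at h2
        have hLpos : 0 < L := by rw [h1]; exact cen_pos g
        have h3 := Nat.eq_of_mul_eq_mul_right hLpos h2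
        have h4 : Nat.card f.ker = (Finset.univ.filter (fun y : G => f y = 1)).card := by
          rw [Nat.card_eq_fintype_card]
          exact Fintype.card_of_subtype _ (fun y => by simp [MonoidHom.mem_ker])
        have h5 : Finset.univ.filter (fun y : G => f y = 1 ∧ IsConj g (g * y)) =
            Finset.univ.filter (fun y : G => f y = 1) := by
          apply Finset.eq_of_subset_of_card_le
          · intro y hy
            simp only [Finset.mem_filter, Finset.mem_univ, true_and] at hy ⊢
            exact hy.1
          · refine (h4.symm.trans h3).le.trans (le_of_eq ?_)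
            congr!
        have h6 : ∀ y, f y = 1 → IsConj g (g * y) := by
          intro y hy
          have h7 : y ∈ Finset.univ.filter (fun y : G => f y = 1) := by
            simp only [Finset.mem_filter, Finset.mem_univ, true_and]; exact hy
          rw [← h5, Finset.mem_filter] at h7
          exact h7.2.2
        have h7 := zr_unsplit hf h6
        have h8 : (Irr G).card - (Irr (G ⧸ commutator G)).card = N := by
          show kk G - kk (G ⧸ commutator G) = _
          rw [hkH]
        rw [h8] at h7
        rw [← h1]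
        nlinarith
      · have h2 : 2 * L ≤ cen g := by
          have h3 : cen g ∣ Nat.card G := Subgroup.card_subgroup_dvd_card _
          have h4 : L ∣ Nat.card G := Subgroup.index_dvd_card _
          obtain ⟨n, hn⟩ := IsPGroup.iff_card.1 hG
          rw [hn] at h3 h4
          obtain ⟨a, -, ha⟩ := (Nat.dvd_prime_pow hp.out).1 h3
          obtain ⟨b, -, hb⟩ := (Nat.dvd_prime_pow hp.out).1 h4
          rw [ha, hb] at h1 ⊢
          have hab : b < a := (Nat.pow_lt_pow_iff_right hp.out.one_lt).1 h1
          calc 2 * p ^ b ≤ p * p ^ b := Nat.mul_le_mul_right _ hp.out.two_le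
            _ = p ^ (b + 1) := by rw [pow_succ']
            _ ≤ p ^ a := Nat.pow_le_pow_right hp.out.pos hab
        nlinarith [Nat.zero_le (cen g * zr g), Nat.zero_le N, mul_le_mul_left h2 N]
    have h1 : ∑ g : G, (cen g * N + 2 * N * L) ≤ ∑ g : G, (cen g * zr g + 2 * N * cen g) :=
      Finset.sum_le_sum (fun g _ => hcol g)
    have e1 : ∑ g : G, (cen g * N + 2 * N * L) = Nat.card G * kk G * N + Nat.card G * (2 * N * L) := by
      rw [Finset.sum_add_distrib, ← Finset.sum_mul, ← hk, Finset.sum_const, smul_eq_mul,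
        Finset.card_univ, ← Nat.card_eq_fintype_card]
    have e2 : ∑ g : G, (cen g * zr g + 2 * N * cen g) =
        Nat.card G * zz G + 2 * N * (Nat.card G * kk G) := by
      rw [Finset.sum_add_distrib, ← hz, ← Finset.mul_sum, ← hk]
    rw [e1, e2] at h1
    have hkL : kk G = N + L := by omega
    have h2 : Nat.card G * (N * kk G) ≤ Nat.card G * (zz G + 2 * N ^ 2) := by
      have h3 : Nat.card G * kk G * N + Nat.card G * (2 * N * L) ≤
        Nat.card G * zz G + 2 * N * (Nat.card G * kk G) := h1
      have h4 : 2 * N * (Nat.card G * kk G) = Nat.card G * (2 * N * L) +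
          Nat.card G * (2 * N ^ 2) := by
        rw [hkL]; ring
      rw [h4] at h3
      have h5 : Nat.card G * (N * kk G) = Nat.card G * kk G * N := by ring
      rw [h5, mul_add]
      omega
    exact Nat.le_of_mul_le_mul_left h2 Nat.card_pos

end Pool.Agent.Q18.Anz
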