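import Pool.Agent.Q18.Anz4

set_option linter.style.haveILetI false
set_option linter.unusedSectionVars false

open scoped BigOperators Classical MonoidAlgebra commutatorElement
open Representation Pool.Agent.Helper884.IC

noncomputable section

namespace Pool.Agent.Q18.Anz

attribute [local instance] Fintype.ofFinite

lemma zpowers_normal {G : Type*} [Group G] {z : G} (hz : ∀ g, g * z = z * g) :
    (Subgroup.zpowers z).Normal := by
  constructor
  intro n hn g
  obtain ⟨i, rfl⟩ := Subgroup.mem_zpowers_iff.1 hn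
  have hcom : g * z ^ i = z ^ i * g := (Commute.zpow_right (show Commute g z from hz g) i)
  rw [hcom, mul_assoc, mul_inv_cancel, mul_one]
  exact hn

theorem landau {p : ℕ} [hp : Fact p.Prime] (n : ℕ) : ∀ (G : Type) [Group G] [Fintype G],
    Nat.card G = p ^ n → n + 1 ≤ kk G := by
  induction n with
  | zero =>
    intro G _ _ _
    exact kk_pos
  | succ n ih =>
    intro G _ _ hG
    have hpG : IsPGroup p G := IsPGroup.of_card hG
    haveI : Nontrivial G := by
      rw [← Finite.one_lt_card_iff_nontrivial, hG]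
      exact Nat.one_lt_pow (Nat.succ_ne_zero n) hp.out.one_lt
    haveI hc : Nontrivial (Subgroup.center G) := hpG.center_nontrivial
    have hdvd : p ∣ Nat.card (Subgroup.center G) := by
      obtain ⟨m, hm⟩ := IsPGroup.iff_card.1 (hpG.to_subgroup (Subgroup.center G))
      rw [hm]
      have h1 : 1 < Nat.card (Subgroup.center G) := Finite.one_lt_card_iff_nontrivial.2 hc
      rw [hm] at h1
      exact dvd_pow_self p (fun h => by rw [h, pow_zero] at h1; exact lt_irrefl _ h1)
    obtain ⟨⟨z, hzc⟩, hz⟩ := exists_prime_orderOf_dvd_card' p hdvd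
    rw [Subgroup.orderOf_mk] at hz
    have hzc' : ∀ g, g * z = z * g := Subgroup.mem_center_iff.1 hzc
    haveI := zpowers_normal hzc'
    have hf : Function.Surjective (QuotientGroup.mk' (Subgroup.zpowers z)) :=
      QuotientGroup.mk'_surjective _
    have hk : ∀ y, QuotientGroup.mk' (Subgroup.zpowers z) y = 1 ↔ y ∈ Subgroup.zpowers z :=
      fun y => QuotientGroup.eq_one_iff y
    obtain ⟨s, c, zS, zU, nU, h1, h2, h3, h4, h5, -⟩ := data hp.out hf hzc' hz hk
    have hcard : Nat.card (G ⧸ Subgroup.zpowers z) = p ^ n := by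
      have h6 := Subgroup.card_eq_card_quotient_mul_card_subgroup (Subgroup.zpowers z)
      rw [hG, Nat.card_zpowers, hz, pow_succ] at h6
      exact (Nat.eq_of_mul_eq_mul_right hp.out.pos h6).symm
    have h6 := ih (G ⧸ Subgroup.zpowers z) hcard
    have h7 : (kk (G ⧸ Subgroup.zpowers z) : ℝ) + 1 ≤ kk G := by
      rw [h4, h5]
      have : (2 : ℝ) ≤ p := by exact_mod_cast hp.out.two_le
      nlinarith
    have h8 : kk (G ⧸ Subgroup.zpowers z) + 1 ≤ kk G := by exact_mod_cast h7
    omega

/-- one step of the reduction -/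
theorem step {p : ℕ} [hp : Fact p.Prime] {G : Type} [Group G] [Fintype G] {n : ℕ}
    (hG : Nat.card G = p ^ (n + 1)) (hn : ∃ x y : G, x * y ≠ y * x) :
    ∃ (H : Type) (_ : Group H) (_ : Fintype H), Nat.card H = p ^ n ∧
      (commutator H).index ≤ (commutator G).index ∧ ∃ s c nU : ℝ, 1 ≤ s ∧ 0 ≤ c ∧
      (kk H : ℝ) = s + c ∧ (kk G : ℝ) = p * s + c ∧ (kk G : ℝ) ≤ (commutator G).index * nU ∧
      c * kk H - zz H ≤ nU ∧ (kk G - kk H) * nU ≤ zz G * kk H - zz H * (kk G : ℝ) := by
  have hpG : IsPGroup p G := IsPGroup.of_card hG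
  obtain ⟨h, ⟨y0, hy0⟩, hcen⟩ := exists_h hpG hn
  let δ : G →* G :=
    { toFun := fun x => x * h * x⁻¹ * h⁻¹
      map_one' := by group
      map_mul' := by
        intro x y
        have h1 := hcen y x
        calc x * y * h * (x * y)⁻¹ * h⁻¹ = x * (y * h * y⁻¹ * h⁻¹) * h * x⁻¹ * h⁻¹ := by group
          _ = (y * h * y⁻¹ * h⁻¹) * x * h * x⁻¹ * h⁻¹ := by rw [h1]
          _ = (y * h * y⁻¹ * h⁻¹) * (x * h * x⁻¹ * h⁻¹) := by group
          _ = _ := hcen y _ }
  have hδ : ∀ x, δ x = x * h * x⁻¹ * h⁻¹ := fun _ => rfl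
  set D := δ.range with hD
  have hDc : ∀ d ∈ D, ∀ g, g * d = d * g := by
    rintro _ ⟨x, rfl⟩ g
    exact (hcen x g).symm
  haveI hDn : D.Normal := by
    constructor
    intro d hd g
    rw [hDc d hd g, mul_assoc, mul_inv_cancel, mul_one]
    exact hd
  have hDcard : Nat.card D ≤ (commutator G).index := by
    have h1 : δ.ker.index = Nat.card D := Subgroup.index_ker δ
    rw [← h1]
    apply Nat.le_of_dvd (Nat.pos_of_ne_zero Subgroup.index_ne_zero_of_finite)
    apply Subgroup.index_dvd_of_le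
    rw [commutator_def, Subgroup.commutator_le]
    intro a _ b _
    rw [MonoidHom.mem_ker, map_commutatorElement, commutatorElement_eq_one_iff_mul_comm]
    exact hcen a _
  have hDnt : Nontrivial D := by
    refine ⟨⟨⟨δ y0, y0, rfl⟩, 1, ?_⟩⟩
    intro hcon
    have h1 : δ y0 = 1 := congrArg Subtype.val hcon
    apply hy0
    rw [hδ] at h1
    have h2 : y0 * h = h * y0 := by
      calc y0 * h = (y0 * h * y0⁻¹ * h⁻¹) * h * y0 := by group
        _ = h * y0 := by rw [h1, one_mul]
    exact h2.symm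
  have hdvd : p ∣ Nat.card D := by
    obtain ⟨m, hm⟩ := IsPGroup.iff_card.1 (hpG.to_subgroup D)
    rw [hm]
    have h1 : 1 < Nat.card D := Finite.one_lt_card_iff_nontrivial.2 hDnt
    rw [hm] at h1
    exact dvd_pow_self p (fun h => by rw [h, pow_zero] at h1; exact lt_irrefl _ h1)
  obtain ⟨⟨z, hzD⟩, hz⟩ := exists_prime_orderOf_dvd_card' p hdvd
  rw [Subgroup.orderOf_mk] at hz
  have hzc : ∀ g, g * z = z * g := hDc z hzD
  haveI := zpowers_normal hzc
  have hf : Function.Surjective (QuotientGroup.mk' (Subgroup.zpowers z)) :=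
    QuotientGroup.mk'_surjective _
  have hk : ∀ y, QuotientGroup.mk' (Subgroup.zpowers z) y = 1 ↔ y ∈ Subgroup.zpowers z :=
    fun y => QuotientGroup.eq_one_iff y
  obtain ⟨s, c, zS, zU, nU, h1, h2, h3, h4, h5, h6, h7, h8, h9⟩ := data hp.out hf hzc hz hk
  have hcard : Nat.card (G ⧸ Subgroup.zpowers z) = p ^ n := by
    have h6 := Subgroup.card_eq_card_quotient_mul_card_subgroup (Subgroup.zpowers z)
    rw [hG, Nat.card_zpowers, hz, pow_succ] at h6
    exact (Nat.eq_of_mul_eq_mul_right hp.out.pos h6).symm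
  refine ⟨G ⧸ Subgroup.zpowers z, inferInstance, inferInstance, hcard, ?_, s, c, nU, h1, h2, h4, h5,
    ?_, ?_, ?_⟩
  · have e1 : commutator (G ⧸ Subgroup.zpowers z) =
        (commutator G).map (QuotientGroup.mk' (Subgroup.zpowers z)) := by
      rw [commutator_def, commutator_def, Subgroup.map_commutator,
        ← MonoidHom.range_eq_map, MonoidHom.range_eq_top.2 hf]
    rw [e1]
    exact Nat.le_of_dvd (Nat.pos_of_ne_zero Subgroup.index_ne_zero_of_finite)
      (Subgroup.index_map_dvd _ hf)
  · -- kk G ≤ L * nU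
    have e1 : IsConj h (h * z) := by
      obtain ⟨x, hx⟩ := hzD
      rw [hδ] at hx
      refine isConj_iff.mpr ⟨x, ?_⟩
      rw [hzc, ← hx]
      group
    have e2 := h9 h e1
    have hle : Subgroup.zpowers z ≤ (QuotientGroup.mk' D).ker := by
      rw [QuotientGroup.ker_mk', Subgroup.zpowers_le]
      exact hzD
    set f2 : G ⧸ Subgroup.zpowers z →* G ⧸ D :=
      QuotientGroup.lift (Subgroup.zpowers z) (QuotientGroup.mk' D) hle with hf2
    have hf2s : Function.Surjective f2 := by
      intro q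
      obtain ⟨a, rfl⟩ := QuotientGroup.mk_surjective q
      exact ⟨(a : G ⧸ Subgroup.zpowers z), rfl⟩
    have e3 := nz_ge hf2s (QuotientGroup.mk' (Subgroup.zpowers z) h)
    have e4 : nz (f2 (QuotientGroup.mk' (Subgroup.zpowers z) h)) = kk (G ⧸ D) := by
      apply nz_central
      intro q
      obtain ⟨a, rfl⟩ := QuotientGroup.mk_surjective q
      show ((a * h : G) : G ⧸ D) = ((h * a : G) : G ⧸ D)
      rw [← div_eq_one, ← QuotientGroup.mk_div, QuotientGroup.eq_one_iff]
      refine ⟨a, ?_⟩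
      rw [hδ, div_eq_mul_inv]
      group
    rw [e4] at e3
    have e5 : kk G ≤ Nat.card D * kk (G ⧸ D) := by
      have := irr_card_le (QuotientGroup.mk'_surjective D)
      rw [QuotientGroup.ker_mk'] at this
      exact this
    have e6 : (kk G : ℝ) ≤ (commutator G).index * kk (G ⧸ D) := by
      have : kk G ≤ (commutator G).index * kk (G ⧸ D) := e5.trans (Nat.mul_le_mul_right _ hDcard)
      exact_mod_cast this
    have e7 : (kk (G ⧸ D) : ℝ) ≤ nU := by
      have : (kk (G ⧸ D) : ℝ) ≤ nz (QuotientGroup.mk' (Subgroup.zpowers z) h) := by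
        exact_mod_cast e3
      linarith
    exact e6.trans (mul_le_mul_of_nonneg_left e7 (Nat.cast_nonneg _))
  · rw [h8, h6]
    linarith
  · rw [h8]
    have hp1 : (1 : ℝ) ≤ p := by exact_mod_cast hp.out.one_lt.le
    have hkH0 : (0 : ℝ) ≤ kk (G ⧸ Subgroup.zpowers z) := Nat.cast_nonneg _
    have e1 : (p * zS + zU + c * (kk G - kk (G ⧸ Subgroup.zpowers z))) *
        kk (G ⧸ Subgroup.zpowers z) ≤ zz G * kk (G ⧸ Subgroup.zpowers z) :=
      mul_le_mul_of_nonneg_right h7 hkH0
    have e2 : (0 : ℝ) ≤ zS * ((p - 1) * c) := mul_nonneg h3 (mul_nonneg (by linarith) h2)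
    rw [h6]
    have e3 : (p * zS + zU + c * (kk G - kk (G ⧸ Subgroup.zpowers z))) *
        kk (G ⧸ Subgroup.zpowers z) - (zS + zU) * kk G -
        (kk G - kk (G ⧸ Subgroup.zpowers z)) * (c * kk (G ⧸ Subgroup.zpowers z) - zU) =
        zS * ((p - 1) * c) := by
      rw [h4, h5]; ring
    linarith

theorem case1 {p : ℕ} [hp : Fact p.Prime] (A : ℕ) (hA : 4 ≤ A) (n : ℕ) :
    ∀ (G : Type) [Group G] [Fintype G], Nat.card G = p ^ n → (commutator G).index ≤ A →
      (zz G : ℝ) ≤ A * kk G → (n : ℝ) ≤ 4 * A + 1 + 4 * A * (zz G / kk G) := by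
  induction n with
  | zero =>
    intro G _ _ _ _ _
    rw [Nat.cast_zero]
    positivity
  | succ n ih =>
    intro G _ _ hG hL hz
    have hA' : (4 : ℝ) ≤ A := by exact_mod_cast hA
    have hk0 : (0 : ℝ) < kk G := by exact_mod_cast kk_pos
    by_cases hab : ∃ x y : G, x * y ≠ y * x
    · obtain ⟨H, i1, i2, hH, hLH, s, c, nU, h1, h2, h3, h4, h5, h6, h7⟩ := step hG hab
      have hk1 : (0 : ℝ) < kk H := by exact_mod_cast kk_pos
      have hp2 : (2 : ℝ) ≤ p := by exact_mod_cast hp.out.two_le
      have hLA : ((commutator G).index : ℝ) ≤ A := by exact_mod_cast hL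
      have hnU : 0 ≤ nU := by
        by_contra hcon
        push Not at hcon
        have : (commutator G).index * nU ≤ 0 :=
          mul_nonpos_of_nonneg_of_nonpos (Nat.cast_nonneg _) hcon.le
        linarith
      have hkA : (kk G : ℝ) ≤ A * nU := h5.trans (mul_le_mul_of_nonneg_right hLA hnU)
      have hd : (kk G : ℝ) - kk H = (p - 1) * s := by rw [h3, h4]; ring
      have hd1 : s ≤ (kk G : ℝ) - kk H := by rw [hd]; nlinarith
      by_cases hsmall : kk H < 4 * A
      · have h8 := landau n H hH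
        have h9 : n + 1 < 4 * A := by omega
        have h10 : ((n + 1 : ℕ) : ℝ) ≤ 4 * A := by exact_mod_cast h9.le
        have h11 : (0 : ℝ) ≤ 4 * A * (zz G / kk G) := by positivity
        linarith
      · push Not at hsmall
        have hkH4 : (4 : ℝ) * A ≤ kk H := by exact_mod_cast hsmall
        -- monotonicity
        have hmono : (zz H : ℝ) * kk G ≤ zz G * kk H := by
          have : 0 ≤ ((kk G : ℝ) - kk H) * nU := mul_nonneg (by linarith) hnU
          linarith
        have hzH : (zz H : ℝ) ≤ A * kk H := by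
          have h8 : (zz H : ℝ) * kk G ≤ (A * kk H) * kk G := by
            calc (zz H : ℝ) * kk G ≤ zz G * kk H := hmono
              _ ≤ (A * kk G) * kk H := mul_le_mul_of_nonneg_right hz hk1.le
              _ = _ := by ring
          exact le_of_mul_le_mul_right h8 hk0
        -- gain
        have hgain : (kk G : ℝ) * kk H ≤ 4 * A * (((kk G : ℝ) - kk H) * nU) := by
          by_cases hs : (kk H : ℝ) / 2 ≤ s
          · have h8 : (kk H : ℝ) / 2 ≤ (kk G : ℝ) - kk H := hs.trans hd1
            have h9 : (kk H : ℝ) / 2 * nU ≤ ((kk G : ℝ) - kk H) * nU :=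
              mul_le_mul_of_nonneg_right h8 hnU
            have h10 : (kk H : ℝ) * kk G ≤ kk H * (A * nU) := mul_le_mul_of_nonneg_left hkA hk1.le
            have h11 : 4 * (A : ℝ) * ((kk H : ℝ) / 2 * nU) ≤ 4 * A * (((kk G : ℝ) - kk H) * nU) :=
              mul_le_mul_of_nonneg_left h9 (by positivity)
            have h12 : (0 : ℝ) ≤ kk H * (A * nU) := by positivity
            nlinarith
          · push Not at hs
            have hc : (kk H : ℝ) / 2 ≤ c := by linarith
            have h8 : (kk H : ℝ) ^ 2 / 4 ≤ nU := by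
              have h9 : (kk H : ℝ) / 2 * kk H ≤ c * kk H := mul_le_mul_of_nonneg_right hc hk1.le
              have h10 : (4 * A : ℝ) * kk H ≤ kk H * kk H := mul_le_mul_of_nonneg_right hkH4 hk1.le
              nlinarith
            have h9 : (p : ℝ) / 2 ≤ (kk G : ℝ) - kk H := by
              rw [hd]
              nlinarith
            have h10 : (kk G : ℝ) ≤ p * kk H := by
              rw [h3, h4]; nlinarith
            have h11 : (p : ℝ) / 2 * ((kk H : ℝ) ^ 2 / 4) ≤ ((kk G : ℝ) - kk H) * nU :=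
              mul_le_mul h9 h8 (by positivity) (by linarith)
            have h12 : (kk G : ℝ) * kk H ≤ p * kk H * kk H := mul_le_mul_of_nonneg_right h10 hk1.le
            have h13 : (16 : ℝ) * (((kk G : ℝ) - kk H) * nU) ≤
                4 * A * (((kk G : ℝ) - kk H) * nU) := by
              apply mul_le_mul_of_nonneg_right (by linarith)
              exact mul_nonneg (by linarith) hnU
            nlinarith
        have h8 := ih H hH (hLH.trans hL) hzH
        have h9 : (4 : ℝ) * A * (zz H / kk H) + 1 ≤ 4 * A * (zz G / kk G) := by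
          have h10 : (kk G : ℝ) * kk H ≤ 4 * A * (zz G * kk H - zz H * (kk G : ℝ)) := by
            refine hgain.trans ?_
            exact mul_le_mul_of_nonneg_left h7 (by positivity)
          have h11 : 4 * (A : ℝ) * (zz G / kk G) - 4 * A * (zz H / kk H) =
              4 * A * (zz G * kk H - zz H * (kk G : ℝ)) / (kk G * kk H) := by
            field_simp
          have h12 : (1 : ℝ) ≤ 4 * A * (zz G * kk H - zz H * (kk G : ℝ)) / (kk G * kk H) := by
            rw [le_div_iff₀ (mul_pos hk0 hk1), one_mul]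
            exact h10
          linarith
        push_cast
        linarith
    · push Not at hab
      have h1 : commutator G = ⊥ := by
        rw [commutator_def, eq_bot_iff, Subgroup.commutator_le]
        intro a _ b _
        rw [Subgroup.mem_bot, commutatorElement_eq_one_iff_mul_comm]
        exact hab a b
      rw [h1, Subgroup.index_bot, hG] at hL
      have h2 : n + 1 < p ^ (n + 1) := Nat.lt_pow_self hp.out.one_lt
      have h3 : ((n + 1 : ℕ) : ℝ) ≤ A := by exact_mod_cast (h2.le.trans hL)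
      have h4 : (0 : ℝ) ≤ 4 * A * (zz G / kk G) := by positivity
      have h5 : (0 : ℝ) ≤ A := Nat.cast_nonneg _
      linarith

lemma index_lt_kk {G : Type} [Group G] [Fintype G] (hn : ∃ x y : G, x * y ≠ y * x) :
    (commutator G).index < kk G := by
  have hf : Function.Surjective (QuotientGroup.mk' (commutator G)) :=
    QuotientGroup.mk'_surjective _
  have hcenL : ∀ g : G, (commutator G).index ≤ cen g := by
    intro g
    have h5 := cen_quot_ge hf g
    rw [cen_comm comm_quot] at h5
    exact h5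
  have hlt : (commutator G).index < cen (1 : G) := by
    have hcen1 : cen (1 : G) = Nat.card G := by
      unfold cen
      have : Subgroup.centralizer ({1} : Set G) = ⊤ := by
        ext x
        rw [Subgroup.mem_centralizer_singleton_iff]
        simp
      rw [this, Subgroup.card_top]
    rw [hcen1]
    apply lt_of_le_of_ne
    · exact Nat.le_of_dvd Nat.card_pos (Subgroup.index_dvd_card _)
    · intro hcon
      have h1 := (commutator G).index_mul_card
      rw [hcon] at h1
      have h2 : Nat.card (commutator G) = 1 :=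
        Nat.eq_of_mul_eq_mul_left Nat.card_pos (by rw [h1, mul_one])
      rw [Subgroup.card_eq_one] at h2
      obtain ⟨x, y, hxy⟩ := hn
      apply hxy
      have h3 : ⁅x, y⁆ ∈ commutator G := by
        rw [commutator_def]
        exact Subgroup.commutator_mem_commutator (Subgroup.mem_top _) (Subgroup.mem_top _)
      rw [h2, Subgroup.mem_bot, commutatorElement_eq_one_iff_mul_comm] at h3
      exact h3
  have h1 : ∑ _g : G, (commutator G).index < ∑ g : G, cen g :=
    Finset.sum_lt_sum (fun g _ => hcenL g) ⟨1, Finset.mem_univ _, hlt⟩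
  rw [← kk_mul, Finset.sum_const, smul_eq_mul, Finset.card_univ, ← Nat.card_eq_fintype_card] at h1
  exact Nat.lt_of_mul_lt_mul_left h1

theorem bound (a : ℝ) : ∃ B : ℝ, ∀ (p : ℕ) (_ : p.Prime) (G : Type) [Group G] [Fintype G],
    IsPGroup p G → (∃ x y : G, x * y ≠ y * x) → (zz G : ℝ) = a * kk G →
    (Nat.card G : ℝ) ≤ B := by
  set A : ℕ := ⌈4 * a⌉₊ + 4 with hA
  have hA4 : 4 ≤ A := by omega
  have haA : 4 * a ≤ A := by
    rw [hA]; push_cast
    have := Nat.le_ceil (4 * a)
    linarith
  set M : ℕ := ⌊(4 : ℝ) * A + 1 + 4 * A * a⌋₊ with hM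
  set δ : ℝ := (⌊a⌋₊ : ℝ) + 1 - a with hδ
  have hδ0 : 0 < δ := by
    rw [hδ]; linarith [Nat.lt_floor_add_one a]
  set K : ℕ := ⌈2 * (A : ℝ) ^ 2 / δ⌉₊ with hK
  refine ⟨max ((A : ℝ) ^ M) ((K : ℝ) ^ K), ?_⟩
  intro p hp G _ _ hG hn hz
  haveI : Fact p.Prime := ⟨hp⟩
  obtain ⟨n, hcard⟩ := IsPGroup.iff_card.1 hG
  have hk0 : (0 : ℝ) < kk G := by exact_mod_cast kk_pos
  have hLk := index_lt_kk hn
  set L := (commutator G).index with hL
  obtain ⟨N, hN⟩ : ∃ N, N = kk G - L := ⟨_, rfl⟩
  have hkNL : kk G = N + L := by omega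
  have hN1 : 1 ≤ N := by omega
  have ha0 : 0 ≤ a := by
    have h1 : (0 : ℝ) ≤ a * kk G := by rw [← hz]; exact Nat.cast_nonneg _
    exact nonneg_of_mul_nonneg_left h1 hk0
  have hpL : p ≤ L := by
    have h1 : L ∣ p ^ n := by rw [← hcard]; exact Subgroup.index_dvd_card _
    obtain ⟨b, -, hb⟩ := (Nat.dvd_prime_pow hp).1 h1
    have hnt : Nontrivial G := by
      obtain ⟨x, y, hxy⟩ := hn
      exact ⟨⟨x * y, y * x, hxy⟩⟩
    haveI := hG.isNilpotent
    have h2 : commutator G < ⊤ := Group.IsSolvable.commutator_lt_top_of_nontrivial G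
    have h3 : L ≠ 1 := fun h => h2.ne (Subgroup.index_eq_one.1 h)
    have hb0 : b ≠ 0 := by
      rintro rfl
      exact h3 (by rw [hb, pow_zero])
    rw [hb]
    exact Nat.le_self_pow hb0 p
  have hdich := dichotomy hG
  rw [← hL, ← hN] at hdich
  have hdich' : (N : ℝ) * L ≤ 2 * (a * (N + L)) := by
    have h1 : ((N * L : ℕ) : ℝ) ≤ ((2 * zz G : ℕ) : ℝ) := by exact_mod_cast hdich
    push_cast at h1
    rw [hz, hkNL] at h1
    push_cast at h1
    exact h1
  have hN0 : (0 : ℝ) ≤ N := Nat.cast_nonneg _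
  have hL0 : (0 : ℝ) ≤ L := Nat.cast_nonneg _
  by_cases hcase : (L : ℝ) ≤ 4 * a
  · -- bounded abelianization
    apply le_max_of_le_left
    have hLA : L ≤ A := by
      have : (L : ℝ) ≤ A := hcase.trans haA
      exact_mod_cast this
    have hzA : (zz G : ℝ) ≤ A * kk G := by
      rw [hz]
      apply mul_le_mul_of_nonneg_right _ hk0.le
      linarith
    have h1 := case1 (p := p) A hA4 n G hcard hLA hzA
    have h2 : (zz G : ℝ) / kk G = a := by
      rw [hz, mul_div_assoc, div_self hk0.ne', mul_one]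
    rw [h2] at h1
    have h3 : n ≤ M := Nat.le_floor h1
    rw [hcard]
    push_cast
    have hpA : (p : ℝ) ≤ A := by exact_mod_cast (hpL.trans hLA)
    have hA1 : (1 : ℝ) ≤ A := by exact_mod_cast (by omega : 1 ≤ A)
    calc (p : ℝ) ^ n ≤ (A : ℝ) ^ n := pow_le_pow_left₀ (Nat.cast_nonneg _) hpA n
      _ ≤ (A : ℝ) ^ M := pow_le_pow_right₀ hA1 h3
  · push Not at hcase
    have hN4 : (N : ℝ) ≤ 4 * a := by
      by_contra hcon
      push Not at hcon
      rcases le_total (N : ℝ) L with h1 | h1
      · have h2 : (N : ℝ) * L ≤ 4 * a * L := by nlinarith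
        have hLpos : (0 : ℝ) < L := by linarith
        nlinarith
      · have h2 : (N : ℝ) * L ≤ 4 * a * N := by nlinarith
        have hNpos : (0 : ℝ) < N := by linarith
        nlinarith
    apply le_max_of_le_right
    obtain ⟨hf1, hf2⟩ := few hG
    rw [← hL, ← hN] at hf1 hf2
    have hf1' : (zz G : ℝ) + N ≤ N * kk G := by exact_mod_cast hf1
    have hf2' : (N : ℝ) * kk G ≤ zz G + 2 * N ^ 2 := by exact_mod_cast hf2
    have hN1' : (1 : ℝ) ≤ N := by exact_mod_cast hN1
    have hNa : a < N := by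
      by_contra hcon
      push Not at hcon
      rw [hz] at hf1'
      nlinarith
    have hNδ : δ ≤ N - a := by
      have h1 : ⌊a⌋₊ + 1 ≤ N := by
        have h2 : ⌊a⌋₊ < N := (Nat.floor_lt ha0).2 hNa
        omega
      have h2 : ((⌊a⌋₊ + 1 : ℕ) : ℝ) ≤ N := by exact_mod_cast h1
      push_cast at h2
      rw [hδ]; linarith
    have hkδ : (kk G : ℝ) * δ ≤ 2 * A ^ 2 := by
      have h1 : (kk G : ℝ) * δ ≤ kk G * (N - a) := mul_le_mul_of_nonneg_left hNδ hk0.le
      have h2 : (kk G : ℝ) * (N - a) ≤ 2 * N ^ 2 := by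
        rw [hz] at hf2'
        linarith
      have h3 : (N : ℝ) ^ 2 ≤ A ^ 2 := pow_le_pow_left₀ hN0 (hN4.trans haA) 2
      linarith
    have hkK : kk G ≤ K := by
      have h1 : (kk G : ℝ) ≤ 2 * A ^ 2 / δ := by
        rw [le_div_iff₀ hδ0]; exact hkδ
      have h2 : (kk G : ℝ) ≤ K := h1.trans (Nat.le_ceil _)
      exact_mod_cast h2
    have hnk := landau n G hcard
    have hnK : n ≤ K := by omega
    have hpK : p ≤ K := by omega
    have hK1 : (1 : ℝ) ≤ K := by exact_mod_cast (hp.one_lt.le.trans hpK)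
    rw [hcard]
    push_cast
    calc (p : ℝ) ^ n ≤ (K : ℝ) ^ n :=
          pow_le_pow_left₀ (Nat.cast_nonneg _) (by exact_mod_cast hpK) n
      _ ≤ (K : ℝ) ^ K := pow_le_pow_right₀ hK1 hnK

end Pool.Agent.Q18.Anz
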