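import Pool.Agent.Q61.BS.Stm

/-!
# Job COV of project BS
-/

set_option autoImplicit false

open Real

namespace Pool.Agent.Q18.BS_COV

open Pool.Agent.Q61.BS

theorem zc_congr {ω ω' : ℕ → Fin 4} {n : ℕ} (h : ∀ k < n, (ω k = 0 ↔ ω' k = 0)) :
    zc ω n = zc ω' n := by
  unfold zc
  congr 1
  apply Finset.filter_congr
  intro k hk
  exact h k (Finset.mem_range.1 hk)

theorem cov (h : S_mmn) (h1 : S_hgt) : S_cov := by
  intro β₁ β₂ θ hβ₁ hβ₂ ω n hθ
  obtain ⟨hz, -⟩ := h1 β₁ β₂ ω n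
  obtain ⟨hnm, -, -⟩ := h β₁ β₂ hβ₁ hβ₂ n (zc ω n) hz
  obtain ⟨m, hm⟩ : ∃ m, mm β₁ β₂ n (zc ω n) = m := ⟨_, rfl⟩
  rw [hm] at hnm hθ
  let τ : Fin (mm β₁ β₂ n (zc ω n)) → Fin 4 :=
    fun k => if (k : ℕ) < n then ω k else if ω k = 0 then 0 else 1
  have hex1 : ∀ k < n, ex τ k = ω k := by
    intro k hk
    have hk' : k < mm β₁ β₂ n (zc ω n) := by omega
    simp only [ex, hk', dif_pos, τ, hk, if_true]
  have hex2 : ∀ k, n ≤ k → k < m → ex τ k = if ω k = 0 then 0 else 1 := by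
    intro k hk hkm
    have hk' : k < mm β₁ β₂ n (zc ω n) := by omega
    have hk'' : ¬ k < n := by omega
    simp only [ex, hk', dif_pos, τ, hk'', if_false]
  have hex3 : ∀ k < m, (ex τ k = 0 ↔ ω k = 0) := by
    intro k hk
    rcases lt_or_ge k n with hkn | hkn
    · rw [hex1 k hkn]
    · rw [hex2 k hkn hk]
      split_ifs with h0
      · simp [h0]
      · simp [h0]
  refine ⟨τ, ⟨?_, ?_, ?_⟩, ?_⟩
  · exact zc_congr fun k hk => by rw [hex1 k hk]
  · intro k hk hkm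
    rw [hm] at hkm
    rw [hex2 k hk hkm]
    split_ifs with h0
    · exact Or.inl rfl
    · exact Or.inr rfl
  · have hz3 : zc (ex τ) (mm β₁ β₂ n (zc ω n)) = zc ω (mm β₁ β₂ n (zc ω n)) :=
      zc_congr fun k hk => hex3 k (by omega)
    rw [hz3, hm]
    exact hθ
  · refine ⟨fun k hk => (hex1 k hk).symm, fun k hk => ?_⟩
    rw [hm] at hk
    exact (hex3 k hk).symm

end Pool.Agent.Q18.BS_COV
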