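import Mathlib

/-!
The class of all groups of order at most `p ^ 6` different from a fixed group `X` of order `p ^ 6`
all of whose automorphisms of `p`-power order are trivial modulo the center: in all `p`-groups the
maximal normal subgroups in the class are maximal subgroups in the class, but the number of
overgroups of index `p` is not always congruent to one modulo `p`.
-/

namespace Q18.Cgr

open scoped commutatorElement

theorem ncard_sub {G : Type} [Group G] (K : Subgroup G) : (K : Set G).ncard = Nat.card K :=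
  (Nat.card_coe_set_eq (K : Set G)).symm

/-- The properties of the group `X`. -/
structure Good (p : ℕ) (X : Type) [Group X] : Prop where
  card : Nat.card X = p ^ 6
  pow_mem : ∀ x : X, x ^ p ∈ Subgroup.center X
  cen_pow : ∀ z ∈ Subgroup.center X, ∃ y : X, y ^ p = z
  cen_exp : ∀ z ∈ Subgroup.center X, z ^ p = 1
  pow_cen : ∀ x : X, x ^ p = 1 → x ∈ Subgroup.center X
  aut : ∀ (φ : MulAut X) (n : ℕ), φ ^ (p ^ n) = 1 → ∀ x, φ x * x⁻¹ ∈ Subgroup.center X

/-- The class of groups. -/
def Cls (p : ℕ) (X : Type) [Group X] (Y : Type) [Group Y] : Prop :=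
  Finite Y ∧ Nat.card Y ≤ p ^ 6 ∧ ¬ Nonempty (Y ≃* X)

section general

variable {p : ℕ} [hp : Fact p.Prime]

/-- a nontrivial normal subgroup of a finite `p`-group contains a nontrivial central element -/
theorem exists_central {Q : Type} [Group Q] [Finite Q] (hQ : IsPGroup p Q) (N : Subgroup Q)
    [hN : N.Normal] (h : N ≠ ⊥) : ∃ z ∈ N, z ∈ Subgroup.center Q ∧ z ≠ 1 := by
  have hN1 : Nontrivial N := (Subgroup.nontrivial_iff_ne_bot N).2 h
  have hdvd : p ∣ Nat.card N := by
    rcases (hQ.to_subgroup N).card_eq_or_dvd with h1 | h1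
    · exact absurd (Finite.one_lt_card (α := N)) (by omega)
    · exact h1
  obtain ⟨b, hb, hb1⟩ := (hQ.of_equiv
    ConjAct.toConjAct).exists_fixed_point_of_prime_dvd_card_of_fixed_point N hdvd
    (a := (1 : N)) (fun g => smul_one g)
  refine ⟨b.1, b.2, ?_, fun h1 => hb1 (Subtype.ext h1.symm)⟩
  rw [Subgroup.mem_center_iff]
  intro g
  have h2 := congrArg Subtype.val (hb (ConjAct.toConjAct g))
  have h3 : g * b.1 * g⁻¹ = b.1 := h2
  rw [mul_inv_eq_iff_eq_mul] at h3
  exact h3

/-- one more power -/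
theorem exists_order {Q : Type} [Group Q] [Finite Q] (hQ : IsPGroup p Q) (N : Subgroup Q)
    [hN : N.Normal] (h : N ≠ ⊥) : ∃ z ∈ N, z ∈ Subgroup.center Q ∧ orderOf z = p := by
  obtain ⟨z, hzN, hzc, hz1⟩ := exists_central hQ N h
  obtain ⟨k, hk⟩ := (IsPGroup.iff_orderOf.1 hQ) z
  have hk0 : k ≠ 0 := by
    rintro rfl
    rw [pow_zero, orderOf_eq_one_iff] at hk
    exact hz1 hk
  obtain ⟨m, rfl⟩ := Nat.exists_eq_succ_of_ne_zero hk0
  refine ⟨z ^ (p ^ m), N.pow_mem hzN _, Subgroup.pow_mem _ hzc _, ?_⟩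
  rw [orderOf_pow_of_dvd (pow_ne_zero _ hp.out.ne_zero) (by rw [hk]; exact pow_dvd_pow _ (by omega)),
    hk, pow_succ, Nat.mul_div_cancel_left _ (pow_pos hp.out.pos _)]

variable {L : Type} [Group L] [Finite L] (N : Subgroup L) [N.Normal]

/-- preimages of cyclic subgroups -/
theorem card_comap_zpowers {v : L} (hv : orderOf (QuotientGroup.mk v : L ⧸ N) = p) :
    Nat.card ((Subgroup.zpowers (QuotientGroup.mk v : L ⧸ N)).comap (QuotientGroup.mk' N)) =
      p * Nat.card N := by
  set Z := Subgroup.zpowers (QuotientGroup.mk v : L ⧸ N)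
  have h1 : (Z.comap (QuotientGroup.mk' N)).index = Z.index :=
    Z.index_comap_of_surjective (QuotientGroup.mk'_surjective N)
  have h2 := (Z.comap (QuotientGroup.mk' N)).card_mul_index
  have h3 := Z.card_mul_index
  have h4 : Nat.card L = Nat.card (L ⧸ N) * Nat.card N := N.card_eq_card_quotient_mul_card_subgroup
  have h5 : Nat.card Z = p := by rw [Nat.card_zpowers, hv]
  rw [h1] at h2
  rw [h5] at h3
  have h6 : 0 < Z.index := Nat.pos_of_ne_zero Z.index_ne_zero_of_finite
  apply Nat.eq_of_mul_eq_mul_right h6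
  rw [h2, h4, ← h3]
  ring

theorem order_mk {v : L} (h1 : v ∉ N) (h2 : v ^ p ∈ N) :
    orderOf (QuotientGroup.mk v : L ⧸ N) = p := by
  apply orderOf_eq_prime
  · rw [← QuotientGroup.mk_pow, QuotientGroup.eq_one_iff]
    exact h2
  · rw [Ne, QuotientGroup.eq_one_iff]
    exact h1

theorem le_comap (v : L) :
    N ≤ (Subgroup.zpowers (QuotientGroup.mk v : L ⧸ N)).comap (QuotientGroup.mk' N) := by
  intro n hn
  rw [Subgroup.mem_comap]
  have : QuotientGroup.mk' N n = 1 := by
    rw [QuotientGroup.mk'_apply, QuotientGroup.eq_one_iff]; exact hn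
  rw [this]
  exact Subgroup.one_mem _

theorem mem_comap_self (v : L) :
    v ∈ (Subgroup.zpowers (QuotientGroup.mk v : L ⧸ N)).comap (QuotientGroup.mk' N) := by
  rw [Subgroup.mem_comap]
  exact Subgroup.mem_zpowers _

theorem pow_mem_of_comap {v : L} (h2 : v ^ p ∈ N) {y : L}
    (hy : y ∈ (Subgroup.zpowers (QuotientGroup.mk v : L ⧸ N)).comap (QuotientGroup.mk' N)) :
    y ^ p ∈ N := by
  rw [Subgroup.mem_comap] at hy
  obtain ⟨k, hk⟩ := Subgroup.mem_zpowers_iff.1 hy
  rw [← QuotientGroup.eq_one_iff, QuotientGroup.mk_pow]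
  have h3 : (QuotientGroup.mk y : L ⧸ N) = (QuotientGroup.mk v : L ⧸ N) ^ k := hk.symm
  rw [h3, ← zpow_natCast, ← zpow_mul, mul_comm, zpow_mul, zpow_natCast, ← QuotientGroup.mk_pow,
    (QuotientGroup.eq_one_iff _).2 h2, one_zpow]

end general

section part1

variable {p : ℕ} [hp : Fact p.Prime] {X : Type} [Group X] (hX : Good p X)
include hX

/-- two automorphisms trivial modulo the center commute -/
theorem aut_comm {φ ψ : MulAut X} (hφ : ∀ x, φ x * x⁻¹ ∈ Subgroup.center X)
    (hψ : ∀ x, ψ x * x⁻¹ ∈ Subgroup.center X) (x : X) : φ (ψ x) = ψ (φ x) := by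
  have key : ∀ φ : MulAut X, (∀ x, φ x * x⁻¹ ∈ Subgroup.center X) →
      ∀ z ∈ Subgroup.center X, φ z = z := by
    intro φ hφ z hz
    obtain ⟨y, rfl⟩ := hX.cen_pow z hz
    rw [map_pow]
    have h1 : φ y = (φ y * y⁻¹) * y := by group
    rw [h1, (show Commute (φ y * y⁻¹) y from
      (Subgroup.mem_center_iff.1 (hφ y) y).symm).mul_pow, hX.cen_exp _ (hφ y), one_mul]
  have h1 : ψ x = (ψ x * x⁻¹) * x := by group
  have h2 : φ x = (φ x * x⁻¹) * x := by group
  have e1 : φ (ψ x) = (ψ x * x⁻¹) * ((φ x * x⁻¹) * x) := by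
    conv_lhs => rw [h1, map_mul, key φ hφ _ (hψ x), h2]
  have e2 : ψ (φ x) = (φ x * x⁻¹) * ((ψ x * x⁻¹) * x) := by
    conv_lhs => rw [h2, map_mul, key ψ hψ _ (hφ x), h1]
  rw [e1, e2, ← mul_assoc (ψ x * x⁻¹), ← mul_assoc (φ x * x⁻¹),
    Subgroup.mem_center_iff.1 (hφ x) (ψ x * x⁻¹)]

/-- a normal subgroup isomorphic to `X` is centralised by commutators, and the latter, if they
lie in it, are `p`-th powers -/
theorem comm_pow {G : Type} [Group G] [Finite G] (hG : IsPGroup p G) (K : Subgroup G)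
    [hK : K.Normal] (e : K ≃* X) {c : G} (hc : c ∈ commutator G) (hcK : c ∈ K) :
    ∃ y ∈ K, y ^ p = c := by
  -- the action on `X`
  let f : G →* MulAut X := (MulAut.congr e).toMonoidHom.comp (MulAut.conjNormal (H := K))
  have hf : ∀ g k, f g (e k) = e (MulAut.conjNormal g k) := by
    intro g k
    change e (MulAut.conjNormal g (e.symm (e k))) = _
    rw [e.symm_apply_apply]
  have htriv : ∀ g x, f g x * x⁻¹ ∈ Subgroup.center X := by
    intro g
    obtain ⟨n, hn⟩ := hG g
    apply hX.aut (f g) n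
    rw [← map_pow, hn, map_one]
  have hcomm : commutator G ≤ f.ker := by
    rw [commutator_eq_closure, Subgroup.closure_le]
    rintro _ ⟨g, h, rfl⟩
    rw [SetLike.mem_coe, MonoidHom.mem_ker]
    rw [commutatorElement_def, map_mul, map_mul, map_mul, map_inv, map_inv, mul_inv_eq_one,
      mul_inv_eq_iff_eq_mul]
    ext x
    exact aut_comm hX (htriv g) (htriv h) x
  have hc1 := hcomm hc
  rw [MonoidHom.mem_ker] at hc1
  have hcen : e ⟨c, hcK⟩ ∈ Subgroup.center X := by
    rw [Subgroup.mem_center_iff]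
    intro x
    obtain ⟨k, rfl⟩ := e.surjective x
    have h2 := hf c k
    rw [hc1] at h2
    have h3 : k = MulAut.conjNormal c k := e.injective h2
    have h4 := congrArg Subtype.val h3
    rw [MulAut.conjNormal_apply] at h4
    rw [← map_mul, ← map_mul]
    congr 1
    apply Subtype.ext
    change k.1 * c = c * k.1
    conv_lhs => rw [h4]
    group
  obtain ⟨y, hy⟩ := hX.cen_pow _ hcen
  refine ⟨(e.symm y).1, (e.symm y).2, ?_⟩
  have h5 : (e.symm y) ^ p = ⟨c, hcK⟩ := by
    rw [← map_pow, hy, e.symm_apply_apply]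
  exact congrArg Subtype.val h5

/-- Part 1. -/
theorem part1 {G : Type} [Group G] [Finite G] (hG : IsPGroup p G) (H : Subgroup G)
    (hHn : H.Normal) (hmax : ∀ K : Subgroup G, K.Normal → Cls p X K → ¬ H < K) :
    ∀ K : Subgroup G, Cls p X K → ¬ H < K := by
  intro K hK hlt
  have hQ : IsPGroup p (G ⧸ H) := hG.to_quotient H
  have hcardlt : Nat.card H < Nat.card K := by
    have := Set.ncard_lt_ncard (SetLike.coe_ssubset_coe.2 hlt) (Set.toFinite _)
    rwa [ncard_sub, ncard_sub] at this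
  obtain ⟨m, hm⟩ := (IsPGroup.iff_card.1 (hG.to_subgroup H))
  obtain ⟨k, hk⟩ := (IsPGroup.iff_card.1 (hG.to_subgroup K))
  have hmk : m < k := by
    rw [hm, hk] at hcardlt
    exact (Nat.pow_lt_pow_iff_right hp.out.one_lt).1 hcardlt
  have hk6 : k ≤ 6 := by
    have := hK.2.1
    rw [hk] at this
    exact (Nat.pow_le_pow_iff_right hp.out.one_lt).1 this
  by_cases hab : commutator (G ⧸ H) = ⊥
  · -- abelian quotient
    apply hmax K _ hK hlt
    constructor
    intro n hn g
    have h1 : (QuotientGroup.mk (g * n * g⁻¹ * n⁻¹) : G ⧸ H) = 1 := by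
      have h2 : ⁅(QuotientGroup.mk g : G ⧸ H), (QuotientGroup.mk n : G ⧸ H)⁆ ∈
          commutator (G ⧸ H) := by
        rw [commutator_eq_closure]
        exact Subgroup.subset_closure ⟨_, _, rfl⟩
      rw [hab, Subgroup.mem_bot] at h2
      rw [← h2]
      rfl
    rw [QuotientGroup.eq_one_iff] at h1
    have h3 : g * n * g⁻¹ = (g * n * g⁻¹ * n⁻¹) * n := by group
    rw [h3]
    exact K.mul_mem (hlt.le h1) hn
  · obtain ⟨z, hz1, hz2, hz3⟩ := exists_order hQ (commutator (G ⧸ H)) hab
    obtain ⟨v, hv⟩ := QuotientGroup.mk'_surjective H z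
    have hv' : (QuotientGroup.mk v : G ⧸ H) = z := hv
    set N := (Subgroup.zpowers (QuotientGroup.mk v : G ⧸ H)).comap (QuotientGroup.mk' H) with hN
    have hcard : Nat.card N = p * Nat.card H := card_comap_zpowers H (by rw [hv']; exact hz3)
    have hHN : H ≤ N := le_comap H v
    have hvN : v ∈ N := mem_comap_self H v
    have hvH : v ∉ H := by
      intro h
      rw [← QuotientGroup.eq_one_iff, hv'] at h
      rw [h, orderOf_one] at hz3
      exact hp.out.one_lt.ne hz3
    have hltN : H < N := lt_of_le_of_ne hHN (fun h => hvH (h ▸ hvN))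
    have hNn : N.Normal := by
      have : (Subgroup.zpowers (QuotientGroup.mk v : G ⧸ H)).Normal := by
        rw [hv']
        constructor
        intro n hn g
        have hnc : n ∈ Subgroup.center (G ⧸ H) := by
          have : Subgroup.zpowers z ≤ Subgroup.center (G ⧸ H) := by
            rwa [Subgroup.zpowers_le]
          exact this hn
        rw [Subgroup.mem_center_iff.1 hnc g, mul_inv_cancel_right]
        exact hn
      exact this.comap _
    have hncls := fun h => hmax N hNn h hltN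
    have hNcard : Nat.card N ≤ p ^ 6 := by
      rw [hcard, hm, ← pow_succ']
      exact Nat.pow_le_pow_right hp.out.pos (by omega)
    have hiso : Nonempty (N ≃* X) := by
      by_contra hcon
      exact hncls ⟨inferInstance, hNcard, hcon⟩
    obtain ⟨e⟩ := hiso
    -- `v = c h` with `c` in the commutator subgroup
    have hmap : (commutator G).map (QuotientGroup.mk' H) = commutator (G ⧸ H) := by
      rw [commutator_def, Subgroup.map_commutator, commutator_def,
        Subgroup.map_top_of_surjective _ (QuotientGroup.mk'_surjective H)]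
    rw [← hmap] at hz1
    obtain ⟨c, hc, hcz⟩ := hz1
    have hcv : c⁻¹ * v ∈ H := by
      rw [← QuotientGroup.eq]
      exact hcz.trans hv'.symm
    have hcN : c ∈ N := by
      have h1 : c = v * (c⁻¹ * v)⁻¹ := by group
      rw [h1]
      exact N.mul_mem hvN (N.inv_mem (hHN hcv))
    obtain ⟨y, hyN, hy⟩ := comm_pow hX hG N e hc hcN
    have hvp : v ^ p ∈ H := by
      rw [← QuotientGroup.eq_one_iff, QuotientGroup.mk_pow, hv', ← hz3, pow_orderOf_eq_one]
    have hcH : c ∈ H := by
      rw [← hy]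
      exact pow_mem_of_comap H hvp hyN
    apply hvH
    have h1 : v = c * (c⁻¹ * v) := by group
    rw [h1]
    exact H.mul_mem hcH hcv

end part1

section part2

variable {p : ℕ} [hp : Fact p.Prime] {X : Type} [Group X] (hX : Good p X)

theorem card_between {G : Type} [Group G] {m : ℕ} {S T : Subgroup G}
    [Finite G] (hS : Nat.card S = p ^ m) (hT : Nat.card T = p ^ (m + 1)) {U : Subgroup G}
    (h1 : S < U) (h2 : U ≤ T) : U = T := by
  have hcardlt : Nat.card S < Nat.card U := by
    have := Set.ncard_lt_ncard (SetLike.coe_ssubset_coe.2 h1) (Set.toFinite _)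
    rwa [ncard_sub, ncard_sub] at this
  have hdvd := Subgroup.card_dvd_of_le h2
  rw [hT, Nat.dvd_prime_pow hp.out] at hdvd
  obtain ⟨k, hk, hk'⟩ := hdvd
  rw [hS, hk', Nat.pow_lt_pow_iff_right hp.out.one_lt] at hcardlt
  have : k = m + 1 := by omega
  subst this
  exact Subgroup.eq_of_le_of_card_ge h2 (by rw [hT, hk'])

/-- The number of overgroups of index `p` in a group of order `p ^ 7` of a subgroup of order
`p ^ 5`. -/
theorem card_over {L : Type} [Group L] [Finite L] (hL : Nat.card L = p ^ 7) (H : Subgroup L)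
    (hH : Nat.card H = p ^ 5) :
    {K : Subgroup L | H < K ∧ Nat.card K = p ^ 6}.ncard ≤ p + 1 := by
  classical
  have : Fintype L := Fintype.ofFinite L
  set T := {K : Subgroup L | H < K ∧ Nat.card K = p ^ 6} with hT
  have hTf : T.Finite := Set.toFinite _
  rw [Set.ncard_eq_toFinset_card T hTf]
  set F : Subgroup L → Finset L := fun K => (((K : Set L) \ (H : Set L)).toFinset) with hF
  have hcF : ∀ K ∈ hTf.toFinset, (F K).card = p ^ 6 - p ^ 5 := by
    intro K hK
    rw [Set.Finite.mem_toFinset] at hK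
    rw [hF]
    simp only
    rw [← Set.ncard_eq_toFinset_card', Set.ncard_sdiff (SetLike.coe_subset_coe.2 hK.1.le)
      (Set.toFinite _)]
    have e1 : (K : Set L).ncard = Nat.card K := ncard_sub K
    have e2 : (H : Set L).ncard = Nat.card H := ncard_sub H
    rw [e1, e2, hK.2, hH]
  have hdisj : ((hTf.toFinset : Finset (Subgroup L)) : Set (Subgroup L)).PairwiseDisjoint F := by
    intro K hK K' hK' hne
    rw [Finset.mem_coe, Set.Finite.mem_toFinset] at hK hK'
    rw [Function.onFun, Finset.disjoint_left]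
    intro y hy hy'
    rw [hF] at hy hy'
    simp only [Set.mem_toFinset, Set.mem_sdiff, SetLike.mem_coe] at hy hy'
    apply hne
    have h1 : H < K ⊓ K' := lt_of_le_of_ne (le_inf hK.1.le hK'.1.le)
      (fun h => hy.2 (h ▸ ⟨hy.1, hy'.1⟩))
    have h2 := card_between hH hK.2 h1 inf_le_left
    have h3 := card_between hH hK'.2 h1 inf_le_right
    exact h2.symm.trans h3
  have hsum := Finset.card_biUnion hdisj
  rw [Finset.sum_congr rfl hcF, Finset.sum_const, smul_eq_mul] at hsum
  have hle : (hTf.toFinset.biUnion F).card ≤ p ^ 7 - p ^ 5 := by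
    have hsub : hTf.toFinset.biUnion F ⊆ ((Set.univ : Set L) \ (H : Set L)).toFinset := by
      intro y hy
      rw [Finset.mem_biUnion] at hy
      obtain ⟨K, _, hy⟩ := hy
      rw [hF] at hy
      simp only [Set.mem_toFinset, Set.mem_sdiff, SetLike.mem_coe] at hy
      rw [Set.mem_toFinset]
      exact ⟨trivial, hy.2⟩
    refine (Finset.card_le_card hsub).trans ?_
    rw [← Set.ncard_eq_toFinset_card', Set.ncard_sdiff (Set.subset_univ _) (Set.toFinite _),
      Set.ncard_univ, hL]
    have e2 : (H : Set L).ncard = Nat.card H := ncard_sub H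
    rw [e2, hH]
  rw [hsum] at hle
  by_contra hcon
  push Not at hcon
  have hp2 := hp.out.two_le
  have h5 : 0 < p ^ 5 := pow_pos hp.out.pos 5
  have e6 : p ^ 6 = p * p ^ 5 := by ring
  have e7 : p ^ 7 = p * p * p ^ 5 := by ring
  have h1 : (p + 2) * (p ^ 6 - p ^ 5) ≤ p ^ 7 - p ^ 5 :=
    (Nat.mul_le_mul_right _ hcon).trans hle
  obtain ⟨q, rfl⟩ : ∃ q, p = q + 2 := ⟨p - 2, by omega⟩
  rw [e6, e7] at h1
  set P := (q + 2) ^ 5
  have e8 : (q + 2) * P - P = (q + 1) * P := by
    rw [show (q + 2) * P = (q + 1) * P + P by ring]; omega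
  have e9 : (q + 2) * (q + 2) * P - P = ((q + 2) * (q + 2) - 1) * P := by
    rw [Nat.sub_mul, one_mul]
  rw [e8, e9] at h1
  have e10 : (q + 2) * (q + 2) - 1 = (q + 3) * (q + 1) := by
    have : (q + 2) * (q + 2) = (q + 3) * (q + 1) + 1 := by ring
    omega
  rw [e10] at h1
  nlinarith

/-- the number of overgroups -/
noncomputable def numA (p : ℕ) (C : ∀ (Y : Type) [Group Y], Prop) {L : Type} [Group L]
    (H : Subgroup L) : ℕ :=
  Nat.card {K : Subgroup L // H < K ∧ C K ∧ H.relIndex K = p}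

include hX in
/-- Part 2, abstract form -/
theorem part2a {L : Type} [Group L] [Finite L] (hL : Nat.card L = p ^ 7) (ι : X →* L)
    (hι : Function.Injective ι) (c : L) (hc : ∀ y, c * y = y * c) (hcι : c ∉ ι.range)
    (hgen : ∀ y : L, ∃ (a : X) (k : ℤ), y = ι a * c ^ k) (H₀ : Subgroup X)
    (hH₀ : Nat.card H₀ = p ^ 5) (x : X) (hx : x ∉ H₀) (hxc : (ι x) ^ p * c ^ p = 1) :
    ∃ H : Subgroup L, Cls p X H ∧ numA p (fun Y _ => Cls p X Y) H ≠ 0 ∧
      ¬ numA p (fun Y _ => Cls p X Y) H ≡ 1 [MOD p] := by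
  classical
  have hXf : Finite X := Finite.of_injective ι hι
  have hidx : H₀.index = p := by
    have := H₀.card_mul_index
    rw [hH₀, hX.card, pow_succ] at this
    exact Nat.eq_of_mul_eq_mul_left (pow_pos hp.out.pos 5) this
  have hH₀n : H₀.Normal := by
    apply Subgroup.normal_of_index_eq_minFac_card
    rw [hidx, hX.card, Nat.Prime.pow_minFac hp.out (by norm_num)]
  have hpow₀ : ∀ a : X, a ^ p ∈ H₀ := by
    intro a
    rw [← QuotientGroup.eq_one_iff, QuotientGroup.mk_pow]
    have : Nat.card (X ⧸ H₀) = p := hidx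
    rw [← this]
    exact pow_card_eq_one'
  set H := H₀.map ι with hH
  have hHcard : Nat.card H = p ^ 5 := by
    rw [← hH₀]
    exact Nat.card_congr (H₀.equivMapOfInjective ι hι).toEquiv.symm
  have hck : ∀ (k : ℤ) (y : L), c ^ k * y = y * c ^ k := by
    intro k y
    exact ((show Commute c y from hc y).zpow_left k).eq
  have hHn : H.Normal := by
    constructor
    rintro _ ⟨h, hh, rfl⟩ g
    obtain ⟨a, k, rfl⟩ := hgen g
    refine ⟨a * h * a⁻¹, hH₀n.conj_mem h hh a, ?_⟩
    rw [map_mul, map_mul, map_inv, mul_inv_rev, mul_assoc (ι a) (c ^ k), hck k (ι h)]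
    group
  have hHr : H ≤ ι.range := by
    rintro _ ⟨h, _, rfl⟩
    exact ⟨h, rfl⟩
  -- the element `u`
  set u := ι x * c with hu
  have hup : u ^ p = 1 := by
    rw [hu, (show Commute (ι x) c from (hc _).symm).mul_pow, hxc]
  have huH : u ∉ H := by
    intro h
    apply hcι
    have h1 : c = (ι x)⁻¹ * u := by rw [hu]; group
    rw [h1]
    exact ι.range.mul_mem (ι.range.inv_mem ⟨x, rfl⟩) (hHr h)
  have hcH : c ∉ H := fun h => hcι (hHr h)
  have hcp : c ^ p ∈ H := by
    have h1 : c ^ p = (ι (x ^ p))⁻¹ := by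
      rw [map_pow]
      exact eq_inv_of_mul_eq_one_right hxc
    rw [h1]
    exact H.inv_mem ⟨x ^ p, hpow₀ x, rfl⟩
  have hupH : u ^ p ∈ H := by rw [hup]; exact H.one_mem
  set K₁ := (Subgroup.zpowers (QuotientGroup.mk u : L ⧸ H)).comap (QuotientGroup.mk' H) with hK₁
  set K₂ := (Subgroup.zpowers (QuotientGroup.mk c : L ⧸ H)).comap (QuotientGroup.mk' H) with hK₂
  have hc1 : Nat.card K₁ = p ^ 6 := by
    rw [card_comap_zpowers H (order_mk H huH hupH), hHcard]; ring
  have hc2 : Nat.card K₂ = p ^ 6 := by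
    rw [card_comap_zpowers H (order_mk H hcH hcp), hHcard]; ring
  have hcr : Nat.card ι.range = p ^ 6 := by
    rw [← hX.card]
    exact Nat.card_congr (MonoidHom.ofInjective hι).toEquiv.symm
  have hlt1 : H < K₁ := lt_of_le_of_ne (le_comap H u) (fun h => huH (h ▸ mem_comap_self H u))
  have hlt2 : H < K₂ := lt_of_le_of_ne (le_comap H c) (fun h => hcH (h ▸ mem_comap_self H c))
  have hlt0 : H < ι.range := lt_of_le_of_ne hHr (fun h => by
    rw [h, hcr] at hHcard
    have := Nat.pow_right_injective hp.out.two_le hHcard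
    omega)
  have hrel : ∀ K : Subgroup L, H < K → (H.relIndex K = p ↔ Nat.card K = p ^ 6) := by
    intro K hK
    have h1 : H.relIndex K * Nat.card H = Nat.card K := by
      have h2 := (H.subgroupOf K).index_mul_card
      have h3 : Nat.card (H.subgroupOf K) = Nat.card H :=
        Nat.card_congr (Subgroup.subgroupOfEquivOfLe hK.le).toEquiv
      rw [h3] at h2
      exact h2
    rw [hHcard] at h1
    constructor
    · intro h
      rw [← h1, h]; ring
    · intro h
      rw [h, show p ^ 6 = p * p ^ 5 by ring] at h1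
      exact Nat.eq_of_mul_eq_mul_right (pow_pos hp.out.pos 5) h1
  -- the exceptional overgroups
  have hK₁cls : Cls p X K₁ := by
    refine ⟨inferInstance, hc1.le, ?_⟩
    rintro ⟨e⟩
    have h1 : e ⟨u, mem_comap_self H u⟩ ∈ Subgroup.center X := by
      apply hX.pow_cen
      rw [← map_pow, MulEquiv.map_eq_one_iff]
      exact Subtype.ext hup
    obtain ⟨y, hy⟩ := hX.cen_pow _ h1
    have h2 : (e.symm y) ^ p = ⟨u, mem_comap_self H u⟩ := by
      rw [← map_pow, hy, e.symm_apply_apply]
    have h3 : (e.symm y).1 ^ p = u := congrArg Subtype.val h2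
    apply huH
    have h4 := pow_mem_of_comap H hupH (e.symm y).2
    rwa [h3] at h4
  have hK₂cls : Cls p X K₂ := by
    refine ⟨inferInstance, hc2.le, ?_⟩
    rintro ⟨e⟩
    have h1 : e ⟨c, mem_comap_self H c⟩ ∈ Subgroup.center X := by
      rw [Subgroup.mem_center_iff]
      intro y
      obtain ⟨k, rfl⟩ := e.surjective y
      rw [← map_mul, ← map_mul]
      congr 1
      apply Subtype.ext
      exact (hc k.1).symm
    obtain ⟨y, hy⟩ := hX.cen_pow _ h1
    have h2 : (e.symm y) ^ p = ⟨c, mem_comap_self H c⟩ := by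
      rw [← map_pow, hy, e.symm_apply_apply]
    have h3 : (e.symm y).1 ^ p = c := congrArg Subtype.val h2
    apply hcH
    have h4 := pow_mem_of_comap H hcp (e.symm y).2
    rwa [h3] at h4
  have hne : K₁ ≠ K₂ := by
    intro h
    have hcK : c ∈ K₁ := h ▸ mem_comap_self H c
    have huK : u ∈ K₁ := mem_comap_self H u
    have hxK : ι x ∈ K₁ := by
      have h1 : ι x = u * c⁻¹ := by rw [hu]; group
      rw [h1]
      exact K₁.mul_mem huK (K₁.inv_mem hcK)
    have hS : K₁.comap ι = ⊤ := by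
      apply card_between hH₀ (by rw [Subgroup.card_top, hX.card]) _ le_top
      refine lt_of_le_of_ne ?_ (fun h => hx (h ▸ hxK))
      intro a ha
      exact hlt1.le ⟨a, ha, rfl⟩
    have hr : ι.range ≤ K₁ := by
      rintro _ ⟨a, rfl⟩
      have : a ∈ K₁.comap ι := by rw [hS]; trivial
      exact this
    have := Subgroup.eq_of_le_of_card_ge hr (by rw [hc1, hcr])
    rw [← this] at hcK
    exact hcι hcK
  have hrcls : ¬ Cls p X ι.range := fun h => h.2.2 ⟨(MonoidHom.ofInjective hι).symm⟩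
  refine ⟨H, ⟨inferInstance, ?_, ?_⟩, ?_⟩
  · rw [hHcard]
    exact Nat.pow_le_pow_right hp.out.pos (by norm_num)
  · rintro ⟨e⟩
    have := Nat.card_congr e.toEquiv
    rw [hHcard, hX.card] at this
    have := Nat.pow_right_injective hp.out.two_le this
    omega
  · set A := {K : Subgroup L | H < K ∧ Cls p X K ∧ H.relIndex K = p} with hA
    have hnum : numA p (fun Y _ => Cls p X Y) H = A.ncard := rfl
    rw [hnum]
    have hup' : A.ncard ≤ p := by
      have hsub : A ⊆ {K : Subgroup L | H < K ∧ Nat.card K = p ^ 6} \ {ι.range} := by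
        rintro K ⟨h1, h2, h3⟩
        refine ⟨⟨h1, (hrel K h1).1 h3⟩, ?_⟩
        rintro rfl
        exact hrcls h2
      have h1 := Set.ncard_le_ncard hsub (Set.toFinite _)
      have h2 : ({K : Subgroup L | H < K ∧ Nat.card K = p ^ 6} \ {ι.range}).ncard + 1 =
          {K : Subgroup L | H < K ∧ Nat.card K = p ^ 6}.ncard :=
        Set.ncard_sdiff_singleton_add_one ⟨hlt0, hcr⟩ (Set.toFinite _)
      have h3 := card_over hL H hHcard
      omega
    have hlow : 2 ≤ A.ncard := by
      have hsub : ({K₁, K₂} : Set (Subgroup L)) ⊆ A := by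
        rintro K (rfl | rfl)
        · exact ⟨hlt1, hK₁cls, (hrel _ hlt1).2 hc1⟩
        · exact ⟨hlt2, hK₂cls, (hrel _ hlt2).2 hc2⟩
      have h1 := Set.ncard_le_ncard hsub (Set.toFinite _)
      rwa [Set.ncard_pair hne] at h1
    refine ⟨by omega, fun h => ?_⟩
    have h1 : A.ncard % p = 1 % p := h
    rw [Nat.mod_eq_of_lt hp.out.one_lt] at h1
    rcases Nat.lt_or_ge A.ncard p with h2 | h2
    · rw [Nat.mod_eq_of_lt h2] at h1
      omega
    · have h3 : A.ncard = p := le_antisymm hup' h2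
      rw [h3, Nat.mod_self] at h1
      omega

include hX in
theorem part2 : ∃ (L : Type) (_ : Group L) (_ : Finite L), IsPGroup p L ∧
    ∃ H : Subgroup L, Cls p X H ∧ numA p (fun Y _ => Cls p X Y) H ≠ 0 ∧
      ¬ numA p (fun Y _ => Cls p X Y) H ≡ 1 [MOD p] := by
  classical
  have hXf : Finite X := by
    apply Nat.finite_of_card_ne_zero
    rw [hX.card]
    exact pow_ne_zero _ hp.out.ne_zero
  obtain ⟨H₀, hH₀⟩ := Sylow.exists_subgroup_card_pow_prime (G := X) p (n := 5)
    (by rw [hX.card]; exact pow_dvd_pow _ (by norm_num))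
  obtain ⟨x, hx⟩ : ∃ x, x ∉ H₀ := by
    by_contra hcon
    push Not at hcon
    have : H₀ = ⊤ := by rw [eq_top_iff]; exact fun y _ => hcon y
    rw [this, Subgroup.card_top, hX.card] at hH₀
    have := Nat.pow_right_injective hp.out.two_le hH₀
    omega
  have hp0 : p ^ 2 ≠ 0 := pow_ne_zero _ hp.out.ne_zero
  have : NeZero (p ^ 2) := ⟨hp0⟩
  let C := Multiplicative (ZMod (p ^ 2))
  let w : X × C := (x ^ p, Multiplicative.ofAdd (p : ZMod (p ^ 2)))
  have hw : ∀ y : X × C, w * y = y * w := by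
    intro y
    refine Prod.ext ?_ (mul_comm _ _)
    exact (Subgroup.mem_center_iff.1 (hX.pow_mem x) y.1).symm
  let N := Subgroup.zpowers w
  have hNn : N.Normal := by
    constructor
    rintro n hn g
    obtain ⟨k, rfl⟩ := Subgroup.mem_zpowers_iff.1 hn
    have : g * w ^ k * g⁻¹ = w ^ k := by
      rw [mul_inv_eq_iff_eq_mul]
      exact ((show Commute w g from hw g).zpow_left k).eq.symm
    rw [this]
    exact hn
  have hxpp : (x ^ p) ^ p = 1 := hX.cen_exp _ (hX.pow_mem x)
  have hpp : ((p : ℕ) : ZMod (p ^ 2)) * (p : ℕ) = 0 := by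
    rw [← Nat.cast_mul, ← pow_two, ZMod.natCast_self]
  have hwo : orderOf w = p := by
    apply orderOf_eq_prime
    · refine Prod.ext hxpp ?_
      change (Multiplicative.ofAdd (p : ZMod (p ^ 2))) ^ p = 1
      rw [← ofAdd_nsmul, nsmul_eq_mul, hpp, ofAdd_zero]
    · intro h
      have h1 : (p : ZMod (p ^ 2)) = 0 := congrArg (fun y : X × C => Multiplicative.toAdd y.2) h
      rw [ZMod.natCast_eq_zero_iff] at h1
      have := Nat.le_of_dvd hp.out.pos h1
      have h2 := hp.out.two_le
      nlinarith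
  have hcoord : ∀ (a : X) (t : ZMod (p ^ 2)), (a, Multiplicative.ofAdd t) ∈ N →
      ∃ k : ℤ, a = (x ^ p) ^ k ∧ t = (k : ZMod (p ^ 2)) * p := by
    intro a t h
    obtain ⟨k, hk⟩ := Subgroup.mem_zpowers_iff.1 h
    refine ⟨k, (congrArg Prod.fst hk).symm, ?_⟩
    have h1 : (Multiplicative.ofAdd (p : ZMod (p ^ 2))) ^ k = Multiplicative.ofAdd t :=
      congrArg Prod.snd hk
    rw [← ofAdd_zsmul, zsmul_eq_mul] at h1
    exact (Multiplicative.ofAdd.injective h1).symm
  have hCcard : Nat.card C = p ^ 2 := by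
    change Nat.card (ZMod (p ^ 2)) = p ^ 2
    exact Nat.card_zmod _
  have hLcard : Nat.card ((X × C) ⧸ N) = p ^ 7 := by
    have h1 : Nat.card (X × C) = Nat.card ((X × C) ⧸ N) * Nat.card N :=
      N.card_eq_card_quotient_mul_card_subgroup
    rw [Nat.card_prod, hX.card, hCcard, Nat.card_zpowers, hwo] at h1
    apply Nat.eq_of_mul_eq_mul_right hp.out.pos
    rw [← h1]
    ring
  refine ⟨(X × C) ⧸ N, inferInstance, inferInstance, IsPGroup.of_card hLcard, ?_⟩
  let ι : X →* (X × C) ⧸ N := (QuotientGroup.mk' N).comp (MonoidHom.inl X C)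
  have hιa : ∀ a, ι a = QuotientGroup.mk (a, Multiplicative.ofAdd 0) := fun a => rfl
  let c : (X × C) ⧸ N := QuotientGroup.mk ((1 : X), Multiplicative.ofAdd (1 : ZMod (p ^ 2)))
  refine part2a hX hLcard ι ?_ c ?_ ?_ ?_ H₀ hH₀ x hx ?_
  · rw [injective_iff_map_eq_one]
    intro a ha
    rw [hιa, QuotientGroup.eq_one_iff] at ha
    obtain ⟨k, hk1, hk2⟩ := hcoord _ _ ha
    have hdvd : (p : ℤ) ∣ k := by
      have h1 : ((k * p : ℤ) : ZMod (p ^ 2)) = 0 := by
        push_cast
        exact hk2.symm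
      rw [ZMod.intCast_zmod_eq_zero_iff_dvd] at h1
      push_cast at h1
      rw [pow_two] at h1
      exact Int.dvd_of_mul_dvd_mul_right (by exact_mod_cast hp.out.ne_zero) h1
    obtain ⟨m, rfl⟩ := hdvd
    rw [hk1, zpow_mul, zpow_natCast, hxpp, one_zpow]
  · intro y
    obtain ⟨⟨a, t⟩, rfl⟩ := QuotientGroup.mk'_surjective N y
    change QuotientGroup.mk _ * QuotientGroup.mk _ = QuotientGroup.mk _ * QuotientGroup.mk _
    rw [← QuotientGroup.mk_mul, ← QuotientGroup.mk_mul]
    congr 1
    refine Prod.ext ?_ (mul_comm _ _)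
    change 1 * a = a * 1
    rw [one_mul, mul_one]
  · rintro ⟨a, ha⟩
    rw [hιa] at ha
    have h1 := QuotientGroup.eq.1 ha
    have h2 : ((a, Multiplicative.ofAdd (0 : ZMod (p ^ 2))) : X × C)⁻¹ *
        ((1 : X), Multiplicative.ofAdd (1 : ZMod (p ^ 2))) =
        (a⁻¹, Multiplicative.ofAdd (1 : ZMod (p ^ 2))) := by
      refine Prod.ext (mul_one _) ?_
      change Multiplicative.ofAdd (-(0 : ZMod (p ^ 2)) + 1) = Multiplicative.ofAdd 1
      rw [neg_zero, zero_add]
    rw [h2] at h1
    obtain ⟨k, _, hk2⟩ := hcoord _ _ h1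
    have h3 : ((1 - k * p : ℤ) : ZMod (p ^ 2)) = 0 := by
      push_cast
      rw [← hk2, sub_self]
    rw [ZMod.intCast_zmod_eq_zero_iff_dvd] at h3
    have h4 : (p : ℤ) ∣ 1 - k * p := by
      refine dvd_trans ?_ h3
      push_cast
      exact dvd_pow_self _ (by norm_num)
    have h5 : (p : ℤ) ∣ 1 := by
      have := dvd_add h4 (Dvd.intro_left k rfl : (p : ℤ) ∣ k * p)
      simpa using this
    have h6 := Int.natCast_dvd_natCast.1 (by simpa using h5 : ((p : ℕ) : ℤ) ∣ ((1 : ℕ) : ℤ))
    exact hp.out.one_lt.ne' (Nat.dvd_one.1 h6)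
  · intro y
    obtain ⟨⟨a, t⟩, rfl⟩ := QuotientGroup.mk'_surjective N y
    refine ⟨a, (Multiplicative.toAdd t).val, ?_⟩
    change (QuotientGroup.mk (a, t) : (X × C) ⧸ N) =
      QuotientGroup.mk (a, Multiplicative.ofAdd 0) *
      (QuotientGroup.mk ((1 : X), Multiplicative.ofAdd (1 : ZMod (p ^ 2)))) ^
        (((Multiplicative.toAdd t).val : ℕ) : ℤ)
    rw [zpow_natCast, ← QuotientGroup.mk_pow, ← QuotientGroup.mk_mul]
    congr 1
    refine Prod.ext ?_ ?_
    · change a = a * 1 ^ (Multiplicative.toAdd t).val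
      rw [one_pow, mul_one]
    · change t = (1 : C) *
        (Multiplicative.ofAdd (1 : ZMod (p ^ 2))) ^ (Multiplicative.toAdd t).val
      rw [one_mul, ← ofAdd_nsmul, nsmul_eq_mul, mul_one, ZMod.natCast_zmod_val]
      rfl
  · change (QuotientGroup.mk ((MonoidHom.inl X C) x) : (X × C) ⧸ N) ^ p *
      (QuotientGroup.mk ((1 : X), Multiplicative.ofAdd (1 : ZMod (p ^ 2)))) ^ p = 1
    rw [← QuotientGroup.mk_pow, ← QuotientGroup.mk_pow, ← QuotientGroup.mk_mul,
      QuotientGroup.eq_one_iff]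
    have : ((MonoidHom.inl X C) x) ^ p *
        ((1 : X), Multiplicative.ofAdd (1 : ZMod (p ^ 2))) ^ p = w := by
      refine Prod.ext ?_ ?_
      · change x ^ p * 1 ^ p = x ^ p
        rw [one_pow, mul_one]
      · change (1 : C) ^ p * (Multiplicative.ofAdd (1 : ZMod (p ^ 2))) ^ p =
          Multiplicative.ofAdd (p : ZMod (p ^ 2))
        rw [one_pow, one_mul, ← ofAdd_nsmul, nsmul_eq_mul, mul_one]
    rw [this]
    exact Subgroup.mem_zpowers w

end part2

end Q18.Cgr
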