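import Pool.Agent.Q18.Cgr

/-!
For odd `p`, a group of order `p ^ 6` all of whose automorphisms of `p`-power order are trivial
modulo the center.
-/

namespace Q18.Cgr

section matrix

variable {p : ℕ} [hp : Fact p.Prime]

theorem two_ne (hp2 : p ≠ 2) : (2 : ZMod p) ≠ 0 := by
  intro h
  have h1 : ((2 : ℕ) : ZMod p) = 0 := by exact_mod_cast h
  rw [ZMod.natCast_eq_zero_iff] at h1
  have h2 := Nat.le_of_dvd (by norm_num) h1
  have h3 := hp.out.two_le
  omega

theorem mat_eq_one (hp2 : p ≠ 2) (G : Matrix (Fin 3) (Fin 3) (ZMod p)) (n : ℕ)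
    (hn : G ^ (p ^ n) = 1)
    (h01 : ∀ i, G i 2 = (![(G 1 0 * G 2 1 - G 2 0 * G 1 1) + (G 2 0 * G 0 1 - G 0 0 * G 2 1),
      -(G 1 0 * G 2 1 - G 2 0 * G 1 1) + (G 2 0 * G 0 1 - G 0 0 * G 2 1),
      G 0 0 * G 1 1 - G 1 0 * G 0 1] : Fin 3 → ZMod p) i)
    (h12 : ∀ i, G i 0 - G i 1 =
      (![(G 1 1 * G 2 2 - G 2 1 * G 1 2) + (G 2 1 * G 0 2 - G 0 1 * G 2 2),
      -(G 1 1 * G 2 2 - G 2 1 * G 1 2) + (G 2 1 * G 0 2 - G 0 1 * G 2 2),
      G 0 1 * G 1 2 - G 1 1 * G 0 2] : Fin 3 → ZMod p) i)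
    (h20 : ∀ i, G i 0 + G i 1 =
      (![(G 1 2 * G 2 0 - G 2 2 * G 1 0) + (G 2 2 * G 0 0 - G 0 2 * G 2 0),
      -(G 1 2 * G 2 0 - G 2 2 * G 1 0) + (G 2 2 * G 0 0 - G 0 2 * G 2 0),
      G 0 2 * G 1 0 - G 1 2 * G 0 0] : Fin 3 → ZMod p) i) : G = 1 := by
  have h2 := two_ne hp2
  let M : Matrix (Fin 3) (Fin 3) (ZMod p) := !![1, 1, 0; -1, 1, 0; 0, 0, 1]
  let A : Matrix (Fin 3) (Fin 3) (ZMod p) := !![0, 1, 0; -1, 0, 0; 0, 0, 0]
  have a0 := h01 0
  have a1 := h01 1
  have a2 := h01 2
  have b0 := h12 0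
  have b1 := h12 1
  have b2 := h12 2
  have c0 := h20 0
  have c1 := h20 1
  have c2 := h20 2
  simp only [Fin.isValue, Matrix.cons_val_zero, Matrix.cons_val_one, Matrix.cons_val_two,
    Matrix.head_cons, Matrix.tail_cons, Matrix.cons_val] at a0 a1 a2 b0 b1 b2 c0 c1 c2
  have hGM : M * (Matrix.adjugate G).transpose = G * M := by
    ext i j
    fin_cases i <;> fin_cases j <;>
      simp [M, Matrix.mul_apply, Fin.sum_univ_three, Matrix.adjugate_fin_three,
        Matrix.transpose_apply]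
    · linear_combination -b0
    · linear_combination -c0
    · linear_combination -a0
    · linear_combination -b1
    · linear_combination -c1
    · linear_combination -a1
    · linear_combination -b2
    · linear_combination -c2
    · linear_combination -a2
  have hGMG : G * M * G.transpose = G.det • M := by
    rw [← hGM, Matrix.mul_assoc, ← Matrix.transpose_mul, Matrix.mul_adjugate]
    simp
  have hdetM : M.det = 2 := by
    simp [M, Matrix.det_fin_three]
    ring
  have hdet0 : G.det ≠ 0 := by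
    intro h
    have h3 := congrArg Matrix.det hn
    rw [Matrix.det_pow, h, zero_pow (pow_ne_zero _ hp.out.ne_zero), Matrix.det_one] at h3
    exact zero_ne_one h3
  have hdet : G.det = 1 := by
    have h3 := congrArg Matrix.det hGMG
    rw [Matrix.det_mul, Matrix.det_mul, Matrix.det_transpose, Matrix.det_smul, hdetM,
      Fintype.card_fin] at h3
    have h4 : G.det ^ 2 * 2 * (G.det - 1) = 0 := by linear_combination -h3
    rcases mul_eq_zero.1 h4 with h5 | h5
    · exact absurd h5 (mul_ne_zero (pow_ne_zero _ hdet0) h2)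
    · exact sub_eq_zero.1 h5
  rw [hdet, one_smul] at hGMG
  have hGMG' : G * M.transpose * G.transpose = M.transpose := by
    have h3 := congrArg Matrix.transpose hGMG
    rw [Matrix.transpose_mul, Matrix.transpose_mul, Matrix.transpose_transpose,
      ← Matrix.mul_assoc] at h3
    exact h3
  have hMT : M + M.transpose = (2 : ZMod p) • (1 : Matrix (Fin 3) (Fin 3) (ZMod p)) := by
    ext i j
    fin_cases i <;> fin_cases j <;> simp [M, Matrix.one_apply] <;> norm_num
  have hMA : M - M.transpose = (2 : ZMod p) • A := by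
    ext i j
    fin_cases i <;> fin_cases j <;> simp [M, A] <;> norm_num
  have hGG : G * G.transpose = 1 := by
    have h3 : G * (M + M.transpose) * G.transpose = M + M.transpose := by
      rw [Matrix.mul_add, Matrix.add_mul, hGMG, hGMG']
    rw [hMT, Matrix.mul_smul, Matrix.mul_one, Matrix.smul_mul] at h3
    exact smul_right_injective _ h2 h3
  have hGA : G * A * G.transpose = A := by
    have h3 : G * (M - M.transpose) * G.transpose = M - M.transpose := by
      rw [Matrix.mul_sub, Matrix.sub_mul, hGMG, hGMG']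
    rw [hMA, Matrix.mul_smul, Matrix.smul_mul] at h3
    exact smul_right_injective _ h2 h3
  have hGG' : G.transpose * G = 1 := mul_eq_one_comm.1 hGG
  have hcomm : G * A = A * G := by
    calc G * A = G * A * (G.transpose * G) := by rw [hGG', Matrix.mul_one]
      _ = (G * A * G.transpose) * G := by rw [Matrix.mul_assoc (G * A)]
      _ = A * G := by rw [hGA]
  have e00 := congrFun (congrFun hcomm 0) 0
  have e01 := congrFun (congrFun hcomm 0) 1
  have e02 := congrFun (congrFun hcomm 0) 2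
  have e12 := congrFun (congrFun hcomm 1) 2
  have e20 := congrFun (congrFun hcomm 2) 0
  have e21 := congrFun (congrFun hcomm 2) 1
  have f00 := congrFun (congrFun hGG 0) 0
  simp [A, Matrix.mul_apply, Fin.sum_univ_three] at e00 e01 e02 e12 e20 e21 f00
  rw [Matrix.det_fin_three] at hdet
  -- the trace
  have hnil : IsNilpotent (G - 1) := by
    refine ⟨p ^ n, ?_⟩
    rw [sub_pow_char_pow_of_commute p n (Commute.one_right G), hn, one_pow, sub_self]
  have htr := (Matrix.isNilpotent_trace_of_isNilpotent hnil).eq_zero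
  rw [Matrix.trace_fin_three] at htr
  simp only [Matrix.sub_apply, Matrix.one_apply_eq] at htr
  have g22 : G 2 2 = 1 := by
    rw [a2, ← e00, ← e01]
    linear_combination f00 - G 0 2 * e12
  have g00 : G 0 0 = 1 := by
    have h3 : 2 * (G 0 0 - 1) = 0 := by
      linear_combination htr + e01 - g22
    rcases mul_eq_zero.1 h3 with h5 | h5
    · exact absurd h5 h2
    · exact sub_eq_zero.1 h5
  have g01 : G 0 1 = 0 := by
    have h3 : G 0 1 * G 0 1 = 0 := by
      linear_combination f00 - (G 0 0 + 1) * g00 - G 0 2 * e12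
    exact mul_self_eq_zero.1 h3
  have g10 : G 1 0 = 0 := by rw [← e00, g01, neg_zero]
  have g11 : G 1 1 = 1 := by rw [← e01, g00]
  ext i j
  fin_cases i <;> fin_cases j
  · exact g00
  · exact g01
  · exact e12
  · exact g10
  · exact g11
  · exact e02.symm
  · exact e21
  · exact e20
  · exact g22

end matrix

/-- The underlying set of the group of order `p ^ 6`. -/
@[ext] structure Xp (p : ℕ) where
  a : ZMod (p ^ 2)
  b : ZMod (p ^ 2)
  c : ZMod (p ^ 2)

namespace Xp

variable {p : ℕ}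

theorem pp : (p : ZMod (p ^ 2)) * (p : ZMod (p ^ 2)) = 0 := by
  rw [← Nat.cast_mul, ← pow_two, ZMod.natCast_self]

instance : Mul (Xp p) := ⟨fun x y => ⟨x.a + y.a + p * (x.b * y.c - x.a * y.c),
  x.b + y.b + p * (-(x.b * y.c) - x.a * y.c), x.c + y.c + p * (x.a * y.b)⟩⟩
instance : One (Xp p) := ⟨⟨0, 0, 0⟩⟩
instance : Inv (Xp p) := ⟨fun x => ⟨-x.a + p * (x.b * x.c - x.a * x.c),
  -x.b + p * (-(x.b * x.c) - x.a * x.c), -x.c + p * (x.a * x.b)⟩⟩

theorem mul_a (x y : Xp p) : (x * y).a = x.a + y.a + p * (x.b * y.c - x.a * y.c) := rfl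
theorem mul_b (x y : Xp p) : (x * y).b = x.b + y.b + p * (-(x.b * y.c) - x.a * y.c) := rfl
theorem mul_c (x y : Xp p) : (x * y).c = x.c + y.c + p * (x.a * y.b) := rfl
theorem one_a : (1 : Xp p).a = 0 := rfl
theorem one_b : (1 : Xp p).b = 0 := rfl
theorem one_c : (1 : Xp p).c = 0 := rfl
theorem inv_a (x : Xp p) : (x⁻¹).a = -x.a + p * (x.b * x.c - x.a * x.c) := rfl
theorem inv_b (x : Xp p) : (x⁻¹).b = -x.b + p * (-(x.b * x.c) - x.a * x.c) := rfl
theorem inv_c (x : Xp p) : (x⁻¹).c = -x.c + p * (x.a * x.b) := rfl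

instance : Group (Xp p) := Group.ofLeftAxioms
  (by
    intro x y z
    ext
    · simp only [mul_a, mul_b, mul_c]
      linear_combination ((-(x.b * y.c) - x.a * y.c) * z.c - (x.b * y.c - x.a * y.c) * z.c -
        (x.b * (y.a * z.b) - x.a * (y.a * z.b))) * pp (p := p)
    · simp only [mul_a, mul_b, mul_c]
      linear_combination (-((-(x.b * y.c) - x.a * y.c) * z.c) - (x.b * y.c - x.a * y.c) * z.c +
        (x.b * (y.a * z.b) + x.a * (y.a * z.b))) * pp (p := p)
    · simp only [mul_a, mul_b, mul_c]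
      linear_combination ((x.b * y.c - x.a * y.c) * z.b -
        x.a * (-(y.b * z.c) - y.a * z.c)) * pp (p := p))
  (by
    intro x
    ext
    · rw [mul_a, one_a, one_b]; ring
    · rw [mul_b, one_a, one_b]; ring
    · rw [mul_c, one_a, one_c]; ring)
  (by
    intro x
    ext
    · rw [mul_a, inv_a, inv_b, one_a]
      linear_combination ((-(x.b * x.c) - x.a * x.c) * x.c - (x.b * x.c - x.a * x.c) * x.c) *
        pp (p := p)
    · rw [mul_b, inv_a, inv_b, one_b]
      linear_combination (-((-(x.b * x.c) - x.a * x.c) * x.c) - (x.b * x.c - x.a * x.c) * x.c) *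
        pp (p := p)
    · rw [mul_c, inv_a, inv_c, one_c]
      linear_combination ((x.b * x.c - x.a * x.c) * x.b) * pp (p := p))

/-- The underlying set. -/
def equivProd : Xp p ≃ ZMod (p ^ 2) × ZMod (p ^ 2) × ZMod (p ^ 2) where
  toFun x := (x.a, x.b, x.c)
  invFun x := ⟨x.1, x.2.1, x.2.2⟩
  left_inv _ := rfl
  right_inv _ := rfl

theorem card_eq : Nat.card (Xp p) = p ^ 6 := by
  rw [Nat.card_congr equivProd, Nat.card_prod, Nat.card_prod, Nat.card_zmod]
  ring

theorem pow_eq (x : Xp p) (n : ℕ) : x ^ n =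
    ⟨n * x.a + p * n.choose 2 * (x.b * x.c - x.a * x.c),
     n * x.b + p * n.choose 2 * (-(x.b * x.c) - x.a * x.c),
     n * x.c + p * n.choose 2 * (x.a * x.b)⟩ := by
  induction n with
  | zero => ext <;> simp [one_a, one_b, one_c]
  | succ n ih =>
    have h : (n + 1).choose 2 = n + n.choose 2 := by
      rw [Nat.choose_succ_succ' n 1, Nat.choose_one_right]
    rw [pow_succ, ih, h]
    ext
    · rw [mul_a]
      push_cast
      linear_combination ((n.choose 2 : ZMod (p ^ 2)) * (-(x.b * x.c) - x.a * x.c) * x.c -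
        (n.choose 2 : ZMod (p ^ 2)) * (x.b * x.c - x.a * x.c) * x.c) * pp (p := p)
    · rw [mul_b]
      push_cast
      linear_combination (-((n.choose 2 : ZMod (p ^ 2)) * (-(x.b * x.c) - x.a * x.c) * x.c) -
        (n.choose 2 : ZMod (p ^ 2)) * (x.b * x.c - x.a * x.c) * x.c) * pp (p := p)
    · rw [mul_c]
      push_cast
      linear_combination ((n.choose 2 : ZMod (p ^ 2)) * (x.b * x.c - x.a * x.c) * x.b) *
        pp (p := p)

theorem pow_p [hp : Fact p.Prime] (hp2 : p ≠ 2) (x : Xp p) :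
    x ^ p = ⟨p * x.a, p * x.b, p * x.c⟩ := by
  have h2 := hp.out.two_le
  obtain ⟨k, hk⟩ := hp.out.dvd_choose_self (k := 2) (by norm_num) (by omega)
  have h0 : (p : ZMod (p ^ 2)) * (p.choose 2 : ZMod (p ^ 2)) = 0 := by
    rw [hk]
    push_cast
    rw [← mul_assoc, pp, zero_mul]
  rw [pow_eq]
  ext
  · simp only [h0]; ring
  · simp only [h0]; ring
  · simp only [h0]; ring

/-- reduction modulo `p` -/
def red : ZMod (p ^ 2) →+* ZMod p := ZMod.castHom (dvd_pow_self p (by norm_num)) (ZMod p)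

variable [hp : Fact p.Prime]

theorem neZero : NeZero (p ^ 2) := ⟨pow_ne_zero _ hp.out.ne_zero⟩

theorem red_natCast (n : ℕ) : red (n : ZMod (p ^ 2)) = (n : ZMod p) := map_natCast _ n

theorem exists_mul {t : ZMod (p ^ 2)} (h : red t = 0) : ∃ s, t = p * s := by
  have := neZero (p := p)
  rw [← ZMod.natCast_zmod_val t, red_natCast, ZMod.natCast_eq_zero_iff] at h
  obtain ⟨k, hk⟩ := h
  refine ⟨k, ?_⟩
  conv_lhs => rw [← ZMod.natCast_zmod_val t, hk]
  push_cast
  rfl

theorem red_p : red (p : ZMod (p ^ 2)) = 0 := by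
  rw [red_natCast, ZMod.natCast_self]

theorem mul_eq_zero_iff' (t : ZMod (p ^ 2)) : (p : ZMod (p ^ 2)) * t = 0 ↔ red t = 0 := by
  have := neZero (p := p)
  constructor
  · intro h
    rw [← ZMod.natCast_zmod_val t, ← Nat.cast_mul, ZMod.natCast_eq_zero_iff] at h
    have h1 : p ∣ t.val :=
      Nat.dvd_of_mul_dvd_mul_left hp.out.pos ((dvd_of_eq (pow_two p).symm).trans h)
    rw [← ZMod.natCast_zmod_val t, red_natCast, ZMod.natCast_eq_zero_iff]
    exact h1
  · intro h
    obtain ⟨s, rfl⟩ := exists_mul h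
    rw [← mul_assoc, pp, zero_mul]

theorem mul_eq_iff (s t : ZMod (p ^ 2)) :
    (p : ZMod (p ^ 2)) * s = (p : ZMod (p ^ 2)) * t ↔ red s = red t := by
  rw [← sub_eq_zero, ← mul_sub, mul_eq_zero_iff', map_sub, sub_eq_zero]

/-- the vector of residues -/
def rv (x : Xp p) : Fin 3 → ZMod p := ![red x.a, red x.b, red x.c]

theorem rv_mul (x y : Xp p) : rv (x * y) = rv x + rv y := by
  funext i
  fin_cases i
  · change red (x * y).a = red x.a + red y.a
    rw [mul_a, map_add, map_add, map_mul, red_p, zero_mul, add_zero]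
  · change red (x * y).b = red x.b + red y.b
    rw [mul_b, map_add, map_add, map_mul, red_p, zero_mul, add_zero]
  · change red (x * y).c = red x.c + red y.c
    rw [mul_c, map_add, map_add, map_mul, red_p, zero_mul, add_zero]

theorem rv_one : rv (1 : Xp p) = 0 := by
  have := rv_mul (1 : Xp p) 1
  rw [mul_one] at this
  simpa using this

theorem rv_inv (x : Xp p) : rv x⁻¹ = -rv x := by
  have := rv_mul x⁻¹ x
  rw [inv_mul_cancel, rv_one] at this
  exact (eq_neg_of_add_eq_zero_left this.symm)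

/-- the commutator form -/
def bb (v w : Fin 3 → ZMod p) : Fin 3 → ZMod p :=
  ![(v 1 * w 2 - v 2 * w 1) + (v 2 * w 0 - v 0 * w 2),
    -(v 1 * w 2 - v 2 * w 1) + (v 2 * w 0 - v 0 * w 2), v 0 * w 1 - v 1 * w 0]

theorem rel_iff (hp2 : p ≠ 2) (x y z : Xp p) : x * y = y * x * z ^ p ↔
    bb (rv x) (rv y) = rv z := by
  rw [pow_p hp2]
  have h0 : ((x * y).a = (y * x * ⟨p * z.a, p * z.b, p * z.c⟩ : Xp p).a) ↔
      bb (rv x) (rv y) 0 = rv z 0 := by
    change _ ↔ (red x.b * red y.c - red x.c * red y.b) + (red x.c * red y.a - red x.a * red y.c) =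
      red z.a
    rw [← map_mul, ← map_mul, ← map_mul, ← map_mul, ← map_sub, ← map_sub, ← map_add,
      ← mul_eq_iff]
    simp only [mul_a, mul_b, mul_c]
    constructor <;> intro h
    · linear_combination h + (((y.b + x.b + p * (-(y.b * x.c) - y.a * x.c)) -
        (y.a + x.a + p * (y.b * x.c - y.a * x.c))) * z.c) * pp (p := p)
    · linear_combination h - (((y.b + x.b + p * (-(y.b * x.c) - y.a * x.c)) -
        (y.a + x.a + p * (y.b * x.c - y.a * x.c))) * z.c) * pp (p := p)
  have h1 : ((x * y).b = (y * x * ⟨p * z.a, p * z.b, p * z.c⟩ : Xp p).b) ↔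
      bb (rv x) (rv y) 1 = rv z 1 := by
    change _ ↔ -(red x.b * red y.c - red x.c * red y.b) + (red x.c * red y.a - red x.a * red y.c) =
      red z.b
    rw [← map_mul, ← map_mul, ← map_mul, ← map_mul, ← map_sub, ← map_sub, ← map_neg, ← map_add,
      ← mul_eq_iff]
    simp only [mul_a, mul_b, mul_c]
    constructor <;> intro h
    · linear_combination h - (((y.b + x.b + p * (-(y.b * x.c) - y.a * x.c)) +
        (y.a + x.a + p * (y.b * x.c - y.a * x.c))) * z.c) * pp (p := p)
    · linear_combination h + (((y.b + x.b + p * (-(y.b * x.c) - y.a * x.c)) +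
        (y.a + x.a + p * (y.b * x.c - y.a * x.c))) * z.c) * pp (p := p)
  have h2 : ((x * y).c = (y * x * ⟨p * z.a, p * z.b, p * z.c⟩ : Xp p).c) ↔
      bb (rv x) (rv y) 2 = rv z 2 := by
    change _ ↔ red x.a * red y.b - red x.b * red y.a = red z.c
    rw [← map_mul, ← map_mul, ← map_sub, ← mul_eq_iff]
    simp only [mul_a, mul_b, mul_c]
    constructor <;> intro h
    · linear_combination h + ((y.a + x.a + p * (y.b * x.c - y.a * x.c)) * z.b) * pp (p := p)
    · linear_combination h - ((y.a + x.a + p * (y.b * x.c - y.a * x.c)) * z.b) * pp (p := p)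
  constructor
  · intro h
    funext i
    fin_cases i
    · exact h0.1 (congrArg Xp.a h)
    · exact h1.1 (congrArg Xp.b h)
    · exact h2.1 (congrArg Xp.c h)
  · intro h
    ext
    · exact h0.2 (congrFun h 0)
    · exact h1.2 (congrFun h 1)
    · exact h2.2 (congrFun h 2)

/-- a section of `rv` -/
def sv (v : Fin 3 → ZMod p) : Xp p := ⟨((v 0).val : ℕ), ((v 1).val : ℕ), ((v 2).val : ℕ)⟩

theorem rv_sv (v : Fin 3 → ZMod p) : rv (sv v) = v := by
  funext i
  fin_cases i
  · change red (((v 0).val : ℕ) : ZMod (p ^ 2)) = v 0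
    rw [red_natCast, ZMod.natCast_zmod_val]
  · change red (((v 1).val : ℕ) : ZMod (p ^ 2)) = v 1
    rw [red_natCast, ZMod.natCast_zmod_val]
  · change red (((v 2).val : ℕ) : ZMod (p ^ 2)) = v 2
    rw [red_natCast, ZMod.natCast_zmod_val]

theorem mem_center_iff' (hp2 : p ≠ 2) (x : Xp p) : x ∈ Subgroup.center (Xp p) ↔ rv x = 0 := by
  have key : ∀ y, (y * x = x * y) ↔ bb (rv y) (rv x) = 0 := by
    intro y
    have := rel_iff hp2 y x 1
    rw [one_pow, mul_one, rv_one] at this
    exact this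
  rw [Subgroup.mem_center_iff]
  constructor
  · intro h
    have e0 := (key _).1 (h (sv (Pi.single 0 1)))
    have e1 := (key _).1 (h (sv (Pi.single 1 1)))
    rw [rv_sv] at e0 e1
    have e00 := congrFun e0 0
    have e02 := congrFun e0 2
    have e12 := congrFun e1 2
    simp [bb] at e00 e02 e12
    funext i
    fin_cases i
    · exact e12
    · exact e02
    · exact e00
  · intro h y
    rw [key, h]
    funext i
    fin_cases i <;> simp [bb]

theorem rv_eq_zero_iff (x : Xp p) : rv x = 0 ↔ red x.a = 0 ∧ red x.b = 0 ∧ red x.c = 0 := by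
  constructor
  · intro h
    exact ⟨congrFun h 0, congrFun h 1, congrFun h 2⟩
  · rintro ⟨h0, h1, h2⟩
    funext i
    fin_cases i
    · exact h0
    · exact h1
    · exact h2

theorem rv_congr (hp2 : p ≠ 2) (φ : MulAut (Xp p)) {x y : Xp p} (h : rv x = rv y) :
    rv (φ x) = rv (φ y) := by
  have h1 : x * y⁻¹ ∈ Subgroup.center (Xp p) := by
    rw [mem_center_iff' hp2, rv_mul, rv_inv, h, add_neg_cancel]
  have h2 : φ (x * y⁻¹) ∈ Subgroup.center (Xp p) := by
    rw [Subgroup.mem_center_iff] at h1 ⊢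
    intro g
    obtain ⟨k, rfl⟩ := φ.surjective g
    rw [← map_mul, ← map_mul, h1]
  rw [mem_center_iff' hp2, map_mul, map_inv, rv_mul, rv_inv] at h2
  exact add_neg_eq_zero.1 h2

/-- the induced linear map -/
def gl (hp2 : p ≠ 2) : MulAut (Xp p) →* Module.End (ZMod p) (Fin 3 → ZMod p) where
  toFun φ := AddMonoidHom.toZModLinearMap p (AddMonoidHom.mk' (fun v => rv (φ (sv v)))
    (fun v w => by
      rw [← rv_mul, ← map_mul]
      apply rv_congr hp2
      rw [rv_sv, rv_mul, rv_sv, rv_sv]))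
  map_one' := by
    apply LinearMap.ext
    intro v
    exact rv_sv v
  map_mul' φ ψ := by
    apply LinearMap.ext
    intro v
    change rv (φ (ψ (sv v))) = rv (φ (sv (rv (ψ (sv v)))))
    apply rv_congr hp2
    rw [rv_sv]

theorem gl_apply (hp2 : p ≠ 2) (φ : MulAut (Xp p)) (x : Xp p) : gl hp2 φ (rv x) = rv (φ x) := by
  change rv (φ (sv (rv x))) = rv (φ x)
  apply rv_congr hp2
  rw [rv_sv]

theorem gl_bb (hp2 : p ≠ 2) (φ : MulAut (Xp p)) (v w : Fin 3 → ZMod p) :
    gl hp2 φ (bb v w) = bb (gl hp2 φ v) (gl hp2 φ w) := by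
  have h1 := (rel_iff hp2 (sv v) (sv w) (sv (bb v w))).2 (by rw [rv_sv, rv_sv, rv_sv])
  have h2 := congrArg φ h1
  rw [map_mul, map_mul, map_mul, map_pow] at h2
  have h3 := (rel_iff hp2 _ _ _).1 h2
  rw [← gl_apply hp2, ← gl_apply hp2, ← gl_apply hp2, rv_sv, rv_sv, rv_sv] at h3
  exact h3.symm

theorem aut_triv (hp2 : p ≠ 2) (φ : MulAut (Xp p)) (n : ℕ) (hn : φ ^ (p ^ n) = 1) (x : Xp p) :
    rv (φ x) = rv x := by
  have h1 : gl hp2 φ ^ (p ^ n) = 1 := by rw [← map_pow, hn, map_one]
  set G := LinearMap.toMatrix' (gl hp2 φ) with hG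
  have hGn : G ^ (p ^ n) = 1 := by
    have : G = LinearMap.toMatrixAlgEquiv' (gl hp2 φ) := rfl
    rw [this, ← map_pow, h1, map_one]
  have hcol : ∀ i j, G i j = gl hp2 φ (Pi.single j 1) i := by
    intro i j
    rw [hG, LinearMap.toMatrix'_apply]
  have hb : ∀ v w i, gl hp2 φ (bb v w) i = bb (gl hp2 φ v) (gl hp2 φ w) i := by
    intro v w i
    rw [gl_bb]
  have h01 : bb (Pi.single 0 1 : Fin 3 → ZMod p) (Pi.single 1 1) = Pi.single 2 1 := by
    funext i; fin_cases i <;> simp [bb]
  have h12 : bb (Pi.single 1 1 : Fin 3 → ZMod p) (Pi.single 2 1) =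
      Pi.single 0 1 - Pi.single 1 1 := by
    funext i; fin_cases i <;> simp [bb]
  have h20 : bb (Pi.single 2 1 : Fin 3 → ZMod p) (Pi.single 0 1) =
      Pi.single 0 1 + Pi.single 1 1 := by
    funext i; fin_cases i <;> simp [bb]
  have hGone : G = 1 := by
    apply mat_eq_one hp2 G n hGn
    · intro i
      have := hb (Pi.single 0 1) (Pi.single 1 1) i
      rw [h01, ← hcol] at this
      rw [this]
      simp only [bb, ← hcol]
    · intro i
      have := hb (Pi.single 1 1) (Pi.single 2 1) i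
      rw [h12, map_sub, Pi.sub_apply, ← hcol, ← hcol] at this
      rw [this]
      simp only [bb, ← hcol]
    · intro i
      have := hb (Pi.single 2 1) (Pi.single 0 1) i
      rw [h20, map_add, Pi.add_apply, ← hcol, ← hcol] at this
      rw [this]
      simp only [bb, ← hcol]
  have hgl : gl hp2 φ = 1 := by
    apply LinearMap.toMatrixAlgEquiv'.injective
    rw [map_one]
    exact hGone
  rw [← gl_apply hp2, hgl]
  rfl

theorem good (hp2 : p ≠ 2) : Good p (Xp p) where
  card := card_eq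
  pow_mem := by
    intro x
    rw [mem_center_iff' hp2, rv_eq_zero_iff, pow_p hp2]
    simp [red_p]
  cen_pow := by
    intro z hz
    rw [mem_center_iff' hp2, rv_eq_zero_iff] at hz
    obtain ⟨h0, h1, h2⟩ := hz
    obtain ⟨s0, h0⟩ := exists_mul h0
    obtain ⟨s1, h1⟩ := exists_mul h1
    obtain ⟨s2, h2⟩ := exists_mul h2
    refine ⟨⟨s0, s1, s2⟩, ?_⟩
    rw [pow_p hp2]
    ext
    · exact h0.symm
    · exact h1.symm
    · exact h2.symm
  cen_exp := by
    intro z hz
    rw [mem_center_iff' hp2, rv_eq_zero_iff] at hz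
    rw [pow_p hp2]
    ext
    · exact (mul_eq_zero_iff' _).2 hz.1
    · exact (mul_eq_zero_iff' _).2 hz.2.1
    · exact (mul_eq_zero_iff' _).2 hz.2.2
  pow_cen := by
    intro x hx
    rw [pow_p hp2] at hx
    rw [mem_center_iff' hp2, rv_eq_zero_iff]
    exact ⟨(mul_eq_zero_iff' _).1 (congrArg Xp.a hx), (mul_eq_zero_iff' _).1 (congrArg Xp.b hx),
      (mul_eq_zero_iff' _).1 (congrArg Xp.c hx)⟩
  aut := by
    intro φ n hn x
    rw [mem_center_iff' hp2, rv_mul, rv_inv, aut_triv hp2 φ n hn x, add_neg_cancel]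

end Xp

end Q18.Cgr
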