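import Pool.Agent.Q18.Cgr

/-!
A Suzuki `2`-group of order `64`: all its automorphisms of `2`-power order are trivial modulo the
center.
-/

namespace Q18.Cgr

/-- the field with eight elements as an additive group, with basis `1, t, t²`, `t³ = t + 1` -/
abbrev V8 : Type := ZMod 2 × ZMod 2 × ZMod 2

namespace X2

/-- multiplication in the field -/
def ml (a c : V8) : V8 :=
  (a.1 * c.1 + (a.2.1 * c.2.2 + a.2.2 * c.2.1),
   a.1 * c.2.1 + a.2.1 * c.1 + (a.2.1 * c.2.2 + a.2.2 * c.2.1) + a.2.2 * c.2.2,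
   a.1 * c.2.2 + a.2.1 * c.2.1 + a.2.2 * c.1 + a.2.2 * c.2.2)

/-- the squaring map -/
def sq (b : V8) : V8 := (b.1, b.2.2, b.2.1 + b.2.2)

/-- the cocycle -/
def f (a b : V8) : V8 := ml a (sq b)

/-- the square map of the group -/
def q (a : V8) : V8 := f a a

/-- the commutator map of the group -/
def cm (a b : V8) : V8 := f a b + f b a

theorem f_add_left : ∀ a b c : V8, f (a + b) c = f a c + f b c := by decide +kernel
theorem f_add_right : ∀ a b c : V8, f a (b + c) = f a b + f a c := by decide +kernel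
theorem add_self : ∀ a : V8, a + a = 0 := by decide +kernel

end X2

/-- the underlying set -/
@[ext] structure X2 where
  a : V8
  b : V8

namespace X2

instance : Mul X2 := ⟨fun x y => ⟨x.a + y.a, x.b + y.b + f x.a y.a⟩⟩
instance : One X2 := ⟨⟨0, 0⟩⟩
instance : Inv X2 := ⟨fun x => ⟨x.a, x.b + q x.a⟩⟩

theorem mul_a (x y : X2) : (x * y).a = x.a + y.a := rfl
theorem mul_b (x y : X2) : (x * y).b = x.b + y.b + f x.a y.a := rfl
theorem one_a : (1 : X2).a = 0 := rfl
theorem one_b : (1 : X2).b = 0 := rfl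
theorem inv_a (x : X2) : (x⁻¹).a = x.a := rfl
theorem inv_b (x : X2) : (x⁻¹).b = x.b + q x.a := rfl

theorem f_zero_left : ∀ a : V8, f 0 a = 0 := by decide +kernel
theorem f_zero_right : ∀ a : V8, f a 0 = 0 := by decide +kernel

instance : Group X2 := Group.ofLeftAxioms
  (by
    intro x y z
    ext1
    · rw [mul_a, mul_a, mul_a, mul_a, add_assoc]
    · rw [mul_b, mul_b, mul_b, mul_b, mul_a, mul_a, f_add_left, f_add_right]
      abel)
  (by
    intro x
    ext1
    · rw [mul_a, one_a, zero_add]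
    · rw [mul_b, one_b, one_a, f_zero_left, zero_add, add_zero])
  (by
    intro x
    ext1
    · rw [mul_a, inv_a, add_self]; rfl
    · rw [mul_b, inv_b, inv_a, one_b]
      have h1 := add_self x.b
      have h2 := add_self (q x.a)
      have h3 : f x.a x.a = q x.a := rfl
      rw [h3]
      calc x.b + q x.a + x.b + q x.a = (x.b + x.b) + (q x.a + q x.a) := by abel
        _ = 0 := by rw [h1, h2, add_zero])

/-- The underlying set. -/
def equivProd : X2 ≃ V8 × V8 where
  toFun x := (x.a, x.b)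
  invFun x := ⟨x.1, x.2⟩
  left_inv _ := rfl
  right_inv _ := rfl

theorem card_eq : Nat.card X2 = 2 ^ 6 := by
  rw [Nat.card_congr equivProd]
  simp only [Nat.card_prod, Nat.card_zmod]
  norm_num

theorem sq_eq (x : X2) : x ^ 2 = ⟨0, q x.a⟩ := by
  rw [pow_two]
  ext1
  · rw [mul_a, add_self]
  · rw [mul_b, add_self, zero_add]; rfl

theorem comm_iff (x y : X2) : x * y = y * x ↔ cm x.a y.a = 0 := by
  constructor
  · intro h
    have h1 := congrArg X2.b h
    rw [mul_b, mul_b] at h1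
    have h2 : f x.a y.a = f y.a x.a := by
      rw [add_comm x.b y.b] at h1
      exact add_left_cancel h1
    rw [cm, h2, add_self]
  · intro h
    have h2 : f x.a y.a = f y.a x.a := by
      rw [cm] at h
      have h3 := add_self (f y.a x.a)
      exact add_right_cancel (h.trans h3.symm)
    ext1
    · rw [mul_a, mul_a, add_comm]
    · rw [mul_b, mul_b, h2, add_comm x.b y.b]

theorem cm_zero_right : ∀ a : V8, cm a 0 = 0 := by decide +kernel

theorem cm_nondeg : ∀ a : V8, (∀ b : V8, cm b a = 0) → a = 0 := by decide +kernel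

theorem mem_center_iff' (x : X2) : x ∈ Subgroup.center X2 ↔ x.a = 0 := by
  rw [Subgroup.mem_center_iff]
  constructor
  · intro h
    apply cm_nondeg
    intro b
    exact (comm_iff ⟨b, 0⟩ x).1 (h _)
  · intro h y
    rw [comm_iff, h, cm_zero_right]

theorem q_surj : ∀ b : V8, ∃ a : V8, q a = b := by decide +kernel

theorem q_inj0 : ∀ a : V8, q a = 0 → a = 0 := by decide +kernel

theorem a_congr (φ : MulAut X2) {x y : X2} (h : x.a = y.a) : (φ x).a = (φ y).a := by
  have h1 : x * y⁻¹ ∈ Subgroup.center X2 := by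
    rw [mem_center_iff', mul_a, inv_a, h, add_self]
  have h2 : φ (x * y⁻¹) ∈ Subgroup.center X2 := by
    rw [Subgroup.mem_center_iff] at h1 ⊢
    intro g
    obtain ⟨k, rfl⟩ := φ.surjective g
    rw [← map_mul, ← map_mul, h1]
  rw [mem_center_iff', map_mul, map_inv, mul_a, inv_a] at h2
  exact add_right_cancel (h2.trans (add_self _).symm)

/-- the induced map -/
def gl : MulAut X2 →* AddMonoid.End V8 where
  toFun φ := AddMonoidHom.mk' (fun v => (φ ⟨v, 0⟩).a) (fun v w => by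
    rw [← mul_a, ← map_mul]
    apply a_congr
    rfl)
  map_one' := rfl
  map_mul' φ ψ := by
    apply AddMonoidHom.ext
    intro v
    change (φ (ψ ⟨v, 0⟩)).a = (φ ⟨(ψ ⟨v, 0⟩).a, 0⟩).a
    apply a_congr
    rfl

theorem gl_apply (φ : MulAut X2) (x : X2) : gl φ x.a = (φ x).a := by
  change (φ ⟨x.a, 0⟩).a = (φ x).a
  apply a_congr
  rfl

/-- the induced map on the center -/
def hl (φ : MulAut X2) (b : V8) : V8 := (φ ⟨0, b⟩).b

theorem hl_spec (φ : MulAut X2) (b : V8) : φ ⟨0, b⟩ = ⟨0, hl φ b⟩ := by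
  have h1 : (⟨0, b⟩ : X2) ∈ Subgroup.center X2 := by rw [mem_center_iff']
  have h2 : φ ⟨0, b⟩ ∈ Subgroup.center X2 := by
    rw [Subgroup.mem_center_iff] at h1 ⊢
    intro g
    obtain ⟨k, rfl⟩ := φ.surjective g
    rw [← map_mul, ← map_mul, h1]
  rw [mem_center_iff'] at h2
  ext1
  · exact h2
  · rfl

theorem hl_add (φ : MulAut X2) (b b' : V8) : hl φ (b + b') = hl φ b + hl φ b' := by
  have h1 : (⟨0, b + b'⟩ : X2) = ⟨0, b⟩ * ⟨0, b'⟩ := by
    ext1
    · rw [mul_a, add_zero]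
    · rw [mul_b, f_zero_left, add_zero]
  have h2 : hl φ (b + b') = (φ ⟨0, b + b'⟩).b := rfl
  rw [h2, h1, map_mul, hl_spec, hl_spec, mul_b, f_zero_left, add_zero]

theorem hl_q (φ : MulAut X2) (a : V8) : hl φ (q a) = q (gl φ a) := by
  have h1 := sq_eq ⟨a, 0⟩
  have h2 := congrArg φ h1
  rw [map_pow, sq_eq, hl_spec] at h2
  have h3 := congrArg X2.b h2
  exact h3.symm

theorem cm_eq : ∀ a b : V8, cm a b = q (a + b) + q a + q b := by decide +kernel

theorem hl_cm (φ : MulAut X2) (a b : V8) : hl φ (cm a b) = cm (gl φ a) (gl φ b) := by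
  rw [cm_eq, cm_eq, hl_add, hl_add, hl_q, hl_q, hl_q, map_add]

/-- the additive map with given images of the basis -/
def lm (v0 v1 v2 a : V8) : V8 :=
  (a.1 * v0.1 + a.2.1 * v1.1 + a.2.2 * v2.1,
   a.1 * v0.2.1 + a.2.1 * v1.2.1 + a.2.2 * v2.2.1,
   a.1 * v0.2.2 + a.2.1 * v1.2.2 + a.2.2 * v2.2.2)

theorem lm_spec (g : AddMonoid.End V8) (a : V8) :
    g a = lm (g (1, 0, 0)) (g (0, 1, 0)) (g (0, 0, 1)) a := by
  have key : ∀ s t u : ZMod 2, g (s, t, u) =
      lm (g (1, 0, 0)) (g (0, 1, 0)) (g (0, 0, 1)) (s, t, u) := by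
    have hz : ∀ s : ZMod 2, s = 0 ∨ s = 1 := by decide
    have e : ∀ s t u : ZMod 2, ((s, t, u) : V8) = (s, 0, 0) + (0, t, 0) + (0, 0, u) := by
      decide +kernel
    intro s t u
    rw [e s t u, map_add, map_add]
    have h0 : ∀ v0 v1 v2 : V8, ∀ s t u : ZMod 2, lm v0 v1 v2 ((s, 0, 0) + (0, t, 0) + (0, 0, u)) =
        (if s = 1 then v0 else 0) + (if t = 1 then v1 else 0) + (if u = 1 then v2 else 0) := by
      intro v0 v1 v2 s t u
      rcases hz s with rfl | rfl <;> rcases hz t with rfl | rfl <;> rcases hz u with rfl | rfl <;>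
        simp [lm] <;> rfl
    rw [h0]
    have hg0 : g 0 = 0 := map_zero g
    have hg0' : g ((0 : ZMod 2), (0 : ZMod 2), (0 : ZMod 2)) = 0 := hg0
    rcases hz s with rfl | rfl <;> rcases hz t with rfl | rfl <;> rcases hz u with rfl | rfl <;>
      simp [hg0']
  exact key a.1 a.2.1 a.2.2

/-- iterates -/
def it (g : V8 → V8) : ℕ → V8 → V8
  | 0, a => a
  | n + 1, a => g (it g n a)

/-- the hypotheses of the finite check -/
def hyp (v0 v1 v2 : V8) : Prop :=
  q v1 + q v2 = cm v0 v1 ∧ q v0 + q v1 = cm v0 v2 ∧ q v0 = cm v1 v2 ∧ v0 ≠ 0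

instance (v0 v1 v2 : V8) : Decidable (hyp v0 v1 v2) := by unfold hyp; infer_instance

/-- the conclusion of the finite check -/
def con (v0 v1 v2 : V8) : Prop :=
  it (lm v0 v1 v2) 21 ((1, 0, 0) : V8) = ((1, 0, 0) : V8) ∧
  it (lm v0 v1 v2) 21 ((0, 1, 0) : V8) = ((0, 1, 0) : V8) ∧
  it (lm v0 v1 v2) 21 ((0, 0, 1) : V8) = ((0, 0, 1) : V8)

instance (v0 v1 v2 : V8) : Decidable (con v0 v1 v2) := by unfold con; infer_instance

theorem fin_check : ∀ v0 v1 v2 : V8, hyp v0 v1 v2 → con v0 v1 v2 := by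
  decide +kernel

theorem it_pow (g : AddMonoid.End V8) (v0 v1 v2 : V8) (hg : ∀ a, g a = lm v0 v1 v2 a) (n : ℕ)
    (a : V8) : it (lm v0 v1 v2) n a = (g ^ n) a := by
  induction n with
  | zero => rfl
  | succ n ih =>
    rw [pow_succ']
    change lm v0 v1 v2 (it (lm v0 v1 v2) n a) = g ((g ^ n) a)
    rw [ih, hg]

theorem aut_triv (φ : MulAut X2) (n : ℕ) (hn : φ ^ (2 ^ n) = 1) (x : X2) :
    (φ x).a = x.a := by
  set g := gl φ with hg
  have h1 : g ^ (2 ^ n) = 1 := by rw [hg, ← map_pow, hn, map_one]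
  set v0 := g (1, 0, 0) with hv0
  set v1 := g (0, 1, 0) with hv1
  set v2 := g (0, 0, 1) with hv2
  have e1 : q v1 + q v2 = cm v0 v1 := by
    have : q (0, 1, 0) + q (0, 0, 1) = cm (1, 0, 0) (0, 1, 0) := by decide +kernel
    have h2 := congrArg (hl φ) this
    rwa [hl_add, hl_q, hl_q, hl_cm] at h2
  have e2 : q v0 + q v1 = cm v0 v2 := by
    have : q (1, 0, 0) + q (0, 1, 0) = cm (1, 0, 0) (0, 0, 1) := by decide +kernel
    have h2 := congrArg (hl φ) this
    rwa [hl_add, hl_q, hl_q, hl_cm] at h2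
  have e3 : q v0 = cm v1 v2 := by
    have : q (1, 0, 0) = cm (0, 1, 0) (0, 0, 1) := by decide +kernel
    have h2 := congrArg (hl φ) this
    rwa [hl_q, hl_cm] at h2
  have hv : v0 ≠ 0 := by
    intro h
    have h2 : (g ^ (2 ^ n)) (1, 0, 0) = 0 := by
      obtain ⟨m, hm⟩ := Nat.exists_eq_succ_of_ne_zero (pow_ne_zero n (two_ne_zero (α := ℕ)))
      rw [hm, pow_succ]
      change (g ^ m) (g (1, 0, 0)) = 0
      rw [← hv0, h, map_zero]
    rw [h1] at h2
    exact absurd h2 (by decide)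
  obtain ⟨f0, f1, f2⟩ := fin_check v0 v1 v2 ⟨e1, e2, e3, hv⟩
  have hgl : ∀ a, g a = lm v0 v1 v2 a := lm_spec g
  rw [it_pow g v0 v1 v2 hgl] at f0 f1 f2
  have h21 : g ^ 21 = 1 := by
    refine DFunLike.ext _ _ fun a => ?_
    rw [lm_spec (g ^ 21) a, f0, f1, f2]
    have : ∀ a : V8, lm (1, 0, 0) (0, 1, 0) (0, 0, 1) a = a := by decide +kernel
    exact this a
  have hone : g = 1 := by
    have h3 := orderOf_dvd_of_pow_eq_one h1
    have h4 := orderOf_dvd_of_pow_eq_one h21
    have h5 : Nat.Coprime (2 ^ n) 21 := Nat.Coprime.pow_left _ (by decide)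
    have h6 := Nat.eq_one_of_dvd_coprimes h5 h3 h4
    exact orderOf_eq_one_iff.1 h6
  rw [← gl_apply, ← hg, hone]
  rfl

theorem good : Good 2 X2 where
  card := card_eq
  pow_mem := by
    intro x
    rw [mem_center_iff', sq_eq]
  cen_pow := by
    intro z hz
    rw [mem_center_iff'] at hz
    obtain ⟨a, ha⟩ := q_surj z.b
    refine ⟨⟨a, 0⟩, ?_⟩
    rw [sq_eq]
    ext1
    · exact hz.symm
    · exact ha
  cen_exp := by
    intro z hz
    rw [mem_center_iff'] at hz
    rw [sq_eq, hz]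
    ext1
    · rfl
    · exact f_zero_left 0
  pow_cen := by
    intro x hx
    rw [sq_eq] at hx
    rw [mem_center_iff']
    exact q_inj0 _ (congrArg X2.b hx)
  aut := by
    intro φ n hn x
    rw [mem_center_iff', mul_a, inv_a, aut_triv φ n hn x, add_self]

end X2

end Q18.Cgr
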