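import Mathlib

set_option linter.style.haveILetI false
set_option linter.unusedSectionVars false

namespace Pool.Agent.Q18.Ch

open Subgroup Finset
open scoped commutatorElement

section

variable {K : Type*} [Group K] [Finite K] {p : ℕ} [hp : Fact p.Prime]

theorem coatom_normal {h : ℕ} (hK : Nat.card K = p ^ h) {M : Subgroup K} (hM : IsCoatom M) :
    M.Normal := by
  have hpg : IsPGroup p K := IsPGroup.of_card hK
  haveI := hpg.isNilpotent
  exact NormalizerCondition.normal_of_coatom M Group.normalizerCondition_of_isNilpotent hM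

theorem coatom_index {h : ℕ} (hK : Nat.card K = p ^ h) {M : Subgroup K} (hM : IsCoatom M) :
    M.index = p := by
  have hc : Nat.card M ∣ p ^ h := hK ▸ Subgroup.card_subgroup_dvd_card M
  obtain ⟨k, hk, hcard⟩ := (Nat.dvd_prime_pow hp.out).1 hc
  have hne : k ≠ h := by
    intro hkh
    apply hM.1
    apply Subgroup.eq_top_of_card_eq
    rw [hcard, hkh, hK]
  have hlt : k < h := lt_of_le_of_ne hk hne
  obtain ⟨L, hL, hML⟩ := Sylow.exists_subgroup_card_pow_succ (p := p) (n := k)
    (by rw [hK]; exact pow_dvd_pow p hlt) hcard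
  have hML' : M < L := by
    apply lt_of_le_of_ne hML
    rintro rfl
    rw [hcard] at hL
    have := Nat.pow_right_injective hp.out.two_le hL
    omega
  have hLt : L = ⊤ := hM.2 L hML'
  rw [hLt, Subgroup.card_top] at hL
  have h1 := M.index_mul_card
  rw [hcard, hL, pow_succ, mul_comm] at h1
  exact Nat.eq_of_mul_eq_mul_left (pow_pos hp.out.pos k) h1

theorem pow_mem_frattini {h : ℕ} (hK : Nat.card K = p ^ h) (x : K) : x ^ p ∈ frattini K := by
  unfold frattini Order.radical
  simp only [Subgroup.mem_iInf]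
  intro M hM
  haveI := coatom_normal hK hM
  have := Subgroup.pow_index_mem M x
  rwa [coatom_index hK hM] at this

theorem comm_mem_frattini {h : ℕ} (hK : Nat.card K = p ^ h) (x y : K) :
    ⁅x, y⁆ ∈ frattini K := by
  unfold frattini Order.radical
  simp only [Subgroup.mem_iInf]
  intro M hM
  haveI := coatom_normal hK hM
  have hcard : Nat.card (K ⧸ M) = p := coatom_index hK hM
  haveI : IsCyclic (K ⧸ M) := isCyclic_of_prime_card hcard
  rw [← QuotientGroup.eq_one_iff]
  have hc : (x : K ⧸ M) * (y : K ⧸ M) = y * x := 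
    (IsCyclic.isMulCommutative (α := K ⧸ M)).is_comm.comm _ _
  rw [commutatorElement_def]
  simp only [QuotientGroup.mk_mul, QuotientGroup.mk_inv]
  rw [hc]
  group

theorem normal_of_frattini_le {h : ℕ} (hK : Nat.card K = p ^ h) {W : Subgroup K}
    (hW : frattini K ≤ W) : W.Normal := by
  constructor
  intro w hw g
  have h1 : g * w * g⁻¹ = ⁅g, w⁆ * w := by
    rw [commutatorElement_def]; group
  rw [h1]
  exact W.mul_mem (hW (comm_mem_frattini hK g w)) hw

/-- the set of subgroups meeting `A` in `W` and not inside `A` -/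
noncomputable def trs (A W : Subgroup K) : Finset (Subgroup K) := by
  classical
  haveI := Fintype.ofFinite (Subgroup K)
  exact Finset.univ.filter (fun Y => Y ⊓ A = W ∧ ¬ Y ≤ A)

theorem mem_trs {A W Y : Subgroup K} : Y ∈ trs A W ↔ Y ⊓ A = W ∧ ¬ Y ≤ A := by
  classical
  unfold trs
  simp

theorem index_of_mem_trs {h : ℕ} (hK : Nat.card K = p ^ h) {A W Y : Subgroup K}
    (hA : IsCoatom A) (hY : Y ∈ trs A W) : W.index = p * Y.index := by
  rw [mem_trs] at hY
  obtain ⟨h1, h2⟩ := hY
  haveI := coatom_normal hK hA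
  have h3 : A.relIndex Y ∣ A.index := relIndex_dvd_index_of_normal A Y
  rw [coatom_index hK hA] at h3
  have h4 : A.relIndex Y = p := by
    rcases (Nat.dvd_prime hp.out).1 h3 with h5 | h5
    · exfalso
      exact h2 (Subgroup.relIndex_eq_one.1 h5)
    · exact h5
  have h5 : W.relIndex Y = p := by
    rw [← h1, inf_relIndex_left, h4]
  have h6 : W ≤ Y := h1 ▸ inf_le_left
  rw [← relIndex_mul_index h6, h5]

theorem card_of_mem_trs {h : ℕ} (hK : Nat.card K = p ^ h) {A W Y : Subgroup K}
    (hA : IsCoatom A) (hY : Y ∈ trs A W) : Nat.card Y = p * Nat.card W := by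
  have h1 := index_of_mem_trs hK hA hY
  have h2 := W.index_mul_card
  have h3 := Y.index_mul_card
  rw [h1] at h2
  have hpos : 0 < Y.index := Nat.pos_of_ne_zero Subgroup.index_ne_zero_of_finite
  have h4 : Y.index * (p * Nat.card W) = Y.index * Nat.card Y := by
    rw [h3, ← h2]; ring
  exact (Nat.eq_of_mul_eq_mul_left hpos h4).symm

/-- the subgroup generated by `W` and `x` meets `A` in `W`. -/
theorem exists_trs {h : ℕ} (hK : Nat.card K = p ^ h) {A W : Subgroup K}
    (hW : frattini K ≤ W) (hWA : W ≤ A) {x : K} (hx : x ∉ A) :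
    ∃ Y ∈ trs A W, x ∈ Y := by
  haveI := normal_of_frattini_le hK hW
  set f := QuotientGroup.mk' W with hf
  set Y : Subgroup K := (Subgroup.zpowers (f x)).comap f with hYdef
  have hxY : x ∈ Y := by
    rw [hYdef, Subgroup.mem_comap]
    exact Subgroup.mem_zpowers _
  have hfx : (f x) ^ p = 1 := by
    rw [← map_pow]
    rw [hf, QuotientGroup.mk'_apply, QuotientGroup.eq_one_iff]
    exact hW (pow_mem_frattini hK x)
  have hfx1 : f x ≠ 1 := by
    intro h1
    rw [hf, QuotientGroup.mk'_apply, QuotientGroup.eq_one_iff] at h1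
    exact hx (hWA h1)
  have hord : orderOf (f x) = p := orderOf_eq_prime hfx hfx1
  refine ⟨Y, ?_, hxY⟩
  rw [mem_trs]
  constructor
  · apply le_antisymm
    · intro y hy
      rw [Subgroup.mem_inf] at hy
      obtain ⟨hy1, hy2⟩ := hy
      rw [hYdef, Subgroup.mem_comap, Subgroup.mem_zpowers_iff] at hy1
      obtain ⟨k, hk⟩ := hy1
      -- p divides k, otherwise x ∈ A
      by_cases hpk : (p : ℤ) ∣ k
      · obtain ⟨m, rfl⟩ := hpk
        rw [zpow_mul, zpow_natCast, hfx, one_zpow] at hk
        rw [hf, QuotientGroup.mk'_apply, eq_comm, QuotientGroup.eq_one_iff] at hk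
        exact hk
      · exfalso
        have hcop : IsCoprime (p : ℤ) k :=
          (Nat.prime_iff_prime_int.1 hp.out).irreducible.coprime_iff_not_dvd.2 hpk
        obtain ⟨a, b, hab⟩ := hcop
        apply hx
        -- y * x^{-k} ∈ W ≤ A so x^k ∈ A
        have hxk : x ^ k ∈ A := by
          have h1 : f (y * (x ^ k)⁻¹) = 1 := by
            rw [map_mul, map_inv, map_zpow, hk]; group
          rw [hf, QuotientGroup.mk'_apply, QuotientGroup.eq_one_iff] at h1
          have h2 := A.mul_mem (A.inv_mem (hWA h1)) hy2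
          have h3 : (y * (x ^ k)⁻¹)⁻¹ * y = x ^ k := by group
          rwa [h3] at h2
        have hxp : x ^ (p : ℤ) ∈ A := by
          rw [zpow_natCast]
          exact hWA (hW (pow_mem_frattini hK x))
        have h4 : x = (x ^ (p : ℤ)) ^ a * (x ^ k) ^ b := by
          rw [← zpow_mul, ← zpow_mul, ← zpow_add]
          have : (p : ℤ) * a + k * b = 1 := by linarith
          rw [this, zpow_one]
        rw [h4]
        exact A.mul_mem (A.zpow_mem hxp a) (A.zpow_mem hxk b)
    · intro w hw
      rw [Subgroup.mem_inf]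
      refine ⟨?_, hWA hw⟩
      rw [hYdef, Subgroup.mem_comap]
      have : f w = 1 := by
        rw [hf, QuotientGroup.mk'_apply, QuotientGroup.eq_one_iff]; exact hw
      rw [this]
      exact Subgroup.one_mem _
  · intro hYA
    exact hx (hYA hxY)

theorem eq_of_mem_trs {h : ℕ} (hK : Nat.card K = p ^ h) {A W Y Y' : Subgroup K}
    (hA : IsCoatom A) (hY : Y ∈ trs A W) (hY' : Y' ∈ trs A W) {x : K} (hx : x ∉ A)
    (h1 : x ∈ Y) (h2 : x ∈ Y') : Y = Y' := by
  -- Y ⊓ Y' ⊋ W, card W * p = card Y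
  have hWY : W ≤ Y := (mem_trs.1 hY).1 ▸ inf_le_left
  have hWY' : W ≤ Y' := (mem_trs.1 hY').1 ▸ inf_le_left
  have hcY := card_of_mem_trs hK hA hY
  have hcY' := card_of_mem_trs hK hA hY'
  set Z := Y ⊓ Y' with hZ
  have hZ' : Z ∈ trs A W := by
    rw [mem_trs]
    constructor
    · apply le_antisymm
      · rw [hZ, ← (mem_trs.1 hY).1]
        exact inf_le_inf_right _ inf_le_left
      · exact le_inf (le_inf hWY hWY') ((mem_trs.1 hY).1 ▸ inf_le_right)
    · intro hle
      exact hx (hle ⟨h1, h2⟩)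
  have hcZ := card_of_mem_trs hK hA hZ'
  have hZY : Z = Y := Subgroup.eq_of_le_of_card_ge inf_le_left (by rw [hcY, hcZ])
  have hZY' : Z = Y' := Subgroup.eq_of_le_of_card_ge inf_le_right (by rw [hcY', hcZ])
  rw [← hZY, hZY']

theorem card_compl_sub {A Y : Subgroup K} [Fintype K] [DecidablePred (fun x : K => x ∈ Y ∧ x ∉ A)] :
    #(Finset.univ.filter (fun x : K => x ∈ Y ∧ x ∉ A)) + Nat.card (Y ⊓ A : Subgroup K) =
      Nat.card Y := by
  classical
  have h1 : Nat.card (Y ⊓ A : Subgroup K) = #(Finset.univ.filter (fun x : K => x ∈ Y ∧ x ∈ A)) := by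
    rw [Nat.card_eq_fintype_card]
    exact Fintype.card_of_subtype _ (fun x => by simp [Subgroup.mem_inf])
  have h2 : Nat.card Y = #(Finset.univ.filter (fun x : K => x ∈ Y)) := by
    rw [Nat.card_eq_fintype_card]
    exact Fintype.card_of_subtype _ (fun x => by simp)
  rw [h1, h2, ← Finset.card_union_of_disjoint]
  · congr 1
    ext x
    simp only [Finset.mem_union, Finset.mem_filter, Finset.mem_univ, true_and]
    tauto
  · rw [Finset.disjoint_filter]
    tauto

theorem card_trs {h : ℕ} (hK : Nat.card K = p ^ h) {A W : Subgroup K}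
    (hA : IsCoatom A) (hW : frattini K ≤ W) (hWA : W ≤ A) :
    #(trs A W) * Nat.card W = Nat.card A := by
  classical
  haveI := Fintype.ofFinite K
  have hun : Finset.univ.filter (fun x : K => x ∈ (⊤ : Subgroup K) ∧ x ∉ A) =
      (trs A W).biUnion (fun Y => Finset.univ.filter (fun x : K => x ∈ Y ∧ x ∉ A)) := by
    ext x
    simp only [Finset.mem_filter, Finset.mem_univ, true_and, Finset.mem_biUnion,
      Subgroup.mem_top]
    constructor
    · intro hx
      obtain ⟨Y, hY, hxY⟩ := exists_trs hK hW hWA hx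
      exact ⟨Y, hY, hxY, hx⟩
    · rintro ⟨Y, -, -, hx⟩
      exact hx
  have hdis : ∀ Y ∈ trs A W, ∀ Y' ∈ trs A W, Y ≠ Y' →
      Disjoint (Finset.univ.filter (fun x : K => x ∈ Y ∧ x ∉ A))
        (Finset.univ.filter (fun x : K => x ∈ Y' ∧ x ∉ A)) := by
    intro Y hY Y' hY' hne
    rw [Finset.disjoint_filter]
    rintro x - ⟨h1, h2⟩ ⟨h3, -⟩
    exact hne (eq_of_mem_trs hK hA hY hY' h2 h1 h3)
  have h1 := congrArg Finset.card hun
  rw [Finset.card_biUnion hdis] at h1
  have h2 : ∀ Y ∈ trs A W, #(Finset.univ.filter (fun x : K => x ∈ Y ∧ x ∉ A)) =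
      (p - 1) * Nat.card W := by
    intro Y hY
    have h3 := card_compl_sub (A := A) (Y := Y)
    rw [(mem_trs.1 hY).1, card_of_mem_trs hK hA hY] at h3
    rw [Nat.sub_mul, one_mul]
    omega
  rw [Finset.sum_congr rfl h2, Finset.sum_const, smul_eq_mul] at h1
  have h3 := card_compl_sub (A := A) (Y := (⊤ : Subgroup K))
  rw [top_inf_eq, h1, Subgroup.card_top] at h3
  have h4 := A.index_mul_card
  rw [coatom_index hK hA] at h4
  rw [← h4] at h3
  have hp1 : 1 < p := hp.out.one_lt
  obtain ⟨q, rfl⟩ : ∃ q, p = q + 1 := ⟨p - 1, by omega⟩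
  have h5 : q * (#(trs A W) * Nat.card W) = q * Nat.card A := by
    simp only [Nat.add_sub_cancel] at h3
    have : (q + 1) * Nat.card A = q * Nat.card A + Nat.card A := by ring
    rw [this] at h3
    have h6 := Nat.add_right_cancel h3
    rw [← h6]; ring
  exact Nat.eq_of_mul_eq_mul_left (by omega) h5

/-- the Möbius type coefficient of a subgroup of index `p ^ i`. -/
noncomputable def cf (p : ℕ) (Y : Subgroup K) : ℤ :=
  (-1) ^ (Y.index.factorization p) *
    (p : ℤ) ^ ((Y.index.factorization p) * (Y.index.factorization p - 1) / 2)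

theorem cf_step {h : ℕ} (hK : Nat.card K = p ^ h) {A W : Subgroup K}
    (hA : IsCoatom A) (hW : frattini K ≤ W) (hWA : W ≤ A) :
    cf p W + ∑ Y ∈ trs A W, cf p Y = 0 := by
  classical
  -- index of W is p^(a+1)
  have hWi : W.index ∣ p ^ h := by rw [← hK]; exact Subgroup.index_dvd_card W
  obtain ⟨b, hb, hWb⟩ := (Nat.dvd_prime_pow hp.out).1 hWi
  have hAW := card_trs hK hA hW hWA
  have h1 : #(trs A W) * p = W.index := by
    have h2 := W.index_mul_card
    have h3 := A.index_mul_card
    rw [coatom_index hK hA, ← hAW, ← h2] at h3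
    have hpos : 0 < Nat.card W := Nat.card_pos
    apply Nat.eq_of_mul_eq_mul_right hpos
    rw [← h3]; ring
  have hb0 : b ≠ 0 := by
    rintro rfl
    rw [hWb, pow_zero] at h1
    have := Nat.eq_one_of_mul_eq_one_left h1
    exact hp.out.one_lt.ne' this
  obtain ⟨a, rfl⟩ := Nat.exists_eq_succ_of_ne_zero hb0
  have hcard : #(trs A W) = p ^ a := by
    rw [hWb, pow_succ] at h1
    exact Nat.eq_of_mul_eq_mul_right hp.out.pos h1
  have hY : ∀ Y ∈ trs A W, cf p Y = (-1) ^ a * (p : ℤ) ^ (a * (a - 1) / 2) := by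
    intro Y hY
    have h2 := index_of_mem_trs hK hA hY
    rw [hWb, pow_succ, mul_comm] at h2
    have h3 : Y.index = p ^ a := (Nat.eq_of_mul_eq_mul_left hp.out.pos h2).symm
    unfold cf
    rw [h3, hp.out.factorization_pow]
    simp
  rw [Finset.sum_congr rfl hY, Finset.sum_const, hcard]
  unfold cf
  rw [hWb, hp.out.factorization_pow]
  simp only [Finsupp.single_eq_same, Nat.succ_eq_add_one, Nat.add_sub_cancel, nsmul_eq_mul,
    Nat.cast_pow]
  have h5 : (a + 1) * a / 2 = a + a * (a - 1) / 2 := by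
    have h6 := Nat.triangle_succ a
    rw [Nat.add_sub_cancel] at h6
    omega
  rw [h5, pow_add, pow_succ]
  ring

/-- The sum of the coefficients over an upper interval above the Frattini subgroup. -/
theorem sum_cf {h : ℕ} (hK : Nat.card K = p ^ h) [Fintype (Subgroup K)]
    [DecidableRel (fun Z Y : Subgroup K => Z ≤ Y)]
    {Z : Subgroup K} (hZ : frattini K ≤ Z) (hZt : Z ≠ ⊤) :
    ∑ Y ∈ Finset.univ.filter (fun Y => Z ≤ Y), cf p Y = 0 := by
  classical
  obtain ⟨A, hA, hZA⟩ := (eq_top_or_exists_le_coatom Z).resolve_left hZt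
  have hmap : ∀ Y ∈ Finset.univ.filter (fun Y => Z ≤ Y),
      Y ⊓ A ∈ Finset.univ.filter (fun W : Subgroup K => Z ≤ W ∧ W ≤ A) := by
    intro Y hY
    simp only [Finset.mem_filter, Finset.mem_univ, true_and] at hY ⊢
    exact ⟨le_inf hY hZA, inf_le_right⟩
  rw [← Finset.sum_fiberwise_of_maps_to hmap]
  apply Finset.sum_eq_zero
  intro W hW
  simp only [Finset.mem_filter, Finset.mem_univ, true_and] at hW
  rw [← cf_step hK hA (hZ.trans hW.1) hW.2]
  have hWn : W ∉ trs A W := by
    rw [mem_trs]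
    intro h1
    exact h1.2 hW.2
  rw [← Finset.sum_insert hWn]
  apply Finset.sum_congr _ (fun _ _ => rfl)
  ext Y
  simp only [Finset.mem_filter, Finset.mem_univ, true_and, Finset.mem_insert, mem_trs]
  constructor
  · rintro ⟨h1, h2⟩
    by_cases h3 : Y ≤ A
    · left
      rw [← h2, inf_eq_left.2 h3]
    · right
      exact ⟨h2, h3⟩
  · rintro (rfl | ⟨h1, h2⟩)
    · exact ⟨hW.1, inf_eq_left.2 hW.2⟩
    · refine ⟨?_, h1⟩
      rw [← h1] at hW
      exact hW.1.trans inf_le_left

end

end Pool.Agent.Q18.Ch
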