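import Mathlib
import Pool.Agent.Q18.ChFrat

set_option linter.style.haveILetI false
set_option linter.unusedSectionVars false

namespace Pool.Agent.Q18.Ch

open Subgroup Finset
open scoped Classical

attribute [local instance] Fintype.ofFinite

universe u

/-- the recursion satisfied by the coefficient function. -/
def Rec {G : Type u} [Group G] [Finite G] (p : ℕ) (D : Finset ℕ) (a : Subgroup G → ℤ) : Prop :=
  ∀ H : Subgroup G, a H = if (∃ d ∈ D, Nat.card H = p ^ d) then
    1 - ∑ V ∈ Finset.univ.filter (fun V => V < H), a V else 0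

/-- `F H = 1 - ∑_{U ≤ H} a U`. -/
noncomputable def FF {G : Type u} [Group G] [Finite G] (a : Subgroup G → ℤ) (H : Subgroup G) : ℤ :=
  1 - ∑ U ∈ Finset.univ.filter (fun U => U ≤ H), a U

variable {G : Type u} [Group G] [Finite G] {p : ℕ}

theorem sum_le_eq (a : Subgroup G → ℤ) (H : Subgroup G) :
    ∑ U ∈ Finset.univ.filter (fun U => U ≤ H), a U =
      a H + ∑ U ∈ Finset.univ.filter (fun U => U < H), a U := by
  have h1 : H ∉ Finset.univ.filter (fun U => U < H) := by simp
  rw [← Finset.sum_insert h1]
  apply Finset.sum_congr _ (fun _ _ => rfl)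
  ext U
  simp only [Finset.mem_filter, Finset.mem_univ, true_and, Finset.mem_insert]
  exact le_iff_eq_or_lt

theorem FF_eq_zero {D : Finset ℕ} {a : Subgroup G → ℤ} (ha : Rec p D a) {H : Subgroup G}
    (hH : ∃ d ∈ D, Nat.card H = p ^ d) : FF a H = 0 := by
  unfold FF
  rw [sum_le_eq, ha H, if_pos hH]
  ring

theorem sum_transfer (Y : Subgroup G) (a : Subgroup G → ℤ) (P : Subgroup G → Prop)
    (hP : ∀ V, P V → V ≤ Y) :
    ∑ V ∈ Finset.univ.filter (fun V : Subgroup Y => P (V.map Y.subtype)), a (V.map Y.subtype) =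
      ∑ V ∈ Finset.univ.filter P, a V := by
  apply Finset.sum_nbij' (fun V : Subgroup Y => V.map Y.subtype) (fun V => V.subgroupOf Y)
  · intro V hV
    simpa using hV
  · intro V hV
    simp only [Finset.mem_filter, Finset.mem_univ, true_and] at hV ⊢
    rw [Subgroup.subgroupOf_map_subtype, inf_eq_left.2 (hP V hV)]
    exact hV
  · intro V _
    rw [Subgroup.subgroupOf, Subgroup.comap_map_eq_self_of_injective Y.subtype_injective]
  · intro V hV
    simp only [Finset.mem_filter, Finset.mem_univ, true_and] at hV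
    rw [Subgroup.subgroupOf_map_subtype, inf_eq_left.2 (hP V hV)]
  · intro V _
    rfl

theorem Rec.transfer {D : Finset ℕ} {a : Subgroup G → ℤ} (ha : Rec p D a) (Y : Subgroup G) :
    Rec p D (fun U : Subgroup Y => a (U.map Y.subtype)) := by
  intro H
  simp only
  rw [ha (H.map Y.subtype), Subgroup.card_subtype]
  congr 2
  rw [← sum_transfer Y a (fun V => V < H.map Y.subtype)]
  · apply Finset.sum_congr _ (fun _ _ => rfl)
    ext V
    simp only [Finset.mem_filter, Finset.mem_univ, true_and]
    exact (Subgroup.map_lt_map_iff_of_injective Y.subtype_injective)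
  · intro V hV
    exact hV.le.trans (Subgroup.map_subtype_le H)

theorem FF_transfer (a : Subgroup G → ℤ) (Y : Subgroup G) :
    FF (fun U : Subgroup Y => a (U.map Y.subtype)) ⊤ = FF a Y := by
  unfold FF
  rw [← sum_transfer Y a (fun V => V ≤ Y) (fun V h => h)]
  congr 1
  apply Finset.sum_congr _ (fun _ _ => rfl)
  ext V
  simp only [Finset.mem_filter, Finset.mem_univ, true_and, le_top, true_iff]
  exact Subgroup.map_subtype_le V

theorem frattini_identity {K : Type u} [Group K] [Finite K] [hp : Fact p.Prime] {h : ℕ}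
    (hK : Nat.card K = p ^ h) {D : Finset ℕ} (hh : h ∉ D) (h0 : h ≠ 0)
    {a : Subgroup K → ℤ} (ha : Rec p D a) :
    ∑ Y ∈ Finset.univ.filter (fun Y => frattini K ≤ Y), cf p Y * FF a Y = 0 := by
  have hnt : frattini K ≠ ⊤ := by
    intro h1
    have h2 : (⊥ : Subgroup K) ⊔ frattini K = ⊤ := by rw [h1, sup_top_eq]
    have h3 := frattini_nongenerating h2
    have h4 : Nat.card K = 1 := by
      rw [← Subgroup.card_top, ← h3, Subgroup.card_bot]
    rw [hK] at h4
    have := (Nat.pow_eq_one.1 h4).resolve_right h0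
    exact hp.out.one_lt.ne' this
  have htop : a ⊤ = 0 := by
    rw [ha ⊤, if_neg]
    rintro ⟨d, hd, hc⟩
    rw [Subgroup.card_top, hK] at hc
    have := Nat.pow_right_injective hp.out.two_le hc
    exact hh (this ▸ hd)
  have h1 : ∀ Y ∈ Finset.univ.filter (fun Y : Subgroup K => frattini K ≤ Y),
      cf p Y * FF a Y = cf p Y - ∑ U : Subgroup K, (if U ≤ Y then a U * cf p Y else 0) := by
    intro Y _
    unfold FF
    rw [mul_sub, mul_one, ← Finset.sum_filter, Finset.mul_sum]
    congr 1
    apply Finset.sum_congr rfl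
    intro U _
    ring
  rw [Finset.sum_congr rfl h1, Finset.sum_sub_distrib, sum_cf hK le_rfl hnt, zero_sub,
    neg_eq_zero, Finset.sum_comm]
  apply Finset.sum_eq_zero
  intro U _
  by_cases hU : U = ⊤
  · subst hU
    apply Finset.sum_eq_zero
    intro Y _
    rw [htop]
    simp
  · have h2 : frattini K ⊔ U ≠ ⊤ := by
      intro h3
      rw [sup_comm] at h3
      exact hU (frattini_nongenerating h3)
    have h3 := sum_cf hK (Z := frattini K ⊔ U) le_sup_left h2
    rw [← Finset.sum_filter, ← Finset.mul_sum, Finset.filter_filter]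
    have h4 : Finset.univ.filter (fun Y : Subgroup K => frattini K ≤ Y ∧ U ≤ Y) =
        Finset.univ.filter (fun Y : Subgroup K => frattini K ⊔ U ≤ Y) := by
      ext Y
      simp only [Finset.mem_filter, Finset.mem_univ, true_and, sup_le_iff]
    rw [h4, h3, mul_zero]

theorem claimA [hp : Fact p.Prime] (D : Finset ℕ) (h : ℕ) :
    ∀ (K : Type u) [Group K] [Finite K], Nat.card K = p ^ h → ∀ a : Subgroup K → ℤ,
      Rec p D a → (p : ℤ) ^ #(D.filter (fun d => d ≤ h)) ∣ FF a ⊤ := by
  induction h using Nat.strong_induction_on with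
  | _ h ih =>
  intro K _ _ hK a ha
  by_cases hh : h ∈ D
  · rw [FF_eq_zero ha ⟨h, hh, by rw [Subgroup.card_top, hK]⟩]
    exact dvd_zero _
  · by_cases h0 : h = 0
    · subst h0
      have : D.filter (fun d => d ≤ 0) = ∅ := by
        ext d
        simp only [Finset.mem_filter, Nat.le_zero, Finset.notMem_empty, iff_false, not_and]
        rintro hd rfl
        exact hh hd
      rw [this]
      simp
    · have hid := frattini_identity hK hh h0 ha
      have htm : (⊤ : Subgroup K) ∈ Finset.univ.filter (fun Y : Subgroup K => frattini K ≤ Y) := by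
        simp
      rw [← Finset.add_sum_erase _ _ htm] at hid
      have hc : cf p (⊤ : Subgroup K) = 1 := by
        unfold cf
        simp
      rw [hc, one_mul] at hid
      rw [eq_neg_of_add_eq_zero_left hid, dvd_neg]
      apply Finset.dvd_sum
      intro Y hY
      have hYt : Y ≠ ⊤ := (Finset.mem_erase.1 hY).1
      have hcY : Nat.card Y ∣ p ^ h := hK ▸ Subgroup.card_subgroup_dvd_card Y
      obtain ⟨k, hk, hcard⟩ := (Nat.dvd_prime_pow hp.out).1 hcY
      have hkh : k < h := by
        apply lt_of_le_of_ne hk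
        rintro rfl
        apply hYt
        apply Subgroup.eq_top_of_card_eq
        rw [hcard, hK]
      have h1 := ih k hkh Y hcard _ (ha.transfer Y)
      rw [FF_transfer] at h1
      have hind : Y.index = p ^ (h - k) := by
        have h2 := Y.index_mul_card
        rw [hcard, hK] at h2
        have h3 : p ^ h = p ^ (h - k) * p ^ k := by
          rw [← pow_add]; congr 1; omega
        rw [h3] at h2
        exact Nat.eq_of_mul_eq_mul_right (pow_pos hp.out.pos k) h2
      have hcf : (p : ℤ) ^ (h - k - 1) ∣ cf p Y := by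
        unfold cf
        rw [hind, hp.out.factorization_pow]
        simp only [Finsupp.single_eq_same]
        apply Dvd.dvd.mul_left
        apply pow_dvd_pow
        obtain ⟨i, hi⟩ : ∃ i, h - k = i + 1 := ⟨h - k - 1, by omega⟩
        rw [hi, Nat.add_sub_cancel]
        rcases Nat.eq_zero_or_pos i with rfl | hi0
        · simp
        · rw [Nat.le_div_iff_mul_le (by norm_num)]
          nlinarith
      have hle : #(D.filter (fun d => d ≤ h)) ≤ (h - k - 1) + #(D.filter (fun d => d ≤ k)) := by
        have h5 : D.filter (fun d => d ≤ h) ⊆ Finset.Ioo k h ∪ D.filter (fun d => d ≤ k) := by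
          intro d hd
          simp only [Finset.mem_filter, Finset.mem_union, Finset.mem_Ioo] at hd ⊢
          have hne : d ≠ h := fun h => hh (h ▸ hd.1)
          by_cases hdk : d ≤ k
          · right; exact ⟨hd.1, hdk⟩
          · left; omega
        calc #(D.filter (fun d => d ≤ h)) ≤ #(Finset.Ioo k h ∪ D.filter (fun d => d ≤ k)) :=
              Finset.card_le_card h5
          _ ≤ #(Finset.Ioo k h) + #(D.filter (fun d => d ≤ k)) := Finset.card_union_le _ _
          _ = _ := by rw [Nat.card_Ioo]
      calc (p : ℤ) ^ #(D.filter (fun d => d ≤ h)) ∣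
            (p : ℤ) ^ ((h - k - 1) + #(D.filter (fun d => d ≤ k))) := pow_dvd_pow _ hle
        _ = (p : ℤ) ^ (h - k - 1) * (p : ℤ) ^ #(D.filter (fun d => d ≤ k)) := pow_add _ _ _
        _ ∣ cf p Y * FF a Y := mul_dvd_mul hcf h1

theorem claimA' [hp : Fact p.Prime] (D : Finset ℕ) {a : Subgroup G → ℤ} (ha : Rec p D a)
    {X : Subgroup G} {x : ℕ} (hX : Nat.card X = p ^ x) :
    (p : ℤ) ^ #(D.filter (fun d => d ≤ x)) ∣ FF a X := by
  rw [← FF_transfer]
  exact claimA D x X hX _ (ha.transfer X)

end Pool.Agent.Q18.Ch
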