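import Mathlib
import Pool.Agent.Q18.ChRec

set_option linter.style.haveILetI false
set_option linter.unusedSectionVars false

namespace Pool.Agent.Q18.Ch

open Subgroup Finset
open scoped Classical Pointwise

attribute [local instance] Fintype.ofFinite

universe u v

theorem orbit_dvd {Q : Type u} {X : Type v} [Group Q] [Finite Q] [MulAction Q X] [Finite X]
    (w : X → ℤ) (hw : ∀ (g : Q) x, w (g • x) = w x) (N : ℤ)
    (h : ∀ x, N ∣ ((MulAction.stabilizer Q x).index : ℤ) * w x) : N ∣ ∑ x, w x := by
  rw [← Finset.sum_fiberwise Finset.univ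
    (fun x : X => (Quotient.mk (MulAction.orbitRel Q X) x)) w]
  apply Finset.dvd_sum
  intro q _
  obtain ⟨x, rfl⟩ := Quotient.exists_rep q
  have h1 : ∀ y ∈ Finset.univ.filter (fun y : X => Quotient.mk (MulAction.orbitRel Q X) y =
      Quotient.mk (MulAction.orbitRel Q X) x), w y = w x := by
    intro y hy
    simp only [Finset.mem_filter, Finset.mem_univ, true_and] at hy
    have h2 : y ∈ MulAction.orbit Q x := MulAction.orbitRel_apply.1 (Quotient.exact hy)
    obtain ⟨g, rfl⟩ := h2
    exact hw g x
  rw [Finset.sum_congr rfl h1, Finset.sum_const, nsmul_eq_mul]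
  have h3 : #(Finset.univ.filter (fun y : X => Quotient.mk (MulAction.orbitRel Q X) y =
      Quotient.mk (MulAction.orbitRel Q X) x)) = (MulAction.stabilizer Q x).index := by
    rw [MulAction.index_stabilizer, ← Set.ncard_coe_finset]
    congr 1
    ext y
    simp only [Finset.coe_filter, Finset.mem_univ, true_and, Set.mem_ofPred_eq]
    constructor
    · intro hy
      exact MulAction.orbitRel_apply.1 (Quotient.exact hy)
    · intro hy
      exact Quotient.sound (MulAction.orbitRel_apply.2 hy)
  rw [h3]
  exact h x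

section

variable {G : Type u} [Group G] [Finite G] {p : ℕ}

theorem sum_ge_eq (m : Subgroup G → ℤ) (X : Subgroup G) :
    ∑ Y ∈ Finset.univ.filter (fun Y => X ≤ Y), m Y =
      m X + ∑ Y ∈ Finset.univ.filter (fun Y => X < Y), m Y := by
  have h1 : X ∉ Finset.univ.filter (fun Y => X < Y) := by simp
  rw [← Finset.sum_insert h1]
  apply Finset.sum_congr _ (fun _ _ => rfl)
  ext Y
  simp only [Finset.mem_filter, Finset.mem_univ, true_and, Finset.mem_insert]
  rw [le_iff_eq_or_lt, eq_comm]

theorem exists_inv (f : Subgroup G → ℤ) : ∃ m : Subgroup G → ℤ, ∀ X,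
    ∑ Y ∈ Finset.univ.filter (fun Y => X ≤ Y), m Y = f X := by
  let m : Subgroup G → ℤ := (wellFounded_gt (α := Subgroup G)).fix
    (fun X ih => f X - ∑ Y : {Y : Subgroup G // X < Y}, ih Y.1 Y.2)
  refine ⟨m, fun X => ?_⟩
  rw [sum_ge_eq]
  have h1 : m X = f X - ∑ Y : {Y : Subgroup G // X < Y}, m Y.1 := by
    exact (wellFounded_gt (α := Subgroup G)).fix_eq _ X
  rw [h1, Finset.sum_subtype (Finset.univ.filter (fun Y => X < Y)) (p := fun Y => X < Y)
    (fun Y => by simp) m]
  ring

theorem inv_unique {m m' : Subgroup G → ℤ}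
    (h : ∀ X, ∑ Y ∈ Finset.univ.filter (fun Y => X ≤ Y), m Y =
      ∑ Y ∈ Finset.univ.filter (fun Y => X ≤ Y), m' Y) : m = m' := by
  funext X
  induction X using (wellFounded_gt (α := Subgroup G)).induction with
  | _ X ih =>
  have h1 := h X
  rw [sum_ge_eq, sum_ge_eq] at h1
  have h2 : ∑ Y ∈ Finset.univ.filter (fun Y => X < Y), m Y =
      ∑ Y ∈ Finset.univ.filter (fun Y => X < Y), m' Y := by
    apply Finset.sum_congr rfl
    intro Y hY
    exact ih Y (by simpa using hY)
  rw [h2] at h1
  exact add_right_cancel h1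

/-- the property defining the weight `m`. -/
def Wt (p : ℕ) (m : Subgroup G → ℤ) : Prop :=
  ∀ X, ∑ Y ∈ Finset.univ.filter (fun Y => X ≤ Y), m Y = if IsPGroup p X then -1 else 0

theorem Wt.invariant {m : Subgroup G → ℤ} (hm : Wt p m) (φ : G ≃* G) (X : Subgroup G) :
    m (X.map (φ : G →* G)) = m X := by
  have h : (fun X => m (φ.mapSubgroup X)) = m := by
    apply inv_unique
    intro X
    rw [hm X]
    have h1 := hm (φ.mapSubgroup X)
    have h2 : IsPGroup p (φ.mapSubgroup X) ↔ IsPGroup p X := by
      have e : X ≃* (φ.mapSubgroup X : Subgroup G) := φ.subgroupMap X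
      exact ⟨fun h => h.of_equiv e.symm, fun h => h.of_equiv e⟩
    rw [if_congr h2 rfl rfl] at h1
    rw [← h1]
    apply Finset.sum_nbij' (fun Y => φ.mapSubgroup Y) (fun Y => φ.mapSubgroup.symm Y)
    · intro Y hY
      simp only [Finset.mem_filter, Finset.mem_univ, true_and] at hY ⊢
      exact φ.mapSubgroup.monotone hY
    · intro Y hY
      simp only [Finset.mem_filter, Finset.mem_univ, true_and] at hY ⊢
      rw [← φ.mapSubgroup.le_iff_le, OrderIso.apply_symm_apply]
      exact hY
    · intro Y _
      exact φ.mapSubgroup.symm_apply_apply Y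
    · intro Y _
      exact φ.mapSubgroup.apply_symm_apply Y
    · intro Y _
      rfl
  exact congrFun h X

theorem Wt.zero {m : Subgroup G → ℤ} (hm : Wt p m) (X : Subgroup G) (hX : ¬ IsPGroup p X) :
    m X = 0 := by
  induction X using (wellFounded_gt (α := Subgroup G)).induction with
  | _ X ih =>
  have h1 := hm X
  rw [sum_ge_eq, if_neg hX] at h1
  have h2 : ∑ Y ∈ Finset.univ.filter (fun Y => X < Y), m Y = 0 := by
    apply Finset.sum_eq_zero
    intro Y hY
    have hXY : X < Y := by simpa using hY
    exact ih Y hXY (fun h => hX (h.to_le hXY.le))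
  rw [h2, add_zero] at h1
  exact h1

theorem Wt.sum_inf {m : Subgroup G → ℤ} (hm : Wt p m) {Q : Subgroup G} (hQ : IsPGroup p Q)
    (X : Subgroup G) (hX : X < Q) :
    ∑ Y ∈ Finset.univ.filter (fun Y => Y ⊓ Q = X), m Y = 0 := by
  induction X using (wellFounded_gt (α := Subgroup G)).induction with
  | _ X ih =>
  have h1 := hm X
  rw [if_pos (hQ.to_le hX.le)] at h1
  have h2 := hm Q
  rw [if_pos hQ] at h2
  have hmap : ∀ Y ∈ Finset.univ.filter (fun Y => X ≤ Y),
      Y ⊓ Q ∈ insert X (insert Q
        (Finset.univ.filter (fun Z : Subgroup G => X < Z ∧ Z < Q))) := by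
    intro Y hY
    simp only [Finset.mem_filter, Finset.mem_univ, true_and, Finset.mem_insert] at hY ⊢
    have h3 : X ≤ Y ⊓ Q := le_inf hY hX.le
    rcases h3.eq_or_lt with h4 | h4
    · left; exact h4.symm
    · right
      have h5 : Y ⊓ Q ≤ Q := inf_le_right
      rcases h5.eq_or_lt with h6 | h6
      · left; exact h6
      · right; exact ⟨h4, h6⟩
  rw [← Finset.sum_fiberwise_of_maps_to hmap] at h1
  have hfib : ∀ Z, X ≤ Z → (Finset.univ.filter (fun Y => X ≤ Y)).filter (fun Y => Y ⊓ Q = Z) =
      Finset.univ.filter (fun Y : Subgroup G => Y ⊓ Q = Z) := by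
    intro Z hZ
    ext Y
    simp only [Finset.mem_filter, Finset.mem_univ, true_and, and_iff_right_iff_imp]
    rintro rfl
    exact hZ.trans inf_le_left
  rw [Finset.sum_insert, Finset.sum_insert, hfib X le_rfl, hfib Q hX.le] at h1
  · have h3 : ∑ Z ∈ Finset.univ.filter (fun Z : Subgroup G => X < Z ∧ Z < Q),
        ∑ Y ∈ (Finset.univ.filter (fun Y => X ≤ Y)).filter (fun Y => Y ⊓ Q = Z), m Y = 0 := by
      apply Finset.sum_eq_zero
      intro Z hZ
      simp only [Finset.mem_filter, Finset.mem_univ, true_and] at hZ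
      rw [hfib Z hZ.1.le]
      exact ih Z hZ.1 hZ.2
    have h4 : Finset.univ.filter (fun Y : Subgroup G => Y ⊓ Q = Q) =
        Finset.univ.filter (fun Y : Subgroup G => Q ≤ Y) := by
      ext Y
      simp only [Finset.mem_filter, Finset.mem_univ, true_and, inf_eq_right]
    rw [h3, h4, h2, add_zero] at h1
    linarith
  · simp
  · simp only [Finset.mem_insert, Finset.mem_filter, Finset.mem_univ, true_and, lt_self_iff_false,
      false_and, or_false]
    exact hX.ne

/-- conjugation action of a subgroup on subgroups -/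
@[reducible] noncomputable def conjAct (Q : Subgroup G) : MulAction Q (Subgroup G) :=
  MulAction.compHom (Subgroup G) ((MulAut.conj (G := G)).comp Q.subtype)

theorem conjAct_smul (Q : Subgroup G) (q : Q) (Y : Subgroup G) :
    letI := conjAct Q
    q • Y = Y.map (MulAut.conj (q : G) : G →* G) := rfl

theorem mem_map_conj (g : G) (Y : Subgroup G) (x : G) :
    x ∈ Y.map (MulAut.conj g : G →* G) ↔ g⁻¹ * x * g ∈ Y := by
  rw [Subgroup.mem_map]
  constructor
  · rintro ⟨y, hy, rfl⟩
    simpa [MulAut.conj_apply, mul_assoc] using hy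
  · intro h
    exact ⟨_, h, by simp [MulAut.conj_apply, mul_assoc]⟩

theorem map_conj_eq_iff (g : G) (Y : Subgroup G) :
    Y.map (MulAut.conj g : G →* G) = Y ↔ g ∈ normalizer (Y : Set G) := by
  rw [Subgroup.mem_normalizer_iff]
  constructor
  · intro h x
    have h1 := mem_map_conj g Y (g * x * g⁻¹)
    rw [h] at h1
    rw [h1]
    have : g⁻¹ * (g * x * g⁻¹) * g = x := by group
    rw [this]
  · intro h
    ext x
    rw [mem_map_conj, h]
    have : g * (g⁻¹ * x * g) * g⁻¹ = x := by group
    rw [this]

theorem stab_index (Q Y : Subgroup G) :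
    letI := conjAct Q
    (MulAction.stabilizer Q Y).index = (normalizer (Y : Set G)).relIndex Q := by
  letI := conjAct Q
  rw [Subgroup.relIndex]
  congr 1
  ext q
  rw [MulAction.mem_stabilizer_iff, conjAct_smul, map_conj_eq_iff, Subgroup.mem_subgroupOf]

theorem relIndex_sup_right' {R X : Subgroup G} (h : R ≤ normalizer (X : Set G)) :
    X.relIndex (R ⊔ X) = X.relIndex R := by
  haveI : (X.subgroupOf R).Normal := Subgroup.normal_subgroupOf_of_le_normalizer h
  haveI : (X.subgroupOf (R ⊔ X)).Normal := Subgroup.normal_subgroupOf_sup_of_le_normalizer h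
  exact (Nat.card_congr
    (QuotientGroup.quotientInfEquivProdNormalizerQuotient R X h).toEquiv).symm

theorem Wt.dvd {m : Subgroup G → ℤ} (hm : Wt p m) (X : Subgroup G)
    (hX : IsPGroup p X) (R : Subgroup G) (hR : IsPGroup p R) (hRX : R ≤ normalizer (X : Set G)) :
    ((X.relIndex R : ℕ) : ℤ) ∣ m X := by
  induction X using (wellFounded_gt (α := Subgroup G)).induction generalizing R with
  | _ X ih =>
  set Q := R ⊔ X with hQdef
  have hQ : IsPGroup p Q := hR.to_sup_of_normal_right' hX hRX
  have hXQ : X ≤ Q := le_sup_right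
  have hQN : Q ≤ normalizer (X : Set G) := sup_le hRX Subgroup.le_normalizer
  rw [← relIndex_sup_right' hRX]
  rcases hXQ.eq_or_lt with heq | hlt
  · rw [← hQdef, ← heq, Subgroup.relIndex_self]
    simp
  · have h1 := hm.sum_inf hQ X hlt
    have hXm : X ∈ Finset.univ.filter (fun Y => Y ⊓ Q = X) := by
      simp only [Finset.mem_filter, Finset.mem_univ, true_and]
      exact inf_eq_left.2 hXQ
    rw [← Finset.add_sum_erase _ _ hXm] at h1
    rw [eq_neg_of_add_eq_zero_left h1, dvd_neg]
    have h2 : ∑ Y ∈ (Finset.univ.filter (fun Y => Y ⊓ Q = X)).erase X, m Y =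
        ∑ Y, (if Y ⊓ Q = X ∧ Y ≠ X then m Y else 0) := by
      rw [← Finset.sum_filter]
      apply Finset.sum_congr _ (fun _ _ => rfl)
      ext Y
      simp only [Finset.mem_erase, Finset.mem_filter, Finset.mem_univ, true_and]
      tauto
    rw [h2]
    letI := conjAct Q
    apply orbit_dvd (Q := Q)
    · intro g Y
      rw [conjAct_smul]
      have hXg : X.map (MulAut.conj (g : G) : G →* G) = X := (map_conj_eq_iff _ _).2 (hQN g.2)
      have hQg : Q.map (MulAut.conj (g : G) : G →* G) = Q :=
        (map_conj_eq_iff _ _).2 (Subgroup.le_normalizer g.2)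
      have hinj : Function.Injective (MulAut.conj (g : G) : G →* G) :=
        (MulAut.conj (g : G)).injective
      have h3 : (Y.map (MulAut.conj (g : G) : G →* G) ⊓ Q = X ∧
          Y.map (MulAut.conj (g : G) : G →* G) ≠ X) ↔ (Y ⊓ Q = X ∧ Y ≠ X) := by
        have h4 : Y.map (MulAut.conj (g : G) : G →* G) ⊓ Q =
            (Y ⊓ Q).map (MulAut.conj (g : G) : G →* G) := by
          rw [Subgroup.map_inf _ _ _ hinj, hQg]
        have h5 : (Y ⊓ Q).map (MulAut.conj (g : G) : G →* G) = X ↔ Y ⊓ Q = X := by
          constructor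
          · intro h6
            apply Subgroup.map_injective hinj
            rw [h6, hXg]
          · intro h6
            rw [h6, hXg]
        have h7 : Y.map (MulAut.conj (g : G) : G →* G) = X ↔ Y = X := by
          constructor
          · intro h6
            apply Subgroup.map_injective hinj
            rw [h6, hXg]
          · intro h6
            rw [h6, hXg]
        rw [h4, h5, ne_eq, h7]
      rw [if_congr h3 (hm.invariant (MulAut.conj (g : G)) Y) rfl]
    · intro Y
      by_cases hY : Y ⊓ Q = X ∧ Y ≠ X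
      · rw [if_pos hY, stab_index]
        by_cases hYp : IsPGroup p Y
        · have hXY : X < Y := by
            apply lt_of_le_of_ne
            · rw [← hY.1]; exact inf_le_left
            · exact hY.2.symm
          set R' := Q ⊓ normalizer (Y : Set G) with hR'
          have hR'p : IsPGroup p R' := hQ.to_le inf_le_left
          have h3 := ih Y hXY hYp R' hR'p inf_le_right
          have hYR' : Y ⊓ R' = X := by
            rw [hR', ← inf_assoc, hY.1]
            exact inf_eq_left.2 (hXY.le.trans Subgroup.le_normalizer)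
          have h4 : Y.relIndex R' = X.relIndex R' := by
            rw [← hYR', inf_relIndex_right]
          have hXR' : X ≤ R' := by rw [← hYR']; exact inf_le_right
          have h5 : X.relIndex R' * R'.relIndex Q = X.relIndex Q :=
            relIndex_mul_relIndex X R' Q hXR' inf_le_left
          have h6 : R'.relIndex Q = (normalizer (Y : Set G)).relIndex Q := by
            rw [hR', inf_relIndex_left]
          rw [← h6, ← h5]
          push_cast
          rw [mul_comm]
          rw [h4] at h3
          exact mul_dvd_mul_left _ h3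
        · rw [hm.zero Y hYp, mul_zero]
          exact dvd_zero _
      · rw [if_neg hY, mul_zero]
        exact dvd_zero _

end

end Pool.Agent.Q18.Ch
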