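import Mathlib
import Pool.Agent.Q18.ChInv

set_option linter.style.haveILetI false
set_option linter.unusedSectionVars false

namespace Pool.Agent.Q18.Ch

open Subgroup Finset
open scoped Classical Pointwise

attribute [local instance] Fintype.ofFinite

universe u v

section

variable {G : Type u} [Group G] [Finite G] {p : ℕ}

theorem Rec.invariant {D : Finset ℕ} {a : Subgroup G → ℤ} (ha : Rec p D a) (φ : G ≃* G)
    (X : Subgroup G) : a (X.map (φ : G →* G)) = a X := by
  induction X using (wellFounded_lt (α := Subgroup G)).induction with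
  | _ X ih =>
  have hcard : Nat.card (X.map (φ : G →* G)) = Nat.card X :=
    (Nat.card_congr (φ.subgroupMap X).toEquiv).symm
  rw [ha (X.map (φ : G →* G)), ha X, hcard]
  congr 2
  symm
  apply Finset.sum_nbij' (fun Y => φ.mapSubgroup Y) (fun Y => φ.mapSubgroup.symm Y)
  · intro Y hY
    simp only [Finset.mem_filter, Finset.mem_univ, true_and] at hY ⊢
    exact φ.mapSubgroup.strictMono hY
  · intro Y hY
    simp only [Finset.mem_filter, Finset.mem_univ, true_and] at hY ⊢
    rw [← φ.mapSubgroup.lt_iff_lt, OrderIso.apply_symm_apply]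
    exact hY
  · intro Y _
    exact φ.mapSubgroup.symm_apply_apply Y
  · intro Y _
    exact φ.mapSubgroup.apply_symm_apply Y
  · intro Y hY
    simp only [Finset.mem_filter, Finset.mem_univ, true_and] at hY
    exact (ih Y hY).symm

theorem FF_invariant {D : Finset ℕ} {a : Subgroup G → ℤ} (ha : Rec p D a) (φ : G ≃* G)
    (X : Subgroup G) : FF a (X.map (φ : G →* G)) = FF a X := by
  unfold FF
  congr 1
  symm
  apply Finset.sum_nbij' (fun Y => φ.mapSubgroup Y) (fun Y => φ.mapSubgroup.symm Y)
  · intro Y hY
    simp only [Finset.mem_filter, Finset.mem_univ, true_and] at hY ⊢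
    exact φ.mapSubgroup.monotone hY
  · intro Y hY
    simp only [Finset.mem_filter, Finset.mem_univ, true_and] at hY ⊢
    rw [← φ.mapSubgroup.le_iff_le, OrderIso.apply_symm_apply]
    exact hY
  · intro Y _
    exact φ.mapSubgroup.symm_apply_apply Y
  · intro Y _
    exact φ.mapSubgroup.apply_symm_apply Y
  · intro Y _
    exact (ha.invariant φ Y).symm

theorem FF_top_eq {D : Finset ℕ} {a : Subgroup G → ℤ} (ha : Rec p D a)
    {m : Subgroup G → ℤ} (hm : Wt p m) : FF a ⊤ = - ∑ X, m X * FF a X := by
  have h1 : ∀ X ∈ (Finset.univ : Finset (Subgroup G)),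
      m X * FF a X = m X - ∑ U : Subgroup G, (if U ≤ X then a U * m X else 0) := by
    intro X _
    unfold FF
    rw [mul_sub, mul_one, ← Finset.sum_filter, Finset.mul_sum]
    congr 1
    apply Finset.sum_congr rfl
    intro U _
    ring
  rw [Finset.sum_congr rfl h1, Finset.sum_sub_distrib]
  have h2 : ∑ X : Subgroup G, m X = -1 := by
    have h3 := hm ⊥
    rw [if_pos (IsPGroup.of_bot)] at h3
    rw [← h3]
    apply Finset.sum_congr _ (fun _ _ => rfl)
    ext X
    simp
  have h4 : ∑ X : Subgroup G, ∑ U : Subgroup G, (if U ≤ X then a U * m X else 0) =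
      - ∑ U : Subgroup G, a U := by
    rw [Finset.sum_comm, ← Finset.sum_neg_distrib]
    apply Finset.sum_congr rfl
    intro U _
    rw [← Finset.sum_filter, ← Finset.mul_sum, hm U]
    by_cases hU : IsPGroup p U
    · rw [if_pos hU]; ring
    · rw [if_neg hU, ha U, if_neg]
      · simp
      · rintro ⟨d, -, hd⟩
        exact hU (IsPGroup.of_card hd)
  rw [h2, h4]
  unfold FF
  have h5 : Finset.univ.filter (fun U : Subgroup G => U ≤ ⊤) = Finset.univ := by
    ext X; simp
  rw [h5]
  ring

theorem main_dvd [hp : Fact p.Prime] {D : Finset ℕ} {a : Subgroup G → ℤ} (ha : Rec p D a)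
    (hD : ∀ d ∈ D, d ≤ (Nat.card G).factorization p) : (p : ℤ) ^ #D ∣ FF a ⊤ := by
  obtain ⟨m, hm⟩ := exists_inv (fun X : Subgroup G => if IsPGroup p X then (-1 : ℤ) else 0)
  have hm : Wt p m := hm
  rw [FF_top_eq ha hm, dvd_neg]
  obtain ⟨S⟩ : Nonempty (Sylow p G) := inferInstance
  letI := conjAct (S : Subgroup G)
  set t := (Nat.card G).factorization p with ht
  have hS : Nat.card (S : Subgroup G) = p ^ t := S.card_eq_multiplicity
  apply orbit_dvd (Q := (S : Subgroup G))
  · intro g X
    rw [conjAct_smul, hm.invariant (MulAut.conj (g : G)) X,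
      FF_invariant ha (MulAut.conj (g : G)) X]
  · intro X
    rw [stab_index]
    by_cases hX : IsPGroup p X
    · obtain ⟨x, hx⟩ := IsPGroup.iff_card.1 hX
      set R := (S : Subgroup G) ⊓ normalizer (X : Set G) with hR
      have h1 := hm.dvd X hX R (S.isPGroup'.to_le inf_le_left) inf_le_right
      have h2 := claimA' D ha hx
      have h3 : R.relIndex S = (normalizer (X : Set G)).relIndex S := by
        rw [hR, inf_relIndex_left]
      have h4 : X.relIndex R * R.relIndex S = X.relIndex S := by
        have h5 : X.relIndex R = (X ⊓ R).relIndex R := by rw [inf_relIndex_right]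
        have h6 : X ⊓ R = X ⊓ S := by
          apply le_antisymm
          · exact inf_le_inf_left _ inf_le_left
          · exact le_inf inf_le_left (le_inf inf_le_right (inf_le_left.trans
              Subgroup.le_normalizer))
        rw [h5, relIndex_mul_relIndex _ _ _ inf_le_right inf_le_left, h6, inf_relIndex_right]
      have h7 : p ^ (t - x) ∣ X.relIndex S := by
        have h8 : Nat.card (X ⊓ S : Subgroup G) * (X ⊓ S : Subgroup G).relIndex S =
            Nat.card (S : Subgroup G) := by
          rw [← Subgroup.relIndex_bot_left, ← Subgroup.relIndex_bot_left (S : Subgroup G)]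
          exact relIndex_mul_relIndex _ _ _ bot_le inf_le_right
        rw [inf_relIndex_right, hS] at h8
        have h9 : Nat.card (X ⊓ S : Subgroup G) ∣ p ^ x := by
          rw [← hx]
          exact Subgroup.card_dvd_of_le inf_le_left
        obtain ⟨y, hy, hyc⟩ := (Nat.dvd_prime_pow hp.out).1 h9
        rw [hyc] at h8
        by_cases htx : x ≤ t
        · have h10 : p ^ t = p ^ y * p ^ (t - y) := by rw [← pow_add]; congr 1; omega
          rw [h10] at h8
          have h11 := Nat.eq_of_mul_eq_mul_left (pow_pos hp.out.pos y) h8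
          rw [h11]
          exact pow_dvd_pow p (by omega)
        · rw [Nat.sub_eq_zero_of_le (by omega), pow_zero]
          exact one_dvd _
      have h12 : #D ≤ (t - x) + #(D.filter (fun d => d ≤ x)) := by
        have h13 : D ⊆ Finset.Ioc x t ∪ D.filter (fun d => d ≤ x) := by
          intro d hd
          simp only [Finset.mem_filter, Finset.mem_union, Finset.mem_Ioc]
          by_cases hdx : d ≤ x
          · right; exact ⟨hd, hdx⟩
          · left; exact ⟨by omega, hD d hd⟩
        calc #D ≤ #(Finset.Ioc x t ∪ D.filter (fun d => d ≤ x)) := Finset.card_le_card h13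
          _ ≤ #(Finset.Ioc x t) + #(D.filter (fun d => d ≤ x)) := Finset.card_union_le _ _
          _ = _ := by rw [Nat.card_Ioc]
      rw [← h3]
      have h14 : ((p : ℤ) ^ (t - x)) ∣ ((R.relIndex S : ℕ) : ℤ) * m X := by
        have h15 : ((p : ℤ) ^ (t - x)) ∣ ((R.relIndex S : ℕ) : ℤ) * ((X.relIndex R : ℕ) : ℤ) := by
          rw [mul_comm, ← Nat.cast_mul, h4, ← Nat.cast_pow]
          exact_mod_cast h7
        exact h15.trans (mul_dvd_mul_left _ h1)
      calc (p : ℤ) ^ #D ∣ (p : ℤ) ^ ((t - x) + #(D.filter (fun d => d ≤ x))) :=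
            pow_dvd_pow _ h12
        _ = (p : ℤ) ^ (t - x) * (p : ℤ) ^ #(D.filter (fun d => d ≤ x)) := pow_add _ _ _
        _ ∣ ((R.relIndex S : ℕ) : ℤ) * m X * FF a X := mul_dvd_mul h14 h2
        _ = _ := by ring
    · rw [hm.zero X hX, zero_mul, mul_zero]
      exact dvd_zero _

end

section count

variable {G : Type u} [Group G] [Finite G] (p s : ℕ)

/-- tuples of subgroups of `H` indexed by `I`, decreasing in the index, of prescribed orders -/
noncomputable def tup (I : Finset ℕ) (H : Subgroup G) : Finset (I → Subgroup G) :=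
  Finset.univ.filter (fun U => (∀ c, Nat.card (U c) = p ^ (s - c.1)) ∧
    (∀ c c', c.1 < c'.1 → U c' ≤ U c) ∧ ∀ c, U c ≤ H)

theorem mem_tup {I : Finset ℕ} {H : Subgroup G} {U : I → Subgroup G} : U ∈ tup p s I H ↔
    (∀ c, Nat.card (U c) = p ^ (s - c.1)) ∧
    (∀ c c', c.1 < c'.1 → U c' ≤ U c) ∧ ∀ c, U c ≤ H := by
  unfold tup
  simp

theorem card_tup_empty (H : Subgroup G) : #(tup p s ∅ H) = 1 := by
  have h1 : tup p s ∅ H = Finset.univ := by
    ext U
    rw [mem_tup]
    simp only [Finset.mem_univ, iff_true]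
    refine ⟨fun c => ?_, fun c => ?_, fun c => ?_⟩
    · exact absurd c.2 (Finset.notMem_empty _)
    · exact absurd c.2 (Finset.notMem_empty _)
    · exact absurd c.2 (Finset.notMem_empty _)
  rw [h1, Finset.card_univ]
  simp

theorem card_tup_insert {I : Finset ℕ} {c0 : ℕ} (hc0 : ∀ c ∈ I, c0 < c) (H : Subgroup G) :
    #(tup p s (insert c0 I) H) =
      ∑ U0 ∈ Finset.univ.filter (fun U0 : Subgroup G => U0 ≤ H ∧ Nat.card U0 = p ^ (s - c0)),
        #(tup p s I U0) := by
  have hnot : c0 ∉ I := fun h => lt_irrefl _ (hc0 c0 h)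
  set z : ↥(insert c0 I) := ⟨c0, Finset.mem_insert_self c0 I⟩ with hz
  have hmap : ∀ U ∈ tup p s (insert c0 I) H, U z ∈
      Finset.univ.filter (fun U0 : Subgroup G => U0 ≤ H ∧ Nat.card U0 = p ^ (s - c0)) := by
    intro U hU
    rw [mem_tup] at hU
    simp only [Finset.mem_filter, Finset.mem_univ, true_and]
    exact ⟨hU.2.2 z, hU.1 z⟩
  rw [Finset.card_eq_sum_card_fiberwise hmap]
  apply Finset.sum_congr rfl
  intro U0 hU0
  simp only [Finset.mem_filter, Finset.mem_univ, true_and] at hU0
  apply Finset.card_nbij' (fun U (c : I) => U ⟨c.1, Finset.mem_insert_of_mem c.2⟩)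
    (fun V (c : ↥(insert c0 I)) => if h : c.1 ∈ I then V ⟨c.1, h⟩ else U0)
  · intro U hU
    rw [Finset.mem_coe, Finset.mem_filter, mem_tup] at hU
    rw [Finset.mem_coe, mem_tup]
    obtain ⟨⟨h1, h2, h3⟩, h4⟩ := hU
    refine ⟨fun c => h1 _, fun c c' hcc => h2 _ _ hcc, fun c => ?_⟩
    rw [← h4]
    exact h2 z _ (hc0 c.1 c.2)
  · intro V hV
    rw [Finset.mem_coe, mem_tup] at hV
    rw [Finset.mem_coe, Finset.mem_filter, mem_tup]
    obtain ⟨h1, h2, h3⟩ := hV
    have hcases : ∀ c : ↥(insert c0 I), c.1 ∉ I → c.1 = c0 := by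
      intro c hc
      exact (Finset.mem_insert.1 c.2).resolve_right hc
    refine ⟨⟨fun c => ?_, fun c c' hcc => ?_, fun c => ?_⟩, ?_⟩
    · by_cases hc : c.1 ∈ I
      · simp only [hc, dif_pos]
        exact h1 ⟨c.1, hc⟩
      · simp only [hc, dif_neg, not_false_iff]
        rw [hcases c hc]
        exact hU0.2
    · by_cases hc' : c'.1 ∈ I
      · by_cases hc : c.1 ∈ I
        · simp only [hc, hc', dif_pos]
          exact h2 ⟨c.1, hc⟩ ⟨c'.1, hc'⟩ hcc
        · simp only [hc, hc', dif_pos, dif_neg, not_false_iff]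
          exact h3 _
      · exfalso
        have e1 := hcases c' hc'
        rcases Finset.mem_insert.1 c.2 with e2 | e2
        · omega
        · have := hc0 _ e2
          omega
    · by_cases hc : c.1 ∈ I
      · simp only [hc, dif_pos]
        exact (h3 _).trans hU0.1
      · simp only [hc, dif_neg, not_false_iff]
        exact hU0.1
    · simp only [hz, hnot, dif_neg, not_false_iff]
  · intro U hU
    rw [Finset.mem_coe, Finset.mem_filter, mem_tup] at hU
    funext c
    by_cases hc : c.1 ∈ I
    · simp only [hc, dif_pos]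
    · have e1 : c.1 = c0 := (Finset.mem_insert.1 c.2).resolve_right hc
      simp only [hc, dif_neg, not_false_iff]
      rw [← hU.2]
      congr 1
      exact Subtype.ext e1.symm
  · intro V hV
    funext c
    simp only [c.2, dif_pos]

/-- the alternating sum over all index sets. -/
noncomputable def T (J : Finset ℕ) (H : Subgroup G) : ℤ :=
  ∑ I ∈ J.powerset, (-1 : ℤ) ^ #I * (#(tup p s I H) : ℤ)

theorem T_empty (H : Subgroup G) : T p s ∅ H = 1 := by
  unfold T
  rw [Finset.powerset_empty, Finset.sum_singleton, card_tup_empty]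
  simp

theorem T_insert {J : Finset ℕ} {c0 : ℕ} (hc0 : ∀ c ∈ J, c0 < c) (H : Subgroup G) :
    T p s (insert c0 J) H = T p s J H -
      ∑ U ∈ Finset.univ.filter (fun U : Subgroup G => U ≤ H ∧ Nat.card U = p ^ (s - c0)),
        T p s J U := by
  have hnot : c0 ∉ J := fun h => lt_irrefl _ (hc0 c0 h)
  unfold T
  rw [Finset.sum_powerset_insert hnot, sub_eq_add_neg]
  congr 1
  rw [Finset.sum_comm, ← Finset.sum_neg_distrib]
  apply Finset.sum_congr rfl
  intro I hI
  have hIJ := Finset.mem_powerset.1 hI
  rw [Finset.card_insert_of_notMem (fun h => hnot (hIJ h)),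
    card_tup_insert p s (fun c hc => hc0 c (hIJ hc)) H]
  push_cast
  rw [← Finset.mul_sum]
  ring

/-- the coefficient function attached to `J`. -/
noncomputable def aJ (J : Finset ℕ) (U : Subgroup G) : ℤ :=
  ∑ c ∈ J, if Nat.card U = p ^ (s - c) then T p s (J.filter (fun c' => c < c')) U else 0

theorem T_eq (J : Finset ℕ) : ∀ H : Subgroup G,
    T p s J H = 1 - ∑ U ∈ Finset.univ.filter (fun U => U ≤ H), aJ p s J U := by
  induction J using Finset.induction_on_min with
  | empty =>
    intro H
    rw [T_empty]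
    simp [aJ]
  | insert c0 J hc0 ih =>
    intro H
    have hnot : c0 ∉ J := fun h => lt_irrefl _ (hc0 c0 h)
    rw [T_insert p s hc0 H, ih H]
    have h1 : ∀ U : Subgroup G, aJ p s (insert c0 J) U =
        (if Nat.card U = p ^ (s - c0) then T p s J U else 0) + aJ p s J U := by
      intro U
      unfold aJ
      rw [Finset.sum_insert hnot]
      have h2 : (insert c0 J).filter (fun c' => c0 < c') = J := by
        ext c
        simp only [Finset.mem_filter, Finset.mem_insert]
        constructor
        · rintro ⟨rfl | h, h'⟩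
          · exact absurd h' (lt_irrefl _)
          · exact h
        · intro h
          exact ⟨Or.inr h, hc0 c h⟩
      rw [h2]
      congr 1
      apply Finset.sum_congr rfl
      intro c hc
      have h3 : (insert c0 J).filter (fun c' => c < c') = J.filter (fun c' => c < c') := by
        ext c'
        simp only [Finset.mem_filter, Finset.mem_insert]
        constructor
        · rintro ⟨rfl | h, h'⟩
          · exact absurd (h'.trans (hc0 c hc)) (lt_irrefl _)
          · exact ⟨h, h'⟩
        · rintro ⟨h, h'⟩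
          exact ⟨Or.inr h, h'⟩
      rw [h3]
    rw [Finset.sum_congr rfl (fun U _ => h1 U), Finset.sum_add_distrib, ← Finset.sum_filter,
      Finset.filter_filter]
    ring

theorem T_eq_FF (J : Finset ℕ) (H : Subgroup G) : T p s J H = FF (aJ p s J) H := T_eq p s J H

theorem rec_aJ [hp : Fact p.Prime] {J : Finset ℕ} (hJ : ∀ c ∈ J, c ≤ s) :
    Rec p (J.image (fun c => s - c)) (aJ p s J : Subgroup G → ℤ) := by
  intro H
  by_cases hH : ∃ d ∈ J.image (fun c => s - c), Nat.card H = p ^ d
  · rw [if_pos hH]
    obtain ⟨d, hd, hc⟩ := hH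
    obtain ⟨c, hcJ, rfl⟩ := Finset.mem_image.1 hd
    have h1 : aJ p s J H = T p s (J.filter (fun c' => c < c')) H := by
      unfold aJ
      rw [Finset.sum_eq_single_of_mem c hcJ, if_pos hc]
      intro c' hc' hne
      rw [if_neg]
      intro h2
      rw [hc] at h2
      have h3 := Nat.pow_right_injective hp.out.two_le h2
      have := hJ c hcJ
      have := hJ c' hc'
      omega
    rw [h1, T_eq, sum_le_eq]
    have h4 : aJ p s (J.filter (fun c' => c < c')) H = 0 := by
      unfold aJ
      apply Finset.sum_eq_zero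
      intro c' hc'
      rw [Finset.mem_filter] at hc'
      rw [if_neg]
      intro h2
      rw [hc] at h2
      have h3 := Nat.pow_right_injective hp.out.two_le h2
      have := hJ c hcJ
      have := hJ c' hc'.1
      omega
    rw [h4, zero_add]
    congr 1
    apply Finset.sum_congr rfl
    intro U hU
    simp only [Finset.mem_filter, Finset.mem_univ, true_and] at hU
    have hlt : Nat.card U < p ^ (s - c) := by
      rw [← hc]
      exact Set.Finite.card_lt_card (Set.toFinite _) hU
    unfold aJ
    rw [← Finset.sum_filter_add_sum_filter_not J (fun c' => c < c')]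
    have h5 : ∑ c' ∈ J.filter (fun c' => ¬ c < c'),
        (if Nat.card U = p ^ (s - c') then T p s (J.filter (fun c'' => c' < c'')) U else 0) = 0 := by
      apply Finset.sum_eq_zero
      intro c' hc'
      rw [Finset.mem_filter] at hc'
      rw [if_neg]
      intro h2
      rw [h2] at hlt
      have h3 := (Nat.pow_lt_pow_iff_right hp.out.one_lt).1 hlt
      omega
    rw [h5, add_zero]
    apply Finset.sum_congr rfl
    intro c' hc'
    have h6 : (J.filter (fun c' => c < c')).filter (fun c'' => c' < c'') =
        J.filter (fun c'' => c' < c'') := by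
      ext c''
      simp only [Finset.mem_filter]
      rw [Finset.mem_filter] at hc'
      constructor
      · rintro ⟨⟨h7, h8⟩, h9⟩
        exact ⟨h7, h9⟩
      · rintro ⟨h7, h9⟩
        exact ⟨⟨h7, hc'.2.trans h9⟩, h9⟩
    rw [h6]
  · rw [if_neg hH]
    unfold aJ
    apply Finset.sum_eq_zero
    intro c hc
    rw [if_neg]
    intro h
    exact hH ⟨s - c, Finset.mem_image.2 ⟨c, hc, rfl⟩, h⟩

theorem T_dvd [hp : Fact p.Prime] {J : Finset ℕ} (hs : s ≤ (Nat.card G).factorization p)
    (hJ : ∀ c ∈ J, c ≤ s) : (p : ℤ) ^ #J ∣ T p s J (⊤ : Subgroup G) := by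
  rw [T_eq_FF]
  have h1 : #(J.image (fun c => s - c)) = #J := by
    apply Finset.card_image_of_injOn
    intro c hc c' hc' h
    have := hJ c hc
    have := hJ c' hc'
    simp only at h
    omega
  rw [← h1]
  apply main_dvd (rec_aJ p s hJ)
  intro d hd
  obtain ⟨c, hc, rfl⟩ := Finset.mem_image.1 hd
  omega

end count

end Pool.Agent.Q18.Ch
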