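import Mathlib

namespace Q18

open Module

theorem exists_common_eigenvector_aux {K V ι : Type*} [Field K] [IsAlgClosed K] [AddCommGroup V]
    [Module K V] [FiniteDimensional K V] (f : ι → Module.End K V)
    (hc : ∀ i j, Commute (f i) (f j)) :
    ∀ n : ℕ, ∀ W : Submodule K V, finrank K W = n → W ≠ ⊥ → (∀ i, ∀ w ∈ W, f i w ∈ W) →
      ∃ v ∈ W, v ≠ 0 ∧ ∀ i, ∃ μ : K, f i v = μ • v := by
  intro n
  induction n using Nat.strong_induction_on with
  | _ n ih =>
    intro W hW hne hinv
    by_cases h : ∀ i, ∃ μ : K, ∀ w ∈ W, f i w = μ • w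
    · obtain ⟨v, hvW, hv0⟩ := Submodule.exists_mem_ne_zero_of_ne_bot hne
      exact ⟨v, hvW, hv0, fun i => by obtain ⟨μ, hμ⟩ := h i; exact ⟨μ, hμ v hvW⟩⟩
    · push Not at h
      obtain ⟨i, hi⟩ := h
      have : Nontrivial W := (Submodule.nontrivial_iff_ne_bot).mpr hne
      obtain ⟨μ, hμ⟩ := Module.End.exists_eigenvalue ((f i).restrict (hinv i))
      obtain ⟨w, hw⟩ := hμ.exists_hasEigenvector
      have hw1 : f i (w : V) = μ • (w : V) := by
        have := congrArg Subtype.val hw.apply_eq_smul
        simpa using this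
      have hw0 : (w : V) ≠ 0 := by
        intro h0
        exact hw.2 (Subtype.ext h0)
      let W' : Submodule K V := W ⊓ LinearMap.ker (f i - μ • (1 : Module.End K V))
      have hmem : ∀ v, v ∈ W' ↔ v ∈ W ∧ f i v = μ • v := by
        intro v
        simp [W', sub_eq_zero]
      have hle : W' ≤ W := inf_le_left
      have hlt : W' < W := by
        refine lt_of_le_of_ne hle ?_
        intro heq
        obtain ⟨u, hu, hu'⟩ := hi μ
        apply hu'
        rw [← heq] at hu
        exact ((hmem u).1 hu).2
      have hne' : W' ≠ ⊥ := by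
        intro h0
        have : (w : V) ∈ W' := (hmem _).2 ⟨w.2, hw1⟩
        rw [h0] at this
        exact hw0 (by simpa using this)
      have hinv' : ∀ j, ∀ v ∈ W', f j v ∈ W' := by
        intro j v hv
        obtain ⟨h1, h2⟩ := (hmem v).1 hv
        refine (hmem _).2 ⟨hinv j v h1, ?_⟩
        have hcomm := congrArg (fun g : Module.End K V => g v) (hc i j).eq
        simp only [Module.End.mul_apply] at hcomm
        rw [hcomm, h2, map_smul]
      obtain ⟨v, hv, hv0, hvf⟩ := ih (finrank K W')
        (by rw [← hW]; exact Submodule.finrank_lt_finrank_of_lt hlt) W' rfl hne' hinv'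
      exact ⟨v, hle hv, hv0, hvf⟩

/-- A commuting family of endomorphisms of a nonzero finite-dimensional vector space over an
algebraically closed field has a common eigenvector. -/
theorem exists_common_eigenvector {K V ι : Type*} [Field K] [IsAlgClosed K] [AddCommGroup V]
    [Module K V] [FiniteDimensional K V] [Nontrivial V] (f : ι → Module.End K V)
    (hc : ∀ i j, Commute (f i) (f j)) :
    ∃ v : V, v ≠ 0 ∧ ∀ i, ∃ μ : K, f i v = μ • v := by
  obtain ⟨v, _, hv0, hv⟩ := exists_common_eigenvector_aux f hc _ ⊤ rfl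
    (by exact top_ne_bot) (fun _ _ _ => trivial)
  exact ⟨v, hv0, hv⟩

end Q18
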