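import Mathlib
import Pool.Agent.Q18.Eig

namespace Q18

open Module Representation

variable {G V : Type*} [Group G] [AddCommGroup V] [Module ℂ V] [FiniteDimensional ℂ V]

theorem nontrivial_of_irreducible (ρ : Representation ℂ G V) (hρ : ρ.IsIrreducible) :
    Nontrivial V := by
  by_contra hV
  rw [not_nontrivial_iff_subsingleton] at hV
  obtain ⟨⟨a, b, hab⟩⟩ := hρ.toNontrivial
  apply hab
  apply Subrepresentation.toSubmodule_injective
  exact Subsingleton.elim _ _

/-- Schur's lemma. -/
theorem schur (ρ : Representation ℂ G V) (hρ : ρ.IsIrreducible) (S : V →ₗ[ℂ] V)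
    (hS : ∀ g v, S (ρ g v) = ρ g (S v)) : ∃ c : ℂ, ∀ v, S v = c • v := by
  obtain ⟨c, hc⟩ := (IsIrreducible.algebraMap_intertwiningMap_bijective_of_isAlgClosed
    (ρ := ρ)).2 (S.intertwiningMap_of_isIntertwiningMap ρ ρ hS)
  refine ⟨c, fun v => ?_⟩
  have := congrArg (fun f : IntertwiningMap ρ ρ => f v) hc
  simp only [LinearMap.toIntertwiningMap] at this
  rw [← this]
  rfl

/-- If an irreducible character vanishes at `g`, then the sum of all conjugates of `g` acts
as zero. -/
theorem sum_conj_eq_zero [Fintype G] (ρ : Representation ℂ G V) (hρ : ρ.IsIrreducible) (g : G)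
    (h : ρ.character g = 0) : ∑ t : G, ρ (t * g * t⁻¹) = 0 := by
  have hV : Nontrivial V := nontrivial_of_irreducible ρ hρ
  set S : V →ₗ[ℂ] V := ∑ t : G, ρ (t * g * t⁻¹) with hSdef
  have hcomm : ∀ s : G, S * ρ s = ρ s * S := by
    intro s
    rw [hSdef, Finset.sum_mul, Finset.mul_sum]
    rw [← Equiv.sum_comp (Equiv.mulLeft s)]
    refine Finset.sum_congr rfl fun t _ => ?_
    rw [← map_mul, ← map_mul]
    congr 1
    simp only [Equiv.coe_mulLeft]
    group
  obtain ⟨c, hc⟩ := schur ρ hρ S (fun s v => by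
    have := congrArg (fun f : V →ₗ[ℂ] V => f v) (hcomm s)
    simpa using this)
  have hS' : S = c • LinearMap.id := by
    ext v; simpa using hc v
  have htr : LinearMap.trace ℂ V S = 0 := by
    rw [hSdef, map_sum]
    refine Finset.sum_eq_zero fun t _ => ?_
    have := Representation.char_conj ρ g t
    rw [h] at this
    exact this
  rw [hS'] at htr
  rw [map_smul, LinearMap.trace_id, smul_eq_mul] at htr
  have hn : (finrank ℂ V : ℂ) ≠ 0 := by
    exact_mod_cast (finrank_pos (R := ℂ) (M := V)).ne'
  have hc0 : c = 0 := by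
    rcases mul_eq_zero.1 htr with h | h
    · exact h
    · exact absurd h hn
  rw [hS', hc0, zero_smul]

end Q18
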