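import Mathlib
import Pool.Agent.Q18.Schur

namespace Q18

open Module Representation

/-- An algebraic integer among the eigenvalues. -/
theorem root_isIntegral {m : Type*} [Fintype m] [DecidableEq m] {M : Matrix m m ℂ}
    (hM : IsIntegral ℤ M) {ν : ℂ} (hν : ν ∈ M.charpoly.roots) : IsIntegral ℤ ν := by
  obtain ⟨P, hP, hPM⟩ := hM
  have h1 : ν ∈ spectrum ℂ M :=
    Matrix.mem_spectrum_iff_isRoot_charpoly.2 (Polynomial.isRoot_of_mem_roots hν)
  have h2 : (P.map (algebraMap ℤ ℂ)).eval ν ∈
      spectrum ℂ (Polynomial.aeval M (P.map (algebraMap ℤ ℂ))) :=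
    spectrum.subset_polynomial_aeval M _ ⟨ν, h1, rfl⟩
  have h3 : Polynomial.aeval M (P.map (algebraMap ℤ ℂ)) = 0 := by
    rw [Polynomial.aeval_map_algebraMap]
    exact hPM
  rw [h3] at h2
  have : Nontrivial (Matrix m m ℂ) := by
    by_contra hc
    rw [not_nontrivial_iff_subsingleton] at hc
    rw [spectrum.of_subsingleton] at h1
    exact h1
  rw [spectrum.zero_eq] at h2
  refine ⟨P, hP, ?_⟩
  rw [← Polynomial.eval_map]
  exact h2

theorem trace_isIntegral {m : Type*} [Fintype m] [DecidableEq m] {M : Matrix m m ℂ}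
    (hM : IsIntegral ℤ M) : IsIntegral ℤ M.trace := by
  rw [Matrix.trace_eq_sum_roots_charpoly]
  exact IsIntegral.multiset_sum (fun ν hν => root_isIntegral hM hν)

/-- Character values of a finite group are algebraic integers. -/
theorem character_isIntegral {G V : Type*} [Group G] [Finite G] [AddCommGroup V] [Module ℂ V]
    [FiniteDimensional ℂ V] (ρ : Representation ℂ G V) (g : G) :
    IsIntegral ℤ (ρ.character g) := by
  classical
  let b := Module.finBasis ℂ V
  change IsIntegral ℤ (LinearMap.trace ℂ V (ρ g))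
  rw [LinearMap.trace_eq_matrix_trace ℂ b]
  apply trace_isIntegral
  have h1 : (LinearMap.toMatrix b b (ρ g)) ^ (Nat.card G) = 1 := by
    have h2 : LinearMap.toMatrix b b (ρ g) = LinearMap.toMatrixAlgEquiv b (ρ g) := rfl
    rw [h2, ← map_pow, ← map_pow, pow_card_eq_one', map_one, map_one]
  refine ⟨Polynomial.X ^ (Nat.card G) - 1,
    Polynomial.monic_X_pow_sub_C (1 : ℤ) Nat.card_pos.ne', ?_⟩
  simp [h1]

/-- A rational number which is an algebraic integer is an integer. -/
theorem exists_int_of_isIntegral {q : ℚ} (h : IsIntegral ℤ (q : ℂ)) : ∃ n : ℤ, q = n := by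
  have h1 : IsIntegral ℤ (algebraMap ℚ ℂ q) := by simpa using h
  rw [isIntegral_algebraMap_iff (algebraMap ℚ ℂ).injective] at h1
  obtain ⟨n, hn⟩ := (IsIntegrallyClosed.isIntegral_iff).1 h1
  exact ⟨n, by simpa using hn.symm⟩

end Q18
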