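import Mathlib

/-!
# Right ideals of group algebras of free groups: words, half trees, connected sets

The paper proof of the main theorem is due to another seat of the team (helper11).
-/

namespace Pool.Agent.Q18.FIR

open Relation

set_option linter.unusedSectionVars false

variable {B : Type*} [DecidableEq B]

/-- the inverse letter -/
def il (c : B × Bool) : B × Bool := (c.1, !c.2)

theorem il_il (c : B × Bool) : il (il c) = c := by
  obtain ⟨a, b⟩ := c
  simp [il]

theorem il_ne (c : B × Bool) : il c ≠ c := by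
  obtain ⟨a, b⟩ := c
  cases b <;> simp [il]

/-- the letter as an element of the free group -/
def lt (c : B × Bool) : FreeGroup B := FreeGroup.mk [c]

theorem lt_il (c : B × Bool) : lt (il c) = (lt c)⁻¹ := by
  unfold lt il
  rw [FreeGroup.inv_mk]
  simp [FreeGroup.invRev]

theorem toWord_lt (c : B × Bool) : (lt c).toWord = [c] := by
  unfold lt
  rw [FreeGroup.toWord_mk, FreeGroup.reduce_singleton]

theorem lt_ne_one (c : B × Bool) : lt c ≠ 1 := by
  intro hc
  have := toWord_lt c
  rw [hc, FreeGroup.toWord_one] at this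
  simp at this

/-- last letter of the reduced word -/
def lastL (w : FreeGroup B) : Option (B × Bool) := w.toWord.getLast?

/-- length of the reduced word -/
def len (w : FreeGroup B) : ℕ := w.toWord.length

theorem lastL_lt (c : B × Bool) : lastL (lt c) = some c := by
  unfold lastL
  rw [toWord_lt]
  rfl

theorem lastL_one : lastL (1 : FreeGroup B) = none := by
  unfold lastL
  rw [FreeGroup.toWord_one]
  rfl

theorem lastL_eq_none {w : FreeGroup B} : lastL w = none ↔ w = 1 := by
  unfold lastL
  rw [List.getLast?_eq_none_iff, FreeGroup.toWord_eq_nil_iff]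

theorem toWord_lt_mul (c : B × Bool) (w : FreeGroup B) :
    (w.toWord.head? = some (il c) ∧ (lt c * w).toWord = w.toWord.tail) ∨
      (w.toWord.head? ≠ some (il c) ∧ (lt c * w).toWord = c :: w.toWord) := by
  have h1 : (lt c * w).toWord = FreeGroup.reduce (c :: w.toWord) := by
    rw [FreeGroup.toWord_mul, toWord_lt]
    rfl
  rw [h1, FreeGroup.reduce.cons, FreeGroup.reduce_toWord]
  cases hw : w.toWord with
  | nil => right; simp
  | cons a L =>
    by_cases hc : c.1 = a.1 ∧ c.2 = !a.2
    · left
      refine ⟨?_, ?_⟩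
      · obtain ⟨h2, h3⟩ := hc
        simp only [List.head?_cons, il, Option.some.injEq]
        apply Prod.ext
        · exact h2.symm
        · simp [h3]
      · simp [hc]
    · right
      refine ⟨?_, ?_⟩
      · simp only [List.head?_cons, il, ne_eq, Option.some.injEq]
        rintro rfl
        apply hc
        simp
      · simp only [hc, if_false]

/-- **Fact 0** -/
theorem lastL_lt_mul {c : B × Bool} {w : FreeGroup B} (h1 : w ≠ 1) (h2 : w ≠ lt (il c)) :
    lastL (lt c * w) = lastL w := by
  unfold lastL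
  rcases toWord_lt_mul c w with ⟨h3, h4⟩ | ⟨h3, h4⟩
  · rw [h4]
    cases hw : w.toWord with
    | nil => rw [hw] at h3; simp at h3
    | cons a L =>
      rw [hw] at h3
      simp only [List.head?_cons, Option.some.injEq] at h3
      cases L with
      | nil =>
        exfalso
        apply h2
        apply FreeGroup.toWord_injective
        rw [hw, toWord_lt, h3]
      | cons b L => simp
  · rw [h4]
    cases hw : w.toWord with
    | nil => exact absurd (FreeGroup.toWord_eq_nil_iff.1 hw) h1
    | cons b L => simp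

/-- no cancellation -/
theorem len_mul {c : B × Bool} {w h : FreeGroup B} (hw : lastL w = some c)
    (hh : h.toWord.head? ≠ some (il c)) : len (w * h) = len w + len h := by
  unfold len
  have h1 : (w * h).toWord = w.toWord ++ h.toWord := by
    rw [FreeGroup.toWord_mul]
    apply FreeGroup.IsReduced.reduce_eq
    unfold FreeGroup.IsReduced
    rw [List.isChain_append]
    refine ⟨FreeGroup.isReduced_toWord, FreeGroup.isReduced_toWord, ?_⟩
    intro x hx y hy hxy
    unfold lastL at hw
    rw [hw] at hx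
    simp only [Option.mem_def, Option.some.injEq] at hx
    subst hx
    by_contra hne
    apply hh
    have : y = il c := by
      unfold il
      apply Prod.ext
      · exact hxy.symm
      · simp only
        revert hne
        cases c.2 <;> cases y.2 <;> simp
    rw [← this]
    exact hy
  rw [h1, List.length_append]

theorem eq_lt_of_len {c : B × Bool} {w : FreeGroup B} (hw : lastL w = some c)
    (hl : len w ≤ 1) : w = lt c := by
  apply FreeGroup.toWord_injective
  rw [toWord_lt]
  unfold lastL at hw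
  unfold len at hl
  cases hx : w.toWord with
  | nil => rw [hx] at hw; simp at hw
  | cons a L =>
    rw [hx] at hl hw
    cases L with
    | nil =>
      simp only [List.getLast?_singleton, Option.some.injEq] at hw
      rw [hw]
    | cons b L => simp at hl

theorem len_pos_of_last {c : B × Bool} {w : FreeGroup B} (hw : lastL w = some c) :
    0 < len w := by
  unfold lastL at hw
  unfold len
  rw [List.length_pos_iff]
  intro h0
  rw [h0] at hw
  simp at hw

/-! ### half trees -/

/-- the union of the half trees at `y` in the directions of `D` -/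
def SD (y : FreeGroup B) (D : Set (B × Bool)) (h : FreeGroup B) : Prop :=
  ∃ d ∈ D, lastL (h * y⁻¹) = some d

theorem sd_step {y g : FreeGroup B} {D : Set (B × Bool)} {c : B × Bool}
    (h1 : SD y D g) (h2 : ¬ SD y D (lt c * g)) : il c ∈ D ∧ g = lt (il c) * y := by
  obtain ⟨d, hd, hl⟩ := h1
  have hne : g * y⁻¹ ≠ 1 := by
    intro h0
    rw [h0, lastL_one] at hl
    simp at hl
  have heq : g * y⁻¹ = lt (il c) := by
    by_contra hne2
    apply h2
    refine ⟨d, hd, ?_⟩
    rw [mul_assoc, lastL_lt_mul hne hne2, hl]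
  rw [heq, lastL_lt, Option.some.injEq] at hl
  rw [hl]
  refine ⟨hd, ?_⟩
  rw [← hl, ← heq]
  group

/-- connected sets of vertices of the right Cayley graph -/
def Conn (T : Set (FreeGroup B)) : Prop :=
  ∀ s ∈ T, ∀ t ∈ T, ReflTransGen (fun a b => a ∈ T ∧ b ∈ T ∧ ∃ c, b = a * lt c) s t

theorem exists_step {α : Type*} {r : α → α → Prop} {a b : α} (h : ReflTransGen r a b)
    (P : α → Prop) (ha : P a) (hb : ¬ P b) : ∃ u v, r u v ∧ P u ∧ ¬ P v := by
  induction h with
  | refl => exact absurd ha hb
  | tail hab hbc ih =>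
    rename_i b' c'
    by_cases hPb : P b'
    · exact ⟨b', c', hbc, hPb, hb⟩
    · exact ih hPb

/-- **Exit lemma.** -/
theorem exit {T : Set (FreeGroup B)} (hT : Conn T) {x y t' t'' : FreeGroup B}
    {D : Set (B × Bool)} (h1 : t' ∈ T) (h2 : t'' ∈ T) (hS : SD y D (t'⁻¹ * x))
    (hS' : ¬ SD y D (t''⁻¹ * x)) :
    x * y⁻¹ ∈ T ∧ ∃ d ∈ D, x * y⁻¹ * (lt d)⁻¹ ∈ T := by
  obtain ⟨u, v, ⟨hu, hv, c, hc⟩, hPu, hPv⟩ :=
    exists_step (hT t' h1 t'' h2) (fun t => SD y D (t⁻¹ * x)) hS hS'
  have e1 : v⁻¹ * x = lt (il c) * (u⁻¹ * x) := by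
    rw [hc, lt_il]
    group
  simp only [e1] at hPv
  obtain ⟨hd, hg⟩ := sd_step hPu hPv
  rw [il_il] at hd hg
  have e2 : x * y⁻¹ = v := by
    have : x = u * (lt c * y) := by rw [← hg]; group
    rw [this, hc]
    group
  have e3 : x * y⁻¹ * (lt c)⁻¹ = u := by
    rw [e2, hc]
    group
  exact ⟨e2 ▸ hv, c, hd, e3 ▸ hu⟩

theorem conn_adj {T : Set (FreeGroup B)} {a b : FreeGroup B} (ha : a ∈ T) (hb : b ∈ T)
    {c : B × Bool} (hc : b = a * lt c) :
    ReflTransGen (fun a b => a ∈ T ∧ b ∈ T ∧ ∃ c, b = a * lt c) a b :=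
  ReflTransGen.single ⟨ha, hb, c, hc⟩

theorem mono_path {T T' : Set (FreeGroup B)} (hTT : T ⊆ T') {a b : FreeGroup B}
    (h : ReflTransGen (fun a b => a ∈ T ∧ b ∈ T ∧ ∃ c, b = a * lt c) a b) :
    ReflTransGen (fun a b => a ∈ T' ∧ b ∈ T' ∧ ∃ c, b = a * lt c) a b := by
  induction h with
  | refl => exact ReflTransGen.refl
  | tail hab hbc ih =>
    obtain ⟨h1, h2, h3⟩ := hbc
    exact ReflTransGen.tail ih ⟨hTT h1, hTT h2, h3⟩

theorem symm_path {T : Set (FreeGroup B)} {a b : FreeGroup B}
    (h : ReflTransGen (fun a b => a ∈ T ∧ b ∈ T ∧ ∃ c, b = a * lt c) a b) :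
    ReflTransGen (fun a b => a ∈ T ∧ b ∈ T ∧ ∃ c, b = a * lt c) b a := by
  induction h with
  | refl => exact ReflTransGen.refl
  | tail hab hbc ih =>
    refine ReflTransGen.head ?_ ih
    obtain ⟨h1, h2, c, hc⟩ := hbc
    refine ⟨h2, h1, il c, ?_⟩
    rw [hc, lt_il]
    group

theorem conn_union {T T' : Set (FreeGroup B)} (hT : Conn T) (hT' : Conn T')
    {t : FreeGroup B} (h1 : t ∈ T) (h2 : t ∈ T') : Conn (T ∪ T') := by
  have key : ∀ s ∈ T ∪ T', ReflTransGen
      (fun a b => a ∈ T ∪ T' ∧ b ∈ T ∪ T' ∧ ∃ c, b = a * lt c) t s := by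
    rintro s (hs | hs)
    · exact mono_path Set.subset_union_left (hT t h1 s hs)
    · exact mono_path Set.subset_union_right (hT' t h2 s hs)
  intro s hs s' hs'
  exact (symm_path (key s hs)).trans (key s' hs')

theorem conn_singleton (t : FreeGroup B) : Conn ({t} : Set (FreeGroup B)) := by
  rintro s rfl s' rfl
  exact ReflTransGen.refl

theorem conn_insert {T : Set (FreeGroup B)} (hT : Conn T) {t x : FreeGroup B} (ht : t ∈ T)
    {c : B × Bool} (hx : x = t * lt c) : Conn (insert x T) := by
  have key : ∀ s ∈ insert x T, ReflTransGen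
      (fun a b => a ∈ insert x T ∧ b ∈ insert x T ∧ ∃ c, b = a * lt c) t s := by
    rintro s (hs | hs)
    · rw [hs]
      exact conn_adj (Set.mem_insert_of_mem _ ht) (Set.mem_insert _ _) hx
    · exact mono_path (Set.subset_insert _ _) (hT t ht s hs)
  intro s hs s' hs'
  exact (symm_path (key s hs)).trans (key s' hs')

/-- finite connected sets through the ends of a path -/
theorem finite_path {T : Set (FreeGroup B)} {s t : FreeGroup B} (hs : s ∈ T)
    (h : ReflTransGen (fun a b => a ∈ T ∧ b ∈ T ∧ ∃ c, b = a * lt c) s t) :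
    ∃ C : Set (FreeGroup B), C.Finite ∧ Conn C ∧ C ⊆ T ∧ s ∈ C ∧ t ∈ C := by
  induction h with
  | refl =>
    exact ⟨{s}, Set.finite_singleton s, conn_singleton s, by simpa using hs, rfl, rfl⟩
  | tail hab hbc ih =>
    rename_i b c
    obtain ⟨C, h1, h2, h3, h4, h5⟩ := ih
    obtain ⟨hb, hc, d, hd⟩ := hbc
    refine ⟨insert c C, h1.insert c, conn_insert h2 h5 hd, ?_, Set.mem_insert_of_mem _ h4,
      Set.mem_insert _ _⟩
    rintro x (hx | hx)
    · rw [hx]; exact hc
    · exact h3 hx

/-- finite connected hulls -/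
theorem finite_hull {T : Set (FreeGroup B)} (hT : Conn T) {s : FreeGroup B} (hs : s ∈ T)
    (X : Finset (FreeGroup B)) (hX : ∀ x ∈ X, x ∈ T) :
    ∃ C : Set (FreeGroup B), C.Finite ∧ Conn C ∧ C ⊆ T ∧ s ∈ C ∧ ∀ x ∈ X, x ∈ C := by
  induction X using Finset.induction_on with
  | empty =>
    exact ⟨{s}, Set.finite_singleton s, conn_singleton s, by simpa using hs, rfl, by simp⟩
  | insert a X ha ih =>
    obtain ⟨C, h1, h2, h3, h4, h5⟩ := ih (fun x hx => hX x (Finset.mem_insert_of_mem hx))
    obtain ⟨C', h1', h2', h3', h4', h5'⟩ := finite_path hs (hT s hs a (hX a (Finset.mem_insert_self _ _)))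
    refine ⟨C ∪ C', h1.union h1', conn_union h2 h2' h4 h4', Set.union_subset h3 h3',
      Or.inl h4, ?_⟩
    intro x hx
    rw [Finset.mem_insert] at hx
    rcases hx with hx | hx
    · rw [hx]; exact Or.inr h5'
    · exact Or.inl (h5 x hx)

theorem conn_univ : Conn (Set.univ : Set (FreeGroup B)) := by
  have key : ∀ L : List (B × Bool), ∀ s : FreeGroup B, ReflTransGen
      (fun a b => a ∈ (Set.univ : Set (FreeGroup B)) ∧ b ∈ (Set.univ : Set (FreeGroup B)) ∧
        ∃ c, b = a * lt c) s (s * FreeGroup.mk L) := by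
    intro L
    induction L with
    | nil =>
      intro s
      have : s * FreeGroup.mk [] = s := by
        rw [← FreeGroup.one_eq_mk, mul_one]
      rw [this]
    | cons c L ih =>
      intro s
      have h1 : s * FreeGroup.mk (c :: L) = (s * lt c) * FreeGroup.mk L := by
        unfold lt
        rw [mul_assoc, FreeGroup.mul_mk]
        rfl
      rw [h1]
      exact (conn_adj (Set.mem_univ _) (Set.mem_univ _) rfl).trans (ih (s * lt c))
  intro s _ t _
  have := key (s⁻¹ * t).toWord s
  rw [FreeGroup.mk_toWord] at this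
  have h2 : s * (s⁻¹ * t) = t := by group
  rwa [h2] at this

end Pool.Agent.Q18.FIR
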