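import Pool.Agent.Q18.FIR1

/-!
# Partial sums over half trees
-/

namespace Pool.Agent.Q18.FIR

set_option linter.unusedSectionVars false

/-- the group algebra of the free group -/
abbrev AA (K B : Type*) [Field K] := MonoidAlgebra K (FreeGroup B)

variable {B : Type*} [DecidableEq B] {K : Type*} [Field K]

/-- the group elements -/
noncomputable def dl (g : FreeGroup B) : AA K B := MonoidAlgebra.single g 1

theorem dl_mul (g h : FreeGroup B) : (dl g : AA K B) * dl h = dl (g * h) := by
  unfold dl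
  rw [MonoidAlgebra.single_mul_single, one_mul]

theorem dl_one : (dl 1 : AA K B) = 1 := rfl

theorem coeff_mul_dl (a : AA K B) (g x : FreeGroup B) :
    (a * dl g).coeff x = a.coeff (x * g⁻¹) := by
  unfold dl
  rw [MonoidAlgebra.coeff_mul_single_apply, mul_one]

theorem coeff_dl_mul (a : AA K B) (g x : FreeGroup B) :
    (dl g * a).coeff x = a.coeff (g⁻¹ * x) := by
  unfold dl
  rw [MonoidAlgebra.coeff_single_mul_apply, one_mul]

/-! ### right ideals -/

theorem mul_mem_r (I : Submodule (AA K B)ᵐᵒᵖ (AA K B)) {a : AA K B} (ha : a ∈ I)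
    (b : AA K B) : a * b ∈ I := by
  have := I.smul_mem (MulOpposite.op b) ha
  simpa using this

theorem smul_mem_r (I : Submodule (AA K B)ᵐᵒᵖ (AA K B)) {a : AA K B} (ha : a ∈ I)
    (k : K) : k • a ∈ I := by
  have h1 : k • a = a * MonoidAlgebra.single 1 k := by
    have : (MonoidAlgebra.single 1 k : AA K B) = k • 1 := by
      rw [MonoidAlgebra.one_def, MonoidAlgebra.smul_single, smul_eq_mul, mul_one]
    rw [this, mul_smul_comm, mul_one]
  rw [h1]
  exact mul_mem_r I ha _

/-- the elements of `I` supported on `T` -/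
def IT (I : Submodule (AA K B)ᵐᵒᵖ (AA K B)) (T : Set (FreeGroup B)) : Submodule K (AA K B) where
  carrier := {a | a ∈ I ∧ ∀ x, a.coeff x ≠ 0 → x ∈ T}
  add_mem' := by
    rintro a b ⟨ha, ha'⟩ ⟨hb, hb'⟩
    refine ⟨I.add_mem ha hb, fun x hx => ?_⟩
    by_contra hxT
    have h1 : a.coeff x = 0 := by
      by_contra h
      exact hxT (ha' x h)
    have h2 : b.coeff x = 0 := by
      by_contra h
      exact hxT (hb' x h)
    apply hx
    rw [MonoidAlgebra.coeff_add, Finsupp.add_apply, h1, h2, add_zero]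
  zero_mem' := by
    refine ⟨I.zero_mem, fun x hx => ?_⟩
    simp at hx
  smul_mem' := by
    rintro k a ⟨ha, ha'⟩
    refine ⟨smul_mem_r I ha k, fun x hx => ?_⟩
    apply ha' x
    intro h
    apply hx
    rw [MonoidAlgebra.coeff_smul, Finsupp.smul_apply, h, smul_zero]

theorem mem_IT {I : Submodule (AA K B)ᵐᵒᵖ (AA K B)} {T : Set (FreeGroup B)} {a : AA K B} :
    a ∈ IT I T ↔ a ∈ I ∧ ∀ x, a.coeff x ≠ 0 → x ∈ T := Iff.rfl

theorem IT_mono {I : Submodule (AA K B)ᵐᵒᵖ (AA K B)} {T T' : Set (FreeGroup B)} (h : T ⊆ T') :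
    IT I T ≤ IT I T' := fun _ ha => ⟨ha.1, fun x hx => h (ha.2 x hx)⟩

/-! ### partial sums -/

open Classical in
/-- the sum of `r_h h` over all `h` with `p h` -/
noncomputable def Phi (p : FreeGroup B → Prop) :
    (FreeGroup B →₀ AA K B) →+ AA K B :=
  Finsupp.liftAddHom (fun h => if p h then AddMonoidHom.mulRight (dl h) else 0)

theorem Phi_single_pos {p : FreeGroup B → Prop} {h : FreeGroup B} (hp : p h) (a : AA K B) :
    Phi p (Finsupp.single h a) = a * dl h := by
  unfold Phi
  rw [Finsupp.liftAddHom_apply_single, if_pos hp]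
  rfl

theorem Phi_single_neg {p : FreeGroup B → Prop} {h : FreeGroup B} (hp : ¬ p h) (a : AA K B) :
    Phi p (Finsupp.single h a) = 0 := by
  unfold Phi
  rw [Finsupp.liftAddHom_apply_single, if_neg hp]
  rfl

theorem Phi_eq_sum (p : FreeGroup B → Prop) (r : FreeGroup B →₀ AA K B) :
    Phi p r = ∑ h ∈ r.support, Phi p (Finsupp.single h (r h)) := by
  conv_lhs => rw [← Finsupp.sum_single r]
  unfold Finsupp.sum
  rw [map_sum]

theorem Phi_mem {I : Submodule (AA K B)ᵐᵒᵖ (AA K B)} (p : FreeGroup B → Prop)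
    {r : FreeGroup B →₀ AA K B} (hr : ∀ h, r h ∈ I) : Phi p r ∈ I := by
  rw [Phi_eq_sum]
  apply Submodule.sum_mem
  intro h _
  by_cases hp : p h
  · rw [Phi_single_pos hp]
    exact mul_mem_r I (hr h) _
  · rw [Phi_single_neg hp]
    exact I.zero_mem

theorem Phi_split (p : FreeGroup B → Prop) (r : FreeGroup B →₀ AA K B) :
    Phi (fun _ => True) r = Phi p r + Phi (fun h => ¬ p h) r := by
  rw [Phi_eq_sum, Phi_eq_sum p, Phi_eq_sum (fun h => ¬ p h), ← Finset.sum_add_distrib]
  apply Finset.sum_congr rfl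
  intro h _
  rw [Phi_single_pos trivial]
  by_cases hp : p h
  · rw [Phi_single_pos hp, Phi_single_neg (by simpa using hp), add_zero]
  · rw [Phi_single_neg hp, Phi_single_pos (p := fun h => ¬ p h) hp, zero_add]

theorem Phi_coeff_ne {p : FreeGroup B → Prop} {r : FreeGroup B →₀ AA K B} {x : FreeGroup B}
    (hx : (Phi p r).coeff x ≠ 0) : ∃ h, p h ∧ (r h).coeff (x * h⁻¹) ≠ 0 := by
  rw [Phi_eq_sum, MonoidAlgebra.coeff_sum, Finsupp.finsetSum_apply] at hx
  obtain ⟨h, -, hh⟩ := Finset.exists_ne_zero_of_sum_ne_zero hx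
  by_cases hp : p h
  · rw [Phi_single_pos hp, coeff_mul_dl] at hh
    exact ⟨h, hp, hh⟩
  · rw [Phi_single_neg hp] at hh
    simp at hh

/-- **Lemma L1.** -/
theorem L1 {I : Submodule (AA K B)ᵐᵒᵖ (AA K B)} {T : Set (FreeGroup B)} (hT : Conn T)
    {r : FreeGroup B →₀ AA K B} (hr : ∀ h, r h ∈ IT I T) (h0 : Phi (fun _ => True) r = 0)
    (y : FreeGroup B) (D : Set (B × Bool)) :
    Phi (SD y D) r * dl y⁻¹ ∈ I ∧ ∀ v, (Phi (SD y D) r * dl y⁻¹).coeff v ≠ 0 →
      v ∈ T ∧ ∃ d ∈ D, v * (lt d)⁻¹ ∈ T := by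
  refine ⟨mul_mem_r I (Phi_mem _ (fun h => (hr h).1)) _, ?_⟩
  intro v hv
  rw [coeff_mul_dl, inv_inv] at hv
  obtain ⟨h', hS, hh'⟩ := Phi_coeff_ne hv
  have h1 : (Phi (fun h => ¬ SD y D h) r).coeff (v * y) ≠ 0 := by
    have h2 := Phi_split (SD y D) r
    rw [h0] at h2
    have h3 : (Phi (SD y D) r).coeff (v * y) + (Phi (fun h => ¬ SD y D h) r).coeff (v * y) = 0 := by
      rw [← Finsupp.add_apply, ← MonoidAlgebra.coeff_add, ← h2]
      simp
    intro h4
    rw [h4, add_zero] at h3
    exact hv h3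
  obtain ⟨h'', hS', hh''⟩ := Phi_coeff_ne h1
  have e1 : (v * y * h'⁻¹)⁻¹ * (v * y) = h' := by group
  have e2 : (v * y * h''⁻¹)⁻¹ * (v * y) = h'' := by group
  have := exit hT (x := v * y) (y := y) (D := D) ((hr h').2 _ hh') ((hr h'').2 _ hh'')
    (by rw [e1]; exact hS) (by rw [e2]; exact hS')
  have e3 : v * y * y⁻¹ = v := by group
  rw [e3] at this
  exact this

/-- the star property -/
def STAR (V : Submodule K (AA K B)) : Prop :=
  ∀ r : FreeGroup B →₀ AA K B, (∀ h, r h ∈ V) → Phi (fun _ => True) r = 0 →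
    ∀ y d, Phi (SD y {d}) r * dl y⁻¹ ∈ V

theorem star_IT {I : Submodule (AA K B)ᵐᵒᵖ (AA K B)} {T : Set (FreeGroup B)} (hT : Conn T) :
    STAR (IT I T) := by
  intro r hr h0 y d
  have := L1 hT hr h0 y {d}
  exact ⟨this.1, fun v hv => (this.2 v hv).1⟩

/-- adding one translate -/
noncomputable def vext (V : Submodule K (AA K B)) (v : AA K B) (c : B × Bool) : Submodule K (AA K B) :=
  V ⊔ Submodule.span K {v * dl (lt c)}

theorem mem_vext {V : Submodule K (AA K B)} {v : AA K B} {c : B × Bool} {x : AA K B} :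
    x ∈ vext V v c ↔ ∃ u ∈ V, ∃ k : K, x = u + k • (v * dl (lt c)) := by
  unfold vext
  rw [Submodule.mem_sup]
  constructor
  · rintro ⟨u, hu, z, hz, rfl⟩
    rw [Submodule.mem_span_singleton] at hz
    obtain ⟨k, rfl⟩ := hz
    exact ⟨u, hu, k, rfl⟩
  · rintro ⟨u, hu, k, rfl⟩
    exact ⟨u, hu, _, Submodule.smul_mem _ _ (Submodule.mem_span_singleton_self _), rfl⟩

/-- **Lemma L2.** -/
theorem L2 {V : Submodule K (AA K B)} (hV : STAR V) {v : AA K B} (hv : v ∈ V) (c : B × Bool) :
    STAR (vext V v c) := by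
  classical
  intro r hr h0 y d
  have hch : ∀ h, ∃ u ∈ V, ∃ k : K, r h = u + k • (v * dl (lt c)) := fun h => mem_vext.1 (hr h)
  choose u hu k hk using hch
  set r' : FreeGroup B →₀ AA K B :=
    ∑ h ∈ r.support, (Finsupp.single h (u h) + Finsupp.single (lt c * h) (k h • v)) with hr'
  have hsV : ∀ (g h : FreeGroup B) (w : AA K B), w ∈ V → (Finsupp.single g w) h ∈ V := by
    intro g h w hw
    rw [Finsupp.single_apply]
    split_ifs
    · exact hw
    · exact V.zero_mem
  have hr'V : ∀ h, r' h ∈ V := by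
    intro h
    rw [hr', Finsupp.finsetSum_apply]
    apply Submodule.sum_mem
    intro g _
    rw [Finsupp.add_apply]
    exact V.add_mem (hsV _ _ _ (hu g)) (hsV _ _ _ (V.smul_mem _ hv))
  have hdiff : ∀ p : FreeGroup B → Prop, Phi p r = Phi p r' +
      ∑ h ∈ r.support, (Phi p (Finsupp.single h (k h • (v * dl (lt c)))) -
        Phi p (Finsupp.single (lt c * h) (k h • v))) := by
    intro p
    rw [Phi_eq_sum p r, hr', map_sum, ← Finset.sum_add_distrib]
    apply Finset.sum_congr rfl
    intro h _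
    conv_lhs => rw [hk h]
    rw [Finsupp.single_add, map_add, map_add]
    abel
  have hterm : ∀ h : FreeGroup B, (k h • (v * dl (lt c)) : AA K B) * dl h =
      (k h • v) * dl (lt c * h) := by
    intro h
    rw [smul_mul_assoc, smul_mul_assoc, mul_assoc, dl_mul]
  have h0' : Phi (fun _ => True) r' = 0 := by
    have h1 := hdiff (fun _ => True)
    rw [h0] at h1
    have h2 : ∑ h ∈ r.support, (Phi (fun _ => True) (Finsupp.single h (k h • (v * dl (lt c)))) -
        Phi (fun _ => True) (Finsupp.single (lt c * h) (k h • v))) = 0 := by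
      apply Finset.sum_eq_zero
      intro h _
      rw [Phi_single_pos trivial, Phi_single_pos trivial, hterm, sub_self]
    rw [h2, add_zero] at h1
    exact h1.symm
  have hfin := hV r' hr'V h0' y d
  rw [hdiff, add_mul, Finset.sum_mul]
  have hVW : V ≤ vext V v c := le_sup_left
  apply Submodule.add_mem _ (hVW hfin)
  apply Submodule.sum_mem
  intro h _
  by_cases hp : SD y {d} h
  · by_cases hp' : SD y {d} (lt c * h)
    · rw [Phi_single_pos hp, Phi_single_pos hp', hterm, sub_self, zero_mul]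
      exact Submodule.zero_mem _
    · rw [Phi_single_pos hp, Phi_single_neg hp', hterm, sub_zero]
      obtain ⟨-, hg⟩ := sd_step hp hp'
      have e1 : lt c * h = y := by
        rw [hg, lt_il]
        group
      rw [e1, mul_assoc, dl_mul, mul_inv_cancel, dl_one, mul_one]
      exact hVW (V.smul_mem _ hv)
  · by_cases hp' : SD y {d} (lt c * h)
    · rw [Phi_single_neg hp, Phi_single_pos hp', zero_sub]
      have hback : lt (il c) * (lt c * h) = h := by
        rw [lt_il]
        group
      have hp2 : ¬ SD y {d} (lt (il c) * (lt c * h)) := by rwa [hback]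
      obtain ⟨-, hg⟩ := sd_step hp' hp2
      rw [il_il] at hg
      have e1 : h = y := mul_left_cancel hg
      rw [e1, neg_mul, mul_assoc, dl_mul]
      have e2 : lt c * y * y⁻¹ = lt c := by group
      rw [e2, smul_mul_assoc]
      apply Submodule.neg_mem
      apply Submodule.smul_mem
      exact (le_sup_right : Submodule.span K {v * dl (lt c)} ≤ vext V v c)
        (Submodule.mem_span_singleton_self _)
    · rw [Phi_single_neg hp, Phi_single_neg hp', sub_zero, zero_mul]
      exact Submodule.zero_mem _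

/-- elements of the right ideal generated by a subspace -/
theorem mem_span_iff {V : Submodule K (AA K B)} {x : AA K B}
    (hx : x ∈ Submodule.span (AA K B)ᵐᵒᵖ (V : Set (AA K B))) :
    ∃ r : FreeGroup B →₀ AA K B, (∀ h, r h ∈ V) ∧ Phi (fun _ => True) r = x := by
  classical
  have hsV : ∀ (g h : FreeGroup B) (w : AA K B), w ∈ V → (Finsupp.single g w) h ∈ V := by
    intro g h w hw
    rw [Finsupp.single_apply]
    split_ifs
    · exact hw
    · exact V.zero_mem
  have hadd : ∀ x y : AA K B, (∃ r : FreeGroup B →₀ AA K B, (∀ h, r h ∈ V) ∧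
      Phi (fun _ => True) r = x) → (∃ r : FreeGroup B →₀ AA K B, (∀ h, r h ∈ V) ∧
      Phi (fun _ => True) r = y) → ∃ r : FreeGroup B →₀ AA K B, (∀ h, r h ∈ V) ∧
      Phi (fun _ => True) r = x + y := by
    rintro x y ⟨r, hr, rfl⟩ ⟨r', hr', rfl⟩
    exact ⟨r + r', fun h => V.add_mem (hr h) (hr' h), map_add _ _ _⟩
  induction hx using Submodule.span_induction with
  | mem x hx =>
    refine ⟨Finsupp.single 1 x, fun h => hsV _ _ _ hx, ?_⟩
    rw [Phi_single_pos trivial, dl_one, mul_one]
  | zero => exact ⟨0, fun h => V.zero_mem, map_zero _⟩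
  | add x y _ _ hx hy => exact hadd x y hx hy
  | smul a x _ hx =>
    obtain ⟨r, hr, rfl⟩ := hx
    have e : a • Phi (fun _ => True) r = Phi (fun _ => True) r * a.unop := rfl
    rw [e]
    induction a.unop using MonoidAlgebra.induction_linear with
    | zero => exact ⟨0, fun h => V.zero_mem, by rw [mul_zero, map_zero]⟩
    | add a b ha hb =>
      rw [mul_add]
      exact hadd _ _ ha hb
    | single g k =>
      refine ⟨∑ h ∈ r.support, Finsupp.single (h * g) (k • r h), ?_, ?_⟩
      · intro h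
        rw [Finsupp.finsetSum_apply]
        apply Submodule.sum_mem
        intro g' _
        exact hsV _ _ _ (V.smul_mem _ (hr g'))
      · rw [map_sum, Phi_eq_sum (fun _ => True) r, Finset.sum_mul]
        apply Finset.sum_congr rfl
        intro h _
        rw [Phi_single_pos trivial, Phi_single_pos trivial, ← dl_mul]
        have : (MonoidAlgebra.single g k : AA K B) = k • dl g := by
          unfold dl
          rw [MonoidAlgebra.smul_single, smul_eq_mul, mul_one]
        rw [this, mul_smul_comm, smul_mul_assoc, mul_assoc]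

end Pool.Agent.Q18.FIR
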