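import Pool.Agent.Q18.FIR2

/-!
# Bases inside a subspace with the star property
-/

namespace Pool.Agent.Q18.FIR

set_option linter.unusedSectionVars false

variable {B : Type*} [DecidableEq B] {K : Type*} [Field K]

/-- finite bases of right ideals -/
structure FB {ι : Type*} [Fintype ι] (e : ι → AA K B)
    (P : Submodule (AA K B)ᵐᵒᵖ (AA K B)) : Prop where
  ind : ∀ p : ι → AA K B, ∑ i, e i * p i = 0 → ∀ i, p i = 0
  gen : ∀ x, x ∈ P ↔ ∃ p : ι → AA K B, x = ∑ i, e i * p i

theorem FB.mem {ι : Type*} [Fintype ι] [DecidableEq ι] {e : ι → AA K B}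
    {P : Submodule (AA K B)ᵐᵒᵖ (AA K B)} (h : FB e P) (i : ι) : e i ∈ P := by
  rw [h.gen]
  refine ⟨fun j => if j = i then 1 else 0, ?_⟩
  rw [Finset.sum_eq_single i]
  · simp
  · intro j _ hj
    simp [hj]
  · simp

theorem FB.change {ι : Type*} [Fintype ι] {e : ι → AA K B}
    {P : Submodule (AA K B)ᵐᵒᵖ (AA K B)} (h : FB e P) (e' : ι → AA K B)
    (φ ψ : (ι → AA K B) → (ι → AA K B))
    (h1 : ∀ p, ∑ i, e' i * p i = ∑ i, e i * (φ p) i)
    (h2 : ∀ p, (∀ i, φ p i = 0) → ∀ i, p i = 0) (h3 : ∀ p i, φ (ψ p) i = p i) : FB e' P := by
  constructor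
  · intro p hp
    rw [h1] at hp
    exact h2 p (h.ind _ hp)
  · intro x
    rw [h.gen]
    constructor
    · rintro ⟨p, rfl⟩
      refine ⟨ψ p, ?_⟩
      rw [h1]
      apply Finset.sum_congr rfl
      intro i _
      rw [h3]
    · rintro ⟨p, rfl⟩
      exact ⟨φ p, h1 p⟩

/-- replacing one element -/
theorem FB.update {ι : Type*} [Fintype ι] [DecidableEq ι] {e : ι → AA K B}
    {P : Submodule (AA K B)ᵐᵒᵖ (AA K B)} (h : FB e P) (i0 : ι) (q : ι → AA K B)
    (η : AA K B) (hη1 : q i0 * η = 1) (hη2 : η * q i0 = 1) (b : AA K B)
    (hb : b = ∑ i, e i * q i) : FB (Function.update e i0 b) P := by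
  have hsplit : ∀ f : ι → AA K B, ∑ i, f i = f i0 + ∑ i ∈ Finset.univ.erase i0, f i :=
    fun f => (Finset.add_sum_erase _ _ (Finset.mem_univ i0)).symm
  apply h.change _ (fun p i => (if i = i0 then 0 else p i) + q i * p i0)
    (fun p i => if i = i0 then η * p i0 else p i - q i * (η * p i0))
  · intro p
    have e1 : ∑ i, e i * ((if i = i0 then 0 else p i) + q i * p i0) =
        ∑ i, e i * (if i = i0 then 0 else p i) + b * p i0 := by
      rw [hb, Finset.sum_mul, ← Finset.sum_add_distrib]
      apply Finset.sum_congr rfl
      intro i _
      rw [mul_add, mul_assoc]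
    rw [e1, hsplit (fun i => Function.update e i0 b i * p i),
      hsplit (fun i => e i * (if i = i0 then 0 else p i))]
    simp only [Function.update_self, if_true, mul_zero, zero_add]
    rw [add_comm]
    congr 1
    apply Finset.sum_congr rfl
    intro i hi
    have hne : i ≠ i0 := (Finset.mem_erase.1 hi).1
    rw [Function.update_of_ne hne, if_neg hne]
  · intro p hp
    have h0 := hp i0
    simp only [if_true, zero_add] at h0
    have hp0 : p i0 = 0 := by
      have : η * (q i0 * p i0) = 0 := by rw [h0, mul_zero]
      rwa [← mul_assoc, hη2, one_mul] at this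
    intro i
    by_cases hi : i = i0
    · rw [hi, hp0]
    · have := hp i
      simp only [hi, if_false, hp0, mul_zero, add_zero] at this
      exact this
  · intro p i
    by_cases hi : i = i0
    · subst hi
      simp only [if_true, zero_add]
      rw [← mul_assoc, hη1, one_mul]
    · simp only [hi, if_false, if_true]
      abel

/-- subtracting multiples of one element from the others -/
theorem FB.shear {ι : Type*} [Fintype ι] [DecidableEq ι] {e : ι → AA K B}
    {P : Submodule (AA K B)ᵐᵒᵖ (AA K B)} (h : FB e P) (i0 : ι) (l : ι → K)
    (hl : l i0 = 0) : FB (fun i => e i - l i • e i0) P := by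
  have hsum0 : ∀ f : ι → AA K B, ∑ i, e i * (if i = i0 then f i else 0) = e i0 * f i0 := by
    intro f
    rw [Finset.sum_eq_single i0]
    · simp
    · intro j _ hj
      simp [hj]
    · simp
  apply h.change _ (fun p i => p i - (if i = i0 then ∑ j, l j • p j else 0))
    (fun p i => p i + (if i = i0 then ∑ j, l j • p j else 0))
  · intro p
    have e1 : ∑ i, e i * (p i - (if i = i0 then ∑ j, l j • p j else 0)) =
        ∑ i, e i * p i - e i0 * ∑ j, l j • p j := by
      rw [← hsum0 (fun _ => ∑ j, l j • p j), ← Finset.sum_sub_distrib]
      apply Finset.sum_congr rfl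
      intro i _
      rw [mul_sub]
    rw [e1, Finset.mul_sum, ← Finset.sum_sub_distrib]
    apply Finset.sum_congr rfl
    intro i _
    rw [sub_mul, smul_mul_assoc, mul_smul_comm]
  · intro p hp
    have hne : ∀ i, i ≠ i0 → p i = 0 := by
      intro i hi
      have := hp i
      simpa [hi] using this
    intro i
    by_cases hi : i = i0
    · subst hi
      have h0 := hp i
      simp only [if_true] at h0
      rw [Finset.sum_eq_zero] at h0
      · simpa using h0
      · intro j _
        by_cases hj : j = i
        · rw [hj, hl, zero_smul]
        · rw [hne j hj, smul_zero]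
    · exact hne i hi
  · intro p i
    by_cases hi : i = i0
    · subst hi
      simp only [if_true]
      have : ∑ j, l j • (p j + if j = i then ∑ j', l j' • p j' else 0) = ∑ j, l j • p j := by
        apply Finset.sum_congr rfl
        intro j _
        by_cases hj : j = i
        · rw [hj, hl, zero_smul, zero_smul]
        · rw [if_neg hj, add_zero]
      rw [this]
      abel
    · simp [hi]

/-- the finitely supported function `g ↦ a_g w` -/
noncomputable def sp (w : AA K B) : AA K B →+ (FreeGroup B →₀ AA K B) where
  toFun a := a.coeff.mapRange (fun k => k • w) (zero_smul K w)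
  map_zero' := by
    ext x
    simp
  map_add' a b := by
    ext1 x
    rw [Finsupp.mapRange_apply, Finsupp.add_apply, Finsupp.mapRange_apply, Finsupp.mapRange_apply,
      MonoidAlgebra.coeff_add, Finsupp.add_apply, add_smul]

theorem sp_apply (w a : AA K B) (g : FreeGroup B) : sp w a g = a.coeff g • w := by
  have : sp w a g = a.coeff.mapRange (fun k => k • w) (zero_smul K w) g := rfl
  rw [this, Finsupp.mapRange_apply]

theorem sp_single (w : AA K B) (g : FreeGroup B) (k : K) :
    sp w (MonoidAlgebra.single g k) = Finsupp.single g (k • w) := by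
  ext1 x
  rw [sp_apply, MonoidAlgebra.coeff_single, Finsupp.single_apply, Finsupp.single_apply]
  split_ifs
  · rfl
  · rw [zero_smul]

open Classical in
/-- restriction of the support -/
noncomputable def res (p : FreeGroup B → Prop) (a : AA K B) : AA K B :=
  MonoidAlgebra.ofCoeff (a.coeff.filter p)

theorem res_coeff_pos {p : FreeGroup B → Prop} {g : FreeGroup B} (hp : p g) (a : AA K B) :
    (res p a).coeff g = a.coeff g := by
  classical
  unfold res
  rw [MonoidAlgebra.coeff_ofCoeff, Finsupp.filter_apply_pos _ _ hp]

theorem res_coeff_neg {p : FreeGroup B → Prop} {g : FreeGroup B} (hp : ¬ p g) (a : AA K B) :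
    (res p a).coeff g = 0 := by
  classical
  unfold res
  rw [MonoidAlgebra.coeff_ofCoeff, Finsupp.filter_apply_neg _ _ hp]

theorem res_add (p : FreeGroup B → Prop) (a b : AA K B) : res p (a + b) = res p a + res p b := by
  ext x
  by_cases hp : p x
  · rw [res_coeff_pos hp, MonoidAlgebra.coeff_add, MonoidAlgebra.coeff_add, Finsupp.add_apply,
      Finsupp.add_apply, res_coeff_pos hp, res_coeff_pos hp]
  · rw [res_coeff_neg hp, MonoidAlgebra.coeff_add, Finsupp.add_apply, res_coeff_neg hp,
      res_coeff_neg hp, add_zero]

theorem single_eq (g : FreeGroup B) (k : K) : (MonoidAlgebra.single g k : AA K B) = k • dl g := by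
  unfold dl
  rw [MonoidAlgebra.smul_single, smul_eq_mul, mul_one]

theorem Phi_sp (p : FreeGroup B → Prop) (w a : AA K B) : Phi p (sp w a) = w * res p a := by
  induction a using MonoidAlgebra.induction_linear with
  | zero =>
    have : res p (0 : AA K B) = 0 := by
      ext x
      by_cases hp : p x
      · rw [res_coeff_pos hp]
      · rw [res_coeff_neg hp]
        simp
    rw [this, map_zero, map_zero, mul_zero]
  | add a b ha hb => rw [map_add, map_add, ha, hb, res_add, mul_add]
  | single g k =>
    rw [sp_single]
    by_cases hp : p g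
    · have : res p (MonoidAlgebra.single g k : AA K B) = MonoidAlgebra.single g k := by
        ext x
        by_cases hx : p x
        · rw [res_coeff_pos hx]
        · rw [res_coeff_neg hx, MonoidAlgebra.coeff_single, Finsupp.single_apply, if_neg]
          rintro rfl
          exact hx hp
      rw [this, Phi_single_pos hp, single_eq, smul_mul_assoc, mul_smul_comm]
    · have : res p (MonoidAlgebra.single g k : AA K B) = 0 := by
        ext x
        by_cases hx : p x
        · rw [res_coeff_pos hx, MonoidAlgebra.coeff_single, Finsupp.single_apply, if_neg]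
          · simp
          · rintro rfl
            exact hp hx
        · rw [res_coeff_neg hx]
          simp
      rw [this, Phi_single_neg hp, mul_zero]

theorem res_true (a : AA K B) : res (fun _ => True) a = a := by
  ext x
  rw [res_coeff_pos trivial]

/-- the family of functions used in Lemma L3 -/
theorem main_step {ι : Type*} [Fintype ι] [DecidableEq ι] {V : Submodule K (AA K B)}
    (hV : STAR V) {v u : AA K B} (hv : v ∈ V) (hu : u ∈ V) {c : B × Bool}
    (e : ι → AA K B) (i0 : ι) (he0 : e i0 = u + v * dl (lt c)) (heV : ∀ i, i ≠ i0 → e i ∈ V)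
    (p : ι → AA K B) (hp : v = ∑ i, e i * p i) (y : FreeGroup B) (d : B × Bool) :
    (u * res (SD y {d}) (p i0) + v * res (SD y {d}) (dl (lt c) * p i0 - 1) +
      ∑ i ∈ Finset.univ.erase i0, e i * res (SD y {d}) (p i)) * dl y⁻¹ ∈ V := by
  set r : FreeGroup B →₀ AA K B := sp u (p i0) + sp v (dl (lt c) * p i0 - 1) +
    ∑ i ∈ Finset.univ.erase i0, sp (e i) (p i) with hr
  have hPhi : ∀ S : FreeGroup B → Prop, Phi S r = u * res S (p i0) +
      v * res S (dl (lt c) * p i0 - 1) + ∑ i ∈ Finset.univ.erase i0, e i * res S (p i) := by
    intro S
    rw [hr, map_add, map_add, map_sum, Phi_sp, Phi_sp]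
    congr 1
    apply Finset.sum_congr rfl
    intro i _
    rw [Phi_sp]
  have hrV : ∀ h, r h ∈ V := by
    intro h
    rw [hr, Finsupp.add_apply, Finsupp.add_apply, Finsupp.finsetSum_apply]
    apply V.add_mem (V.add_mem _ _) (V.sum_mem _)
    · rw [sp_apply]; exact V.smul_mem _ hu
    · rw [sp_apply]; exact V.smul_mem _ hv
    · intro i hi
      rw [sp_apply]
      exact V.smul_mem _ (heV i (Finset.mem_erase.1 hi).1)
  have h0 : Phi (fun _ => True) r = 0 := by
    rw [hPhi, res_true, res_true]
    have h1 : ∑ i ∈ Finset.univ.erase i0, e i * res (fun _ => True) (p i) =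
        ∑ i ∈ Finset.univ.erase i0, e i * p i := by
      apply Finset.sum_congr rfl
      intro i _
      rw [res_true]
    rw [h1]
    rw [← Finset.add_sum_erase _ _ (Finset.mem_univ i0), he0] at hp
    rw [mul_sub, mul_one, ← mul_assoc]
    have h2 : ∑ i ∈ Finset.univ.erase i0, e i * p i = v - (u + v * dl (lt c)) * p i0 :=
      eq_sub_of_add_eq' hp.symm
    rw [h2, add_mul]
    abel
  have := hV r hrV h0 y d
  rwa [hPhi] at this

theorem coeff_one_ne {g : FreeGroup B} (hg : g ≠ 1) : (1 : AA K B).coeff g = 0 := by
  rw [MonoidAlgebra.one_def, MonoidAlgebra.coeff_single, Finsupp.single_apply, if_neg]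
  exact fun h => hg h.symm

/-- **Lemma L3.** -/
theorem L3 {ι : Type*} [Fintype ι] [DecidableEq ι] {V : Submodule K (AA K B)} (hV : STAR V)
    {P : Submodule (AA K B)ᵐᵒᵖ (AA K B)} (hVP : ∀ a ∈ V, a ∈ P) {v : AA K B} (hv : v ∈ V)
    (c : B × Bool) (e : ι → AA K B) (he : FB e P) (heW : ∀ i, e i ∈ vext V v c) :
    ∃ e' : ι → AA K B, FB e' P ∧ ∀ i, e' i ∈ V := by
  by_cases hall : ∀ i, e i ∈ V
  · exact ⟨e, he, hall⟩
  push Not at hall
  obtain ⟨i0, hi0⟩ := hall
  have hch : ∀ i, ∃ u ∈ V, ∃ k : K, e i = u + k • (v * dl (lt c)) := fun i => mem_vext.1 (heW i)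
  choose u0 hu0 k0 hk0 using hch
  have hk : k0 i0 ≠ 0 := by
    intro h0
    apply hi0
    rw [hk0 i0, h0, zero_smul, add_zero]
    exact hu0 i0
  -- normalize
  set w : AA K B := k0 i0 • v with hw
  have hwV : w ∈ V := V.smul_mem _ hv
  set e1 : ι → AA K B := fun i => e i - (if i = i0 then 0 else k0 i / k0 i0) • e i0 with he1
  have hFB1 : FB e1 P := he.shear i0 (fun i => if i = i0 then 0 else k0 i / k0 i0) (by simp)
  have he10 : e1 i0 = u0 i0 + w * dl (lt c) := by
    rw [he1]
    simp only [if_true, zero_smul, sub_zero]
    rw [hk0 i0, hw, smul_mul_assoc]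
  have he1V : ∀ i, i ≠ i0 → e1 i ∈ V := by
    intro i hi
    rw [he1]
    simp only [hi, if_false]
    have : e i - (k0 i / k0 i0) • e i0 = u0 i - (k0 i / k0 i0) • u0 i0 := by
      conv_lhs => rw [hk0 i, hk0 i0]
      rw [smul_add, smul_smul, div_mul_cancel₀ _ hk]
      abel
    rw [this]
    exact V.sub_mem (hu0 i) (V.smul_mem _ (hu0 i0))
  clear_value e1 w
  clear hk hk0 heW he
  obtain ⟨p, hp⟩ := (hFB1.gen w).1 (hVP w hwV)
  set u := u0 i0 with hu
  have huV : u ∈ V := hu0 i0
  -- the new element
  suffices hsuff : ∃ (b : AA K B) (q : ι → AA K B) (η : AA K B), b ∈ V ∧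
      q i0 * η = 1 ∧ η * q i0 = 1 ∧ b = ∑ i, e1 i * q i by
    obtain ⟨b, q, η, hbV, hq1, hq2, hb⟩ := hsuff
    refine ⟨Function.update e1 i0 b, hFB1.update i0 q η hq1 hq2 b hb, fun i => ?_⟩
    by_cases hi : i = i0
    · rw [hi, Function.update_self]
      exact hbV
    · rw [Function.update_of_ne hi]
      exact he1V i hi
  have hsplit : ∀ f : ι → AA K B, ∑ i, f i = f i0 + ∑ i ∈ Finset.univ.erase i0, f i :=
    fun f => (Finset.add_sum_erase _ _ (Finset.mem_univ i0)).symm
  by_cases hp0 : p i0 = 0
  · refine ⟨u, fun i => (if i = i0 then 1 else 0) - p i * dl (lt c), 1, huV, ?_, ?_, ?_⟩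
    · simp [hp0]
    · simp [hp0]
    · have h1 : ∑ i, e1 i * ((if i = i0 then 1 else 0) - p i * dl (lt c)) =
          ∑ i, e1 i * (if i = i0 then 1 else 0) - (∑ i, e1 i * p i) * dl (lt c) := by
        rw [Finset.sum_mul, ← Finset.sum_sub_distrib]
        apply Finset.sum_congr rfl
        intro i _
        rw [mul_sub, mul_assoc]
      have h2 : ∑ i, e1 i * (if i = i0 then (1 : AA K B) else 0) = e1 i0 := by
        rw [Finset.sum_eq_single i0]
        · simp
        · intro j _ hj
          simp [hj]
        · simp
      rw [h1, h2, ← hp, he10]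
      abel
  · have hne : (p i0).coeff.support.Nonempty := by
      rw [Finsupp.support_nonempty_iff]
      intro h
      exact hp0 (MonoidAlgebra.coeff_eq_zero.1 h)
    obtain ⟨h, hh, hmax⟩ := Finset.exists_max_image _ len hne
    rw [Finsupp.mem_support_iff] at hh
    set ν := (p i0).coeff h with hν
    have hbig : ∀ g, len h < len g → (p i0).coeff g = 0 := by
      intro g hg
      by_contra hne
      have := hmax g (Finsupp.mem_support_iff.2 hne)
      omega
    by_cases hhead : h.toWord.head? = some (il c)
    · -- case 2
      set h' := lt c * h with hh'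
      have hhh : h = lt (il c) * h' := by
        rw [hh', lt_il]
        group
      have htail : h'.toWord = h.toWord.tail := by
        rcases toWord_lt_mul c h with ⟨-, h2⟩ | ⟨h2, -⟩
        · exact h2
        · exact absurd hhead h2
      have hlenh : 0 < h.toWord.length := by
        rw [List.length_pos_iff]
        intro h0
        rw [h0] at hhead
        simp at hhead
      have hlen : len h = len h' + 1 := by
        unfold len
        rw [htail, List.length_tail]
        omega
      have hhead' : h'.toWord.head? ≠ some (il (il c)) := by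
        intro hcon
        rcases toWord_lt_mul (il c) h' with ⟨-, h2⟩ | ⟨h2, -⟩
        · rw [← hhh] at h2
          have h3 : h.toWord.length = h'.toWord.length - 1 := by rw [h2, List.length_tail]
          have h4 : h'.toWord.length = h.toWord.length - 1 := by rw [htail, List.length_tail]
          omega
        · exact h2 hcon
      have hS : ∀ g, SD h' {il c} g ↔ lastL (g * h'⁻¹) = some (il c) := by
        intro g
        unfold SD
        simp
      have hlS : ∀ g, SD h' {il c} g → len g = len (g * h'⁻¹) + len h' := by
        intro g hg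
        rw [hS] at hg
        have := len_mul hg hhead'
        rwa [inv_mul_cancel_right] at this
      have hres1 : res (SD h' {il c}) (p i0) = MonoidAlgebra.single h ν := by
        ext g
        rw [MonoidAlgebra.coeff_single, Finsupp.single_apply]
        by_cases hg : SD h' {il c} g
        · rw [res_coeff_pos hg]
          by_cases hgh : h = g
          · rw [if_pos hgh, ← hgh]
          · rw [if_neg hgh]
            apply hbig
            have h1 := hlS g hg
            by_contra hle
            push Not at hle
            apply hgh
            have h2 : g * h'⁻¹ = lt (il c) := eq_lt_of_len ((hS g).1 hg) (by omega)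
            rw [hhh, ← h2]
            group
        · rw [res_coeff_neg hg, if_neg]
          rintro rfl
          apply hg
          rw [hS]
          have : h * h'⁻¹ = lt (il c) := by
            rw [hh', lt_il]
            group
          rw [this, lastL_lt]
      have hres2 : res (SD h' {il c}) (dl (lt c) * p i0 - 1) = 0 := by
        ext g
        by_cases hg : SD h' {il c} g
        · rw [res_coeff_pos hg, MonoidAlgebra.coeff_sub, Finsupp.sub_apply, coeff_dl_mul]
          have h1 := hlS g hg
          have hg' := (hS g).1 hg
          have h2 := len_pos_of_last hg'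
          have hg1 : g ≠ 1 := by
            rintro rfl
            unfold len at h1
            rw [FreeGroup.toWord_one, List.length_nil] at h1
            unfold len at h2
            omega
          rw [coeff_one_ne hg1, sub_zero]
          have h3 : (p i0).coeff ((lt c)⁻¹ * g) = 0 := by
            have hw1 : g * h'⁻¹ ≠ 1 := by
              intro h0
              rw [h0, lastL_one] at hg'
              simp at hg'
            have hw2 : g * h'⁻¹ ≠ lt (il (il c)) := by
              intro h0
              rw [h0, lastL_lt, il_il, Option.some.injEq] at hg'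
              exact il_ne c hg'.symm
            have h4 := lastL_lt_mul (c := il c) hw1 hw2
            rw [hg'] at h4
            have h5 : (lt c)⁻¹ * g = (lt (il c) * (g * h'⁻¹)) * h' := by
              rw [lt_il]
              group
            have h6 := len_mul h4 hhead'
            rw [← h5] at h6
            apply hbig
            by_contra hle
            push Not at hle
            have h7 := eq_lt_of_len h4 (by omega)
            apply hw1
            have h8 : g * h'⁻¹ = (lt (il c))⁻¹ * (lt (il c) * (g * h'⁻¹)) := by group
            rw [h8, h7]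
            group
          rw [h3]
          simp
        · rw [res_coeff_neg hg]
          simp
      have hmain := main_step hV hwV huV e1 i0 he10 he1V p hp h' (il c)
      rw [hres1, hres2, mul_zero, add_zero] at hmain
      refine ⟨_, fun i => if i = i0 then ν • dl (lt (il c)) else res (SD h' {il c}) (p i) * dl h'⁻¹,
        ν⁻¹ • dl (lt c), V.add_mem hmain (V.smul_mem ν hwV), ?_, ?_, ?_⟩
      · simp only [if_true]
        rw [smul_mul_smul_comm, dl_mul, mul_inv_cancel₀ hh, lt_il, inv_mul_cancel, dl_one, one_smul]
      · simp only [if_true]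
        rw [smul_mul_smul_comm, dl_mul, inv_mul_cancel₀ hh, lt_il, mul_inv_cancel, dl_one, one_smul]
      · rw [hsplit (fun i => e1 i * (if i = i0 then ν • dl (lt (il c))
          else res (SD h' {il c}) (p i) * dl h'⁻¹))]
        simp only [if_true]
        have h1 : ∑ i ∈ Finset.univ.erase i0, e1 i * (if i = i0 then ν • dl (lt (il c))
            else res (SD h' {il c}) (p i) * dl h'⁻¹) =
            (∑ i ∈ Finset.univ.erase i0, e1 i * res (SD h' {il c}) (p i)) * dl h'⁻¹ := by
          rw [Finset.sum_mul]
          apply Finset.sum_congr rfl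
          intro i hi
          rw [if_neg (Finset.mem_erase.1 hi).1, mul_assoc]
        rw [h1, he10, add_mul]
        have h2 : (u * MonoidAlgebra.single h ν : AA K B) * dl h'⁻¹ = u * (ν • dl (lt (il c))) := by
          rw [single_eq, mul_assoc, smul_mul_assoc, dl_mul]
          have : h * h'⁻¹ = lt (il c) := by
            rw [hh', lt_il]
            group
          rw [this]
        have h3 : (u + w * dl (lt c)) * (ν • dl (lt (il c))) =
            u * (ν • dl (lt (il c))) + ν • w := by
          rw [add_mul, mul_smul_comm ν (w * dl (lt c)), mul_assoc, dl_mul, lt_il, mul_inv_cancel,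
            dl_one, mul_one]
        rw [h2, h3]
        abel
    · -- case 1
      have hS : ∀ g, SD h {c} g ↔ lastL (g * h⁻¹) = some c := by
        intro g
        unfold SD
        simp
      have hlS : ∀ g, SD h {c} g → len g = len (g * h⁻¹) + len h := by
        intro g hg
        rw [hS] at hg
        have := len_mul hg hhead
        rwa [inv_mul_cancel_right] at this
      have hres1 : res (SD h {c}) (p i0) = 0 := by
        ext g
        by_cases hg : SD h {c} g
        · rw [res_coeff_pos hg, hbig]
          · simp
          · have h1 := hlS g hg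
            have h2 := len_pos_of_last ((hS g).1 hg)
            omega
        · rw [res_coeff_neg hg]
          simp
      have hres2 : res (SD h {c}) (dl (lt c) * p i0 - 1) = MonoidAlgebra.single (lt c * h) ν := by
        ext g
        rw [MonoidAlgebra.coeff_single, Finsupp.single_apply]
        by_cases hg : SD h {c} g
        · rw [res_coeff_pos hg, MonoidAlgebra.coeff_sub, Finsupp.sub_apply, coeff_dl_mul]
          have h1 := hlS g hg
          have hg' := (hS g).1 hg
          have h2 := len_pos_of_last hg'
          have hg1 : g ≠ 1 := by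
            rintro rfl
            unfold len at h1
            rw [FreeGroup.toWord_one, List.length_nil] at h1
            unfold len at h2
            omega
          rw [coeff_one_ne hg1, sub_zero]
          by_cases hgh : lt c * h = g
          · rw [if_pos hgh, ← hgh, inv_mul_cancel_left]
          · rw [if_neg hgh]
            have hw1 : g * h⁻¹ ≠ 1 := by
              intro h0
              rw [h0, lastL_one] at hg'
              simp at hg'
            have hw2 : g * h⁻¹ ≠ lt (il (il c)) := by
              intro h0
              rw [il_il] at h0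
              apply hgh
              rw [← h0]
              group
            have h4 := lastL_lt_mul (c := il c) hw1 hw2
            rw [hg'] at h4
            have h5 : (lt c)⁻¹ * g = (lt (il c) * (g * h⁻¹)) * h := by
              rw [lt_il]
              group
            have h6 := len_mul h4 hhead
            rw [← h5] at h6
            have h7 := len_pos_of_last h4
            exact hbig _ (by omega)
        · rw [res_coeff_neg hg, if_neg]
          rintro rfl
          apply hg
          rw [hS]
          have : lt c * h * h⁻¹ = lt c := by group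
          rw [this, lastL_lt]
      have hmain := main_step hV hwV huV e1 i0 he10 he1V p hp h c
      rw [hres1, hres2, mul_zero, zero_add] at hmain
      refine ⟨_, fun i => if i = i0 then ν • 1 else res (SD h {c}) (p i) * dl h⁻¹,
        ν⁻¹ • 1, V.add_mem hmain (V.smul_mem ν huV), ?_, ?_, ?_⟩
      · simp only [if_true]
        rw [smul_mul_smul_comm, mul_inv_cancel₀ hh, one_smul, one_mul]
      · simp only [if_true]
        rw [smul_mul_smul_comm, inv_mul_cancel₀ hh, one_smul, one_mul]
      · rw [hsplit (fun i => e1 i * (if i = i0 then ν • 1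
          else res (SD h {c}) (p i) * dl h⁻¹))]
        simp only [if_true]
        have h1 : ∑ i ∈ Finset.univ.erase i0, e1 i * (if i = i0 then ν • 1
            else res (SD h {c}) (p i) * dl h⁻¹) =
            (∑ i ∈ Finset.univ.erase i0, e1 i * res (SD h {c}) (p i)) * dl h⁻¹ := by
          rw [Finset.sum_mul]
          apply Finset.sum_congr rfl
          intro i hi
          rw [if_neg (Finset.mem_erase.1 hi).1, mul_assoc]
        rw [h1, he10, add_mul]
        have h2 : (w * MonoidAlgebra.single (lt c * h) ν : AA K B) * dl h⁻¹ =
            ν • (w * dl (lt c)) := by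
          rw [single_eq, mul_assoc, smul_mul_assoc, dl_mul, mul_inv_cancel_right, mul_smul_comm]
        rw [h2, mul_smul_comm, mul_one, smul_add]
        abel

end Pool.Agent.Q18.FIR
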