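import Pool.Agent.Q18.FIR3

/-!
# Bases inside a subspace (chains), and adding one vertex
-/

namespace Pool.Agent.Q18.FIR

set_option linter.unusedSectionVars false

variable {B : Type*} [DecidableEq B] {K : Type*} [Field K]

/-- the right ideal generated by a subspace -/
noncomputable def rspan (V : Submodule K (AA K B)) : Submodule (AA K B)ᵐᵒᵖ (AA K B) :=
  Submodule.span (AA K B)ᵐᵒᵖ (V : Set (AA K B))

theorem le_rspan {V : Submodule K (AA K B)} {a : AA K B} (ha : a ∈ V) : a ∈ rspan V :=
  Submodule.subset_span ha

theorem rspan_mono {V W : Submodule K (AA K B)} (h : V ≤ W) : rspan V ≤ rspan W :=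
  Submodule.span_mono h

theorem rspan_le {V : Submodule K (AA K B)} {P : Submodule (AA K B)ᵐᵒᵖ (AA K B)}
    (h : ∀ a ∈ V, a ∈ P) : rspan V ≤ P := Submodule.span_le.2 h

/-- subspaces reachable by adding translates -/
inductive Reach (V : Submodule K (AA K B)) : Submodule K (AA K B) → Prop
  | refl : Reach V V
  | step {W : Submodule K (AA K B)} (w : AA K B) (c : B × Bool) :
      Reach V W → w ∈ W → Reach V (vext W w c)

theorem le_vext (V : Submodule K (AA K B)) (v : AA K B) (c : B × Bool) : V ≤ vext V v c :=
  le_sup_left

theorem mem_vext_self (V : Submodule K (AA K B)) (v : AA K B) (c : B × Bool) :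
    v * dl (lt c) ∈ vext V v c := by
  rw [mem_vext]
  exact ⟨0, V.zero_mem, 1, by rw [one_smul, zero_add]⟩

theorem reach_star {V W : Submodule K (AA K B)} (hV : STAR V) (h : Reach V W) : STAR W := by
  induction h with
  | refl => exact hV
  | step w c _ hw ih => exact L2 ih hw c

theorem reach_sub {V W : Submodule K (AA K B)} {P : Submodule (AA K B)ᵐᵒᵖ (AA K B)}
    (hVP : ∀ a ∈ V, a ∈ P) (h : Reach V W) : ∀ a ∈ W, a ∈ P := by
  induction h with
  | refl => exact hVP
  | step w c _ hw ih =>
    intro a ha
    obtain ⟨u, hu, k, rfl⟩ := mem_vext.1 ha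
    exact P.add_mem (ih u hu) (smul_mem_r P (mul_mem_r P (ih w hw) _) k)

theorem reach_down {ι : Type*} [Fintype ι] [DecidableEq ι] {V W : Submodule K (AA K B)}
    (hV : STAR V) {P : Submodule (AA K B)ᵐᵒᵖ (AA K B)} (hVP : ∀ a ∈ V, a ∈ P)
    (h : Reach V W) : ∀ e : ι → AA K B, FB e P → (∀ i, e i ∈ W) →
      ∃ e' : ι → AA K B, FB e' P ∧ ∀ i, e' i ∈ V := by
  induction h with
  | refl => exact fun e he heV => ⟨e, he, heV⟩
  | step w c hr hw ih =>
    intro e he heW
    obtain ⟨e', he', heV'⟩ := L3 (reach_star hV hr) (reach_sub hVP hr) hw c e he heW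
    exact ih e' he' heV'

theorem reach_dl {V : Submodule K (AA K B)} (L : List (B × Bool)) :
    ∀ (W : Submodule K (AA K B)) (w : AA K B), Reach V W → w ∈ W →
      ∃ W', Reach V W' ∧ W ≤ W' ∧ w * dl (FreeGroup.mk L) ∈ W' := by
  induction L with
  | nil =>
    intro W w hr hw
    refine ⟨W, hr, le_refl _, ?_⟩
    rw [← FreeGroup.one_eq_mk, dl_one, mul_one]
    exact hw
  | cons c L ih =>
    intro W w hr hw
    obtain ⟨W', h1, h2, h3⟩ := ih (vext W w c) (w * dl (lt c)) (Reach.step w c hr hw)
      (mem_vext_self W w c)
    refine ⟨W', h1, (le_vext W w c).trans h2, ?_⟩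
    have : (FreeGroup.mk (c :: L) : FreeGroup B) = lt c * FreeGroup.mk L := by
      unfold lt
      rw [FreeGroup.mul_mk]
      rfl
    rw [this, ← dl_mul, ← mul_assoc]
    exact h3

theorem reach_mem {V : Submodule K (AA K B)} {x : AA K B} (hx : x ∈ rspan V)
    {W : Submodule K (AA K B)} (hW : Reach V W) (hVW : V ≤ W) :
    ∃ W', Reach V W' ∧ W ≤ W' ∧ x ∈ W' := by
  obtain ⟨r, hr, rfl⟩ := mem_span_iff hx
  rw [Phi_eq_sum]
  generalize r.support = s
  classical
  induction s using Finset.induction_on with
  | empty => exact ⟨W, hW, le_refl _, by rw [Finset.sum_empty]; exact W.zero_mem⟩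
  | insert h s hs ih =>
    obtain ⟨W', h1, h2, h3⟩ := ih
    obtain ⟨W'', h1', h2', h3'⟩ := reach_dl h.toWord W' (r h) h1 (h2 (hVW (hr h)))
    rw [FreeGroup.mk_toWord] at h3'
    refine ⟨W'', h1', h2.trans h2', ?_⟩
    rw [Finset.sum_insert hs, Phi_single_pos trivial]
    exact W''.add_mem h3' (h2' h3)

theorem reach_ge {V W : Submodule K (AA K B)} (h : Reach V W) : V ≤ W := by
  induction h with
  | refl => exact le_refl _
  | step w c _ hw ih => exact ih.trans (le_vext _ _ _)

/-- **Lemma L4.** -/
theorem L4 {ι : Type*} [Fintype ι] [DecidableEq ι] {V : Submodule K (AA K B)} (hV : STAR V)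
    (e : ι → AA K B) (he : FB e (rspan V)) :
    ∃ e' : ι → AA K B, FB e' (rspan V) ∧ ∀ i, e' i ∈ V := by
  have key : ∀ s : Finset ι, ∃ W, Reach V W ∧ ∀ i ∈ s, e i ∈ W := by
    intro s
    induction s using Finset.induction_on with
    | empty => exact ⟨V, Reach.refl, by simp⟩
    | insert a s ha ih =>
      obtain ⟨W, h1, h2⟩ := ih
      obtain ⟨W', h1', h2', h3'⟩ := reach_mem (he.mem a) h1 (reach_ge h1)
      refine ⟨W', h1', fun i hi => ?_⟩
      rw [Finset.mem_insert] at hi
      rcases hi with hi | hi
      · rw [hi]; exact h3'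
      · exact h2' (h2 i hi)
  obtain ⟨W, h1, h2⟩ := key Finset.univ
  exact reach_down hV (fun a ha => le_rspan ha) h1 e he (fun i => h2 i (Finset.mem_univ i))

/-! ### adding one vertex -/

/-- a vertex outside of a connected set has at most one neighbour in it -/
theorem leaf {T : Set (FreeGroup B)} (hT : Conn T) {x : FreeGroup B} (hx : x ∉ T)
    {b d : B × Bool} (hb : x * (lt b)⁻¹ ∈ T) (hd : x * (lt d)⁻¹ ∈ T) : d = b := by
  by_contra hne
  have e1 : (x * (lt d)⁻¹)⁻¹ * x = lt d := by group
  have e2 : (x * (lt b)⁻¹)⁻¹ * x = lt b := by group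
  have := exit hT (x := x) (y := 1) (D := {d}) hd hb
    (by rw [e1]; exact ⟨d, rfl, by rw [inv_one, mul_one, lastL_lt]⟩)
    (by
      rw [e2]
      rintro ⟨d', hd', hl⟩
      rw [inv_one, mul_one, lastL_lt, Option.some.injEq] at hl
      rw [Set.mem_singleton_iff] at hd'
      exact hne (by rw [← hd', ← hl]))
  rw [inv_one, mul_one] at this
  exact hx this.1

/-- **Lemma L6.** -/
theorem L6 {I : Submodule (AA K B)ᵐᵒᵖ (AA K B)} {T : Set (FreeGroup B)} (hT : Conn T)
    {x : FreeGroup B} (hx : x ∉ T) {b : B × Bool} (hb : x * (lt b)⁻¹ ∈ T) {g : AA K B}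
    (hg : g ∈ IT I (insert x T)) (hgx : g.coeff x ≠ 0) {a : AA K B} (ha : a ≠ 0)
    (hga : g * a ∈ rspan (IT I T)) : g ∈ rspan (IT I T) := by
  classical
  set T' := insert x T with hT'
  have hT'conn : Conn T' := by
    apply conn_insert hT hb (c := b)
    group
  obtain ⟨r, hr, hrsum⟩ := mem_span_iff hga
  -- the neighbours of x
  have hleaf : ∀ d, x * (lt d)⁻¹ ∈ T' → d = b := by
    intro d hd
    rcases hd with hd | hd
    · exfalso
      have : lt d = 1 := by
        have h1 : (x * (lt d)⁻¹) * lt d = x * lt d := by rw [hd]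
        rw [inv_mul_cancel_right] at h1
        exact (mul_eq_left.1 h1.symm)
      exact lt_ne_one d this
    · exact leaf hT hx hb hd
  have hITle : IT I T ≤ IT I T' := IT_mono (Set.subset_insert _ _)
  set r' : FreeGroup B →₀ AA K B := sp g a - r with hr'
  have hr'V : ∀ h, r' h ∈ IT I T' := by
    intro h
    rw [hr', Finsupp.sub_apply, sp_apply]
    exact Submodule.sub_mem _ (Submodule.smul_mem _ _ hg) (hITle (hr h))
  have h0 : Phi (fun _ => True) r' = 0 := by
    rw [hr', map_sub, Phi_sp, res_true, hrsum, sub_self]
  -- the longest word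
  have hne : a.coeff.support.Nonempty := by
    rw [Finsupp.support_nonempty_iff]
    intro h
    exact ha (MonoidAlgebra.coeff_eq_zero.1 h)
  obtain ⟨h, hh, hmax⟩ := Finset.exists_max_image _ len hne
  rw [Finsupp.mem_support_iff] at hh
  have hbig : ∀ k, len h < len k → a.coeff k = 0 := by
    intro k hk
    by_contra hne
    have := hmax k (Finsupp.mem_support_iff.2 hne)
    omega
  have hxT' : ∀ f ∈ IT I T', f.coeff x = 0 → f ∈ IT I T := by
    rintro f ⟨h1, h2⟩ h3
    refine ⟨h1, fun y hy => ?_⟩
    rcases h2 y hy with h4 | h4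
    · rw [h4] at hy
      exact absurd h3 hy
    · exact h4
  have hxT : ∀ f ∈ IT I T, f.coeff x = 0 := by
    rintro f ⟨-, h2⟩
    by_contra h3
    exact hx (h2 x h3)
  by_cases hhead : h.toWord.head? = some (il b)
  · -- case B
    set h' := lt b * h with hh'
    have hhh : h = lt (il b) * h' := by
      rw [hh', lt_il]
      group
    have htail : h'.toWord = h.toWord.tail := by
      rcases toWord_lt_mul b h with ⟨-, h2⟩ | ⟨h2, -⟩
      · exact h2
      · exact absurd hhead h2
    have hlenh : 0 < h.toWord.length := by
      rw [List.length_pos_iff]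
      intro h0
      rw [h0] at hhead
      simp at hhead
    have hlen : len h = len h' + 1 := by
      unfold len
      rw [htail, List.length_tail]
      omega
    have hhead' : h'.toWord.head? ≠ some (il (il b)) := by
      intro hcon
      rcases toWord_lt_mul (il b) h' with ⟨-, h2⟩ | ⟨h2, -⟩
      · rw [← hhh] at h2
        have h3 : h.toWord.length = h'.toWord.length - 1 := by rw [h2, List.length_tail]
        have h4 : h'.toWord.length = h.toWord.length - 1 := by rw [htail, List.length_tail]
        omega
      · exact h2 hcon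
    have hS : ∀ k, SD h' {il b} k ↔ lastL (k * h'⁻¹) = some (il b) := by
      intro k
      unfold SD
      simp
    have hres1 : res (SD h' {il b}) a = MonoidAlgebra.single h (a.coeff h) := by
      ext k
      rw [MonoidAlgebra.coeff_single, Finsupp.single_apply]
      by_cases hk : SD h' {il b} k
      · rw [res_coeff_pos hk]
        by_cases hkh : h = k
        · rw [if_pos hkh, ← hkh]
        · rw [if_neg hkh]
          apply hbig
          have h1 : len k = len (k * h'⁻¹) + len h' := by
            have := len_mul ((hS k).1 hk) hhead'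
            rwa [inv_mul_cancel_right] at this
          by_contra hle
          push Not at hle
          apply hkh
          have h2 : k * h'⁻¹ = lt (il b) := eq_lt_of_len ((hS k).1 hk) (by omega)
          rw [hhh, ← h2]
          group
      · rw [res_coeff_neg hk, if_neg]
        rintro rfl
        apply hk
        rw [hS]
        have : h * h'⁻¹ = lt (il b) := by
          rw [hh', lt_il]
          group
        rw [this, lastL_lt]
    have hz := L1 hT'conn hr'V h0 h' {il b}
    have hz2 : Phi (SD h' {il b}) r' * dl h'⁻¹ ∈ IT I T := by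
      apply hxT'
      · exact ⟨hz.1, fun v hv => (hz.2 v hv).1⟩
      · by_contra hne
        obtain ⟨-, d, hd, hd2⟩ := hz.2 x hne
        rw [Set.mem_singleton_iff] at hd
        have := hleaf d hd2
        rw [hd] at this
        exact il_ne b this
    have h3 : Phi (SD h' {il b}) r' = g * MonoidAlgebra.single h (a.coeff h) -
        Phi (SD h' {il b}) r := by
      rw [hr', map_sub, Phi_sp, hres1]
    have h4 : Phi (SD h' {il b}) r ∈ rspan (IT I T) := Phi_mem _ (fun k => le_rspan (hr k))
    have h5 : Phi (SD h' {il b}) r' ∈ rspan (IT I T) := by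
      have := mul_mem_r (rspan (IT I T)) (le_rspan hz2) (dl h')
      rwa [mul_assoc, dl_mul, inv_mul_cancel, dl_one, mul_one] at this
    have h6 : g * MonoidAlgebra.single h (a.coeff h) ∈ rspan (IT I T) := by
      have := Submodule.add_mem _ h5 h4
      rwa [h3, sub_add_cancel] at this
    have h7 := mul_mem_r (rspan (IT I T)) h6 ((a.coeff h)⁻¹ • dl h⁻¹)
    rw [mul_assoc, single_eq, smul_mul_smul_comm, dl_mul, mul_inv_cancel₀ hh, mul_inv_cancel,
      dl_one, one_smul, mul_one] at h7
    exact h7
  · -- case A
    have hS : ∀ k, SD h {b} k ↔ lastL (k * h⁻¹) = some b := by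
      intro k
      unfold SD
      simp
    have hres1 : res (SD h {b}) a = 0 := by
      ext k
      by_cases hk : SD h {b} k
      · rw [res_coeff_pos hk, hbig]
        · simp
        · have h1 : len k = len (k * h⁻¹) + len h := by
            have := len_mul ((hS k).1 hk) hhead
            rwa [inv_mul_cancel_right] at this
          have h2 := len_pos_of_last ((hS k).1 hk)
          omega
      · rw [res_coeff_neg hk]
        simp
    have hz := L1 hT'conn hr'V h0 h {b}
    set z := Phi (SD h {b}) r' * dl h⁻¹ with hzdef
    have hzT' : z ∈ IT I T' := ⟨hz.1, fun v hv => (hz.2 v hv).1⟩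
    have hzspan : z ∈ rspan (IT I T) := by
      rw [hzdef, hr', map_sub, Phi_sp, hres1, mul_zero, zero_sub]
      apply mul_mem_r
      apply Submodule.neg_mem
      exact Phi_mem _ (fun k => le_rspan (hr k))
    -- the coefficient of z at x
    have hzx : z.coeff x ≠ 0 := by
      intro hz0
      -- the other directions
      have hother := (L1 hT'conn hr'V h0 h {d | d ≠ b}).2 x
      have ho : (Phi (SD h {d | d ≠ b}) r' * dl h⁻¹).coeff x = 0 := by
        by_contra hne
        obtain ⟨-, d, hd, hd2⟩ := hother hne
        exact hd (hleaf d hd2)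
      have hsum : ∀ q : FreeGroup B →₀ AA K B, Phi (fun _ => True) q =
          q h * dl h + Phi (SD h {b}) q + Phi (SD h {d | d ≠ b}) q := by
        intro q
        rw [Phi_split (SD h {b}) q, Phi_eq_sum (fun k => ¬ SD h {b} k) q,
          Phi_eq_sum (SD h {d | d ≠ b}) q]
        have h1 : ∀ k, Phi (fun k => ¬ SD h {b} k) (Finsupp.single k (q k)) =
            (if k = h then q h * dl h else 0) +
              Phi (SD h {d | d ≠ b}) (Finsupp.single k (q k)) := by
          intro k
          by_cases hk : k = h
          · subst hk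
            have h2 : ¬ SD k {b} k := by
              rw [hS, mul_inv_cancel, lastL_one]
              simp
            have h3 : ¬ SD k {d | d ≠ b} k := by
              rintro ⟨d, -, hd⟩
              rw [mul_inv_cancel, lastL_one] at hd
              simp at hd
            rw [Phi_single_pos (p := fun j => ¬ SD k {b} j) h2, Phi_single_neg h3, if_pos rfl,
              add_zero]
          · rw [if_neg hk, zero_add]
            have hlast : ∃ d, lastL (k * h⁻¹) = some d := by
              cases hl : lastL (k * h⁻¹) with
              | none =>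
                rw [lastL_eq_none] at hl
                exact absurd (mul_inv_eq_one.1 hl) hk
              | some d => exact ⟨d, rfl⟩
            obtain ⟨d, hd⟩ := hlast
            by_cases hdb : d = b
            · have h2 : SD h {b} k := by rw [hS, hd, hdb]
              have h3 : ¬ SD h {d | d ≠ b} k := by
                rintro ⟨d', hd', hl⟩
                rw [hd, Option.some.injEq] at hl
                apply hd'
                rw [← hl, hdb]
              rw [Phi_single_neg (p := fun j => ¬ SD h {b} j) (by simpa using h2),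
                Phi_single_neg h3]
            · have h2 : ¬ SD h {b} k := by
                rw [hS, hd, Option.some.injEq]
                exact hdb
              have h3 : SD h {d | d ≠ b} k := ⟨d, hdb, hd⟩
              rw [Phi_single_pos (p := fun j => ¬ SD h {b} j) h2, Phi_single_pos h3]
        rw [Finset.sum_congr rfl (fun k _ => h1 k), Finset.sum_add_distrib, Finset.sum_ite_eq']
        by_cases hq : h ∈ q.support
        · rw [if_pos hq]
          abel
        · rw [if_neg hq]
          rw [Finsupp.notMem_support_iff] at hq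
          rw [hq]
          simp
      have h1 := hsum r'
      rw [h0] at h1
      have h2 : (0 : AA K B) = r' h + z + Phi (SD h {d | d ≠ b}) r' * dl h⁻¹ := by
        have := congrArg (· * (dl h⁻¹ : AA K B)) h1
        simp only [zero_mul, add_mul] at this
        rw [mul_assoc, dl_mul, mul_inv_cancel, dl_one, mul_one] at this
        exact this
      have h3 : (0 : AA K B).coeff x = (r' h).coeff x + z.coeff x +
          (Phi (SD h {d | d ≠ b}) r' * dl h⁻¹).coeff x := by
        rw [h2]
        simp only [MonoidAlgebra.coeff_add, Finsupp.add_apply]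
      rw [hz0, ho, add_zero, add_zero, hr', Finsupp.sub_apply, sp_apply, MonoidAlgebra.coeff_sub,
        Finsupp.sub_apply, hxT _ (hr h), sub_zero, MonoidAlgebra.coeff_smul, Finsupp.smul_apply,
        smul_eq_mul] at h3
      have h4 : a.coeff h * g.coeff x = 0 := by
        rw [← h3]
        simp
      rcases mul_eq_zero.1 h4 with h5 | h5
      · exact hh h5
      · exact hgx h5
    -- g is a multiple of z modulo I_T
    have h1 : g - (g.coeff x / z.coeff x) • z ∈ IT I T := by
      apply hxT'
      · exact Submodule.sub_mem _ hg (Submodule.smul_mem _ _ hzT')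
      · rw [MonoidAlgebra.coeff_sub, Finsupp.sub_apply, MonoidAlgebra.coeff_smul,
          Finsupp.smul_apply, smul_eq_mul, div_mul_cancel₀ _ hzx, sub_self]
    have h2 := Submodule.add_mem _ (le_rspan h1) (smul_mem_r (rspan (IT I T)) hzspan
      (g.coeff x / z.coeff x))
    rwa [sub_add_cancel] at h2

end Pool.Agent.Q18.FIR
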