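import Pool.Agent.Q18.FIR4

/-!
# Growing a basis along a subtree, and the main theorem
-/

namespace Pool.Agent.Q18.FIR

set_option linter.unusedSectionVars false

open Relation

variable {B : Type*} [DecidableEq B] {K : Type*} [Field K]

/-- good pairs -/
def Good (I : Submodule (AA K B)ᵐᵒᵖ (AA K B)) (T0 T : Set (FreeGroup B)) (G0 : Set (AA K B))
    (q : Set (FreeGroup B) × Set (AA K B)) : Prop :=
  (T0 ⊆ q.1 ∧ q.1 ⊆ T ∧ Conn q.1) ∧ (G0 ⊆ q.2 ∧ (∀ g ∈ q.2, g ∈ IT I q.1) ∧
    LinearIndepOn (AA K B)ᵐᵒᵖ id q.2 ∧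
    Submodule.span (AA K B)ᵐᵒᵖ q.2 = rspan (IT I q.1))

theorem good_chain {I : Submodule (AA K B)ᵐᵒᵖ (AA K B)} {T0 T : Set (FreeGroup B)}
    {G0 : Set (AA K B)} (c : Set (Set (FreeGroup B) × Set (AA K B)))
    (hc : ∀ q ∈ c, Good I T0 T G0 q) (hchain : IsChain (· ≤ ·) c)
    {y : Set (FreeGroup B) × Set (AA K B)} (hy : y ∈ c) :
    Good I T0 T G0 (⋃ q ∈ c, q.1, ⋃ q ∈ c, q.2) := by
  have hmem1 : ∀ x, x ∈ (⋃ q ∈ c, q.1) ↔ ∃ q ∈ c, x ∈ q.1 := by
    intro x; simp
  have hmem2 : ∀ x, x ∈ (⋃ q ∈ c, q.2) ↔ ∃ q ∈ c, x ∈ q.2 := by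
    intro x; simp
  have hsub1 : ∀ q ∈ c, q.1 ⊆ (⋃ q ∈ c, q.1) := fun q hq x hx => (hmem1 x).2 ⟨q, hq, hx⟩
  have hsub2 : ∀ q ∈ c, q.2 ⊆ (⋃ q ∈ c, q.2) := fun q hq x hx => (hmem2 x).2 ⟨q, hq, hx⟩
  have htwo : ∀ q1 ∈ c, ∀ q2 ∈ c, ∃ q ∈ c, q1 ≤ q ∧ q2 ≤ q := by
    intro q1 h1 q2 h2
    rcases hchain.total h1 h2 with h | h
    · exact ⟨q2, h2, h, le_refl _⟩
    · exact ⟨q1, h1, le_refl _, h⟩
  refine ⟨⟨?_, ?_, ?_⟩, ?_, ?_, ?_, ?_⟩
  · exact (hc y hy).1.1.trans (hsub1 y hy)
  · intro x hx
    obtain ⟨q, hq, hxq⟩ := (hmem1 x).1 hx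
    exact (hc q hq).1.2.1 hxq
  · intro s hs t ht
    obtain ⟨q1, h1, hs1⟩ := (hmem1 s).1 hs
    obtain ⟨q2, h2, ht2⟩ := (hmem1 t).1 ht
    obtain ⟨q, hq, hq1, hq2⟩ := htwo q1 h1 q2 h2
    exact mono_path (hsub1 q hq) ((hc q hq).1.2.2 s (hq1.1 hs1) t (hq2.1 ht2))
  · exact (hc y hy).2.1.trans (hsub2 y hy)
  · intro g hg
    obtain ⟨q, hq, hgq⟩ := (hmem2 g).1 hg
    exact IT_mono (hsub1 q hq) ((hc q hq).2.2.1 g hgq)
  · have hU : (⋃ q ∈ c, q.2) = ⋃₀ (Prod.snd '' c) := by
      ext x
      simp
    simp only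
    rw [hU]
    apply linearIndepOn_sUnion_of_directed
    · rintro _ ⟨q1, h1, rfl⟩ _ ⟨q2, h2, rfl⟩
      obtain ⟨q, hq, hq1, hq2⟩ := htwo q1 h1 q2 h2
      exact ⟨q.2, ⟨q, hq, rfl⟩, hq1.2, hq2.2⟩
    · rintro _ ⟨q, hq, rfl⟩
      exact (hc q hq).2.2.2.1
  · simp only
    apply le_antisymm
    · rw [Submodule.span_le]
      intro g hg
      obtain ⟨q, hq, hgq⟩ := (hmem2 g).1 hg
      exact le_rspan (IT_mono (hsub1 q hq) ((hc q hq).2.2.1 g hgq))
    · apply rspan_le
      rintro a ⟨haI, ha⟩
      have key : ∀ s : Finset (FreeGroup B), (∀ x ∈ s, x ∈ (⋃ q ∈ c, q.1)) →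
          ∃ q ∈ c, ∀ x ∈ s, x ∈ q.1 := by
        intro s
        induction s using Finset.induction_on with
        | empty => exact fun _ => ⟨y, hy, by simp⟩
        | insert b s hb ih =>
          intro h
          obtain ⟨q1, h1, h2⟩ := ih (fun x hx => h x (Finset.mem_insert_of_mem hx))
          obtain ⟨q2, h3, h4⟩ := (hmem1 b).1 (h b (Finset.mem_insert_self _ _))
          obtain ⟨q, hq, hq1, hq2⟩ := htwo q1 h1 q2 h3
          refine ⟨q, hq, fun x hx => ?_⟩
          rw [Finset.mem_insert] at hx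
          rcases hx with hx | hx
          · rw [hx]; exact hq2.1 h4
          · exact hq1.1 (h2 x hx)
      obtain ⟨q, hq, hq2⟩ := key a.coeff.support (fun x hx => ha x (Finsupp.mem_support_iff.1 hx))
      have h1 : a ∈ IT I q.1 := ⟨haI, fun x hx => hq2 x (Finsupp.mem_support_iff.2 hx)⟩
      have h2 : a ∈ Submodule.span (AA K B)ᵐᵒᵖ q.2 := by
        rw [(hc q hq).2.2.2.2]
        exact le_rspan h1
      exact Submodule.span_mono (hsub2 q hq) h2

/-- **Lemma L7.** -/
theorem L7 (I : Submodule (AA K B)ᵐᵒᵖ (AA K B)) {T0 T : Set (FreeGroup B)} (hT0 : Conn T0)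
    (hT : Conn T) (h0 : T0 ⊆ T) (hne : T0.Nonempty) (G0 : Set (AA K B))
    (hG0 : ∀ g ∈ G0, g ∈ IT I T0) (hli : LinearIndepOn (AA K B)ᵐᵒᵖ id G0)
    (hsp : Submodule.span (AA K B)ᵐᵒᵖ G0 = rspan (IT I T0)) :
    ∃ G : Set (AA K B), G0 ⊆ G ∧ (∀ g ∈ G, g ∈ IT I T) ∧
      LinearIndepOn (AA K B)ᵐᵒᵖ id G ∧ Submodule.span (AA K B)ᵐᵒᵖ G = rspan (IT I T) := by
  obtain ⟨⟨T1, G1⟩, -, hmax⟩ := zorn_le_nonempty₀ {q | Good I T0 T G0 q}
    (fun c hc hchain y hy => ⟨_, good_chain c hc hchain hy, fun z hz =>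
      ⟨Set.subset_biUnion_of_mem (u := fun q : Set (FreeGroup B) × Set (AA K B) => q.1) hz,
        Set.subset_biUnion_of_mem (u := fun q : Set (FreeGroup B) × Set (AA K B) => q.2) hz⟩⟩)
    (T0, G0) ⟨⟨subset_rfl, h0, hT0⟩, subset_rfl, hG0, hli, hsp⟩
  obtain ⟨⟨⟨h1, h2, h3⟩, h4, h5, h6, h7⟩, hmax'⟩ := hmax
  simp only at h1 h2 h3 h4 h5 h6 h7
  have hTT : T1 = T := by
    by_contra hneT
    obtain ⟨x0, hx0, hx0'⟩ : ∃ x0 ∈ T, x0 ∉ T1 := by
      by_contra hcon
      push Not at hcon
      exact hneT (h2.antisymm hcon)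
    obtain ⟨t0, ht0⟩ := hne
    obtain ⟨u, v, ⟨hu, hv, c, hc⟩, hPu, hPv⟩ :=
      exists_step (hT t0 (h0 ht0) x0 hx0) (fun t => t ∈ T1) (h1 ht0) hx0'
    have hconn' : Conn (insert v T1) := conn_insert h3 hPu hc
    have hsubT : insert v T1 ⊆ T := by
      rintro x (hx | hx)
      · rw [hx]; exact hv
      · exact h2 hx
    have hu' : v * (lt c)⁻¹ ∈ T1 := by
      rw [hc, mul_inv_cancel_right]
      exact hPu
    have hITle : IT I T1 ≤ IT I (insert v T1) := IT_mono (Set.subset_insert _ _)
    by_cases hall : ∀ g ∈ IT I (insert v T1), g ∈ rspan (IT I T1)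
    · have hgood : Good I T0 T G0 (insert v T1, G1) := by
        refine ⟨⟨h1.trans (Set.subset_insert _ _), hsubT, hconn'⟩, h4,
          fun g hg => hITle (h5 g hg), h6, ?_⟩
        simp only
        rw [h7]
        exact le_antisymm (rspan_mono hITle) (rspan_le hall)
      have := (hmax' hgood ⟨Set.subset_insert _ _, subset_rfl⟩).1
      exact hPv (this (Set.mem_insert _ _))
    · push Not at hall
      obtain ⟨g, hg, hgn⟩ := hall
      have hgv : g.coeff v ≠ 0 := by
        intro h0
        apply hgn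
        apply le_rspan
        refine ⟨hg.1, fun x hx => ?_⟩
        rcases hg.2 x hx with h | h
        · rw [h] at hx
          exact absurd h0 hx
        · exact h
      have hkey : ∀ a : AA K B, g * a ∈ rspan (IT I T1) → a = 0 := by
        intro a ha
        by_contra hne
        exact hgn (L6 h3 hPv hu' hg hgv hne ha)
      have hgood : Good I T0 T G0 (insert v T1, G1 ∪ {g}) := by
        refine ⟨⟨h1.trans (Set.subset_insert _ _), hsubT, hconn'⟩,
          h4.trans Set.subset_union_left, ?_, ?_, ?_⟩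
        · rintro x (hx | hx)
          · exact hITle (h5 x hx)
          · rw [Set.mem_singleton_iff] at hx
            rw [hx]; exact hg
        · apply LinearIndepOn.id_union h6
          · apply LinearIndepOn.singleton'
            intro r hr
            have : g * r.unop = 0 := hr
            have h8 := hkey r.unop (by rw [this]; exact Submodule.zero_mem _)
            exact (MulOpposite.unop_eq_zero_iff _).1 h8
          · rw [Submodule.disjoint_def]
            intro x hx1 hx2
            rw [Submodule.mem_span_singleton] at hx2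
            obtain ⟨r, rfl⟩ := hx2
            rw [h7] at hx1
            have h8 := hkey r.unop hx1
            have h9 : r = 0 := (MulOpposite.unop_eq_zero_iff _).1 h8
            rw [h9, zero_smul]
        · simp only
          apply le_antisymm
          · rw [Submodule.span_le]
            rintro x (hx | hx)
            · exact le_rspan (hITle (h5 x hx))
            · rw [Set.mem_singleton_iff] at hx
              rw [hx]; exact le_rspan hg
          · apply rspan_le
            intro a ha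
            have h8 : a - (a.coeff v / g.coeff v) • g ∈ IT I T1 := by
              have h9 : a - (a.coeff v / g.coeff v) • g ∈ IT I (insert v T1) :=
                Submodule.sub_mem _ ha (Submodule.smul_mem _ _ hg)
              refine ⟨h9.1, fun x hx => ?_⟩
              rcases h9.2 x hx with h | h
              · exfalso
                apply hx
                rw [h, MonoidAlgebra.coeff_sub, Finsupp.sub_apply, MonoidAlgebra.coeff_smul,
                  Finsupp.smul_apply, smul_eq_mul, div_mul_cancel₀ _ hgv, sub_self]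
              · exact h
            have h9 := le_rspan h8
            rw [← h7] at h9
            have h10 := Submodule.span_mono (Set.subset_union_left (t := {g})) h9
            have h11 : g ∈ Submodule.span (AA K B)ᵐᵒᵖ (G1 ∪ {g}) :=
              Submodule.subset_span (Or.inr rfl)
            have h12 := Submodule.add_mem _ h10 (smul_mem_r _ h11 (a.coeff v / g.coeff v))
            rwa [sub_add_cancel] at h12
      have := (hmax' hgood ⟨Set.subset_insert _ _, Set.subset_union_left⟩).1
      exact hPv (this (Set.mem_insert _ _))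
  subst hTT
  exact ⟨G1, h4, h5, h6, h7⟩

/-! ### finite bases -/

theorem FB_of_li {ι : Type*} [Fintype ι] {e : ι → AA K B} {P : Submodule (AA K B)ᵐᵒᵖ (AA K B)}
    (h1 : LinearIndependent (AA K B)ᵐᵒᵖ e) (h2 : Submodule.span (AA K B)ᵐᵒᵖ (Set.range e) = P) :
    FB e P := by
  constructor
  · intro p hp i
    have := Fintype.linearIndependent_iff.1 h1 (fun i => MulOpposite.op (p i)) hp i
    exact (MulOpposite.op_eq_zero_iff _).1 this
  · intro x
    rw [← h2, Submodule.mem_span_range_iff_exists_fun]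
    constructor
    · rintro ⟨c, hc⟩
      exact ⟨fun i => (c i).unop, hc.symm⟩
    · rintro ⟨p, hp⟩
      exact ⟨fun i => MulOpposite.op (p i), hp.symm⟩

theorem scalarTower : IsScalarTower K (AA K B)ᵐᵒᵖ (AA K B) := by
  constructor
  intro k r a
  have h1 : (k • r) • a = a * (k • r.unop) := rfl
  have h2 : r • a = a * r.unop := rfl
  rw [h1, h2, mul_smul_comm]

/-- a linearly independent set of elements supported on a finite set is finite -/
theorem finite_of_li {G : Set (AA K B)} {T : Set (FreeGroup B)} (hT : T.Finite)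
    (hG : ∀ g ∈ G, ∀ x, g.coeff x ≠ 0 → x ∈ T) (hli : LinearIndepOn (AA K B)ᵐᵒᵖ id G) :
    G.Finite := by
  have : IsScalarTower K (AA K B)ᵐᵒᵖ (AA K B) := scalarTower
  have : Finite T := hT
  have h1 : LinearIndependent K (fun g : G => (g : AA K B)) := by
    apply LinearIndependent.restrict_scalars (R := K) (K := (AA K B)ᵐᵒᵖ) _ hli
    intro a b hab
    have h2 : MulOpposite.unop (a • (1 : (AA K B)ᵐᵒᵖ)) = MulOpposite.unop (b • (1 : (AA K B)ᵐᵒᵖ)) :=
      congrArg _ hab
    have h3 : (a • (1 : AA K B)) = b • (1 : AA K B) := h2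
    have h4 := congrArg (fun z : AA K B => z.coeff 1) h3
    simpa [MonoidAlgebra.one_def, MonoidAlgebra.coeff_single] using h4
  let ρ : AA K B →ₗ[K] (T → K) :=
    { toFun := fun a x => a.coeff x
      map_add' := fun a b => by
        funext x
        rw [MonoidAlgebra.coeff_add, Finsupp.add_apply]
        rfl
      map_smul' := fun k a => by
        funext x
        rw [MonoidAlgebra.coeff_smul, Finsupp.smul_apply]
        rfl }
  have h2 : LinearIndependent K (ρ ∘ (fun g : G => (g : AA K B))) := by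
    apply h1.map
    rw [Submodule.disjoint_def]
    intro x hx1 hx2
    rw [LinearMap.mem_ker] at hx2
    have hx3 : x ∈ IT (⊤ : Submodule (AA K B)ᵐᵒᵖ (AA K B)) T := by
      have : Submodule.span K (Set.range (fun g : G => (g : AA K B))) ≤ IT ⊤ T := by
        rw [Submodule.span_le]
        rintro _ ⟨g, rfl⟩
        exact ⟨trivial, hG g g.2⟩
      exact this hx1
    ext y
    by_cases hy : y ∈ T
    · have h9 : x.coeff y = 0 := congrFun hx2 ⟨y, hy⟩
      rw [h9]
      simp
    · by_contra hne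
      apply hy
      apply hx3.2
      simpa using hne
  have h3 := h2.finite_of_isNoetherian
  exact Set.toFinite G

/-- **finitely generated right ideals have finite bases** -/
theorem fg_basis (P : Submodule (AA K B)ᵐᵒᵖ (AA K B)) (X : Finset (AA K B))
    (hX : Submodule.span (AA K B)ᵐᵒᵖ (X : Set (AA K B)) = P) :
    ∃ (n : ℕ) (e : Fin n → AA K B), FB e P := by
  classical
  obtain ⟨T1, hfin, hconn, -, h1T, hXT⟩ := finite_hull (conn_univ (B := B)) (Set.mem_univ 1)
    (X.biUnion (fun a => a.coeff.support)) (fun x _ => Set.mem_univ x)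
  have hspan : rspan (IT P T1) = P := by
    apply le_antisymm
    · exact rspan_le (fun a ha => ha.1)
    · rw [← hX]
      apply Submodule.span_le.2
      intro a ha
      apply le_rspan
      refine ⟨?_, fun x hx => ?_⟩
      · exact Submodule.subset_span ha
      · apply hXT
        rw [Finset.mem_biUnion]
        exact ⟨a, ha, Finsupp.mem_support_iff.2 hx⟩
  by_cases h1P : (1 : AA K B) ∈ P
  · refine ⟨1, fun _ => 1, ?_, ?_⟩
    · intro p hp i
      rw [Fin.sum_univ_one, one_mul] at hp
      rw [Subsingleton.elim i 0]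
      exact hp
    · intro x
      constructor
      · intro _
        exact ⟨fun _ => x, by rw [Fin.sum_univ_one, one_mul]⟩
      · rintro ⟨p, rfl⟩
        rw [Fin.sum_univ_one]
        exact mul_mem_r P h1P _
  · have hzero : ∀ a ∈ IT P {(1 : FreeGroup B)}, a = 0 := by
      rintro a ⟨haP, ha⟩
      have h2 : a = (a.coeff 1) • (1 : AA K B) := by
        ext x
        rw [MonoidAlgebra.coeff_smul, Finsupp.smul_apply, MonoidAlgebra.one_def,
          MonoidAlgebra.coeff_single, Finsupp.single_apply]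
        by_cases hx : 1 = x
        · rw [if_pos hx, ← hx]
          simp
        · rw [if_neg hx, smul_zero]
          by_contra hne
          exact hx (Set.mem_singleton_iff.1 (ha x hne)).symm
      by_contra hne
      have h3 : a.coeff 1 ≠ 0 := by
        intro h0
        rw [h0, zero_smul] at h2
        exact hne h2
      apply h1P
      have := smul_mem_r P haP (a.coeff 1)⁻¹
      rw [h2, smul_smul] at this
      have h4 : (a.coeff 1)⁻¹ * a.coeff 1 = 1 := inv_mul_cancel₀ h3
      have h5 : ((a.coeff 1 • (1 : AA K B)).coeff 1) = a.coeff 1 := by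
        simp [MonoidAlgebra.one_def, MonoidAlgebra.coeff_single]
      rw [h5, h4, one_smul] at this
      exact this
    obtain ⟨G, -, hG1, hG2, hG3⟩ := L7 P (conn_singleton (1 : FreeGroup B)) hconn
      (by simpa using h1T) (Set.singleton_nonempty _) ∅ (by simp) (linearIndepOn_empty _ _) (by
        rw [Submodule.span_empty]
        symm
        rw [eq_bot_iff]
        apply rspan_le
        intro a ha
        rw [hzero a ha]
        exact Submodule.zero_mem _)
    have hGfin : G.Finite := finite_of_li hfin (fun g hg => (hG1 g hg).2) hG2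
    obtain ⟨n, f, hf⟩ := hGfin.fin_embedding
    refine ⟨n, f, FB_of_li ?_ ?_⟩
    · apply LinearIndependent.of_linearIndepOn_id_range f.injective
      rw [hf]
      exact hG2
    · rw [hf, hG3, hspan]

end Pool.Agent.Q18.FIR
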