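import Pool.Agent.Q18.FIR5

/-!
# The main theorem
-/

namespace Pool.Agent.Q18.FIR

set_option linter.unusedSectionVars false

variable {B : Type*} [DecidableEq B] {K : Type*} [Field K]

/-- the projection along `f A` of the elements supported on `T` -/
def VQ (I Q : Submodule (AA K B)ᵐᵒᵖ (AA K B)) (T : Set (FreeGroup B)) (f : AA K B) :
    Submodule K (AA K B) where
  carrier := {q | q ∈ Q ∧ ∃ p, f * p + q ∈ IT I T}
  add_mem' := by
    rintro a b ⟨ha, p, hp⟩ ⟨hb, p', hp'⟩
    refine ⟨Q.add_mem ha hb, p + p', ?_⟩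
    have : f * (p + p') + (a + b) = (f * p + a) + (f * p' + b) := by
      rw [mul_add]
      abel
    rw [this]
    exact Submodule.add_mem _ hp hp'
  zero_mem' := ⟨Q.zero_mem, 0, by rw [mul_zero, add_zero]; exact Submodule.zero_mem _⟩
  smul_mem' := by
    rintro k a ⟨ha, p, hp⟩
    refine ⟨smul_mem_r Q ha k, k • p, ?_⟩
    rw [mul_smul_comm, ← smul_add]
    exact Submodule.smul_mem _ _ hp

theorem star_VQ {I Q : Submodule (AA K B)ᵐᵒᵖ (AA K B)} {T : Set (FreeGroup B)} (hT : Conn T)
    {f : AA K B} (hf : f ∈ IT I T) : STAR (VQ I Q T f) := by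
  classical
  intro r hr h0 y d
  have hch : ∀ h, ∃ p, f * p + r h ∈ IT I T := fun h => (hr h).2
  choose p hp using hch
  set Pf : FreeGroup B →₀ AA K B := ∑ h ∈ r.support, Finsupp.single h (p h) with hPf
  set fPf : FreeGroup B →₀ AA K B := ∑ h ∈ r.support, Finsupp.single h (f * p h) with hfPf
  set ρ := Phi (fun _ => True) Pf with hρ
  have hPhi : ∀ S : FreeGroup B → Prop, Phi S fPf = f * Phi S Pf := by
    intro S
    rw [hPf, hfPf, map_sum, map_sum, Finset.mul_sum]
    apply Finset.sum_congr rfl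
    intro h _
    by_cases hS : S h
    · rw [Phi_single_pos hS, Phi_single_pos hS, mul_assoc]
    · rw [Phi_single_neg hS, Phi_single_neg hS, mul_zero]
  set R : FreeGroup B →₀ AA K B := fPf + r - sp f ρ with hR
  have hRV : ∀ h, R h ∈ IT I T := by
    intro h
    rw [hR, Finsupp.sub_apply, Finsupp.add_apply, sp_apply]
    apply Submodule.sub_mem _ _ (Submodule.smul_mem _ _ hf)
    have h1 : fPf h = if h ∈ r.support then f * p h else 0 := by
      rw [hfPf, Finsupp.finsetSum_apply]
      simp only [Finsupp.single_apply]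
      rw [Finset.sum_ite_eq']
    rw [h1]
    by_cases hh : h ∈ r.support
    · rw [if_pos hh]
      exact hp h
    · rw [if_neg hh, zero_add, Finsupp.notMem_support_iff.1 hh]
      exact Submodule.zero_mem _
  have hR0 : Phi (fun _ => True) R = 0 := by
    rw [hR, map_sub, map_add, hPhi, h0, add_zero, Phi_sp, res_true, ← hρ, sub_self]
  have hmain := star_IT hT R hRV hR0 y d
  refine ⟨mul_mem_r Q (Phi_mem _ (fun h => (hr h).1)) _,
    (Phi (SD y {d}) Pf - res (SD y {d}) ρ) * dl y⁻¹, ?_⟩
  have h2 : f * ((Phi (SD y {d}) Pf - res (SD y {d}) ρ) * dl y⁻¹) + Phi (SD y {d}) r * dl y⁻¹ =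
      Phi (SD y {d}) R * dl y⁻¹ := by
    rw [hR, map_sub, map_add, hPhi, Phi_sp, ← mul_assoc, ← add_mul]
    congr 1
    rw [mul_sub]
    abel
  rw [h2]
  exact hmain

/-- elements supported on a finite set form a finite dimensional space -/
theorem fg_IT (I : Submodule (AA K B)ᵐᵒᵖ (AA K B)) {T : Set (FreeGroup B)} (hT : T.Finite) :
    ∃ S : Finset (AA K B), Submodule.span K (S : Set (AA K B)) = IT I T := by
  have : Finite T := hT
  let ρ : IT I T →ₗ[K] (T → K) :=
    { toFun := fun a x => (a : AA K B).coeff x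
      map_add' := fun a b => by
        funext x
        simp [MonoidAlgebra.coeff_add, Finsupp.add_apply]
      map_smul' := fun k a => by
        funext x
        simp [MonoidAlgebra.coeff_smul, Finsupp.smul_apply] }
  have hinj : Function.Injective ρ := by
    intro a b hab
    apply Subtype.ext
    ext x
    by_cases hx : x ∈ T
    · exact congrFun hab ⟨x, hx⟩
    · have h1 : (a : AA K B).coeff x = 0 := by
        by_contra hne
        exact hx (a.2.2 x hne)
      have h2 : (b : AA K B).coeff x = 0 := by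
        by_contra hne
        exact hx (b.2.2 x hne)
      rw [h1, h2]
  have h1 : Module.Finite K (IT I T) := Module.Finite.of_injective ρ hinj
  exact Module.Finite.iff_fg.1 h1

/-- **Main theorem.** -/
theorem main {T : Set (FreeGroup B)} (hT : Conn T) (hTne : T.Nonempty)
    {I : Submodule (AA K B)ᵐᵒᵖ (AA K B)} (hI : rspan (IT I T) = I) {f : AA K B}
    (hfT : ∀ x, f.coeff x ≠ 0 → x ∈ T) {s : Set (AA K B)}
    (hs : LinearIndepOn (AA K B)ᵐᵒᵖ id s) (hsp : Submodule.span (AA K B)ᵐᵒᵖ s = I)
    (hfs : f ∈ s) :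
    ∃ G : Set (AA K B), f ∈ G ∧ (∀ g ∈ G, ∀ x, g.coeff x ≠ 0 → x ∈ T) ∧
      LinearIndepOn (AA K B)ᵐᵒᵖ id G ∧ Submodule.span (AA K B)ᵐᵒᵖ G = I := by
  classical
  set Q := Submodule.span (AA K B)ᵐᵒᵖ (s \ {f}) with hQ
  have hfI : f ∈ I := by
    rw [← hsp]
    exact Submodule.subset_span hfs
  have hQI : Q ≤ I := by
    rw [← hsp]
    exact Submodule.span_mono Set.sdiff_subset
  have hdec : ∀ x ∈ I, ∃ p, ∃ q ∈ Q, x = f * p + q := by
    intro x hx
    rw [← hsp, ← Set.insert_eq_of_mem hfs, ← Set.insert_sdiff_singleton,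
      Submodule.mem_span_insert] at hx
    obtain ⟨a, z, hz, rfl⟩ := hx
    exact ⟨a.unop, z, hz, rfl⟩
  have huniq : ∀ p, f * p ∈ Q → p = 0 := by
    intro p hp
    have := hs.eq_zero_of_smul_mem_span hfs (MulOpposite.op p) (by
      rw [Set.image_id]
      exact hp)
    exact (MulOpposite.op_eq_zero_iff _).1 this
  obtain ⟨t, ht⟩ := hTne
  obtain ⟨T0, hfin, hconn, h0T, ht0, hsupp⟩ := finite_hull hT ht f.coeff.support
    (fun x hx => hfT x (Finsupp.mem_support_iff.1 hx))
  have hf0 : f ∈ IT I T0 := ⟨hfI, fun x hx => hsupp x (Finsupp.mem_support_iff.2 hx)⟩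
  set V := VQ I Q T0 f with hV
  have hstar : STAR V := star_VQ hconn hf0
  -- V generates a finitely generated right ideal
  obtain ⟨S, hS⟩ := fg_IT I hfin
  have hchS : ∀ y : S, ∃ q : AA K B, q ∈ Q ∧ ∃ p, (y : AA K B) = f * p + q := by
    intro y
    have hyI : (y : AA K B) ∈ I := by
      have : (y : AA K B) ∈ IT I T0 := by
        rw [← hS]
        exact Submodule.subset_span y.2
      exact this.1
    obtain ⟨p, q, hq, h⟩ := hdec _ hyI
    exact ⟨q, hq, p, h⟩
  choose qS hqS pS hpS using hchS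
  have hqV : ∀ y : S, qS y ∈ V := by
    intro y
    refine ⟨hqS y, pS y, ?_⟩
    rw [← hpS y, ← hS]
    exact Submodule.subset_span y.2
  set X : Finset (AA K B) := Finset.univ.image qS with hX
  have hXV : Submodule.span (AA K B)ᵐᵒᵖ (X : Set (AA K B)) ≤ rspan V := by
    rw [Submodule.span_le]
    intro q hq
    rw [hX, Finset.coe_image] at hq
    obtain ⟨y, -, rfl⟩ := hq
    exact le_rspan (hqV y)
  have hVQ : rspan V ≤ Q := rspan_le (fun a ha => ha.1)
  have hXspan : Submodule.span (AA K B)ᵐᵒᵖ (X : Set (AA K B)) = rspan V := by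
    apply le_antisymm hXV
    apply rspan_le
    rintro q ⟨hq, p, hpq⟩
    have hclaim : ∀ z ∈ Submodule.span K (S : Set (AA K B)), ∃ p',
        ∃ q' ∈ Submodule.span (AA K B)ᵐᵒᵖ (X : Set (AA K B)), z = f * p' + q' := by
      intro z hz
      induction hz using Submodule.span_induction with
      | mem z hz =>
        refine ⟨pS ⟨z, hz⟩, qS ⟨z, hz⟩, Submodule.subset_span ?_, hpS ⟨z, hz⟩⟩
        rw [hX, Finset.coe_image]
        exact ⟨⟨z, hz⟩, by simp, rfl⟩
      | zero => exact ⟨0, 0, Submodule.zero_mem _, by rw [mul_zero, add_zero]⟩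
      | add x y _ _ hx hy =>
        obtain ⟨p1, q1, h1, rfl⟩ := hx
        obtain ⟨p2, q2, h2, rfl⟩ := hy
        refine ⟨p1 + p2, q1 + q2, Submodule.add_mem _ h1 h2, ?_⟩
        rw [mul_add]
        abel
      | smul k x _ hx =>
        obtain ⟨p1, q1, h1, rfl⟩ := hx
        refine ⟨k • p1, k • q1, smul_mem_r _ h1 k, ?_⟩
        rw [mul_smul_comm, smul_add]
    rw [← hS] at hpq
    obtain ⟨p', q', hq', heq⟩ := hclaim _ hpq
    have h1 : f * (p' - p) = q - q' := by
      rw [mul_sub]
      have : f * p' = f * p + q - q' := eq_sub_of_add_eq heq.symm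
      rw [this]
      abel
    have h2 : p' - p = 0 := by
      apply huniq
      rw [h1]
      exact Q.sub_mem hq (hVQ (hXV hq'))
    rw [h2, mul_zero] at h1
    rw [sub_eq_zero.1 h1.symm]
    exact hq'
  obtain ⟨n, e, he⟩ := fg_basis (rspan V) X hXspan
  obtain ⟨e', he', heV⟩ := L4 hstar e he
  have hchE : ∀ i, ∃ p, f * p + e' i ∈ IT I T0 := fun i => (heV i).2
  choose pe hpe using hchE
  set F : Option (Fin n) → AA K B := fun o => o.elim f (fun i => f * pe i + e' i) with hF
  have hFT0 : ∀ o, F o ∈ IT I T0 := by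
    intro o
    cases o with
    | none => exact hf0
    | some i => exact hpe i
  have hFli : LinearIndependent (AA K B)ᵐᵒᵖ F := by
    rw [Fintype.linearIndependent_iff]
    intro g hg
    rw [Fintype.sum_option] at hg
    have h1 : f * (g none).unop + ∑ i, (f * pe i + e' i) * (g (some i)).unop = 0 := hg
    have h2 : ∑ i, (f * pe i + e' i) * (g (some i)).unop =
        f * ∑ i, pe i * (g (some i)).unop + ∑ i, e' i * (g (some i)).unop := by
      rw [Finset.mul_sum, ← Finset.sum_add_distrib]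
      apply Finset.sum_congr rfl
      intro i _
      rw [add_mul, mul_assoc]
    rw [h2] at h1
    have h3 : f * ((g none).unop + ∑ i, pe i * (g (some i)).unop) =
        - ∑ i, e' i * (g (some i)).unop := by
      rw [mul_add]
      exact eq_neg_of_add_eq_zero_left (by rw [← h1]; abel)
    have h4 : ∑ i, e' i * (g (some i)).unop ∈ Q :=
      hVQ ((he'.gen _).2 ⟨_, rfl⟩)
    have h5 := huniq _ (by rw [h3]; exact Q.neg_mem h4)
    rw [h5, mul_zero] at h3
    have h6 : ∑ i, e' i * (g (some i)).unop = 0 := neg_eq_zero.1 h3.symm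
    have h7 := he'.ind _ h6
    intro o
    cases o with
    | none =>
      have h8 : ∑ i, pe i * (g (some i)).unop = 0 := by
        apply Finset.sum_eq_zero
        intro i _
        rw [h7 i, mul_zero]
      rw [h8, add_zero] at h5
      exact (MulOpposite.unop_eq_zero_iff _).1 h5
    | some i => exact (MulOpposite.unop_eq_zero_iff _).1 (h7 i)
  have hFsp : Submodule.span (AA K B)ᵐᵒᵖ (Set.range F) = rspan (IT I T0) := by
    apply le_antisymm
    · rw [Submodule.span_le]
      rintro _ ⟨o, rfl⟩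
      exact le_rspan (hFT0 o)
    · apply rspan_le
      intro a ha
      obtain ⟨p, q, hq, heq⟩ := hdec a ha.1
      have hqV : q ∈ V := ⟨hq, p, by rw [← heq]; exact ha⟩
      obtain ⟨b, hb⟩ := (he'.gen q).1 (le_rspan hqV)
      have h1 : a = f * (p - ∑ i, pe i * b i) + ∑ i, (f * pe i + e' i) * b i := by
        have h2 : ∑ i, (f * pe i + e' i) * b i = f * ∑ i, pe i * b i + ∑ i, e' i * b i := by
          rw [Finset.mul_sum, ← Finset.sum_add_distrib]
          apply Finset.sum_congr rfl
          intro i _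
          rw [add_mul, mul_assoc]
        rw [h2, heq, hb, mul_sub]
        abel
      rw [h1]
      apply Submodule.add_mem
      · apply mul_mem_r
        exact Submodule.subset_span ⟨none, rfl⟩
      · apply Submodule.sum_mem
        intro i _
        apply mul_mem_r
        exact Submodule.subset_span ⟨some i, rfl⟩
  obtain ⟨G, hG1, hG2, hG3, hG4⟩ := L7 I hconn hT h0T ⟨t, ht0⟩ (Set.range F)
    (by rintro _ ⟨o, rfl⟩; exact hFT0 o) hFli.linearIndepOn_id hFsp
  exact ⟨G, hG1 ⟨none, rfl⟩, fun g hg => (hG2 g hg).2, hG3, by rw [hG4, hI]⟩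

end Pool.Agent.Q18.FIR
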