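import Mathlib

/-!
Three-cycles in a permutation group: the relation `Rel` (some three-cycle of `H` moves both points) is an
equivalence relation, and commuting involutions `Sub π`.
-/

namespace Pool.Agent.Q18.Gal

open Equiv

set_option linter.unusedSectionVars false

variable {α : Type*} [DecidableEq α]

/-- the three-cycle `a → b → c → a` -/
def cyc (a b c : α) : Perm α := swap a b * swap b c

theorem conj_swap (σ : Perm α) (a b : α) : σ * swap a b * σ⁻¹ = swap (σ a) (σ b) := by
  rw [Equiv.swap_apply_apply]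

theorem conj_cyc (σ : Perm α) (a b c : α) : σ * cyc a b c * σ⁻¹ = cyc (σ a) (σ b) (σ c) := by
  unfold cyc
  rw [← conj_swap, ← conj_swap]
  group

theorem cyc_fst {a b c : α} (hab : a ≠ b) (hac : a ≠ c) : cyc a b c a = b := by
  unfold cyc
  rw [Perm.mul_apply, swap_apply_of_ne_of_ne hab hac, swap_apply_left]

theorem cyc_snd {a b c : α} (hac : a ≠ c) (hbc : b ≠ c) : cyc a b c b = c := by
  unfold cyc
  rw [Perm.mul_apply, swap_apply_left, swap_apply_of_ne_of_ne hac.symm hbc.symm]

theorem cyc_trd (a b c : α) : cyc a b c c = a := by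
  unfold cyc
  rw [Perm.mul_apply, swap_apply_right, swap_apply_right]

theorem cyc_other {a b c x : α} (ha : x ≠ a) (hb : x ≠ b) (hc : x ≠ c) : cyc a b c x = x := by
  unfold cyc
  rw [Perm.mul_apply, swap_apply_of_ne_of_ne hb hc, swap_apply_of_ne_of_ne ha hb]

theorem cyc_inv (a b c : α) : (cyc a b c)⁻¹ = cyc c b a := by
  unfold cyc
  rw [mul_inv_rev, swap_inv, swap_inv, swap_comm b c, swap_comm a b]

theorem cyc_rot {a b c : α} (hab : a ≠ b) (hac : a ≠ c) : cyc a b c = cyc b c a := by
  unfold cyc
  have h : swap b c * swap a b * (swap b c)⁻¹ = swap a c := by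
    rw [conj_swap, swap_apply_of_ne_of_ne hab hac, swap_apply_left]
  have h2 : swap a b * swap b c = swap b c * (swap b c * swap a b * (swap b c)⁻¹) := by
    rw [swap_inv]
    have h3 : swap b c * swap b c = 1 := swap_mul_self b c
    calc swap a b * swap b c = (swap b c * swap b c) * swap a b * swap b c := by rw [h3, one_mul]
      _ = _ := by group
  rw [h2, h, swap_comm c a]

theorem cyc_sq {a b c : α} (hab : a ≠ b) (hac : a ≠ c) (hbc : b ≠ c) :
    cyc a b c * cyc a b c = (cyc a b c)⁻¹ := by
  rw [cyc_inv]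
  ext x
  rw [Perm.mul_apply]
  by_cases h1 : x = a
  · subst h1
    rw [cyc_fst hab hac, cyc_snd hac hbc, cyc_trd]
  by_cases h2 : x = b
  · subst h2
    rw [cyc_snd hac hbc, cyc_trd, cyc_snd hac.symm hab.symm]
  by_cases h3 : x = c
  · subst h3
    rw [cyc_trd, cyc_fst hab hac, cyc_fst hbc.symm hac.symm]
  rw [cyc_other h1 h2 h3, cyc_other h1 h2 h3, cyc_other h3 h2 h1]

/-- some three-cycle of `H` moves both points (or they are equal) -/
def Rel (H : Subgroup (Perm α)) (i j : α) : Prop :=
  i = j ∨ ∃ x, i ≠ j ∧ x ≠ i ∧ x ≠ j ∧ cyc i j x ∈ H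

theorem Rel.symm {H : Subgroup (Perm α)} {i j : α} (h : Rel H i j) : Rel H j i := by
  rcases h with h | ⟨x, hij, hxi, hxj, hc⟩
  · exact Or.inl h.symm
  · refine Or.inr ⟨x, hij.symm, hxj, hxi, ?_⟩
    have h1 := H.inv_mem hc
    rw [cyc_inv, cyc_rot hxj hxi] at h1
    exact h1

theorem Rel.trans {H : Subgroup (Perm α)} {i j l : α} (h : Rel H i j) (h' : Rel H j l) :
    Rel H i l := by
  by_cases hil : i = l
  · exact Or.inl hil
  rcases h with h | ⟨x, hij, hxi, hxj, hc⟩
  · subst h
    exact h'
  rcases h' with h' | ⟨y, hjl, hyj, hyl, hc'⟩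
  · subst h'
    exact Or.inr ⟨x, hij, hxi, hxj, hc⟩
  by_cases hiy : i = y
  · subst hiy
    -- `cyc j l i ∈ H`
    have h1 : Rel H l i := Or.inr ⟨j, fun h => hil h.symm, hjl, fun h => hij h.symm, by
      rw [← cyc_rot hjl hyj.symm]
      exact hc'⟩
    exact h1.symm
  · have h1 := H.mul_mem (H.mul_mem hc' hc) (H.inv_mem hc')
    rw [conj_cyc, cyc_other hij hil hiy, cyc_fst hjl hyj.symm] at h1
    refine Or.inr ⟨cyc j l y x, hil, ?_, ?_, h1⟩
    · intro h
      apply hxi
      apply (cyc j l y).injective
      rw [h, cyc_other hij hil hiy]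
    · intro h
      apply hxj
      apply (cyc j l y).injective
      rw [h, cyc_fst hjl hyj.symm]

theorem Rel.map {H : Subgroup (Perm α)} {i j : α} (h : Rel H i j) {σ : Perm α} (hσ : σ ∈ H) :
    Rel H (σ i) (σ j) := by
  rcases h with h | ⟨x, hij, hxi, hxj, hc⟩
  · exact Or.inl (by rw [h])
  · refine Or.inr ⟨σ x, fun h => hij (σ.injective h), fun h => hxi (σ.injective h),
      fun h => hxj (σ.injective h), ?_⟩
    rw [← conj_cyc]
    exact H.mul_mem (H.mul_mem hσ hc) (H.inv_mem hσ)

/-- three-cycles inside a class belong to `H` -/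
theorem Rel.three {H : Subgroup (Perm α)} {i j l : α} (h : Rel H i j) (h' : Rel H j l)
    (hij : i ≠ j) (hjl : j ≠ l) (hil : i ≠ l) : cyc i j l ∈ H := by
  rcases h with h | ⟨x, _, hxi, hxj, hc⟩
  · exact absurd h hij
  rcases h' with h' | ⟨y, _, hyj, hyl, hc'⟩
  · exact absurd h' hjl
  by_cases hxl : x = l
  · rw [← hxl]; exact hc
  by_cases hyi : y = i
  · subst hyi
    rw [cyc_rot hij hil]
    exact hc'
  have h1 := H.mul_mem (H.mul_mem hc' hc) (H.inv_mem hc')
  rw [conj_cyc, cyc_other hij hil (fun h => hyi h.symm), cyc_fst hjl hyj.symm] at h1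
  by_cases hxy : x = y
  · subst hxy
    rw [cyc_trd] at h1
    have h2 := H.inv_mem h1
    rw [cyc_inv, cyc_rot hjl hij.symm] at h2
    rw [cyc_rot hij hil, cyc_rot hjl hij.symm]
    exact h2
  · rw [cyc_other hxj hxl hxy] at h1
    have h2 := H.mul_mem (H.mul_mem h1 hc) (H.inv_mem h1)
    rw [conj_cyc, cyc_fst hil (fun h => hxi h.symm),
      cyc_other (fun h => hij h.symm) hjl (fun h => hxj h.symm), cyc_trd] at h2
    have h3 := H.inv_mem h2
    rw [cyc_inv] at h3
    exact h3

/-- `σ` agrees at every point with the identity or with `π` -/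
def Sub (π σ : Perm α) : Prop := ∀ i, σ i = i ∨ σ i = π i

theorem Sub.sq {π σ : Perm α} (hπ : π * π = 1) (h : Sub π σ) : σ * σ = 1 := by
  have hπ' : ∀ i, π (π i) = i := fun i => by
    rw [← Perm.mul_apply, hπ, Perm.one_apply]
  ext i
  rw [Perm.mul_apply, Perm.one_apply]
  rcases h i with h1 | h1
  · rw [h1, h1]
  · rcases h (π i) with h2 | h2
    · have h3 : π i = i := by
        apply σ.injective
        rw [h2, h1]
      rw [h1, h2, h3]
    · rw [h1, h2, hπ']

theorem Sub.mul {π σ τ : Perm α} (hπ : π * π = 1) (h : Sub π σ) (h' : Sub π τ) :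
    Sub π (σ * τ) := by
  have hπ' : ∀ i, π (π i) = i := fun i => by
    rw [← Perm.mul_apply, hπ, Perm.one_apply]
  intro i
  rw [Perm.mul_apply]
  rcases h' i with h1 | h1
  · rw [h1]
    exact h i
  · rw [h1]
    rcases h (π i) with h2 | h2
    · exact Or.inr h2
    · left
      rw [h2, hπ']

theorem Sub.fix {π σ : Perm α} (h : Sub π σ) {a : α} (ha : π a = a) : σ a = a := by
  rcases h a with h1 | h1
  · exact h1
  · rw [h1, ha]

theorem commute_swap {s : Perm α} {a b : α} (ha : s a = a) (hb : s b = b) :
    Commute s (swap a b) := by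
  have h := conj_swap s a b
  rw [ha, hb] at h
  exact (mul_inv_eq_iff_eq_mul.1 h)

theorem commute_cyc {s : Perm α} {a b c : α} (ha : s a = a) (hb : s b = b) (hc : s c = c) :
    Commute s (cyc a b c) := (commute_swap ha hb).mul_right (commute_swap hb hc)

/-- two forbidden edges with a common end give a three-cycle -/
theorem forbidden {H : Subgroup (Perm α)} {π : Perm α} (hπ : π * π = 1) {a b c : α}
    (ha : π a = a) (hb : π b = b) (hc : π c = c) (hab : a ≠ b) (hac : a ≠ c) (hbc : b ≠ c)
    {s s' : Perm α} (hs : Sub π s) (hs' : Sub π s') (h : s * swap a b ∈ H)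
    (h' : s' * swap a c ∈ H) : cyc b a c ∈ H := by
  have hv : swap a b * swap a c = cyc b a c := by
    unfold cyc
    rw [swap_comm a b]
  have hp := H.mul_mem h h'
  have hu := (hs.mul hπ hs').sq hπ
  have h1 : s * swap a b * (s' * swap a c) = (s * s') * cyc b a c := by
    have h2 := commute_swap (hs'.fix ha) (hs'.fix hb)
    calc s * swap a b * (s' * swap a c) = s * (swap a b * s') * swap a c := by group
      _ = s * (s' * swap a b) * swap a c := by rw [h2.eq]
      _ = (s * s') * (swap a b * swap a c) := by group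
      _ = _ := by rw [hv]
  rw [h1] at hp
  have h2 : Commute (s * s') (cyc b a c) :=
    commute_cyc ((hs.mul hπ hs').fix hb) ((hs.mul hπ hs').fix ha) ((hs.mul hπ hs').fix hc)
  have h3 := H.mul_mem hp hp
  have h4 : s * s' * cyc b a c * (s * s' * cyc b a c) = (cyc b a c)⁻¹ := by
    calc s * s' * cyc b a c * (s * s' * cyc b a c)
        = s * s' * (cyc b a c * (s * s')) * cyc b a c := by group
      _ = s * s' * ((s * s') * cyc b a c) * cyc b a c := by rw [h2.eq]
      _ = (s * s' * (s * s')) * (cyc b a c * cyc b a c) := by group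
      _ = _ := by rw [hu, one_mul, cyc_sq hab.symm hbc hac]
  rw [h4] at h3
  exact (H.inv_mem_iff).1 h3

/-- adding a pair to an involution -/
theorem add_sq {π : Perm α} (hπ : π * π = 1) {a b : α} (ha : π a = a) (hb : π b = b) :
    (π * swap a b) * (π * swap a b) = 1 := by
  have h := commute_swap ha hb
  calc (π * swap a b) * (π * swap a b) = π * (swap a b * π) * swap a b := by group
    _ = π * (π * swap a b) * swap a b := by rw [h.eq]
    _ = (π * π) * (swap a b * swap a b) := by group
    _ = 1 := by rw [hπ, swap_mul_self, one_mul]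

theorem add_left {π : Perm α} {a b : α} (hb : π b = b) :
    (π * swap a b) a = b := by
  rw [Perm.mul_apply, swap_apply_left, hb]

theorem add_right {π : Perm α} {a b : α} (ha : π a = a) :
    (π * swap a b) b = a := by
  rw [Perm.mul_apply, swap_apply_right, ha]

theorem add_other {π : Perm α} {a b i : α} (h1 : i ≠ a) (h2 : i ≠ b) :
    (π * swap a b) i = π i := by
  rw [Perm.mul_apply, swap_apply_of_ne_of_ne h1 h2]

theorem add_fix [Fintype α] {π : Perm α} {a b : α} (ha : π a = a) (hb : π b = b) (hab : a ≠ b) :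
    (Finset.univ.filter (fun i => (π * swap a b) i = i)) =
      ((Finset.univ.filter (fun i => π i = i)).erase a).erase b := by
  ext i
  rw [Finset.mem_erase, Finset.mem_erase, Finset.mem_filter, Finset.mem_filter]
  by_cases h1 : i = a
  · subst h1
    rw [add_left hb]
    simp [hab.symm]
  by_cases h2 : i = b
  · subst h2
    rw [add_right ha]
    simp [hab]
  rw [add_other h1 h2]
  simp [h1, h2]

theorem add_fix_card [Fintype α] {π : Perm α} {a b : α} (ha : π a = a) (hb : π b = b)
    (hab : a ≠ b) :
    (Finset.univ.filter (fun i => (π * swap a b) i = i)).card + 2 =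
      (Finset.univ.filter (fun i => π i = i)).card := by
  rw [add_fix ha hb hab]
  have h1 : a ∈ Finset.univ.filter (fun i => π i = i) := by simp [ha]
  have h2 : b ∈ (Finset.univ.filter (fun i => π i = i)).erase a := by simp [hb, hab.symm]
  have h3 := Finset.card_erase_add_one h1
  have h4 := Finset.card_erase_add_one h2
  omega

/-- elements of `Sub (π * swap a b)` -/
theorem sub_add {π σ : Perm α} {a b : α} (ha : π a = a) (hb : π b = b)
    (h : Sub (π * swap a b) σ) : Sub π σ ∨ Sub π (σ * swap a b) := by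
  have h1 := h a
  have h2 := h b
  rw [add_left hb] at h1
  rw [add_right ha] at h2
  rcases h1 with h1 | h1
  · left
    have h3 : σ b = b := by
      rcases h2 with h2 | h2
      · exact h2
      · have := σ.injective (h2.trans h1.symm)
        rw [this, h1]
    intro i
    by_cases hia : i = a
    · left; rw [hia, h1]
    by_cases hib : i = b
    · left; rw [hib, h3]
    rw [← add_other hia hib (π := π)]
    exact h i
  · right
    have h3 : σ b = a := by
      rcases h2 with h2 | h2
      · have := σ.injective (h2.trans h1.symm)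
        rw [h2, this]
      · exact h2
    intro i
    by_cases hia : i = a
    · left; rw [hia, Perm.mul_apply, swap_apply_left, h3]
    by_cases hib : i = b
    · left; rw [hib, Perm.mul_apply, swap_apply_right, h1]
    rw [Perm.mul_apply, swap_apply_of_ne_of_ne hia hib, ← add_other hia hib (π := π)]
    exact h i

end Pool.Agent.Q18.Gal
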