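import Pool.Agent.Q18.Gal1

/-!
The orbit closure of a permutation group over `k` colours: if `n ≥ 2 (n - k) + 1` and the closure
is larger than `G`, there is a set `B` of more than `k` points, invariant under `G`, such that `G`
contains all three-cycles on `B` and no transposition on `B`.
-/

namespace Pool.Agent.Q18.Gal

open Equiv Finset

set_option linter.unusedSectionVars false

variable {n : ℕ}

/-- the orbit closure of `G` over `k` colours -/
def clo (k : ℕ) (G : Subgroup (Perm (Fin n))) : Subgroup (Perm (Fin n)) where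
  carrier := {σ | ∀ a : Fin n → Fin k, ∃ g ∈ G, (fun i => a (σ i)) = fun i => a (g i)}
  one_mem' a := ⟨1, G.one_mem, rfl⟩
  mul_mem' := by
    intro σ τ h1 h2 a
    obtain ⟨g1, hg1, e1⟩ := h1 a
    obtain ⟨g2, hg2, e2⟩ := h2 (fun i => a (σ i))
    refine ⟨g1 * g2, G.mul_mem hg1 hg2, ?_⟩
    funext i
    have h3 := congrFun e2 i
    have h4 : a (σ (g2 i)) = a (g1 (g2 i)) := congrFun e1 (g2 i)
    have h5 : a (σ (τ i)) = a (σ (g2 i)) := h3
    change a (σ (τ i)) = a (g1 (g2 i))
    rw [h5, h4]
  inv_mem' := by
    intro σ h a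
    obtain ⟨g, hg, e⟩ := h (fun i => a (σ⁻¹ i))
    refine ⟨g⁻¹, G.inv_mem hg, ?_⟩
    funext i
    have h3 := congrFun e (g⁻¹ i)
    simpa using h3.symm

theorem mem_clo {k : ℕ} {G : Subgroup (Perm (Fin n))} {σ : Perm (Fin n)} :
    σ ∈ clo k G ↔ ∀ a : Fin n → Fin k, ∃ g ∈ G, (fun i => a (σ i)) = fun i => a (g i) := Iff.rfl

theorem le_clo (k : ℕ) (G : Subgroup (Perm (Fin n))) : G ≤ clo k G := fun g hg _ => ⟨g, hg, rfl⟩

theorem half {π : Perm (Fin n)} (hπ : π * π = 1) {m : ℕ}
    (h : (univ.filter (fun i => π i = i)).card + 2 * m = n) :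
    (univ.filter (fun i => π i < i)).card = m := by
  have hπ' : ∀ i, π (π i) = i := fun i => by
    rw [← Perm.mul_apply, hπ, Perm.one_apply]
  have h1 : (univ.filter (fun i => π i < i)).card = (univ.filter (fun i => i < π i)).card := by
    refine Finset.card_bij (fun i _ => π i) ?_ (fun x _ y _ h => π.injective h) ?_
    · intro i hi
      rw [mem_filter] at hi ⊢
      exact ⟨mem_univ _, by rw [hπ']; exact hi.2⟩
    · intro j hj
      rw [mem_filter] at hj
      refine ⟨π j, ?_, hπ' j⟩
      rw [mem_filter]
      exact ⟨mem_univ _, by rw [hπ']; exact hj.2⟩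
  have e1 := Finset.card_filter_add_card_filter_not (s := (univ : Finset (Fin n)))
    (p := fun i => π i = i)
  have e2 : (univ.filter (fun i => ¬ π i = i)) =
      (univ.filter (fun i => π i < i)) ∪ (univ.filter (fun i => i < π i)) := by
    ext i
    simp only [mem_filter, mem_univ, true_and, mem_union]
    exact ne_iff_lt_or_gt
  have e3 : Disjoint (univ.filter (fun i => π i < i)) (univ.filter (fun i => i < π i)) := by
    rw [Finset.disjoint_left]
    intro i hi hi'
    rw [mem_filter] at hi hi'
    exact absurd hi.2 (not_lt.2 hi'.2.le)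
  rw [e2, card_union_of_disjoint e3, card_univ, Fintype.card_fin] at e1
  omega

theorem exists_coloring {k : ℕ} (B : Finset (Fin n)) {π : Perm (Fin n)} (hπ : π * π = 1)
    (hB : ∀ i ∉ B, π i = i) (h1 : (B.filter (fun i => i ≤ π i)).card ≤ k) (h2 : Bᶜ.card ≤ k) :
    ∃ a : Fin n → Fin k, (∀ i ∈ B, ∀ j ∈ B, a i = a j → j = i ∨ j = π i) ∧
      (∀ i ∉ B, ∀ j ∉ B, a i = a j → i = j) := by
  classical
  have hπ' : ∀ i, π (π i) = i := fun i => by
    rw [← Perm.mul_apply, hπ, Perm.one_apply]
  have hπB : ∀ i ∈ B, π i ∈ B := by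
    intro i hi
    by_contra hcon
    have h3 := hB _ hcon
    rw [hπ'] at h3
    rw [← h3] at hcon
    exact hcon hi
  set R := B.filter (fun i => i ≤ π i) with hR
  let rep : Fin n → Fin n := fun i => if i ≤ π i then i else π i
  have hrep : ∀ i ∈ B, rep i ∈ R := by
    intro i hi
    rw [hR, mem_filter]
    by_cases h : i ≤ π i
    · simp only [rep, if_pos h]
      exact ⟨hi, h⟩
    · simp only [rep, if_neg h]
      refine ⟨hπB i hi, ?_⟩
      rw [hπ']
      exact (not_le.1 h).le
  have hrep2 : ∀ i, rep i = i ∨ rep i = π i := by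
    intro i
    by_cases h : i ≤ π i
    · left; simp only [rep, if_pos h]
    · right; simp only [rep, if_neg h]
  refine ⟨fun i => if h : i ∈ B then Fin.castLE h1 (R.equivFin ⟨rep i, hrep i h⟩) else
    Fin.castLE h2 (Bᶜ.equivFin ⟨i, by rw [mem_compl]; exact h⟩), ?_, ?_⟩
  · intro i hi j hj hij
    simp only [dif_pos hi, dif_pos hj] at hij
    have h3 := (R.equivFin).injective (Fin.castLE_injective h1 hij)
    have h4 : rep i = rep j := congrArg Subtype.val h3
    rcases hrep2 i with h5 | h5
    · rcases hrep2 j with h6 | h6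
      · left; rw [← h5, h4, h6]
      · right
        have : π j = i := by rw [← h6, ← h4, h5]
        rw [← this, hπ']
    · rcases hrep2 j with h6 | h6
      · right; rw [← h5, h4, h6]
      · left
        apply π.injective
        rw [← h5, h4, h6]
  · intro i hi j hj hij
    simp only [dif_neg hi, dif_neg hj] at hij
    have h3 := (Bᶜ.equivFin).injective (Fin.castLE_injective h2 hij)
    exact congrArg Subtype.val h3

theorem decomp {k : ℕ} {G : Subgroup (Perm (Fin n))} (B : Finset (Fin n))
    (hH : ∀ h ∈ clo k G, ∀ i, h i ∈ B ↔ i ∈ B) {π : Perm (Fin n)} (hπ : π * π = 1)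
    (hB : ∀ i ∉ B, π i = i) (h1 : (B.filter (fun i => i ≤ π i)).card ≤ k) (h2 : Bᶜ.card ≤ k)
    {h : Perm (Fin n)} (hh : h ∈ clo k G) :
    ∃ s ∈ clo k G, Sub π s ∧ s⁻¹ * h ∈ G := by
  obtain ⟨a, ha1, ha2⟩ := exists_coloring B hπ hB h1 h2
  obtain ⟨g, hg, he⟩ := hh a
  have hs : h * g⁻¹ ∈ clo k G := (clo k G).mul_mem hh ((clo k G).inv_mem (le_clo k G hg))
  refine ⟨h * g⁻¹, hs, ?_, ?_⟩
  · intro i
    have h3 : a ((h * g⁻¹) i) = a i := by
      have h4 : a (h (g⁻¹ i)) = a (g (g⁻¹ i)) := congrFun he (g⁻¹ i)
      rw [Perm.mul_apply, h4]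
      simp
    by_cases hi : i ∈ B
    · exact ha1 i hi _ ((hH _ hs i).2 hi) h3.symm
    · left
      exact ha2 _ (fun h5 => hi ((hH _ hs i).1 h5)) i hi h3
  · have : (h * g⁻¹)⁻¹ * h = g := by group
    rw [this]
    exact hg

noncomputable instance (H : Subgroup (Perm (Fin n))) : DecidableRel (Rel H) :=
  fun _ _ => Classical.propDecidable _

theorem greedy {d : ℕ} {H : Subgroup (Perm (Fin n))} (hn : 2 * d + 1 ≤ n)
    (hcl : ∀ i, (univ.filter (fun j => Rel H i j)).card + d ≤ n) :
    ∀ m ≤ d, ∃ π : Perm (Fin n), π * π = 1 ∧ (univ.filter (fun i => π i = i)).card + 2 * m = n ∧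
      (∀ i, (univ.filter (fun j => π j = j ∧ Rel H i j)).card + (d - m) ≤
        (univ.filter (fun j => π j = j)).card) ∧ ∀ σ ∈ H, Sub π σ → σ = 1 := by
  intro m
  induction m with
  | zero =>
    intro _
    refine ⟨1, one_mul 1, by simp, ?_, ?_⟩
    · intro i
      simpa using hcl i
    · intro σ _ h
      ext i
      rcases h i with h1 | h1
      · rw [h1]; rfl
      · rw [h1]
  | succ m ih =>
    intro hm
    obtain ⟨π, hπ, hF, hC, hH⟩ := ih (by omega)
    clear ih
    set F := univ.filter (fun j => π j = j) with hFdef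
    have hmemF : ∀ j, j ∈ F ↔ π j = j := by intro j; rw [hFdef, mem_filter]; simp
    have key : ∃ a a' b, π a = a ∧ π a' = a' ∧ π b = b ∧ a ≠ a' ∧ ¬ Rel H b a ∧ ¬ Rel H b a' ∧
        ∀ i, F.card ≤ (univ.filter (fun j => π j = j ∧ Rel H i j)).card + (d - m) →
          Rel H i a ∧ Rel H i a' := by
      by_cases ht : ∃ i, F.card ≤ (univ.filter (fun j => π j = j ∧ Rel H i j)).card + (d - m)
      · obtain ⟨i0, hi0⟩ := ht
        set C := univ.filter (fun j => π j = j ∧ Rel H i0 j) with hCdef
        have hCF : C ⊆ F := by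
          intro j hj
          rw [hCdef, mem_filter] at hj
          rw [hmemF]
          exact hj.2.1
        have hC0 : C.card + (d - m) ≤ F.card := hC i0
        have hC2 : 1 < C.card := by omega
        obtain ⟨a, ha, a', ha', haa⟩ := Finset.one_lt_card.1 hC2
        have hlt : C.card < F.card := by omega
        obtain ⟨b, hb, hbC⟩ := Finset.exists_mem_notMem_of_card_lt_card hlt
        rw [hCdef, mem_filter] at ha ha'
        rw [hmemF] at hb
        have hbC' : ¬ Rel H i0 b := by
          intro h
          apply hbC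
          rw [hCdef, mem_filter]
          exact ⟨mem_univ _, hb, h⟩
        refine ⟨a, a', b, ha.2.1, ha'.2.1, hb, haa, ?_, ?_, ?_⟩
        · intro h
          exact hbC' (ha.2.2.trans h.symm)
        · intro h
          exact hbC' (ha'.2.2.trans h.symm)
        · intro i hi
          have hii : Rel H i i0 := by
            by_contra hcon
            have hdis : Disjoint C (univ.filter (fun j => π j = j ∧ Rel H i j)) := by
              rw [Finset.disjoint_left]
              intro j hj hj'
              rw [hCdef, mem_filter] at hj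
              rw [mem_filter] at hj'
              exact hcon (hj'.2.2.trans hj.2.2.symm)
            have hsub : C ∪ univ.filter (fun j => π j = j ∧ Rel H i j) ⊆ F := by
              intro j hj
              rw [mem_union] at hj
              rcases hj with hj | hj
              · exact hCF hj
              · rw [mem_filter] at hj
                rw [hmemF]
                exact hj.2.1
            have h3 := Finset.card_le_card hsub
            rw [card_union_of_disjoint hdis] at h3
            omega
          exact ⟨hii.trans ha.2.2, hii.trans ha'.2.2⟩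
      · push Not at ht
        have hF0 : 0 < F.card := by omega
        obtain ⟨b, hb⟩ := Finset.card_pos.1 hF0
        set C := univ.filter (fun j => π j = j ∧ Rel H b j) with hCdef
        have h3 : C.card + (d - m) < F.card := ht b
        have h4 : 1 < (F \ C).card := by
          have := Finset.le_card_sdiff C F
          omega
        obtain ⟨a, ha, a', ha', haa⟩ := Finset.one_lt_card.1 h4
        rw [mem_sdiff, hmemF, hCdef, mem_filter] at ha ha'
        rw [hmemF] at hb
        refine ⟨a, a', b, ha.1, ha'.1, hb, haa, ?_, ?_, ?_⟩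
        · intro h
          exact ha.2 ⟨mem_univ _, ha.1, h⟩
        · intro h
          exact ha'.2 ⟨mem_univ _, ha'.1, h⟩
        · intro i hi
          exact absurd hi (not_le.2 (ht i))
    have key2 : ∃ a b, π a = a ∧ π b = b ∧ ¬ Rel H b a ∧ (∀ s, Sub π s → s * swap b a ∉ H) ∧
        ∀ i, F.card ≤ (univ.filter (fun j => π j = j ∧ Rel H i j)).card + (d - m) →
          Rel H i a := by
      obtain ⟨a, a', b, ha, ha', hb, haa, hba, hba', hi⟩ := key
      by_cases h1 : ∀ s, Sub π s → s * swap b a ∉ H
      · exact ⟨a, b, ha, hb, hba, h1, fun i h => (hi i h).1⟩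
      · refine ⟨a', b, ha', hb, hba', ?_, fun i h => (hi i h).2⟩
        push Not at h1
        obtain ⟨s, hs, hsH⟩ := h1
        intro s' hs' hsH'
        have hne : b ≠ a := fun h => hba (Or.inl h)
        have hne' : b ≠ a' := fun h => hba' (Or.inl h)
        have h2 := forbidden hπ hb ha ha' hne hne' haa hs hs' hsH hsH'
        exact hba (Rel.symm (Or.inr ⟨a', hne.symm, haa.symm, hne'.symm, h2⟩))
    obtain ⟨a, b, ha, hb, hba, hforb, htight⟩ := key2
    have hne : b ≠ a := fun h => hba (Or.inl h)
    have hcard : (univ.filter (fun i => (π * swap b a) i = i)).card + 2 = F.card :=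
      add_fix_card hb ha hne
    refine ⟨π * swap b a, add_sq hπ hb ha, by omega, ?_, ?_⟩
    · intro i
      have hsub : univ.filter (fun j => (π * swap b a) j = j ∧ Rel H i j) ⊆
          (univ.filter (fun j => π j = j ∧ Rel H i j)).erase a := by
        intro j hj
        rw [mem_filter] at hj
        have hja : j ≠ a := by
          rintro rfl
          have h3 := hj.2.1
          rw [add_right hb] at h3
          exact hne h3
        have hjb : j ≠ b := by
          rintro rfl
          have h3 := hj.2.1
          rw [add_left ha] at h3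
          exact hne h3.symm
        rw [mem_erase, mem_filter]
        refine ⟨hja, mem_univ _, ?_, hj.2.2⟩
        rw [← add_other hjb hja (π := π)]
        exact hj.2.1
      have h3 := Finset.card_le_card hsub
      have h4 := hC i
      by_cases hti : F.card ≤ (univ.filter (fun j => π j = j ∧ Rel H i j)).card + (d - m)
      · have h5 : a ∈ univ.filter (fun j => π j = j ∧ Rel H i j) := by
          rw [mem_filter]
          exact ⟨mem_univ _, ha, htight i hti⟩
        have h6 := Finset.card_erase_add_one h5
        omega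
      · have h6 := Finset.card_erase_le (s := univ.filter (fun j => π j = j ∧ Rel H i j)) (a := a)
        omega
    · intro σ hσ hsub
      rcases sub_add hb ha hsub with h3 | h3
      · exact hH σ hσ h3
      · exfalso
        apply hforb _ h3
        rw [mul_assoc, swap_mul_self, mul_one]
        exact hσ

end Pool.Agent.Q18.Gal
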