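import Pool.Agent.Q18.Gal2

/-!
If `n ≥ 2 d + 1` and the closure of `G` over `n - d` colours is larger than `G`, there is a set `B`
of more than `n - d` points, invariant under `G`, such that `G` contains all even permutations of
`B` and no transposition of `B`.
-/

namespace Pool.Agent.Q18.Gal

open Equiv Finset

variable {n : ℕ}

/-- existence of an involution with `m` pairs inside `S` -/
theorem exists_inv : ∀ (m : ℕ) (S : Finset (Fin n)), 2 * m ≤ S.card →
    ∃ π : Perm (Fin n), π * π = 1 ∧ (∀ i ∉ S, π i = i) ∧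
      (univ.filter (fun i => π i = i)).card + 2 * m = n := by
  intro m
  induction m with
  | zero =>
    intro S _
    exact ⟨1, one_mul 1, fun _ _ => rfl, by simp⟩
  | succ m ih =>
    intro S hS
    obtain ⟨a, ha, b, hb, hab⟩ := Finset.one_lt_card.1 (show 1 < S.card by omega)
    have hb' : b ∈ S.erase a := mem_erase.2 ⟨hab.symm, hb⟩
    have h1 := Finset.card_erase_add_one ha
    have h2 := Finset.card_erase_add_one hb'
    obtain ⟨π, hπ, hfix, hc⟩ := ih ((S.erase a).erase b) (by omega)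
    have hπa : π a = a := hfix a (by simp)
    have hπb : π b = b := hfix b (by simp)
    have h3 := add_fix_card hπa hπb hab
    refine ⟨π * swap a b, add_sq hπ hπa hπb, ?_, by omega⟩
    intro i hi
    have hia : i ≠ a := by rintro rfl; exact hi ha
    have hib : i ≠ b := by rintro rfl; exact hi hb
    rw [add_other hia hib]
    apply hfix
    intro h
    exact hi (mem_of_mem_erase (mem_of_mem_erase h))

theorem rep_card {B : Finset (Fin n)} {π : Perm (Fin n)} (hπ : π * π = 1)
    (hB : ∀ i ∉ B, π i = i) {m k : ℕ}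
    (h : (univ.filter (fun i => π i = i)).card + 2 * m = n) (hk : B.card = k + m) :
    (B.filter (fun i => i ≤ π i)).card = k := by
  have h1 := half hπ h
  have h2 : univ.filter (fun i => π i < i) = B.filter (fun i => ¬ i ≤ π i) := by
    ext i
    simp only [mem_filter, mem_univ, true_and, not_le]
    constructor
    · intro h3
      refine ⟨?_, h3⟩
      by_contra hcon
      rw [hB i hcon] at h3
      exact lt_irrefl _ h3
    · exact fun h3 => h3.2
  have h3 := Finset.card_filter_add_card_filter_not (s := B) (p := fun i => i ≤ π i)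
  rw [h2] at h1
  omega

theorem exists_large_class {d k : ℕ} (hk : k + d = n) (hn : 2 * d + 1 ≤ n)
    {G : Subgroup (Perm (Fin n))} {h : Perm (Fin n)} (hh : h ∈ clo k G) (hG : h ∉ G) :
    ∃ i, k < (univ.filter (fun j => Rel (clo k G) i j)).card := by
  by_contra hcon
  push Not at hcon
  obtain ⟨π, hπ, hF, _, hH⟩ := greedy (H := clo k G) hn
    (fun i => by have := hcon i; omega) d le_rfl
  have h1 : ((univ : Finset (Fin n)).filter (fun i => i ≤ π i)).card = k :=
    rep_card hπ (fun i hi => absurd (mem_univ i) hi) hF (by rw [card_univ, Fintype.card_fin, hk])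
  obtain ⟨s, hs, hsub, hsh⟩ := decomp univ (fun _ _ _ => by simp) hπ
    (fun i hi => absurd (mem_univ i) hi) h1.le (by simp) hh
  have h2 := hH s hs hsub
  rw [h2, inv_one, one_mul] at hsh
  exact hG hsh

theorem class_inv {H : Subgroup (Perm (Fin n))} {i0 : Fin n}
    (hc : n < 2 * (univ.filter (fun j => Rel H i0 j)).card) {h : Perm (Fin n)} (hh : h ∈ H) :
    ∀ i, h i ∈ univ.filter (fun j => Rel H i0 j) ↔ i ∈ univ.filter (fun j => Rel H i0 j) := by
  have key : ∀ h ∈ H, ∀ i, Rel H i0 i → Rel H i0 (h i) := by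
    intro h hh i hi
    have h1 : ((univ.filter (fun j => Rel H i0 j)).image h).card =
        (univ.filter (fun j => Rel H i0 j)).card := card_image_of_injective _ h.injective
    have h2 : ¬ Disjoint ((univ.filter (fun j => Rel H i0 j)).image h)
        (univ.filter (fun j => Rel H i0 j)) := by
      intro hd
      have h3 := card_union_of_disjoint hd
      have h4 := card_le_univ (((univ.filter (fun j => Rel H i0 j)).image h) ∪
        (univ.filter (fun j => Rel H i0 j)))
      rw [Fintype.card_fin] at h4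
      omega
    rw [Finset.not_disjoint_iff] at h2
    obtain ⟨x, hx, hx'⟩ := h2
    rw [mem_image] at hx
    obtain ⟨j, hj, rfl⟩ := hx
    rw [mem_filter] at hj hx'
    exact hx'.2.trans ((hj.2.symm.trans hi).map hh)
  intro i
  simp only [mem_filter, mem_univ, true_and]
  constructor
  · intro h1
    have h2 := key h⁻¹ (H.inv_mem hh) _ h1
    simpa using h2
  · exact key h hh i

/-- if `u` is an involution commuting with a three-cycle `c` and `u⁻¹ * c ∈ G` then `c ∈ G` -/
theorem cyc_mem_of_commute {G : Subgroup (Perm (Fin n))} {u c : Perm (Fin n)} (hu : u * u = 1)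
    (hc : c * c = c⁻¹) (hcomm : Commute u c) (h : u⁻¹ * c ∈ G) : c ∈ G := by
  have hu' : u⁻¹ = u := inv_eq_of_mul_eq_one_left hu
  rw [hu'] at h
  have h1 := G.mul_mem h h
  have h2 : u * c * (u * c) = c⁻¹ := by
    calc u * c * (u * c) = u * (c * u) * c := by group
      _ = u * (u * c) * c := by rw [hcomm.eq]
      _ = (u * u) * (c * c) := by group
      _ = c⁻¹ := by rw [hu, one_mul, hc]
  rw [h2] at h1
  exact G.inv_mem_iff.1 h1

theorem three_mem {d k : ℕ} (hk : k + d = n) (hn : 2 * d + 1 ≤ n)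
    {G : Subgroup (Perm (Fin n))} {B : Finset (Fin n)} (hB : k < B.card)
    (hinv : ∀ h ∈ clo k G, ∀ i, h i ∈ B ↔ i ∈ B)
    (h3 : ∀ x ∈ B, ∀ y ∈ B, ∀ z ∈ B, x ≠ y → y ≠ z → x ≠ z → cyc x y z ∈ clo k G)
    {x y z : Fin n} (hx : x ∈ B) (hy : y ∈ B) (hz : z ∈ B) (hxy : x ≠ y) (hyz : y ≠ z)
    (hxz : x ≠ z) : cyc x y z ∈ G := by
  have hBn : B.card ≤ n := by
    have := card_le_univ B
    rwa [Fintype.card_fin] at this
  obtain ⟨e, he⟩ : ∃ e, B.card = k + (e + 1) := ⟨B.card - k - 1, by omega⟩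
  have hy' : y ∈ B.erase x := mem_erase.2 ⟨hxy.symm, hy⟩
  have hz' : z ∈ (B.erase x).erase y := mem_erase.2 ⟨hyz.symm, mem_erase.2 ⟨hxz.symm, hz⟩⟩
  have c1 := Finset.card_erase_add_one hx
  have c2 := Finset.card_erase_add_one hy'
  have c3 := Finset.card_erase_add_one hz'
  obtain ⟨π, hπ, hfix, hc⟩ := exists_inv e (((B.erase x).erase y).erase z) (by omega)
  have hπx : π x = x := hfix x (by simp)
  have hπy : π y = y := hfix y (by simp)
  have hπz : π z = z := hfix z (by simp)
  have h4 := add_fix_card hπx hπy hxy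
  have hπ2 := add_sq hπ hπx hπy
  have hfix2 : ∀ i ∉ B, (π * swap x y) i = i := by
    intro i hi
    have hix : i ≠ x := by rintro rfl; exact hi hx
    have hiy : i ≠ y := by rintro rfl; exact hi hy
    rw [add_other hix hiy]
    apply hfix
    intro h
    exact hi (mem_of_mem_erase (mem_of_mem_erase (mem_of_mem_erase h)))
  have h5 : (B.filter (fun i => i ≤ (π * swap x y) i)).card = k :=
    rep_card hπ2 hfix2 (m := e + 1) (by omega) he
  have h6 : Bᶜ.card ≤ k := by
    have := card_compl_add_card B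
    rw [Fintype.card_fin] at this
    omega
  have hsq := cyc_sq hxy hxz hyz
  have hcH := h3 x hx y hy z hz hxy hyz hxz
  obtain ⟨s, _, hsub, hsG⟩ := decomp B hinv hπ2 hfix2 h5.le h6 hcH
  obtain ⟨s', _, hsub', hsG'⟩ := decomp B hinv hπ2 hfix2 h5.le h6 ((clo k G).inv_mem hcH)
  have hsq' : (cyc x y z)⁻¹ * (cyc x y z)⁻¹ = ((cyc x y z)⁻¹)⁻¹ := by
    rw [← mul_inv_rev, hsq]
  rcases sub_add hπx hπy hsub with h7 | h7
  · exact cyc_mem_of_commute (h7.sq hπ) hsq
      (commute_cyc (h7.fix hπx) (h7.fix hπy) (h7.fix hπz)) hsG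
  rcases sub_add hπx hπy hsub' with h8 | h8
  · have h9 := cyc_mem_of_commute (h8.sq hπ) hsq'
      (commute_cyc (h8.fix hπx) (h8.fix hπy) (h8.fix hπz)).inv_right hsG'
    exact G.inv_mem_iff.1 h9
  -- both are of the second kind
  set u := s * swap x y with hu
  set u' := s' * swap x y with hu'
  have e1 : s⁻¹ = swap x y * u := by
    have h10 : u⁻¹ = u := inv_eq_of_mul_eq_one_left (h7.sq hπ)
    calc s⁻¹ = swap x y * (swap x y)⁻¹ * s⁻¹ := by group
      _ = swap x y * (s * swap x y)⁻¹ := by group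
      _ = swap x y * u := by rw [← hu, h10]
  have e2 : s'⁻¹ = swap x y * u' := by
    have h10 : u'⁻¹ = u' := inv_eq_of_mul_eq_one_left (h8.sq hπ)
    calc s'⁻¹ = swap x y * (swap x y)⁻¹ * s'⁻¹ := by group
      _ = swap x y * (s' * swap x y)⁻¹ := by group
      _ = swap x y * u' := by rw [← hu', h10]
  have hsw : swap x y * (cyc x y z)⁻¹ * swap x y = cyc x y z := by
    have h11 := conj_cyc (swap x y) z y x
    rw [swap_inv, swap_apply_of_ne_of_ne hxz.symm hyz.symm, swap_apply_right,
      swap_apply_left] at h11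
    rw [cyc_inv, h11, cyc_rot hxz.symm hyz.symm]
  rw [e1] at hsG
  rw [e2] at hsG'
  have cu : Commute u (swap x y) := commute_swap (h7.fix hπx) (h7.fix hπy)
  have cu' : Commute u' (swap x y) := commute_swap (h8.fix hπx) (h8.fix hπy)
  have cc : Commute u (cyc x y z) := commute_cyc (h7.fix hπx) (h7.fix hπy) (h7.fix hπz)
  have cc' : Commute u' (cyc x y z) := commute_cyc (h8.fix hπx) (h8.fix hπy) (h8.fix hπz)
  have hprod := G.mul_mem hsG' hsG
  have e3 : swap x y * u' * (cyc x y z)⁻¹ * (swap x y * u * cyc x y z) =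
      (u' * u) * (cyc x y z)⁻¹ := by
    calc swap x y * u' * (cyc x y z)⁻¹ * (swap x y * u * cyc x y z)
        = (swap x y * u') * (cyc x y z)⁻¹ * (swap x y * u) * cyc x y z := by group
      _ = (u' * swap x y) * (cyc x y z)⁻¹ * (swap x y * u) * cyc x y z := by rw [cu'.eq]
      _ = u' * (swap x y * (cyc x y z)⁻¹ * swap x y) * (u * cyc x y z) := by group
      _ = u' * cyc x y z * (u * cyc x y z) := by rw [hsw]
      _ = u' * (cyc x y z * u) * cyc x y z := by group
      _ = u' * (u * cyc x y z) * cyc x y z := by rw [cc.eq]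
      _ = (u' * u) * (cyc x y z * cyc x y z) := by group
      _ = _ := by rw [hsq]
  rw [e3] at hprod
  have h12 : (u' * u)⁻¹ = u' * u :=
    inv_eq_of_mul_eq_one_left ((h8.mul hπ h7).sq hπ)
  have h13 := cyc_mem_of_commute (u := u' * u) (c := (cyc x y z)⁻¹) ((h8.mul hπ h7).sq hπ) hsq'
    (Commute.inv_right (cc'.mul_left cc)) (by rw [h12]; exact hprod)
  exact G.inv_mem_iff.1 h13

/-- if `G` contains all three-cycles on `B` it contains all even permutations of `B` -/
theorem even_mem {G : Subgroup (Perm (Fin n))} {B : Finset (Fin n)}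
    (h3 : ∀ x ∈ B, ∀ y ∈ B, ∀ z ∈ B, x ≠ y → y ≠ z → x ≠ z → cyc x y z ∈ G)
    {σ : Perm (Fin n)} (hσ : ∀ i ∉ B, σ i = i) (hs : Perm.sign σ = 1) : σ ∈ G := by
  have hinv : ∀ i, σ i ∈ B ↔ i ∈ B := by
    intro i
    constructor
    · intro h
      by_contra hcon
      rw [hσ i hcon] at h
      exact hcon h
    · intro h
      by_contra hcon
      have h1 := σ.injective (hσ _ hcon)
      rw [h1] at hcon
      exact hcon h
  have h4 : Perm.ofSubtype (σ.subtypePerm (p := fun i => i ∈ B) hinv) = σ :=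
    Perm.ofSubtype_subtypePerm hinv (fun i hi => by
      by_contra hcon
      exact hi (hσ i hcon))
  have h5 : σ.subtypePerm (p := fun i => i ∈ B) hinv ∈ alternatingGroup {i // i ∈ B} := by
    rw [Perm.mem_alternatingGroup, ← Perm.sign_ofSubtype, h4, hs]
  have h6 : alternatingGroup {i // i ∈ B} ≤ G.comap (Perm.ofSubtype (p := fun i => i ∈ B)) := by
    rw [← Perm.closure_three_cycles_eq_alternating, Subgroup.closure_le]
    intro τ hτ
    rw [SetLike.mem_coe, Subgroup.mem_comap]
    obtain ⟨a, ha⟩ : τ.support.Nonempty := by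
      rw [← Finset.card_pos, hτ.card_support]
      norm_num
    have h7 := hτ.eq_swap_mul_swap_iff_mem_support.2 ha
    have hord := hτ.orderOf
    have n1 : a ≠ τ a := fun h => (Perm.mem_support.1 ha) h.symm
    have n2 : τ a ≠ τ (τ a) := fun h => n1 (τ.injective h)
    have h33 : τ (τ (τ a)) = a := by
      have h8 := pow_orderOf_eq_one τ
      rw [hord] at h8
      have h9 := congrArg (fun f : Perm {i // i ∈ B} => f a) h8
      simpa [pow_succ, Perm.mul_apply] using h9
    have n3 : a ≠ τ (τ a) := by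
      intro h
      have h8 := congrArg τ h
      rw [h33] at h8
      exact n1 h8.symm
    rw [h7, map_mul, Perm.ofSubtype_swap_eq, Perm.ofSubtype_swap_eq]
    exact h3 a a.2 (τ a) (τ a).2 (τ (τ a)) (τ (τ a)).2 (fun h => n1 (Subtype.ext h))
      (fun h => n2 (Subtype.ext h)) (fun h => n3 (Subtype.ext h))
  have h7 := h6 h5
  rw [Subgroup.mem_comap, h4] at h7
  exact h7

/-- the structure theorem -/
theorem structure_thm {d k : ℕ} (hk : k + d = n) (hn : 2 * d + 1 ≤ n)
    {G : Subgroup (Perm (Fin n))} {h : Perm (Fin n)} (hh : h ∈ clo k G) (hG : h ∉ G) :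
    ∃ B : Finset (Fin n), Bᶜ.card < d ∧ (∀ g ∈ G, ∀ i, g i ∈ B ↔ i ∈ B) ∧
      (∀ σ : Perm (Fin n), (∀ i ∉ B, σ i = i) → Perm.sign σ = 1 → σ ∈ G) ∧
      ∃ t ∉ G, ∀ i ∉ B, t i = i := by
  obtain ⟨i0, hi0⟩ := exists_large_class hk hn hh hG
  set B := univ.filter (fun j => Rel (clo k G) i0 j) with hBdef
  have hinv : ∀ h ∈ clo k G, ∀ i, h i ∈ B ↔ i ∈ B := fun h hh =>
    class_inv (by rw [← hBdef]; omega) hh
  have hmemB : ∀ j, j ∈ B ↔ Rel (clo k G) i0 j := by
    intro j
    rw [hBdef, mem_filter]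
    simp
  have h3 : ∀ x ∈ B, ∀ y ∈ B, ∀ z ∈ B, x ≠ y → y ≠ z → x ≠ z → cyc x y z ∈ clo k G := by
    intro x hx y hy z hz hxy hyz hxz
    rw [hmemB] at hx hy hz
    exact Rel.three (hx.symm.trans hy) (hy.symm.trans hz) hxy hyz hxz
  have heven : ∀ σ : Perm (Fin n), (∀ i ∉ B, σ i = i) → Perm.sign σ = 1 → σ ∈ G := by
    intro σ hσ hs
    exact even_mem (fun x hx y hy z hz hxy hyz hxz =>
      three_mem hk hn hi0 hinv h3 hx hy hz hxy hyz hxz) hσ hs
  have hcomp := card_compl_add_card B
  rw [Fintype.card_fin] at hcomp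
  refine ⟨B, by omega, fun g hg => hinv g (le_clo k G hg), heven, ?_⟩
  obtain ⟨e, he⟩ : ∃ e, B.card = k + e := ⟨B.card - k, by omega⟩
  obtain ⟨π, hπ, hfix, hc⟩ := exists_inv e B (by omega)
  have h5 : (B.filter (fun i => i ≤ π i)).card = k := rep_card hπ hfix hc he
  obtain ⟨s, _, hsub, hsG⟩ := decomp B hinv hπ hfix h5.le (by omega) hh
  refine ⟨s, ?_, fun i hi => hsub.fix (hfix i hi)⟩
  intro hs
  have := G.mul_mem hs hsG
  rw [mul_inv_cancel_left] at this
  exact hG this

end Pool.Agent.Q18.Gal
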