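import Mathlib

/-!
A group of order `729` of class two, all of whose automorphisms fix an element of order three.
The underlying set is `(ℤ/9)^3` and the product is `x * y = x + y + 3 B(x, y)` with the bilinear
map `B((a, b, c), (a', b', c')) = (-b a', c b', 0)`.
-/

namespace Q18

/-- The group of order `729`. -/
@[ext] structure M729 where
  a : ZMod 9
  b : ZMod 9
  c : ZMod 9

namespace M729

theorem nine : (9 : ZMod 9) = 0 := by decide

instance : Mul M729 := ⟨fun x y => ⟨x.a + y.a - 3 * (x.b * y.a), x.b + y.b + 3 * (x.c * y.b), x.c + y.c⟩⟩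
instance : One M729 := ⟨⟨0, 0, 0⟩⟩
instance : Inv M729 := ⟨fun x => ⟨-x.a - 3 * (x.b * x.a), -x.b + 3 * (x.c * x.b), -x.c⟩⟩

@[simp] theorem mul_a (x y : M729) : (x * y).a = x.a + y.a - 3 * (x.b * y.a) := rfl
@[simp] theorem mul_b (x y : M729) : (x * y).b = x.b + y.b + 3 * (x.c * y.b) := rfl
@[simp] theorem mul_c (x y : M729) : (x * y).c = x.c + y.c := rfl
@[simp] theorem one_a : (1 : M729).a = 0 := rfl
@[simp] theorem one_b : (1 : M729).b = 0 := rfl
@[simp] theorem one_c : (1 : M729).c = 0 := rfl
@[simp] theorem inv_a (x : M729) : (x⁻¹).a = -x.a - 3 * (x.b * x.a) := rfl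
@[simp] theorem inv_b (x : M729) : (x⁻¹).b = -x.b + 3 * (x.c * x.b) := rfl
@[simp] theorem inv_c (x : M729) : (x⁻¹).c = -x.c := rfl

instance : Group M729 := Group.ofLeftAxioms
  (by
    intro x y z
    ext
    · simp only [mul_a, mul_b]
      linear_combination (-x.c * y.b * z.a - x.b * y.b * z.a) * nine
    · simp only [mul_b, mul_c]
      linear_combination (-x.c * y.c * z.b) * nine
    · simp only [mul_c]
      ring)
  (by intro x; ext <;> simp)
  (by
    intro x
    ext
    · simp only [mul_a, inv_a, inv_b, one_a]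
      linear_combination (-x.c * x.b * x.a) * nine
    · simp only [mul_b, inv_b, inv_c, one_b]
      ring
    · simp only [mul_c, inv_c, one_c]
      ring)

/-- The underlying set of the group. -/
def equivProd : M729 ≃ ZMod 9 × ZMod 9 × ZMod 9 where
  toFun x := (x.a, x.b, x.c)
  invFun x := ⟨x.1, x.2.1, x.2.2⟩
  left_inv _ := rfl
  right_inv _ := rfl

instance : Fintype M729 := Fintype.ofEquiv _ equivProd.symm
instance : DecidableEq M729 := fun x y => decidable_of_iff (equivProd x = equivProd y)
  equivProd.injective.eq_iff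

theorem card_eq : Nat.card M729 = 729 := by
  rw [Nat.card_congr equivProd]
  simp

theorem cube (x : M729) : x ^ 3 = ⟨3 * x.a, 3 * x.b, 3 * x.c⟩ := by
  rw [pow_succ, pow_two]
  ext
  · simp only [mul_a, mul_b]
    linear_combination (-x.b * x.a - x.c * x.b * x.a) * nine
  · simp only [mul_b, mul_c]
    linear_combination (x.c * x.b) * nine
  · simp only [mul_c]
    ring

theorem cube_central (x y : M729) : x ^ 3 * y = y * x ^ 3 := by
  rw [cube]
  ext
  · simp only [mul_a]
    linear_combination (-x.b * y.a + y.b * x.a) * nine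
  · simp only [mul_b]
    linear_combination (x.c * y.b - y.c * x.b) * nine
  · simp only [mul_c]
    ring

theorem mul_cube (x y : M729) : (x * y) ^ 3 = x ^ 3 * y ^ 3 := by
  rw [cube, cube, cube]
  ext
  · simp only [mul_a]
    linear_combination (-x.b * y.a + 3 * x.b * y.a) * nine
  · simp only [mul_b]
    linear_combination (x.c * y.b - 3 * x.c * y.b) * nine
  · simp only [mul_c]
    ring

theorem cube_cube (x : M729) : (x ^ 3) ^ 3 = 1 := by
  rw [cube, cube]
  ext
  · simp only [one_a]; linear_combination x.a * nine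
  · simp only [one_b]; linear_combination x.b * nine
  · simp only [one_c]; linear_combination x.c * nine

/-- reduction modulo three -/
def red : ZMod 9 →+* ZMod 3 := ZMod.castHom (by norm_num : 3 ∣ 9) (ZMod 3)

theorem three_mul_eq_zero_iff (t : ZMod 9) : 3 * t = 0 ↔ red t = 0 := by
  revert t; decide

theorem three_mul_eq_iff (s t : ZMod 9) : 3 * s = 3 * t ↔ red s = red t := by
  rw [← sub_eq_zero, ← mul_sub, three_mul_eq_zero_iff, map_sub, sub_eq_zero]

/-- the standard generators -/
def U : M729 := ⟨1, 0, 0⟩
def W : M729 := ⟨0, 1, 0⟩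
def V : M729 := ⟨0, 0, 1⟩

theorem rel_UW : U * W = W * U * U ^ 3 := by decide
theorem rel_VW : V * W = W * V * W ^ 3 := by decide
theorem rel_UV : U * V = V * U := by decide

/-- the element of order three fixed by all automorphisms -/
def z0 : M729 := ⟨0, 3, -3⟩

theorem z0_eq : z0 * V ^ 3 = W ^ 3 := by decide

theorem z0_cube : z0 ^ 3 = 1 := by decide

theorem z0_ne : z0 ≠ 1 := by decide

theorem orderOf_z0 : orderOf z0 = 3 := by
  have : Fact (Nat.Prime 3) := ⟨by norm_num⟩
  exact orderOf_eq_prime z0_cube z0_ne

theorem rel_iff (x y z : M729) (h : x * y = y * x * z ^ 3) :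
    (red x.a * red y.b - red x.b * red y.a = red z.a) ∧
    (red x.c * red y.b - red x.b * red y.c = red z.b) ∧ red z.c = 0 := by
  rw [cube] at h
  have ha := congrArg M729.a h
  have hb := congrArg M729.b h
  have hc := congrArg M729.c h
  simp only [mul_a, mul_b, mul_c] at ha hb hc
  refine ⟨?_, ?_, ?_⟩
  · rw [← map_mul, ← map_mul, ← map_sub, ← three_mul_eq_iff]
    linear_combination ha + (-y.b * z.a - x.b * z.a - 3 * x.b * z.a * y.c) * nine
  · rw [← map_mul, ← map_mul, ← map_sub, ← three_mul_eq_iff]
    linear_combination hb + (y.c * z.b + x.c * z.b) * nine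
  · rw [← three_mul_eq_zero_iff]
    linear_combination -hc

theorem fixed (α : M729 ≃* M729) : α z0 = z0 := by
  have h1 := congrArg α rel_UW
  have h2 := congrArg α rel_VW
  have h3 := congrArg α rel_UV
  have h4 := congrArg α z0_eq
  simp only [map_mul, map_pow] at h1 h2 h3 h4
  have hU : (α U) ^ 3 ≠ 1 := by
    intro h
    rw [← map_pow, map_eq_one_iff α α.injective] at h
    exact absurd h (by decide)
  have h3' : α U * α V = α V * α U * 1 ^ 3 := by rw [h3]; simp
  obtain ⟨e1, e2, e3⟩ := rel_iff _ _ _ h1
  obtain ⟨f1, f2, f3⟩ := rel_iff _ _ _ h3'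
  obtain ⟨g1, g2, g3⟩ := rel_iff _ _ _ h2
  have : Fact (Nat.Prime 3) := ⟨by norm_num⟩
  simp only [one_a, one_b, one_c, map_zero] at f1 f2 f3
  rw [e3] at e2 f2
  rw [g3] at g2 e2
  have b1 : red (α U).b = 0 := by
    linear_combination -e2
  rw [b1] at e1 f1
  have a1 : red (α U).a ≠ 0 := by
    intro h
    apply hU
    rw [cube]
    rw [← three_mul_eq_zero_iff] at h b1 e3
    ext
    · exact h
    · exact b1
    · exact e3
  have b2 : red (α W).b = 1 := by
    apply mul_left_cancel₀ a1
    linear_combination e1
  have b3 : red (α V).b = 0 := by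
    apply mul_left_cancel₀ a1
    linear_combination f1
  rw [b2, b3] at g1 g2
  have hWV : red (α W).a = red (α V).a := by linear_combination -g1
  have c3 : red (α V).c = 1 := by linear_combination g2
  have hz : α z0 = z0 := by
    have h5 : (α W) ^ 3 = z0 * (α V) ^ 3 := by
      rw [cube, cube]
      ext
      · simp only [mul_a, z0]
        have := (three_mul_eq_iff _ _).2 hWV
        linear_combination this + 3 * (α V).a * nine
      · simp only [mul_b, z0]
        have := (three_mul_eq_iff _ _).2 (b2.trans (map_one red).symm)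
        have h6 := (three_mul_eq_zero_iff _).2 b3
        linear_combination this - h6 + 3 * (α V).b * nine
      · simp only [mul_c, z0]
        have h7 := (three_mul_eq_iff _ _).2 (c3.trans (map_one red).symm)
        have h8 := (three_mul_eq_zero_iff _).2 g3
        linear_combination h8 - h7
    rw [h5] at h4
    exact mul_right_cancel h4
  exact hz

end M729

end Q18
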