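import Mathlib

set_option linter.unusedSectionVars false

/-!
# Counting homomorphisms from a group mapping onto the integers

If `δ : F → ℤ` is onto and `K` is its kernel, then the homomorphisms `φ : F → H` whose restriction
to `K` is `H`-conjugate to a given one are exactly `|H|` in number.
-/

namespace Q18.HomCount

variable {F H : Type*} [Group F] [Group H]

/-- pairs `(u, b)` such that conjugation by `b` on `φ(K)` is conjugation by `u` on `K`. -/
def S (φ : F →* H) (K : Subgroup F) [hK : K.Normal] : Subgroup (F × H) where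
  carrier := {p | ∀ k ∈ K, p.2 * φ k * p.2⁻¹ = φ (p.1 * k * p.1⁻¹)}
  mul_mem' := by
    rintro ⟨u, b⟩ ⟨v, c⟩ h1 h2 k hk
    have e1 := h2 k hk
    have e2 := h1 (v * k * v⁻¹) (hK.conj_mem k hk v)
    simp only [Prod.mk_mul_mk] at *
    calc b * c * φ k * (b * c)⁻¹ = b * (c * φ k * c⁻¹) * b⁻¹ := by group
      _ = φ (u * (v * k * v⁻¹) * u⁻¹) := by rw [e1, e2]
      _ = φ (u * v * k * (u * v)⁻¹) := by congr 1; group
  one_mem' := by
    intro k _
    simp
  inv_mem' := by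
    rintro ⟨u, b⟩ h1 k hk
    have e2 := h1 (u⁻¹ * k * u) (by simpa using hK.conj_mem k hk u⁻¹)
    simp only [Prod.inv_mk, inv_inv] at *
    have e3 : u * (u⁻¹ * k * u) * u⁻¹ = k := by group
    rw [e3] at e2
    rw [← e2]
    group

theorem mem_S {φ : F →* H} {K : Subgroup F} [hK : K.Normal] {p : F × H} :
    p ∈ S φ K ↔ ∀ k ∈ K, p.2 * φ k * p.2⁻¹ = φ (p.1 * k * p.1⁻¹) := Iff.rfl

variable (δ : F →* Multiplicative ℤ) (t : F)

/-- centralizer of the image of the kernel -/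
def Z (φ : F →* H) : Subgroup H := Subgroup.centralizer (φ '' (δ.ker : Set F))

theorem mem_Z {φ : F →* H} {z : H} : z ∈ Z δ φ ↔ ∀ k ∈ δ.ker, z * φ k = φ k * z := by
  unfold Z
  rw [Subgroup.mem_centralizer_iff]
  constructor
  · intro h k hk
    exact (h (φ k) ⟨k, hk, rfl⟩).symm
  · rintro h _ ⟨k, hk, rfl⟩
    exact (h k hk).symm

theorem self_mem (φ : F →* H) : (t, φ t) ∈ S φ δ.ker := by
  intro k _
  simp

theorem twist_mem (φ : F →* H) (z : Z δ φ) : (t, φ t * z) ∈ S φ δ.ker := by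
  intro k hk
  have := (mem_Z δ).1 z.2 k hk
  calc φ t * z * φ k * (φ t * z)⁻¹ = φ t * (z * φ k) * (φ t * z)⁻¹ := by group
    _ = φ t * (φ k * z) * (φ t * z)⁻¹ := by rw [this]
    _ = φ (t * k * t⁻¹) := by rw [map_mul, map_mul, map_inv]; group

theorem pow_commute (φ : F →* H) (z : Z δ φ) (n : ℤ) (k : F) (hk : k ∈ δ.ker) :
    ((φ t) ^ (-n) * (φ t * z) ^ n) * φ k = φ k * ((φ t) ^ (-n) * (φ t * z) ^ n) := by
  have h1 : (t, φ t) ^ (-n) * (t, φ t * z) ^ n ∈ S φ δ.ker :=
    Subgroup.mul_mem _ (Subgroup.zpow_mem _ (self_mem δ t φ) _)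
      (Subgroup.zpow_mem _ (twist_mem δ t φ z) _)
  have h2 := h1 k hk
  simp only [Prod.pow_mk, Prod.mk_mul_mk] at h2
  have h3 : t ^ (-n) * t ^ n = 1 := by group
  rw [h3] at h2
  rw [mul_inv_eq_iff_eq_mul] at h2
  rw [h2]
  simp

/-- the twisted homomorphism -/
def tw (ht : δ t = Multiplicative.ofAdd 1) (φ : F →* H) (z : Z δ φ) : F →* H where
  toFun f := φ f * ((φ t) ^ (-(Multiplicative.toAdd (δ f))) * (φ t * z) ^ (Multiplicative.toAdd (δ f)))
  map_one' := by simp
  map_mul' := by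
    intro f g
    set n := Multiplicative.toAdd (δ f) with hn
    set m := Multiplicative.toAdd (δ g) with hm
    have hδ : Multiplicative.toAdd (δ (f * g)) = n + m := by rw [map_mul, toAdd_mul]
    rw [hδ]
    have hk : g * t ^ (-m) ∈ δ.ker := by
      rw [MonoidHom.mem_ker, map_mul, map_zpow, ht, ← ofAdd_zsmul]
      have : δ g = Multiplicative.ofAdd m := by rw [hm]; simp
      rw [this, ← ofAdd_add]
      simp
    have hc := pow_commute δ t φ z n _ hk
    rw [map_mul, map_zpow] at hc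
    have e1 : φ f * (φ t ^ (-n) * (φ t * z) ^ n) * (φ g * (φ t ^ (-m) * (φ t * z) ^ m)) =
        φ f * ((φ t ^ (-n) * (φ t * z) ^ n) * (φ g * φ t ^ (-m))) * (φ t * z) ^ m := by
      group
    rw [e1, hc, map_mul, zpow_add]
    group

variable {δ t}

theorem tw_ker (ht : δ t = Multiplicative.ofAdd 1) (φ : F →* H) (z : Z δ φ) (k : F)
    (hk : k ∈ δ.ker) : tw δ t ht φ z k = φ k := by
  change φ k * ((φ t) ^ (-(Multiplicative.toAdd (δ k))) *
    (φ t * z) ^ (Multiplicative.toAdd (δ k))) = φ k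
  rw [MonoidHom.mem_ker] at hk
  rw [hk]
  simp

theorem tw_t (ht : δ t = Multiplicative.ofAdd 1) (φ : F →* H) (z : Z δ φ) :
    tw δ t ht φ z t = φ t * z := by
  change φ t * ((φ t) ^ (-(Multiplicative.toAdd (δ t))) *
    (φ t * z) ^ (Multiplicative.toAdd (δ t))) = φ t * z
  rw [ht]
  simp

/-- two homomorphisms agreeing on the kernel and at `t` are equal -/
theorem hom_ext (ht : δ t = Multiplicative.ofAdd 1) {φ ψ : F →* H}
    (h : ∀ k ∈ δ.ker, φ k = ψ k) (h' : φ t = ψ t) : φ = ψ := by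
  ext f
  set n := Multiplicative.toAdd (δ f) with hn
  have hk : f * t ^ (-n) ∈ δ.ker := by
    rw [MonoidHom.mem_ker, map_mul, map_zpow, ht, ← ofAdd_zsmul]
    have : δ f = Multiplicative.ofAdd n := by rw [hn]; simp
    rw [this, ← ofAdd_add]
    simp
  have e : f = (f * t ^ (-n)) * t ^ n := by group
  rw [e, map_mul φ (f * t ^ (-n)), map_mul ψ (f * t ^ (-n)), h _ hk, map_zpow, map_zpow, h']

/-- conjugate of a homomorphism -/
def cj (c : H) (φ : F →* H) : F →* H := (MulAut.conj c).toMonoidHom.comp φ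

@[simp] theorem cj_apply (c : H) (φ : F →* H) (f : F) : cj c φ f = c * φ f * c⁻¹ := rfl

variable (δ)

/-- the equivalence relation -/
def rel (φ ψ : F →* H) : Prop := ∃ c : H, ∀ k ∈ δ.ker, ψ k = c * φ k * c⁻¹

variable {δ}

theorem rel_equiv : Equivalence (rel (H := H) δ) where
  refl φ := ⟨1, by simp⟩
  symm := by
    rintro φ ψ ⟨c, hc⟩
    refine ⟨c⁻¹, fun k hk => ?_⟩
    rw [hc k hk]; group
  trans := by
    rintro φ ψ χ ⟨c, hc⟩ ⟨d, hd⟩
    refine ⟨d * c, fun k hk => ?_⟩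
    rw [hd k hk, hc k hk]; group

variable (δ) in
/-- The setoid. -/
def setoid : Setoid (F →* H) := ⟨rel δ, rel_equiv⟩

theorem card_class [Finite H] (ht : δ t = Multiplicative.ofAdd 1) (φ : F →* H) :
    Nat.card {ψ : F →* H // rel δ φ ψ} = Nat.card H := by
  classical
  rw [Nat.card_congr (Subgroup.groupEquivQuotientProdSubgroup (s := Z δ φ))]
  symm
  let g : (H ⧸ Z δ φ) × Z δ φ → {ψ : F →* H // rel δ φ ψ} := fun p =>
    ⟨cj p.1.out (tw δ t ht φ p.2), ⟨p.1.out, fun k hk => by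
      rw [cj_apply, tw_ker ht φ _ k hk]⟩⟩
  refine Nat.card_congr (Equiv.ofBijective g ⟨?_, ?_⟩)
  · rintro ⟨c, z⟩ ⟨d, y⟩ h
    have h1 : cj c.out (tw δ t ht φ z) = cj d.out (tw δ t ht φ y) := congrArg Subtype.val h
    have hcd : c = d := by
      rw [← Quotient.out_eq' c, ← Quotient.out_eq' d]
      refine (QuotientGroup.eq (s := Z δ φ)).2 ?_
      rw [mem_Z]
      intro k hk
      have h2 := DFunLike.congr_fun h1 k
      rw [cj_apply, cj_apply, tw_ker ht φ _ k hk, tw_ker ht φ _ k hk] at h2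
      have h3 : φ k = (Quotient.out c)⁻¹ * (d.out * φ k * d.out⁻¹) * c.out := by
        rw [← h2]; group
      calc (Quotient.out c)⁻¹ * d.out * φ k
          = ((Quotient.out c)⁻¹ * (d.out * φ k * d.out⁻¹) * c.out) *
            ((Quotient.out c)⁻¹ * d.out) := by group
        _ = φ k * ((Quotient.out c)⁻¹ * d.out) := by rw [← h3]
    subst hcd
    have hzy : z = y := by
      have h2 := DFunLike.congr_fun h1 t
      rw [cj_apply, cj_apply, tw_t, tw_t] at h2
      apply Subtype.ext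
      simpa using h2
    rw [hzy]
  · rintro ⟨ψ, c, hc⟩
    -- adjust `c` to the chosen representative
    set c₀ : H := (QuotientGroup.mk c : H ⧸ Z δ φ).out with hc₀
    have hmem : c₀⁻¹ * c ∈ Z δ φ := by
      have : (QuotientGroup.mk c₀ : H ⧸ Z δ φ) = QuotientGroup.mk c := by
        rw [hc₀]; exact Quotient.out_eq' _
      exact (QuotientGroup.eq (s := Z δ φ)).1 this
    have hc' : ∀ k ∈ δ.ker, ψ k = c₀ * φ k * c₀⁻¹ := by
      intro k hk
      have h1 := (mem_Z δ).1 hmem k hk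
      rw [hc k hk]
      calc c * φ k * c⁻¹ = c₀ * ((c₀⁻¹ * c) * φ k) * (c₀⁻¹ * c)⁻¹ * c₀⁻¹ := by group
        _ = c₀ * φ k * c₀⁻¹ := by rw [h1]; group
    have hz : (φ t)⁻¹ * (c₀⁻¹ * ψ t * c₀) ∈ Z δ φ := by
      rw [mem_Z]
      intro k hk
      have hk' : t * k * t⁻¹ ∈ δ.ker := (MonoidHom.normal_ker δ).conj_mem k hk t
      have h2 := hc' _ hk'
      rw [map_mul, map_mul, map_inv, hc' k hk, map_mul, map_mul, map_inv] at h2
      -- `ψ t (c₀ φ k c₀⁻¹) ψ t⁻¹ = c₀ (φ t φ k φ t⁻¹) c₀⁻¹`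
      have h3 : (c₀⁻¹ * ψ t * c₀) * φ k = (φ t * φ k * (φ t)⁻¹) * (c₀⁻¹ * ψ t * c₀) := by
        calc (c₀⁻¹ * ψ t * c₀) * φ k
            = c₀⁻¹ * (ψ t * (c₀ * φ k * c₀⁻¹) * (ψ t)⁻¹) * ψ t * c₀ := by group
          _ = (φ t * φ k * (φ t)⁻¹) * (c₀⁻¹ * ψ t * c₀) := by rw [h2]; group
      calc (φ t)⁻¹ * (c₀⁻¹ * ψ t * c₀) * φ k
          = (φ t)⁻¹ * ((c₀⁻¹ * ψ t * c₀) * φ k) := by group
        _ = φ k * ((φ t)⁻¹ * (c₀⁻¹ * ψ t * c₀)) := by rw [h3]; group
    refine ⟨(QuotientGroup.mk c, ⟨_, hz⟩), ?_⟩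
    apply Subtype.ext
    change cj c₀ (tw δ t ht φ ⟨_, hz⟩) = ψ
    refine hom_ext ht ?_ ?_
    · intro k hk
      rw [cj_apply, tw_ker ht φ _ k hk, hc' k hk]
    · rw [cj_apply, tw_t]
      group

/-- Sums over homomorphisms of a function of the conjugacy class of the value at an element of
the kernel are `|H|` times a sum of values. -/
theorem sum_hom [Finite H] [Fintype (F →* H)] (ht : δ t = Multiplicative.ofAdd 1) (w : F)
    (hw : w ∈ δ.ker) (f : H → ℂ) (hf : ∀ c h, f (c * h * c⁻¹) = f h)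
    (hint : ∀ h, IsIntegral ℤ (f h)) :
    ∃ α : ℂ, IsIntegral ℤ α ∧ ∑ φ : F →* H, f (φ w) = Nat.card H * α := by
  classical
  let s : Setoid (F →* H) := setoid δ
  have : Fintype (Quotient s) := Fintype.ofFinite _
  refine ⟨∑ q : Quotient s, f (q.out w), ?_, ?_⟩
  · exact IsIntegral.sum _ (fun q _ => hint _)
  · rw [← Finset.sum_fiberwise (s := Finset.univ) (g := fun φ : F →* H => (Quotient.mk s φ)),
      Finset.mul_sum]
    refine Finset.sum_congr rfl fun q _ => ?_
    have h1 : ∀ φ ∈ Finset.univ.filter (fun φ : F →* H => Quotient.mk s φ = q),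
        f (φ w) = f (q.out w) := by
      intro φ hφ
      rw [Finset.mem_filter] at hφ
      have h2 : Quotient.mk s φ = Quotient.mk s q.out := by rw [hφ.2, Quotient.out_eq]
      obtain ⟨c, hc⟩ : rel δ φ q.out := Quotient.exact h2
      rw [hc w hw, hf]
    rw [Finset.sum_congr rfl h1, Finset.sum_const, nsmul_eq_mul]
    congr 2
    rw [← card_class ht q.out, ← Fintype.card_subtype, ← Nat.card_eq_fintype_card]
    refine Nat.card_congr (Equiv.subtypeEquivRight fun φ => ?_)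
    constructor
    · intro h
      have : Quotient.mk s q.out = Quotient.mk s φ := by rw [h, Quotient.out_eq]
      exact Quotient.exact this
    · intro h
      have : Quotient.mk s q.out = Quotient.mk s φ := Quotient.sound h
      rw [← this, Quotient.out_eq]

end Q18.HomCount
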