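import Mathlib

/-!
Let a finite group generated by involutions act orthogonally on a finite dimensional real inner
product space without nonzero fixed vectors. Then some product of operators of the form
`(1 - p) + p g`, `0 ≤ p ≤ 1`, is zero.
-/

namespace Q18.Mix

open scoped InnerProductSpace
open Module

variable {V : Type*} [NormedAddCommGroup V] [InnerProductSpace ℝ V] [FiniteDimensional ℝ V]
  {G : Type*} [Group G] (ρ : Representation ℝ G V)

/-- one step -/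
def step (a : ℝ × G) : V →ₗ[ℝ] V := (1 - a.1) • LinearMap.id + a.1 • ρ a.2

/-- The monoid generated by the steps. -/
def M : Submonoid (V →ₗ[ℝ] V) :=
  Submonoid.closure {f | ∃ a : ℝ × G, (0 ≤ a.1 ∧ a.1 ≤ 1) ∧ f = step ρ a}

variable {ρ}

theorem step_mem {p : ℝ} (h0 : 0 ≤ p) (h1 : p ≤ 1) (g : G) : step ρ (p, g) ∈ M ρ :=
  Submonoid.subset_closure ⟨(p, g), ⟨h0, h1⟩, rfl⟩

theorem step_apply (p : ℝ) (g : G) (v : V) : step ρ (p, g) v = (1 - p) • v + p • ρ g v := rfl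

theorem exists_list {x : V →ₗ[ℝ] V} (hx : x ∈ M ρ) :
    ∃ l : List (ℝ × G), (∀ a ∈ l, 0 ≤ a.1 ∧ a.1 ≤ 1) ∧ (l.map (step ρ)).prod = x := by
  induction hx using Submonoid.closure_induction with
  | mem x hx =>
    obtain ⟨a, ha, rfl⟩ := hx
    exact ⟨[a], by simpa using ha, by simp⟩
  | one => exact ⟨[], by simp, by simp⟩
  | mul x y _ _ hx hy =>
    obtain ⟨l, hl, rfl⟩ := hx
    obtain ⟨l', hl', rfl⟩ := hy
    refine ⟨l ++ l', ?_, by simp⟩
    intro a ha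
    rcases List.mem_append.1 ha with h | h
    · exact hl a h
    · exact hl' a h

section adj

variable (hinv : ∀ g v w, ⟪ρ g v, ρ g w⟫_ℝ = ⟪v, w⟫_ℝ)
include hinv

theorem inner_inv (g : G) (v w : V) : ⟪ρ g v, w⟫_ℝ = ⟪v, ρ g⁻¹ w⟫_ℝ := by
  rw [← hinv g v (ρ g⁻¹ w), ← Module.End.mul_apply, ← map_mul, mul_inv_cancel, map_one]
  rfl

theorem adjoint_mem {x : V →ₗ[ℝ] V} (hx : x ∈ M ρ) : LinearMap.adjoint x ∈ M ρ := by
  induction hx using Submonoid.closure_induction with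
  | mem x hx =>
    obtain ⟨⟨p, g⟩, ha, rfl⟩ := hx
    have : LinearMap.adjoint (step ρ (p, g)) = step ρ (p, g⁻¹) := by
      symm
      rw [LinearMap.eq_adjoint_iff]
      intro v w
      rw [step_apply, step_apply, inner_add_left, inner_add_right, inner_smul_left,
        inner_smul_left, inner_smul_right, inner_smul_right, inner_inv hinv, inv_inv]
      rfl
    rw [this]
    exact step_mem ha.1 ha.2 _
  | one =>
    have : LinearMap.adjoint (1 : V →ₗ[ℝ] V) = 1 := by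
      symm
      rw [LinearMap.eq_adjoint_iff]
      intro v w
      rfl
    rw [this]
    exact (M ρ).one_mem
  | mul x y _ _ hx hy =>
    have : LinearMap.adjoint (x * y) = LinearMap.adjoint y * LinearMap.adjoint x :=
      LinearMap.adjoint_comp x y
    rw [this]
    exact (M ρ).mul_mem hy hx

end adj

/-- a real quadratic inequality -/
theorem lin_zero {a b : ℝ} (h : ∀ e : ℝ, 0 ≤ 2 * e * a + e ^ 2 * b) : a = 0 := by
  by_contra ha
  have h1 := h (-a / (|b| + 1))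
  have hb : 0 < |b| + 1 := by positivity
  have hb' : b ≤ |b| := le_abs_self b
  have h2 : 2 * (-a / (|b| + 1)) * a + (-a / (|b| + 1)) ^ 2 * b =
      (a ^ 2 / (|b| + 1) ^ 2) * (b - 2 * (|b| + 1)) := by
    field_simp
    ring
  rw [h2] at h1
  have h3 : 0 < a ^ 2 / (|b| + 1) ^ 2 := by positivity
  have h4 : b - 2 * (|b| + 1) < 0 := by linarith [abs_nonneg b]
  nlinarith

theorem lin_nonneg {a b : ℝ} (h : ∀ p : ℝ, 0 ≤ p → p ≤ 1 →
    0 ≤ 2 * p * (1 - p) * a + p ^ 2 * b) : 0 ≤ a := by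
  by_contra ha
  push Not at ha
  have hD : 0 < |b| + 1 - a := by linarith [abs_nonneg b]
  have h1 := h (-a / (|b| + 1 - a)) (by apply div_nonneg <;> linarith [abs_nonneg b])
    (by rw [div_le_one hD]; linarith [abs_nonneg b])
  have h2 : 2 * (-a / (|b| + 1 - a)) * (1 - -a / (|b| + 1 - a)) * a +
      (-a / (|b| + 1 - a)) ^ 2 * b =
      (a ^ 2 / (|b| + 1 - a) ^ 2) * (b - 2 * (|b| + 1)) := by
    field_simp
    ring
  rw [h2] at h1
  have h3 : 0 < a ^ 2 / (|b| + 1 - a) ^ 2 := div_pos (by nlinarith) (pow_pos hD 2)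
  have h4 : b - 2 * (|b| + 1) < 0 := by linarith [abs_nonneg b, le_abs_self b]
  nlinarith

section main

variable (hinv : ∀ g v w, ⟪ρ g v, ρ g w⟫_ℝ = ⟪v, w⟫_ℝ)
  {x : V →ₗ[ℝ] V} (hxM : x ∈ M ρ)
  (hmin : ∀ y ∈ M ρ, finrank ℝ (LinearMap.range x) ≤ finrank ℝ (LinearMap.range y))

include hxM hmin in
/-- Multiplying a minimal element on the left does not enlarge its kernel. -/
theorem ker_mul {y : V →ₗ[ℝ] V} (hy : y ∈ M ρ) {v : V} (h : y (x v) = 0) : x v = 0 := by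
  have h1 := hmin (y * x) ((M ρ).mul_mem hy hxM)
  have h2 := LinearMap.finrank_range_add_finrank_ker x
  have h3 := LinearMap.finrank_range_add_finrank_ker (y * x)
  have h4 : LinearMap.ker x ≤ LinearMap.ker (y * x) := LinearMap.ker_le_ker_comp x y
  have h5 : LinearMap.ker x = LinearMap.ker (y * x) :=
    Submodule.eq_of_le_of_finrank_le h4 (by omega)
  have h6 : v ∈ LinearMap.ker (y * x) := h
  rw [← h5] at h6
  exact h6

include hinv hxM hmin in
/-- The positivity property. -/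
theorem pos {t : G} (ht : t * t = 1) {y : V →ₗ[ℝ] V} (hy : y ∈ M ρ) {v : V} (hv : x v ≠ 0) :
    0 < ⟪y (x v), ρ t (y (x v))⟫_ℝ := by
  by_contra hneg
  push Not at hneg
  have htinv : t⁻¹ = t := inv_eq_of_mul_eq_one_right ht
  have hsymm : ∀ a b : V, ⟪a, ρ t b⟫_ℝ = ⟪ρ t a, b⟫_ℝ := by
    intro a b
    rw [inner_inv hinv, htinv]
  set Z : V →ₗ[ℝ] V := y * x with hZ
  have hZM : Z ∈ M ρ := (M ρ).mul_mem hy hxM
  set R := LinearMap.range Z with hR
  have hz1 : Z v ≠ 0 := fun h => hv (ker_mul hxM hmin hy h)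
  -- minimise on the unit sphere of `R`
  let K : Set V := {z | z ∈ R ∧ ‖z‖ = 1}
  have hKc : IsCompact K := by
    have h1 : IsClosed (R : Set V) := Submodule.closed_of_finiteDimensional R
    have h2 : K = (R : Set V) ∩ Metric.sphere (0 : V) 1 := by
      ext z; simp [K]
    rw [h2]
    exact (isCompact_sphere (0 : V) 1).inter_left h1
  have hKne : K.Nonempty := by
    refine ⟨(‖Z v‖⁻¹ : ℝ) • Z v, R.smul_mem _ ⟨v, rfl⟩, ?_⟩
    rw [norm_smul, norm_inv, norm_norm, inv_mul_cancel₀ (norm_ne_zero_iff.2 hz1)]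
  have hcont : Continuous (fun z : V => ⟪z, ρ t z⟫_ℝ) :=
    continuous_id.inner (LinearMap.continuous_of_finiteDimensional (ρ t))
  obtain ⟨z0, hz0, hz0min⟩ := hKc.exists_isMinOn hKne hcont.continuousOn
  set μ := ⟪z0, ρ t z0⟫_ℝ with hμ
  have hK : ∀ z ∈ R, μ * ‖z‖ ^ 2 ≤ ⟪z, ρ t z⟫_ℝ := by
    intro z hz
    by_cases h0 : z = 0
    · subst h0; simp
    · have hn : ‖z‖ ≠ 0 := norm_ne_zero_iff.2 h0
      have h1 : (‖z‖⁻¹ : ℝ) • z ∈ K := by
        refine ⟨R.smul_mem _ hz, ?_⟩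
        rw [norm_smul, norm_inv, norm_norm, inv_mul_cancel₀ hn]
      have h2 := hz0min h1
      simp only [Set.mem_ofPred_eq, map_smul, inner_smul_left, inner_smul_right] at h2
      simp only [conj_trivial] at h2
      have h3 : 0 < ‖z‖ ^ 2 := by positivity
      calc μ * ‖z‖ ^ 2 ≤ (‖z‖⁻¹ * (‖z‖⁻¹ * ⟪z, ρ t z⟫_ℝ)) * ‖z‖ ^ 2 :=
            mul_le_mul_of_nonneg_right h2 h3.le
        _ = ⟪z, ρ t z⟫_ℝ := by field_simp
  have hμ0 : μ ≤ 0 := by
    have h1 := hK (Z v) ⟨v, rfl⟩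
    have h2 : 0 < ‖Z v‖ ^ 2 := by
      have := norm_pos_iff.2 hz1
      positivity
    by_contra hpos
    push Not at hpos
    have h3 : 0 < μ * ‖Z v‖ ^ 2 := mul_pos hpos h2
    have h4 : ⟪Z v, ρ t (Z v)⟫_ℝ ≤ 0 := hneg
    linarith
  have hnz0 : ‖z0‖ = 1 := hz0.2
  -- the critical point equation
  have hcrit : ∀ z' ∈ R, ⟪z', ρ t z0⟫_ℝ - μ * ⟪z', z0⟫_ℝ = 0 := by
    intro z' hz'
    apply lin_zero (b := ⟪z', ρ t z'⟫_ℝ - μ * ‖z'‖ ^ 2)
    intro e
    have h1 := hK (z0 + e • z') (R.add_mem hz0.1 (R.smul_mem _ hz'))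
    rw [← real_inner_self_eq_norm_sq] at h1
    simp only [map_add, map_smul, inner_add_left, inner_add_right, inner_smul_left,
      inner_smul_right, conj_trivial, real_inner_self_eq_norm_sq, hnz0] at h1
    have h2 : ⟪z0, ρ t z'⟫_ℝ = ⟪z', ρ t z0⟫_ℝ := by
      rw [hsymm, real_inner_comm]
    have h3 : ⟪z0, z'⟫_ℝ = ⟪z', z0⟫_ℝ := real_inner_comm _ _
    rw [h2, h3] at h1
    rw [← hμ] at h1
    nlinarith [h1]
  -- the singular parameter
  set p : ℝ := 1 / (1 - μ) with hp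
  have h1μ : 0 < 1 - μ := by linarith
  have hp0 : 0 ≤ p := by positivity
  have hp1 : p ≤ 1 := by
    rw [hp, div_le_one h1μ]; linarith
  have hpμ : (1 - p) + p * μ = 0 := by
    rw [hp]; field_simp; ring
  obtain ⟨v0, hv0⟩ := hz0.1
  have hzero : ((LinearMap.adjoint Z) * step ρ (p, t)) (y (x v0)) = 0 := by
    apply ext_inner_left ℝ
    intro u
    rw [inner_zero_right, Module.End.mul_apply, LinearMap.adjoint_inner_right]
    change ⟪Z u, step ρ (p, t) (Z v0)⟫_ℝ = 0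
    rw [hv0, step_apply, inner_add_right, inner_smul_right, inner_smul_right]
    have := hcrit (Z u) ⟨u, rfl⟩
    linear_combination p * this + ⟪Z u, z0⟫_ℝ * hpμ
  have hmem : ((LinearMap.adjoint Z) * step ρ (p, t)) * y ∈ M ρ :=
    (M ρ).mul_mem ((M ρ).mul_mem (adjoint_mem hinv hZM) (step_mem hp0 hp1 t)) hy
  have hx0 := ker_mul hxM hmin hmem hzero
  have hz00 : z0 = 0 := by
    rw [← hv0, hZ, Module.End.mul_apply, hx0, map_zero]
  rw [hz00, norm_zero] at hnz0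
  exact zero_ne_one hnz0

include hinv hxM hmin in
theorem main_zero [Finite G] (hgen : Subgroup.closure {t : G | t * t = 1} = ⊤)
    (hfix : ∀ v : V, (∀ g, ρ g v = v) → v = 0) : x = 0 := by
  classical
  have : Fintype G := Fintype.ofFinite G
  by_contra hx
  obtain ⟨v1, hv1⟩ : ∃ v, x v ≠ 0 := by
    by_contra h
    push Not at h
    exact hx (LinearMap.ext h)
  -- the cone
  let C : Set V := {z | ∃ y ∈ M ρ, ∃ v, x v ≠ 0 ∧ z = y (x v)}
  have hC0 : ∀ z ∈ C, z ≠ 0 := by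
    rintro z ⟨y, hy, v, hv, rfl⟩ h
    exact hv (ker_mul hxM hmin hy h)
  have hCstep : ∀ z ∈ C, ∀ (g : G) (p : ℝ), 0 ≤ p → p ≤ 1 → step ρ (p, g) z ∈ C := by
    rintro z ⟨y, hy, v, hv, rfl⟩ g p h0 h1
    exact ⟨step ρ (p, g) * y, (M ρ).mul_mem (step_mem h0 h1 g) hy, v, hv, rfl⟩
  have hCpos : ∀ z ∈ C, ∀ t : G, t * t = 1 → 0 < ⟪z, ρ t z⟫_ℝ := by
    rintro z ⟨y, hy, v, hv, rfl⟩ t ht
    exact pos hinv hxM hmin ht hy hv
  let N : Set V := {u | ∃ z ∈ C, u = (‖z‖⁻¹ : ℝ) • z}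
  have hNn : ∀ u ∈ N, ‖u‖ = 1 := by
    rintro u ⟨z, hz, rfl⟩
    rw [norm_smul, norm_inv, norm_norm, inv_mul_cancel₀ (norm_ne_zero_iff.2 (hC0 z hz))]
  let S := closure N
  have hSn : ∀ u ∈ S, ‖u‖ = 1 := by
    intro u hu
    have hcl : IsClosed {u : V | ‖u‖ = 1} := isClosed_eq continuous_norm continuous_const
    exact (closure_minimal hNn hcl) hu
  have hSc : IsCompact S := by
    apply (isCompact_sphere (0 : V) 1).of_isClosed_subset isClosed_closure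
    intro u hu
    simpa using hSn u hu
  have hSne : S.Nonempty := by
    refine ⟨_, subset_closure ⟨x v1, ⟨1, (M ρ).one_mem, v1, hv1, rfl⟩, rfl⟩⟩
  have hcont : ∀ t : G, Continuous (fun z : V => ⟪z, ρ t z⟫_ℝ) := fun t =>
    continuous_id.inner (LinearMap.continuous_of_finiteDimensional (ρ t))
  -- minimise
  have hmins : ∀ t : G, ∃ z ∈ S, ∀ z' ∈ S, ⟪z, ρ t z⟫_ℝ ≤ ⟪z', ρ t z'⟫_ℝ := by
    intro t
    obtain ⟨z, hz, hz'⟩ := hSc.exists_isMinOn hSne (hcont t).continuousOn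
    exact ⟨z, hz, fun z' h => hz' h⟩
  choose zt hzt hztmin using hmins
  obtain ⟨t, htT, htmin⟩ := Finset.exists_min_image
    (Finset.univ.filter (fun t : G => t * t = 1)) (fun t => ⟪zt t, ρ t (zt t)⟫_ℝ)
    ⟨1, by simp⟩
  have ht : t * t = 1 := (Finset.mem_filter.1 htT).2
  set z := zt t with hz
  set m := ⟪z, ρ t z⟫_ℝ with hm
  have hmle : ∀ z' ∈ S, ∀ t' : G, t' * t' = 1 → m ≤ ⟪z', ρ t' z'⟫_ℝ := fun z' hz' t' ht' =>
    (htmin t' (by simp [ht'])).trans (hztmin t' z' hz')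
  have hm0 : 0 ≤ m := by
    have hcl : IsClosed {u : V | 0 ≤ ⟪u, ρ t u⟫_ℝ} := isClosed_le continuous_const (hcont t)
    have hsub : N ⊆ {u : V | 0 ≤ ⟪u, ρ t u⟫_ℝ} := by
      rintro u ⟨c, hc, rfl⟩
      have := (hCpos c hc t ht).le
      simp only [Set.mem_ofPred_eq, map_smul, inner_smul_left, inner_smul_right, conj_trivial]
      positivity
    exact (closure_minimal hsub hcl) (hzt t)
  -- the inequality along steps
  have hstep : ∀ u ∈ S, ∀ (g : G) (p : ℝ), 0 ≤ p → p ≤ 1 →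
      m * ‖step ρ (p, g) u‖ ^ 2 ≤ ⟪step ρ (p, g) u, ρ t (step ρ (p, g) u)⟫_ℝ := by
    intro u hu g p h0 h1
    have hc1 : Continuous (fun u : V => step ρ (p, g) u) :=
      LinearMap.continuous_of_finiteDimensional _
    have hcl : IsClosed {u : V | m * ‖step ρ (p, g) u‖ ^ 2 ≤
        ⟪step ρ (p, g) u, ρ t (step ρ (p, g) u)⟫_ℝ} :=
      isClosed_le (continuous_const.mul (hc1.norm.pow 2)) ((hcont t).comp hc1)
    have hsub : N ⊆ {u : V | m * ‖step ρ (p, g) u‖ ^ 2 ≤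
        ⟪step ρ (p, g) u, ρ t (step ρ (p, g) u)⟫_ℝ} := by
      rintro u ⟨c, hc, rfl⟩
      have hc2 := hCstep c hc g p h0 h1
      set d := step ρ (p, g) c with hd
      have hd0 : ‖d‖ ≠ 0 := norm_ne_zero_iff.2 (hC0 d hc2)
      have h2 := hmle _ (subset_closure ⟨d, hc2, rfl⟩) t ht
      simp only [map_smul, inner_smul_left, inner_smul_right, conj_trivial] at h2
      have h3 : m * ‖d‖ ^ 2 ≤ ⟪d, ρ t d⟫_ℝ := by
        have h4 : 0 < ‖d‖ ^ 2 := by positivity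
        calc m * ‖d‖ ^ 2 ≤ (‖d‖⁻¹ * (‖d‖⁻¹ * ⟪d, ρ t d⟫_ℝ)) * ‖d‖ ^ 2 :=
              mul_le_mul_of_nonneg_right h2 h4.le
          _ = ⟪d, ρ t d⟫_ℝ := by field_simp
      simp only [Set.mem_ofPred_eq, map_smul, inner_smul_left, inner_smul_right, conj_trivial,
        norm_smul, norm_inv, norm_norm]
      rw [← hd]
      have h5 : 0 ≤ ‖c‖⁻¹ ^ 2 := by positivity
      calc m * (‖c‖⁻¹ * ‖d‖) ^ 2 = ‖c‖⁻¹ ^ 2 * (m * ‖d‖ ^ 2) := by ring
        _ ≤ ‖c‖⁻¹ ^ 2 * ⟪d, ρ t d⟫_ℝ := mul_le_mul_of_nonneg_left h3 h5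
        _ = ‖c‖⁻¹ * (‖c‖⁻¹ * ⟪d, ρ t d⟫_ℝ) := by ring
    exact (closure_minimal hsub hcl) hu
  have hnz : ‖z‖ = 1 := hSn z (hzt t)
  have htinv : t⁻¹ = t := inv_eq_of_mul_eq_one_right ht
  have hsymm : ∀ a b : V, ⟪a, ρ t b⟫_ℝ = ⟪ρ t a, b⟫_ℝ := by
    intro a b
    rw [inner_inv hinv, htinv]
  have hnorm : ∀ (g : G) (u : V), ‖ρ g u‖ ^ 2 = ‖u‖ ^ 2 := by
    intro g u
    rw [← real_inner_self_eq_norm_sq, ← real_inner_self_eq_norm_sq, hinv]
  have hnn : ∀ g : G, 0 ≤ ⟪ρ g z, ρ t z⟫_ℝ - m * ⟪ρ g z, z⟫_ℝ := by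
    intro g
    apply lin_nonneg (b := ⟪ρ g z, ρ t (ρ g z)⟫_ℝ - m)
    intro p h0 h1
    have h2 := hstep z (hzt t) g p h0 h1
    rw [← real_inner_self_eq_norm_sq, step_apply] at h2
    simp only [map_add, map_smul, inner_add_left, inner_add_right, inner_smul_left,
      inner_smul_right, conj_trivial, real_inner_self_eq_norm_sq, hnz, hnorm] at h2
    have h3 : ⟪z, ρ t (ρ g z)⟫_ℝ = ⟪ρ g z, ρ t z⟫_ℝ := by
      rw [hsymm, real_inner_comm]
    have h4 : ⟪z, ρ g z⟫_ℝ = ⟪ρ g z, z⟫_ℝ := real_inner_comm _ _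
    rw [h3, h4, ← hm] at h2
    nlinarith [h2]
  have hsum0 : ∑ g : G, ρ g z = 0 := by
    apply hfix
    intro h
    rw [map_sum, ← Equiv.sum_comp (Equiv.mulLeft h) (fun g => ρ g z)]
    refine Finset.sum_congr rfl fun g _ => ?_
    rw [Equiv.coe_mulLeft, map_mul, Module.End.mul_apply]
  have hsum : ∑ g : G, (⟪ρ g z, ρ t z⟫_ℝ - m * ⟪ρ g z, z⟫_ℝ) = 0 := by
    rw [Finset.sum_sub_distrib, ← Finset.mul_sum, ← sum_inner, ← sum_inner, hsum0]
    simp
  have hall := (Finset.sum_eq_zero_iff_of_nonneg (fun g _ => hnn g)).1 hsum t (Finset.mem_univ t)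
  have hm1 : m = 1 := by
    have h1 : ⟪ρ t z, ρ t z⟫_ℝ = 1 := by
      rw [real_inner_self_eq_norm_sq, hnorm, hnz]; norm_num
    have h2 : ⟪ρ t z, z⟫_ℝ = m := by rw [hm, real_inner_comm]
    rw [h1, h2] at hall
    nlinarith
  -- now `z` is fixed by all involutions
  have hfixz : ∀ t' : G, t' * t' = 1 → ρ t' z = z := by
    intro t' ht'
    have h1 := hmle z (hzt t) t' ht'
    rw [hm1] at h1
    have h2 : ‖ρ t' z - z‖ ^ 2 ≤ 0 := by
      rw [← real_inner_self_eq_norm_sq, inner_sub_left, inner_sub_right, inner_sub_right,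
        real_inner_self_eq_norm_sq, real_inner_self_eq_norm_sq, hnorm, hnz]
      have h3 : ⟪ρ t' z, z⟫_ℝ = ⟪z, ρ t' z⟫_ℝ := real_inner_comm _ _
      rw [h3]
      linarith
    have h4 : ‖ρ t' z - z‖ = 0 := by
      have := sq_nonneg ‖ρ t' z - z‖
      have h5 : ‖ρ t' z - z‖ ^ 2 = 0 := le_antisymm h2 this
      exact pow_eq_zero_iff (two_ne_zero) |>.1 h5
    exact sub_eq_zero.1 (norm_eq_zero.1 h4)
  have hz0 : z = 0 := by
    apply hfix
    intro g
    have hg : g ∈ Subgroup.closure {t : G | t * t = 1} := by rw [hgen]; trivial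
    induction hg using Subgroup.closure_induction with
    | mem t' ht' => exact hfixz t' ht'
    | one => rw [map_one]; rfl
    | mul a b _ _ ha hb => rw [map_mul, Module.End.mul_apply, hb, ha]
    | inv a _ ha =>
      conv_lhs => rw [← ha]
      rw [← Module.End.mul_apply, ← map_mul, inv_mul_cancel, map_one]
      rfl
  rw [hz0, norm_zero] at hnz
  exact zero_ne_one hnz

end main

/-- The main lemma: some product of steps is zero. -/
theorem zero_mem [Finite G] (hinv : ∀ g v w, ⟪ρ g v, ρ g w⟫_ℝ = ⟪v, w⟫_ℝ)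
    (hgen : Subgroup.closure {t : G | t * t = 1} = ⊤)
    (hfix : ∀ v : V, (∀ g, ρ g v = v) → v = 0) :
    ∃ l : List (ℝ × G), (∀ a ∈ l, 0 ≤ a.1 ∧ a.1 ≤ 1) ∧ (l.map (step ρ)).prod = 0 := by
  classical
  have hex : ∃ n : ℕ, ∃ x ∈ M ρ, finrank ℝ (LinearMap.range x) = n :=
    ⟨_, 1, (M ρ).one_mem, rfl⟩
  obtain ⟨x, hx, hn⟩ := Nat.find_spec hex
  have hmin : ∀ y ∈ M ρ, finrank ℝ (LinearMap.range x) ≤ finrank ℝ (LinearMap.range y) := by
    intro y hy
    rw [hn]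
    exact Nat.find_min' hex ⟨y, hy, rfl⟩
  have h0 := main_zero hinv hx hmin hgen hfix
  rw [h0] at hx
  exact exists_list hx

end Q18.Mix
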