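import Pool.Agent.Q18.Mix

/-!
Distributions of random subproducts as functions on the group; finite groups generated by
involutions are mixable; extensions; finite groups without odd quotients are mixable.
-/

namespace Q18.Mix

open scoped InnerProductSpace
open Module

universe u

section fn

variable {G : Type u} [Group G]

/-- one step on functions -/
def stp (a : ℝ × G) (f : G → ℝ) : G → ℝ := fun h => (1 - a.1) * f h + a.1 * f (a.2⁻¹ * h)

/-- several steps -/
def run (l : List (ℝ × G)) (f : G → ℝ) : G → ℝ := l.foldr stp f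

theorem run_nil (f : G → ℝ) : run [] f = f := rfl

theorem run_cons (a : ℝ × G) (l : List (ℝ × G)) (f : G → ℝ) :
    run (a :: l) f = stp a (run l f) := rfl

theorem run_append (l l' : List (ℝ × G)) (f : G → ℝ) :
    run (l ++ l') f = run l (run l' f) := List.foldr_append

theorem stp_add (a : ℝ × G) (f f' : G → ℝ) : stp a (f + f') = stp a f + stp a f' := by
  funext h
  simp only [stp, Pi.add_apply]
  ring

theorem run_add (l : List (ℝ × G)) (f f' : G → ℝ) : run l (f + f') = run l f + run l f' := by
  induction l with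
  | nil => rfl
  | cons a l ih => rw [run_cons, ih, stp_add]; rfl

theorem run_const (l : List (ℝ × G)) (c : ℝ) : run l (fun _ => c) = fun _ => c := by
  induction l with
  | nil => rfl
  | cons a l ih =>
    rw [run_cons, ih]
    funext h
    simp only [stp]
    ring

open Classical in
/-- the point mass at the identity -/
noncomputable def dl (G : Type u) [Group G] : G → ℝ := fun h => if h = 1 then 1 else 0

/-- some sequence of steps makes the point mass uniform -/
def Mx (G : Type u) [Group G] : Prop :=
  ∃ l : List (ℝ × G), (∀ a ∈ l, 0 ≤ a.1 ∧ a.1 ≤ 1) ∧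
    run l (dl G) = fun _ => 1 / (Nat.card G : ℝ)

end fn

section reg

variable (G : Type u) [Group G] [Fintype G]

/-- functions with sum zero -/
def V0 : Submodule ℝ (EuclideanSpace ℝ G) where
  carrier := {v | ∑ h, v h = 0}
  add_mem' := by
    intro a b ha hb
    simp only [Set.mem_ofPred_eq] at *
    simp [Finset.sum_add_distrib, ha, hb]
  zero_mem' := by simp
  smul_mem' := by
    intro c a ha
    simp only [Set.mem_ofPred_eq] at *
    simp [← Finset.mul_sum, ha]

variable {G}

/-- the regular action -/
def Lg (g : G) : EuclideanSpace ℝ G →ₗ[ℝ] EuclideanSpace ℝ G where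
  toFun v := WithLp.toLp 2 (fun h => v (g⁻¹ * h))
  map_add' v w := by ext h; simp
  map_smul' c v := by ext h; simp

theorem Lg_apply (g : G) (v : EuclideanSpace ℝ G) (h : G) : Lg g v h = v (g⁻¹ * h) := rfl

theorem Lg_mem (g : G) : ∀ v ∈ V0 G, Lg g v ∈ V0 G := by
  intro v hv
  change ∑ h, Lg g v h = 0
  have : ∑ h, v h = 0 := hv
  rw [← this, ← Equiv.sum_comp (Equiv.mulLeft g⁻¹) (fun h => v h)]
  rfl

/-- the restricted action -/
def L0 : Representation ℝ G (V0 G) where
  toFun g := (Lg g).restrict (Lg_mem g)
  map_one' := by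
    ext v h
    simp [LinearMap.restrict_apply, Lg_apply]
  map_mul' g g' := by
    ext v h
    simp [LinearMap.restrict_apply, Lg_apply, mul_assoc]

theorem L0_apply (g : G) (v : V0 G) (h : G) : (L0 g v).1 h = v.1 (g⁻¹ * h) := rfl

theorem L0_inv (g : G) (v w : V0 G) : ⟪L0 g v, L0 g w⟫_ℝ = ⟪v, w⟫_ℝ := by
  rw [Submodule.coe_inner, Submodule.coe_inner, PiLp.inner_apply, PiLp.inner_apply,
    ← Equiv.sum_comp (Equiv.mulLeft g⁻¹) (fun h => ⟪v.1 h, w.1 h⟫_ℝ)]
  rfl

theorem L0_fix (v : V0 G) (hv : ∀ g : G, L0 g v = v) : v = 0 := by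
  have h1 : ∀ h : G, v.1 h = v.1 1 := by
    intro h
    have := congrArg (fun w : V0 G => w.1 h) (hv h)
    simp only [L0_apply, inv_mul_cancel] at this
    exact this.symm
  have h2 : ∑ h, v.1 h = 0 := v.2
  simp only [h1, Finset.sum_const, Finset.card_univ, nsmul_eq_mul] at h2
  have h3 : v.1 1 = 0 := by
    rcases mul_eq_zero.1 h2 with h | h
    · exact absurd h (by simp)
    · exact h
  ext h
  rw [h1, h3]
  rfl

theorem run_eq (l : List (ℝ × G)) (w : V0 G) (h : G) :
    (((l.map (step L0)).prod) w).1 h = run l (fun h => w.1 h) h := by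
  induction l generalizing h with
  | nil => rfl
  | cons a l ih =>
    rw [run_cons, List.map_cons, List.prod_cons, Module.End.mul_apply]
    rw [stp, ← ih, ← ih]
    rfl

theorem Mx_of_involutions {G : Type u} [Group G] [Finite G]
    (hgen : Subgroup.closure {t : G | t * t = 1} = ⊤) : Mx G := by
  classical
  have : Fintype G := Fintype.ofFinite G
  obtain ⟨l, hl, hprod⟩ := zero_mem (ρ := (L0 : Representation ℝ G (V0 G))) L0_inv hgen L0_fix
  refine ⟨l, hl, ?_⟩
  set c : ℝ := 1 / (Nat.card G : ℝ) with hc
  have hmem : WithLp.toLp 2 (fun h => dl G h - c) ∈ V0 G := by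
    change ∑ h : G, (dl G h - c) = 0
    rw [Finset.sum_sub_distrib]
    have : ∑ h : G, dl G h = 1 := by
      unfold dl
      simp
    rw [this, Finset.sum_const, Finset.card_univ, nsmul_eq_mul, hc, Nat.card_eq_fintype_card]
    have : (Fintype.card G : ℝ) ≠ 0 := by simp
    field_simp
    simp
  have h1 : run l (fun h => dl G h - c) = fun _ => 0 := by
    funext h
    have := run_eq l ⟨_, hmem⟩ h
    rw [hprod] at this
    exact this.symm
  have h2 : dl G = (fun h => dl G h - c) + (fun _ => c) := by
    funext h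
    simp
  rw [h2, run_add, h1, run_const]
  funext h
  simp

end reg

section ext

variable {G : Type u} [Group G]

/-- push forward to a quotient -/
noncomputable def psh [Fintype G] (N : Subgroup G) [N.Normal] (f : G → ℝ) : G ⧸ N → ℝ :=
  open Classical in fun q => ∑ h : G, if (QuotientGroup.mk h : G ⧸ N) = q then f h else 0

theorem psh_stp [Fintype G] (N : Subgroup G) [N.Normal] (p : ℝ) (g : G) (f : G → ℝ) :
    psh N (stp (p, g) f) = stp (p, (QuotientGroup.mk g : G ⧸ N)) (psh N f) := by
  classical
  funext q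
  simp only [psh, stp]
  have h1 : ∑ h : G, (if (QuotientGroup.mk h : G ⧸ N) = q then f (g⁻¹ * h) else 0) =
      ∑ h : G, (if (QuotientGroup.mk h : G ⧸ N) = (QuotientGroup.mk g : G ⧸ N)⁻¹ * q
        then f h else 0) := by
    rw [← Equiv.sum_comp (Equiv.mulLeft g⁻¹)
      (fun h => (if (QuotientGroup.mk h : G ⧸ N) = (QuotientGroup.mk g : G ⧸ N)⁻¹ * q
        then f h else 0))]
    refine Finset.sum_congr rfl fun h _ => ?_
    have : ((QuotientGroup.mk (Equiv.mulLeft g⁻¹ h) : G ⧸ N) =
        (QuotientGroup.mk g : G ⧸ N)⁻¹ * q) ↔ (QuotientGroup.mk h : G ⧸ N) = q := by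
      rw [Equiv.coe_mulLeft, QuotientGroup.mk_mul, QuotientGroup.mk_inv]
      exact mul_left_cancel_iff
    simp only [this]
    rfl
  rw [← h1, Finset.mul_sum, Finset.mul_sum, ← Finset.sum_add_distrib]
  refine Finset.sum_congr rfl fun h _ => ?_
  split_ifs <;> ring

theorem psh_run [Fintype G] (N : Subgroup G) [N.Normal] (l : List (ℝ × (G ⧸ N)))
    (f : G → ℝ) :
    psh N (run (l.map (fun a => (a.1, Quotient.out a.2))) f) = run l (psh N f) := by
  induction l with
  | nil => rfl
  | cons a l ih =>
    rw [List.map_cons, run_cons, run_cons, psh_stp, ih]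
    congr 1
    rw [QuotientGroup.out_eq']

theorem psh_dl [Fintype G] (N : Subgroup G) [N.Normal] : psh N (dl G) = dl (G ⧸ N) := by
  classical
  funext q
  simp only [psh, dl]
  have : ∀ h : G, (if (QuotientGroup.mk h : G ⧸ N) = q then (if h = 1 then (1 : ℝ) else 0)
      else 0) = if h = 1 then (if q = 1 then 1 else 0) else 0 := by
    intro h
    by_cases h1 : h = 1
    · subst h1
      simp only [QuotientGroup.mk_one, if_true]
      by_cases h2 : q = 1
      · simp [h2]
      · rw [if_neg (fun h => h2 h.symm), if_neg h2]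
    · simp [h1]
  simp only [this]
  simp

theorem run_sub [Fintype G] (N : Subgroup G) [Fintype N] (l : List (ℝ × N)) (f : G → ℝ)
    (h : G) :
    run (l.map (fun a => (a.1, (a.2 : G)))) f h = ∑ n : N, run l (dl N) n * f ((n : G)⁻¹ * h) := by
  classical
  induction l generalizing h with
  | nil =>
    simp only [List.map_nil, run_nil, dl]
    simp
  | cons a l ih =>
    rw [List.map_cons, run_cons, run_cons]
    simp only [stp]
    rw [ih, ih]
    have h1 : ∑ n : N, run l (dl N) n * f ((n : G)⁻¹ * ((a.2 : G)⁻¹ * h)) =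
        ∑ n : N, run l (dl N) (a.2⁻¹ * n) * f ((n : G)⁻¹ * h) := by
      rw [← Equiv.sum_comp (Equiv.mulLeft a.2⁻¹)
        (fun n : N => run l (dl N) n * f ((n : G)⁻¹ * ((a.2 : G)⁻¹ * h)))]
      refine Finset.sum_congr rfl fun n _ => ?_
      simp [mul_assoc]
    rw [h1, Finset.mul_sum, Finset.mul_sum, ← Finset.sum_add_distrib]
    refine Finset.sum_congr rfl fun n _ => ?_
    ring

theorem Mx_ext [Finite G] (N : Subgroup G) [N.Normal] (hN : Mx N) (hQ : Mx (G ⧸ N)) :
    Mx G := by
  classical
  have : Fintype G := Fintype.ofFinite G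
  obtain ⟨l, hl, hlr⟩ := hN
  obtain ⟨l', hl', hlr'⟩ := hQ
  refine ⟨l.map (fun a => (a.1, (a.2 : G))) ++ l'.map (fun a => (a.1, Quotient.out a.2)),
    ?_, ?_⟩
  · intro a ha
    rcases List.mem_append.1 ha with h | h
    · obtain ⟨b, hb, rfl⟩ := List.mem_map.1 h
      exact hl b hb
    · obtain ⟨b, hb, rfl⟩ := List.mem_map.1 h
      exact hl' b hb
  · rw [run_append]
    funext h
    rw [run_sub, hlr]
    set F := run (l'.map (fun a => (a.1, Quotient.out a.2))) (dl G) with hF
    have h1 : psh N F = fun _ => 1 / (Nat.card (G ⧸ N) : ℝ) := by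
      rw [hF, psh_run, psh_dl, hlr']
    have h2 : ∑ n : N, F ((n : G)⁻¹ * h) = psh N F (QuotientGroup.mk h) := by
      rw [psh]
      rw [← Finset.sum_filter]
      refine Finset.sum_bij (fun (n : N) _ => (n : G)⁻¹ * h) ?_ ?_ ?_ ?_
      · intro n _
        rw [Finset.mem_filter]
        refine ⟨Finset.mem_univ _, ?_⟩
        rw [QuotientGroup.eq]
        have : ((n : G)⁻¹ * h)⁻¹ * h = h⁻¹ * n * h := by group
        rw [this]
        have := (inferInstance : N.Normal).conj_mem n n.2 h⁻¹
        simpa using this
      · intro a _ b _ hab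
        have := mul_right_cancel hab
        exact Subtype.ext (inv_injective this)
      · intro b hb
        rw [Finset.mem_filter] at hb
        have h3 := hb.2
        rw [QuotientGroup.eq] at h3
        refine ⟨⟨h * b⁻¹, ?_⟩, Finset.mem_univ _, ?_⟩
        · have := (inferInstance : N.Normal).conj_mem _ h3 b
          have h4 : b * (b⁻¹ * h) * b⁻¹ = h * b⁻¹ := by group
          rwa [h4] at this
        · simp
      · intro n _
        rfl
    rw [← Finset.mul_sum, h2, h1]
    have h5 : Nat.card G = Nat.card (G ⧸ N) * Nat.card N := N.card_eq_card_quotient_mul_card_subgroup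
    rw [h5]
    push_cast
    rw [one_div_mul_one_div, mul_comm]

theorem closure_invol_normal (G : Type u) [Group G] :
    (Subgroup.closure {t : G | t * t = 1}).Normal := by
  rw [← Subgroup.normalizer_eq_top_iff, eq_top_iff]
  intro g _
  rw [Subgroup.mem_normalizer_iff]
  have key : ∀ g x : G, x ∈ Subgroup.closure {t : G | t * t = 1} →
      g * x * g⁻¹ ∈ Subgroup.closure {t : G | t * t = 1} := by
    intro g x hx
    induction hx using Subgroup.closure_induction with
    | mem t ht =>
      apply Subgroup.subset_closure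
      change (g * t * g⁻¹) * (g * t * g⁻¹) = 1
      have : (g * t * g⁻¹) * (g * t * g⁻¹) = g * (t * t) * g⁻¹ := by group
      rw [this, show t * t = 1 from ht]
      group
    | one => simp
    | mul a b _ _ ha hb =>
      have : g * (a * b) * g⁻¹ = (g * a * g⁻¹) * (g * b * g⁻¹) := by group
      rw [this]
      exact Subgroup.mul_mem _ ha hb
    | inv a _ ha =>
      have : g * a⁻¹ * g⁻¹ = (g * a * g⁻¹)⁻¹ := by group
      rw [this]
      exact Subgroup.inv_mem _ ha
  intro x
  constructor
  · exact key g x
  · intro hx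
    have := key g⁻¹ _ hx
    have h : g⁻¹ * (g * x * g⁻¹) * g⁻¹⁻¹ = x := by group
    rwa [h] at this

theorem Mx_main (n : ℕ) : ∀ (G : Type u) [Group G] [Finite G], Nat.card G = n →
    (∀ N : Subgroup G, N.Normal → Odd N.index → N = ⊤) → Mx G := by
  induction n using Nat.strong_induction_on with
  | _ n ih =>
  intro G _ _ hn hG
  rcases Nat.even_or_odd (Nat.card G) with he | ho
  · -- even order
    have h2 : 2 ∣ Nat.card G := he.two_dvd
    obtain ⟨t, ht⟩ := exists_prime_orderOf_dvd_card' 2 h2
    set N := Subgroup.closure {t : G | t * t = 1} with hN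
    have hNn : N.Normal := closure_invol_normal G
    have htN : t ∈ N := by
      apply Subgroup.subset_closure
      change t * t = 1
      rw [← pow_two, ← ht, pow_orderOf_eq_one]
    have ht1 : t ≠ 1 := by
      rintro rfl
      rw [orderOf_one] at ht
      omega
    have hgenN : Subgroup.closure {t : N | t * t = 1} = ⊤ := by
      rw [eq_top_iff]
      rintro ⟨x, hx⟩ -
      induction hx using Subgroup.closure_induction with
      | mem t ht =>
        apply Subgroup.subset_closure
        exact Subtype.ext ht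
      | one => exact Subgroup.one_mem _
      | mul a b ha' hb' ha hb => exact Subgroup.mul_mem _ ha hb
      | inv a ha' ha => exact Subgroup.inv_mem _ ha
    have hMN : Mx N := Mx_of_involutions hgenN
    have hcard : Nat.card (G ⧸ N) < n := by
      have h5 : Nat.card G = Nat.card (G ⧸ N) * Nat.card N :=
        N.card_eq_card_quotient_mul_card_subgroup
      have h6 : 1 < Nat.card N := by
        rw [Finite.one_lt_card_iff_nontrivial]
        exact ⟨⟨⟨t, htN⟩, 1, fun h => ht1 (congrArg Subtype.val h)⟩⟩
      have h7 : 0 < Nat.card (G ⧸ N) := Nat.card_pos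
      rw [← hn, h5]
      nlinarith
    have hQ : Mx (G ⧸ N) := by
      refine ih _ hcard (G ⧸ N) rfl ?_
      intro M hM hodd
      have h8 : (M.comap (QuotientGroup.mk' N)).index = M.index :=
        M.index_comap_of_surjective (QuotientGroup.mk'_surjective N)
      have h9 := hG (M.comap (QuotientGroup.mk' N)) (hM.comap _) (by rw [h8]; exact hodd)
      rw [eq_top_iff]
      intro q _
      obtain ⟨g, rfl⟩ := QuotientGroup.mk'_surjective N q
      have : g ∈ M.comap (QuotientGroup.mk' N) := by rw [h9]; trivial
      exact this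
    exact Mx_ext N hMN hQ
  · -- odd order
    have h1 : (⊥ : Subgroup G) = ⊤ := hG ⊥ inferInstance (by rw [Subgroup.index_bot]; exact ho)
    have hs : Subsingleton G := by
      refine ⟨fun a b => ?_⟩
      have ha : a ∈ (⊥ : Subgroup G) := by rw [h1]; trivial
      have hb : b ∈ (⊥ : Subgroup G) := by rw [h1]; trivial
      rw [Subgroup.mem_bot] at ha hb
      rw [ha, hb]
    refine ⟨[], by simp, ?_⟩
    funext h
    rw [run_nil, dl, if_pos (Subsingleton.elim h 1)]
    have : Nat.card G = 1 := by
      rw [Nat.card_eq_one_iff_unique]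
      exact ⟨hs, ⟨1⟩⟩
    rw [this]
    norm_num

end ext

end Q18.Mix
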