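import Mathlib

/-!
The affine group of the Dickson nearfield of order 64: the maps `x ↦ w + c ^ n * x ^ (4 ^ n)` of
the field with 64 elements. It is sharply two-fold transitive, its point stabilisers are
non-abelian of order 63, and it is generated by two elements.
-/

namespace Q18.Near

theorem iaS {X : Type} (f : Equiv.Perm X) (x : X) : f⁻¹ (f x) = x := f.symm_apply_apply x

theorem aiS {X : Type} (f : Equiv.Perm X) (x : X) : f (f⁻¹ x) = x := f.apply_symm_apply x

/-- the field with 64 elements -/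
abbrev K : Type := GaloisField 2 6

noncomputable instance : Fintype K := Fintype.ofFinite K

noncomputable instance : DecidableEq K := Classical.decEq K

theorem card_K : Fintype.card K = 64 := by
  rw [← Nat.card_eq_fintype_card, GaloisField.card 2 6 (by norm_num)]
  norm_num

theorem pow64 (x : K) : x ^ (4 ^ 3) = x := by
  have := FiniteField.pow_card x
  rw [card_K] at this
  simpa using this

theorem pow4_add (x : K) (a k : ℕ) : x ^ (4 ^ (a + 3 * k)) = x ^ (4 ^ a) := by
  induction k with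
  | zero => rfl
  | succ k ih =>
    rw [show a + 3 * (k + 1) = (a + 3 * k) + 3 by ring, pow_add, pow_mul, ih, ← pow_mul,
      mul_comm, pow_mul, pow64]

theorem pow4_congr (x : K) {a b : ℕ} (h : a ≡ b [MOD 3]) : x ^ (4 ^ a) = x ^ (4 ^ b) := by
  have h1 := pow4_add x (a % 3) (a / 3)
  have h2 := pow4_add x (b % 3) (b / 3)
  rw [Nat.mod_add_div] at h1 h2
  rw [h1, h2]
  rw [show a % 3 = b % 3 from h]

theorem exists_gen : ∃ c : Kˣ, ∀ x : Kˣ, x ∈ Subgroup.zpowers c := IsCyclic.exists_generator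

/-- a generator of the multiplicative group -/
noncomputable def cu : Kˣ := exists_gen.choose

theorem order_c : orderOf cu = 63 := by
  have h : orderOf cu = Nat.card Kˣ := orderOf_eq_card_of_forall_mem_zpowers exists_gen.choose_spec
  rw [h, Nat.card_eq_fintype_card, Fintype.card_units, card_K]

/-- the generator as an element of the field -/
noncomputable def c : K := (cu : K)

theorem c_ne : c ≠ 0 := cu.ne_zero

theorem exists_pow {x : K} (hx : x ≠ 0) : ∃ n : ℕ, c ^ n = x := by
  have h1 : Units.mk0 x hx ∈ Subgroup.zpowers cu := exists_gen.choose_spec _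
  rw [← mem_powers_iff_mem_zpowers] at h1
  obtain ⟨n, hn⟩ := h1
  refine ⟨n, ?_⟩
  have := congrArg (fun u : Kˣ => (u : K)) hn
  simpa [c] using this

theorem c_pow_eq_iff {a b : ℕ} : c ^ a = c ^ b ↔ a ≡ b [MOD 63] := by
  have : c ^ a = c ^ b ↔ cu ^ a = cu ^ b := by
    rw [c, ← Units.val_pow_eq_pow_val, ← Units.val_pow_eq_pow_val, Units.val_inj]
  rw [this, pow_eq_pow_iff_modEq, order_c]

/-- the semilinear maps -/
noncomputable def hf (n : ℕ) (x : K) : K := c ^ n * x ^ (4 ^ n)

theorem hf_add (n : ℕ) (x y : K) : hf n (x + y) = hf n x + hf n y := by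
  have : (x + y) ^ (4 ^ n) = x ^ (4 ^ n) + y ^ (4 ^ n) := by
    have h : 4 ^ n = 2 ^ (2 * n) := by rw [pow_mul]; norm_num
    rw [h]
    exact add_pow_char_pow x y 2 _
  rw [hf, this, mul_add]
  rfl

theorem hf_zero (n : ℕ) : hf n 0 = 0 := by
  rw [hf, zero_pow (by positivity), mul_zero]

theorem hf_one (n : ℕ) : hf n 1 = c ^ n := by
  rw [hf, one_pow, mul_one]

theorem hf_sub (n : ℕ) (x y : K) : hf n (x - y) = hf n x - hf n y := by
  have := hf_add n (x - y) y
  rw [sub_add_cancel] at this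
  rw [this, add_sub_cancel_right]

theorem hf_id (x : K) : hf 0 x = x := by
  simp [hf]

theorem hf_comp (n m : ℕ) (x : K) : hf n (hf m x) = hf (n + 4 ^ n * m) x := by
  unfold hf
  have h3 : n + 4 ^ n * m ≡ m + n [MOD 3] := by
    have : 4 ^ n ≡ 1 [MOD 3] := by
      have : 4 ≡ 1 [MOD 3] := by decide
      simpa using this.pow n
    calc n + 4 ^ n * m ≡ n + 1 * m [MOD 3] := (this.mul_right m).add_left n
      _ = m + n := by ring
  rw [pow4_congr x h3, mul_pow, ← pow_mul, ← pow_mul, ← pow_add 4, ← mul_assoc, ← pow_add,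
    mul_comm m (4 ^ n)]

theorem hf_congr {n m : ℕ} (h : n ≡ m [MOD 63]) (x : K) : hf n x = hf m x := by
  have h3 : n ≡ m [MOD 3] := h.of_dvd (by norm_num)
  rw [hf, hf, pow4_congr x h3, c_pow_eq_iff.2 h]

theorem hf_inj (n : ℕ) : Function.Injective (hf n) := by
  intro x y h
  have h1 : hf n (x - y) = 0 := by rw [hf_sub, h, sub_self]
  rw [hf] at h1
  rcases mul_eq_zero.1 h1 with h2 | h2
  · exact absurd h2 (pow_ne_zero _ c_ne)
  · exact sub_eq_zero.1 (pow_eq_zero_iff (by positivity) |>.1 h2)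

/-- the semilinear maps as permutations -/
noncomputable def hp (n : ℕ) : Equiv.Perm K :=
  Equiv.ofBijective (hf n) (Finite.injective_iff_bijective.1 (hf_inj n))

theorem hp_apply (n : ℕ) (x : K) : hp n x = hf n x := rfl

theorem hp_mul (n m : ℕ) : hp n * hp m = hp (n + 4 ^ n * m) := by
  ext x
  exact hf_comp n m x

theorem hp_congr {n m : ℕ} (h : n ≡ m [MOD 63]) : hp n = hp m := by
  ext x
  exact hf_congr h x

/-- the affine maps form a submonoid of the permutations -/
def AffM : Submonoid (Equiv.Perm K) where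
  carrier := {f | ∃ (n : ℕ) (w : K), ∀ x, f x = w + hf n x}
  mul_mem' := by
    rintro f g ⟨n, w, hf'⟩ ⟨m, v, hg⟩
    refine ⟨n + 4 ^ n * m, w + hf n v, fun x => ?_⟩
    rw [Equiv.Perm.mul_apply, hf', hg, hf_add, hf_comp, add_assoc]
  one_mem' := ⟨0, 0, fun x => by rw [hf_id, zero_add]; rfl⟩

/-- the affine group of the nearfield -/
def Aff : Subgroup (Equiv.Perm K) where
  carrier := AffM
  mul_mem' := AffM.mul_mem
  one_mem' := AffM.one_mem
  inv_mem' := by
    intro f hf'
    have h1 : f⁻¹ = f ^ (orderOf f - 1) := by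
      rw [inv_eq_iff_mul_eq_one, ← pow_succ', Nat.sub_add_cancel (orderOf_pos f),
        pow_orderOf_eq_one]
    rw [h1]
    exact AffM.pow_mem hf' _

theorem mem_Aff {f : Equiv.Perm K} : f ∈ Aff ↔ ∃ (n : ℕ) (w : K), ∀ x, f x = w + hf n x :=
  Iff.rfl

theorem aff_rep (g : Aff) : ∃ n : ℕ, ∀ x, g.1 x = g.1 0 + hf n x := by
  obtain ⟨n, w, h⟩ := g.2
  refine ⟨n, fun x => ?_⟩
  rw [h x, h 0, hf_zero, add_zero]

theorem aff_add (g : Aff) (x y : K) : g.1 (x + y) = g.1 x + g.1 y - g.1 0 := by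
  obtain ⟨n, h⟩ := aff_rep g
  rw [h (x + y), h x, h y, hf_add]
  ring

theorem aff_sub (g : Aff) (x y : K) : g.1 (x - y) = g.1 x - g.1 y + g.1 0 := by
  obtain ⟨n, h⟩ := aff_rep g
  rw [h (x - y), h x, h y, hf_sub]
  ring

/-- an element with two fixed points is trivial -/
theorem fix01 (g : Aff) (h0 : g.1 0 = 0) (h1 : g.1 1 = 1) : g = 1 := by
  obtain ⟨n, h⟩ := aff_rep g
  rw [h 1, h0, zero_add, hf_one, ← pow_zero c, c_pow_eq_iff] at h1
  apply Subtype.ext
  ext x
  rw [h x, h0, zero_add, hf_congr h1, hf_id]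
  rfl

/-- `(0, 1)` can be mapped to any pair of different points -/
theorem exists01 {a b : K} (hab : a ≠ b) : ∃ g : Aff, g.1 0 = a ∧ g.1 1 = b := by
  obtain ⟨n, hn⟩ := exists_pow (sub_ne_zero.2 hab.symm)
  refine ⟨⟨Equiv.addLeft a * hp n, n, a, fun x => rfl⟩, ?_, ?_⟩
  · change a + hf n 0 = a
    rw [hf_zero, add_zero]
  · change a + hf n 1 = b
    rw [hf_one, hn]
    ring

theorem trans2 {a b a' b' : K} (hab : a ≠ b) (hab' : a' ≠ b') :
    ∃ g : Aff, g.1 a = a' ∧ g.1 b = b' := by
  obtain ⟨g, h0, h1⟩ := exists01 hab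
  obtain ⟨g', h0', h1'⟩ := exists01 hab'
  refine ⟨g' * g⁻¹, ?_, ?_⟩
  · change g'.1 (g.1⁻¹ a) = a'
    rw [← h0, iaS, h0']
  · change g'.1 (g.1⁻¹ b) = b'
    rw [← h1, iaS, h1']

theorem fix2 (g : Aff) {a b : K} (hab : a ≠ b) (ha : g.1 a = a) (hb : g.1 b = b) : g = 1 := by
  obtain ⟨f, h0, h1⟩ := exists01 hab
  have h : f⁻¹ * g * f = 1 := by
    apply fix01
    · change f.1⁻¹ (g.1 (f.1 0)) = 0
      rw [h0, ha, ← h0, iaS]
    · change f.1⁻¹ (g.1 (f.1 1)) = 1
      rw [h1, hb, ← h1, iaS]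
  calc g = f * (f⁻¹ * g * f) * f⁻¹ := by group
    _ = 1 := by rw [h]; group

/-- translations -/
noncomputable def tr (w : K) : Aff := ⟨Equiv.addLeft w, 0, w, fun x => by rw [hf_id]; rfl⟩

theorem tr_apply (w x : K) : (tr w).1 x = w + x := rfl

/-- the linear maps in the affine group -/
noncomputable def hA (n : ℕ) : Aff := ⟨hp n, n, 0, fun x => by rw [zero_add]; rfl⟩

theorem hA_apply (n : ℕ) (x : K) : (hA n).1 x = hf n x := rfl

theorem hA_mul (n m : ℕ) : hA n * hA m = hA (n + 4 ^ n * m) := Subtype.ext (hp_mul n m)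

theorem hA_congr {n m : ℕ} (h : n ≡ m [MOD 63]) : hA n = hA m := Subtype.ext (hp_congr h)

/-- an element without fixed points is a translation -/
theorem fix_or_tr (g : Aff) : (∃ x, g.1 x = x) ∨ ∃ w, g = tr w := by
  obtain ⟨n, h⟩ := aff_rep g
  by_cases hinj : Function.Injective (fun x : K => x - hf n x)
  · left
    obtain ⟨x, hx⟩ := (Finite.injective_iff_surjective.1 hinj) (g.1 0)
    refine ⟨x, ?_⟩
    change x - hf n x = g.1 0 at hx
    rw [h x, ← hx]
    ring
  · right
    have : ∃ x y : K, x - hf n x = y - hf n y ∧ x ≠ y := by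
      unfold Function.Injective at hinj
      push Not at hinj
      exact hinj
    obtain ⟨x, y, hxy, hne⟩ := this
    have h1 : hA n = 1 := by
      apply fix2 (a := 0) (b := x - y) _ (sub_ne_zero.2 hne).symm
      · rw [hA_apply, hf_zero]
      · rw [hA_apply, hf_sub]
        linear_combination -hxy
    refine ⟨g.1 0, ?_⟩
    apply Subtype.ext
    ext z
    rw [h z, tr_apply]
    have h2 : (hA n).1 z = z := by rw [h1]; rfl
    rw [hA_apply] at h2
    rw [h2]

/-- the linear part -/
noncomputable def lam : Aff →* Equiv.Perm K where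
  toFun g := (Equiv.addLeft (g.1 0))⁻¹ * g.1
  map_one' := by
    ext x
    change -(0 : K) + x = x
    rw [neg_zero, zero_add]
  map_mul' g g' := by
    ext x
    change -(g.1 (g'.1 0)) + g.1 (g'.1 x) = -(g.1 0) + g.1 (-(g'.1 0) + g'.1 x)
    rw [neg_add_eq_sub (g'.1 0) (g'.1 x), aff_sub]
    ring

theorem lam_apply (g : Aff) (x : K) : lam g x = -(g.1 0) + g.1 x := rfl

theorem lam_tr (w : K) : lam (tr w) = 1 := by
  ext x
  rw [lam_apply, tr_apply, tr_apply]
  change -(w + 0) + (w + x) = x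
  ring

theorem lam_hA (n : ℕ) : lam (hA n) = hp n := by
  ext x
  rw [lam_apply, hA_apply, hA_apply, hf_zero, neg_zero, zero_add]
  rfl

theorem hp_not_comm : hp 1 * hp 9 ≠ hp 9 * hp 1 := by
  intro h
  rw [hp_mul, hp_mul] at h
  have h1 := congrArg (fun f : Equiv.Perm K => f 1) h
  simp only [hp_apply, hf_one] at h1
  rw [c_pow_eq_iff] at h1
  revert h1
  decide

/-- a translation and another element never generate the group -/
theorem not_gen_tr (w : K) (q : Aff) : Subgroup.closure {tr w, q} ≠ ⊤ := by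
  intro h
  have h1 : (Subgroup.closure {tr w, q}).map lam ≤ Subgroup.zpowers (lam q) := by
    rw [MonoidHom.map_closure, Subgroup.closure_le]
    rintro x ⟨y, hy, rfl⟩
    rcases hy with rfl | hy
    · rw [lam_tr]; exact Subgroup.one_mem _
    · rw [Set.mem_singleton_iff] at hy
      rw [hy]; exact Subgroup.mem_zpowers _
  rw [h] at h1
  have h2 : ∀ n, hp n ∈ Subgroup.zpowers (lam q) := by
    intro n
    rw [← lam_hA]
    exact h1 ⟨hA n, trivial, rfl⟩
  obtain ⟨a, ha⟩ := Subgroup.mem_zpowers_iff.1 (h2 1)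
  obtain ⟨b, hb⟩ := Subgroup.mem_zpowers_iff.1 (h2 9)
  apply hp_not_comm
  rw [← ha, ← hb, ← zpow_add, ← zpow_add, add_comm]

theorem not_comm : ∃ a b : Aff, a * b ≠ b * a := by
  refine ⟨hA 1, hA 9, fun h => hp_not_comm ?_⟩
  have := congrArg lam h
  rwa [map_mul, map_mul, lam_hA, lam_hA] at this

/-- the second generator -/
noncomputable def z : Aff := tr 1 * hA 9

theorem z_apply (x : K) : z.1 x = 1 + c ^ 9 * x := by
  change 1 + hf 9 x = _
  rw [hf, show (4 : ℕ) ^ 9 = 4 ^ (0 + 3 * 3) by norm_num, pow4_add]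
  simp

theorem lam_z : lam z = hp 9 := by
  rw [z, map_mul, lam_tr, lam_hA, one_mul]

theorem y3_apply (x : K) : ((hA 1 * hA 1 * hA 1 : Aff)).1 x = c ^ 21 * x := by
  rw [hA_mul, hA_mul, hA_apply, hf]
  have : (4 : ℕ) ^ (1 + 4 ^ 1 * 1 + 4 ^ (1 + 4 ^ 1 * 1) * 1) = 4 ^ (0 + 3 * 343) := by norm_num
  rw [this, pow4_add]
  have h2 : c ^ (1 + 4 ^ 1 * 1 + 4 ^ (1 + 4 ^ 1 * 1) * 1) = c ^ 21 := by
    rw [c_pow_eq_iff]
    decide
  rw [h2]
  simp

theorem gen2 : Subgroup.closure {hA 1, z} = ⊤ := by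
  set M := Subgroup.closure {hA 1, z} with hM
  have hy : hA 1 ∈ M := Subgroup.subset_closure (by simp)
  have hz : z ∈ M := Subgroup.subset_closure (by simp)
  -- step 1
  have hΛ1 : hp 1 ∈ M.map lam := ⟨hA 1, hy, lam_hA 1⟩
  have hΛ9 : hp 9 ∈ M.map lam := ⟨z, hz, lam_z⟩
  have hstep1 : ∀ n m, 1 + 4 * n ≡ m [MOD 63] → hp n ∈ M.map lam → hp m ∈ M.map lam := by
    intro n m h hn
    have := Subgroup.mul_mem _ hΛ1 hn
    rw [hp_mul] at this
    rwa [← hp_congr (show 1 + 4 ^ 1 * n ≡ m [MOD 63] by simpa using h)]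
  have hstep9 : ∀ n, hp n ∈ M.map lam → hp (n + 9) ∈ M.map lam := by
    intro n hn
    have := Subgroup.mul_mem _ hΛ9 hn
    rw [hp_mul] at this
    have h : 9 + 4 ^ 9 * n ≡ n + 9 [MOD 63] := by
      have : 4 ^ 9 ≡ 1 [MOD 63] := by decide
      calc 9 + 4 ^ 9 * n ≡ 9 + 1 * n [MOD 63] := (this.mul_right n).add_left 9
        _ = n + 9 := by ring
    rwa [hp_congr h] at this
  have hstep9' : ∀ j n, hp n ∈ M.map lam → hp (n + 9 * j) ∈ M.map lam := by
    intro j n hn
    induction j with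
    | zero => exact hn
    | succ j ih =>
      have := hstep9 _ ih
      rwa [show n + 9 * j + 9 = n + 9 * (j + 1) by ring] at this
  have e1 := hΛ1
  have e5 := hstep1 1 5 (by decide) e1
  have e21 := hstep1 5 21 (by decide) e5
  have e22 := hstep1 21 22 (by decide) e21
  have e26 := hstep1 22 26 (by decide) e22
  have e42 := hstep1 26 42 (by decide) e26
  have e43 := hstep1 42 43 (by decide) e42
  have e47 := hstep1 43 47 (by decide) e43
  have e0 := hstep1 47 0 (by decide) e47
  have hall : ∀ n, hp n ∈ M.map lam := by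
    intro n
    have h63 : hp n = hp (n + 63) := hp_congr (by simp [Nat.ModEq])
    rw [h63]
    have hr : n % 9 < 9 := Nat.mod_lt _ (by norm_num)
    have key : ∀ s, s ≤ 63 → s % 9 = n % 9 → hp s ∈ M.map lam → hp (n + 63) ∈ M.map lam := by
      intro s hs hs9 h
      have := hstep9' ((n + 63 - s) / 9) s h
      rwa [show s + 9 * ((n + 63 - s) / 9) = n + 63 by omega] at this
    have hcases : n % 9 = 0 ∨ n % 9 = 1 ∨ n % 9 = 2 ∨ n % 9 = 3 ∨ n % 9 = 4 ∨ n % 9 = 5 ∨
        n % 9 = 6 ∨ n % 9 = 7 ∨ n % 9 = 8 := by omega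
    rcases hcases with h | h | h | h | h | h | h | h | h
    · exact key 0 (by norm_num) (by omega) e0
    · exact key 1 (by norm_num) (by omega) e1
    · exact key 47 (by norm_num) (by omega) e47
    · exact key 21 (by norm_num) (by omega) e21
    · exact key 22 (by norm_num) (by omega) e22
    · exact key 5 (by norm_num) (by omega) e5
    · exact key 42 (by norm_num) (by omega) e42
    · exact key 43 (by norm_num) (by omega) e43
    · exact key 26 (by norm_num) (by omega) e26
  -- step 2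
  set d : K := c ^ 21 - 1 with hd
  have hd0 : d ≠ 0 := by
    rw [hd, sub_ne_zero]
    intro h
    rw [← pow_zero c, c_pow_eq_iff] at h
    revert h
    decide
  have hcomm : (hA 1 * hA 1 * hA 1) * z = tr d * (z * (hA 1 * hA 1 * hA 1)) := by
    apply Subtype.ext
    ext x
    change ((hA 1 * hA 1 * hA 1 : Aff)).1 (z.1 x) =
      d + z.1 (((hA 1 * hA 1 * hA 1 : Aff)).1 x)
    rw [y3_apply, z_apply, z_apply, y3_apply, hd]
    ring
  have hy3 : hA 1 * hA 1 * hA 1 ∈ M := M.mul_mem (M.mul_mem hy hy) hy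
  have htd : tr d ∈ M := by
    have : tr d = (hA 1 * hA 1 * hA 1) * z * (z * (hA 1 * hA 1 * hA 1))⁻¹ := by
      rw [hcomm]; group
    rw [this]
    exact M.mul_mem (M.mul_mem hy3 hz) (M.inv_mem (M.mul_mem hz hy3))
  -- step 3
  have htr : ∀ w, tr w ∈ M := by
    intro w
    by_cases hw : w = 0
    · have : tr w = 1 := by
        apply Subtype.ext
        ext x
        rw [hw, tr_apply, zero_add]
        rfl
      rw [this]
      exact M.one_mem
    · obtain ⟨a, ha⟩ := exists_pow hd0
      obtain ⟨b, hb⟩ := exists_pow hw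
      have h1 : hp b * (hp a)⁻¹ ∈ M.map lam :=
        Subgroup.mul_mem _ (hall b) (Subgroup.inv_mem _ (hall a))
      obtain ⟨m, hm, hml⟩ := h1
      have h2 : lam m d = w := by
        rw [hml, Equiv.Perm.mul_apply]
        have : (hp a) 1 = d := by rw [hp_apply, hf_one, ha]
        rw [← this, iaS, hp_apply, hf_one, hb]
      have h3 : m * tr d * m⁻¹ = tr w := by
        apply Subtype.ext
        ext x
        change m.1 (d + m.1⁻¹ x) = w + x
        rw [aff_add, aiS, ← h2, lam_apply]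
        ring
      rw [← h3]
      exact M.mul_mem (M.mul_mem hm htd) (M.inv_mem hm)
  -- step 4
  rw [eq_top_iff]
  intro g _
  obtain ⟨n, hn⟩ := aff_rep g
  obtain ⟨m, hm, hml⟩ := hall n
  have : g = tr (g.1 0 - m.1 0) * m := by
    apply Subtype.ext
    ext x
    change g.1 x = g.1 0 - m.1 0 + m.1 x
    have h2 : lam m x = hf n x := by rw [hml]; rfl
    rw [lam_apply] at h2
    rw [hn x, ← h2]
    ring
  rw [this]
  exact M.mul_mem (htr _) hm

/-- point stabilisers -/
def stab (a : K) : Subgroup Aff where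
  carrier := {g | g.1 a = a}
  mul_mem' := by
    intro g g' h h'
    change g.1 (g'.1 a) = a
    rw [show g'.1 a = a from h', show g.1 a = a from h]
  one_mem' := rfl
  inv_mem' := by
    intro g h
    change g.1⁻¹ a = a
    rw [Equiv.Perm.inv_eq_iff_eq]
    exact (show g.1 a = a from h).symm

theorem card_stab (a : K) : Nat.card (stab a) = 63 := by
  obtain ⟨b, hb⟩ : ∃ b : K, b ≠ a := exists_ne a
  have hbij : Function.Bijective (fun g : stab a => (⟨g.1.1 b, by
      intro h
      have h1 : g.1.1 b = g.1.1 a := by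
        rw [show g.1.1 a = a from g.2]; exact h
      exact hb (g.1.1.injective h1)⟩ : {x : K // x ≠ a})) := by
    constructor
    · intro g g' h
      have h1 : g.1.1 b = g'.1.1 b := congrArg Subtype.val h
      have h2 : g'.1⁻¹ * g.1 = 1 := by
        apply fix2 _ hb.symm
        · change g'.1.1⁻¹ (g.1.1 a) = a
          rw [show g.1.1 a = a from g.2, Equiv.Perm.inv_eq_iff_eq]
          exact (show g'.1.1 a = a from g'.2).symm
        · change g'.1.1⁻¹ (g.1.1 b) = b
          rw [h1, iaS]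
      exact Subtype.ext (inv_mul_eq_one.1 h2).symm
    · rintro ⟨x, hx⟩
      obtain ⟨g, h1, h2⟩ := trans2 hb.symm hx.symm
      exact ⟨⟨g, h1⟩, Subtype.ext h2⟩
  rw [Nat.card_eq_of_bijective _ hbij, Nat.card_eq_fintype_card, Fintype.card_subtype_compl,
    card_K, Fintype.card_subtype_eq]

theorem stab_coatom (a : K) : IsCoatom (stab a) := by
  constructor
  · intro h
    have : tr 1 ∈ stab a := by rw [h]; trivial
    have h1 : (1 : K) + a = a := this
    simp at h1
  · intro M hM
    obtain ⟨hle, hnle⟩ := hM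
    have : ∃ f ∈ M, f ∉ stab a := by
      by_contra hcon
      push Not at hcon
      exact hnle hcon
    obtain ⟨f, hfM, hfa⟩ := this
    have hfa' : f.1 a ≠ a := hfa
    rw [eq_top_iff]
    intro g _
    by_cases hg : g.1 a = a
    · exact hle hg
    · obtain ⟨h, h1, h2⟩ := trans2 hfa'.symm (show a ≠ g.1 a from fun h => hg h.symm)
      have h3 : (h * f)⁻¹ * g ∈ stab a := by
        change (h.1 * f.1)⁻¹ (g.1 a) = a
        rw [Equiv.Perm.inv_eq_iff_eq, Equiv.Perm.mul_apply, h2]
      have h4 : g = h * f * ((h * f)⁻¹ * g) := by group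
      rw [h4]
      exact M.mul_mem (M.mul_mem (hle h1) hfM) (hle h3)

theorem even_card : Even (Nat.card Aff) := by
  have h2 : orderOf (tr 1) = 2 := by
    apply orderOf_eq_prime
    · rw [pow_two]
      apply Subtype.ext
      ext x
      change (1 : K) + (1 + x) = x
      have : (1 : K) + 1 = 0 := CharTwo.add_self_eq_zero 1
      rw [← add_assoc, this, zero_add]
    · intro h
      have := congrArg (fun g : Aff => g.1 0) h
      have h3 : (1 : K) + 0 = 0 := this
      simp at h3
  have := orderOf_dvd_natCard (tr 1)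
  rw [h2] at this
  exact even_iff_two_dvd.2 this

end Q18.Near
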