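import Mathlib

/-!
# Identities of mutations of perm algebras, layer 1: consequences in degrees three and four
-/

set_option linter.unusedSimpArgs false

namespace Pool.Agent.Q18.PM

section Basic

variable {A : Type*} [NonUnitalNonAssocRing A]

/-- the alternating sum `f` -/
def pf (x y z : A) : A :=
  (x * y) * z + (y * z) * x + (z * x) * y - (y * x) * z - (x * z) * y - (z * y) * x

/-- the associator -/
def pas (x y z : A) : A := (x * y) * z - x * (y * z)

/-- the polynomial `WA` -/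
def pw (a b c : A) : A := pas a b c + pas b c a - pas b a c

/-- the polynomial `g1` -/
def pg1 (a b c d : A) : A :=
  ((a * b) * c) * d + ((c * d) * a) * b - ((a * d) * c) * b - ((c * b) * a) * d

/-- the polynomial `g2` -/
def pg2 (a b c d : A) : A :=
  (a * b) * (d * c) + (c * (b * a)) * d + ((b * a) * c) * d - ((a * b) * d) * c
    - ((b * c) * a) * d - ((c * a) * b) * d

/-- commutator -/
def K (x y : A) : A := x * y - y * x

/-- the commutative product -/
def J (x y : A) : A := x * y + y * x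

/-- commutator of two operators `J x` -/
def D (x y z : A) : A := J x (J y z) - J y (J x z)

/-- the algebra satisfies the four identities, and integers can be cancelled -/
structure Ids (A : Type*) [NonUnitalNonAssocRing A] : Prop where
  f : ∀ x y z : A, pf x y z = 0
  w : ∀ x y z : A, pw x y z = 0
  g1 : ∀ a b c d : A, pg1 a b c d = 0
  g2 : ∀ a b c d : A, pg2 a b c d = 0
  can : ∀ (n : ℤ) (a : A), n ≠ 0 → n • a = 0 → a = 0

theorem Ids.canc (h : Ids A) {n : ℤ} (hn : n ≠ 0) {a b : A} (e : n • a = n • b) : a = b := by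
  have := h.can n (a - b) hn (by rw [smul_sub, e, sub_self])
  exact sub_eq_zero.1 this

theorem WK (h : Ids A) (a b c : A) : K (a * b) c = K a c * b + a * K b c := by
  have e0 : pw c a b = 0 := h.w _ _ _
  refine h.canc (n := 1) (by norm_num) ?_
  simp only [pf, pw, pas, K, J, D, mul_add, add_mul, mul_sub, sub_mul] at *
  linear_combination (norm := abel) (1 : ℤ) • e0

theorem J1 (h : Ids A) (a b c : A) : J c (K a b) + J a (K b c) + J b (K c a) = 0 := by
  have e0 : pw a b c = 0 := h.w _ _ _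
  have e1 : pw a c b = 0 := h.w _ _ _
  have e2 : pf a b c = 0 := h.f _ _ _
  refine h.canc (n := 1) (by norm_num) ?_
  simp only [pf, pw, pas, K, J, D, mul_add, add_mul, mul_sub, sub_mul] at *
  linear_combination (norm := abel) (-1 : ℤ) • e0 + (1 : ℤ) • e1 + (2 : ℤ) • e2

theorem J2 (h : Ids A) (a b c : A) : K (K a b) c + K (K b c) a + K (K c a) b = 0 := by
  have e0 : pw a b c = 0 := h.w _ _ _
  have e1 : pw a c b = 0 := h.w _ _ _
  refine h.canc (n := 1) (by norm_num) ?_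
  simp only [pf, pw, pas, K, J, D, mul_add, add_mul, mul_sub, sub_mul] at *
  linear_combination (norm := abel) (1 : ℤ) • e0 + (-1 : ℤ) • e1

theorem A1 (h : Ids A) (a b c : A) : (4 : ℤ) • ((a * b) * c - a * (b * c)) = K (K a c) b - D a c b := by
  have e0 : pw a b c = 0 := h.w _ _ _
  have e1 : pw a c b = 0 := h.w _ _ _
  have e2 : pw c a b = 0 := h.w _ _ _
  refine h.canc (n := 1) (by norm_num) ?_
  simp only [pf, pw, pas, K, J, D, mul_add, add_mul, mul_sub, sub_mul] at *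
  linear_combination (norm := abel) (1 : ℤ) • e0 + (1 : ℤ) • e1 + (2 : ℤ) • e2

theorem KK (h : Ids A) (a b c d : A) : K a b * K c d = 0 := by
  have e0 : pf (a * b) c d = 0 := h.f _ _ _
  have e1 : a * pw b d c = 0 := by rw [h.w, mul_zero]
  have e2 : pg2 a b d c = 0 := h.g2 _ _ _ _
  have e3 : pw (a * c) b d = 0 := h.w _ _ _
  have e4 : pg1 a c b d = 0 := h.g1 _ _ _ _
  have e5 : pg2 a c b d = 0 := h.g2 _ _ _ _
  have e6 : a * pw c d b = 0 := by rw [h.w, mul_zero]
  have e7 : pw c d b * a = 0 := by rw [h.w, zero_mul]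
  have e8 : pf (a * d) b c = 0 := h.f _ _ _
  have e9 : pw d b c * a = 0 := by rw [h.w, zero_mul]
  have e10 : pg2 a d b c = 0 := h.g2 _ _ _ _
  have e11 : a * pw d c b = 0 := by rw [h.w, mul_zero]
  have e12 : pf a c d * b = 0 := by rw [h.f, zero_mul]
  have e13 : b * pw a c d = 0 := by rw [h.w, mul_zero]
  have e14 : pg2 b a c d = 0 := h.g2 _ _ _ _
  have e15 : b * pw c a d = 0 := by rw [h.w, mul_zero]
  have e16 : pg2 b c a d = 0 := h.g2 _ _ _ _
  have e17 : pg2 b c d a = 0 := h.g2 _ _ _ _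
  have e18 : b * pw d a c = 0 := by rw [h.w, mul_zero]
  have e19 : pw (b * d) a c = 0 := h.w _ _ _
  have e20 : pf a b d * c = 0 := by rw [h.f, zero_mul]
  have e21 : pg2 c a b d = 0 := h.g2 _ _ _ _
  have e22 : pw a d b * c = 0 := by rw [h.w, zero_mul]
  have e23 : pg1 c a d b = 0 := h.g1 _ _ _ _
  have e24 : pf (c * b) a d = 0 := h.f _ _ _
  have e25 : pw (c * b) a d = 0 := h.w _ _ _
  have e26 : pw b d a * c = 0 := by rw [h.w, zero_mul]
  have e27 : pw d a b * c = 0 := by rw [h.w, zero_mul]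
  have e28 : pg2 c d a b = 0 := h.g2 _ _ _ _
  have e29 : pw d b a * c = 0 := by rw [h.w, zero_mul]
  have e30 : pw (c * d) b a = 0 := h.w _ _ _
  have e31 : pg2 c d b a = 0 := h.g2 _ _ _ _
  have e32 : pw (d * a) b c = 0 := h.w _ _ _
  have e33 : pg2 d a b c = 0 := h.g2 _ _ _ _
  have e34 : pw a c b * d = 0 := by rw [h.w, zero_mul]
  have e35 : pg2 d a c b = 0 := h.g2 _ _ _ _
  have e36 : pf (d * b) a c = 0 := h.f _ _ _
  have e37 : pw b c a * d = 0 := by rw [h.w, zero_mul]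
  have e38 : pw (d * c) a b = 0 := h.w _ _ _
  have e39 : pw c b a * d = 0 := by rw [h.w, zero_mul]
  have e40 : pg2 d c b a = 0 := h.g2 _ _ _ _
  refine h.canc (n := 2) (by norm_num) ?_
  simp only [pf, pw, pas, pg1, pg2, K, J, D, mul_add, add_mul, mul_sub, sub_mul] at *
  linear_combination (norm := abel) (1 : ℤ) • e0 + (2 : ℤ) • e1 + (2 : ℤ) • e2 + (-2 : ℤ) • e3 + (4 : ℤ) • e4 + (1 : ℤ) • e5 + (2 : ℤ) • e6 + (-1 : ℤ) • e7 + (2 : ℤ) • e8 + (1 : ℤ) • e9 + (-1 : ℤ) • e10 + (2 : ℤ) • e11 + (-3 : ℤ) • e12 + (2 : ℤ) • e13 + (2 : ℤ) • e14 + (2 : ℤ) • e15 + (2 : ℤ) • e16 + (-2 : ℤ) • e17 + (2 : ℤ) • e18 + (-2 : ℤ) • e19 + (2 : ℤ) • e20 + (-1 : ℤ) • e21 + (3 : ℤ) • e22 + (-4 : ℤ) • e23 + (3 : ℤ) • e24 + (-2 : ℤ) • e25 + (2 : ℤ) • e26 + (2 : ℤ) • e27 + (-2 : ℤ) • e28 + (1 : ℤ) • e29 + (-2 : ℤ) • e30 + (-1 : ℤ) • e31 + (-2 : ℤ) • e32 + (3 : ℤ) • e33 + (1 : ℤ) • e34 + (-2 : ℤ) • e35 + (-1 : ℤ) • e36 + (2 : ℤ) • e37 + (-2 : ℤ) • e38 + (1 : ℤ) •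 e39 + (-1 : ℤ) • e40

theorem LL (h : Ids A) (a b c d : A) : a * (b * K c d) = b * (a * K c d) := by
  have e0 : pf b c d * a = 0 := by rw [h.f, zero_mul]
  have e1 : K a b * K c d = 0 := KK h a b c d
  have e2 : pw b d c * a = 0 := by rw [h.w, zero_mul]
  have e3 : pw c b d * a = 0 := by rw [h.w, zero_mul]
  have e4 : pg1 a c b d = 0 := h.g1 _ _ _ _
  have e5 : pg2 a c d b = 0 := h.g2 _ _ _ _
  have e6 : pw (a * d) b c = 0 := h.w _ _ _
  have e7 : b * pf a c d = 0 := by rw [h.f, mul_zero]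
  have e8 : pf a c d * b = 0 := by rw [h.f, zero_mul]
  have e9 : b * pw a c d = 0 := by rw [h.w, mul_zero]
  have e10 : pw a d c * b = 0 := by rw [h.w, zero_mul]
  have e11 : pg2 b a d c = 0 := h.g2 _ _ _ _
  have e12 : pf (b * c) a d = 0 := h.f _ _ _
  have e13 : pw c d a * b = 0 := by rw [h.w, zero_mul]
  have e14 : pg2 b c d a = 0 := h.g2 _ _ _ _
  have e15 : pf (b * d) a c = 0 := h.f _ _ _
  have e16 : b * pw d c a = 0 := by rw [h.w, mul_zero]
  have e17 : pf a b d * c = 0 := by rw [h.f, zero_mul]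
  have e18 : pf (c * a) b d = 0 := h.f _ _ _
  have e19 : pw (c * a) b d = 0 := h.w _ _ _
  have e20 : pg1 c a d b = 0 := h.g1 _ _ _ _
  have e21 : pw b a d * c = 0 := by rw [h.w, zero_mul]
  have e22 : pg2 c b a d = 0 := h.g2 _ _ _ _
  have e23 : pw d a b * c = 0 := by rw [h.w, zero_mul]
  have e24 : pw a b (c * d) = 0 := h.w _ _ _
  have e25 : pg2 c d a b = 0 := h.g2 _ _ _ _
  have e26 : pw (c * d) b a = 0 := h.w _ _ _
  have e27 : pf (d * a) b c = 0 := h.f _ _ _
  have e28 : pw (d * a) b c = 0 := h.w _ _ _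
  have e29 : pg2 d b a c = 0 := h.g2 _ _ _ _
  have e30 : pw a b (d * c) = 0 := h.w _ _ _
  refine h.canc (n := 3) (by norm_num) ?_
  simp only [pf, pw, pas, pg1, pg2, K, J, D, mul_add, add_mul, mul_sub, sub_mul] at *
  linear_combination (norm := abel) (1 : ℤ) • e0 + (3 : ℤ) • e1 + (1 : ℤ) • e2 + (2 : ℤ) • e3 + (-3 : ℤ) • e4 + (-2 : ℤ) • e5 + (-1 : ℤ) • e6 + (-1 : ℤ) • e7 + (-1 : ℤ) • e8 + (1 : ℤ) • e9 + (-1 : ℤ) • e10 + (1 : ℤ) • e11 + (-1 : ℤ) • e12 + (-1 : ℤ) • e13 + (1 : ℤ) • e14 + (2 : ℤ) • e15 + (2 : ℤ) • e16 + (-1 : ℤ) • e17 + (2 : ℤ) • e18 + (-2 : ℤ) • e19 + (3 : ℤ) • e20 + (1 : ℤ) • e21 + (-1 : ℤ) • e22 + (1 : ℤ) • e23 + (-3 : ℤ) • e24 + (-1 : ℤ) • e25 + (-1 : ℤ) • e26 + (-1 : ℤ) • e27 + (1 : ℤ) • e28 + (2 : ℤ) • e29 + (3 : ℤ) • e30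

theorem LR2 (h : Ids A) (a b c d : A) : a * (K c d * b) = b * (K c d * a) := by
  have e0 : a * pf b c d = 0 := by rw [h.f, mul_zero]
  have e1 : pf b c d * a = 0 := by rw [h.f, zero_mul]
  have e2 : pg2 a b c d = 0 := h.g2 _ _ _ _
  have e3 : a * pw b d c = 0 := by rw [h.w, mul_zero]
  have e4 : pw b d c * a = 0 := by rw [h.w, zero_mul]
  have e5 : pf (a * c) b d = 0 := h.f _ _ _
  have e6 : pg1 a c b d = 0 := h.g1 _ _ _ _
  have e7 : a * pw c d b = 0 := by rw [h.w, mul_zero]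
  have e8 : pf (a * d) b c = 0 := h.f _ _ _
  have e9 : pw d b c * a = 0 := by rw [h.w, zero_mul]
  have e10 : pg2 a d c b = 0 := h.g2 _ _ _ _
  have e11 : pf a c d * b = 0 := by rw [h.f, zero_mul]
  have e12 : pw a c d * b = 0 := by rw [h.w, zero_mul]
  have e13 : pw (b * c) a d = 0 := h.w _ _ _
  have e14 : pw d a c * b = 0 := by rw [h.w, zero_mul]
  have e15 : pg2 b d c a = 0 := h.g2 _ _ _ _
  have e16 : pg2 c a b d = 0 := h.g2 _ _ _ _
  have e17 : pg1 c a d b = 0 := h.g1 _ _ _ _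
  have e18 : pf (c * b) a d = 0 := h.f _ _ _
  have e19 : pw (c * b) a d = 0 := h.w _ _ _
  have e20 : pg2 c d a b = 0 := h.g2 _ _ _ _
  have e21 : pw b (c * d) a = 0 := h.w _ _ _
  have e22 : pg2 c d b a = 0 := h.g2 _ _ _ _
  have e23 : pf a b c * d = 0 := by rw [h.f, zero_mul]
  have e24 : pg2 d a b c = 0 := h.g2 _ _ _ _
  have e25 : pw a c b * d = 0 := by rw [h.w, zero_mul]
  have e26 : pf (d * b) a c = 0 := h.f _ _ _
  have e27 : pw (d * b) a c = 0 := h.w _ _ _
  have e28 : pw c a b * d = 0 := by rw [h.w, zero_mul]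
  have e29 : pw (d * c) a b = 0 := h.w _ _ _
  have e30 : pg2 d c a b = 0 := h.g2 _ _ _ _
  have e31 : pw b (d * c) a = 0 := h.w _ _ _
  have e32 : pg2 d c b a = 0 := h.g2 _ _ _ _
  refine h.canc (n := 3) (by norm_num) ?_
  simp only [pf, pw, pas, pg1, pg2, K, J, D, mul_add, add_mul, mul_sub, sub_mul] at *
  linear_combination (norm := abel) (1 : ℤ) • e0 + (4 : ℤ) • e1 + (1 : ℤ) • e2 + (1 : ℤ) • e3 + (-1 : ℤ) • e4 + (2 : ℤ) • e5 + (-3 : ℤ) • e6 + (2 : ℤ) • e7 + (-1 : ℤ) • e8 + (-1 : ℤ) • e9 + (1 : ℤ) • e10 + (-4 : ℤ) • e11 + (1 : ℤ) • e12 + (-1 : ℤ) • e13 + (2 : ℤ) • e14 + (-2 : ℤ) • e15 + (2 : ℤ) • e16 + (3 : ℤ) • e17 + (-1 : ℤ) • e18 + (1 : ℤ) • e19 + (-3 : ℤ) • e20 + (3 : ℤ) • e21 + (3 : ℤ) • e22 + (1 : ℤ) • e23 + (-1 : ℤ) • e24 + (1 : ℤ) • e25 + (2 : ℤ) • e26 + (-2 : ℤ) • e27 + (1 : ℤ) • e28 + (-1 : ℤ) • e29 + (3 : ℤ) • e30 + (-3 : ℤ) • e31 + (-4 : ℤ) • e32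

theorem LR (h : Ids A) (a b c d : A) : a * (K c d * b) = (a * K c d) * b := by
  have e0 : K a b * K c d = 0 := KK h a b c d
  have e1 : a * (b * K c d) = b * (a * K c d) := LL h a b c d
  have e2 : pw b a (c * d) = 0 := h.w _ _ _
  have e3 : pw b a (d * c) = 0 := h.w _ _ _
  refine h.canc (n := 1) (by norm_num) ?_
  simp only [pf, pw, pas, pg1, pg2, K, J, D, mul_add, add_mul, mul_sub, sub_mul] at *
  linear_combination (norm := abel) (-1 : ℤ) • e0 + (1 : ℤ) • e1 + (-1 : ℤ) • e2 + (1 : ℤ) • e3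

theorem RR (h : Ids A) (a b c d : A) : (K c d * b) * a = (K c d * a) * b := by
  have e0 : K a b * K c d = 0 := KK h a b c d
  have e1 : a * (b * K c d) = b * (a * K c d) := LL h a b c d
  have e2 : pw a (c * d) b = 0 := h.w _ _ _
  have e3 : K c d * K a b = 0 := KK h c d a b
  have e4 : pw b a (c * d) = 0 := h.w _ _ _
  have e5 : pw a (d * c) b = 0 := h.w _ _ _
  have e6 : pw b a (d * c) = 0 := h.w _ _ _
  refine h.canc (n := 1) (by norm_num) ?_
  simp only [pf, pw, pas, pg1, pg2, K, J, D, mul_add, add_mul, mul_sub, sub_mul] at *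
  linear_combination (norm := abel) (-1 : ℤ) • e0 + (1 : ℤ) • e1 + (1 : ℤ) • e2 + (-1 : ℤ) • e3 + (-1 : ℤ) • e4 + (-1 : ℤ) • e5 + (1 : ℤ) • e6

theorem Lab (h : Ids A) (a b c d : A) : (a * b) * K c d = a * J b (K c d) := by
  have e0 : pf b c d * a = 0 := by rw [h.f, zero_mul]
  have e1 : a * (K c d * b) = b * (K c d * a) := LR2 h a b c d
  have e2 : pw (c * d) a b = 0 := h.w _ _ _
  have e3 : pw a (c * d) b = 0 := h.w _ _ _
  have e4 : pw b (c * d) a = 0 := h.w _ _ _
  have e5 : pg2 c d b a = 0 := h.g2 _ _ _ _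
  have e6 : pw (d * c) a b = 0 := h.w _ _ _
  have e7 : pw a (d * c) b = 0 := h.w _ _ _
  have e8 : pw b (d * c) a = 0 := h.w _ _ _
  have e9 : pg2 d c b a = 0 := h.g2 _ _ _ _
  refine h.canc (n := 1) (by norm_num) ?_
  simp only [pf, pw, pas, pg1, pg2, K, J, D, mul_add, add_mul, mul_sub, sub_mul] at *
  linear_combination (norm := abel) (1 : ℤ) • e0 + (-1 : ℤ) • e1 + (1 : ℤ) • e2 + (1 : ℤ) • e3 + (1 : ℤ) • e4 + (1 : ℤ) • e5 + (-1 : ℤ) • e6 + (-1 : ℤ) • e7 + (-1 : ℤ) • e8 + (-1 : ℤ) • e9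

theorem Rab (h : Ids A) (a b c d : A) : K c d * (a * b) = J b (K c d) * a := by
  have e0 : pf b c d * a = 0 := by rw [h.f, zero_mul]
  have e1 : K a b * K c d = 0 := KK h a b c d
  have e2 : a * (b * K c d) = b * (a * K c d) := LL h a b c d
  have e3 : pw a (c * d) b = 0 := h.w _ _ _
  have e4 : K c d * K a b = 0 := KK h c d a b
  have e5 : pw b a (c * d) = 0 := h.w _ _ _
  have e6 : pg2 c d b a = 0 := h.g2 _ _ _ _
  have e7 : pw a (d * c) b = 0 := h.w _ _ _
  have e8 : pw b a (d * c) = 0 := h.w _ _ _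
  have e9 : pg2 d c b a = 0 := h.g2 _ _ _ _
  refine h.canc (n := 1) (by norm_num) ?_
  simp only [pf, pw, pas, pg1, pg2, K, J, D, mul_add, add_mul, mul_sub, sub_mul] at *
  linear_combination (norm := abel) (1 : ℤ) • e0 + (1 : ℤ) • e1 + (-1 : ℤ) • e2 + (-1 : ℤ) • e3 + (1 : ℤ) • e4 + (1 : ℤ) • e5 + (1 : ℤ) • e6 + (1 : ℤ) • e7 + (-1 : ℤ) • e8 + (-1 : ℤ) • e9

theorem I1 (h : Ids A) (a b c d : A) : D c d b * a - a * D c d b = J a (J b (K c d)) := by
  have e0 : a * (K c d * b) = b * (K c d * a) := LR2 h a b c d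
  have e1 : a * pw c b d = 0 := by rw [h.w, mul_zero]
  have e2 : K a c * K b d = 0 := KK h a c b d
  have e3 : a * pw c d b = 0 := by rw [h.w, mul_zero]
  have e4 : pw c d b * a = 0 := by rw [h.w, zero_mul]
  have e5 : pw d b c * a = 0 := by rw [h.w, zero_mul]
  have e6 : a * pw d c b = 0 := by rw [h.w, mul_zero]
  have e7 : pw d c b * a = 0 := by rw [h.w, zero_mul]
  have e8 : b * pf a c d = 0 := by rw [h.f, mul_zero]
  have e9 : b * (K c d * a) = (b * K c d) * a := LR h b a c d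
  have e10 : b * (K a d * c) = c * (K a d * b) := LR2 h b c a d
  have e11 : pw a c (b * d) = 0 := h.w _ _ _
  have e12 : b * (K a c * d) = (b * K a c) * d := LR h b d a c
  have e13 : c * pw a b d = 0 := by rw [h.w, mul_zero]
  have e14 : pw a (c * b) d = 0 := h.w _ _ _
  have e15 : (c * b) * K a d = c * J b (K a d) := Lab h c b a d
  have e16 : c * (K a b * d) = (c * K a b) * d := LR h c d a b
  have e17 : pw a c b * d = 0 := by rw [h.w, zero_mul]
  have e18 : K a c * (d * b) = J b (K a c) * d := Rab h d b a c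
  refine h.canc (n := 1) (by norm_num) ?_
  simp only [pf, pw, pas, pg1, pg2, K, J, D, mul_add, add_mul, mul_sub, sub_mul] at *
  linear_combination (norm := abel) (-2 : ℤ) • e0 + (-1 : ℤ) • e1 + (-4 : ℤ) • e2 + (-1 : ℤ) • e3 + (2 : ℤ) • e4 + (-1 : ℤ) • e5 + (-2 : ℤ) • e6 + (3 : ℤ) • e7 + (-4 : ℤ) • e8 + (2 : ℤ) • e9 + (-4 : ℤ) • e10 + (4 : ℤ) • e11 + (4 : ℤ) • e12 + (4 : ℤ) • e13 + (-4 : ℤ) • e14 + (4 : ℤ) • e15 + (-4 : ℤ) • e16 + (-4 : ℤ) • e17 + (-4 : ℤ) • e18

theorem I2 (h : Ids A) (a b c d : A) : J a (D c d b) = D c d (a * b) := by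
  have e0 : pw c (a * b) d = 0 := h.w _ _ _
  have e1 : pg2 a b c d = 0 := h.g2 _ _ _ _
  have e2 : (K c d * b) * a = (K c d * a) * b := RR h a b c d
  have e3 : (a * b) * K c d = a * J b (K c d) := Lab h a b c d
  have e4 : K c d * (a * b) = J b (K c d) * a := Rab h a b c d
  have e5 : D c d b * a - a * D c d b = J a (J b (K c d)) := I1 h a b c d
  have e6 : pw d (a * b) c = 0 := h.w _ _ _
  have e7 : pw d c (a * b) = 0 := h.w _ _ _
  have e8 : pg2 a b d c = 0 := h.g2 _ _ _ _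
  have e9 : pg1 a c b d = 0 := h.g1 _ _ _ _
  have e10 : pw c d b * a = 0 := by rw [h.w, zero_mul]
  have e11 : pw d b c * a = 0 := by rw [h.w, zero_mul]
  have e12 : pw d c b * a = 0 := by rw [h.w, zero_mul]
  have e13 : pf a c d * b = 0 := by rw [h.f, zero_mul]
  have e14 : pf (b * a) c d = 0 := h.f _ _ _
  have e15 : pg1 b a c d = 0 := h.g1 _ _ _ _
  have e16 : pg1 b a d c = 0 := h.g1 _ _ _ _
  have e17 : (K a d * c) * b = (K a d * b) * c := RR h b c a d
  have e18 : (K a c * d) * b = (K a c * b) * d := RR h b d a c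
  have e19 : K c d * K a b = 0 := KK h c d a b
  refine h.canc (n := 1) (by norm_num) ?_
  simp only [pf, pw, pas, pg1, pg2, K, J, D, mul_add, add_mul, mul_sub, sub_mul] at *
  linear_combination (norm := abel) (2 : ℤ) • e0 + (4 : ℤ) • e1 + (4 : ℤ) • e2 + (1 : ℤ) • e3 + (-5 : ℤ) • e4 + (-1 : ℤ) • e5 + (-1 : ℤ) • e6 + (-1 : ℤ) • e7 + (-4 : ℤ) • e8 + (-4 : ℤ) • e9 + (-4 : ℤ) • e10 + (6 : ℤ) • e11 + (-2 : ℤ) • e12 + (4 : ℤ) • e13 + (4 : ℤ) • e14 + (-8 : ℤ) • e15 + (8 : ℤ) • e16 + (4 : ℤ) • e17 + (-4 : ℤ) • e18 + (4 : ℤ) • e19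

theorem I2b (h : Ids A) (a b c d : A) : J a (D c d b) = D c d (b * a) := by
  have e0 : J a (D c d b) = D c d (a * b) := I2 h a b c d
  have e1 : c * (d * K a b) = d * (c * K a b) := LL h c d a b
  have e2 : c * (K a b * d) = (c * K a b) * d := LR h c d a b
  have e3 : (K a b * d) * c = (K a b * c) * d := RR h c d a b
  have e4 : d * (K a b * c) = (d * K a b) * c := LR h d c a b
  refine h.canc (n := 1) (by norm_num) ?_
  simp only [pf, pw, pas, pg1, pg2, K, J, D, mul_add, add_mul, mul_sub, sub_mul] at *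
  linear_combination (norm := abel) (1 : ℤ) • e0 + (1 : ℤ) • e1 + (1 : ℤ) • e2 + (1 : ℤ) • e3 + (-1 : ℤ) • e4

theorem I3 (h : Ids A) (a b c d : A) : D (a * b) c d = D a c d * b + a * D b c d := by
  have e0 : pw b c d * a = 0 := by rw [h.w, zero_mul]
  have e1 : pw (a * b) c d = 0 := h.w _ _ _
  have e2 : pw c (a * b) d = 0 := h.w _ _ _
  have e3 : pg1 a b c d = 0 := h.g1 _ _ _ _
  have e4 : (K c d * b) * a = (K c d * a) * b := RR h a b c d
  have e5 : pw (a * b) d c = 0 := h.w _ _ _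
  have e6 : pw c b d * a = 0 := by rw [h.w, zero_mul]
  have e7 : pw c d b * a = 0 := by rw [h.w, zero_mul]
  have e8 : (K b c * d) * a = (K b c * a) * d := RR h a d b c
  have e9 : J a (D b c d) = D b c (a * d) := I2 h a d b c
  have e10 : pw a c d * b = 0 := by rw [h.w, zero_mul]
  have e11 : pg1 b a c d = 0 := h.g1 _ _ _ _
  have e12 : pg2 b a c d = 0 := h.g2 _ _ _ _
  have e13 : pw a d c * b = 0 := by rw [h.w, zero_mul]
  have e14 : pw c d a * b = 0 := by rw [h.w, zero_mul]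
  have e15 : (K a c * d) * b = (K a c * b) * d := RR h b d a c
  have e16 : (K a b * d) * c = (K a b * c) * d := RR h c d a b
  have e17 : d * (K b c * a) = (d * K b c) * a := LR h d a b c
  have e18 : D b c a * d - d * D b c a = J d (J a (K b c)) := I1 h d a b c
  have e19 : J d (D b c a) = D b c (a * d) := I2b h d a b c
  have e20 : pw b a c * d = 0 := by rw [h.w, zero_mul]
  have e21 : d * (K a c * b) = (d * K a c) * b := LR h d b a c
  have e22 : pw b c a * d = 0 := by rw [h.w, zero_mul]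
  have e23 : pf (d * c) a b = 0 := h.f _ _ _
  have e24 : d * pw c a b = 0 := by rw [h.w, mul_zero]
  have e25 : pw c a b * d = 0 := by rw [h.w, zero_mul]
  refine h.canc (n := 1) (by norm_num) ?_
  simp only [pf, pw, pas, pg1, pg2, K, J, D, mul_add, add_mul, mul_sub, sub_mul] at *
  linear_combination (norm := abel) (2 : ℤ) • e0 + (1 : ℤ) • e1 + (2 : ℤ) • e2 + (-4 : ℤ) • e3 + (-4 : ℤ) • e4 + (1 : ℤ) • e5 + (3 : ℤ) • e6 + (-1 : ℤ) • e7 + (1 : ℤ) • e8 + (-1 : ℤ) • e9 + (1 : ℤ) • e10 + (4 : ℤ) • e11 + (4 : ℤ) • e12 + (-3 : ℤ) • e13 + (-2 : ℤ) • e14 + (-1 : ℤ) • e15 + (-4 : ℤ) • e16 + (1 : ℤ) • e17 + (1 : ℤ) • e18 + (1 : ℤ) • e19 + (2 : ℤ) • e20 + (-1 : ℤ) • e21 + (2 : ℤ) • e22 + (4 : ℤ) • e23 + (-1 : ℤ) • e24 + (1 : ℤ) • e25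


/-! ### derived identities in terms of `J` and `K` -/

/-- the operator relations satisfied by an element -/
structure Good (d : A) : Prop where
  mm : ∀ a b, J a (J b d) = J b (J a d)
  qq : ∀ a b, K (K d a) b = K (K d b) a
  qm : ∀ a b, K (J b d) a = J b (K d a)
  qm' : ∀ a b, K (J b d) a = K (J a d) b
  jm : ∀ a b, J (a * b) d = J a (J b d)
  qj : ∀ a b, K d (a * b) = K (J b d) a

theorem goodK (h : Ids A) (x y : A) : Good (K x y) := by
  have LL' := fun a b => LL h a b x y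
  have RR' := fun a b => RR h a b x y
  have LR' := fun a b => LR h a b x y
  have LR2' := fun a b => LR2 h a b x y
  have Lab' := fun a b => Lab h a b x y
  have Rab' := fun a b => Rab h a b x y
  generalize K x y = d at *
  refine ⟨?_, ?_, ?_, ?_, ?_, ?_⟩
  · intro a b
    have e1 := LL' a b
    have e2 := RR' a b
    have e3 := LR' a b
    have e4 := LR' b a
    have e5 := LR2' a b
    simp only [J, mul_add, add_mul]
    linear_combination (norm := abel) (1 : ℤ) • e1 + (1 : ℤ) • e2 + (1 : ℤ) • e3 - (1 : ℤ) • e4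
  · intro a b
    have e1 := LL' a b
    have e2 := RR' a b
    have e3 := LR' a b
    have e4 := LR' b a
    have e5 := LR2' a b
    simp only [K, mul_sub, sub_mul]
    linear_combination (norm := abel) (-1 : ℤ) • e1 + (-1 : ℤ) • e2 + (1 : ℤ) • e3 - (1 : ℤ) • e4
  · intro a b
    have e1 := LL' a b
    have e2 := RR' a b
    have e3 := LR' a b
    have e4 := LR' b a
    have e5 := LR2' a b
    simp only [K, J, mul_sub, sub_mul, mul_add, add_mul]
    linear_combination (norm := abel) (-1 : ℤ) • e1 + (1 : ℤ) • e2 - (1 : ℤ) • e3 - (1 : ℤ) • e4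
  · intro a b
    have e1 := LL' a b
    have e2 := RR' a b
    have e3 := LR' a b
    have e4 := LR' b a
    have e5 := LR2' a b
    simp only [K, J, mul_sub, sub_mul, mul_add, add_mul]
    linear_combination (norm := abel) (-1 : ℤ) • e1 + (1 : ℤ) • e2 + (1 : ℤ) • e3 - (1 : ℤ) • e4 - (2 : ℤ) • e5
  · intro a b
    simp only [J] at *
    rw [Lab', Rab']
  · intro a b
    simp only [K, J] at *
    rw [Lab', Rab']


theorem J_comm (x y : A) : J x y = J y x := by simp only [J]; abel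

theorem K_neg (x y : A) : K x y = - K y x := by simp only [K]; abel

theorem D_neg (x y z : A) : D x y z = - D y x z := by simp only [D]; abel

theorem K_self (x : A) : K x x = 0 := by simp [K]

theorem D_self (x y : A) : D x x y = 0 := by simp [D]

theorem J_add (a x y : A) : J a (x + y) = J a x + J a y := by
  simp only [J, mul_add, add_mul]; abel

theorem J_sub (a x y : A) : J a (x - y) = J a x - J a y := by
  simp only [J, mul_sub, sub_mul]; abel

theorem J_neg (a x : A) : J a (-x) = - J a x := by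
  simp only [J, mul_neg, neg_mul]; abel

theorem K_add_left (a x y : A) : K (x + y) a = K x a + K y a := by
  simp only [K, mul_add, add_mul]; abel

theorem K_sub_left (a x y : A) : K (x - y) a = K x a - K y a := by
  simp only [K, mul_sub, sub_mul]; abel

/-- `3 J z (K x y)` is a difference of commutators -/
theorem J3 (h : Ids A) (x y z : A) :
    (3 : ℤ) • J z (K x y) = K x (J y z) - K y (J x z) := by
  have e1 := WK h y z x
  have e2 := WK h z y x
  have e3 := WK h x z y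
  have e4 := WK h z x y
  have e5 := J1 h x y z
  have e6 := K_neg x (J y z)
  have e7 := K_neg y (J x z)
  rw [e6, e7]
  simp only [J, K_add_left]
  rw [e1, e2, e3, e4]
  simp only [J, K, mul_sub, sub_mul] at *
  linear_combination (norm := abel) (1 : ℤ) • e5

/-- the Jacobi identity for `D` -/
theorem D_jac (x y z : A) : D x y z = D x z y - D y z x := by
  simp only [D]
  rw [J_comm z y, J_comm z x, J_comm y x]
  abel

theorem K_jac (h : Ids A) (x y z : A) : K (K x y) z = K (K x z) y - K (K y z) x := by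
  have e := J2 h x y z
  have e1 := K_neg z x
  rw [e1] at e
  simp only [K, mul_sub, sub_mul, mul_neg, neg_mul] at *
  linear_combination (norm := abel) (1 : ℤ) • e

theorem J_jac (h : Ids A) (x y z : A) : J z (K x y) = J y (K x z) - J x (K y z) := by
  have e := J1 h x y z
  simp only [K, J, mul_sub, sub_mul, mul_neg, neg_mul] at *
  linear_combination (norm := abel) (1 : ℤ) • e

theorem D_J (h : Ids A) (x y z w : A) : D x y (J z w) = (2 : ℤ) • J z (D x y w) := by
  have e1 := I2 h z w x y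
  have e2 := I2b h z w x y
  have : D x y (J z w) = D x y (z * w) + D x y (w * z) := by
    simp only [D, J_add]
    rw [show J z w = z * w + w * z from rfl]
    simp only [J_add]
    abel
  rw [this, ← e1, ← e2, two_smul]

theorem D_D (h : Ids A) (c a x y b : A) :
    D c a (D x y b) = (4 : ℤ) • D x y (D c a b) := by
  have e1 := D_J h c a x (J y b)
  have e2 := D_J h c a y (J x b)
  have e3 := D_J h c a y b
  have e4 := D_J h c a x b
  have : D c a (D x y b) = D c a (J x (J y b)) - D c a (J y (J x b)) := by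
    rw [show D x y b = J x (J y b) - J y (J x b) from rfl]
    simp only [D, J_sub]
    abel
  rw [this, e1, e2, e3, e4]
  have hz : ∀ (p q : A), J p ((2 : ℤ) • q) = (2 : ℤ) • J p q := by
    intro p q; simp only [two_smul, J_add]
  rw [hz, hz, show D x y (D c a b) = J x (J y (D c a b)) - J y (J x (D c a b)) from rfl]
  simp only [smul_sub, smul_smul]
  norm_num

theorem D_D_zero (h : Ids A) (c a x y b : A) : D c a (D x y b) = 0 := by
  have e1 := D_D h c a x y b
  have e2 := D_D h x y c a b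
  rw [e2, smul_smul] at e1
  refine h.can 15 _ (by norm_num) ?_
  have e3 : (15 : ℤ) • D c a (D x y b) = (4 * 4 : ℤ) • D c a (D x y b) - D c a (D x y b) := by
    rw [show (4 * 4 : ℤ) = 15 + 1 by norm_num, add_smul, one_smul, add_sub_cancel_right]
  rw [e3, ← e1, sub_self]

theorem J_zsmul (n : ℤ) (a x : A) : J a (n • x) = n • J a x := by
  simp only [J, mul_smul_comm, smul_mul_assoc, smul_add]

theorem K_zsmul (n : ℤ) (a x : A) : K (n • x) a = n • K x a := by
  simp only [K, mul_smul_comm, smul_mul_assoc, smul_sub]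

theorem Good.sub {d e : A} (hd : Good d) (he : Good e) : Good (d - e) := by
  refine ⟨?_, ?_, ?_, ?_, ?_, ?_⟩
  · intro a b; simp only [J_sub]; rw [hd.mm, he.mm]
  · intro a b; simp only [K_sub_left]; rw [hd.qq, he.qq]
  · intro a b; simp only [J_sub, K_sub_left]; rw [hd.qm, he.qm]
  · intro a b; simp only [J_sub, K_sub_left]; rw [hd.qm', he.qm']
  · intro a b; simp only [J_sub]; rw [hd.jm, he.jm]
  · intro a b; simp only [J_sub, K_sub_left]; rw [hd.qj, he.qj]

theorem Good.of_zsmul (h : Ids A) {n : ℤ} (hn : n ≠ 0) {d : A} (hd : Good (n • d)) : Good d := by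
  refine ⟨?_, ?_, ?_, ?_, ?_, ?_⟩
  · intro a b; refine h.canc hn ?_; have := hd.mm a b; simpa only [J_zsmul, K_zsmul] using this
  · intro a b; refine h.canc hn ?_; have := hd.qq a b; simpa only [J_zsmul, K_zsmul] using this
  · intro a b; refine h.canc hn ?_; have := hd.qm a b; simpa only [J_zsmul, K_zsmul] using this
  · intro a b; refine h.canc hn ?_; have := hd.qm' a b; simpa only [J_zsmul, K_zsmul] using this
  · intro a b; refine h.canc hn ?_; have := hd.jm a b; simpa only [J_zsmul, K_zsmul] using this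
  · intro a b; refine h.canc hn ?_; have := hd.qj a b; simpa only [J_zsmul, K_zsmul] using this

theorem goodJK (h : Ids A) (x y z : A) : Good (J z (K x y)) := by
  refine Good.of_zsmul h (n := 3) (by norm_num) ?_
  rw [J3 h]
  exact (goodK h _ _).sub (goodK h _ _)

theorem Q_D (h : Ids A) (x y a b : A) : K (D x y b) a = J a (J b (K x y)) := I1 h a b x y

theorem goodD (h : Ids A) (x y c : A) : Good (D x y c) := by
  have hI1 : ∀ a b : A, K (D x y b) a = J a (J b (K x y)) := fun a b => I1 h a b x y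
  have hI2 : ∀ a b : A, J a (D x y b) = D x y (a * b) := fun a b => I2 h a b x y
  have hI2b : ∀ a b : A, J a (D x y b) = D x y (b * a) := fun a b => I2b h a b x y
  have hmm : ∀ a b c : A, J a (J b (D x y c)) = J b (J a (D x y c)) := by
    intro a b c
    have := D_D_zero h a b x y c
    exact sub_eq_zero.1 this
  have g := goodK h x y
  have gj := goodJK h x y c
  refine ⟨?_, ?_, ?_, ?_, ?_, ?_⟩
  · exact fun a b => hmm a b c
  · intro a b
    rw [hI1, hI1]
    exact gj.qm' b a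
  · intro a b
    rw [hI2, hI1, hI1, g.jm]
    exact gj.mm a b
  · intro a b
    rw [hI2, hI1, hI2, hI1, g.jm, g.jm]
    exact gj.mm a b
  · intro a b
    rw [hI2, ← hI2b, ← hI2, hmm, hI2b, ← hI2]
  · intro a b
    rw [hI1, hI2, hI1, g.jm]
    exact gj.jm a b

end Basic

end Pool.Agent.Q18.PM
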