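import Pool.Agent.Q18.PMI1

/-!
# Identities of mutations of perm algebras, layer 2: operator words and the graph submodule
-/

namespace Pool.Agent.Q18.PM

open Polynomial

set_option linter.unusedSectionVars false

section Two

variable {F A : Type*} [Field F] [NonUnitalNonAssocRing A] [Module F A]
  [IsScalarTower F A A] [SMulCommClass F A A]

theorem J_smul (c : F) (a x : A) : J a (c • x) = c • J a x := by
  simp only [J, mul_smul_comm, smul_mul_assoc, smul_add]

theorem K_smul (c : F) (a x : A) : K (c • x) a = c • K x a := by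
  simp only [K, mul_smul_comm, smul_mul_assoc, smul_sub]

theorem K_smul_right (c : F) (a x : A) : K a (c • x) = c • K a x := by
  simp only [K, mul_smul_comm, smul_mul_assoc, smul_sub]

variable (F) in
/-- `J a` as a linear map -/
def Jl (a : A) : A →ₗ[F] A where
  toFun := J a
  map_add' := J_add a
  map_smul' := fun c x => J_smul c a x

variable (F) in
/-- `x ↦ K x a` as a linear map -/
def Ql (a : A) : A →ₗ[F] A where
  toFun := fun x => K x a
  map_add' := K_add_left a
  map_smul' := fun c x => K_smul c a x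

variable (F A) in
/-- the span of all commutators and all `D x y z` -/
def SS : Submodule F A :=
  Submodule.span F ({d | ∃ x y, d = K x y} ∪ {d | ∃ x y z, d = D x y z})

theorem Good.zero : Good (0 : A) := by
  constructor <;> intros <;> simp [J, K]

theorem Good.add {d e : A} (hd : Good d) (he : Good e) : Good (d + e) := by
  refine ⟨?_, ?_, ?_, ?_, ?_, ?_⟩
  · intro a b; simp only [J_add]; rw [hd.mm, he.mm]
  · intro a b; simp only [K_add_left]; rw [hd.qq, he.qq]
  · intro a b; simp only [J_add, K_add_left]; rw [hd.qm, he.qm]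
  · intro a b; simp only [J_add, K_add_left]; rw [hd.qm', he.qm']
  · intro a b; simp only [J_add]; rw [hd.jm, he.jm]
  · intro a b; simp only [J_add, K_add_left]; rw [hd.qj, he.qj]

theorem Good.smul (c : F) {d : A} (hd : Good d) : Good (c • d) := by
  refine ⟨?_, ?_, ?_, ?_, ?_, ?_⟩
  · intro a b; simp only [J_smul]; rw [hd.mm]
  · intro a b; simp only [K_smul]; rw [hd.qq]
  · intro a b; simp only [J_smul, K_smul]; rw [hd.qm]
  · intro a b; simp only [J_smul, K_smul]; rw [hd.qm']
  · intro a b; simp only [J_smul]; rw [hd.jm]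
  · intro a b; simp only [J_smul, K_smul]; rw [hd.qj]

theorem good_of_mem (h : Ids A) {d : A} (hd : d ∈ SS F A) : Good d := by
  induction hd using Submodule.span_induction with
  | mem d hd =>
    rcases hd with ⟨x, y, rfl⟩ | ⟨x, y, z, rfl⟩
    · exact goodK h x y
    · exact goodD h x y z
  | zero => exact Good.zero
  | add x y _ _ hx hy => exact hx.add hy
  | smul c x _ hx => exact hx.smul c

theorem K_mem (x y : A) : K x y ∈ SS F A := Submodule.subset_span (Or.inl ⟨x, y, rfl⟩)

theorem D_mem (x y z : A) : D x y z ∈ SS F A := Submodule.subset_span (Or.inr ⟨x, y, z, rfl⟩)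

theorem JK_mem [CharZero F] (h : Ids A) (x y z : A) : J z (K x y) ∈ SS F A := by
  have e : J z (K x y) = (3 : F)⁻¹ • (K x (J y z) - K y (J x z)) := by
    rw [← J3 h x y z, ← Int.cast_smul_eq_zsmul F (3 : ℤ), smul_smul]
    norm_num
  rw [e]
  exact (SS F A).smul_mem _ ((SS F A).sub_mem (K_mem _ _) (K_mem _ _))

theorem JD_mem (h : Ids A) (x y z w : A) : J w (D x y z) ∈ SS F A := by
  rw [I2 h]; exact D_mem _ _ _

theorem J_mem [CharZero F] (h : Ids A) {d : A} (a : A) (hd : d ∈ SS F A) : J a d ∈ SS F A := by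
  induction hd using Submodule.span_induction with
  | mem d hd =>
    rcases hd with ⟨x, y, rfl⟩ | ⟨x, y, z, rfl⟩
    · exact JK_mem h x y a
    · exact JD_mem h x y z a
  | zero => simp [J]
  | add x y _ _ hx hy => rw [J_add]; exact (SS F A).add_mem hx hy
  | smul c x _ hx => rw [J_smul]; exact (SS F A).smul_mem _ hx

theorem Q_mem (d a : A) : K d a ∈ SS F A := K_mem _ _

/-! ### words of operators -/

variable (F) in
/-- `EW l n`: apply `Q` for the first `n` letters and `J` for the remaining ones -/
def EW (x : ℕ → A) : List ℕ → ℕ → (A →ₗ[F] A)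
  | [], _ => LinearMap.id
  | a :: l, 0 => (EW x l 0).comp (Jl F (x a))
  | a :: l, n + 1 => (EW x l n).comp (Ql F (x a))

variable {x : ℕ → A}

@[simp] theorem EW_nil (n : ℕ) (d : A) : EW F x [] n d = d := by
  cases n <;> rfl

@[simp] theorem EW_cons_zero (a : ℕ) (l : List ℕ) (d : A) :
    EW F x (a :: l) 0 d = EW F x l 0 (J (x a) d) := rfl

@[simp] theorem EW_cons_succ (a : ℕ) (l : List ℕ) (n : ℕ) (d : A) :
    EW F x (a :: l) (n + 1) d = EW F x l n (K d (x a)) := rfl

theorem EW_perm [CharZero F] (h : Ids A) {l l' : List ℕ} (hl : l.Perm l') :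
    ∀ (n : ℕ) (d : A), d ∈ SS F A → EW F x l n d = EW F x l' n d := by
  induction hl with
  | nil => intro n d _; rfl
  | cons a _ ih =>
    intro n d hd
    cases n with
    | zero => simp only [EW_cons_zero]; exact ih _ _ (J_mem h _ hd)
    | succ n => simp only [EW_cons_succ]; exact ih _ _ (K_mem _ _)
  | swap a b l =>
    intro n d hd
    have g := good_of_mem h hd
    match n with
    | 0 => simp only [EW_cons_zero]; rw [g.mm]
    | 1 =>
      simp only [EW_cons_zero, EW_cons_succ]
      rw [← g.qm, ← g.qm, g.qm']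
    | n + 2 => simp only [EW_cons_succ]; rw [g.qq]
  | trans _ _ ih1 ih2 => intro n d hd; rw [ih1 n d hd, ih2 n d hd]

theorem EW_J [CharZero F] (h : Ids A) (z : A) (l : List ℕ) :
    ∀ (n : ℕ) (d : A), d ∈ SS F A → J z (EW F x l n d) = EW F x l n (J z d) := by
  induction l with
  | nil => intro n d _; simp
  | cons a l ih =>
    intro n d hd
    have g := good_of_mem h hd
    cases n with
    | zero => simp only [EW_cons_zero]; rw [ih _ _ (J_mem h _ hd), g.mm]
    | succ n => simp only [EW_cons_succ]; rw [ih _ _ (K_mem _ _), g.qm]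

theorem EW_Q [CharZero F] (h : Ids A) (z : A) (l : List ℕ) :
    ∀ (n : ℕ) (d : A), d ∈ SS F A → K (EW F x l n d) z = EW F x l n (K d z) := by
  induction l with
  | nil => intro n d _; simp
  | cons a l ih =>
    intro n d hd
    have g := good_of_mem h hd
    cases n with
    | zero => simp only [EW_cons_zero]; rw [ih _ _ (J_mem h _ hd), g.qm]
    | succ n => simp only [EW_cons_succ]; rw [ih _ _ (K_mem _ _), g.qq]

theorem EW_cons_J [CharZero F] (h : Ids A) (l : List ℕ) :
    ∀ (z : ℕ) (n : ℕ) (d : A), n ≤ l.length → d ∈ SS F A →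
      EW F x (z :: l) n d = EW F x l n (J (x z) d) := by
  induction l with
  | nil =>
    intro z n d hn _
    obtain rfl : n = 0 := by simpa using hn
    rfl
  | cons a l ih =>
    intro z n d hn hd
    have g := good_of_mem h hd
    cases n with
    | zero => rfl
    | succ n =>
      have hn' : n ≤ l.length := by simpa using hn
      rw [EW_cons_succ, ih a n _ hn' (K_mem _ _), EW_cons_succ, g.qm', g.qm]

theorem EW_append (l l' : List ℕ) : ∀ (d : A),
    EW F x (l ++ l') 0 d = EW F x l' 0 (EW F x l 0 d) := by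
  induction l with
  | nil => intro d; simp
  | cons a l ih => intro d; simp only [List.cons_append, EW_cons_zero, ih]

/-! ### trees -/

/-- evaluation of a tree -/
def ev (x : ℕ → A) : FreeMagma ℕ → A
  | .of i => x i
  | .mul s t => ev x s * ev x t

/-- the list of letters of a tree -/
def toL : FreeMagma ℕ → List ℕ
  | .of i => [i]
  | .mul s t => toL s ++ toL t

@[simp] theorem ev_of (x : ℕ → A) (i : ℕ) : ev x (.of i) = x i := rfl
@[simp] theorem ev_mul (x : ℕ → A) (s t : FreeMagma ℕ) : ev x (s * t) = ev x s * ev x t := rfl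
@[simp] theorem toL_of (i : ℕ) : toL (.of i) = [i] := rfl
@[simp] theorem toL_mul (s t : FreeMagma ℕ) : toL (s * t) = toL s ++ toL t := rfl

theorem toL_ne_nil (t : FreeMagma ℕ) : toL t ≠ [] := by
  induction t with
  | ih1 i => simp
  | ih2 s t hs ht => simp [hs]

theorem J_ev [CharZero F] (h : Ids A) (t : FreeMagma ℕ) :
    ∀ d : A, d ∈ SS F A → J (ev x t) d = EW F x (toL t) 0 d := by
  induction t with
  | ih1 i => intro d _; rfl
  | ih2 s t hs ht =>
    intro d hd
    rw [ev_mul, (good_of_mem h hd).jm, (good_of_mem h hd).mm, toL_mul, EW_append,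
      ht _ (J_mem h _ hd), hs d hd]

variable (F) in
/-- the word with `D` at the bottom -/
def DW (x : ℕ → A) (i j : ℕ) : List ℕ → A
  | [] => 0
  | a :: l => EW F x l 0 (D (x i) (x j) (x a))

variable (F) in
/-- the words spanning the differences -/
def BW (x : ℕ → A) (i j : ℕ) : ℕ → List ℕ → A
  | 0, l => DW F x i j l
  | n + 1, l => EW F x l n (K (x i) (x j))

theorem EW_mem [CharZero F] (h : Ids A) (l : List ℕ) :
    ∀ (n : ℕ) (d : A), d ∈ SS F A → EW F x l n d ∈ SS F A := by
  induction l with
  | nil => intro n d hd; simpa using hd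
  | cons a l ih =>
    intro n d hd
    cases n with
    | zero => exact ih _ _ (J_mem h _ hd)
    | succ n => exact ih _ _ (K_mem _ _)

theorem BW_mem [CharZero F] (h : Ids A) (i j n : ℕ) (l : List ℕ) : BW F x i j n l ∈ SS F A := by
  cases n with
  | zero =>
    cases l with
    | nil => exact (SS F A).zero_mem
    | cons a l => exact EW_mem h _ _ _ (D_mem _ _ _)
  | succ n => exact EW_mem h _ _ _ (K_mem _ _)

theorem DW_perm [CharZero F] (h : Ids A) (i j : ℕ) {l l' : List ℕ} (hl : l.Perm l') :
    DW F x i j l = DW F x i j l' := by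
  induction hl with
  | nil => rfl
  | cons a hl _ => exact EW_perm h hl _ _ (D_mem _ _ _)
  | swap a b l =>
    simp only [DW, EW_cons_zero]
    rw [I2 h, ← I2b h]
  | trans _ _ ih1 ih2 => rw [ih1, ih2]

theorem BW_perm [CharZero F] (h : Ids A) (i j n : ℕ) {l l' : List ℕ} (hl : l.Perm l') :
    BW F x i j n l = BW F x i j n l' := by
  cases n with
  | zero => exact DW_perm h i j hl
  | succ n => exact EW_perm h hl _ _ (K_mem _ _)

theorem BW_neg (i j n : ℕ) (l : List ℕ) : BW F x i j n l = - BW F x j i n l := by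
  cases n with
  | zero =>
    cases l with
    | nil => simp [BW, DW]
    | cons a l => simp only [BW, DW]; rw [D_neg, map_neg]
  | succ n => simp only [BW]; rw [K_neg, map_neg]

theorem BW_self (i n : ℕ) (l : List ℕ) : BW F x i i n l = 0 := by
  cases n with
  | zero =>
    cases l with
    | nil => simp [BW, DW]
    | cons a l => simp only [BW, DW]; rw [D_self, map_zero]
  | succ n => simp only [BW]; rw [K_self, map_zero]

theorem BW_jac [CharZero F] (h : Ids A) (i j k n : ℕ) (l : List ℕ) (hn : n ≤ l.length + 2) :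
    BW F x i j n (k :: l) = BW F x i k n (j :: l) - BW F x j k n (i :: l) := by
  match n with
  | 0 =>
    simp only [BW, DW]; rw [D_jac, map_sub]
  | n + 1 =>
    simp only [BW]
    by_cases hn' : n ≤ l.length
    · rw [EW_cons_J h _ _ _ _ hn' (K_mem _ _), EW_cons_J h _ _ _ _ hn' (K_mem _ _),
        EW_cons_J h _ _ _ _ hn' (K_mem _ _), J_jac h, map_sub]
    · obtain rfl : n = l.length + 1 := by omega
      simp only [EW_cons_succ]
      rw [K_jac h, map_sub]

theorem J_BW [CharZero F] (h : Ids A) (i j z n : ℕ) (l : List ℕ) (hn : n ≤ l.length + 1)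
    (h0 : n = 0 → l ≠ []) : J (x z) (BW F x i j n l) = BW F x i j n (z :: l) := by
  cases n with
  | zero =>
    cases l with
    | nil => exact absurd rfl (h0 rfl)
    | cons a l =>
      simp only [BW, DW, EW_cons_zero]
      rw [EW_J h _ _ _ _ (D_mem _ _ _), I2 h, ← I2b h]
  | succ n =>
    simp only [BW]
    rw [EW_J h _ _ _ _ (K_mem _ _), EW_cons_J h _ _ _ _ (by omega) (K_mem _ _)]

theorem Q_BW [CharZero F] (h : Ids A) (i j z n : ℕ) (l : List ℕ) (hn : n ≤ l.length + 1)
    (h0 : n = 0 → l ≠ []) : K (BW F x i j n l) (x z) = BW F x i j (n + 1) (z :: l) := by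
  cases n with
  | zero =>
    cases l with
    | nil => exact absurd rfl (h0 rfl)
    | cons a l =>
      simp only [BW, DW, EW_cons_zero]
      rw [EW_Q h _ _ _ _ (D_mem _ _ _), Q_D h, (goodK h _ _).mm]
  | succ n =>
    simp only [BW, EW_cons_succ]
    rw [EW_Q h _ _ _ _ (K_mem _ _)]

end Two

end Pool.Agent.Q18.PM
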