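import Pool.Agent.Q18.PMI2

/-!
# Identities of mutations of perm algebras, layer 3: the graph submodule
-/

namespace Pool.Agent.Q18.PM

open Polynomial

set_option linter.unusedSectionVars false

section Three

/-- weight of the right factor -/
noncomputable def uu (F : Type*) [Field F] : F[X] := C (2⁻¹ : F) * (1 - X)
/-- weight of the left factor -/
noncomputable def vv (F : Type*) [Field F] : F[X] := C (2⁻¹ : F) * (1 + X)

/-- the weight vector of a tree -/
noncomputable def wt (F : Type*) [Field F] : FreeMagma ℕ → (ℕ →₀ F[X])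
  | .of i => Finsupp.single i 1
  | .mul s t => vv F • wt F s + uu F • wt F t

@[simp] theorem wt_of (F : Type*) [Field F] (i : ℕ) : wt F (.of i) = Finsupp.single i 1 := rfl
@[simp] theorem wt_mul (F : Type*) [Field F] (s t : FreeMagma ℕ) :
    wt F (s * t) = vv F • wt F s + uu F • wt F t := rfl

variable {F A : Type*} [Field F] [CharZero F] [NonUnitalNonAssocRing A] [Module F A]
  [IsScalarTower F A A] [SMulCommClass F A A] {x : ℕ → A}

theorem uu_add_vv : uu F + vv F = 1 := by
  have : (C (2⁻¹ : F) : F[X]) * 2 = 1 := by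
    rw [show (2 : F[X]) = C (2 : F) from rfl, ← C_mul, inv_mul_cancel₀ two_ne_zero, C_1]
  unfold uu vv
  linear_combination this

theorem vv_sub_uu : vv F - uu F = X := by
  have : (C (2⁻¹ : F) : F[X]) * 2 = 1 := by
    rw [show (2 : F[X]) = C (2 : F) from rfl, ← C_mul, inv_mul_cancel₀ two_ne_zero, C_1]
  unfold uu vv
  linear_combination X * this

/-- the graph submodule -/
noncomputable def GG (x : ℕ → A) (m : Multiset ℕ) : Submodule F (A × (ℕ →₀ F[X])) :=
  Submodule.span F {p | ∃ (i j n : ℕ) (l : List ℕ), i ::ₘ j ::ₘ (l : Multiset ℕ) = m ∧ n ≤ l.length + 1 ∧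
    (n = 0 → l ≠ []) ∧
    p = (BW F x i j n l, (X ^ n : F[X]) • (Finsupp.single i 1 - Finsupp.single j 1))}

theorem GG_SS (h : Ids A) {m : Multiset ℕ} {p : A × (ℕ →₀ F[X])} (hp : p ∈ GG x m) :
    p.1 ∈ SS F A := by
  induction hp using Submodule.span_induction with
  | mem p hp =>
    obtain ⟨i, j, n, l, _, _, _, rfl⟩ := hp
    exact BW_mem h _ _ _ _
  | zero => exact (SS F A).zero_mem
  | add p q _ _ hp hq => exact (SS F A).add_mem hp hq
  | smul c p _ hp => exact (SS F A).smul_mem c hp

theorem GG_J1 (h : Ids A) (z : ℕ) {m : Multiset ℕ} {p : A × (ℕ →₀ F[X])} (hp : p ∈ GG x m) :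
    (J (x z) p.1, p.2) ∈ GG (F := F) x (z ::ₘ m) := by
  induction hp using Submodule.span_induction with
  | mem p hp =>
    obtain ⟨i, j, n, l, hm, hn, h0, rfl⟩ := hp
    apply Submodule.subset_span
    refine ⟨i, j, n, z :: l, ?_, ?_, ?_, ?_⟩
    · rw [← hm, ← Multiset.cons_coe, Multiset.cons_swap j z, Multiset.cons_swap i z]
    · simp only [List.length_cons]; omega
    · simp
    · simp only [J_BW h i j z n l hn h0]
  | zero =>
    have : J (x z) (0 : A) = 0 := by simp [J]
    simp only [Prod.fst_zero, Prod.snd_zero, this]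
    exact Submodule.zero_mem _
  | add p q _ _ hp hq =>
    simp only [Prod.fst_add, Prod.snd_add, J_add]
    exact Submodule.add_mem _ hp hq
  | smul c p _ hp =>
    simp only [Prod.smul_fst, Prod.smul_snd, J_smul]
    exact Submodule.smul_mem _ c hp

theorem GG_Q1 (h : Ids A) (z : ℕ) {m : Multiset ℕ} {p : A × (ℕ →₀ F[X])} (hp : p ∈ GG x m) :
    (K p.1 (x z), (X : F[X]) • p.2) ∈ GG (F := F) x (z ::ₘ m) := by
  induction hp using Submodule.span_induction with
  | mem p hp =>
    obtain ⟨i, j, n, l, hm, hn, h0, rfl⟩ := hp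
    apply Submodule.subset_span
    refine ⟨i, j, n + 1, z :: l, ?_, ?_, ?_, ?_⟩
    · rw [← hm, ← Multiset.cons_coe, Multiset.cons_swap j z, Multiset.cons_swap i z]
    · simp only [List.length_cons]; omega
    · simp
    · simp only [Q_BW h i j z n l hn h0, smul_smul, pow_succ']
  | zero =>
    have : K (0 : A) (x z) = 0 := by simp [K]
    simp only [Prod.fst_zero, Prod.snd_zero, this, smul_zero]
    exact Submodule.zero_mem _
  | add p q _ _ hp hq =>
    simp only [Prod.fst_add, Prod.snd_add, K_add_left, smul_add]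
    exact Submodule.add_mem _ hp hq
  | smul c p _ hp =>
    simp only [Prod.smul_fst, Prod.smul_snd, K_smul, smul_comm (X : F[X]) c]
    exact Submodule.smul_mem _ c hp

/-- the letters of a tree -/
def lt (t : FreeMagma ℕ) : Multiset ℕ := (toL t : Multiset ℕ)

@[simp] theorem lt_of (i : ℕ) : lt (.of i) = {i} := rfl
@[simp] theorem lt_mul (s t : FreeMagma ℕ) : lt (s * t) = lt s + lt t := by
  simp [lt]

theorem GG_J (h : Ids A) (t : FreeMagma ℕ) : ∀ {m : Multiset ℕ} {p : A × (ℕ →₀ F[X])},
    p ∈ GG x m → (J (ev x t) p.1, p.2) ∈ GG (F := F) x (lt t + m) := by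
  induction t with
  | ih1 i => intro m p hp; simpa using GG_J1 h i hp
  | ih2 s t hs ht =>
    intro m p hp
    have e := (good_of_mem h (GG_SS h hp)).jm (ev x s) (ev x t)
    have h1 := hs (ht hp)
    simp only [ev_mul, lt_mul, e, add_assoc]
    exact h1

theorem GG_Q (h : Ids A) (t : FreeMagma ℕ) : ∀ {m : Multiset ℕ} {p : A × (ℕ →₀ F[X])},
    p ∈ GG x m → (K p.1 (ev x t), (X : F[X]) • p.2) ∈ GG (F := F) x (lt t + m) := by
  induction t with
  | ih1 i => intro m p hp; simpa using GG_Q1 h i hp
  | ih2 s t hs ht =>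
    intro m p hp
    have e := (good_of_mem h (GG_SS h hp)).qj (ev x s) (ev x t)
    have h1 := hs (GG_J h t hp)
    simp only [ev_mul, lt_mul, e, add_assoc]
    exact h1

theorem GG_R (h : Ids A) (t : FreeMagma ℕ) {m : Multiset ℕ} {p : A × (ℕ →₀ F[X])}
    (hp : p ∈ GG x m) : (p.1 * ev x t, vv F • p.2) ∈ GG (F := F) x (lt t + m) := by
  have h1 := GG_J h t hp
  have h2 := GG_Q h t hp
  have h3 := Submodule.smul_mem _ (2⁻¹ : F) (Submodule.add_mem _ h1 h2)
  have e : (p.1 * ev x t, vv F • p.2) = (2⁻¹ : F) • ((J (ev x t) p.1, p.2) +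
      (K p.1 (ev x t), (X : F[X]) • p.2)) := by
    ext1
    · simp only [Prod.smul_fst, Prod.fst_add]
      have : J (ev x t) p.1 + K p.1 (ev x t) = (2 : F) • (p.1 * ev x t) := by
        rw [two_smul]; simp only [J, K]; abel
      rw [this, smul_smul, inv_mul_cancel₀ two_ne_zero, one_smul]
    · simp only [Prod.smul_snd, Prod.snd_add]
      unfold vv
      rw [mul_smul, add_smul, one_smul]
      ext i n
      simp
  rw [e]; exact h3

theorem GG_L (h : Ids A) (t : FreeMagma ℕ) {m : Multiset ℕ} {p : A × (ℕ →₀ F[X])}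
    (hp : p ∈ GG x m) : (ev x t * p.1, uu F • p.2) ∈ GG (F := F) x (lt t + m) := by
  have h1 := GG_J h t hp
  have h2 := GG_Q h t hp
  have h3 := Submodule.smul_mem _ (2⁻¹ : F) (Submodule.sub_mem _ h1 h2)
  have e : (ev x t * p.1, uu F • p.2) = (2⁻¹ : F) • ((J (ev x t) p.1, p.2) -
      (K p.1 (ev x t), (X : F[X]) • p.2)) := by
    ext1
    · simp only [Prod.smul_fst, Prod.fst_sub]
      have : J (ev x t) p.1 - K p.1 (ev x t) = (2 : F) • (ev x t * p.1) := by
        rw [two_smul]; simp only [J, K]; abel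
      rw [this, smul_smul, inv_mul_cancel₀ two_ne_zero, one_smul]
    · simp only [Prod.smul_snd, Prod.snd_sub]
      unfold uu
      rw [mul_smul, sub_smul, one_smul]
      ext i n
      simp
  rw [e]; exact h3

theorem GG_neg {m : Multiset ℕ} {a : A} {w : ℕ →₀ F[X]} (hp : (a, w) ∈ GG x m) :
    (-a, -w) ∈ GG x m := by
  have := Submodule.neg_mem _ hp
  simpa using this

theorem GG_congr {m m' : Multiset ℕ} {a a' : A} {w w' : ℕ →₀ F[X]} (hp : (a, w) ∈ GG x m)
    (hm : m = m') (ha : a = a') (hw : w = w') : (a', w') ∈ GG x m' := by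
  subst hm ha hw; exact hp

/-- commutators of a tree and a letter -/
theorem GG_K1 (h : Ids A) (j : ℕ) (t : FreeMagma ℕ) :
    (K (ev x t) (x j), (X : F[X]) • (wt F t - Finsupp.single j 1)) ∈ GG x (lt t + {j}) := by
  induction t with
  | ih1 i =>
    apply Submodule.subset_span
    refine ⟨i, j, 1, [], ?_, ?_, ?_, ?_⟩
    · simp
    · simp
    · simp
    · simp [BW]
  | ih2 s t hs ht =>
    have h1 := Submodule.add_mem _ (GG_congr (GG_R h t hs)
      (show lt t + (lt s + {j}) = lt (s * t) + {j} by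
        rw [lt_mul, add_left_comm, ← add_assoc]) rfl rfl)
      (GG_congr (GG_L h s ht) (show lt s + (lt t + {j}) = lt (s * t) + {j} by
        rw [lt_mul, add_assoc]) rfl rfl)
    refine GG_congr h1 rfl ?_ ?_
    · rw [ev_mul, WK h]
    · show vv F • (X : F[X]) • _ + uu F • (X : F[X]) • _ = _
      have e := uu_add_vv (F := F)
      rw [wt_mul]
      simp only [smul_sub, smul_add, smul_smul, mul_comm _ (X : F[X])]
      have e2 : (X : F[X]) • Finsupp.single j (1 : F[X]) =
          (X * vv F) • Finsupp.single j (1 : F[X]) + (X * uu F) • Finsupp.single j (1 : F[X]) := by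
        rw [← add_smul, ← mul_add, add_comm, e, mul_one]
      rw [e2]
      abel

theorem GG_K (h : Ids A) (t : FreeMagma ℕ) : ∀ t' : FreeMagma ℕ,
    (K (ev x t) (ev x t'), (X : F[X]) • (wt F t - wt F t')) ∈ GG x (lt t + lt t') := by
  induction t with
  | ih1 i =>
    intro t'
    refine GG_congr (GG_neg (GG_K1 (F := F) (x := x) h i t')) ?_ ?_ ?_
    · rw [lt_of, add_comm]
    · rw [ev_of, ← K_neg]
    · rw [wt_of, ← smul_neg, neg_sub]
  | ih2 s t hs ht =>
    intro t'
    have h1 := Submodule.add_mem _ (GG_congr (GG_R h t (hs t'))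
      (show lt t + (lt s + lt t') = lt (s * t) + lt t' by
        rw [lt_mul, add_left_comm, ← add_assoc]) rfl rfl)
      (GG_congr (GG_L h s (ht t')) (show lt s + (lt t + lt t') = lt (s * t) + lt t' by
        rw [lt_mul, add_assoc]) rfl rfl)
    refine GG_congr h1 rfl ?_ ?_
    · rw [ev_mul, WK h]
    · show vv F • (X : F[X]) • _ + uu F • (X : F[X]) • _ = _
      have e := uu_add_vv (F := F)
      rw [wt_mul]
      simp only [smul_sub, smul_add, smul_smul, mul_comm _ (X : F[X])]
      have e2 : (X : F[X]) • wt F t' =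
          (X * vv F) • wt F t' + (X * uu F) • wt F t' := by
        rw [← add_smul, ← mul_add, add_comm, e, mul_one]
      rw [e2]
      abel

/-- the operator commutators at two letters -/
theorem GG_D0 (h : Ids A) (i j : ℕ) (t : FreeMagma ℕ) :
    (D (x i) (x j) (ev x t), Finsupp.single i 1 - Finsupp.single j 1) ∈
      GG (F := F) x ({i} + {j} + lt t) := by
  have key : ∀ t : FreeMagma ℕ, D (x i) (x j) (ev x t) = DW F x i j (toL t) := by
    intro t
    induction t with
    | ih1 a => simp [DW]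
    | ih2 s t hs ht =>
      rw [ev_mul, ← I2b h, hs, toL_mul]
      obtain ⟨a, l, hl⟩ := List.exists_cons_of_ne_nil (toL_ne_nil s)
      rw [hl, List.cons_append]
      simp only [DW]
      rw [EW_append, J_ev h _ _ (EW_mem h _ _ _ (D_mem _ _ _))]
  apply Submodule.subset_span
  refine ⟨i, j, 0, toL t, ?_, ?_, ?_, ?_⟩
  · rw [add_assoc]; simp [lt]
  · omega
  · intro _; exact toL_ne_nil t
  · simp [BW, key]

theorem GG_D1 (h : Ids A) (j : ℕ) (t' : FreeMagma ℕ) (t : FreeMagma ℕ) :
    (D (ev x t) (x j) (ev x t'), wt F t - Finsupp.single j 1) ∈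
      GG (F := F) x (lt t + {j} + lt t') := by
  induction t with
  | ih1 i => exact GG_D0 h i j t'
  | ih2 s t hs ht =>
    have h1 := Submodule.add_mem _ (GG_congr (GG_R h t hs)
      (show lt t + (lt s + {j} + lt t') = lt (s * t) + {j} + lt t' by
        rw [lt_mul]; simp only [add_assoc]; rw [add_left_comm]) rfl rfl)
      (GG_congr (GG_L h s ht) (show lt s + (lt t + {j} + lt t') = lt (s * t) + {j} + lt t' by
        rw [lt_mul]; simp only [add_assoc]) rfl rfl)
    refine GG_congr h1 rfl ?_ ?_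
    · rw [ev_mul, I3 h]
    · show vv F • _ + uu F • _ = _
      have e := uu_add_vv (F := F)
      rw [wt_mul]
      simp only [smul_sub]
      have e2 : Finsupp.single j (1 : F[X]) =
          vv F • Finsupp.single j (1 : F[X]) + uu F • Finsupp.single j (1 : F[X]) := by
        rw [← add_smul, add_comm, e, one_smul]
      conv_rhs => rw [e2]
      abel

theorem GG_D (h : Ids A) (t'' : FreeMagma ℕ) (t : FreeMagma ℕ) : ∀ t' : FreeMagma ℕ,
    (D (ev x t) (ev x t') (ev x t''), wt F t - wt F t') ∈
      GG (F := F) x (lt t + lt t' + lt t'') := by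
  induction t with
  | ih1 i =>
    intro t'
    refine GG_congr (GG_neg (GG_D1 (F := F) (x := x) h i t'' t')) ?_ ?_ ?_
    · rw [lt_of, add_comm (lt t')]
    · rw [ev_of, ← D_neg]
    · rw [wt_of, neg_sub]
  | ih2 s t hs ht =>
    intro t'
    have h1 := Submodule.add_mem _ (GG_congr (GG_R h t (hs t'))
      (show lt t + (lt s + lt t' + lt t'') = lt (s * t) + lt t' + lt t'' by
        rw [lt_mul]; simp only [add_assoc]; rw [add_left_comm]) rfl rfl)
      (GG_congr (GG_L h s (ht t')) (show lt s + (lt t + lt t' + lt t'') =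
          lt (s * t) + lt t' + lt t'' by
        rw [lt_mul]; simp only [add_assoc]) rfl rfl)
    refine GG_congr h1 rfl ?_ ?_
    · rw [ev_mul, I3 h]
    · show vv F • _ + uu F • _ = _
      have e := uu_add_vv (F := F)
      rw [wt_mul]
      simp only [smul_sub]
      have e2 : wt F t' = vv F • wt F t' + uu F • wt F t' := by
        rw [← add_smul, add_comm, e, one_smul]
      conv_rhs => rw [e2]
      abel

/-! ### the relation -/

/-- two trees have the same letters and their difference is controlled -/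
def Rel (F : Type*) [Field F] {A : Type*} [NonUnitalNonAssocRing A] [Module F A]
    [IsScalarTower F A A] [SMulCommClass F A A] (x : ℕ → A) (s t : FreeMagma ℕ) : Prop :=
  lt s = lt t ∧ (ev x s - ev x t, wt F s - wt F t) ∈ GG (F := F) x (lt s)

theorem Rel.refl (t : FreeMagma ℕ) : Rel F x t t := by
  refine ⟨rfl, ?_⟩
  rw [sub_self, sub_self]
  exact Submodule.zero_mem _

theorem Rel.symm {s t : FreeMagma ℕ} (h : Rel F x s t) : Rel F x t s := by
  refine ⟨h.1.symm, ?_⟩
  refine GG_congr (GG_neg h.2) h.1 ?_ ?_ <;> rw [neg_sub]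

theorem Rel.trans {r s t : FreeMagma ℕ} (h : Rel F x r s) (h' : Rel F x s t) : Rel F x r t := by
  refine ⟨h.1.trans h'.1, ?_⟩
  have h2 : (ev x s - ev x t, wt F s - wt F t) ∈ GG (F := F) x (lt r) := by
    rw [h.1]; exact h'.2
  refine GG_congr (Submodule.add_mem _ h.2 h2) rfl ?_ ?_ <;> exact sub_add_sub_cancel _ _ _

theorem Rel.mul (h : Ids A) {s s' t t' : FreeMagma ℕ} (h1 : Rel F x s s') (h2 : Rel F x t t') :
    Rel F x (s * t) (s' * t') := by
  refine ⟨by rw [lt_mul, lt_mul, h1.1, h2.1], ?_⟩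
  have e1 := GG_R h t h1.2
  have e2 := GG_L h s' h2.2
  have e3 := Submodule.add_mem _ (GG_congr e1 (show lt t + lt s = lt (s * t) by
      rw [lt_mul, add_comm]) rfl rfl) (GG_congr e2 (show lt s' + lt t = lt (s * t) by
      rw [lt_mul, h1.1]) rfl rfl)
  refine GG_congr e3 rfl ?_ ?_
  · show (ev x s - ev x s') * ev x t + ev x s' * (ev x t - ev x t') = _
    simp only [ev_mul, sub_mul, mul_sub]; abel
  · show vv F • (wt F s - wt F s') + uu F • (wt F t - wt F t') = _
    simp only [wt_mul, smul_sub]; abel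

theorem Rel.comm (h : Ids A) (s t : FreeMagma ℕ) : Rel F x (s * t) (t * s) := by
  refine ⟨by rw [lt_mul, lt_mul, add_comm], ?_⟩
  refine GG_congr (GG_K (F := F) (x := x) h s t) (by rw [lt_mul]) ?_ ?_
  · simp only [K, ev_mul]
  · rw [← vv_sub_uu]
    simp only [wt_mul, smul_sub, sub_smul]; abel

theorem Rel.assoc (h : Ids A) (r s t : FreeMagma ℕ) : Rel F x ((r * s) * t) (r * (s * t)) := by
  refine ⟨by simp only [lt_mul, add_assoc], ?_⟩
  have e1 := GG_Q h s (GG_K (F := F) (x := x) h r t)
  have e2 := GG_D (F := F) (x := x) h s r t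
  have e3 := Submodule.smul_mem _ (4⁻¹ : F) (Submodule.sub_mem _
    (GG_congr e1 (show lt s + (lt r + lt t) = lt ((r * s) * t) by
      simp only [lt_mul, add_assoc]; rw [add_left_comm]) rfl rfl)
    (GG_congr e2 (show lt r + lt t + lt s = lt ((r * s) * t) by
      simp only [lt_mul, add_assoc]; rw [add_comm (lt t)]) rfl rfl))
  refine GG_congr e3 rfl ?_ ?_
  · show (4⁻¹ : F) • (K (K (ev x r) (ev x t)) (ev x s) - D (ev x r) (ev x t) (ev x s)) = _
    rw [← A1 h, ← Int.cast_smul_eq_zsmul F (4 : ℤ), smul_smul]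
    norm_num
  · show (4⁻¹ : F) • ((X : F[X]) • (X : F[X]) • (wt F r - wt F t) - (wt F r - wt F t)) = _
    have hc : (C (2⁻¹ : F) : F[X]) * 2 = 1 := by
      rw [show (2 : F[X]) = C (2 : F) from rfl, ← C_mul, inv_mul_cancel₀ two_ne_zero, C_1]
    have h4 : (4⁻¹ : F) = 2⁻¹ * 2⁻¹ := by norm_num
    have e5 : ∀ w : ℕ →₀ F[X], (4⁻¹ : F) • w = (C (2⁻¹ : F) * C (2⁻¹ : F) : F[X]) • w := by
      intro w
      rw [← C_mul, ← h4]
      ext i n
      simp
    have c1 : C 2⁻¹ * C 2⁻¹ * (X * X - 1) = vv F * vv F - vv F := by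
      unfold vv
      linear_combination (-(C (2⁻¹ : F)) * (1 + X)) * hc
    have c2 : C 2⁻¹ * C 2⁻¹ * (X * X - 1) = uu F * uu F - uu F := by
      unfold uu
      linear_combination (-(C (2⁻¹ : F)) * (1 - X)) * hc
    have e6 : (X : F[X]) • (X : F[X]) • (wt F r - wt F t) - (wt F r - wt F t) =
        (X * X - 1 : F[X]) • (wt F r - wt F t) := by
      rw [smul_smul, sub_smul, one_smul]
    have e7 : (C (2⁻¹ : F) * C (2⁻¹ : F) : F[X]) • (X * X - 1 : F[X]) • (wt F r - wt F t) =
        (vv F * vv F - vv F) • wt F r - (uu F * uu F - uu F) • wt F t := by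
      rw [smul_smul, smul_sub]
      congr 1
      · rw [c1]
      · rw [c2]
    rw [e6, e5, e7]
    simp only [wt_mul, smul_add, smul_smul, sub_smul, mul_comm (uu F) (vv F)]
    abel

/-- a tree with at least two letters is related to a left multiple of any of its letters -/
theorem Rel.extract (h : Ids A) (t : FreeMagma ℕ) : ∀ i ∈ lt t,
    t = .of i ∨ ∃ s, Rel F x t (.of i * s) := by
  induction t with
  | ih1 j => intro i hi; left; rw [lt_of, Multiset.mem_singleton] at hi; rw [hi]
  | ih2 s t hs ht =>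
    intro i hi
    right
    rw [lt_mul, Multiset.mem_add] at hi
    rcases hi with hi | hi
    · rcases hs i hi with rfl | ⟨s', hs'⟩
      · exact ⟨t, Rel.refl _⟩
      · exact ⟨s' * t, (hs'.mul h (Rel.refl t)).trans (Rel.assoc h _ _ _)⟩
    · rcases ht i hi with rfl | ⟨t', ht'⟩
      · exact ⟨s, Rel.comm h _ _⟩
      · refine ⟨t' * s, (Rel.comm h _ _).trans ((ht'.mul h (Rel.refl s)).trans
          (Rel.assoc h _ _ _))⟩

theorem lt_card_pos (t : FreeMagma ℕ) : 0 < (lt t).card := by
  simp only [lt, Multiset.coe_card]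
  exact List.length_pos_of_ne_nil (toL_ne_nil t)

/-- trees with the same letters are related -/
theorem Rel.all (h : Ids A) : ∀ (n : ℕ) (s t : FreeMagma ℕ), (lt s).card = n → lt s = lt t →
    Rel F x s t := by
  intro n
  induction n with
  | zero => intro s t hs _; have := lt_card_pos s; omega
  | succ n ih =>
    intro s t hs hst
    obtain ⟨i, hi⟩ : ∃ i, i ∈ lt s := Multiset.card_pos_iff_exists_mem.1 (lt_card_pos s)
    have hi' : i ∈ lt t := hst ▸ hi
    rcases Rel.extract (F := F) (x := x) h s i hi with rfl | ⟨s', hs'⟩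
    · rcases Rel.extract (F := F) (x := x) h t i hi' with rfl | ⟨t', ht'⟩
      · exact Rel.refl _
      · exfalso
        have := ht'.1
        rw [← hst, lt_mul, lt_of] at this
        have h2 := congrArg Multiset.card this
        have h3 := lt_card_pos t'
        rw [Multiset.card_add, Multiset.card_singleton] at h2
        omega
    · rcases Rel.extract (F := F) (x := x) h t i hi' with rfl | ⟨t', ht'⟩
      · exfalso
        have := hs'.1
        rw [hst, lt_mul, lt_of] at this
        have h2 := congrArg Multiset.card this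
        have h3 := lt_card_pos s'
        rw [Multiset.card_add, Multiset.card_singleton] at h2
        omega
      · have e1 := hs'.1
        have e2 := ht'.1
        rw [lt_mul, lt_of] at e1 e2
        have e3 : lt s' = lt t' := by
          have : {i} + lt s' = {i} + lt t' := by rw [← e1, ← e2, hst]
          exact add_left_cancel this
        have e4 : (lt s').card = n := by
          have := congrArg Multiset.card e1
          simp at this
          omega
        exact hs'.trans (((Rel.refl _).mul h (ih s' t' e4 e3)).trans ht'.symm)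

/-! ### injectivity -/

variable (F) in
/-- the reference words -/
noncomputable def Bw (x : ℕ → A) (i0 : ℕ) (m' : Multiset ℕ) (j n : ℕ) : A :=
  BW F x j i0 n (m'.erase j).toList

variable (F) in
/-- the linear map recovering the first coordinate -/
noncomputable def Th (x : ℕ → A) (i0 : ℕ) (m' : Multiset ℕ) : (ℕ →₀ F[X]) →ₗ[F] A :=
  Finsupp.lsum F fun j => (Polynomial.lsum fun n => LinearMap.toSpanSingleton F A (Bw F x i0 m' j n))

theorem Th_single (i0 : ℕ) (m' : Multiset ℕ) (j n : ℕ) :
    Th F x i0 m' ((X ^ n : F[X]) • Finsupp.single j 1) = Bw F x i0 m' j n := by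
  rw [Finsupp.smul_single, smul_eq_mul, mul_one, Th, Finsupp.lsum_single,
    ← Polynomial.monomial_one_right_eq_X_pow]
  simp [Polynomial.lsum_apply, Polynomial.sum_monomial_index]

theorem Th_gen (h : Ids A) (i0 : ℕ) (m' : Multiset ℕ) (i j n : ℕ) (l : List ℕ)
    (hm : i ::ₘ j ::ₘ (l : Multiset ℕ) = i0 ::ₘ m') (hn : n ≤ l.length + 1) :
    BW F x i j n l = Bw F x i0 m' i n - Bw F x i0 m' j n := by
  have perm : ∀ (k : ℕ) (l1 : List ℕ), m' = k ::ₘ (l1 : Multiset ℕ) →
      (m'.erase k).toList.Perm l1 := by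
    intro k l1 h1
    rw [← Multiset.coe_eq_coe, Multiset.coe_toList, h1, Multiset.erase_cons_head]
  unfold Bw
  by_cases hi : i = i0
  · subst hi
    have h1 : m' = j ::ₘ (l : Multiset ℕ) := ((Multiset.cons_inj_right _).1 hm).symm
    rw [BW_self, zero_sub, BW_perm h _ _ _ (perm j l h1), ← BW_neg]
  · by_cases hj : j = i0
    · subst hj
      rw [Multiset.cons_swap] at hm
      have h1 : m' = i ::ₘ (l : Multiset ℕ) := ((Multiset.cons_inj_right _).1 hm).symm
      rw [BW_self, sub_zero, BW_perm h _ _ _ (perm i l h1)]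
    · have hmem : i0 ∈ i ::ₘ j ::ₘ (l : Multiset ℕ) := by rw [hm]; simp
      have hl : i0 ∈ l := by
        simp only [Multiset.mem_cons, Multiset.mem_coe] at hmem
        rcases hmem with rfl | rfl | hmem
        · exact absurd rfl hi
        · exact absurd rfl hj
        · exact hmem
      have hp : l.Perm (i0 :: l.erase i0) := List.perm_cons_erase hl
      generalize l.erase i0 = l' at hp
      have hlen : l.length = l'.length + 1 := by rw [hp.length_eq]; simp
      have hl2 : (l : Multiset ℕ) = i0 ::ₘ (l' : Multiset ℕ) := by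
        rw [Multiset.cons_coe]; exact Multiset.coe_eq_coe.2 hp
      have h1 : m' = i ::ₘ j ::ₘ (l' : Multiset ℕ) := by
        rw [hl2, Multiset.cons_swap j, Multiset.cons_swap i] at hm
        exact ((Multiset.cons_inj_right _).1 hm).symm
      have h2 : m' = j ::ₘ i ::ₘ (l' : Multiset ℕ) := by rw [h1, Multiset.cons_swap]
      rw [BW_perm h _ _ _ hp, BW_jac h _ _ _ _ _ (by omega)]
      rw [BW_perm h _ _ _ (perm i (j :: l') (by rw [h1]; rfl)),
        BW_perm h _ _ _ (perm j (i :: l') (by rw [h2]; rfl))]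

theorem Th_eq (h : Ids A) (i0 : ℕ) (m' : Multiset ℕ) {p : A × (ℕ →₀ F[X])}
    (hp : p ∈ GG (F := F) x (i0 ::ₘ m')) : p.1 = Th F x i0 m' p.2 := by
  induction hp using Submodule.span_induction with
  | mem p hp =>
    obtain ⟨i, j, n, l, hm, hn, h0, rfl⟩ := hp
    simp only [smul_sub, map_sub, Th_single]
    exact Th_gen h i0 m' i j n l hm hn
  | zero => simp
  | add p q _ _ hp hq => simp [hp, hq]
  | smul c p _ hp => simp [hp]

end Three

end Pool.Agent.Q18.PM
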