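import Pool.Agent.Q18.PMI3

/-!
# Identities of mutations of perm algebras, layer 4: vanishing weight sums
-/

namespace Pool.Agent.Q18.PM

open Polynomial

set_option linter.unusedSectionVars false

section Four

variable {F A : Type*} [Field F] [CharZero F] [NonUnitalNonAssocRing A] [Module F A]
  [IsScalarTower F A A] [SMulCommClass F A A] {x : ℕ → A}

/-- the sum of the coordinates -/
noncomputable def sig (R : Type*) [CommRing R] : (ℕ →₀ R) →ₗ[R] R :=
  Finsupp.linearCombination R (fun _ => (1 : R))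

@[simp] theorem sig_single (R : Type*) [CommRing R] (i : ℕ) (r : R) :
    sig R (Finsupp.single i r) = r := by simp [sig]

theorem sig_wt (t : FreeMagma ℕ) : sig F[X] (wt F t) = 1 := by
  induction t with
  | ih1 i => simp
  | ih2 s t hs ht =>
    rw [wt_mul, map_add, map_smul, map_smul, hs, ht, smul_eq_mul, smul_eq_mul, mul_one, mul_one,
      add_comm, uu_add_vv]

theorem key (h : Ids A) (m : Multiset ℕ) (T : Finset (FreeMagma ℕ)) (c : FreeMagma ℕ → F)
    (hm : ∀ t ∈ T, lt t = m) (hw : ∑ t ∈ T, c t • wt F t = 0) :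
    ∑ t ∈ T, c t • ev x t = 0 := by
  rcases T.eq_empty_or_nonempty with rfl | ⟨t0, ht0⟩
  · simp
  · have hc : ∑ t ∈ T, c t = 0 := by
      have h1 := congrArg (sig F[X]) hw
      rw [map_sum, map_zero] at h1
      have h2 : ∀ t ∈ T, sig F[X] (c t • wt F t) = C (c t) := by
        intro t _
        have : c t • wt F t = (C (c t) : F[X]) • wt F t := by
          ext i n; simp
        rw [this, map_smul, sig_wt, smul_eq_mul, mul_one]
      rw [Finset.sum_congr rfl h2, ← map_sum] at h1
      exact C_eq_zero.1 h1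
    obtain ⟨i0, hi0⟩ := Multiset.card_pos_iff_exists_mem.1 (lt_card_pos t0)
    obtain ⟨m', hm'⟩ := Multiset.exists_cons_of_mem hi0
    have hG : (∑ t ∈ T, c t • ((ev x t - ev x t0, wt F t - wt F t0) : A × (ℕ →₀ F[X]))) ∈
        GG (F := F) x (i0 ::ₘ m') := by
      refine Submodule.sum_mem _ fun t ht => Submodule.smul_mem _ _ ?_
      have := (Rel.all (F := F) (x := x) h _ t t0 rfl ((hm t ht).trans (hm t0 ht0).symm)).2
      rwa [hm t ht, ← hm t0 ht0, hm'] at this
    have h3 := Th_eq h i0 m' hG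
    have e1 : (∑ t ∈ T, c t • ((ev x t - ev x t0, wt F t - wt F t0) : A × (ℕ →₀ F[X]))).1 =
        ∑ t ∈ T, c t • ev x t := by
      rw [Prod.fst_sum]
      simp only [Prod.smul_fst, smul_sub, Finset.sum_sub_distrib, ← Finset.sum_smul, hc, zero_smul,
        sub_zero]
    have e2 : (∑ t ∈ T, c t • ((ev x t - ev x t0, wt F t - wt F t0) : A × (ℕ →₀ F[X]))).2 = 0 := by
      rw [Prod.snd_sum]
      simp only [Prod.smul_snd, smul_sub, Finset.sum_sub_distrib, ← Finset.sum_smul, hc, zero_smul,
        sub_zero, hw]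
    rw [e1, e2, map_zero] at h3
    exact h3

theorem key2 (h : Ids A) (T : Finset (FreeMagma ℕ)) (c : FreeMagma ℕ → F)
    (hw : ∀ m : Multiset ℕ, ∑ t ∈ T with lt t = m, c t • wt F t = 0) :
    ∑ t ∈ T, c t • ev x t = 0 := by
  classical
  rw [← Finset.sum_fiberwise_of_maps_to (s := T) (t := T.image lt) (g := lt)
    (fun t ht => Finset.mem_image_of_mem _ ht)]
  refine Finset.sum_eq_zero fun m _ => ?_
  exact key h m _ c (fun t ht => (Finset.mem_filter.1 ht).2) (hw m)

end Four

end Pool.Agent.Q18.PM
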