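import Mathlib
import Pool.Agent.Q2.PM.Stm

set_option autoImplicit false

/-! Project PM, lemma C12. -/

namespace Q18.PM_C12

open Subgroup Q2.PM
open Q2.TN (IsPNil IsSyl IsChief Nm)

theorem exists_card {G : Type} [Group G] [Finite G] (P : Subgroup G) (hP : IsPGroup 2 P) (k : ℕ)
    (hk : 2 ^ k < Nat.card P) : ∃ H : Subgroup G, H ≤ P ∧ Nat.card H = 2 ^ k := by
  have : Fact (Nat.Prime 2) := ⟨Nat.prime_two⟩
  obtain ⟨n, hn⟩ := (IsPGroup.iff_card).1 hP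
  have hkn : k ≤ n := by
    rw [hn] at hk
    exact (Nat.pow_lt_pow_iff_right (by norm_num)).1 hk |>.le
  obtain ⟨K, hK⟩ := Sylow.exists_subgroup_card_pow_prime (G := P) 2 (n := k)
    (by rw [hn]; exact pow_dvd_pow 2 hkn)
  refine ⟨K.map P.subtype, Subgroup.map_subtype_le K, ?_⟩
  rw [← hK]
  exact Subgroup.card_map_of_injective P.subtype_injective

theorem normal_le {G : Type} [Group G] [Finite G] (P L : Subgroup G) (hP : IsSyl 2 P)
    (hL : L.Normal) (h2 : IsPGroup 2 L) : L ≤ P := by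
  have : Fact (Nat.Prime 2) := ⟨Nat.prime_two⟩
  have h : IsPGroup 2 (P ⊔ L : Subgroup G) := IsPGroup.to_sup_of_normal_right hP.1 h2
  have h1 := (hP.1.toSylow hP.2).is_maximal' h le_sup_left
  have h3 : P ⊔ L = P := h1
  exact le_sup_right.trans h3.le

theorem c12 (h6 : S_B6) (c4 : S_C4) (c5 : S_C5) (c6 : S_C6) (c7 : S_C7) (c8 : S_C8)
    (c11 : S_C11) : S_C12 := by
  intro k G _ _ P hE hk
  have : Fact (Nat.Prime 2) := ⟨Nat.prime_two⟩
  obtain ⟨H₀, hH₀P, hH₀⟩ := exists_card P hE.syl.1 k hE.card_lt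
  have hH₀n : ¬ H₀ ≤ ⊥ := by
    intro h
    rw [le_bot_iff.1 h, Subgroup.card_bot] at hH₀
    have : 2 ^ 1 ≤ 2 ^ k := Nat.pow_le_pow_right (by norm_num) (by omega)
    omega
  obtain ⟨F, hFn, hF, hFc⟩ := hE.ext H₀ ⊥ hH₀P hH₀ inferInstance hH₀n
  rw [Subgroup.relIndex_bot_left] at hFc
  have hF2 : IsPGroup 2 F := by
    rcases hFc with ⟨j, hj⟩ | hodd
    · exact IsPGroup.of_card hj
    · exact absurd (hE.odd F hFn hodd) (ne_of_gt hF)
  obtain ⟨T, ⟨hTn, hTb, hTF⟩, hTmin⟩ := (wellFounded_lt (α := Subgroup G)).has_min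
    {N : Subgroup G | N.Normal ∧ N ≠ ⊥ ∧ N ≤ F} ⟨F, hFn, ne_of_gt hF, le_rfl⟩
  have hT : Q2.PM.IsMin T := by
    refine ⟨hTn, hTb, hF2.to_le hTF, ?_⟩
    intro L hLn hLT
    by_cases hLb : L = ⊥
    · exact Or.inl hLb
    · right
      by_contra hne
      exact hTmin L ⟨hLn, hLb, hLT.trans hTF⟩ (lt_of_le_of_ne hLT hne)
  have hTc : Nat.card T = 2 ^ (k - 1) := by
    rcases c4 k G P T hE hT with h | h
    · exact h
    · exact absurd h (c6 k G P T hE hT)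
  obtain ⟨L, hLn, hTL, hLc, hLab, hLe, -⟩ := c7 k G P T hE hT hk hTc
  have hL2 : IsPGroup 2 L := IsPGroup.of_card hLc
  have hLP : L ≤ P := normal_le P L hE.syl hLn hL2
  obtain ⟨H, hHP, hHc, hHL⟩ := h6 k G L P hE.two_le hLP hE.syl.1 hLc hLe hE.card_lt
  obtain ⟨V, hV, hV2⟩ := c5 k G P L H hE hLn hL2 hHP hHc hHL
    (fun F hF hLF hodd => c8 k G P T L F hE hT hk hTc hLn hTL hLc hLab hLe hF hLF hodd)
  have := c11 k G P T L V hE hT hk hTc hLn hTL hLc hLab hLe hV.2.1 hV2 hV.2.2.1.le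
  exact absurd this (ne_of_gt hV.2.2.1)

end Q18.PM_C12
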