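import Pool.Agent.Q18.RkInv

set_option linter.style.haveILetI false
set_option linter.unusedSectionVars false

open scoped BigOperators Classical

noncomputable section

namespace Pool.Agent.Q18.Rk

variable {ι : Type*} [Fintype ι] {blk : ι → ℕ}

lemma Ex_exists {D : Finset (ι × ι)} (hD : IsRook blk D) (k : ι) : ∃ L, k ∈ Ex blk D (blk k) L := by
  obtain ⟨s, hs⟩ : ∃ s, ∀ i, blk i < s := by
    refine ⟨(Finset.univ.sup blk) + 1, fun i => ?_⟩
    exact Nat.lt_succ_of_le (Finset.le_sup (Finset.mem_univ i))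
  have key : ∀ m, ∀ k, s - blk k ≤ m → ∃ L, k ∈ Ex blk D (blk k) L := by
    intro m
    induction m with
    | zero =>
      intro k hk
      have := hs k
      omega
    | succ m ih =>
      intro k hk
      by_cases h : ∃ j, (k, j) ∈ D
      · obtain ⟨j, hj⟩ := h
        have h1 := hD.1 (k, j) hj
        simp only at h1
        have h2 := hs j
        obtain ⟨L, hL⟩ := ih j (by omega)
        refine ⟨blk j :: L, ?_⟩
        show k ∈ Finset.univ.filter (fun k' => blk k' = blk k ∧ ∃ j' ∈ Ex blk D (blk j) L,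
          (k', j') ∈ D)
        rw [Finset.mem_filter]
        exact ⟨Finset.mem_univ _, rfl, j, hL, hj⟩
      · push Not at h
        refine ⟨[], ?_⟩
        show k ∈ Finset.univ.filter (fun k' => blk k' = blk k ∧ ∀ j, (k', j) ∉ D)
        rw [Finset.mem_filter]
        exact ⟨Finset.mem_univ _, rfl, h⟩
  exact key _ k le_rfl

lemma mem_Ex_nil {D : Finset (ι × ι)} {i : ℕ} {k : ι} :
    k ∈ Ex blk D i [] ↔ blk k = i ∧ ∀ j, (k, j) ∉ D := by
  show k ∈ Finset.univ.filter (fun k' => blk k' = i ∧ ∀ j, (k', j) ∉ D) ↔ _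
  rw [Finset.mem_filter]
  simp

lemma mem_Ex_cons {D : Finset (ι × ι)} {i l : ℕ} {L : List ℕ} {k : ι} :
    k ∈ Ex blk D i (l :: L) ↔ blk k = i ∧ ∃ j ∈ Ex blk D l L, (k, j) ∈ D := by
  show k ∈ Finset.univ.filter (fun k' => blk k' = i ∧ ∃ j' ∈ Ex blk D l L, (k', j') ∈ D) ↔ _
  rw [Finset.mem_filter]
  simp

lemma Ex_unique {D : Finset (ι × ι)} (hD : IsRook blk D) : ∀ (L L' : List ℕ) (i : ℕ) (k : ι),
    k ∈ Ex blk D i L → k ∈ Ex blk D i L' → L = L' := by
  intro L
  induction L with
  | nil =>
    intro L' i k h h'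
    cases L' with
    | nil => rfl
    | cons l L' =>
      obtain ⟨-, j, -, hj⟩ := mem_Ex_cons.1 h'
      exact absurd hj ((mem_Ex_nil.1 h).2 j)
  | cons l L ih =>
    intro L' i k h h'
    obtain ⟨-, j, hj1, hj2⟩ := mem_Ex_cons.1 h
    cases L' with
    | nil => exact absurd hj2 ((mem_Ex_nil.1 h').2 j)
    | cons l' L' =>
      obtain ⟨-, j', hj1', hj2'⟩ := mem_Ex_cons.1 h'
      have : j' = j := congrArg Prod.snd (hD.2.1 (k, j') hj2' (k, j) hj2 rfl)
      subst this
      have h1 := Ex_blk hj1
      have h2 := Ex_blk hj1'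
      have h3 : l = l' := h1.symm.trans h2
      subst h3
      rw [ih L' l j' hj1 hj1']

/-- the future of an element -/
def fut {blk : ι → ℕ} {D : Finset (ι × ι)} (hD : IsRook blk D) (k : ι) : List ℕ :=
  (Ex_exists hD k).choose

lemma mem_fut {D : Finset (ι × ι)} (hD : IsRook blk D) (k : ι) :
    k ∈ Ex blk D (blk k) (fut hD k) := (Ex_exists hD k).choose_spec

lemma mem_Ex_iff {D : Finset (ι × ι)} (hD : IsRook blk D) {k : ι} {i : ℕ} {L : List ℕ} :
    k ∈ Ex blk D i L ↔ blk k = i ∧ fut hD k = L := by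
  constructor
  · intro h
    have h1 := Ex_blk h
    subst h1
    exact ⟨rfl, Ex_unique hD _ _ _ _ (mem_fut hD k) h⟩
  · rintro ⟨rfl, rfl⟩
    exact mem_fut hD k

lemma fut_of_mem {D : Finset (ι × ι)} (hD : IsRook blk D) {k j : ι} (h : (k, j) ∈ D) :
    fut hD k = blk j :: fut hD j := by
  have : k ∈ Ex blk D (blk k) (blk j :: fut hD j) := mem_Ex_cons.2 ⟨rfl, j, mem_fut hD j, h⟩
  exact ((mem_Ex_iff hD).1 this).2

/-- starts -/
def St (D : Finset (ι × ι)) : Finset ι := Finset.univ.filter (fun j => ∀ k, (k, j) ∉ D)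

lemma mem_St {D : Finset (ι × ι)} {j : ι} : j ∈ St D ↔ ∀ k, (k, j) ∉ D := by
  unfold St
  rw [Finset.mem_filter]
  simp

lemma St_count {D : Finset (ι × ι)} (hD : IsRook blk D) {s : ℕ} (hs : ∀ i, blk i < s) (m : ℕ)
    (L : List ℕ) : ((Ex blk D m L).filter (fun j => j ∈ St D)).card +
      ∑ i ∈ Finset.range s, (Ex blk D i (m :: L)).card = (Ex blk D m L).card := by
  have h1 : ((Ex blk D m L).filter (fun j => j ∈ St D)).card +
      ((Ex blk D m L).filter (fun j => ¬ j ∈ St D)).card = (Ex blk D m L).card :=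
    Finset.card_filter_add_card_filter_not _
  rw [← h1]
  congr 1
  -- pairs
  have h2 : ((Ex blk D m L).filter (fun j => ¬ j ∈ St D)).card =
      (D.filter (fun α => α.2 ∈ Ex blk D m L)).card := by
    symm
    apply Finset.card_bij (fun α _ => α.2)
    · intro α hα
      rw [Finset.mem_filter] at hα ⊢
      refine ⟨hα.2, fun hcon => ?_⟩
      exact mem_St.1 hcon α.1 hα.1
    · intro α hα β hβ hab
      rw [Finset.mem_filter] at hα hβ
      exact hD.2.2 α hα.1 β hβ.1 hab
    · intro j hj
      rw [Finset.mem_filter, mem_St] at hj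
      push Not at hj
      obtain ⟨hj1, k, hk⟩ := hj
      exact ⟨(k, j), by rw [Finset.mem_filter]; exact ⟨hk, hj1⟩, rfl⟩
  have h3 : ∑ i ∈ Finset.range s, (Ex blk D i (m :: L)).card =
      (D.filter (fun α => α.2 ∈ Ex blk D m L)).card := by
    rw [← Finset.card_biUnion]
    · symm
      apply Finset.card_bij (fun α _ => α.1)
      · intro α hα
        rw [Finset.mem_filter] at hα
        rw [Finset.mem_biUnion]
        exact ⟨blk α.1, Finset.mem_range.2 (hs _), mem_Ex_cons.2 ⟨rfl, α.2, hα.2, hα.1⟩⟩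
      · intro α hα β hβ hab
        rw [Finset.mem_filter] at hα hβ
        exact hD.2.1 α hα.1 β hβ.1 hab
      · intro k hk
        rw [Finset.mem_biUnion] at hk
        obtain ⟨i, -, hk⟩ := hk
        obtain ⟨-, j, hj1, hj2⟩ := mem_Ex_cons.1 hk
        exact ⟨(k, j), by rw [Finset.mem_filter]; exact ⟨hj2, hj1⟩, rfl⟩
    · intro i _ i' _ hne
      rw [Function.onFun, Finset.disjoint_left]
      intro k hk hk'
      exact hne ((Ex_blk hk).symm.trans (Ex_blk hk'))
  rw [h2, h3]

/-- the combinatorial lemma: equal numbers of exact types give a block preserving permutation -/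
theorem exists_perm {D D' : Finset (ι × ι)} (hD : IsRook blk D) (hD' : IsRook blk D')
    (hc : ∀ i L, (Ex blk D i L).card = (Ex blk D' i L).card) :
    ∃ w : Equiv.Perm ι, (∀ i, blk (w i) = blk i) ∧ D' = D.image (fun α => (w α.1, w α.2)) := by
  obtain ⟨s, hs⟩ : ∃ s, ∀ i, blk i < s := by
    refine ⟨(Finset.univ.sup blk) + 1, fun i => ?_⟩
    exact Nat.lt_succ_of_le (Finset.le_sup (Finset.mem_univ i))
  have hst : ∀ m L, ((Ex blk D m L).filter (fun j => j ∈ St D)).card =
      ((Ex blk D' m L).filter (fun j => j ∈ St D')).card := by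
    intro m L
    have h1 := St_count hD hs m L
    have h2 := St_count hD' hs m L
    rw [hc m L, Finset.sum_congr rfl (fun i _ => hc i (m :: L))] at h1
    omega
  -- equivalence of starts
  let f : {j // j ∈ St D} → ℕ × List ℕ := fun j => (blk j.1, fut hD j.1)
  let f' : {j // j ∈ St D'} → ℕ × List ℕ := fun j => (blk j.1, fut hD' j.1)
  have hfib : ∀ t, Nonempty ({a // f a = t} ≃ {b // f' b = t}) := by
    rintro ⟨m, L⟩
    apply Nonempty.intro
    apply Fintype.equivOfCardEq
    have e1 : Fintype.card {a // f a = (m, L)} =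
        ((Ex blk D m L).filter (fun j => j ∈ St D)).card := by
      rw [Fintype.card_subtype]
      apply Finset.card_bij (fun a _ => a.1)
      · intro a ha
        rw [Finset.mem_filter] at ha
        rw [Finset.mem_filter, mem_Ex_iff hD]
        exact ⟨⟨congrArg Prod.fst ha.2, congrArg Prod.snd ha.2⟩, a.2⟩
      · intro a _ b _ hab
        exact Subtype.ext hab
      · intro j hj
        rw [Finset.mem_filter, mem_Ex_iff hD] at hj
        refine ⟨⟨j, hj.2⟩, ?_, rfl⟩
        rw [Finset.mem_filter]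
        exact ⟨Finset.mem_univ _, Prod.ext hj.1.1 hj.1.2⟩
    have e2 : Fintype.card {b // f' b = (m, L)} =
        ((Ex blk D' m L).filter (fun j => j ∈ St D')).card := by
      rw [Fintype.card_subtype]
      apply Finset.card_bij (fun a _ => a.1)
      · intro a ha
        rw [Finset.mem_filter] at ha
        rw [Finset.mem_filter, mem_Ex_iff hD']
        exact ⟨⟨congrArg Prod.fst ha.2, congrArg Prod.snd ha.2⟩, a.2⟩
      · intro a _ b _ hab
        exact Subtype.ext hab
      · intro j hj
        rw [Finset.mem_filter, mem_Ex_iff hD'] at hj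
        refine ⟨⟨j, hj.2⟩, ?_, rfl⟩
        rw [Finset.mem_filter]
        exact ⟨Finset.mem_univ _, Prod.ext hj.1.1 hj.1.2⟩
    rw [e1, e2, hst]
  let e0 : {j // j ∈ St D} ≃ {j // j ∈ St D'} := Equiv.ofFiberEquiv (fun t => (hfib t).some)
  have he0 : ∀ j, f' (e0 j) = f j := Equiv.ofFiberEquiv_map (fun t => (hfib t).some)
  -- stage construction
  have stage : ∀ m, ∃ w : ι → ι, ∀ j, blk j < m → blk (w j) = blk j ∧ fut hD' (w j) = fut hD j ∧
      (∀ h : j ∈ St D, w j = (e0 ⟨j, h⟩).1) ∧ (∀ k, (k, j) ∈ D → (w k, w j) ∈ D') := by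
    intro m
    induction m with
    | zero => exact ⟨id, fun j hj => absurd hj (Nat.not_lt_zero _)⟩
    | succ m ih =>
      obtain ⟨w, hw⟩ := ih
      -- for nonstarts in block m, the image
      have hns : ∀ j, blk j = m → ∀ k, (k, j) ∈ D → ∃ j', (w k, j') ∈ D' ∧ blk j' = blk j ∧
          fut hD' j' = fut hD j := by
        intro j hj k hk
        have h1 := hD.1 (k, j) hk
        simp only at h1
        obtain ⟨h2, h3, -, -⟩ := hw k (by omega)
        have h4 : w k ∈ Ex blk D' (blk k) (blk j :: fut hD j) := by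
          rw [mem_Ex_iff hD', h2, h3, fut_of_mem hD hk]
          exact ⟨rfl, rfl⟩
        obtain ⟨-, j', hj'1, hj'2⟩ := mem_Ex_cons.1 h4
        obtain ⟨h5, h6⟩ := (mem_Ex_iff hD').1 hj'1
        exact ⟨j', hj'2, h5, h6⟩
      have hns' : ∀ j k, ∃ j', blk j = m → (k, j) ∈ D → ((w k, j') ∈ D' ∧ blk j' = blk j ∧
          fut hD' j' = fut hD j) := by
        intro j k
        by_cases hj : blk j = m
        · by_cases hk : (k, j) ∈ D
          · obtain ⟨j', h⟩ := hns j hj k hk
            exact ⟨j', fun _ _ => h⟩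
          · exact ⟨j, fun _ h => absurd h hk⟩
        · exact ⟨j, fun h => absurd h hj⟩
      choose φ hφ using hns'
      have hsrc : ∀ j, ∃ k, (∃ k', (k', j) ∈ D) → (k, j) ∈ D := by
        intro j
        by_cases h : ∃ k', (k', j) ∈ D
        · obtain ⟨k, hk⟩ := h
          exact ⟨k, fun _ => hk⟩
        · exact ⟨j, fun h' => absurd h' h⟩
      choose σ hσ using hsrc
      set wn : ι → ι := fun j => if blk j = m then (if ∃ k, (k, j) ∈ D then φ j (σ j) else
        (if h' : j ∈ St D then (e0 ⟨j, h'⟩).1 else j)) else w j with hwn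
      have hn1 : ∀ j, blk j = m → (∃ k, (k, j) ∈ D) → wn j = φ j (σ j) := by
        intro j h1 h2
        show (if blk j = m then (if ∃ k, (k, j) ∈ D then φ j (σ j) else
          (if h' : j ∈ St D then (e0 ⟨j, h'⟩).1 else j)) else w j) = _
        rw [if_pos h1, if_pos h2]
      have hn2 : ∀ j, blk j = m → ∀ h' : j ∈ St D, wn j = (e0 ⟨j, h'⟩).1 := by
        intro j h1 h'
        show (if blk j = m then (if ∃ k, (k, j) ∈ D then φ j (σ j) else
          (if h' : j ∈ St D then (e0 ⟨j, h'⟩).1 else j)) else w j) = _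
        rw [if_pos h1, if_neg (fun h => by obtain ⟨k, hk⟩ := h; exact mem_St.1 h' k hk), dif_pos h']
      have hn3 : ∀ j, blk j ≠ m → wn j = w j := by
        intro j h1
        show (if blk j = m then (if ∃ k, (k, j) ∈ D then φ j (σ j) else
          (if h' : j ∈ St D then (e0 ⟨j, h'⟩).1 else j)) else w j) = _
        rw [if_neg h1]
      refine ⟨wn, ?_⟩
      intro j hjm
      rcases Nat.lt_succ_iff_lt_or_eq.1 hjm with hlt | heq
      · obtain ⟨h1, h2, h3, h4⟩ := hw j hlt
        rw [hn3 j (by omega)]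
        refine ⟨h1, h2, h3, ?_⟩
        intro k hk
        have h5 := hD.1 (k, j) hk
        simp only at h5
        rw [hn3 k (by omega)]
        exact h4 k hk
      · by_cases h : ∃ k, (k, j) ∈ D
        · rw [hn1 j heq h]
          obtain ⟨g1, g2, g3⟩ := hφ j (σ j) heq (hσ j h)
          refine ⟨g2, g3, ?_, ?_⟩
          · intro h'
            exact absurd (hσ j h) (mem_St.1 h' _)
          · intro k hk
            have hkk : σ j = k :=
              congrArg Prod.fst (hD.2.2 (σ j, j) (hσ j h) (k, j) hk rfl)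
            have h5 := hD.1 (k, j) hk
            simp only at h5
            rw [hn3 k (by omega), ← hkk]
            exact g1
        · have h' : j ∈ St D := by
            rw [mem_St]; push Not at h; exact h
          rw [hn2 j heq h']
          have h7 := he0 ⟨j, h'⟩
          refine ⟨congrArg Prod.fst h7, congrArg Prod.snd h7, fun _ => rfl, ?_⟩
          intro k hk
          exact absurd ⟨k, hk⟩ h
  obtain ⟨w, hw'⟩ := stage s
  have hw : ∀ j, blk (w j) = blk j ∧ fut hD' (w j) = fut hD j ∧
      (∀ h : j ∈ St D, w j = (e0 ⟨j, h⟩).1) ∧ (∀ k, (k, j) ∈ D → (w k, w j) ∈ D') :=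
    fun j => hw' j (hs j)
  have hinj : ∀ m, ∀ j1 j2, blk j1 = m → w j1 = w j2 → j1 = j2 := by
    intro m
    induction m using Nat.strong_induction_on with
    | _ m ih =>
    intro j1 j2 hm h12
    have hb : blk j2 = blk j1 := by rw [← (hw j2).1, ← (hw j1).1, h12]
    by_cases h1 : j1 ∈ St D
    · by_cases h2 : j2 ∈ St D
      · have e1 := (hw j1).2.2.1 h1
        have e2 := (hw j2).2.2.1 h2
        rw [e1, e2] at h12
        have := e0.injective (Subtype.ext h12)
        exact congrArg Subtype.val this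
      · exfalso
        rw [mem_St] at h2
        push Not at h2
        obtain ⟨k, hk⟩ := h2
        have h3 := (hw j2).2.2.2 k hk
        have e1 := (hw j1).2.2.1 h1
        rw [← h12, e1] at h3
        exact mem_St.1 (e0 ⟨j1, h1⟩).2 _ h3
    · by_cases h2 : j2 ∈ St D
      · exfalso
        rw [mem_St] at h1
        push Not at h1
        obtain ⟨k, hk⟩ := h1
        have h3 := (hw j1).2.2.2 k hk
        have e1 := (hw j2).2.2.1 h2
        rw [h12, e1] at h3
        exact mem_St.1 (e0 ⟨j2, h2⟩).2 _ h3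
      · rw [mem_St] at h1 h2
        push Not at h1 h2
        obtain ⟨k1, hk1⟩ := h1
        obtain ⟨k2, hk2⟩ := h2
        have h3 := (hw j1).2.2.2 k1 hk1
        have h4 := (hw j2).2.2.2 k2 hk2
        rw [h12] at h3
        have h5 : w k1 = w k2 := congrArg Prod.fst (hD'.2.2 _ h3 _ h4 rfl)
        have h6 := hD.1 _ hk1
        simp only at h6
        have h7 := ih (blk k1) (by omega) k1 k2 rfl h5
        subst h7
        exact congrArg Prod.snd (hD.2.1 _ hk1 _ hk2 rfl)
  have hwinj : Function.Injective w := fun j1 j2 h => hinj _ j1 j2 rfl h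
  let W : Equiv.Perm ι := Equiv.ofBijective w (Finite.injective_iff_bijective.1 hwinj)
  have hW : ∀ j, W j = w j := fun _ => rfl
  refine ⟨W, fun i => (hw i).1, ?_⟩
  symm
  apply Finset.eq_of_subset_of_card_le
  · intro β hβ
    rw [Finset.mem_image] at hβ
    obtain ⟨α, hα, rfl⟩ := hβ
    exact (hw α.2).2.2.2 α.1 hα
  · have hcardD : ∀ {E : Finset (ι × ι)}, IsRook blk E →
        E.card + (St E).card = Fintype.card ι := by
      intro E hE
      have h1 : E.card = (Finset.univ.filter (fun j => ¬ j ∈ St E)).card := by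
        apply Finset.card_bij (fun α _ => α.2)
        · intro α hα
          rw [Finset.mem_filter]
          exact ⟨Finset.mem_univ _, fun hcon => mem_St.1 hcon α.1 hα⟩
        · intro α hα β hβ hab
          exact hE.2.2 α hα β hβ hab
        · intro j hj
          rw [Finset.mem_filter, mem_St] at hj
          push Not at hj
          obtain ⟨-, k, hk⟩ := hj
          exact ⟨(k, j), hk, rfl⟩
      have h2 : (St E).card = (Finset.univ.filter (fun j => j ∈ St E)).card := by
        congr 1
        ext j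
        simp
      rw [h1, h2, add_comm, Finset.card_filter_add_card_filter_not, Finset.card_univ]
    have h1 := hcardD hD
    have h2 := hcardD hD'
    have h3 : (St D).card = (St D').card := by
      have := Fintype.card_congr e0
      rwa [Fintype.card_coe, Fintype.card_coe] at this
    rw [Finset.card_image_of_injective]
    · omega
    · intro α β hab
      simp only [Prod.mk.injEq] at hab
      exact Prod.ext (W.injective hab.1) (W.injective hab.2)

theorem exists_perm' {D D' : Finset (ι × ι)} (hD : IsRook blk D) (hD' : IsRook blk D')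
    (hc : ∀ i L, (Ex blk D i L).card = (Ex blk D' i L).card) :
    ∃ w : Equiv.Perm ι, (∀ i, blk (w i) = blk i) ∧
      ∀ β, β ∈ D' ↔ ∃ α ∈ D, (w α.1, w α.2) = β := by
  obtain ⟨w, hw, h⟩ := exists_perm hD hD' hc
  refine ⟨w, hw, fun β => ?_⟩
  conv_lhs => rw [h]
  exact Finset.mem_image

end Pool.Agent.Q18.Rk
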