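import Mathlib

/-!
Definitions for MP_e8bb44_al. Indices are `ι`, and `blk i` is the number of the diagonal block
containing the index `i`.
-/

namespace Pool.Agent.Q18.Rk

open scoped BigOperators

variable (K : Type*) [Field K] {ι : Type*} [Fintype ι] [DecidableEq ι] (blk : ι → ℕ)

/-- The algebra `J` of the matrices supported strictly above the diagonal blocks. -/
def JJ : Submodule K (Matrix ι ι K) where
  carrier := {x | ∀ i j, ¬ blk i < blk j → x i j = 0}
  add_mem' := by
    intro a b ha hb i j hij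
    simp [ha i j hij, hb i j hij]
  zero_mem' := by intro i j _; rfl
  smul_mem' := by
    intro c a ha i j hij
    simp [ha i j hij]

/-- `lam'` and `lam` in `J*` are in one orbit of `R ⋉ (N × N)`: there are an invertible block
diagonal `r` and `a, b` in `N = 1 + J` with `lam' = r a lam b r⁻¹`, that is
`lam' x = lam (b r⁻¹ x r a)` for all `x` in `J`. -/
def Eqv {K : Type*} [Field K] {ι : Type*} [Fintype ι] [DecidableEq ι] (blk : ι → ℕ)
    (lam lam' : Module.Dual K (JJ K blk)) : Prop :=
  ∃ (r : (Matrix ι ι K)ˣ) (a b : Matrix ι ι K),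
    (∀ i j, blk i ≠ blk j → (r : Matrix ι ι K) i j = 0) ∧ a - 1 ∈ JJ K blk ∧ b - 1 ∈ JJ K blk ∧
    ∀ x : JJ K blk, ∃ h : b * ((r⁻¹ : (Matrix ι ι K)ˣ) : Matrix ι ι K) * (x : Matrix ι ι K) *
      (r : Matrix ι ι K) * a ∈ JJ K blk, lam' x = lam ⟨_, h⟩

/-- `D` is a rook placement: a set of positions strictly above the diagonal blocks with at most
one in each row and at most one in each column. -/
def IsRook {ι : Type*} (blk : ι → ℕ) (D : Finset (ι × ι)) : Prop :=
  (∀ α ∈ D, blk α.1 < blk α.2) ∧ (∀ α ∈ D, ∀ β ∈ D, α.1 = β.1 → α = β) ∧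
    (∀ α ∈ D, ∀ β ∈ D, α.2 = β.2 → α = β)

/-- The form `λ_D = ∑_{α ∈ D} E_α*`. -/
def lamD (D : Finset (ι × ι)) : Module.Dual K (JJ K blk) where
  toFun x := ∑ α ∈ D, (x : Matrix ι ι K) α.1 α.2
  map_add' := by
    intro x y
    simp [Finset.sum_add_distrib]
  map_smul' := by
    intro c x
    simp [Finset.mul_sum]

end Pool.Agent.Q18.Rk
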