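import Mathlib

set_option linter.style.haveILetI false
set_option linter.unusedSectionVars false

open scoped BigOperators Classical

noncomputable section

namespace Pool.Agent.Q18.Rk

variable {K : Type*} [Field K] {ι : Type*} [Fintype ι] (blk : ι → ℕ)

/-- the flag of coordinate subspaces: vectors supported on the indices of block `< m` -/
def Fl (K : Type*) [Field K] {ι : Type*} (blk : ι → ℕ) (m : ℕ) : Submodule K (ι → K) where
  carrier := {v | ∀ i, m ≤ blk i → v i = 0}
  add_mem' := by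
    intro a b ha hb i hi
    simp [ha i hi, hb i hi]
  zero_mem' := by intro i _; rfl
  smul_mem' := by
    intro c a ha i hi
    simp [ha i hi]

variable {blk}

lemma mem_Fl {m : ℕ} {v : ι → K} : v ∈ Fl K blk m ↔ ∀ i, m ≤ blk i → v i = 0 := Iff.rfl

lemma Fl_mono {m m' : ℕ} (h : m ≤ m') : Fl K blk m ≤ Fl K blk m' := by
  intro v hv i hi
  exact hv i (h.trans hi)

lemma Fl_top {s : ℕ} (hs : ∀ i, blk i < s) : Fl K blk s = ⊤ := by
  ext v
  simp only [mem_Fl, Submodule.mem_top, iff_true]
  intro i hi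
  exact absurd (hs i) (by omega)

/-- pull back of a subspace of level `l > i` to level `i` -/
def pl (y : (ι → K) →ₗ[K] (ι → K)) (blk : ι → ℕ) (i : ℕ) (W : Submodule K (ι → K)) :
    Submodule K (ι → K) := (Fl K blk (i + 1) ⊓ W.comap y) ⊔ Fl K blk i

lemma mem_pl {y : (ι → K) →ₗ[K] (ι → K)} {i : ℕ} {W : Submodule K (ι → K)} {u : ι → K} :
    u ∈ pl y blk i W ↔ u ∈ Fl K blk (i + 1) ∧ ∃ f ∈ Fl K blk i, y (u + f) ∈ W := by
  unfold pl
  rw [Submodule.mem_sup]
  constructor
  · rintro ⟨a, ha, b, hb, rfl⟩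
    rw [Submodule.mem_inf, Submodule.mem_comap] at ha
    refine ⟨Submodule.add_mem _ ha.1 (Fl_mono (Nat.le_succ i) hb), -b, Submodule.neg_mem _ hb, ?_⟩
    rw [add_neg_cancel_right]
    exact ha.2
  · rintro ⟨hu, f, hf, hy⟩
    refine ⟨u + f, ?_, -f, Submodule.neg_mem _ hf, by rw [add_neg_cancel_right]⟩
    rw [Submodule.mem_inf, Submodule.mem_comap]
    exact ⟨Submodule.add_mem _ hu (Fl_mono (Nat.le_succ i) hf), hy⟩

lemma pl_mono {y : (ι → K) →ₗ[K] (ι → K)} {i : ℕ} {W W' : Submodule K (ι → K)} (h : W ≤ W') :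
    pl y blk i W ≤ pl y blk i W' := by
  unfold pl
  exact sup_le_sup_right (inf_le_inf_left _ (Submodule.comap_mono h)) _

lemma Fl_le_pl {y : (ι → K) →ₗ[K] (ι → K)} {i : ℕ} {W : Submodule K (ι → K)} :
    Fl K blk i ≤ pl y blk i W := le_sup_right

lemma pl_le {y : (ι → K) →ₗ[K] (ι → K)} {i : ℕ} {W : Submodule K (ι → K)} :
    pl y blk i W ≤ Fl K blk (i + 1) := sup_le inf_le_left (Fl_mono (Nat.le_succ i))

/-- the chain of canonical subspaces of each level -/
inductive Ch (y : (ι → K) →ₗ[K] (ι → K)) (blk : ι → ℕ) : ℕ → Submodule K (ι → K) → Prop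
  | bot (m : ℕ) : Ch y blk m (Fl K blk m)
  | top (m : ℕ) : Ch y blk m (Fl K blk (m + 1))
  | pull (i l : ℕ) (W : Submodule K (ι → K)) (h : i < l) (hW : Ch y blk l W) :
      Ch y blk i (pl y blk i W)

variable {y : (ι → K) →ₗ[K] (ι → K)}

lemma Ch.le {m : ℕ} {W : Submodule K (ι → K)} (h : Ch y blk m W) :
    Fl K blk m ≤ W ∧ W ≤ Fl K blk (m + 1) := by
  cases h with
  | bot => exact ⟨le_rfl, Fl_mono (Nat.le_succ m)⟩
  | top => exact ⟨Fl_mono (Nat.le_succ m), le_rfl⟩
  | pull l W h hW => exact ⟨Fl_le_pl, pl_le⟩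

lemma Ch.total {m : ℕ} {W : Submodule K (ι → K)} (h : Ch y blk m W) :
    ∀ {W' : Submodule K (ι → K)}, Ch y blk m W' → W ≤ W' ∨ W' ≤ W := by
  induction h with
  | bot m => intro W' h'; exact Or.inl h'.le.1
  | top m => intro W' h'; exact Or.inr h'.le.2
  | pull i l W hil hW ih =>
    intro W' h'
    cases h' with
    | bot => exact Or.inr Fl_le_pl
    | top => exact Or.inl pl_le
    | pull _ l' W0 hil' hW0 =>
      rcases lt_trichotomy l l' with h | h | h
      · left
        apply pl_mono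
        exact (hW.le.2.trans (Fl_mono h)).trans hW0.le.1
      · subst h
        rcases ih hW0 with h | h
        · exact Or.inl (pl_mono h)
        · exact Or.inr (pl_mono h)
      · right
        apply pl_mono
        exact (hW0.le.2.trans (Fl_mono h)).trans hW.le.1

/-- a family is adapted to a family of subspaces -/
def Adp (C : Submodule K (ι → K) → Prop) {κ : Type*} (T : Finset κ) (u : κ → (ι → K)) : Prop :=
  ∀ W, C W → ∀ c : κ → K, (∑ k ∈ T, c k • u k) ∈ W → ∀ k ∈ T, c k ≠ 0 → u k ∈ W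

/-- choice of a lift which is minimal for the chain -/
lemma exists_min {i l : ℕ} (_ : i < l) {u : ι → K} (hu : u ∈ pl y blk i (Fl K blk (l + 1))) :
    ∃ f ∈ Fl K blk i, y (u + f) ∈ Fl K blk (l + 1) ∧
      ∀ W, Ch y blk l W → u ∈ pl y blk i W → y (u + f) ∈ W := by
  have hwf : WellFounded ((· < ·) : Submodule K (ι → K) → Submodule K (ι → K) → Prop) :=
    wellFounded_lt
  set S : Set (Submodule K (ι → K)) := {W | Ch y blk l W ∧ u ∈ pl y blk i W} with hS
  have hne : S.Nonempty := ⟨Fl K blk (l + 1), Ch.top l, hu⟩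
  set W0 := hwf.min S hne with hW0
  have hW0S : W0 ∈ S := hwf.min_mem S hne
  obtain ⟨hC, hm⟩ := hW0S
  obtain ⟨-, f, hf, hy⟩ := mem_pl.1 hm
  refine ⟨f, hf, hC.le.2 hy, ?_⟩
  intro W hW huW
  rcases hC.total hW with h | h
  · exact h hy
  · have hWS : W ∈ S := ⟨hW, huW⟩
    have h1 := hwf.not_lt_min S hWS
    have h2 : W = W0 := by
      by_contra hcon
      exact h1 (lt_of_le_of_ne h hcon)
    rw [h2]
    exact hy

/-- restriction to the coordinates of block `m` -/
def rs (K : Type*) [Field K] {ι : Type*} (blk : ι → ℕ) (m : ℕ) :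
    (ι → K) →ₗ[K] ({i : ι // blk i = m} → K) where
  toFun v i := v i.1
  map_add' _ _ := rfl
  map_smul' _ _ := rfl

lemma mem_Fl_of_rs {m : ℕ} {v : ι → K} (h1 : v ∈ Fl K blk (m + 1)) (h2 : rs K blk m v = 0) :
    v ∈ Fl K blk m := by
  intro i hi
  rcases hi.eq_or_lt with h | h
  · exact congrFun h2 ⟨i, h.symm⟩
  · exact h1 i h

lemma rs_of_mem {m : ℕ} {v : ι → K} (h1 : v ∈ Fl K blk m) : rs K blk m v = 0 := by
  funext i
  exact h1 i.1 i.2.ge

/-- an adapted family of nonzero classes is linearly independent modulo the bottom -/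
lemma Adp.linInd {C : Submodule K (ι → K) → Prop} {κ : Type*} {T : Finset κ}
    {u : κ → (ι → K)} (h : Adp C T u) {m : ℕ} (hC : C (Fl K blk m))
    (h1 : ∀ k ∈ T, u k ∈ Fl K blk (m + 1)) (h2 : ∀ k ∈ T, u k ∉ Fl K blk m) :
    LinearIndependent K (fun k : T => rs K blk m (u k.1)) := by
  rw [Fintype.linearIndependent_iff]
  intro g hg k
  by_contra hk
  have h3 : (∑ k ∈ T, (fun k => if hk : k ∈ T then g ⟨k, hk⟩ else 0) k • u k) ∈ Fl K blk m := by
    apply mem_Fl_of_rs
    · exact Submodule.sum_mem _ (fun k hk => Submodule.smul_mem _ _ (h1 k hk))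
    · rw [map_sum, ← hg, ← Finset.sum_attach]
      apply Finset.sum_congr rfl
      intro k _
      simp
  refine h2 k.1 k.2 (h _ hC _ h3 k.1 k.2 ?_)
  simp only [k.2, dif_pos]
  exact hk

lemma Adp.card_le {C : Submodule K (ι → K) → Prop} {κ : Type*} {T : Finset κ}
    {u : κ → (ι → K)} (h : Adp C T u) {m : ℕ} (hC : C (Fl K blk m))
    (h1 : ∀ k ∈ T, u k ∈ Fl K blk (m + 1)) (h2 : ∀ k ∈ T, u k ∉ Fl K blk m) :
    T.card ≤ (Finset.univ.filter (fun i => blk i = m)).card := by
  have h3 := (h.linInd hC h1 h2).fintype_card_le_finrank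
  rw [Module.finrank_fintype_fun_eq_card, Fintype.card_coe, Fintype.card_subtype] at h3
  exact h3

/-- adding one vector to an adapted family -/
lemma Adp.add {m : ℕ} {κ : Type*} {T : Finset κ} {u : κ → (ι → K)}
    (h : Adp (Ch y blk m) T u) (h1 : ∀ k ∈ T, u k ∈ Fl K blk (m + 1))
    (h2 : ∀ k ∈ T, u k ∉ Fl K blk m)
    (hcard : T.card < (Finset.univ.filter (fun i => blk i = m)).card) {j : κ} (hj : j ∉ T) :
    ∃ w ∈ Fl K blk (m + 1), w ∉ Fl K blk m ∧
      Adp (Ch y blk m) (insert j T) (Function.update u j w) := by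
  set X : Submodule K (ι → K) := Submodule.span K (u '' T) ⊔ Fl K blk m with hX
  have hXne : ¬ Fl K blk (m + 1) ≤ X := by
    intro hle
    -- restriction of X is everything
    have h3 : (⊤ : Submodule K ({i : ι // blk i = m} → K)) ≤
        Submodule.span K (Set.range (fun k : T => rs K blk m (u k.1))) := by
      intro v _
      set v' : ι → K := fun i => if hi : blk i = m then v ⟨i, hi⟩ else 0 with hv'
      have h4 : v' ∈ Fl K blk (m + 1) := by
        intro i hi
        have : blk i ≠ m := by omega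
        simp [hv', this]
      have h5 : rs K blk m v' = v := by
        funext i
        simp [rs, hv', i.2]
      have h6 := hle h4
      rw [hX, Submodule.mem_sup] at h6
      obtain ⟨a, ha, b, hb, hab⟩ := h6
      rw [← h5, ← hab, map_add, rs_of_mem hb, add_zero]
      have h7 : rs K blk m a ∈ (Submodule.span K (u '' T)).map (rs K blk m) :=
        Submodule.mem_map_of_mem ha
      rw [Submodule.map_span] at h7
      apply Submodule.span_mono _ h7
      rintro _ ⟨_, ⟨k, hk, rfl⟩, rfl⟩
      exact ⟨⟨k, hk⟩, rfl⟩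
    have h4 : Module.finrank K ({i : ι // blk i = m} → K) ≤ T.card := by
      have h5 := finrank_range_le_card (R := K) (fun k : T => rs K blk m (u k.1))
      rw [Fintype.card_coe] at h5
      have h6 : Submodule.span K (Set.range (fun k : T => rs K blk m (u k.1))) = ⊤ :=
        top_le_iff.1 h3
      rw [Set.finrank, h6, finrank_top] at h5
      exact h5
    rw [Module.finrank_fintype_fun_eq_card, Fintype.card_subtype] at h4
    omega
  have hwf : WellFounded ((· < ·) : Submodule K (ι → K) → Submodule K (ι → K) → Prop) :=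
    wellFounded_lt
  set S : Set (Submodule K (ι → K)) := {W | Ch y blk m W ∧ ¬ W ≤ X} with hS
  have hne : S.Nonempty := ⟨Fl K blk (m + 1), Ch.top m, hXne⟩
  set W0 := hwf.min S hne with hW0
  have hW0S : W0 ∈ S := hwf.min_mem S hne
  obtain ⟨hC, hm⟩ := hW0S
  obtain ⟨w, hw, hwX⟩ := Set.not_subset.1 hm
  refine ⟨w, hC.le.2 hw, fun hcon => hwX (Submodule.mem_sup_right hcon), ?_⟩
  intro W hW c hsum k hk hck
  rw [Finset.sum_insert hj, Function.update_self] at hsum
  have hsum' : ∑ k ∈ T, c k • (Function.update u j w) k = ∑ k ∈ T, c k • u k := by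
    apply Finset.sum_congr rfl
    intro k hk
    rw [Function.update_of_ne (fun h : k = j => hj (h ▸ hk))]
  rw [hsum'] at hsum
  by_cases hcj : c j = 0
  · rw [hcj, zero_smul, zero_add] at hsum
    rw [Finset.mem_insert] at hk
    rcases hk with rfl | hk
    · exact absurd hcj hck
    · rw [Function.update_of_ne (fun h : k = j => hj (h ▸ hk))]
      exact h W hW c hsum k hk hck
  · have hspan : ∑ k ∈ T, c k • u k ∈ X := by
      apply Submodule.mem_sup_left
      exact Submodule.sum_mem _ (fun k hk => Submodule.smul_mem _ _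
        (Submodule.subset_span ⟨k, hk, rfl⟩))
    have hWX : ¬ W ≤ X := by
      intro hWX
      apply hwX
      have h3 := hWX hsum
      have h4 : c j • w ∈ X := (Submodule.add_mem_iff_left X hspan).1 h3
      exact (Submodule.smul_mem_iff X hcj).1 h4
    have hW0W : W0 ≤ W := by
      rcases hC.total hW with h3 | h3
      · exact h3
      · have h4 := hwf.not_lt_min S (show W ∈ S from ⟨hW, hWX⟩)
        by_contra hcon
        apply h4
        exact lt_of_le_of_ne h3 (fun h5 => hcon h5.ge)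
    have hwW : w ∈ W := hW0W hw
    have h5 : ∑ k ∈ T, c k • u k ∈ W :=
      (Submodule.add_mem_iff_right W (Submodule.smul_mem _ _ hwW)).1 hsum
    rw [Finset.mem_insert] at hk
    rcases hk with rfl | hk
    · rw [Function.update_self]; exact hwW
    · rw [Function.update_of_ne (fun h : k = j => hj (h ▸ hk))]
      exact h W hW c h5 k hk hck

end Pool.Agent.Q18.Rk
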