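import Pool.Agent.Q18.RkOne

set_option linter.style.haveILetI false
set_option linter.unusedSectionVars false

open scoped BigOperators Classical

noncomputable section

namespace Pool.Agent.Q18.Rk

variable {K : Type*} [Field K] {ι : Type*} [Fintype ι] {blk : ι → ℕ}

/-- increasing lists above `i` -/
def Inc : ℕ → List ℕ → Prop
  | _, [] => True
  | i, (l :: L) => i < l ∧ Inc l L

/-- canonical subspaces indexed by words -/
def Wd (y : (ι → K) →ₗ[K] (ι → K)) (blk : ι → ℕ) (base : ℕ → Submodule K (ι → K)) :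
    ℕ → List ℕ → Submodule K (ι → K)
  | i, [] => base i
  | i, (l :: L) => pl y blk i (Wd y blk base l L)

lemma Fl_le_Wd {y : (ι → K) →ₗ[K] (ι → K)} {base : ℕ → Submodule K (ι → K)}
    (hb : ∀ i, Fl K blk i ≤ base i) (i : ℕ) (L : List ℕ) : Fl K blk i ≤ Wd y blk base i L := by
  cases L with
  | nil => exact hb i
  | cons l L => exact Fl_le_pl

/-- transport data between two maps -/
structure Tr (blk : ι → ℕ) (y y' : (ι → K) →ₗ[K] (ι → K)) (g h : (ι → K) ≃ₗ[K] (ι → K)) : Prop where
  g1 : ∀ m v, v ∈ Fl K blk m → g v ∈ Fl K blk m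
  g2 : ∀ m v, v ∈ Fl K blk m → g.symm v ∈ Fl K blk m
  h1 : ∀ m v, v ∈ Fl K blk m → h v ∈ Fl K blk m
  h2 : ∀ m v, v ∈ Fl K blk m → h.symm v ∈ Fl K blk m
  gh : ∀ m v, v ∈ Fl K blk (m + 1) → g (h v) - v ∈ Fl K blk m
  hy : ∀ m v, v ∈ Fl K blk (m + 1) → y' v - g (y (h v)) ∈ Fl K blk (m + 1)

lemma Tr.pl_map {y y' : (ι → K) →ₗ[K] (ι → K)} {g h : (ι → K) ≃ₗ[K] (ι → K)}
    (T : Tr blk y y' g h) {i : ℕ} {W : Submodule K (ι → K)} (hW : Fl K blk (i + 1) ≤ W) :
    pl y' blk i (W.map (g : (ι → K) →ₗ[K] (ι → K))) =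
      (pl y blk i W).map (g : (ι → K) →ₗ[K] (ι → K)) := by
  have hmem : ∀ v, v ∈ W.map (g : (ι → K) →ₗ[K] (ι → K)) ↔ g.symm v ∈ W := by
    intro v
    rw [Submodule.mem_map]
    constructor
    · rintro ⟨w, hw, rfl⟩
      show g.symm (g w) ∈ W
      rw [LinearEquiv.symm_apply_apply]; exact hw
    · intro hv
      exact ⟨g.symm v, hv, LinearEquiv.apply_symm_apply g v⟩
  ext u
  have hmem' : u ∈ (pl y blk i W).map (g : (ι → K) →ₗ[K] (ι → K)) ↔
      g.symm u ∈ pl y blk i W := by
    rw [Submodule.mem_map]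
    constructor
    · rintro ⟨w, hw, rfl⟩
      show g.symm (g w) ∈ _
      rw [LinearEquiv.symm_apply_apply]; exact hw
    · intro hv
      exact ⟨g.symm u, hv, LinearEquiv.apply_symm_apply g u⟩
  rw [hmem', mem_pl, mem_pl]
  -- key equivalence for a vector of Fl (i+1)
  have key : ∀ v ∈ Fl K blk (i + 1), (y' v ∈ W.map (g : (ι → K) →ₗ[K] (ι → K)) ↔ y (h v) ∈ W) := by
    intro v hv
    rw [hmem]
    have h1 : g.symm (y' v) - y (h v) ∈ W := by
      apply hW
      have h2 := T.g2 (i + 1) _ (T.hy i v hv)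
      rw [map_sub, LinearEquiv.symm_apply_apply] at h2
      exact h2
    constructor
    · intro h3
      have : y (h v) = g.symm (y' v) - (g.symm (y' v) - y (h v)) := by abel
      rw [this]
      exact W.sub_mem h3 h1
    · intro h3
      have : g.symm (y' v) = y (h v) + (g.symm (y' v) - y (h v)) := by abel
      rw [this]
      exact W.add_mem h3 h1
  constructor
  · rintro ⟨hu, f, hf, hyf⟩
    refine ⟨T.g2 _ _ hu, h (u + f) - g.symm u, ?_, ?_⟩
    · -- h u - g.symm u ∈ Fl i
      have h1 : h (u + f) - g.symm u = (g.symm (g (h u) - u)) + h f := by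
        rw [map_sub, LinearEquiv.symm_apply_apply, map_add]; abel
      rw [h1]
      exact Submodule.add_mem _ (T.g2 _ _ (T.gh i u hu)) (T.h1 _ _ hf)
    · have h1 : g.symm u + (h (u + f) - g.symm u) = h (u + f) := by abel
      rw [h1]
      exact (key (u + f) (Submodule.add_mem _ hu (Fl_mono (Nat.le_succ i) hf))).1 hyf
  · rintro ⟨hu, f, hf, hyf⟩
    have hu' : u ∈ Fl K blk (i + 1) := by
      have := T.g1 _ _ hu
      rwa [LinearEquiv.apply_symm_apply] at this
    have hf' : h.symm (g.symm u + f) - u ∈ Fl K blk i := by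
      have h1 : h.symm (g.symm u + f) - u =
          - h.symm (g.symm (g (h u) - u)) + h.symm f := by
        rw [map_sub g.symm, LinearEquiv.symm_apply_apply, map_sub h.symm,
          LinearEquiv.symm_apply_apply, map_add]
        abel
      rw [h1]
      exact Submodule.add_mem _ (Submodule.neg_mem _ (T.h2 _ _ (T.g2 _ _ (T.gh i u hu'))))
        (T.h2 _ _ hf)
    refine ⟨hu', h.symm (g.symm u + f) - u, hf', ?_⟩
    have h1 : u + (h.symm (g.symm u + f) - u) = h.symm (g.symm u + f) := by abel
    rw [h1, key]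
    · rw [LinearEquiv.apply_symm_apply]; exact hyf
    · exact T.h2 _ _ (Submodule.add_mem _ hu (Fl_mono (Nat.le_succ i) hf))

lemma Tr.Fl_map {y y' : (ι → K) →ₗ[K] (ι → K)} {g h : (ι → K) ≃ₗ[K] (ι → K)}
    (T : Tr blk y y' g h) (m : ℕ) :
    (Fl K blk m).map (g : (ι → K) →ₗ[K] (ι → K)) = Fl K blk m := by
  apply le_antisymm
  · rintro _ ⟨v, hv, rfl⟩
    exact T.g1 _ _ hv
  · intro v hv
    exact ⟨g.symm v, T.g2 _ _ hv, LinearEquiv.apply_symm_apply g v⟩

lemma Tr.Wd_map {y y' : (ι → K) →ₗ[K] (ι → K)} {g h : (ι → K) ≃ₗ[K] (ι → K)}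
    (T : Tr blk y y' g h) {base base' : ℕ → Submodule K (ι → K)}
    (hb : ∀ i, Fl K blk i ≤ base i)
    (hbb : ∀ i, base' i = (base i).map (g : (ι → K) →ₗ[K] (ι → K))) :
    ∀ (L : List ℕ) (i : ℕ), Inc i L → Wd y' blk base' i L =
      (Wd y blk base i L).map (g : (ι → K) →ₗ[K] (ι → K)) := by
  intro L
  induction L with
  | nil => intro i _; exact hbb i
  | cons l L ih =>
    intro i hi
    obtain ⟨h1, h2⟩ := hi
    show pl y' blk i (Wd y' blk base' l L) = _
    rw [ih l h2, T.pl_map]
    · rfl
    · exact (Fl_mono h1).trans (Fl_le_Wd hb l L)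

/-- coordinate subspace -/
def sp (K : Type*) [Field K] {ι : Type*} (S : Finset ι) : Submodule K (ι → K) where
  carrier := {v | ∀ i, i ∉ S → v i = 0}
  add_mem' := by
    intro a b ha hb i hi
    simp [ha i hi, hb i hi]
  zero_mem' := by intro i _; rfl
  smul_mem' := by
    intro c a ha i hi
    simp [ha i hi]

lemma mem_sp {S : Finset ι} {v : ι → K} : v ∈ sp K S ↔ ∀ i, i ∉ S → v i = 0 := Iff.rfl

lemma finrank_sp (S : Finset ι) : Module.finrank K (sp K S) = S.card := by
  let e : sp K S ≃ₗ[K] (S → K) :=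
    { toFun := fun v i => v.1 i.1
      map_add' := fun _ _ => rfl
      map_smul' := fun _ _ => rfl
      invFun := fun w => ⟨fun i => if h : i ∈ S then w ⟨i, h⟩ else 0, by
        intro i hi
        simp [hi]⟩
      left_inv := by
        intro v
        apply Subtype.ext
        funext i
        by_cases h : i ∈ S
        · simp [h]
        · simp [h, v.2 i h]
      right_inv := by
        intro w
        funext i
        simp }
  rw [e.finrank_eq, Module.finrank_fintype_fun_eq_card, Fintype.card_coe]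

lemma Fl_eq_sp (m : ℕ) : Fl K blk m = sp K (Finset.univ.filter (fun i => blk i < m)) := by
  ext v
  rw [mem_Fl, mem_sp]
  constructor
  · intro h i hi
    apply h i
    by_contra hcon
    exact hi (by simp; omega)
  · intro h i hi
    apply h i
    simp only [Finset.mem_filter, Finset.mem_univ, true_and]
    omega

/-- the linear map of a rook placement -/
def yD (K : Type*) [Field K] {ι : Type*} [Fintype ι] (D : Finset (ι × ι)) :
    (ι → K) →ₗ[K] (ι → K) where
  toFun v j := ∑ k, if (k, j) ∈ D then v k else 0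
  map_add' := by
    intro v w
    funext j
    rw [Pi.add_apply, ← Finset.sum_add_distrib]
    apply Finset.sum_congr rfl
    intro k _
    split_ifs <;> simp
  map_smul' := by
    intro c v
    funext j
    simp only [Pi.smul_apply, smul_eq_mul, RingHom.id_apply, Finset.mul_sum]
    apply Finset.sum_congr rfl
    intro k _
    split_ifs <;> simp

lemma yD_apply_of_mem {D : Finset (ι × ι)} (hD : IsRook blk D) {k j : ι} (h : (k, j) ∈ D)
    (v : ι → K) : yD K D v j = v k := by
  show (∑ k', if (k', j) ∈ D then v k' else 0) = v k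
  rw [Finset.sum_eq_single k]
  · rw [if_pos h]
  · intro k' _ hk'
    rw [if_neg]
    intro h'
    exact hk' (congrArg Prod.fst (hD.2.2 (k', j) h' (k, j) h rfl))
  · intro h'; exact absurd (Finset.mem_univ _) h'

lemma yD_apply_of_notMem {D : Finset (ι × ι)} {j : ι} (h : ∀ k, (k, j) ∉ D)
    (v : ι → K) : yD K D v j = 0 := by
  show (∑ k', if (k', j) ∈ D then v k' else 0) = 0
  apply Finset.sum_eq_zero
  intro k _
  rw [if_neg (h k)]

/-- the pull back of a set of indices -/
def pS (blk : ι → ℕ) (D : Finset (ι × ι)) (i : ℕ) (S : Finset ι) : Finset ι :=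
  Finset.univ.filter (fun k => blk k < i ∨ (blk k = i ∧ ∀ j, (k, j) ∈ D → j ∈ S))

lemma pl_sp {D : Finset (ι × ι)} (hD : IsRook blk D) (i : ℕ) (S : Finset ι) :
    pl (yD K D) blk i (sp K S) = sp K (pS blk D i S) := by
  ext u
  rw [mem_pl, mem_sp]
  constructor
  · rintro ⟨hu, f, hf, hy⟩ k hk
    simp only [pS, Finset.mem_filter, Finset.mem_univ, true_and, not_or, not_and, not_forall,
      not_lt] at hk
    rcases hk.1.eq_or_lt with h1 | h1
    · obtain ⟨j, hj, hjS⟩ := hk.2 h1.symm
      have h2 := hy j hjS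
      rw [yD_apply_of_mem hD hj] at h2
      rw [Pi.add_apply, hf k h1.le, add_zero] at h2
      exact h2
    · exact hu k h1
  · intro hu
    refine ⟨?_, fun k => if blk k < i then - u k else 0, ?_, ?_⟩
    · intro k hk
      apply hu
      simp only [pS, Finset.mem_filter, Finset.mem_univ, true_and]
      omega
    · intro k hk
      show (if blk k < i then - u k else 0) = 0
      rw [if_neg (by omega)]
    · intro j hj
      by_cases h1 : ∃ k, (k, j) ∈ D
      · obtain ⟨k, hk⟩ := h1
        rw [yD_apply_of_mem hD hk, Pi.add_apply]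
        by_cases h2 : blk k < i
        · simp [h2]
        · have h3 : u k = 0 := by
            apply hu
            simp only [pS, Finset.mem_filter, Finset.mem_univ, true_and, not_or, not_and,
              not_forall]
            exact ⟨h2, fun _ => ⟨j, hk, hj⟩⟩
          simp [h2, h3]
      · push Not at h1
        exact yD_apply_of_notMem h1 _

/-- the index sets of the words -/
def Ax (blk : ι → ℕ) (D : Finset (ι × ι)) (base : ℕ → Finset ι) : ℕ → List ℕ → Finset ι
  | i, [] => base i
  | i, (l :: L) => pS blk D i (Ax blk D base l L)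

lemma Wd_eq {D : Finset (ι × ι)} (hD : IsRook blk D) (base : ℕ → Finset ι) :
    ∀ (L : List ℕ) (i : ℕ), Wd (yD K D) blk (fun i => sp K (base i)) i L =
      sp K (Ax blk D base i L) := by
  intro L
  induction L with
  | nil => intro i; rfl
  | cons l L ih =>
    intro i
    show pl _ blk i (Wd _ blk _ l L) = _
    rw [ih, pl_sp hD]
    rfl

/-- the elements of block `i` whose path follows exactly `L` and then stops -/
def Ex (blk : ι → ℕ) (D : Finset (ι × ι)) : ℕ → List ℕ → Finset ι
  | i, [] => Finset.univ.filter (fun k => blk k = i ∧ ∀ j, (k, j) ∉ D)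
  | i, (l :: L) => Finset.univ.filter (fun k => blk k = i ∧ ∃ j ∈ Ex blk D l L, (k, j) ∈ D)

lemma Ex_blk {D : Finset (ι × ι)} {i : ℕ} {L : List ℕ} {k : ι} (h : k ∈ Ex blk D i L) :
    blk k = i := by
  cases L with
  | nil => exact (Finset.mem_filter.1 h).2.1
  | cons l L => exact (Finset.mem_filter.1 h).2.1

/-- the two bases -/
def b0 (blk : ι → ℕ) (i : ℕ) : Finset ι := Finset.univ.filter (fun k => blk k < i)

def b1 (blk : ι → ℕ) (D : Finset (ι × ι)) (i : ℕ) : Finset ι := pS blk D i (b0 blk (i + 1))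

lemma Ax_split {D : Finset (ι × ι)} (hD : IsRook blk D) : ∀ (L : List ℕ) (i : ℕ),
    Ax blk D (b1 blk D) i L = Ax blk D (b0 blk) i L ∪ Ex blk D i L ∧
      Disjoint (Ax blk D (b0 blk) i L) (Ex blk D i L) := by
  intro L
  induction L with
  | nil =>
    intro i
    constructor
    · ext k
      simp only [Ax, b1, b0, Ex, pS, Finset.mem_union, Finset.mem_filter, Finset.mem_univ, true_and]
      constructor
      · rintro (h | ⟨h1, h2⟩)
        · exact Or.inl h
        · right
          refine ⟨h1, fun j hj => ?_⟩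
          have h3 := h2 j hj
          have h4 := hD.1 (k, j) hj
          simp only at h4
          omega
      · rintro (h | ⟨h1, h2⟩)
        · exact Or.inl h
        · exact Or.inr ⟨h1, fun j hj => absurd hj (h2 j)⟩
    · rw [Finset.disjoint_left]
      intro k hk hk'
      simp only [Ax, b0, Ex, Finset.mem_filter, Finset.mem_univ, true_and] at hk hk'
      omega
  | cons l L ih =>
    intro i
    obtain ⟨ih1, ih2⟩ := ih l
    constructor
    · ext k
      show k ∈ pS blk D i (Ax blk D (b1 blk D) l L) ↔ k ∈ pS blk D i (Ax blk D (b0 blk) l L) ∪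
        Finset.univ.filter (fun k => blk k = i ∧ ∃ j ∈ Ex blk D l L, (k, j) ∈ D)
      rw [ih1]
      simp only [pS, Finset.mem_union, Finset.mem_filter, Finset.mem_univ, true_and]
      constructor
      · rintro (h | ⟨h1, h2⟩)
        · exact Or.inl (Or.inl h)
        · by_cases h3 : ∃ j, (k, j) ∈ D
          · obtain ⟨j, hj⟩ := h3
            rcases h2 j hj with h4 | h4
            · left; right
              refine ⟨h1, fun j' hj' => ?_⟩
              have : j' = j := congrArg Prod.snd (hD.2.1 (k, j') hj' (k, j) hj rfl)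
              rw [this]; exact h4
            · right
              exact ⟨h1, j, h4, hj⟩
          · push Not at h3
            left; right
            exact ⟨h1, fun j hj => absurd hj (h3 j)⟩
      · rintro ((h | ⟨h1, h2⟩) | ⟨h1, j, hj1, hj2⟩)
        · exact Or.inl h
        · exact Or.inr ⟨h1, fun j hj => Or.inl (h2 j hj)⟩
        · right
          refine ⟨h1, fun j' hj' => ?_⟩
          have : j' = j := congrArg Prod.snd (hD.2.1 (k, j') hj' (k, j) hj2 rfl)
          rw [this]; exact Or.inr hj1
    · rw [Finset.disjoint_left]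
      intro k hk hk'
      have hk1 : k ∈ pS blk D i (Ax blk D (b0 blk) l L) := hk
      have hk2 : k ∈ Finset.univ.filter
        (fun k => blk k = i ∧ ∃ j ∈ Ex blk D l L, (k, j) ∈ D) := hk'
      simp only [pS, Finset.mem_filter, Finset.mem_univ, true_and] at hk1 hk2
      obtain ⟨h1, j, hj1, hj2⟩ := hk2
      rcases hk1 with h3 | ⟨-, h3⟩
      · omega
      · exact Finset.disjoint_left.1 ih2 (h3 j hj2) hj1

lemma Ex_inc {D : Finset (ι × ι)} (hD : IsRook blk D) : ∀ (L : List ℕ) (i : ℕ),
    (Ex blk D i L).Nonempty → Inc i L := by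
  intro L
  induction L with
  | nil => intro i _; trivial
  | cons l L ih =>
    rintro i ⟨k, hk⟩
    have hk2 : k ∈ Finset.univ.filter
        (fun k => blk k = i ∧ ∃ j ∈ Ex blk D l L, (k, j) ∈ D) := hk
    simp only [Finset.mem_filter, Finset.mem_univ, true_and] at hk2
    obtain ⟨h1, j, hj1, hj2⟩ := hk2
    refine ⟨?_, ih l ⟨j, hj1⟩⟩
    have h2 := hD.1 (k, j) hj2
    simp only at h2
    have h3 := Ex_blk hj1
    omega

/-- the numbers of elements of each exact type are invariants -/
theorem Ex_card_eq {D D' : Finset (ι × ι)} (hD : IsRook blk D) (hD' : IsRook blk D')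
    {g h : (ι → K) ≃ₗ[K] (ι → K)} (T : Tr blk (yD K D) (yD K D') g h) (L : List ℕ) (i : ℕ) :
    (Ex blk D i L).card = (Ex blk D' i L).card := by
  by_cases hinc : Inc i L
  · have e0 : ∀ i, sp K (b0 blk i) = Fl K blk i := fun i => (Fl_eq_sp i).symm
    have c0 : (Ax blk D (b0 blk) i L).card = (Ax blk D' (b0 blk) i L).card := by
      have h1 := T.Wd_map (base := fun i => sp K (b0 blk i)) (base' := fun i => sp K (b0 blk i))
        (fun i => (e0 i).ge) (fun i => by rw [e0 i, T.Fl_map]) L i hinc
      rw [Wd_eq hD', Wd_eq hD] at h1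
      have h2 := congrArg (fun W : Submodule K (ι → K) => Module.finrank K W) h1
      rw [LinearEquiv.finrank_map_eq, finrank_sp, finrank_sp] at h2
      exact h2.symm
    have c1 : (Ax blk D (b1 blk D) i L).card = (Ax blk D' (b1 blk D') i L).card := by
      have h1 := T.Wd_map (base := fun i => sp K (b1 blk D i)) (base' := fun i => sp K (b1 blk D' i))
        (fun i => by
          show Fl K blk i ≤ sp K (pS blk D i (b0 blk (i + 1)))
          rw [← pl_sp hD]; exact Fl_le_pl)
        (fun i => by
          show sp K (pS blk D' i (b0 blk (i + 1))) =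
            (sp K (pS blk D i (b0 blk (i + 1)))).map (g : (ι → K) →ₗ[K] (ι → K))
          rw [← pl_sp hD, ← pl_sp hD', e0, ← T.pl_map le_rfl, T.Fl_map]) L i hinc
      rw [Wd_eq hD', Wd_eq hD] at h1
      have h2 := congrArg (fun W : Submodule K (ι → K) => Module.finrank K W) h1
      rw [LinearEquiv.finrank_map_eq, finrank_sp, finrank_sp] at h2
      exact h2.symm
    obtain ⟨s1, s2⟩ := Ax_split hD L i
    obtain ⟨s1', s2'⟩ := Ax_split hD' L i
    rw [s1, s1', Finset.card_union_of_disjoint s2, Finset.card_union_of_disjoint s2'] at c1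
    omega
  · have h1 : Ex blk D i L = ∅ := by
      rw [← Finset.not_nonempty_iff_eq_empty]
      exact fun h => hinc (Ex_inc hD L i h)
    have h2 : Ex blk D' i L = ∅ := by
      rw [← Finset.not_nonempty_iff_eq_empty]
      exact fun h => hinc (Ex_inc hD' L i h)
    rw [h1, h2]

end Pool.Agent.Q18.Rk
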