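import Pool.Agent.Q18.RkStep
import Pool.Agent.Q18.RkDefs

set_option linter.style.haveILetI false
set_option linter.unusedSectionVars false

open scoped BigOperators Classical

noncomputable section

namespace Pool.Agent.Q18.Rk

variable {K : Type*} [Field K] {ι : Type*} [Fintype ι] [DecidableEq ι] {blk : ι → ℕ}

lemma mem_JJ {x : Matrix ι ι K} : x ∈ JJ K blk ↔ ∀ i j, ¬ blk i < blk j → x i j = 0 := Iff.rfl

/-- block upper triangular -/
def IsP (blk : ι → ℕ) (x : Matrix ι ι K) : Prop := x.BlockTriangular blk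

lemma isP_iff {x : Matrix ι ι K} : IsP blk x ↔ ∀ i j, blk j < blk i → x i j = 0 := by
  constructor
  · intro h i j hij; exact h hij
  · intro h i j hij; exact h i j hij

lemma IsP.mul {x z : Matrix ι ι K} (hx : IsP blk x) (hz : IsP blk z) : IsP blk (x * z) :=
  Matrix.BlockTriangular.mul hx hz

lemma IsP.of_J {x : Matrix ι ι K} (hx : x ∈ JJ K blk) : IsP blk x := by
  rw [isP_iff]
  intro i j hij
  exact hx i j (by omega)

lemma IsP.one : IsP blk (1 : Matrix ι ι K) := Matrix.blockTriangular_one

lemma IsP.of_N {x : Matrix ι ι K} (hx : x - 1 ∈ JJ K blk) : IsP blk x := by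
  have h1 := IsP.of_J hx
  rw [isP_iff] at h1 ⊢
  intro i j hij
  have h2 := h1 i j hij
  rw [Matrix.sub_apply, Matrix.one_apply_ne (by rintro rfl; omega), sub_zero] at h2
  exact h2

lemma IsP.inv {x z : Matrix ι ι K} (hx : IsP blk x) (h : x * z = 1) : IsP blk z := by
  have hu : IsUnit x := ⟨⟨x, z, h, mul_eq_one_comm.1 h⟩, rfl⟩
  haveI : Invertible x := hu.invertible
  have h1 := Matrix.blockTriangular_inv_of_blockTriangular (M := x) hx
  have h2 : x⁻¹ = z := Matrix.inv_eq_right_inv h
  rw [h2] at h1
  exact h1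

lemma J_mul_P {x z : Matrix ι ι K} (hx : x ∈ JJ K blk) (hz : IsP blk z) : x * z ∈ JJ K blk := by
  rw [isP_iff] at hz
  intro i j hij
  rw [Matrix.mul_apply]
  apply Finset.sum_eq_zero
  intro l _
  by_cases h1 : blk i < blk l
  · rw [hz l j (by omega), mul_zero]
  · rw [hx i l h1, zero_mul]

lemma P_mul_J {x z : Matrix ι ι K} (hx : x ∈ JJ K blk) (hz : IsP blk z) : z * x ∈ JJ K blk := by
  rw [isP_iff] at hz
  intro i j hij
  rw [Matrix.mul_apply]
  apply Finset.sum_eq_zero
  intro l _
  by_cases h1 : blk l < blk j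
  · rw [hz i l (by omega), zero_mul]
  · rw [hx l j h1, mul_zero]

/-- the matrix of a form -/
def coef (lam : Module.Dual K (JJ K blk)) : Matrix ι ι K := fun j k =>
  if h : blk k < blk j then lam ⟨Matrix.single k j 1, by
    intro a b hab
    rw [Matrix.single_apply]
    split_ifs with h2
    · obtain ⟨rfl, rfl⟩ := h2
      exact absurd h hab
    · rfl⟩ else 0

lemma dual_eq (lam : Module.Dual K (JJ K blk)) (x : JJ K blk) :
    lam x = ∑ k, ∑ j, (x : Matrix ι ι K) k j * coef lam j k := by
  have h1 : x = ∑ k, ∑ j, (if h : blk k < blk j then ((x : Matrix ι ι K) k j) •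
      (⟨Matrix.single k j 1, by
        intro a b hab
        rw [Matrix.single_apply]
        split_ifs with h2
        · obtain ⟨rfl, rfl⟩ := h2
          exact absurd h hab
        · rfl⟩ : JJ K blk) else 0) := by
    apply Subtype.ext
    ext a b
    rw [AddSubmonoidClass.coe_finsetSum, Matrix.sum_apply, Finset.sum_eq_single a]
    · rw [AddSubmonoidClass.coe_finsetSum, Matrix.sum_apply, Finset.sum_eq_single b]
      · split_ifs with h
        · simp
        · simp [x.2 a b h]
      · intro j _ hj
        split_ifs with h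
        · simp [hj]
        · simp
      · intro h; exact absurd (Finset.mem_univ _) h
    · intro k _ hk
      rw [AddSubmonoidClass.coe_finsetSum, Matrix.sum_apply]
      apply Finset.sum_eq_zero
      intro j _
      split_ifs with h
      · simp [hk]
      · simp
    · intro h; exact absurd (Finset.mem_univ _) h
  conv_lhs => rw [h1]
  rw [map_sum]
  apply Finset.sum_congr rfl
  intro k _
  rw [map_sum]
  apply Finset.sum_congr rfl
  intro j _
  unfold coef
  split_ifs with h
  · rw [map_smul, smul_eq_mul]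
  · simp

lemma sum_eq_trace (x Y : Matrix ι ι K) : ∑ k, ∑ j, x k j * Y j k = Matrix.trace (Y * x) := by
  rw [Matrix.trace_mul_comm, Matrix.trace]
  simp only [Matrix.diag_apply, Matrix.mul_apply]

/-- the canonical form, existence -/
theorem one (lam : Module.Dual K (JJ K blk)) :
    ∃ D : Finset (ι × ι), IsRook blk D ∧ Eqv blk lam (lamD K blk D) := by
  set Y := coef lam with hY
  set y : (ι → K) →ₗ[K] (ι → K) := Y.mulVecLin with hy
  obtain ⟨s, hs⟩ : ∃ s, ∀ i, blk i < s := by
    refine ⟨(Finset.univ.sup blk) + 1, fun i => ?_⟩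
    exact Nat.lt_succ_of_le (Finset.le_sup (Finset.mem_univ i))
  obtain ⟨u, D, hP⟩ := exists_PP (y := y) (blk := blk) s
  have hf : ∀ k, ∃ f ∈ Fl K blk (blk k), (∀ j, (k, j) ∈ D → y (u k + f) = u j) ∧
      ((∀ j, (k, j) ∉ D) → y (u k + f) ∈ Fl K blk (blk k + 1)) := by
    intro k
    by_cases hk : ∃ j, (k, j) ∈ D
    · obtain ⟨j, hj⟩ := hk
      obtain ⟨f, hf, hyf⟩ := hP.map k j hj
      refine ⟨f, hf, ?_, fun h => absurd hj (h j)⟩
      intro j' hj'
      rw [hP.right k j' j hj' hj]
      exact hyf
    · push Not at hk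
      have hmem : u k ∈ pl y blk (blk k) (Fl K blk (blk k + 1)) := by
        by_contra hcon
        -- the least m with membership
        have hex : ∃ m, blk k + 1 + m ≤ s ∧ u k ∈ pl y blk (blk k) (Fl K blk (blk k + 1 + m)) := by
          refine ⟨s - (blk k + 1), ?_, ?_⟩
          · have := hs k; omega
          · have h1 : blk k + 1 + (s - (blk k + 1)) = s := by have := hs k; omega
            rw [h1, Fl_top hs, mem_pl]
            exact ⟨hP.mem k (hs k), 0, Submodule.zero_mem _, trivial⟩
        set m := Nat.find hex with hm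
        obtain ⟨hm1, hm2⟩ := Nat.find_spec hex
        rw [← hm] at hm1 hm2
        rcases Nat.eq_zero_or_pos m with h0 | h0
        · rw [h0, add_zero] at hm2
          exact hcon hm2
        · obtain ⟨m', hm'⟩ : ∃ m', m = m' + 1 := ⟨m - 1, by omega⟩
          have h1 : u k ∉ pl y blk (blk k) (Fl K blk (blk k + 1 + m')) := by
            intro h2
            have h3 := Nat.find_min hex (m := m') (by omega)
            exact h3 ⟨by omega, h2⟩
          have h2 : blk k + 1 + m = (blk k + 1 + m') + 1 := by omega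
          rw [h2] at hm2
          obtain ⟨j, -, hj⟩ := hP.full k (blk k + 1 + m') (by omega) (by omega) hm2 h1
          exact hk j hj
      obtain ⟨-, f, hf, hyf⟩ := mem_pl.1 hmem
      exact ⟨f, hf, fun j hj => absurd hj (hk j), fun _ => hyf⟩
  choose f hf1 hf2 hf3 using hf
  have hu0 : ∀ k i, blk k < blk i → u k i = 0 := fun k i h => hP.mem k (hs k) i h
  have hf0 : ∀ k i, blk k ≤ blk i → f k i = 0 := fun k i h => hf1 k i h
  -- matrices
  set A : Matrix ι ι K := fun i k => u k i with hA
  set B : Matrix ι ι K := fun i k => u k i + f k i with hB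
  set R' : Matrix ι ι K := fun i k => if blk i = blk k then u k i else 0 with hR'
  have hR'unit : IsUnit R' := by
    rw [← Matrix.linearIndependent_cols_iff_isUnit, Fintype.linearIndependent_iff]
    intro g hg k
    by_contra hgk
    have h1 : ∑ k' ∈ Finset.univ.filter (fun k' => blk k' = blk k), g k' • u k' ∈
        Fl K blk (blk k) := by
      apply mem_Fl_of_rs
      · apply Submodule.sum_mem
        intro k' hk'
        apply Submodule.smul_mem
        rw [← (Finset.mem_filter.1 hk').2]
        exact hP.mem k' (hs k')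
      · funext i
        have h2 := congrFun hg i.1
        rw [Finset.sum_apply] at h2
        show (∑ k' ∈ Finset.univ.filter (fun k' => blk k' = blk k), g k' • u k') i.1 = 0
        rw [Finset.sum_apply, Finset.sum_filter]
        refine Eq.trans ?_ h2
        apply Finset.sum_congr rfl
        intro k' _
        show (if blk k' = blk k then (g k' • u k') i.1 else 0) = g k' * R' i.1 k'
        rw [hR']
        simp only [Pi.smul_apply, smul_eq_mul, i.2]
        by_cases h3 : blk k' = blk k
        · rw [if_pos h3, if_pos h3.symm]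
        · rw [if_neg h3, if_neg (fun h => h3 h.symm), mul_zero]
    exact hP.notMem k (hs k) (hP.adp (blk k) (hs k) _ (Ch.bot _) g h1 k (by simp) hgk)
  obtain ⟨ρ, hρ⟩ := hR'unit
  -- r = ρ⁻¹
  have hR'P : IsP blk R' := by
    rw [isP_iff]; intro i j hij
    simp only [hR']; rw [if_neg (by omega)]
  have hρinv : R' * ((ρ⁻¹ : (Matrix ι ι K)ˣ) : Matrix ι ι K) = 1 := by
    rw [← hρ, Units.mul_inv]
  have hρinv' : ((ρ⁻¹ : (Matrix ι ι K)ˣ) : Matrix ι ι K) * R' = 1 := by
    rw [← hρ, Units.inv_mul]
  set r : Matrix ι ι K := ((ρ⁻¹ : (Matrix ι ι K)ˣ) : Matrix ι ι K) with hr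
  have hrP : IsP blk r := hR'P.inv hρinv
  have hrdiag : ∀ i j, blk i ≠ blk j → r i j = 0 := by
    -- r is also lower block triangular
    have h1 : (R'.transpose).BlockTriangular blk := by
      intro i j hij
      show (if blk j = blk i then u i j else 0) = 0
      rw [if_neg (by omega)]
    have h2 : IsP blk r.transpose := by
      apply IsP.inv (x := R'.transpose) h1
      rw [← Matrix.transpose_mul, hρinv', Matrix.transpose_one]
    intro i j hij
    rcases lt_or_gt_of_ne hij with h3 | h3
    · exact (isP_iff.1 h2) j i h3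
    · exact (isP_iff.1 hrP) i j h3
  have hAR : A - R' ∈ JJ K blk := by
    intro i j hij
    show u j i - (if blk i = blk j then u j i else 0) = 0
    by_cases h1 : blk i = blk j
    · rw [if_pos h1, sub_self]
    · rw [if_neg h1, hu0 j i (by omega), sub_zero]
  have hBR : B - R' ∈ JJ K blk := by
    intro i j hij
    show u j i + f j i - (if blk i = blk j then u j i else 0) = 0
    rw [hf0 j i (by omega), add_zero]
    by_cases h1 : blk i = blk j
    · rw [if_pos h1, sub_self]
    · rw [if_neg h1, hu0 j i (by omega), sub_zero]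
  have hArN : A * r - 1 ∈ JJ K blk := by
    have : A * r - 1 = (A - R') * r := by rw [sub_mul, hρinv]
    rw [this]
    exact J_mul_P hAR hrP
  have hBrN : B * r - 1 ∈ JJ K blk := by
    have : B * r - 1 = (B - R') * r := by rw [sub_mul, hρinv]
    rw [this]
    exact J_mul_P hBR hrP
  -- invertibility of A * r
  have hArP : IsP blk (A * r) := IsP.of_N hArN
  have hAunit : IsUnit A := by
    rw [← Matrix.linearIndependent_cols_iff_isUnit, Fintype.linearIndependent_iff]
    intro g hg
    -- strong downward argument via the maximal block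
    by_contra hcon
    push Not at hcon
    obtain ⟨k0, hk0⟩ := hcon
    set T := Finset.univ.filter (fun k => g k ≠ 0) with hT
    have hTne : T.Nonempty := ⟨k0, by simp [hT, hk0]⟩
    obtain ⟨k, hkT, hmax⟩ := Finset.exists_max_image T blk hTne
    have hgk : g k ≠ 0 := (Finset.mem_filter.1 hkT).2
    have h1 : ∑ k' ∈ Finset.univ.filter (fun k' => blk k' = blk k), g k' • u k' ∈
        Fl K blk (blk k) := by
      have h2 : ∑ k', g k' • u k' = 0 := hg
      rw [← Finset.sum_filter_add_sum_filter_not Finset.univ (fun k' => blk k' = blk k)] at h2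
      rw [eq_neg_of_add_eq_zero_left h2]
      apply Submodule.neg_mem
      apply Submodule.sum_mem
      intro k' hk'
      by_cases hgk' : g k' = 0
      · rw [hgk', zero_smul]; exact Submodule.zero_mem _
      · apply Submodule.smul_mem
        have h3 := hmax k' (by simp [hT, hgk'])
        have h4 := (Finset.mem_filter.1 hk').2
        exact Fl_mono (by omega) (hP.mem k' (hs k'))
    exact hP.notMem k (hs k) (hP.adp (blk k) (hs k) _ (Ch.bot _) g h1 k (by simp) hgk)
  obtain ⟨α, hα⟩ := hAunit
  set Ai : Matrix ι ι K := ((α⁻¹ : (Matrix ι ι K)ˣ) : Matrix ι ι K) with hAi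
  have hAAi : A * Ai = 1 := by rw [← hα, Units.mul_inv]
  have hAiA : Ai * A = 1 := by rw [← hα, Units.inv_mul]
  have hAP : IsP blk A := by
    rw [isP_iff]; intro i j hij; exact hu0 j i hij
  have hBP : IsP blk B := by
    rw [isP_iff]; intro i j hij
    show u j i + f j i = 0
    rw [hu0 j i hij, hf0 j i hij.le, add_zero]
  have hAiP : IsP blk Ai := hAP.inv hAAi
  -- a = R' * A⁻¹
  set a : Matrix ι ι K := R' * Ai with ha
  have haN : a - 1 ∈ JJ K blk := by
    have : a - 1 = (-(A - R')) * Ai := by
      rw [ha, neg_sub, sub_mul, hAAi]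
    rw [this]
    exact J_mul_P (Submodule.neg_mem _ hAR) hAiP
  refine ⟨D, ⟨?_, ?_, ?_⟩, ρ⁻¹, a, B * r, hrdiag, haN, hBrN, ?_⟩
  · intro β hβ
    exact hP.lt β.1 β.2 hβ
  · intro β hβ γ hγ h
    obtain ⟨β1, β2⟩ := β
    obtain ⟨γ1, γ2⟩ := γ
    simp only at h
    subst h
    rw [hP.right β1 β2 γ2 hβ hγ]
  · intro β hβ γ hγ h
    obtain ⟨β1, β2⟩ := β
    obtain ⟨γ1, γ2⟩ := γ
    simp only at h
    subst h
    rw [hP.left β1 γ1 β2 hβ hγ]
  · intro x
    have hmat : B * r * (((ρ⁻¹)⁻¹ : (Matrix ι ι K)ˣ) : Matrix ι ι K) * (x : Matrix ι ι K) *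
        ((ρ⁻¹ : (Matrix ι ι K)ˣ) : Matrix ι ι K) * a = B * x * Ai := by
      rw [inv_inv, hρ, ha, mul_assoc B r R', hρinv', mul_one, mul_assoc _ _ (R' * Ai),
        ← mul_assoc _ R' Ai, hρinv', one_mul]
    have hmem : B * (x : Matrix ι ι K) * Ai ∈ JJ K blk := J_mul_P (P_mul_J x.2 hBP) hAiP
    refine ⟨by rw [hmat]; exact hmem, ?_⟩
    have h1 : lam ⟨_, (by rw [hmat]; exact hmem : B * r * (((ρ⁻¹)⁻¹ : (Matrix ι ι K)ˣ) :
        Matrix ι ι K) * (x : Matrix ι ι K) * ((ρ⁻¹ : (Matrix ι ι K)ˣ) : Matrix ι ι K) * a ∈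
        JJ K blk)⟩ = lam ⟨B * (x : Matrix ι ι K) * Ai, hmem⟩ := by
      congr 1
      exact Subtype.ext hmat
    rw [h1, dual_eq lam, sum_eq_trace]
    -- trace (Y * (B x A⁻¹)) = trace ((A⁻¹ Y B) x)
    have h2 : Matrix.trace (coef lam * (B * (x : Matrix ι ι K) * Ai)) =
        Matrix.trace ((Ai * Y * B) * (x : Matrix ι ι K)) := by
      rw [← mul_assoc, ← mul_assoc, Matrix.trace_mul_comm, ← hY, ← mul_assoc, ← mul_assoc]
    rw [h2, ← sum_eq_trace]
    have h3 : ∀ k j, blk k < blk j → (Ai * Y * B) j k = if (k, j) ∈ D then 1 else 0 := by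
      intro k j hkj
      have hcol : (Ai * Y * B) j k = (Ai.mulVec (y (u k + f k))) j := by
        have h4 : B.col k = u k + f k := by ext i; rfl
        rw [hy, Matrix.mulVecLin_apply, Matrix.mulVec_mulVec, ← h4, ← Matrix.mulVec_single_one,
          Matrix.mulVec_mulVec, Matrix.mulVec_single_one]
        rfl
      rw [hcol]
      by_cases hk : ∃ j0, (k, j0) ∈ D
      · obtain ⟨j0, hj0⟩ := hk
        rw [hf2 k j0 hj0]
        have h4 : u j0 = A.mulVec (Pi.single j0 1) := by
          rw [Matrix.mulVec_single_one]; ext i; rfl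
        rw [h4, Matrix.mulVec_mulVec, hAiA, Matrix.one_mulVec, Pi.single_apply]
        by_cases hjj : j = j0
        · rw [if_pos hjj, hjj, if_pos hj0]
        · rw [if_neg hjj, if_neg]
          intro hcon
          exact hjj (hP.right k j j0 hcon hj0)
      · push Not at hk
        rw [if_neg (hk j)]
        have h4 := hf3 k hk
        rw [Matrix.mulVec, dotProduct]
        apply Finset.sum_eq_zero
        intro i _
        by_cases h5 : blk k + 1 ≤ blk i
        · rw [h4 i h5, mul_zero]
        · rw [(isP_iff.1 hAiP) j i (by omega), zero_mul]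
    have h4 : ∑ k, ∑ j, (x : Matrix ι ι K) k j * (Ai * Y * B) j k =
        ∑ k, ∑ j, if (k, j) ∈ D then (x : Matrix ι ι K) k j else 0 := by
      apply Finset.sum_congr rfl
      intro k _
      apply Finset.sum_congr rfl
      intro j _
      by_cases hkj : blk k < blk j
      · rw [h3 k j hkj]
        split_ifs <;> simp
      · rw [x.2 k j hkj, zero_mul, ite_self]
    rw [h4, ← Finset.sum_product', Finset.univ_product_univ, ← Finset.sum_filter]
    show ∑ α ∈ D, (x : Matrix ι ι K) α.1 α.2 = _
    apply Finset.sum_congr _ (fun _ _ => rfl)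
    ext β
    simp

end Pool.Agent.Q18.Rk
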