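import Pool.Agent.Q18.RkFlag

set_option linter.style.haveILetI false
set_option linter.unusedSectionVars false

open scoped BigOperators Classical

noncomputable section

namespace Pool.Agent.Q18.Rk

variable {K : Type*} [Field K] {ι : Type*} [Fintype ι] {blk : ι → ℕ}
  {y : (ι → K) →ₗ[K] (ι → K)}

/-- adapted vectors and a partial matching, constructed up to level `l` -/
structure PP (y : (ι → K) →ₗ[K] (ι → K)) (blk : ι → ℕ) (l : ℕ) (u : ι → (ι → K))
    (D : Finset (ι × ι)) : Prop where
  mem : ∀ k, blk k < l → u k ∈ Fl K blk (blk k + 1)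
  notMem : ∀ k, blk k < l → u k ∉ Fl K blk (blk k)
  adp : ∀ m, m < l → Adp (Ch y blk m) (Finset.univ.filter (fun k => blk k = m)) u
  lt : ∀ k j, (k, j) ∈ D → blk k < blk j
  lt' : ∀ k j, (k, j) ∈ D → blk j < l
  map : ∀ k j, (k, j) ∈ D → ∃ f ∈ Fl K blk (blk k), y (u k + f) = u j
  right : ∀ k j j', (k, j) ∈ D → (k, j') ∈ D → j = j'
  left : ∀ k k' j, (k, j) ∈ D → (k', j) ∈ D → k = k'
  full : ∀ k m, blk k < m → m < l → u k ∈ pl y blk (blk k) (Fl K blk (m + 1)) →
    u k ∉ pl y blk (blk k) (Fl K blk m) → ∃ j, blk j = m ∧ (k, j) ∈ D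

theorem PP.zero : PP y blk 0 (fun _ => 0) ∅ where
  mem := by intro k hk; omega
  notMem := by intro k hk; omega
  adp := by intro k hk; omega
  lt := by intro k j h; exact absurd h (Finset.notMem_empty _)
  lt' := by intro k j h; exact absurd h (Finset.notMem_empty _)
  map := by intro k j h; exact absurd h (Finset.notMem_empty _)
  right := by intro k j j' h; exact absurd h (Finset.notMem_empty _)
  left := by intro k j j' h; exact absurd h (Finset.notMem_empty _)
  full := by intro k m _ hm; omega

theorem PP.step {l : ℕ} {u : ι → (ι → K)} {D : Finset (ι × ι)} (h : PP y blk l u D) :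
    ∃ u' D', PP y blk (l + 1) u' D' := by
  set S := Finset.univ.filter (fun k => blk k < l ∧ u k ∈ pl y blk (blk k) (Fl K blk (l + 1)) ∧
    u k ∉ pl y blk (blk k) (Fl K blk l)) with hS
  have memS : ∀ k, k ∈ S ↔ blk k < l ∧ u k ∈ pl y blk (blk k) (Fl K blk (l + 1)) ∧
    u k ∉ pl y blk (blk k) (Fl K blk l) := by
    intro k; rw [hS, Finset.mem_filter]; simp
  have hex : ∀ k, ∃ f : ι → K, k ∈ S → f ∈ Fl K blk (blk k) ∧ y (u k + f) ∈ Fl K blk (l + 1) ∧
      ∀ W, Ch y blk l W → u k ∈ pl y blk (blk k) W → y (u k + f) ∈ W := by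
    intro k
    by_cases hk : k ∈ S
    · obtain ⟨f, h1, h2, h3⟩ := exists_min ((memS k).1 hk).1 ((memS k).1 hk).2.1
      exact ⟨f, fun _ => ⟨h1, h2, h3⟩⟩
    · exact ⟨0, fun h => absurd h hk⟩
  choose F hF using hex
  set v : ι → (ι → K) := fun k => y (u k + F k) with hv
  have hv1 : ∀ k ∈ S, v k ∈ Fl K blk (l + 1) := fun k hk => (hF k hk).2.1
  have hv2 : ∀ k ∈ S, v k ∉ Fl K blk l := by
    intro k hk hcon
    apply ((memS k).1 hk).2.2
    rw [mem_pl]
    exact ⟨h.mem k ((memS k).1 hk).1, F k, (hF k hk).1, hcon⟩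
  have hadp : Adp (Ch y blk l) S v := by
    intro W hW c hsum
    by_contra hcon
    push Not at hcon
    obtain ⟨k0, hk0, hck0, hk0W⟩ := hcon
    set T := S.filter (fun k => c k ≠ 0 ∧ v k ∉ W) with hT
    have hTne : T.Nonempty := ⟨k0, by rw [hT, Finset.mem_filter]; exact ⟨hk0, hck0, hk0W⟩⟩
    obtain ⟨k1, hk1T, hmax⟩ := Finset.exists_max_image T blk hTne
    have hT1 := Finset.mem_filter.1 hk1T
    set i := blk k1 with hi
    have hil : i < l := ((memS k1).1 hT1.1).1
    have hsumT : ∑ k ∈ T, c k • v k ∈ W := by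
      have h1 : ∑ k ∈ S, c k • v k = ∑ k ∈ T, c k • v k +
          ∑ k ∈ S.filter (fun k => ¬ (c k ≠ 0 ∧ v k ∉ W)), c k • v k :=
        (Finset.sum_filter_add_sum_filter_not S _ _).symm
      rw [h1] at hsum
      refine (Submodule.add_mem_iff_left W ?_).1 hsum
      apply Submodule.sum_mem
      intro k hk
      rw [Finset.mem_filter] at hk
      by_cases hck : c k = 0
      · rw [hck, zero_smul]; exact W.zero_mem
      · apply Submodule.smul_mem
        by_contra hcon
        exact hk.2 ⟨hck, hcon⟩
    set x : ι → K := ∑ k ∈ T, c k • (u k + F k) with hx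
    have hyx : y x ∈ W := by
      rw [hx, map_sum]
      have : ∑ k ∈ T, y (c k • (u k + F k)) = ∑ k ∈ T, c k • v k := by
        apply Finset.sum_congr rfl
        intro k _
        rw [map_smul]
      rw [this]
      exact hsumT
    set T1 := T.filter (fun k => blk k = i) with hT1def
    set X : ι → K := ∑ k ∈ T1, c k • u k with hX
    have hxX : x - X ∈ Fl K blk i := by
      have h1 : x - X = ∑ k ∈ T1, c k • F k +
          ∑ k ∈ T.filter (fun k => ¬ blk k = i), c k • (u k + F k) := by
        rw [hx, hX, ← Finset.sum_filter_add_sum_filter_not T (fun k => blk k = i)]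
        rw [add_sub_right_comm, ← Finset.sum_sub_distrib]
        congr 1
        apply Finset.sum_congr rfl
        intro k _
        rw [smul_add, add_sub_cancel_left]
      rw [h1]
      apply Submodule.add_mem
      · apply Submodule.sum_mem
        intro k hk
        apply Submodule.smul_mem
        rw [hT1def, Finset.mem_filter, hT, Finset.mem_filter] at hk
        rw [← hk.2]
        exact (hF k hk.1.1).1
      · apply Submodule.sum_mem
        intro k hk
        apply Submodule.smul_mem
        rw [Finset.mem_filter] at hk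
        have hkS := (Finset.mem_filter.1 hk.1).1
        have hlt : blk k + 1 ≤ i := by
          have := hmax k hk.1
          have hne := hk.2
          omega
        apply Submodule.add_mem
        · exact Fl_mono hlt (h.mem k ((memS k).1 hkS).1)
        · exact Fl_mono ((Nat.le_succ _).trans hlt) (hF k hkS).1
    have hXpl : X ∈ pl y blk i W := by
      have hxpl : x ∈ pl y blk i W := by
        rw [mem_pl]
        refine ⟨?_, 0, Submodule.zero_mem _, by rw [add_zero]; exact hyx⟩
        apply Submodule.sum_mem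
        intro k hk
        apply Submodule.smul_mem
        have hkS := (Finset.mem_filter.1 hk).1
        have hle := hmax k hk
        apply Submodule.add_mem
        · exact Fl_mono (by omega) (h.mem k ((memS k).1 hkS).1)
        · exact Fl_mono (by omega) (hF k hkS).1
      have : X = x - (x - X) := by abel
      rw [this]
      exact Submodule.sub_mem _ hxpl (Fl_le_pl hxX)
    have hk1u : u k1 ∈ pl y blk i W := by
      have h1 := h.adp i hil (pl y blk i W) (Ch.pull i l W hil hW)
        (fun k => if k ∈ T1 then c k else 0) (by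
          have : ∑ k ∈ Finset.univ.filter (fun k => blk k = i),
              (fun k => if k ∈ T1 then c k else 0) k • u k = X := by
            rw [hX]
            simp only [ite_smul, zero_smul]
            rw [← Finset.sum_filter]
            apply Finset.sum_congr _ (fun _ _ => rfl)
            ext k
            simp only [Finset.mem_filter, Finset.mem_univ, true_and, hT1def]
            tauto
          rw [this]
          exact hXpl) k1 (by simp [hi]) (by
            have : k1 ∈ T1 := by rw [hT1def, Finset.mem_filter]; exact ⟨hk1T, rfl⟩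
            simp only [this, if_true]
            exact hT1.2.1)
      exact h1
    exact hT1.2.2 ((hF k1 hT1.1).2.2 W hW hk1u)
  -- the embedding of the sources into block `l`
  have hcard : S.card ≤ (Finset.univ.filter (fun i => blk i = l)).card :=
    hadp.card_le (Ch.bot l) hv1 hv2
  obtain ⟨emb⟩ : Nonempty ({x // x ∈ S} ↪ {i : ι // blk i = l}) := by
    apply Function.Embedding.nonempty_of_card_le
    rw [Fintype.card_coe, Fintype.card_subtype]
    exact hcard
  set e : ι → ι := fun k => if hk : k ∈ S then (emb ⟨k, hk⟩).1 else k with he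
  have he1 : ∀ k ∈ S, blk (e k) = l := by
    intro k hk
    simp only [he, hk, dif_pos]
    exact (emb ⟨k, hk⟩).2
  have he2 : ∀ k ∈ S, ∀ k' ∈ S, e k = e k' → k = k' := by
    intro k hk k' hk' hkk
    simp only [he, hk, hk', dif_pos] at hkk
    have := emb.injective (Subtype.ext hkk)
    exact congrArg Subtype.val this
  have hext : ∀ T : Finset ι, (∀ j ∈ T, blk j = l ∧ j ∉ S.image e) → ∃ w : ι → (ι → K),
      (∀ k ∈ S, w (e k) = v k) ∧ (∀ j ∈ S.image e ∪ T, w j ∈ Fl K blk (l + 1)) ∧
      (∀ j ∈ S.image e ∪ T, w j ∉ Fl K blk l) ∧ Adp (Ch y blk l) (S.image e ∪ T) w := by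
    intro T
    induction T using Finset.induction_on with
    | empty =>
      intro _
      set w : ι → (ι → K) := fun j => if hj : ∃ k ∈ S, e k = j then v hj.choose else 0 with hw
      have hw1 : ∀ k ∈ S, w (e k) = v k := by
        intro k hk
        have hj : ∃ k' ∈ S, e k' = e k := ⟨k, hk, rfl⟩
        simp only [hw, hj, dif_pos]
        congr 1
        exact he2 _ hj.choose_spec.1 _ hk hj.choose_spec.2
      refine ⟨w, hw1, ?_, ?_, ?_⟩
      · intro j hj
        rw [Finset.union_empty, Finset.mem_image] at hj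
        obtain ⟨k, hk, rfl⟩ := hj
        rw [hw1 k hk]; exact hv1 k hk
      · intro j hj
        rw [Finset.union_empty, Finset.mem_image] at hj
        obtain ⟨k, hk, rfl⟩ := hj
        rw [hw1 k hk]; exact hv2 k hk
      · intro W hW c hsum j hj hcj
        rw [Finset.union_empty] at hj hsum
        rw [Finset.sum_image he2] at hsum
        obtain ⟨k, hk, rfl⟩ := Finset.mem_image.1 hj
        rw [hw1 k hk]
        have hsum' : ∑ k ∈ S, (fun k => c (e k)) k • v k ∈ W := by
          have e1 : ∑ k ∈ S, (fun k => c (e k)) k • v k = ∑ x ∈ S, c (e x) • w (e x) :=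
            Finset.sum_congr rfl (fun k hk => by rw [hw1 k hk])
          rw [e1]
          exact hsum
        exact hadp W hW (fun k => c (e k)) hsum' k hk hcj
    | insert j T hjT ih =>
      intro hT
      obtain ⟨w, hw1, hw2, hw3, hw4⟩ := ih (fun j' hj' => hT j' (Finset.mem_insert_of_mem hj'))
      obtain ⟨hjl, hjS⟩ := hT j (Finset.mem_insert_self j T)
      have hjn : j ∉ S.image e ∪ T := by
        rw [Finset.mem_union]
        rintro (h1 | h1)
        · exact hjS h1
        · exact hjT h1
      have hcard2 : (S.image e ∪ T).card < (Finset.univ.filter (fun i => blk i = l)).card := by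
        apply Finset.card_lt_card
        rw [Finset.ssubset_iff_of_subset]
        · exact ⟨j, by simp [hjl], hjn⟩
        · intro j' hj'
          rw [Finset.mem_filter]
          refine ⟨Finset.mem_univ _, ?_⟩
          rw [Finset.mem_union, Finset.mem_image] at hj'
          rcases hj' with ⟨k, hk, rfl⟩ | hj'
          · exact he1 k hk
          · exact (hT j' (Finset.mem_insert_of_mem hj')).1
      obtain ⟨x, hx1, hx2, hx3⟩ := hw4.add hw2 hw3 hcard2 hjn
      refine ⟨Function.update w j x, ?_, ?_, ?_, ?_⟩
      · intro k hk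
        rw [Function.update_of_ne, hw1 k hk]
        intro hcon
        exact hjS (Finset.mem_image.2 ⟨k, hk, hcon⟩)
      · intro j' hj'
        by_cases hjj : j' = j
        · rw [hjj, Function.update_self]; exact hx1
        · rw [Function.update_of_ne hjj]
          apply hw2
          rw [Finset.mem_union, Finset.mem_insert] at hj'
          rw [Finset.mem_union]
          tauto
      · intro j' hj'
        by_cases hjj : j' = j
        · rw [hjj, Function.update_self]; exact hx2
        · rw [Function.update_of_ne hjj]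
          apply hw3
          rw [Finset.mem_union, Finset.mem_insert] at hj'
          rw [Finset.mem_union]
          tauto
      · rw [Finset.union_insert]
        exact hx3
  obtain ⟨w, hw1, hw2, hw3, hw4⟩ := hext
    ((Finset.univ.filter (fun i => blk i = l)).filter (fun i => i ∉ S.image e)) (by
      intro j hj
      rw [Finset.mem_filter, Finset.mem_filter] at hj
      exact ⟨hj.1.2, hj.2⟩)
  have hall : S.image e ∪ (Finset.univ.filter (fun i => blk i = l)).filter
      (fun i => i ∉ S.image e) = Finset.univ.filter (fun i => blk i = l) := by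
    ext j
    rw [Finset.mem_union, Finset.mem_filter, Finset.mem_filter]
    constructor
    · rintro (h1 | h1)
      · obtain ⟨k, hk, rfl⟩ := Finset.mem_image.1 h1
        exact ⟨Finset.mem_univ _, he1 k hk⟩
      · exact h1.1
    · intro h1
      by_cases h2 : j ∈ S.image e
      · exact Or.inl h2
      · exact Or.inr ⟨h1, h2⟩
  rw [hall] at hw2 hw3 hw4
  set u' : ι → (ι → K) := fun j => if blk j = l then w j else u j with hu'
  have hu'1 : ∀ j, blk j = l → u' j = w j := fun j hj => by simp [hu', hj]
  have hu'2 : ∀ j, blk j < l → u' j = u j := fun j hj => by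
    show (if blk j = l then w j else u j) = u j
    rw [if_neg (by omega)]
  have hlS : ∀ k, k ∈ S → blk k < l := fun k hk => ((memS k).1 hk).1
  refine ⟨u', D ∪ S.image (fun k => (k, e k)), ?_, ?_, ?_, ?_, ?_, ?_, ?_, ?_, ?_⟩
  · intro k hk
    rcases Nat.lt_succ_iff_lt_or_eq.1 hk with h1 | h1
    · rw [hu'2 k h1]; exact h.mem k h1
    · rw [hu'1 k h1, h1]; exact hw2 k (by simp [h1])
  · intro k hk
    rcases Nat.lt_succ_iff_lt_or_eq.1 hk with h1 | h1
    · rw [hu'2 k h1]; exact h.notMem k h1
    · rw [hu'1 k h1, h1]; exact hw3 k (by simp [h1])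
  · intro m hm
    rcases Nat.lt_succ_iff_lt_or_eq.1 hm with h1 | h1
    · intro W hW c hsum k hk hck
      have hkm : blk k = m := (Finset.mem_filter.1 hk).2
      rw [hu'2 k (hkm ▸ h1)]
      refine h.adp m h1 W hW c ?_ k hk hck
      have e1 : ∑ k ∈ Finset.univ.filter (fun k => blk k = m), c k • u k =
          ∑ k ∈ Finset.univ.filter (fun k => blk k = m), c k • u' k :=
        Finset.sum_congr rfl (fun k hk => by
          rw [hu'2 k ((Finset.mem_filter.1 hk).2 ▸ h1)])
      rw [e1]
      exact hsum
    · subst h1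
      intro W hW c hsum k hk hck
      have hkm : blk k = m := (Finset.mem_filter.1 hk).2
      rw [hu'1 k hkm]
      refine hw4 W hW c ?_ k hk hck
      have e1 : ∑ k ∈ Finset.univ.filter (fun k => blk k = m), c k • w k =
          ∑ k ∈ Finset.univ.filter (fun k => blk k = m), c k • u' k :=
        Finset.sum_congr rfl (fun k hk => by
          rw [hu'1 k (Finset.mem_filter.1 hk).2])
      rw [e1]
      exact hsum
  · intro k j hkj
    rw [Finset.mem_union, Finset.mem_image] at hkj
    rcases hkj with h1 | ⟨k', hk', h1⟩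
    · exact h.lt k j h1
    · obtain ⟨rfl, rfl⟩ := Prod.mk.inj h1
      rw [he1 k' hk']
      exact hlS k' hk'
  · intro k j hkj
    rw [Finset.mem_union, Finset.mem_image] at hkj
    rcases hkj with h1 | ⟨k', hk', h1⟩
    · exact (h.lt' k j h1).trans (Nat.lt_succ_self l)
    · obtain ⟨rfl, rfl⟩ := Prod.mk.inj h1
      rw [he1 k' hk']
      exact Nat.lt_succ_self l
  · intro k j hkj
    rw [Finset.mem_union, Finset.mem_image] at hkj
    rcases hkj with h1 | ⟨k', hk', h1⟩
    · rw [hu'2 k ((h.lt k j h1).trans (h.lt' k j h1)), hu'2 j (h.lt' k j h1)]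
      exact h.map k j h1
    · obtain ⟨rfl, rfl⟩ := Prod.mk.inj h1
      rw [hu'2 k' (hlS k' hk'), hu'1 _ (he1 k' hk'), hw1 k' hk']
      exact ⟨F k', (hF k' hk').1, rfl⟩
  · intro k j j' hkj hkj'
    rw [Finset.mem_union, Finset.mem_image] at hkj hkj'
    have hmix : ∀ j, (k, j) ∈ D → k ∉ S := by
      intro j hj hkS
      apply ((memS k).1 hkS).2.2
      obtain ⟨f, hf, hyf⟩ := h.map k j hj
      rw [mem_pl]
      refine ⟨h.mem k (hlS k hkS), f, hf, ?_⟩
      rw [hyf]
      exact Fl_mono (h.lt' k j hj) (h.mem j (h.lt' k j hj))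
    rcases hkj with h1 | ⟨k1, hk1, h1⟩
    · rcases hkj' with h2 | ⟨k2, hk2, h2⟩
      · exact h.right k j j' h1 h2
      · obtain ⟨rfl, rfl⟩ := Prod.mk.inj h2
        exact absurd hk2 (hmix j h1)
    · obtain ⟨rfl, rfl⟩ := Prod.mk.inj h1
      rcases hkj' with h2 | ⟨k2, hk2, h2⟩
      · exact absurd hk1 (hmix j' h2)
      · obtain ⟨rfl, rfl⟩ := Prod.mk.inj h2
        rfl
  · intro k k' j hkj hkj'
    rw [Finset.mem_union, Finset.mem_image] at hkj hkj'
    rcases hkj with h1 | ⟨k1, hk1, h1⟩
    · rcases hkj' with h2 | ⟨k2, hk2, h2⟩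
      · exact h.left k k' j h1 h2
      · obtain ⟨rfl, rfl⟩ := Prod.mk.inj h2
        have h3 := h.lt' _ _ h1
        rw [he1 k2 hk2] at h3
        exact absurd h3 (lt_irrefl _)
    · obtain ⟨rfl, rfl⟩ := Prod.mk.inj h1
      rcases hkj' with h2 | ⟨k2, hk2, h2⟩
      · have h3 := h.lt' _ _ h2
        rw [he1 k1 hk1] at h3
        exact absurd h3 (lt_irrefl _)
      · obtain ⟨rfl, h4⟩ := Prod.mk.inj h2
        exact (he2 _ hk2 _ hk1 h4).symm
  · intro k m hkm hml h1 h2
    have hkl : blk k < l := by omega
    rw [hu'2 k hkl] at h1 h2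
    rcases Nat.lt_succ_iff_lt_or_eq.1 hml with h3 | h3
    · obtain ⟨j, hj1, hj2⟩ := h.full k m hkm h3 h1 h2
      exact ⟨j, hj1, Finset.mem_union_left _ hj2⟩
    · subst h3
      have hkS : k ∈ S := (memS k).2 ⟨hkl, h1, h2⟩
      exact ⟨e k, he1 k hkS, Finset.mem_union_right _ (Finset.mem_image.2 ⟨k, hkS, rfl⟩)⟩

theorem exists_PP (l : ℕ) : ∃ u D, PP y blk l u D := by
  induction l with
  | zero => exact ⟨_, _, PP.zero⟩
  | succ l ih =>
    obtain ⟨u, D, h⟩ := ih
    exact h.step

end Pool.Agent.Q18.Rk
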