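import Pool.Agent.Q18.RkComb

set_option linter.style.haveILetI false
set_option linter.unusedSectionVars false

open scoped BigOperators Classical

noncomputable section

namespace Pool.Agent.Q18.Rk

variable {K : Type*} [Field K] {ι : Type*} [Fintype ι] [DecidableEq ι] {blk : ι → ℕ}

/-- matrix of a rook placement -/
def YM (K : Type*) [Field K] {ι : Type*} (D : Finset (ι × ι)) : Matrix ι ι K :=
  fun j k => if (k, j) ∈ D then 1 else 0

lemma yD_eq (D : Finset (ι × ι)) (v : ι → K) : yD K D v = (YM K D).mulVec v := by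
  funext j
  simp only [yD, YM, Matrix.mulVec, dotProduct, LinearMap.coe_mk, AddHom.coe_mk]
  apply Finset.sum_congr rfl
  intro k _
  split_ifs <;> simp

lemma lamD_eq_trace (D : Finset (ι × ι)) (x : JJ K blk) :
    lamD K blk D x = Matrix.trace (YM K D * (x : Matrix ι ι K)) := by
  rw [← sum_eq_trace]
  show ∑ α ∈ D, (x : Matrix ι ι K) α.1 α.2 = _
  have h4 : ∑ k, ∑ j, (x : Matrix ι ι K) k j * YM K D j k =
      ∑ k, ∑ j, if (k, j) ∈ D then (x : Matrix ι ι K) k j else 0 := by
    apply Finset.sum_congr rfl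
    intro k _
    apply Finset.sum_congr rfl
    intro j _
    unfold YM
    split_ifs <;> simp
  rw [h4, ← Finset.sum_product', Finset.univ_product_univ, ← Finset.sum_filter]
  apply Finset.sum_congr _ (fun _ _ => rfl)
  ext β
  simp

lemma P_mulVec {A : Matrix ι ι K} (hA : IsP blk A) {m : ℕ} {v : ι → K} (hv : v ∈ Fl K blk m) :
    A.mulVec v ∈ Fl K blk m := by
  intro i hi
  rw [Matrix.mulVec, dotProduct]
  apply Finset.sum_eq_zero
  intro j _
  by_cases h : m ≤ blk j
  · rw [hv j h, mul_zero]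
  · rw [(isP_iff.1 hA) i j (by omega), zero_mul]

lemma J_mulVec {A : Matrix ι ι K} (hA : A ∈ JJ K blk) {m : ℕ} {v : ι → K}
    (hv : v ∈ Fl K blk (m + 1)) : A.mulVec v ∈ Fl K blk m := by
  intro i hi
  rw [Matrix.mulVec, dotProduct]
  apply Finset.sum_eq_zero
  intro j _
  by_cases h : m + 1 ≤ blk j
  · rw [hv j h, mul_zero]
  · rw [hA i j (by omega), zero_mul]

lemma N_unit {a : Matrix ι ι K} (ha : a - 1 ∈ JJ K blk) : IsUnit a := by
  rw [← Matrix.mulVec_injective_iff_isUnit]
  intro v w hvw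
  have h1 : a.mulVec (v - w) = 0 := by rw [Matrix.mulVec_sub, hvw, sub_self]
  rw [← sub_eq_zero]
  set z := v - w with hz
  by_contra hcon
  obtain ⟨k0, hk0⟩ := Function.ne_iff.1 hcon
  set T := Finset.univ.filter (fun k => z k ≠ 0) with hT
  obtain ⟨k, hkT, hmax⟩ := Finset.exists_max_image T blk ⟨k0, by rw [hT, Finset.mem_filter]; exact ⟨Finset.mem_univ _, hk0⟩⟩
  have hzk : z k ≠ 0 := (Finset.mem_filter.1 hkT).2
  apply hzk
  have h2 := congrFun h1 k
  have h3 : a = 1 + (a - 1) := by abel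
  rw [h3, Matrix.add_mulVec, Matrix.one_mulVec, Pi.add_apply] at h2
  have h4 : ((a - 1).mulVec z) k = 0 := by
    rw [Matrix.mulVec, dotProduct]
    apply Finset.sum_eq_zero
    intro j _
    by_cases hj : z j = 0
    · rw [hj, mul_zero]
    · have h5 := hmax j (by rw [hT, Finset.mem_filter]; exact ⟨Finset.mem_univ _, hj⟩)
      rw [ha k j (by omega), zero_mul]
  rw [h4, add_zero] at h2
  exact h2

/-- linear equivalence of an invertible matrix -/
def leq (A B : Matrix ι ι K) (h1 : A * B = 1) (h2 : B * A = 1) : (ι → K) ≃ₗ[K] (ι → K) :=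
  LinearEquiv.ofLinearMap A.mulVecLin B.mulVecLin
    (by rw [← Matrix.mulVecLin_mul, h1, Matrix.mulVecLin_one])
    (by rw [← Matrix.mulVecLin_mul, h2, Matrix.mulVecLin_one])

lemma leq_apply (A B : Matrix ι ι K) (h1 : A * B = 1) (h2 : B * A = 1) (v : ι → K) :
    leq A B h1 h2 v = A.mulVec v := rfl

lemma leq_symm_apply (A B : Matrix ι ι K) (h1 : A * B = 1) (h2 : B * A = 1) (v : ι → K) :
    (leq A B h1 h2).symm v = B.mulVec v := rfl

theorem two_mp {D D' : Finset (ι × ι)} (hD : IsRook blk D) (hD' : IsRook blk D')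
    (h : Eqv blk (lamD K blk D) (lamD K blk D')) :
    ∃ w : Equiv.Perm ι, (∀ i, blk (w i) = blk i) ∧ D' = D.image (fun α => (w α.1, w α.2)) := by
  obtain ⟨r, a, b, hr, ha, hb, hx⟩ := h
  obtain ⟨ua, hua⟩ := N_unit ha
  obtain ⟨ub, hub⟩ := N_unit hb
  have hrP : IsP blk (r : Matrix ι ι K) := by
    rw [isP_iff]; intro i j hij; exact hr i j (by omega)
  have hriP : IsP blk ((r⁻¹ : (Matrix ι ι K)ˣ) : Matrix ι ι K) := hrP.inv (Units.mul_inv r)
  have haP : IsP blk a := IsP.of_N ha
  have hbP : IsP blk b := IsP.of_N hb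
  -- g = r a, h = b r⁻¹ as units
  set g1 : (Matrix ι ι K)ˣ := r * ua with hg1
  set g2 : (Matrix ι ι K)ˣ := ub * r⁻¹ with hg2
  have hg1v : (g1 : Matrix ι ι K) = (r : Matrix ι ι K) * a := by rw [hg1, Units.val_mul, hua]
  have hg2v : (g2 : Matrix ι ι K) = b * ((r⁻¹ : (Matrix ι ι K)ˣ) : Matrix ι ι K) := by
    rw [hg2, Units.val_mul, hub]
  have hg1P : IsP blk (g1 : Matrix ι ι K) := by rw [hg1v]; exact hrP.mul haP
  have hg2P : IsP blk (g2 : Matrix ι ι K) := by rw [hg2v]; exact hbP.mul hriP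
  have hg1iP : IsP blk ((g1⁻¹ : (Matrix ι ι K)ˣ) : Matrix ι ι K) := hg1P.inv (Units.mul_inv g1)
  have hg2iP : IsP blk ((g2⁻¹ : (Matrix ι ι K)ˣ) : Matrix ι ι K) := hg2P.inv (Units.mul_inv g2)
  -- difference matrix
  have hdiff : IsP blk (YM K D' - (g1 : Matrix ι ι K) * YM K D * (g2 : Matrix ι ι K)) := by
    rw [isP_iff]
    intro j k hkj
    have hmem : (Matrix.single k j (1 : K)) ∈ JJ K blk := by
      intro i l hil
      rw [Matrix.single_apply]
      split_ifs with h2
      · obtain ⟨rfl, rfl⟩ := h2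
        exact absurd hkj hil
      · rfl
    obtain ⟨h1, h2⟩ := hx ⟨_, hmem⟩
    rw [lamD_eq_trace, lamD_eq_trace] at h2
    simp only at h2
    have h3 : Matrix.trace (YM K D * (b * ((r⁻¹ : (Matrix ι ι K)ˣ) : Matrix ι ι K) *
        Matrix.single k j 1 * (r : Matrix ι ι K) * a)) =
        Matrix.trace (((g1 : Matrix ι ι K) * YM K D * (g2 : Matrix ι ι K)) *
          Matrix.single k j 1) := by
      rw [hg1v, hg2v]
      have e1 : YM K D * (b * ((r⁻¹ : (Matrix ι ι K)ˣ) : Matrix ι ι K) *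
          Matrix.single k j 1 * (r : Matrix ι ι K) * a) =
          (YM K D * (b * ((r⁻¹ : (Matrix ι ι K)ˣ) : Matrix ι ι K)) *
          Matrix.single k j 1) * ((r : Matrix ι ι K) * a) := by
        simp only [mul_assoc]
      rw [e1, Matrix.trace_mul_comm]
      congr 1
      simp only [mul_assoc]
    rw [h3] at h2
    have h4 : ∀ M : Matrix ι ι K, Matrix.trace (M * Matrix.single k j 1) = M j k := by
      intro M
      rw [← sum_eq_trace]
      rw [Finset.sum_eq_single k]
      · rw [Finset.sum_eq_single j]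
        · simp
        · intro j' _ hj'
          rw [Matrix.single_apply, if_neg (fun h => hj' h.2.symm), zero_mul]
        · intro h; exact absurd (Finset.mem_univ _) h
      · intro k' _ hk'
        apply Finset.sum_eq_zero
        intro j' _
        rw [Matrix.single_apply, if_neg (fun h => hk' h.1.symm), zero_mul]
      · intro h; exact absurd (Finset.mem_univ _) h
    rw [h4, h4] at h2
    rw [Matrix.sub_apply, h2, sub_self]
  have hN : (g1 : Matrix ι ι K) * (g2 : Matrix ι ι K) - 1 ∈ JJ K blk := by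
    have e1 : (g1 : Matrix ι ι K) * (g2 : Matrix ι ι K) - 1 =
        (r : Matrix ι ι K) * (a * b - 1) * ((r⁻¹ : (Matrix ι ι K)ˣ) : Matrix ι ι K) := by
      rw [hg1v, hg2v, mul_sub, sub_mul, mul_one, Units.mul_inv]
      simp only [mul_assoc]
    rw [e1]
    apply J_mul_P _ hriP
    apply P_mul_J _ hrP
    have e2 : a * b - 1 = (a - 1) * b + (b - 1) := by
      rw [sub_mul, one_mul]; abel
    rw [e2]
    exact Submodule.add_mem _ (J_mul_P ha hbP) hb
  have T : Tr blk (yD K D) (yD K D')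
      (leq (g1 : Matrix ι ι K) ((g1⁻¹ : (Matrix ι ι K)ˣ) : Matrix ι ι K) (Units.mul_inv g1)
        (Units.inv_mul g1))
      (leq (g2 : Matrix ι ι K) ((g2⁻¹ : (Matrix ι ι K)ˣ) : Matrix ι ι K) (Units.mul_inv g2)
        (Units.inv_mul g2)) := by
    refine ⟨?_, ?_, ?_, ?_, ?_, ?_⟩
    · intro m v hv
      rw [leq_apply]; exact P_mulVec hg1P hv
    · intro m v hv
      rw [leq_symm_apply]; exact P_mulVec hg1iP hv
    · intro m v hv
      rw [leq_apply]; exact P_mulVec hg2P hv
    · intro m v hv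
      rw [leq_symm_apply]; exact P_mulVec hg2iP hv
    · intro m v hv
      rw [leq_apply, leq_apply, Matrix.mulVec_mulVec]
      have e1 : ((g1 : Matrix ι ι K) * (g2 : Matrix ι ι K)).mulVec v - v =
          ((g1 : Matrix ι ι K) * (g2 : Matrix ι ι K) - 1).mulVec v := by
        rw [Matrix.sub_mulVec, Matrix.one_mulVec]
      rw [e1]
      exact J_mulVec hN hv
    · intro m v hv
      rw [leq_apply, leq_apply, yD_eq, yD_eq, Matrix.mulVec_mulVec, Matrix.mulVec_mulVec,
        ← Matrix.sub_mulVec]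
      exact P_mulVec hdiff hv
  obtain ⟨w, hw, hDw⟩ := exists_perm' hD hD' (fun i L => Ex_card_eq hD hD' T L i)
  refine ⟨w, hw, ?_⟩
  ext β
  rw [hDw β, Finset.mem_image]

theorem two_mpr {D D' : Finset (ι × ι)} (w : Equiv.Perm ι) (hw : ∀ i, blk (w i) = blk i)
    (hDD : D' = D.image (fun α => (w α.1, w α.2))) :
    Eqv blk (lamD K blk D) (lamD K blk D') := by
  set P : Matrix ι ι K := fun i j => if i = w j then 1 else 0 with hP
  set Q : Matrix ι ι K := fun i j => if w i = j then 1 else 0 with hQ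
  have hPQ : P * Q = 1 := by
    ext i j
    rw [Matrix.mul_apply, Finset.sum_eq_single (w.symm i)]
    · simp only [hP, hQ, Equiv.apply_symm_apply, if_true, one_mul, Matrix.one_apply]
    · intro l _ hl
      have : i ≠ w l := by
        intro h
        apply hl
        rw [h, Equiv.symm_apply_apply]
      simp [hP, this]
    · intro h; exact absurd (Finset.mem_univ _) h
  have hQP : Q * P = 1 := by
    ext i j
    rw [Matrix.mul_apply, Finset.sum_eq_single (w i)]
    · simp only [hP, hQ, if_true, one_mul, Matrix.one_apply]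
      by_cases h : i = j
      · rw [if_pos (by rw [h]), if_pos h]
      · rw [if_neg (fun h' => h (w.injective h')), if_neg h]
    · intro l _ hl
      simp [hQ, hl.symm]
    · intro h; exact absurd (Finset.mem_univ _) h
  have hconj : ∀ x : Matrix ι ι K, ∀ k j, (Q * x * P) k j = x (w k) (w j) := by
    intro x k j
    rw [Matrix.mul_apply, Finset.sum_eq_single (w j)]
    · rw [Matrix.mul_apply, Finset.sum_eq_single (w k)]
      · simp [hP, hQ]
      · intro l _ hl
        simp [hQ, hl.symm]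
      · intro h; exact absurd (Finset.mem_univ _) h
    · intro l _ hl
      simp [hP, hl]
    · intro h; exact absurd (Finset.mem_univ _) h
  let r : (Matrix ι ι K)ˣ := ⟨P, Q, hPQ, hQP⟩
  refine ⟨r, 1, 1, ?_, ?_, ?_, ?_⟩
  · intro i j hij
    show (if i = w j then (1 : K) else 0) = 0
    rw [if_neg]
    rintro rfl
    exact hij (hw j)
  · rw [sub_self]; exact Submodule.zero_mem _
  · rw [sub_self]; exact Submodule.zero_mem _
  · intro x
    have e1 : (1 : Matrix ι ι K) * ((r⁻¹ : (Matrix ι ι K)ˣ) : Matrix ι ι K) *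
        (x : Matrix ι ι K) * (r : Matrix ι ι K) * 1 = Q * (x : Matrix ι ι K) * P := by
      rw [one_mul, mul_one]
      rfl
    have hmem : Q * (x : Matrix ι ι K) * P ∈ JJ K blk := by
      intro i j hij
      rw [hconj]
      apply x.2
      rw [hw, hw]
      exact hij
    refine ⟨by rw [e1]; exact hmem, ?_⟩
    show ∑ α ∈ D', (x : Matrix ι ι K) α.1 α.2 = ∑ α ∈ D, ((1 : Matrix ι ι K) *
      ((r⁻¹ : (Matrix ι ι K)ˣ) : Matrix ι ι K) * (x : Matrix ι ι K) * (r : Matrix ι ι K) * 1 :
      Matrix ι ι K) α.1 α.2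
    rw [e1, hDD, Finset.sum_image]
    · apply Finset.sum_congr rfl
      intro α _
      rw [hconj]
    · intro α _ β _ hab
      simp only [Prod.mk.injEq] at hab
      exact Prod.ext (w.injective hab.1) (w.injective hab.2)

theorem two {D D' : Finset (ι × ι)} (hD : IsRook blk D) (hD' : IsRook blk D') :
    Eqv blk (lamD K blk D) (lamD K blk D') ↔
      ∃ w : Equiv.Perm ι, (∀ i, blk (w i) = blk i) ∧ D' = D.image (fun α => (w α.1, w α.2)) :=
  ⟨two_mp hD hD', fun ⟨w, hw, h⟩ => two_mpr w hw h⟩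

end Pool.Agent.Q18.Rk
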