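import Mathlib

namespace Q18

open Polynomial

theorem sum_int_root_ne_zero {ι : Type*} (s : Finset ι) (p : ℕ) (hp : p.Prime) (e : ι → ℤ)
    (ω : ι → ℂ) (hω : ∀ i ∈ s, ω i ^ p = 1) (h : ¬ (p : ℤ) ∣ ∑ i ∈ s, e i) :
    ∑ i ∈ s, (e i : ℂ) * ω i ≠ 0 := by
  intro h0
  have : NeZero p := ⟨hp.ne_zero⟩
  have hζ : IsPrimitiveRoot (Complex.exp (2 * Real.pi * Complex.I / p)) p :=
    Complex.isPrimitiveRoot_exp p hp.ne_zero
  set ζ := Complex.exp (2 * Real.pi * Complex.I / p) with hζdef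
  have hk : ∀ i : ι, ∃ k : ℕ, i ∈ s → ζ ^ k = ω i := by
    intro i
    by_cases hi : i ∈ s
    · obtain ⟨k, _, hk⟩ := hζ.eq_pow_of_pow_eq_one (hω i hi)
      exact ⟨k, fun _ => hk⟩
    · exact ⟨0, fun h => absurd h hi⟩
  choose k hk using hk
  let Q : ℤ[X] := ∑ i ∈ s, C (e i) * X ^ (k i)
  have hQ : aeval ζ Q = 0 := by
    simp only [Q, map_sum, map_mul, aeval_C, map_pow, aeval_X]
    rw [← h0]
    refine Finset.sum_congr rfl fun i hi => ?_
    rw [hk i hi]
    simp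
  have hdvd : cyclotomic p ℤ ∣ Q := by
    rw [cyclotomic_eq_minpoly hζ hp.pos]
    exact minpoly.isIntegrallyClosed_dvd (hζ.isIntegral hp.pos) hQ
  have h1 : (cyclotomic p ℤ).eval 1 ∣ Q.eval 1 := eval_dvd hdvd
  have : Fact p.Prime := ⟨hp⟩
  rw [eval_one_cyclotomic_prime] at h1
  apply h
  simpa [Q, eval_finsetSum] using h1

theorem sum_pm_root_ne_zero {ι : Type*} (s : Finset ι) (p : ℕ) (hp : p.Prime) (hs : Odd s.card)
    (hsp : s.card < p) (ε ω : ι → ℂ) (hε : ∀ i ∈ s, ε i = 1 ∨ ε i = -1)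
    (hω : ∀ i ∈ s, ω i ^ p = 1) : ∑ i ∈ s, ε i * ω i ≠ 0 := by
  classical
  let e : ι → ℤ := fun i => if ε i = 1 then 1 else -1
  have he : ∀ i ∈ s, (e i : ℂ) = ε i := by
    intro i hi
    by_cases h : ε i = 1
    · simp [e, h]
    · rcases hε i hi with h' | h'
      · exact absurd h' h
      · simp only [e, if_neg h, h']
        norm_num
  have he1 : ∀ i, e i = 1 ∨ e i = -1 := by
    intro i
    by_cases h : ε i = 1
    · simp [e, h]
    · simp [e, h]
  have hsum : ∑ i ∈ s, ε i * ω i = ∑ i ∈ s, (e i : ℂ) * ω i :=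
    Finset.sum_congr rfl fun i hi => by rw [he i hi]
  rw [hsum]
  apply sum_int_root_ne_zero s p hp e ω hω
  intro hdvd
  have habs : |∑ i ∈ s, e i| ≤ s.card := by
    refine (Finset.abs_sum_le_sum_abs _ _).trans ?_
    have : ∑ i ∈ s, |e i| = ∑ i ∈ s, (1 : ℤ) :=
      Finset.sum_congr rfl fun i _ => by rcases he1 i with h | h <;> simp [h]
    rw [this]; simp
  have hodd : Odd (∑ i ∈ s, e i) := by
    have hmod : (∑ i ∈ s, e i) % 2 = (∑ i ∈ s, (1 : ℤ)) % 2 := by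
      apply Int.ModEq.eq
      apply Int.ModEq.sum
      intro i _
      rcases he1 i with h | h
      · rw [h]
      · rw [h]; decide
    rw [Int.odd_iff, hmod]
    simp only [Finset.sum_const, nsmul_eq_mul, mul_one]
    have := Nat.odd_iff.1 hs
    omega
  have hne : (∑ i ∈ s, e i) ≠ 0 := by
    intro h0
    rw [h0] at hodd
    exact absurd hodd (by decide)
  have hle := Int.le_of_dvd (abs_pos.2 hne) ((dvd_abs _ _).2 hdvd)
  have : (p : ℤ) ≤ s.card := hle.trans habs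
  exact absurd (by exact_mod_cast this) (not_le.2 hsp)

end Q18
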