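import Mathlib
import Pool.Agent.Q18.CharInt
import Pool.Agent.Q18.HomCount

/-!
For a word `w` in at least two letters and a character `χ` of a finite group `G`, the number
`|G|⁻¹ ∑_{x ∈ G^r} conj (χ (w(x)))` is an algebraic integer.
-/

namespace Q18

variable {r : ℕ} (w : FreeGroup (Fin r)) {G : Type} [Group G] [Finite G]

/-- existence of a surjection onto `ℤ` killing `w`, when there are at least two letters -/
theorem exists_delta (hr : 2 ≤ r) : ∃ (δ : FreeGroup (Fin r) →* Multiplicative ℤ)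
    (t : FreeGroup (Fin r)), δ t = Multiplicative.ofAdd 1 ∧ w ∈ δ.ker := by
  let i0 : Fin r := ⟨0, by omega⟩
  let i1 : Fin r := ⟨1, by omega⟩
  have h01 : i0 ≠ i1 := by intro h; simp [i0, i1] at h
  let e0 : FreeGroup (Fin r) →* Multiplicative ℤ :=
    FreeGroup.lift (fun i => if i = i0 then Multiplicative.ofAdd 1 else 1)
  let e1 : FreeGroup (Fin r) →* Multiplicative ℤ :=
    FreeGroup.lift (fun i => if i = i1 then Multiplicative.ofAdd 1 else 1)
  obtain ⟨p, q, hpq, hw⟩ : ∃ p q : ℤ, IsCoprime p q ∧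
      p * Multiplicative.toAdd (e0 w) + q * Multiplicative.toAdd (e1 w) = 0 := by
    set a := Multiplicative.toAdd (e0 w)
    set b := Multiplicative.toAdd (e1 w)
    by_cases h : 0 < Int.gcd a b
    · obtain ⟨a', b', h1, h2, h3⟩ := Int.exists_gcd_one h
      refine ⟨b', -a', ?_, ?_⟩
      · rw [IsCoprime.neg_right_iff]
        exact (Int.isCoprime_iff_gcd_eq_one.2 h1).symm
      · linear_combination b' * h2 - a' * h3
    · have : Int.gcd a b = 0 := by omega
      rw [Int.gcd_eq_zero_iff] at this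
      refine ⟨1, 0, isCoprime_one_left, ?_⟩
      rw [this.1, this.2]; ring
  obtain ⟨u, v, huv⟩ := hpq
  refine ⟨e0 ^ p * e1 ^ q, (FreeGroup.of i0) ^ u * (FreeGroup.of i1) ^ v, ?_, ?_⟩
  · apply Multiplicative.toAdd.injective
    simp only [MonoidHom.mul_apply, MonoidHom.zpow_apply, map_mul, map_zpow, toAdd_mul, toAdd_zpow]
    have a1 : e0 (FreeGroup.of i0) = Multiplicative.ofAdd 1 := by simp [e0]
    have a2 : e0 (FreeGroup.of i1) = 1 := by simp [e0, h01.symm]
    have a3 : e1 (FreeGroup.of i0) = 1 := by simp [e1, h01]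
    have a4 : e1 (FreeGroup.of i1) = Multiplicative.ofAdd 1 := by simp [e1]
    rw [a1, a2, a3, a4]
    simp only [toAdd_ofAdd, toAdd_one, smul_eq_mul]
    linarith
  · rw [MonoidHom.mem_ker]
    apply Multiplicative.toAdd.injective
    simp only [MonoidHom.mul_apply, MonoidHom.zpow_apply, toAdd_mul, toAdd_zpow, toAdd_one,
      smul_eq_mul]
    exact hw

theorem word_sum_isIntegral (hr : 2 ≤ r) {n : ℕ} (ρ : Representation ℂ G (Fin n → ℂ))
    [Fintype (Fin r → G)] :
    IsIntegral ℤ ((Nat.card G : ℂ)⁻¹ *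
      ∑ x : Fin r → G, (starRingEnd ℂ) (ρ.character (FreeGroup.lift x w))) := by
  classical
  have : Fintype G := Fintype.ofFinite G
  obtain ⟨δ, t, ht, hw⟩ := exists_delta w hr
  have : Fintype (FreeGroup (Fin r) →* G) := Fintype.ofEquiv _ FreeGroup.lift
  obtain ⟨α, hα, hsum⟩ := HomCount.sum_hom (H := G) ht w hw
    (fun g => (starRingEnd ℂ) (ρ.character g))
    (fun c h => by rw [Representation.char_conj])
    (fun h => by
      have h1 := character_isIntegral ρ h
      exact h1.map ((starRingEnd ℂ).toIntAlgHom))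
  have h2 : ∑ x : Fin r → G, (starRingEnd ℂ) (ρ.character (FreeGroup.lift x w)) =
      ∑ φ : FreeGroup (Fin r) →* G, (starRingEnd ℂ) (ρ.character (φ w)) :=
    Fintype.sum_equiv FreeGroup.lift _ _ (fun x => rfl)
  rw [h2, hsum, ← mul_assoc, inv_mul_cancel₀ (by exact_mod_cast Nat.card_pos.ne'), one_mul]
  exact hα

end Q18
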