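import Mathlib
import Pool.Agent.Q18.Grp729
import Pool.Agent.Q18.Schur
import Pool.Agent.Q18.WordInt

/-!
Word maps on the group `M729`, and the proof that it is semi-rational.
-/

namespace Q18

namespace M729

variable {r : ℕ}

/-- The shape of a word map on `M729`. -/
def IsForm (w : FreeGroup (Fin r)) (m : Fin r → ℤ) (c : Fin r → Fin r → ℤ) : Prop :=
  (∀ i k, c i k + c k i = m i * m k - (if i = k then m i else 0)) ∧
    ∀ x : Fin r → M729,
      (FreeGroup.lift x w).a = ∑ i, (m i : ZMod 9) * (x i).a -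
        3 * ∑ i, ∑ k, (c i k : ZMod 9) * ((x i).b * (x k).a) ∧
      (FreeGroup.lift x w).b = ∑ i, (m i : ZMod 9) * (x i).b +
        3 * ∑ i, ∑ k, (c i k : ZMod 9) * ((x i).c * (x k).b) ∧
      (FreeGroup.lift x w).c = ∑ i, (m i : ZMod 9) * (x i).c

theorem word_form (w : FreeGroup (Fin r)) : ∃ (m : Fin r → ℤ) (c : Fin r → Fin r → ℤ),
    IsForm w m c := by
  induction w using FreeGroup.induction_on with
  | C1 =>
    refine ⟨0, 0, ?_, ?_⟩
    · intro i k; simp
    · intro x; simp
  | of i =>
    refine ⟨Pi.single i 1, 0, ?_, ?_⟩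
    · intro j k
      by_cases hj : j = i
      · subst hj
        by_cases hk : k = j
        · subst hk; simp
        · simp [hk, Ne.symm hk]
      · by_cases hk : j = k
        · subst hk; simp [hj]
        · simp [hj, hk, Pi.single_apply]
    · intro x
      simp [Pi.single_apply]
  | inv_of i _ =>
    refine ⟨-Pi.single i 1, fun j k => if j = i ∧ k = i then 1 else 0, ?_, ?_⟩
    · intro j k
      by_cases hj : j = i
      · subst hj
        by_cases hk : k = j
        · subst hk; simp
        · simp [hk, Ne.symm hk]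
      · by_cases hk : j = k
        · subst hk; simp [hj]
        · simp [hj, hk, Pi.single_apply]
    · intro x
      have h1 : ∀ f : Fin r → Fin r → ZMod 9,
          ∑ j, ∑ k, (((if j = i ∧ k = i then 1 else 0 : ℤ)) : ZMod 9) * f j k = f i i := by
        intro f
        rw [Finset.sum_eq_single i, Finset.sum_eq_single i]
        · simp
        · intro k _ hk; simp [hk]
        · simp
        · intro j _ hj; simp [hj]
        · simp
      rw [h1, h1]
      simp [Pi.single_apply]
  | mul v w hv hw =>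
    obtain ⟨m, c, hc, h⟩ := hv
    obtain ⟨m', c', hc', h'⟩ := hw
    refine ⟨m + m', fun i k => c i k + c' i k + m i * m' k, ?_, ?_⟩
    · intro i k
      have h1 := hc i k
      have h2 := hc' i k
      by_cases hik : i = k
      · subst hik
        simp only [Pi.add_apply, if_true] at *
        linear_combination h1 + h2
      · simp only [Pi.add_apply, if_neg hik] at *
        linear_combination h1 + h2
    · intro x
      obtain ⟨a1, b1, c1⟩ := h x
      obtain ⟨a2, b2, c2⟩ := h' x
      have hsum : ∀ p q : Fin r → ZMod 9,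
          ∑ i, ∑ k, ((c i k + c' i k + m i * m' k : ℤ) : ZMod 9) * (p i * q k) =
          ∑ i, ∑ k, (c i k : ZMod 9) * (p i * q k) + ∑ i, ∑ k, (c' i k : ZMod 9) * (p i * q k) +
          (∑ i, (m i : ZMod 9) * p i) * (∑ k, (m' k : ZMod 9) * q k) := by
        intro p q
        rw [Finset.sum_mul_sum, ← Finset.sum_add_distrib, ← Finset.sum_add_distrib]
        refine Finset.sum_congr rfl fun i _ => ?_
        rw [← Finset.sum_add_distrib, ← Finset.sum_add_distrib]
        refine Finset.sum_congr rfl fun k _ => ?_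
        push_cast
        ring
      have hlin : ∀ p : Fin r → ZMod 9, ∑ i, (((m + m') i : ℤ) : ZMod 9) * p i =
          ∑ i, (m i : ZMod 9) * p i + ∑ i, (m' i : ZMod 9) * p i := by
        intro p
        rw [← Finset.sum_add_distrib]
        refine Finset.sum_congr rfl fun i _ => ?_
        push_cast [Pi.add_apply]
        ring
      rw [hlin, hlin, hlin, hsum (fun i => (x i).b) (fun k => (x k).a),
        hsum (fun i => (x i).c) (fun k => (x k).b)]
      rw [map_mul]
      refine ⟨?_, ?_, ?_⟩
      · rw [mul_a, a1, a2, b1]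
        set Ma := ∑ i, (m i : ZMod 9) * (x i).a
        set Mb := ∑ i, (m i : ZMod 9) * (x i).b
        set Ma' := ∑ i, (m' i : ZMod 9) * (x i).a
        set C1 := ∑ i, ∑ k, (c i k : ZMod 9) * ((x i).b * (x k).a)
        set C2 := ∑ i, ∑ k, (c i k : ZMod 9) * ((x i).c * (x k).b)
        set C1' := ∑ i, ∑ k, (c' i k : ZMod 9) * ((x i).b * (x k).a)
        linear_combination (Mb * C1' - C2 * Ma' + 3 * C2 * C1') * nine
      · rw [mul_b, b1, b2, c1]
        set Mc := ∑ i, (m i : ZMod 9) * (x i).c
        set C2' := ∑ i, ∑ k, (c' i k : ZMod 9) * ((x i).c * (x k).b)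
        linear_combination (Mc * C2') * nine
      · rw [mul_c, c1, c2]

/-! ### Words with an exponent sum prime to three -/

theorem red_int_eq_zero_iff (n : ℤ) : red (n : ZMod 9) = 0 ↔ (3 : ℤ) ∣ n := by
  rw [map_intCast]
  exact ZMod.intCast_zmod_eq_zero_iff_dvd n 3

theorem unit_of_red (s : ZMod 9) (h : red s ≠ 0) : IsUnit s := by
  revert s; decide

theorem red3 : ∀ t : ZMod 9, red (3 * t) = 0 := by decide

theorem red_three_mul {p q p' q' : ZMod 9} (h1 : red p = red p') (h2 : red q = red q')
    (c : ZMod 9) : 3 * (c * (p * q)) = 3 * (c * (p' * q')) := by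
  rw [three_mul_eq_iff, map_mul, map_mul, map_mul, map_mul, h1, h2]

theorem bij_of_unit (w : FreeGroup (Fin r)) {m : Fin r → ℤ} {c : Fin r → Fin r → ℤ}
    (h : IsForm w m c) (i : Fin r) (hi : ¬ (3 : ℤ) ∣ m i) (x0 : Fin r → M729) :
    Function.Bijective (fun y => FreeGroup.lift (Function.update x0 i y) w) := by
  rw [← Finite.injective_iff_bijective]
  intro y y' hyy
  simp only at hyy
  have hu : IsUnit (m i : ZMod 9) := unit_of_red _ (by rw [Ne, red_int_eq_zero_iff]; exact hi)
  have : Fact (Nat.Prime 3) := ⟨by norm_num⟩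
  have hru : red (m i : ZMod 9) ≠ 0 := by rw [Ne, red_int_eq_zero_iff]; exact hi
  obtain ⟨_, hf⟩ := h
  obtain ⟨a1, b1, c1⟩ := hf (Function.update x0 i y)
  obtain ⟨a2, b2, c2⟩ := hf (Function.update x0 i y')
  rw [hyy] at a1 b1 c1
  -- linear parts
  have hlin : ∀ f : M729 → ZMod 9,
      ∑ j, (m j : ZMod 9) * f (Function.update x0 i y j) -
        ∑ j, (m j : ZMod 9) * f (Function.update x0 i y' j) = (m i : ZMod 9) * (f y - f y') := by
    intro f
    rw [← Finset.sum_sub_distrib, Finset.sum_eq_single i]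
    · simp only [Function.update_self]; ring
    · intro j _ hj
      simp [Function.update_of_ne hj]
    · simp
  have ha := hlin M729.a
  have hb := hlin M729.b
  have hc := hlin M729.c
  have ra : red y.a = red y'.a := by
    have e : (m i : ZMod 9) * (y.a - y'.a) =
        3 * (∑ j, ∑ k, (c j k : ZMod 9) * ((Function.update x0 i y j).b * (Function.update x0 i y k).a) -
        ∑ j, ∑ k, (c j k : ZMod 9) * ((Function.update x0 i y' j).b * (Function.update x0 i y' k).a)) := by
      rw [← ha]
      linear_combination a2 - a1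
    have e2 := congrArg red e
    rw [red3, map_mul, map_sub] at e2
    rcases mul_eq_zero.1 e2 with h | h
    · exact absurd h hru
    · exact sub_eq_zero.1 h
  have rb : red y.b = red y'.b := by
    have e : (m i : ZMod 9) * (y.b - y'.b) =
        3 * (∑ j, ∑ k, (c j k : ZMod 9) * ((Function.update x0 i y' j).c * (Function.update x0 i y' k).b) -
        ∑ j, ∑ k, (c j k : ZMod 9) * ((Function.update x0 i y j).c * (Function.update x0 i y k).b)) := by
      rw [← hb]
      linear_combination b2 - b1
    have e2 := congrArg red e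
    rw [red3, map_mul, map_sub] at e2
    rcases mul_eq_zero.1 e2 with h | h
    · exact absurd h hru
    · exact sub_eq_zero.1 h
  have ec : y.c = y'.c := by
    have e : (m i : ZMod 9) * (y.c - y'.c) = 0 := by
      rw [← hc]
      linear_combination c2 - c1
    rcases (hu.mul_right_eq_zero).1 e with h
    exact sub_eq_zero.1 h
  have rupd : ∀ (f : M729 → ZMod 9), red (f y) = red (f y') → ∀ j,
      red (f (Function.update x0 i y j)) = red (f (Function.update x0 i y' j)) := by
    intro f hf j
    by_cases hj : j = i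
    · subst hj; simpa using hf
    · simp [Function.update_of_ne hj]
  have ea : y.a = y'.a := by
    have e : (m i : ZMod 9) * (y.a - y'.a) = 0 := by
      rw [← ha]
      have h3 : 3 * ∑ j, ∑ k, (c j k : ZMod 9) *
          ((Function.update x0 i y j).b * (Function.update x0 i y k).a) =
          3 * ∑ j, ∑ k, (c j k : ZMod 9) *
          ((Function.update x0 i y' j).b * (Function.update x0 i y' k).a) := by
        simp only [Finset.mul_sum]
        refine Finset.sum_congr rfl fun j _ => Finset.sum_congr rfl fun k _ => ?_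
        exact red_three_mul (rupd M729.b rb j) (rupd M729.a ra k) _
      linear_combination a2 - a1 + h3
    exact sub_eq_zero.1 ((hu.mul_right_eq_zero).1 e)
  have eb : y.b = y'.b := by
    have e : (m i : ZMod 9) * (y.b - y'.b) = 0 := by
      rw [← hb]
      have h3 : 3 * ∑ j, ∑ k, (c j k : ZMod 9) *
          ((Function.update x0 i y j).c * (Function.update x0 i y k).b) =
          3 * ∑ j, ∑ k, (c j k : ZMod 9) *
          ((Function.update x0 i y' j).c * (Function.update x0 i y' k).b) := by
        simp only [Finset.mul_sum]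
        refine Finset.sum_congr rfl fun j _ => Finset.sum_congr rfl fun k _ => ?_
        exact red_three_mul (rupd M729.c (by rw [ec]) j) (rupd M729.b rb k) _
      linear_combination b2 - b1 - h3
    exact sub_eq_zero.1 ((hu.mul_right_eq_zero).1 e)
  exact M729.ext ea eb ec

theorem sum_of_unit (w : FreeGroup (Fin r)) {m : Fin r → ℤ} {c : Fin r → Fin r → ℤ}
    (h : IsForm w m c) (i : Fin r) (hi : ¬ (3 : ℤ) ∣ m i) (f : M729 → ℂ) :
    ∃ N : ℕ, ∑ x : Fin r → M729, f (FreeGroup.lift x w) = N * ∑ g : M729, f g := by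
  classical
  refine ⟨Fintype.card ({j // j ≠ i} → M729), ?_⟩
  rw [← Equiv.sum_comp (Equiv.funSplitAt i M729).symm, Fintype.sum_prod_type_right]
  have key : ∀ x' : {j // j ≠ i} → M729,
      ∑ y : M729, f (FreeGroup.lift ((Equiv.funSplitAt i M729).symm (y, x')) w) =
        ∑ g : M729, f g := by
    intro x'
    have hb := bij_of_unit w h i hi ((Equiv.funSplitAt i M729).symm (1, x'))
    have he : ∀ y, (Equiv.funSplitAt i M729).symm (y, x') =
        Function.update ((Equiv.funSplitAt i M729).symm (1, x')) i y := by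
      intro y
      funext j
      by_cases hj : j = i
      · subst hj
        rw [Function.update_self, Equiv.funSplitAt_symm_apply]
        simp
      · rw [Function.update_of_ne hj, Equiv.funSplitAt_symm_apply, Equiv.funSplitAt_symm_apply]
        simp [hj]
    rw [← Function.Bijective.sum_comp hb f]
    exact Finset.sum_congr rfl fun y _ => by rw [he y]
  rw [Finset.sum_congr rfl fun x' _ => key x']
  rw [Finset.sum_const, Finset.card_univ, nsmul_eq_mul]

/-! ### Words all of whose exponent sums are divisible by three -/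

/-- The twelve involutions used below, as integer matrices. -/
def mats : Fin 12 → Fin 3 → Fin 3 → ℤ := fun k => match k with
  | 0 => ![![1, 0, 0], ![0, 1, 0], ![0, 0, 1]]
  | 1 => ![![0, 1, 0], ![1, 0, 0], ![0, 0, -1]]
  | 2 => ![![1, 0, 0], ![0, -1, 0], ![0, 0, 1]]
  | 3 => ![![1, 0, 0], ![0, 0, -1], ![0, -1, 0]]
  | 4 => ![![1, 0, 0], ![0, 0, 1], ![0, 1, 0]]
  | 5 => ![![-1, 0, 0], ![0, 1, 0], ![0, 0, 1]]
  | 6 => ![![-1, 0, 0], ![0, 1, 0], ![0, 0, -1]]
  | 7 => ![![-1, 1, 0], ![0, 1, 0], ![0, 0, -1]]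
  | 8 => ![![-1, -1, 0], ![0, 1, 0], ![0, 0, -1]]
  | 9 => ![![-1, 0, 0], ![0, 1, 0], ![0, 1, -1]]
  | 10 => ![![0, 0, 1], ![0, -1, 0], ![1, 0, 0]]
  | 11 => ![![0, 0, -1], ![0, -1, 0], ![-1, 0, 0]]

theorem mats_sq : ∀ k i j, ∑ l, mats k i l * mats k l j = if i = j then 1 else 0 := by decide

/-- The form `λ` composed with the matrix. -/
theorem mats_exists : ∀ l1 l2 l3 : ZMod 3, ∃ k : Fin 12,
    (∀ j : Fin 3, l1 * (mats k 0 j : ZMod 3) + l2 * (mats k 1 j : ZMod 3) +
      l3 * (mats k 2 j : ZMod 3) = - ![l1, l2, l3] j) ∧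
    (∀ i j : Fin 3, l1 * ((mats k 0 i : ZMod 3) * (mats k 1 j : ZMod 3) -
        (mats k 1 i : ZMod 3) * (mats k 0 j : ZMod 3)) +
      l2 * ((mats k 2 i : ZMod 3) * (mats k 1 j : ZMod 3) -
        (mats k 1 i : ZMod 3) * (mats k 2 j : ZMod 3)) =
      - (l1 * ((if i = 0 then 1 else 0) * (if j = 1 then 1 else 0) -
          (if i = 1 then 1 else 0) * (if j = 0 then 1 else 0)) +
        l2 * ((if i = 2 then 1 else 0) * (if j = 1 then 1 else 0) -
          (if i = 1 then 1 else 0) * (if j = 2 then 1 else 0)))) := by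
  decide +kernel

/-- The linear map of `(ℤ/9)^3` given by an integer matrix. -/
def tr (t : Fin 3 → Fin 3 → ℤ) (g : M729) : M729 :=
  ⟨t 0 0 * g.a + t 0 1 * g.b + t 0 2 * g.c, t 1 0 * g.a + t 1 1 * g.b + t 1 2 * g.c,
    t 2 0 * g.a + t 2 1 * g.b + t 2 2 * g.c⟩

theorem tr_tr (k : Fin 12) (g : M729) : tr (mats k) (tr (mats k) g) = g := by
  have h := fun i j => congrArg (fun z : ℤ => (z : ZMod 9)) (mats_sq k i j)
  simp only [Fin.sum_univ_three] at h
  push_cast at h
  have h00 := h 0 0
  have h01 := h 0 1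
  have h02 := h 0 2
  have h10 := h 1 0
  have h11 := h 1 1
  have h12 := h 1 2
  have h20 := h 2 0
  have h21 := h 2 1
  have h22 := h 2 2
  simp at h00 h01 h02 h10 h11 h12 h20 h21 h22
  ext
  · simp only [tr]
    linear_combination g.a * h00 + g.b * h01 + g.c * h02
  · simp only [tr]
    linear_combination g.a * h10 + g.b * h11 + g.c * h12
  · simp only [tr]
    linear_combination g.a * h20 + g.b * h21 + g.c * h22

/-- the linear form `λ` -/
def lam (l1 l2 l3 : ZMod 3) (g : M729) : ZMod 3 := l1 * red g.a + l2 * red g.b + l3 * red g.c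

/-- the alternating form `λ ∘ [ , ]` -/
def bet (l1 l2 : ZMod 3) (g h : M729) : ZMod 3 :=
  l1 * (red g.a * red h.b - red g.b * red h.a) + l2 * (red g.c * red h.b - red g.b * red h.c)

theorem lam_mul (l1 l2 l3 : ZMod 3) (g h : M729) :
    lam l1 l2 l3 (g * h) = lam l1 l2 l3 g + lam l1 l2 l3 h := by
  simp only [lam, mul_a, mul_b, mul_c, map_add, map_sub, red3]
  ring

theorem exists_tr (l1 l2 l3 : ZMod 3) : ∃ k : Fin 12,
    (∀ g, lam l1 l2 l3 (tr (mats k) g) = - lam l1 l2 l3 g) ∧
    (∀ g h, bet l1 l2 (tr (mats k) g) (tr (mats k) h) = - bet l1 l2 g h) := by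
  obtain ⟨k, h1, h2⟩ := mats_exists l1 l2 l3
  refine ⟨k, ?_, ?_⟩
  · intro g
    have e0 := h1 0
    have e1 := h1 1
    have e2 := h1 2
    simp at e0 e1 e2
    simp only [lam, tr, map_add, map_mul, map_intCast]
    linear_combination red g.a * e0 + red g.b * e1 + red g.c * e2
  · intro g h
    have e00 := h2 0 0
    have e01 := h2 0 1
    have e02 := h2 0 2
    have e10 := h2 1 0
    have e11 := h2 1 1
    have e12 := h2 1 2
    have e20 := h2 2 0
    have e21 := h2 2 1
    have e22 := h2 2 2
    simp only [if_true, if_neg (show (0 : Fin 3) ≠ 1 by decide), if_neg (show (0 : Fin 3) ≠ 2 by decide),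
      if_neg (show (1 : Fin 3) ≠ 0 by decide), if_neg (show (1 : Fin 3) ≠ 2 by decide),
      if_neg (show (2 : Fin 3) ≠ 0 by decide), if_neg (show (2 : Fin 3) ≠ 1 by decide)]
      at e00 e01 e02 e10 e11 e12 e20 e21 e22
    simp only [bet, tr, map_add, map_mul, map_intCast]
    linear_combination red g.a * red h.a * e00 + red g.a * red h.b * e01 + red g.a * red h.c * e02 +
      red g.b * red h.a * e10 + red g.b * red h.b * e11 + red g.b * red h.c * e12 +
      red g.c * red h.a * e20 + red g.c * red h.b * e21 + red g.c * red h.c * e22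

/-- the exponent of the value of a word -/
def qf (l1 l2 l3 : ZMod 3) (n : Fin r → ℤ) (c : Fin r → Fin r → ℤ) (x : Fin r → M729) : ZMod 3 :=
  ∑ i, (n i : ZMod 3) * lam l1 l2 l3 (x i) + ∑ i, ∑ k, (c i k : ZMod 3) *
    (-l1 * (red (x i).b * red (x k).a) + l2 * (red (x i).c * red (x k).b))

theorem two_qf (l1 l2 l3 : ZMod 3) {n : Fin r → ℤ} {c : Fin r → Fin r → ℤ}
    (hc : ∀ i k, (c i k : ZMod 3) = - (c k i : ZMod 3)) (x : Fin r → M729) :
    2 * qf l1 l2 l3 n c x = 2 * ∑ i, (n i : ZMod 3) * lam l1 l2 l3 (x i) +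
      ∑ i, ∑ k, (c i k : ZMod 3) * bet l1 l2 (x i) (x k) := by
  set F : Fin r → Fin r → ZMod 3 := fun i k =>
    (-l1 * (red (x i).b * red (x k).a) + l2 * (red (x i).c * red (x k).b)) with hF
  have h1 : ∑ i, ∑ k, (c i k : ZMod 3) * F i k = - ∑ i, ∑ k, (c i k : ZMod 3) * F k i := by
    rw [Finset.sum_comm, ← Finset.sum_neg_distrib]
    refine Finset.sum_congr rfl fun i _ => ?_
    rw [← Finset.sum_neg_distrib]
    refine Finset.sum_congr rfl fun k _ => ?_
    rw [hc k i]
    ring
  have h2 : ∑ i, ∑ k, (c i k : ZMod 3) * bet l1 l2 (x i) (x k) =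
      ∑ i, ∑ k, (c i k : ZMod 3) * F i k - ∑ i, ∑ k, (c i k : ZMod 3) * F k i := by
    rw [← Finset.sum_sub_distrib]
    refine Finset.sum_congr rfl fun i _ => ?_
    rw [← Finset.sum_sub_distrib]
    refine Finset.sum_congr rfl fun k _ => ?_
    simp only [hF, bet]
    ring
  have h3 : qf l1 l2 l3 n c x = ∑ i, (n i : ZMod 3) * lam l1 l2 l3 (x i) +
      ∑ i, ∑ k, (c i k : ZMod 3) * F i k := rfl
  rw [h3, h2]
  linear_combination h1

theorem qf_tr (l1 l2 l3 : ZMod 3) : ∃ k : Fin 12, ∀ (r : ℕ) (n : Fin r → ℤ)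
    (c : Fin r → Fin r → ℤ), (∀ i k, (c i k : ZMod 3) = - (c k i : ZMod 3)) →
    ∀ x : Fin r → M729, qf l1 l2 l3 n c (fun i => tr (mats k) (x i)) = - qf l1 l2 l3 n c x := by
  obtain ⟨k, h1, h2⟩ := exists_tr l1 l2 l3
  refine ⟨k, fun r n c hc x => ?_⟩
  have e1 := two_qf l1 l2 l3 (n := n) hc x
  have e2 := two_qf l1 l2 l3 (n := n) hc (fun i => tr (mats k) (x i))
  simp only [h1, h2] at e2
  have e3 : ∑ i, (n i : ZMod 3) * (- lam l1 l2 l3 (x i)) =
      - ∑ i, (n i : ZMod 3) * lam l1 l2 l3 (x i) := by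
    rw [← Finset.sum_neg_distrib]
    exact Finset.sum_congr rfl fun i _ => by ring
  have e4 : ∑ i, ∑ j, (c i j : ZMod 3) * (- bet l1 l2 (x i) (x j)) =
      - ∑ i, ∑ j, (c i j : ZMod 3) * bet l1 l2 (x i) (x j) := by
    rw [← Finset.sum_neg_distrib]
    refine Finset.sum_congr rfl fun i _ => ?_
    rw [← Finset.sum_neg_distrib]
    exact Finset.sum_congr rfl fun j _ => by ring
  rw [e3, e4] at e2
  have h4 : (4 : ZMod 3) = 1 := by decide
  have e5 : 2 * (2 * qf l1 l2 l3 n c (fun i => tr (mats k) (x i))) =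
      2 * (2 * (- qf l1 l2 l3 n c x)) := by
    linear_combination 2 * e2 + 2 * e1
  linear_combination e5 - (qf l1 l2 l3 n c (fun i => tr (mats k) (x i)) + qf l1 l2 l3 n c x) * h4

theorem neg_two : ∀ k : ZMod 3, -k = 2 • k := by decide

/-- sums of cube roots of unity over an odd function -/
theorem sum_rational {α : Type*} [Fintype α] (ev : AddChar (ZMod 3) ℂ) (q : α → ZMod 3)
    (T : α → α) (hT : Function.Involutive T) (hq : ∀ x, q (T x) = - q x) :
    ∃ N : ℤ, 2 * ∑ x, (starRingEnd ℂ) (ev (q x)) = N := by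
  have hint : ∀ k : ZMod 3, ∃ t : ℤ, ev k + ev (-k) = t := by
    intro k
    have h3 : ev k ^ 3 = 1 := by
      rw [← AddChar.map_nsmul_eq_pow]
      have : (3 : ℕ) • k = 0 := by
        revert k; decide
      rw [this, AddChar.map_zero_eq_one]
    have hneg : ev (-k) = ev k ^ 2 := by
      rw [← AddChar.map_nsmul_eq_pow, neg_two k]
    rw [hneg]
    by_cases h1 : ev k = 1
    · exact ⟨2, by rw [h1]; norm_num⟩
    · refine ⟨-1, ?_⟩
      have : (ev k - 1) * (ev k + ev k ^ 2 + 1) = 0 := by linear_combination h3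
      rcases mul_eq_zero.1 this with h | h
      · exact absurd (sub_eq_zero.1 h) h1
      · push_cast; linear_combination h
  choose t ht using hint
  have h1 : ∑ x, ev (q x) = ∑ x, ev (- q x) := by
    rw [← Equiv.sum_comp hT.toPerm]
    exact Finset.sum_congr rfl fun x _ => by
      rw [Function.Involutive.coe_toPerm, hq]
  have h2 : 2 * ∑ x, ev (q x) = ((∑ x, t (q x) : ℤ) : ℂ) := by
    rw [two_mul]
    nth_rewrite 2 [h1]
    rw [← Finset.sum_add_distrib]
    push_cast
    exact Finset.sum_congr rfl fun x _ => ht _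
  refine ⟨∑ x, t (q x), ?_⟩
  rw [← map_sum]
  have h3 := congrArg (starRingEnd ℂ) h2
  rw [map_mul, map_ofNat, map_intCast] at h3
  exact h3

/-- sums of additive homomorphisms -/
theorem sum_hom_card (f : M729 →* ℂ) : ∃ k : ℤ, ∑ g, f g = 729 * k := by
  classical
  by_cases h : f = 1
  · refine ⟨1, ?_⟩
    rw [h]
    have : Fintype.card M729 = 729 := by rw [← Nat.card_eq_fintype_card, card_eq]
    simp [this]
  · exact ⟨0, by rw [sum_hom_units_eq_zero f h]; simp⟩

theorem decomp (g : M729) : g = U ^ g.a.val * W ^ g.b.val * V ^ g.c.val := by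
  have hU : ∀ n : ℕ, U ^ n = ⟨n, 0, 0⟩ := by
    intro n
    induction n with
    | zero => rw [pow_zero]; ext <;> simp
    | succ n ih => rw [pow_succ, ih]; ext <;> simp [U]
  have hW : ∀ n : ℕ, W ^ n = ⟨0, n, 0⟩ := by
    intro n
    induction n with
    | zero => rw [pow_zero]; ext <;> simp
    | succ n ih => rw [pow_succ, ih]; ext <;> simp [W]
  have hV : ∀ n : ℕ, V ^ n = ⟨0, 0, n⟩ := by
    intro n
    induction n with
    | zero => rw [pow_zero]; ext <;> simp
    | succ n ih => rw [pow_succ, ih]; ext <;> simp [V]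
  rw [hU, hW, hV]
  ext <;> simp

theorem red_val (a : ZMod 9) : ((a.val : ℕ) : ZMod 3) = red a := by
  revert a; decide

/-- The action of the cubes in an irreducible representation. -/
theorem cubes_scalar {n : ℕ} (ρ : Representation ℂ M729 (Fin n → ℂ)) (hρ : ρ.IsIrreducible) :
    ∃ (ev : AddChar (ZMod 3) ℂ) (l1 l2 l3 : ZMod 3),
      ∀ g v, ρ (g ^ 3) v = ev (lam l1 l2 l3 g) • v := by
  have hcent : ∀ g : M729, ∃ c : ℂ, ∀ v, ρ (g ^ 3) v = c • v := by
    intro g
    apply schur ρ hρ
    intro h v
    rw [← Module.End.mul_apply, ← Module.End.mul_apply, ← map_mul, ← map_mul, cube_central]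
  choose om hom using hcent
  have hV := nontrivial_of_irreducible ρ hρ
  obtain ⟨v0, hv0⟩ := exists_ne (0 : Fin n → ℂ)
  have huniq : ∀ {c d : ℂ}, c • v0 = d • v0 → c = d := by
    intro c d h
    exact smul_left_injective ℂ hv0 h
  let OM : M729 →* ℂ :=
    { toFun := om
      map_one' := by
        apply huniq
        rw [← hom]; simp
      map_mul' := fun g h => by
        apply huniq
        rw [← hom, mul_cube, map_mul, Module.End.mul_apply, hom, hom, smul_smul] }
  have hOM3 : ∀ g, OM g ^ 3 = 1 := by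
    intro g
    apply huniq
    rw [← map_pow]
    change om (g ^ 3) • v0 = _
    rw [← hom, cube_cube]; simp
  have hζ := Complex.isPrimitiveRoot_exp 3 (by norm_num)
  set ζ := Complex.exp (2 * Real.pi * Complex.I / (3 : ℕ)) with hζdef
  have hex : ∀ g, ∃ l : ZMod 3, OM g = AddChar.zmodChar 3 hζ.pow_eq_one l := by
    intro g
    obtain ⟨i, hi, hi2⟩ := hζ.eq_pow_of_pow_eq_one (hOM3 g)
    refine ⟨(i : ZMod 3), ?_⟩
    rw [AddChar.zmodChar_apply', hi2]
  obtain ⟨l1, h1⟩ := hex U
  obtain ⟨l2, h2⟩ := hex W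
  obtain ⟨l3, h3⟩ := hex V
  refine ⟨AddChar.zmodChar 3 hζ.pow_eq_one, l1, l2, l3, fun g v => ?_⟩
  rw [hom]
  congr 1
  change OM g = _
  conv_lhs => rw [decomp g]
  rw [map_mul, map_mul, map_pow, map_pow, map_pow, h1, h2, h3, ← AddChar.map_nsmul_eq_pow,
    ← AddChar.map_nsmul_eq_pow, ← AddChar.map_nsmul_eq_pow, ← AddChar.map_add_eq_mul,
    ← AddChar.map_add_eq_mul]
  congr 1
  simp only [lam, nsmul_eq_mul, red_val]
  ring

/-- The group `M729` is semi-rational. -/
theorem semirational (hr : 1 ≤ r) (w : FreeGroup (Fin r)) {n : ℕ}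
    (ρ : Representation ℂ M729 (Fin n → ℂ)) (hρ : ρ.IsIrreducible) :
    ∃ k : ℤ, (Nat.card M729 : ℂ)⁻¹ *
      ∑ x : Fin r → M729, (starRingEnd ℂ) (ρ.character (FreeGroup.lift x w)) = k := by
  classical
  obtain ⟨m, c, hmc⟩ := word_form w
  by_cases hm : ∃ i, ¬ (3 : ℤ) ∣ m i
  · -- the word map is uniform
    obtain ⟨i, hi⟩ := hm
    obtain ⟨N, hN⟩ := sum_of_unit w hmc i hi (fun g => (starRingEnd ℂ) (ρ.character g))
    rw [hN]
    obtain ⟨k, hk⟩ : ∃ k : ℤ, ∑ g : M729, ρ.character g = (Nat.card M729 : ℂ) * k := by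
      set S : (Fin n → ℂ) →ₗ[ℂ] (Fin n → ℂ) := ∑ g : M729, ρ g with hS
      have hST : LinearMap.trace ℂ _ S = ∑ g : M729, ρ.character g := by
        rw [hS, map_sum]; rfl
      have hleft : ∀ h v, ρ h (S v) = S v := by
        intro h v
        rw [hS, LinearMap.sum_apply, map_sum, ← Equiv.sum_comp (Equiv.mulLeft h)
          (fun g => ρ g v)]
        refine Finset.sum_congr rfl fun g _ => ?_
        rw [Equiv.coe_mulLeft, map_mul, Module.End.mul_apply]
      have hright : ∀ h v, S (ρ h v) = S v := by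
        intro h v
        rw [hS, LinearMap.sum_apply, LinearMap.sum_apply, ← Equiv.sum_comp (Equiv.mulRight h)
          (fun g => ρ g v)]
        refine Finset.sum_congr rfl fun g _ => ?_
        rw [Equiv.coe_mulRight, map_mul, Module.End.mul_apply]
      obtain ⟨s, hs⟩ := schur ρ hρ S (fun g v => by rw [hleft, hright])
      by_cases hs0 : s = 0
      · refine ⟨0, ?_⟩
        rw [← hST]
        have : S = 0 := by ext v; simp [hs, hs0]
        rw [this]; simp
      · refine ⟨n, ?_⟩
        have hone : ∀ g, ρ g = 1 := by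
          intro g
          apply LinearMap.ext
          intro v
          have := hright g v
          rw [hs, hs] at this
          exact smul_right_injective _ hs0 this
        have hchar : ∀ g, ρ.character g = n := by
          intro g
          change LinearMap.trace ℂ _ (ρ g) = n
          rw [hone]; simp
        simp only [hchar]
        rw [Finset.sum_const, Finset.card_univ, Nat.card_eq_fintype_card, nsmul_eq_mul]
        push_cast; ring
    refine ⟨N * k, ?_⟩
    rw [← map_sum, hk, map_mul]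
    have h0 : (Nat.card M729 : ℂ) ≠ 0 := by rw [card_eq]; norm_num
    simp only [map_natCast, map_intCast]
    field_simp
    push_cast; ring
  · push Not at hm
    choose nn hnn using hm
    obtain ⟨hc, hf⟩ := hmc
    have hc3 : ∀ i k, (c i k : ZMod 3) = - (c k i : ZMod 3) := by
      intro i k
      have h1 := congrArg (fun z : ℤ => (z : ZMod 3)) (hc i k)
      have h3 : ((3 : ℤ) : ZMod 3) = 0 := by decide
      simp only [hnn i, hnn k] at h1
      push_cast at h1
      have h3' : (3 : ZMod 3) = 0 := by decide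
      split_ifs at h1
      · simp only [h3'] at h1
        linear_combination h1
      · simp only [h3'] at h1
        linear_combination h1
    obtain ⟨ev, l1, l2, l3, hev⟩ := cubes_scalar ρ hρ
    have hchar : ∀ x : Fin r → M729, ρ.character (FreeGroup.lift x w) =
        n * ev (qf l1 l2 l3 nn c x) := by
      intro x
      obtain ⟨a1, b1, c1⟩ := hf x
      set w' : M729 := ⟨∑ i, (nn i : ZMod 9) * (x i).a - ∑ i, ∑ k, (c i k : ZMod 9) * ((x i).b * (x k).a),
        ∑ i, (nn i : ZMod 9) * (x i).b + ∑ i, ∑ k, (c i k : ZMod 9) * ((x i).c * (x k).b),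
        ∑ i, (nn i : ZMod 9) * (x i).c⟩ with hw'
      have hlin : ∀ f : M729 → ZMod 9, ∑ i, (m i : ZMod 9) * f (x i) =
          3 * ∑ i, (nn i : ZMod 9) * f (x i) := by
        intro f
        rw [Finset.mul_sum]
        refine Finset.sum_congr rfl fun i _ => ?_
        rw [hnn i]; push_cast; ring
      have hw : FreeGroup.lift x w = w' ^ 3 := by
        rw [cube]
        ext
        · rw [a1, hlin M729.a, hw']
          ring
        · rw [b1, hlin M729.b, hw']
          ring
        · rw [c1, hlin M729.c, hw']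
      have hq : lam l1 l2 l3 w' = qf l1 l2 l3 nn c x := by
        simp only [lam, qf, hw', map_sub, map_add, map_sum, map_mul, map_intCast]
        rw [mul_sub, mul_add]
        have e1 : ∑ i, (nn i : ZMod 3) * (l1 * red (x i).a + l2 * red (x i).b + l3 * red (x i).c) =
            l1 * ∑ i, (nn i : ZMod 3) * red (x i).a + l2 * ∑ i, (nn i : ZMod 3) * red (x i).b +
              l3 * ∑ i, (nn i : ZMod 3) * red (x i).c := by
          rw [Finset.mul_sum, Finset.mul_sum, Finset.mul_sum, ← Finset.sum_add_distrib,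
            ← Finset.sum_add_distrib]
          exact Finset.sum_congr rfl fun i _ => by ring
        have e2 : ∑ i, ∑ k, (c i k : ZMod 3) *
            (-l1 * (red (x i).b * red (x k).a) + l2 * (red (x i).c * red (x k).b)) =
            -(l1 * ∑ i, ∑ k, (c i k : ZMod 3) * (red (x i).b * red (x k).a)) +
              l2 * ∑ i, ∑ k, (c i k : ZMod 3) * (red (x i).c * red (x k).b) := by
          rw [Finset.mul_sum, Finset.mul_sum, ← Finset.sum_neg_distrib, ← Finset.sum_add_distrib]
          refine Finset.sum_congr rfl fun i _ => ?_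
          rw [Finset.mul_sum, Finset.mul_sum, ← Finset.sum_neg_distrib, ← Finset.sum_add_distrib]
          exact Finset.sum_congr rfl fun k _ => by ring
        rw [e1, e2]
        ring
      rw [hw]
      change LinearMap.trace ℂ _ (ρ (w' ^ 3)) = _
      have hs : ρ (w' ^ 3) = ev (lam l1 l2 l3 w') • LinearMap.id := by
        apply LinearMap.ext
        intro v
        rw [hev]; rfl
      rw [hs, map_smul, LinearMap.trace_id, hq]
      simp [mul_comm]
    simp only [hchar, map_mul, map_natCast]
    rw [← Finset.mul_sum]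
    obtain ⟨kk, hkk⟩ := qf_tr l1 l2 l3
    have hinv : Function.Involutive (fun (x : Fin r → M729) (i : Fin r) => tr (mats kk) (x i)) := by
      intro x
      funext i
      exact tr_tr kk (x i)
    obtain ⟨N, hN⟩ := sum_rational ev (qf l1 l2 l3 nn c) _ hinv (hkk r nn c hc3)
    rcases Nat.lt_or_ge 1 r with hr2 | hr1
    · -- at least two letters
      have hint := word_sum_isIntegral w (by omega) ρ
      simp only [hchar, map_mul, map_natCast] at hint
      rw [← Finset.mul_sum] at hint
      have hq : (Nat.card M729 : ℂ)⁻¹ * ((n : ℂ) * ∑ x, (starRingEnd ℂ) (ev (qf l1 l2 l3 nn c x))) =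
          ((((n : ℚ) * N) / (2 * 729) : ℚ) : ℂ) := by
        rw [card_eq]
        push_cast
        rw [← hN]
        field_simp
      rw [hq] at hint ⊢
      obtain ⟨k, hk⟩ := exists_int_of_isIntegral hint
      exact ⟨k, by rw [hk]; simp⟩
    · -- one letter
      obtain rfl : r = 1 := by omega
      let f : M729 →* ℂ :=
        { toFun := fun g => ev ((nn 0 : ZMod 3) * lam l1 l2 l3 g)
          map_one' := by
            have : lam l1 l2 l3 1 = 0 := by simp [lam]
            rw [this, mul_zero, AddChar.map_zero_eq_one]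
          map_mul' := fun g h => by
            rw [lam_mul, mul_add, AddChar.map_add_eq_mul] }
      obtain ⟨k, hk⟩ := sum_hom_card f
      refine ⟨n * k, ?_⟩
      have hc0 : (c 0 0 : ZMod 3) = 0 := by
        have := hc3 0 0
        have h2 : ∀ z : ZMod 3, z = -z → z = 0 := by decide
        exact h2 _ this
      have hsum : ∑ x : Fin 1 → M729, (starRingEnd ℂ) (ev (qf l1 l2 l3 nn c x)) =
          (starRingEnd ℂ) (∑ g, f g) := by
        rw [map_sum, ← Equiv.sum_comp (Equiv.funUnique (Fin 1) M729).symm]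
        refine Finset.sum_congr rfl fun g _ => ?_
        congr 1
        change ev _ = ev _
        congr 1
        simp [qf, hc0]
      rw [hsum, hk, map_mul, card_eq]
      simp only [map_intCast]
      push_cast
      have : (starRingEnd ℂ) (729 : ℂ) = 729 := map_ofNat _ _
      rw [this]
      field_simp

end M729

end Q18
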