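import Mathlib
import Pool.Agent.Q2.TN.Stm

/-! Project TN (helper2), job B2 (helper18): Sylow subgroups are conjugate by the centralizer of their intersection. -/

set_option autoImplicit false

namespace Q18.TN_B2

open Subgroup Q2.TN
open scoped Pointwise

/-- normalizers grow in a `p`-group -/
theorem grow {p : ℕ} [Fact p.Prime] {G : Type} [Group G] [Finite G] (P D : Subgroup G) (hP : IsPGroup p P) (hD : D < P) :
    ∃ x ∈ P, x ∈ normalizer (D : Set G) ∧ x ∉ D := by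
  have hnil : Group.IsNilpotent P := hP.isNilpotent
  have hlt : D.subgroupOf P < ⊤ := by
    rw [lt_top_iff_ne_top]
    intro h
    rw [subgroupOf_eq_top] at h
    exact hD.not_ge h
  have h2 := Group.normalizerCondition_of_isNilpotent (D.subgroupOf P) hlt
  obtain ⟨x, hx1, hx2⟩ := SetLike.exists_of_lt h2
  refine ⟨x, x.2, ?_, fun h => hx2 (by rwa [mem_subgroupOf])⟩
  rw [mem_normalizer_iff] at hx1 ⊢
  intro y
  constructor
  · intro hy
    have := (hx1 ⟨y, hD.le hy⟩).1 (by rw [mem_subgroupOf]; exact hy)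
    rw [mem_subgroupOf] at this
    exact this
  · intro hy
    have hyP : y ∈ P := by
      have h3 : (x : G)⁻¹ * ((x : G) * y * (x : G)⁻¹) * x ∈ P :=
        P.mul_mem (P.mul_mem (P.inv_mem x.2) (hD.le hy)) x.2
      have h4 : (x : G)⁻¹ * ((x : G) * y * (x : G)⁻¹) * x = y := by group
      rwa [h4] at h3
    have := (hx1 ⟨y, hyP⟩).2 (by rw [mem_subgroupOf]; exact hy)
    rw [mem_subgroupOf] at this
    exact this

/-- a normal subgroup of `p`-power index is transitive on the Sylow subgroups -/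
theorem conjO {p : ℕ} [hp : Fact p.Prime] {N : Type} [Group N] [Finite N] (O : Subgroup N) (hOn : O.Normal) (k : ℕ)
    (hOk : O.index = p ^ k) (T₁ T₂ : Sylow p N) : ∃ o ∈ O, o • T₁ = T₂ := by
  obtain ⟨m, hm⟩ := MulAction.exists_smul_eq N T₁ T₂
  have h1 : (O ⊔ (T₁ : Subgroup N)).index ∣ O.index := index_dvd_of_le le_sup_left
  have h2 : (O ⊔ (T₁ : Subgroup N)).index ∣ (T₁ : Subgroup N).index := index_dvd_of_le le_sup_right
  rw [hOk] at h1
  obtain ⟨i, -, hi⟩ := (Nat.dvd_prime_pow hp.out).1 h1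
  have htop : O ⊔ (T₁ : Subgroup N) = ⊤ := by
    rw [← index_eq_one, hi]
    rcases Nat.eq_zero_or_pos i with h0 | h0
    · rw [h0, pow_zero]
    · exfalso
      refine T₁.not_dvd_index (dvd_trans ?_ h2)
      rw [hi]
      exact dvd_pow_self p h0.ne'
  have hmem : m ∈ ((O ⊔ (T₁ : Subgroup N) : Subgroup N) : Set N) := by
    rw [htop]
    exact mem_top m
  rw [normal_mul] at hmem
  obtain ⟨o, ho, t, ht, hot⟩ := hmem
  refine ⟨o, ho, ?_⟩
  have h1 : t • T₁ = T₁ := Sylow.smul_eq_iff_mem_normalizer.2 (le_normalizer ht)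
  have hot' : o * t = m := hot
  rw [← hm, ← hot', mul_smul, h1]

/-- the normal `p`-complement of `N` commutes with normal `p`-subgroups -/
theorem comO {p : ℕ} [hp : Fact p.Prime] {N : Type} [Group N] [Finite N] (O D : Subgroup N) (hOn : O.Normal) (hDn : D.Normal)
    (hOc : (Nat.card O).Coprime p) (hD : IsPGroup p D) : ∀ o ∈ O, ∀ d ∈ D, d * o = o * d := by
  intro o ho d hd
  have hdis : Disjoint D O := by
    refine disjoint_of_coprime_natCard ?_
    obtain ⟨m, hm⟩ := hD.exists_card_eq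
    rw [hm]
    exact (Nat.Coprime.pow_right m hOc).symm
  exact (Subgroup.commute_of_normal_of_disjoint D O hDn hOn hdis d o hd ho).eq

theorem main {p : ℕ} [hp : Fact p.Prime] {G : Type} [Group G] [Finite G]
    (hG : ∀ U : Subgroup G, IsPGroup p U → U ≠ ⊥ → IsPNil p (Nm U)) :
    ∀ (n : ℕ) (P S : Sylow p G), Nat.card G - Nat.card ((P : Subgroup G) ⊓ S : Subgroup G) = n →
      ∃ c ∈ centralizer (((P : Subgroup G) ⊓ S : Subgroup G) : Set G), c • P = S := by
  intro n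
  induction n using Nat.strong_induction_on with
  | _ n ih =>
    intro P S hn
    by_cases hPS : P = S
    · exact ⟨1, one_mem _, by rw [one_smul, hPS]⟩
    obtain ⟨D, hDdef⟩ : ∃ D : Subgroup G, D = (P : Subgroup G) ⊓ S := ⟨_, rfl⟩
    rw [← hDdef] at hn ⊢
    by_cases hD0 : D = ⊥
    · obtain ⟨c, hc⟩ := MulAction.exists_smul_eq G P S
      refine ⟨c, ?_, hc⟩
      rw [hD0, mem_centralizer_iff]
      intro h hh
      have : h = 1 := by simpa using hh
      rw [this, one_mul, mul_one]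
    have hDleP : D ≤ P := hDdef ▸ inf_le_left
    have hDleS : D ≤ S := hDdef ▸ inf_le_right
    have hDP : D < P := by
      refine lt_of_le_of_ne hDleP fun h => hPS ?_
      have : (P : Subgroup G) ≤ S := h ▸ hDleS
      exact Sylow.ext (P.3 S.2 this).symm
    have hDS : D < S := by
      refine lt_of_le_of_ne hDleS fun h => hPS ?_
      have : (S : Subgroup G) ≤ P := h ▸ hDleP
      exact Sylow.ext (S.3 P.2 this)
    have hDp : IsPGroup p D := P.2.to_le hDleP
    obtain ⟨N, hN⟩ : ∃ N : Subgroup G, N = Nm D := ⟨_, rfl⟩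
    have hNil : IsPNil p N := hN ▸ hG D hDp hD0
    obtain ⟨O, hOn, hOc, k, hOk⟩ := hNil
    have hDN : D ≤ N := hN ▸ le_normalizer
    have hn2 : (D.subgroupOf N).Normal := by
      rw [hN]
      exact normal_in_normalizer
    have hDNp : IsPGroup p (D.subgroupOf N) := hDp.comap_of_injective N.subtype N.subtype_injective
    have hcom : ∀ o ∈ O, ∀ d ∈ D, d * (o : G) = (o : G) * d := by
      intro o ho d hd
      have := comO O (D.subgroupOf N) hOn hn2 hOc hDNp o ho ⟨d, hDN hd⟩ (by rw [mem_subgroupOf]; exact hd)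
      exact congrArg (Subtype.val) this
    have hPN : IsPGroup p ((P : Subgroup G).subgroupOf N) :=
      P.2.comap_of_injective N.subtype N.subtype_injective
    have hSN : IsPGroup p ((S : Subgroup G).subgroupOf N) :=
      S.2.comap_of_injective N.subtype N.subtype_injective
    obtain ⟨T₁, hT₁⟩ := hPN.exists_le_sylow
    obtain ⟨T₂, hT₂⟩ := hSN.exists_le_sylow
    obtain ⟨o, ho, hoT⟩ := conjO O hOn k hOk T₁ T₂
    -- Sylow subgroups of `G`
    have hT₁p : IsPGroup p ((T₁ : Subgroup N).map N.subtype) := T₁.2.map _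
    obtain ⟨P₁, hP₁⟩ := hT₁p.exists_le_sylow
    have hP₁mem : ∀ x ∈ P, x ∈ N → x ∈ P₁ := fun x hx hxN =>
      hP₁ ⟨⟨x, hxN⟩, hT₁ (by rw [mem_subgroupOf]; exact hx), rfl⟩
    have hS₁mem : ∀ x ∈ S, x ∈ N → x ∈ (((o : G) • P₁ : Sylow p G) : Subgroup G) := by
      intro x hx hxN
      have h1 : (⟨x, hxN⟩ : N) ∈ T₂ := hT₂ (by rw [mem_subgroupOf]; exact hx)
      rw [← hoT] at h1
      have h2 : (⟨x, hxN⟩ : N) ∈ ((o • T₁ : Sylow p N) : Subgroup N) := h1
      rw [Sylow.coe_subgroup_smul] at h2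
      obtain ⟨y, hy, hyx⟩ := h2
      have h3 : (o : G) * y * (o : G)⁻¹ = x := by
        have := congrArg Subtype.val hyx
        simpa using this
      have h4 : (y : G) ∈ P₁ := hP₁ ⟨y, hy, rfl⟩
      rw [Sylow.coe_subgroup_smul]
      exact ⟨y, h4, by simpa using h3⟩
    -- the cardinalities
    have hcard : ∀ X : Subgroup G, D ≤ X → (∃ x ∈ X, x ∉ D) → Nat.card G - Nat.card X < n := by
      intro X hX ⟨x, hx, hxD⟩
      have hlt : D < X := lt_of_le_of_ne hX fun h => hxD (h ▸ hx)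
      have h1 : Nat.card D < Nat.card X := by
        refine lt_of_le_of_ne (card_le_of_le hX) fun h => ?_
        exact hlt.ne (eq_of_le_of_card_ge hX h.ge)
      have h2 := card_le_card_group X
      omega
    have hDPP : D ≤ (P : Subgroup G) ⊓ P₁ := fun x hx => ⟨hDleP hx, hP₁mem x (hDleP hx) (hDN hx)⟩
    have hDSS : D ≤ (((o : G) • P₁ : Sylow p G) : Subgroup G) ⊓ S :=
      fun x hx => ⟨hS₁mem x (hDleS hx) (hDN hx), hDleS hx⟩
    obtain ⟨x₁, hx₁P, hx₁N, hx₁D⟩ := grow (P : Subgroup G) D P.2 hDP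
    obtain ⟨x₂, hx₂S, hx₂N, hx₂D⟩ := grow (S : Subgroup G) D S.2 hDS
    have hx₁N' : x₁ ∈ N := hN ▸ hx₁N
    have hx₂N' : x₂ ∈ N := hN ▸ hx₂N
    obtain ⟨c₁, hc₁, hc₁'⟩ := ih _ (hcard _ hDPP ⟨x₁, ⟨hx₁P, hP₁mem x₁ hx₁P hx₁N'⟩, hx₁D⟩) P P₁ rfl
    obtain ⟨c₂, hc₂, hc₂'⟩ := ih _ (hcard _ hDSS ⟨x₂, ⟨hS₁mem x₂ hx₂S hx₂N', hx₂S⟩, hx₂D⟩) ((o : G) • P₁) S rfl
    refine ⟨c₂ * (o : G) * c₁, ?_, by rw [mul_smul, mul_smul, hc₁', hc₂']⟩
    have e1 : c₁ ∈ centralizer (D : Set G) := centralizer_le hDPP hc₁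
    have e2 : c₂ ∈ centralizer (D : Set G) := centralizer_le hDSS hc₂
    have e3 : (o : G) ∈ centralizer (D : Set G) := mem_centralizer_iff.2 fun d hd => hcom o ho d hd
    exact mul_mem (mul_mem e2 e3) e1

theorem b2 : S_B2 := by
  intro p hp G _ _ hG P S hP hS
  have : Fact p.Prime := ⟨hp⟩
  obtain ⟨c, hc, hcS⟩ := main hG _ (hP.1.toSylow hP.2) (hS.1.toSylow hS.2) rfl
  refine ⟨c, hc, ?_⟩
  have h := congrArg (fun T : Sylow p G => (T : Subgroup G)) hcS
  exact h

end Q18.TN_B2
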