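import Mathlib
import Pool.Agent.Q2.TN.Stm

/-! Project TN (helper2), job M12 (helper18). -/

set_option autoImplicit false

namespace Q18.TN_M12

open Subgroup Q2.TN

/-- a subgroup `B` of the `p`-group `P` with `|P| ≤ p |B|` contains the commutator subgroup -/
theorem comm_le {p : ℕ} [hp : Fact p.Prime] {P : Type} [Group P] [Finite P] (hP : IsPGroup p P) (B : Subgroup P)
    (hB : Nat.card P ≤ p * Nat.card B) (a b : P) : a * b * a⁻¹ * b⁻¹ ∈ B := by
  obtain ⟨n, hn⟩ := hP.exists_card_eq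
  have hmul := B.card_mul_index
  have hdvd : B.index ∣ p ^ n := hn ▸ B.index_dvd_card
  obtain ⟨i, hin, hi⟩ := (Nat.dvd_prime_pow hp.out).1 hdvd
  have hpos : 0 < Nat.card B := Nat.card_pos
  have hle : B.index ≤ p := by
    rw [← hmul, mul_comm] at hB
    exact Nat.le_of_mul_le_mul_right hB hpos
  have h2 : 2 ≤ p := hp.out.two_le
  have hi1 : i ≤ 1 := by
    by_contra h
    have : p ^ 2 ≤ p ^ i := Nat.pow_le_pow_right (by omega) (by omega)
    rw [← hi] at this
    nlinarith
  interval_cases i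
  · rw [pow_zero, index_eq_one] at hi
    rw [hi]
    exact mem_top _
  · rw [pow_one] at hi
    have hmf : (Nat.card P).minFac = p := by
      rw [hn]
      have hn0 : n ≠ 0 := by omega
      rw [Nat.pow_minFac hn0, hp.out.minFac_eq]
    have hnorm : B.Normal := normal_of_index_eq_minFac_card (by rw [hi, hmf])
    have hcyc : IsCyclic (P ⧸ B) := isCyclic_of_prime_card (p := p) (by rw [← hi]; rfl)
    have hcomm : ∀ x y : P ⧸ B, x * y = y * x := fun x y => by
      let _ := hcyc.commGroup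
      exact mul_comm x y
    rw [← QuotientGroup.eq_one_iff]
    have h1 : ((a * b * a⁻¹ * b⁻¹ : P) : P ⧸ B) = (a : P ⧸ B) * b * (a : P ⧸ B)⁻¹ * (b : P ⧸ B)⁻¹ := rfl
    rw [h1, hcomm a b]
    group

theorem m12 : S_M12 := by
  intro p hp G _ _ P hP y hy hyp ⟨g, hg, hyg⟩
  have : Fact p.Prime := ⟨hp⟩
  have hy1 : y ≠ 1 := by
    intro h
    rw [h, one_mul, mul_one] at hyg
    exact hyg rfl
  have hcard : Nat.card (zpowers y) = p := by
    rw [Nat.card_zpowers]
    exact orderOf_eq_prime hyp hy1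
  refine ⟨hcard, ?_⟩
  rintro ⟨B, hBP, hprod, hlast⟩
  have hyB : y ∉ B := fun h => hyg (hlast y (mem_zpowers y) h g hg)
  have hcardP : Nat.card P ≤ p * Nat.card B := by
    rw [← hcard, ← Nat.card_prod]
    have hch : ∀ x : P, ∃ hb : zpowers y × B, (x : G) = hb.1 * hb.2 := fun x => by
      obtain ⟨h, hh, b, hb, he⟩ := hprod x x.2
      exact ⟨(⟨h, hh⟩, ⟨b, hb⟩), he⟩
    choose f hf using hch
    refine Nat.card_le_card_of_injective f fun x x' h => ?_
    apply Subtype.ext
    rw [hf x, hf x', h]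
  have hcardB : Nat.card (B.subgroupOf P) = Nat.card B := Nat.card_congr (subgroupOfEquivOfLe hBP).toEquiv
  apply hyB
  have hle : ⁅P, P⁆ ≤ B := by
    rw [commutator_le]
    intro a ha b hb
    have := comm_le hP (B.subgroupOf P) (by rw [hcardB]; exact hcardP) ⟨a, ha⟩ ⟨b, hb⟩
    rw [mem_subgroupOf] at this
    exact this
  exact hle hy

end Q18.TN_M12
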