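import Mathlib

/-!
# A uniformly factor-balanced word of superlinear complexity: the construction

The bits, the rows, the types, the blocks, recognizability and the count of factors.
The paper proof is due to another seat of the team (helper160).
-/

namespace Pool.Agent.Q18.UFB

/-- half of the size parameter of level `k` -/
def P (k : ℕ) : ℕ := 2 ^ (k + 10)

/-- number of types of level `k` -/
def N (k : ℕ) : ℕ := 2 ^ (2 * (k + 10))

/-- number of slots of level `k` -/
def J (k : ℕ) : ℕ := 4 * k + 44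

/-- length of the blocks of level `k` -/
def h : ℕ → ℕ
  | 0 => 1
  | k + 1 => N k * h k

theorem N_eq (k : ℕ) : N k = P k * P k := by
  unfold N P
  rw [← pow_add]
  congr 1
  ring

theorem J_P (k : ℕ) : 2 * J k + 2 ≤ P k := by
  unfold J P
  induction k with
  | zero => norm_num
  | succ k ih =>
    have : 2 ^ (k + 1 + 10) = 2 * 2 ^ (k + 10) := by ring
    rw [this]
    omega

theorem P_pos (k : ℕ) : 0 < P k := by
  have := J_P k
  omega

theorem P_big (k : ℕ) : 90 ≤ P k := by
  have := J_P k
  unfold J at this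
  omega

theorem QJ (k : ℕ) : (2 * P k + 1) * J k + P k + 6 < N k := by
  rw [N_eq]
  have h1 := J_P k
  have h2 : (2 * J k + 2) * P k ≤ P k * P k := Nat.mul_le_mul_right _ h1
  have h3 : (2 * P k + 1) * J k + P k + 6 = (2 * J k + 1) * P k + J k + 6 := by ring
  have h4 : (2 * J k + 2) * P k = (2 * J k + 1) * P k + P k := by ring
  have h5 := P_big k
  rw [h3]
  have h6 : J k ≥ 44 := by unfold J; omega
  omega

theorem QJ' (k j : ℕ) (hj : j ≤ J k) : (2 * P k + 1) * j + P k + 6 < N k := by
  have := QJ k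
  have h2 : (2 * P k + 1) * j ≤ (2 * P k + 1) * J k := Nat.mul_le_mul_left _ hj
  omega

theorem N_big (k : ℕ) : 90 < N k := by
  have := QJ k
  have := P_big k
  omega

theorem N_pos (k : ℕ) : 0 < N k := by
  have := N_big k
  omega

theorem h_pos (k : ℕ) : 0 < h k := by
  induction k with
  | zero => simp [h]
  | succ k ih => exact Nat.mul_pos (N_pos k) ih

theorem h_ge (k : ℕ) : k < h k := by
  induction k with
  | zero => simp [h]
  | succ k ih =>
    have h1 : h (k + 1) = N k * h k := rfl
    have h2 := N_big k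
    have h3 : 2 * h k ≤ N k * h k := Nat.mul_le_mul_right _ (by omega)
    omega

/-! ### bits -/

/-- the bits -/
def bt : ℕ → ℕ → Bool
  | 0, m => decide (m % 2 = 1)
  | i + 1, m => xor (bt i m) (bt i (m / 2))

theorem bt_flip (i m : ℕ) : bt i (2 * m + 1) = !(bt i (2 * m)) := by
  induction i with
  | zero =>
    have h1 : (2 * m + 1) % 2 = 1 := by omega
    have h2 : (2 * m) % 2 = 0 := by omega
    simp [bt, h1, h2]
  | succ i ih =>
    have h1 : (2 * m + 1) / 2 = m := by omega
    have h2 : (2 * m) / 2 = m := by omega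
    simp only [bt, h1, h2, ih]
    cases bt i (2 * m) <;> cases bt i m <;> rfl

theorem bt_exists_unique (i : ℕ) (r : ℕ) : ∀ (c : ℕ) (e : ℕ → Bool),
    ∃! m, (2 ^ r * c ≤ m ∧ m < 2 ^ r * (c + 1)) ∧ ∀ l < r, bt (i + l) m = e l := by
  induction r with
  | zero =>
    intro c e
    refine ⟨c, ⟨by simp, by simp⟩, ?_⟩
    rintro m ⟨⟨h1, h2⟩, -⟩
    simp at h1 h2
    omega
  | succ r ih =>
    intro c e
    obtain ⟨m', ⟨⟨hm1, hm2⟩, he⟩, hu⟩ := ih c (fun l => xor (e l) (e (l + 1)))
    have e1 : 2 ^ (r + 1) * c = 2 * (2 ^ r * c) := by ring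
    have e2 : 2 ^ (r + 1) * (c + 1) = 2 * (2 ^ r * (c + 1)) := by ring
    have key : ∀ m, m / 2 = m' → bt i m = e 0 → ∀ l < r + 1, bt (i + l) m = e l := by
      intro m h1 h2 l
      induction l with
      | zero => intro _; simpa using h2
      | succ l ihl =>
        intro hl
        have h3 := ihl (by omega)
        have h4 := he l (by omega)
        have h5 : bt (i + (l + 1)) m = xor (bt (i + l) m) (bt (i + l) (m / 2)) := rfl
        rw [h5, h3, h1, h4]
        cases e l <;> cases e (l + 1) <;> rfl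
    have exm : ∃ m, m / 2 = m' ∧ bt i m = e 0 := by
      by_cases h0 : bt i (2 * m') = e 0
      · exact ⟨2 * m', by omega, h0⟩
      · refine ⟨2 * m' + 1, by omega, ?_⟩
        rw [bt_flip]
        revert h0
        cases bt i (2 * m') <;> cases e 0 <;> simp
    obtain ⟨m, hm, hbm⟩ := exm
    refine ⟨m, ⟨⟨by rw [e1]; omega, by rw [e2]; omega⟩, key m hm hbm⟩, ?_⟩
    rintro y ⟨⟨hy1, hy2⟩, hy⟩
    rw [e1] at hy1
    rw [e2] at hy2
    have hy' : y / 2 = m' := by
      apply hu
      refine ⟨⟨by omega, by omega⟩, ?_⟩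
      intro l hl
      have h1 := hy l (by omega)
      have h2 := hy (l + 1) (by omega)
      have h5 : bt (i + (l + 1)) y = xor (bt (i + l) y) (bt (i + l) (y / 2)) := rfl
      rw [h5, h1] at h2
      rw [← h2]
      cases e l <;> cases bt (i + l) (y / 2) <;> rfl
    have h0 := hy 0 (by omega)
    simp only [add_zero] at h0
    by_contra hne
    have hcase : (y = 2 * m' ∧ m = 2 * m' + 1) ∨ (y = 2 * m' + 1 ∧ m = 2 * m') := by omega
    rcases hcase with ⟨ha, hb⟩ | ⟨ha, hb⟩
    · rw [hb, bt_flip] at hbm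
      rw [ha] at h0
      rw [h0] at hbm
      revert hbm
      cases e 0 <;> simp
    · rw [hb] at hbm
      rw [ha, bt_flip, hbm] at h0
      revert h0
      cases e 0 <;> simp

theorem bt_zero_mod (r : ℕ) : ∀ m m' : ℕ,
    (∀ l < r, bt l m = bt l m') ↔ m % 2 ^ r = m' % 2 ^ r := by
  induction r with
  | zero => intro m m'; simp [Nat.mod_one]
  | succ r ih =>
    intro m m'
    have hp : 2 ^ (r + 1) = 2 * 2 ^ r := by ring
    have hmod : m % 2 ^ (r + 1) = m' % 2 ^ (r + 1) ↔
        m % 2 = m' % 2 ∧ (m / 2) % 2 ^ r = (m' / 2) % 2 ^ r := by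
      rw [hp, Nat.mod_mul, Nat.mod_mul]
      omega
    rw [hmod, ← ih]
    have hz : bt 0 m = bt 0 m' ↔ m % 2 = m' % 2 := by
      simp only [bt, decide_eq_decide]
      omega
    rw [← hz]
    constructor
    · intro H
      refine ⟨H 0 (by omega), ?_⟩
      intro l hl
      have h1 := H l (by omega)
      have h2 := H (l + 1) (by omega)
      simp only [bt] at h2
      rw [h1] at h2
      revert h2
      cases bt l m' <;> cases bt l (m / 2) <;> cases bt l (m' / 2) <;> simp
    · rintro ⟨H0, H⟩ l
      induction l with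
      | zero => intro _; exact H0
      | succ l ihl =>
        intro hl
        have h1 := ihl (by omega)
        have h2 := H l (by omega)
        simp only [bt]
        rw [h1, h2]

/-! ### rows -/

/-- the bit of slot `j` for the type `z` -/
def sb (k z j : ℕ) : Bool := decide (1 ≤ j ∧ j ≤ J k) && bt (min (j - 1) (J k - j)) z

/-- the rows of the type `z` -/
def row (k z m : ℕ) : ℕ :=
  if sb k z (m / (2 * P k + 1)) = true ∧ m % (2 * P k + 1) = 0 then m + P k
  else if sb k z (m / (2 * P k + 1)) = true ∧ m % (2 * P k + 1) = P k then m - P k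
  else m

theorem sb_le {k z j : ℕ} (hs : sb k z j = true) : 1 ≤ j ∧ j ≤ J k := by
  unfold sb at hs
  simp only [Bool.and_eq_true, decide_eq_true_eq] at hs
  exact hs.1

theorem row_lt {k z m : ℕ} (hm : m < N k) : row k z m < N k := by
  unfold row
  split_ifs with h1 h2
  · obtain ⟨hs, h0⟩ := h1
    have hj := sb_le hs
    have := QJ' k _ hj.2
    have h3 := Nat.div_add_mod m (2 * P k + 1)
    omega
  · omega
  · exact hm

/-- swap rows -/
def Sw (k p : ℕ) : Prop :=
  (1 ≤ (p % N k) / (2 * P k + 1) ∧ (p % N k) / (2 * P k + 1) ≤ J k) ∧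
    ((p % N k) % (2 * P k + 1) = 0 ∨ (p % N k) % (2 * P k + 1) = P k)

theorem row_of_not_sw {k p : ℕ} (hp : ¬ Sw k p) (z : ℕ) : row k z (p % N k) = p % N k := by
  unfold row
  split_ifs with h1 h2
  · exact absurd ⟨sb_le h1.1, Or.inl h1.2⟩ hp
  · exact absurd ⟨sb_le h2.1, Or.inr h2.2⟩ hp
  · rfl

theorem sw_gap {k p e : ℕ} (h0 : 0 < e) (he : e ≤ 6) (hp : Sw k p) : ¬ Sw k (p + e) := by
  obtain ⟨⟨h1, h2⟩, h3⟩ := hp
  have hb := QJ' k _ h2
  have hd := Nat.div_add_mod (p % N k) (2 * P k + 1)
  have hP := P_big k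
  have hm : (p + e) % N k = p % N k + e := by
    rw [Nat.add_mod, Nat.mod_eq_of_lt (a := e) (by have := N_big k; omega)]
    apply Nat.mod_eq_of_lt
    rcases h3 with h3 | h3 <;> omega
  rintro ⟨-, h5⟩
  rw [hm] at h5
  have h6 : p % N k + e = (2 * P k + 1) * ((p % N k) / (2 * P k + 1)) +
      ((p % N k) % (2 * P k + 1) + e) := by omega
  rw [h6, Nat.mul_add_mod, Nat.mod_eq_of_lt (by rcases h3 with h3 | h3 <;> omega)] at h5
  rcases h3 with h3 | h3 <;> rw [h3] at h5 <;> omega

theorem sb_of {k z j : ℕ} (h1 : 1 ≤ j) (h2 : j ≤ J k) :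
    sb k z j = bt (min (j - 1) (J k - j)) z := by
  unfold sb
  simp [h1, h2]

theorem row_a {k z j : ℕ} : row k z ((2 * P k + 1) * j) =
    if sb k z j = true then (2 * P k + 1) * j + P k else (2 * P k + 1) * j := by
  have hq : 0 < 2 * P k + 1 := by omega
  have hP := P_big k
  unfold row
  rw [Nat.mul_div_cancel_left _ hq, Nat.mul_mod_right]
  by_cases hs : sb k z j = true
  · simp [hs]
  · simp [hs]

theorem row_b {k z j : ℕ} : row k z ((2 * P k + 1) * j + P k) =
    if sb k z j = true then (2 * P k + 1) * j else (2 * P k + 1) * j + P k := by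
  have hq : 0 < 2 * P k + 1 := by omega
  have hP := P_big k
  unfold row
  rw [Nat.mul_add_div hq, Nat.mul_add_mod, Nat.mod_eq_of_lt (by omega : P k < 2 * P k + 1),
    Nat.div_eq_of_lt (by omega : P k < 2 * P k + 1)]
  by_cases hs : sb k z j = true
  · have : ¬ (P k = 0) := by omega
    simp [hs, this]
  · simp [hs]

/-! ### types and blocks -/

/-- the type sequences -/
def tau (k p : ℕ) : ℕ :=
  if _h : p = 0 then 0 else row k (tau (k + 1) (p / N k)) (p % N k)
termination_by p
decreasing_by exact Nat.div_lt_self (Nat.pos_of_ne_zero _h) (by have := N_big k; omega)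

theorem row_zero (k z : ℕ) : row k z 0 = 0 := by
  have := @row_a k z 0
  simp only [mul_zero, zero_add] at this
  rw [this, if_neg]
  intro hs
  have := sb_le hs
  omega

theorem tau_eq (k p : ℕ) : tau k p = row k (tau (k + 1) (p / N k)) (p % N k) := by
  by_cases hp : p = 0
  · subst hp
    rw [tau]
    simp only [dite_true, Nat.zero_mod]
    rw [row_zero]
  · conv_lhs => rw [tau]
    simp only [hp, dite_false]

theorem tau_lt (k p : ℕ) : tau k p < N k := by
  rw [tau_eq]
  exact row_lt (Nat.mod_lt _ (N_pos k))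

theorem tau_mul_add (k b m : ℕ) (hm : m < N k) :
    tau k (N k * b + m) = row k (tau (k + 1) b) m := by
  rw [tau_eq, Nat.mul_add_div (N_pos k), Nat.mul_add_mod, Nat.mod_eq_of_lt hm,
    Nat.div_eq_of_lt hm, add_zero]

theorem tau_of_not_sw {k p : ℕ} (hp : ¬ Sw k p) : tau k p = p % N k := by
  rw [tau_eq, row_of_not_sw hp]

/-- the blocks -/
def W : ℕ → ℕ → ℕ → ℕ
  | 0, t, _ => t
  | k + 1, t, y => W k (row k t (y / h k)) (y % h k)

theorem tau_block (k : ℕ) : ∀ p o : ℕ, o < h k → tau 0 (h k * p + o) = W k (tau k p) o := by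
  induction k with
  | zero =>
    intro p o ho
    have : o = 0 := by simp [h] at ho; exact ho
    subst this
    simp [h, W]
  | succ k ih =>
    intro p o ho
    have h1 : h (k + 1) = N k * h k := rfl
    have h2 := Nat.div_add_mod o (h k)
    have h3 : o / h k < N k := by
      rw [Nat.div_lt_iff_lt_mul (h_pos k)]
      rw [h1] at ho
      exact ho
    have h4 : h (k + 1) * p + o = h k * (N k * p + o / h k) + o % h k := by
      rw [h1, mul_add]
      have : N k * h k * p = h k * (N k * p) := by ring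
      omega
    rw [h4, ih _ _ (Nat.mod_lt _ (h_pos k)), tau_mul_add k p _ h3]
    rfl

theorem W_succ (k t m o : ℕ) (ho : o < h k) : W (k + 1) t (h k * m + o) = W k (row k t m) o := by
  have : W (k + 1) t (h k * m + o) =
    W k (row k t ((h k * m + o) / h k)) ((h k * m + o) % h k) := rfl
  rw [this, Nat.mul_add_div (h_pos k), Nat.mul_add_mod, Nat.mod_eq_of_lt ho,
    Nat.div_eq_of_lt ho, add_zero]

theorem row_pos_lt {k m o : ℕ} (hm : m < N k) (ho : o < h k) : h k * m + o < h (k + 1) := by
  have h1 : h (k + 1) = N k * h k := rfl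
  have h2 : (m + 1) * h k ≤ N k * h k := Nat.mul_le_mul_right _ hm
  have h3 : (m + 1) * h k = h k * m + h k := by ring
  omega

theorem W_inj (k : ℕ) : ∀ t t' : ℕ, t < N k → t' < N k →
    (∀ y < h k, W k t y = W k t' y) → t = t' := by
  induction k with
  | zero =>
    intro t t' _ _ H
    exact H 0 (by simp [h])
  | succ k ih =>
    intro t t' ht ht' H
    have hrow : ∀ m < N k, row k t m = row k t' m := by
      intro m hm
      apply ih _ _ (row_lt hm) (row_lt hm)
      intro o ho
      have := H (h k * m + o) (row_pos_lt hm ho)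
      rwa [W_succ _ _ _ _ ho, W_succ _ _ _ _ ho] at this
    have hbit : ∀ l < 2 * (k + 1 + 10), bt l t = bt l t' := by
      intro l hl
      have hJ : l + 1 ≤ J k := by unfold J; omega
      have hb := QJ' k _ hJ
      have h1 := hrow ((2 * P k + 1) * (l + 1)) (by omega)
      rw [row_a, row_a] at h1
      have hP := P_big k
      have h2 : sb k t (l + 1) = sb k t' (l + 1) := by
        cases hs : sb k t (l + 1) <;> cases hs' : sb k t' (l + 1)
        · rfl
        · rw [hs, hs'] at h1
          simp at h1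
          omega
        · rw [hs, hs'] at h1
          simp at h1
          omega
        · rfl
      rw [sb_of (by omega) hJ, sb_of (by omega) hJ] at h2
      have h3 : min (l + 1 - 1) (J k - (l + 1)) = l := by
        unfold J
        omega
      rwa [h3] at h2
    have := (bt_zero_mod (2 * (k + 1 + 10)) t t').1 hbit
    have e1 : t % 2 ^ (2 * (k + 1 + 10)) = t := Nat.mod_eq_of_lt ht
    have e2 : t' % 2 ^ (2 * (k + 1 + 10)) = t' := Nat.mod_eq_of_lt ht'
    rw [e1, e2] at this
    exact this

/-! ### recognizability -/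

theorem exists_both {k p p' : ℕ} : ∃ e ≤ 2, ¬ Sw k (p + e) ∧ ¬ Sw k (p' + e) := by
  by_cases h0 : Sw k (p + 0)
  · by_cases h1 : Sw k (p' + 1)
    · refine ⟨2, le_refl _, ?_, ?_⟩
      · have := sw_gap (e := 2) (by omega) (by omega) h0
        simpa using this
      · have := sw_gap (e := 1) (by omega) (by omega) h1
        simpa [add_assoc] using this
    · refine ⟨1, by omega, ?_, h1⟩
      have := sw_gap (e := 1) (by omega) (by omega) h0
      simpa using this
  · by_cases h1 : Sw k (p' + 0)
    · by_cases h2 : Sw k (p + 1)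
      · refine ⟨2, le_refl _, ?_, ?_⟩
        · have := sw_gap (e := 1) (by omega) (by omega) h2
          simpa [add_assoc] using this
        · have := sw_gap (e := 2) (by omega) (by omega) h1
          simpa using this
      · refine ⟨1, by omega, h2, ?_⟩
        have := sw_gap (e := 1) (by omega) (by omega) h1
        simpa using this
    · exact ⟨0, by omega, h0, h1⟩

theorem mod_of_tau {k p p' : ℕ} (H : ∀ e ≤ 2, tau k (p + e) = tau k (p' + e)) :
    p ≡ p' [MOD N k] := by
  obtain ⟨e, he, h1, h2⟩ := @exists_both k p p'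
  have := H e he
  rw [tau_of_not_sw h1, tau_of_not_sw h2] at this
  have h3 : p + e ≡ p' + e [MOD N k] := this
  exact Nat.ModEq.add_right_cancel' e h3

theorem recog_aux {k i i' : ℕ} (hm : i ≡ i' [MOD h k])
    (H : ∀ t < 4 * h k, tau 0 (i + t) = tau 0 (i' + t)) : i ≡ i' [MOD h (k + 1)] := by
  have hk := h_pos k
  -- the shift to the next block start
  set s := (h k - i % h k) % h k with hs
  have hs1 : s < h k := Nat.mod_lt _ hk
  have hdvd : ∀ j : ℕ, j % h k = i % h k → h k ∣ j + s := by
    intro j hj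
    have h1 := Nat.div_add_mod j (h k)
    have h2 := Nat.mod_lt j hk
    by_cases h0 : i % h k = 0
    · have : s = 0 := by rw [hs, h0]; simp
      rw [this, add_zero]
      exact Nat.dvd_of_mod_eq_zero (by rw [hj, h0])
    · have : s = h k - i % h k := by
        rw [hs]
        apply Nat.mod_eq_of_lt
        omega
      refine ⟨j / h k + 1, ?_⟩
      rw [mul_add]
      omega
  obtain ⟨p, hp⟩ := hdvd i rfl
  obtain ⟨p', hp'⟩ := hdvd i' hm.symm
  have key : ∀ e ≤ 2, tau k (p + e) = tau k (p' + e) := by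
    intro e he
    apply W_inj k _ _ (tau_lt _ _) (tau_lt _ _)
    intro y hy
    rw [← tau_block k _ _ hy, ← tau_block k _ _ hy]
    have h3 : h k * e ≤ h k * 2 := Nat.mul_le_mul_left _ he
    have h1 : h k * (p + e) + y = i + (s + h k * e + y) := by
      rw [mul_add, ← hp]
      ring
    have h2 : h k * (p' + e) + y = i' + (s + h k * e + y) := by
      rw [mul_add, ← hp']
      ring
    rw [h1, h2]
    apply H
    omega
  have h1 := mod_of_tau key
  have h2 : h k * p ≡ h k * p' [MOD h k * N k] := Nat.ModEq.mul_left' _ h1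
  rw [← hp, ← hp'] at h2
  have h3 : h k * N k = h (k + 1) := by
    have : h (k + 1) = N k * h k := rfl
    rw [this, mul_comm]
  rw [h3] at h2
  exact Nat.ModEq.add_right_cancel' s h2

theorem recog (k : ℕ) : ∀ i i' : ℕ,
    (∀ t < 4 * h k, tau 0 (i + t) = tau 0 (i' + t)) → i ≡ i' [MOD h (k + 1)] := by
  induction k with
  | zero =>
    intro i i' H
    apply recog_aux _ H
    have : h 0 = 1 := rfl
    rw [this]
    exact Nat.modEq_one
  | succ k ih =>
    intro i i' H
    apply recog_aux _ H
    apply ih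
    intro t ht
    apply H
    have h1 : h (k + 1) = N k * h k := rfl
    have h2 : 1 * h k ≤ N k * h k := Nat.mul_le_mul_right _ (N_pos k)
    omega

end Pool.Agent.Q18.UFB
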