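import Pool.Agent.Q18.UFB1

/-!
# Discrepancy

Functions on the natural numbers with bounded deviation from a linear function.
-/

namespace Pool.Agent.Q18.UFB

open Finset

/-- bounded discrepancy -/
def BD (f : ℕ → ℝ) (D : ℝ) : Prop :=
  ∃ d : ℝ, ∀ M : ℕ, |∑ c ∈ range M, f c - d * M| ≤ D

open Classical in
/-- indicator -/
noncomputable def ind (p : ℕ → Prop) (c : ℕ) : ℝ := if p c then 1 else 0

theorem ind_pos {p : ℕ → Prop} {c : ℕ} (hp : p c) : ind p c = 1 := if_pos hp

theorem ind_neg {p : ℕ → Prop} {c : ℕ} (hp : ¬ p c) : ind p c = 0 := if_neg hp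

theorem ind_nonneg (p : ℕ → Prop) (c : ℕ) : 0 ≤ ind p c := by
  unfold ind
  split_ifs <;> norm_num

theorem ind_le_one (p : ℕ → Prop) (c : ℕ) : ind p c ≤ 1 := by
  unfold ind
  split_ifs <;> norm_num

theorem ind_congr {p q : ℕ → Prop} {c : ℕ} (hpq : p c ↔ q c) : ind p c = ind q c := by
  unfold ind
  by_cases hp : p c
  · rw [if_pos hp, if_pos (hpq.1 hp)]
  · rw [if_neg hp, if_neg (fun hq => hp (hpq.2 hq))]

theorem BD.congr {f g : ℕ → ℝ} {D : ℝ} (hf : BD f D) (hfg : ∀ c, f c = g c) : BD g D := by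
  have : f = g := funext hfg
  rwa [← this]

theorem BD.mono {f : ℕ → ℝ} {D E : ℝ} (hf : BD f D) (hDE : D ≤ E) : BD f E := by
  obtain ⟨d, hd⟩ := hf
  exact ⟨d, fun M => (hd M).trans hDE⟩

theorem BD.add {f g : ℕ → ℝ} {D E : ℝ} (hf : BD f D) (hg : BD g E) :
    BD (fun c => f c + g c) (D + E) := by
  obtain ⟨d, hd⟩ := hf
  obtain ⟨e, he⟩ := hg
  refine ⟨d + e, fun M => ?_⟩
  rw [sum_add_distrib]
  have : ∑ c ∈ range M, f c + ∑ c ∈ range M, g c - (d + e) * M =
    (∑ c ∈ range M, f c - d * M) + (∑ c ∈ range M, g c - e * M) := by ring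
  rw [this]
  exact (abs_add_le _ _).trans (add_le_add (hd M) (he M))

theorem BD.sub {f g : ℕ → ℝ} {D E : ℝ} (hf : BD f D) (hg : BD g E) :
    BD (fun c => f c - g c) (D + E) := by
  obtain ⟨d, hd⟩ := hf
  obtain ⟨e, he⟩ := hg
  refine ⟨d - e, fun M => ?_⟩
  rw [sum_sub_distrib]
  have : ∑ c ∈ range M, f c - ∑ c ∈ range M, g c - (d - e) * M =
    (∑ c ∈ range M, f c - d * M) - (∑ c ∈ range M, g c - e * M) := by ring
  rw [this]
  exact (abs_sub _ _).trans (add_le_add (hd M) (he M))

theorem BD_const (a : ℝ) : BD (fun _ => a) 0 := by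
  refine ⟨a, fun M => ?_⟩
  simp
  rw [mul_comm, sub_self]

theorem BD_sum {ι : Type*} (R : Finset ι) (f : ι → ℕ → ℝ) (D : ℝ)
    (hf : ∀ ρ ∈ R, BD (f ρ) D) : BD (fun c => ∑ ρ ∈ R, f ρ c) (R.card * D) := by
  classical
  induction R using Finset.induction_on with
  | empty =>
    simp only [sum_empty, card_empty, Nat.cast_zero, zero_mul]
    exact BD_const 0
  | insert a R ha ih =>
    have h1 := hf a (mem_insert_self _ _)
    have h2 := ih (fun ρ hρ => hf ρ (mem_insert_of_mem hρ))
    have h3 := h1.add h2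
    have h4 : D + (R.card : ℝ) * D = ((insert a R).card : ℝ) * D := by
      rw [card_insert_of_notMem ha]
      push_cast
      ring
    rw [h4] at h3
    apply h3.congr
    intro c
    rw [sum_insert ha]

theorem slope_le {g : ℕ → ℝ} {d D : ℝ} (hg0 : ∀ c, 0 ≤ g c) (hg1 : ∀ c, g c ≤ 1)
    (hd : ∀ M : ℕ, |∑ c ∈ range M, g c - d * M| ≤ D) : |d| ≤ 1 := by
  have hs1 : ∀ M : ℕ, ∑ c ∈ range M, g c ≤ M := by
    intro M
    calc ∑ c ∈ range M, g c ≤ ∑ c ∈ range M, (1 : ℝ) := sum_le_sum (fun c _ => hg1 c)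
      _ = M := by simp
  have hs0 : ∀ M : ℕ, 0 ≤ ∑ c ∈ range M, g c := fun M => sum_nonneg (fun c _ => hg0 c)
  rw [abs_le]
  constructor
  · by_contra hlt
    push Not at hlt
    obtain ⟨M, hM⟩ := exists_nat_gt (D / (-d))
    have hd0 : 0 < -d := by linarith
    rw [div_lt_iff₀ hd0] at hM
    have h1 := hd M
    rw [abs_le] at h1
    have := hs0 M
    nlinarith [h1.2]
  · by_contra hlt
    push Not at hlt
    obtain ⟨M, hM⟩ := exists_nat_gt (D / (d - 1))
    have hd0 : 0 < d - 1 := by linarith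
    rw [div_lt_iff₀ hd0] at hM
    have h1 := hd M
    rw [abs_le] at h1
    have := hs1 M
    nlinarith [h1.1]

theorem sum_class (g : ℕ → ℝ) {H r : ℕ} (hr : r < H) (M : ℕ) :
    ∑ c ∈ range M, (if c % H = r then g (c / H) else 0) =
      ∑ b ∈ range ((M + (H - 1 - r)) / H), g b := by
  induction M with
  | zero =>
    have : (0 + (H - 1 - r)) / H = 0 := Nat.div_eq_of_lt (by omega)
    rw [this]
    simp
  | succ M ih =>
    rw [sum_range_succ, ih]
    have h1 : M + 1 + (H - 1 - r) = M + (H - 1 - r) + 1 := by ring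
    have hdm := Nat.div_add_mod M H
    have hml := Nat.mod_lt M (by omega : 0 < H)
    rw [h1, Nat.succ_div]
    by_cases hc : M % H = r
    · have h2 : M + (H - 1 - r) + 1 = H * (M / H + 1) := by
        rw [mul_add]
        omega
      have h3 : H ∣ M + (H - 1 - r) + 1 := ⟨_, h2⟩
      have h4 : (M + (H - 1 - r)) / H = M / H := by
        have : M + (H - 1 - r) = H * (M / H) + (H - 1) := by omega
        rw [this, Nat.mul_add_div (by omega : 0 < H), Nat.div_eq_of_lt (by omega : H - 1 < H), add_zero]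
      rw [if_pos hc, if_pos h3, sum_range_succ, h4]
    · have h3 : ¬ H ∣ M + (H - 1 - r) + 1 := by
        rintro ⟨x, hx⟩
        apply hc
        have h5 : M + H = H * x + r := by omega
        have h6 : (M + H) % H = (H * x + r) % H := by rw [h5]
        rw [Nat.add_mod_right, Nat.mul_add_mod, Nat.mod_eq_of_lt hr] at h6
        exact h6
      rw [if_neg hc, if_neg h3, add_zero, add_zero]

theorem BD_class {g : ℕ → ℝ} {D : ℝ} (hg0 : ∀ c, 0 ≤ g c) (hg1 : ∀ c, g c ≤ 1)
    (hg : BD g D) {H r : ℕ} (hr : r < H) :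
    BD (fun c => if c % H = r then g (c / H) else 0) (D + 1) := by
  obtain ⟨d, hd⟩ := hg
  have hd1 := slope_le hg0 hg1 hd
  refine ⟨d / H, fun M => ?_⟩
  rw [sum_class g hr]
  set M' := (M + (H - 1 - r)) / H with hM'
  have h1 := hd M'
  have hH : (0 : ℝ) < H := by
    have : 0 < H := by omega
    exact_mod_cast this
  have hdm := Nat.div_add_mod (M + (H - 1 - r)) H
  have hml := Nat.mod_lt (M + (H - 1 - r)) (by omega : 0 < H)
  rw [← hM'] at hdm
  have h2 : H * M' ≤ M + H := by omega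
  have h3 : M ≤ H * M' + H := by omega
  have h2' : (H : ℝ) * M' ≤ M + H := by exact_mod_cast h2
  have h3' : (M : ℝ) ≤ H * M' + H := by exact_mod_cast h3
  have h4 : |(M' : ℝ) - M / H| ≤ 1 := by
    rw [abs_le]
    constructor
    · rw [neg_le_sub_iff_le_add, div_le_iff₀ hH]
      nlinarith
    · rw [sub_le_iff_le_add, ← sub_le_iff_le_add', le_div_iff₀ hH]
      nlinarith
  have h5 : ∑ b ∈ range M', g b - d / H * M =
    (∑ b ∈ range M', g b - d * M') + d * (M' - M / H) := by
    field_simp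
    ring
  rw [h5]
  calc |(∑ b ∈ range M', g b - d * M') + d * (M' - M / H)|
      ≤ |∑ b ∈ range M', g b - d * M'| + |d * (M' - M / H)| := abs_add_le _ _
    _ ≤ D + 1 := by
      rw [abs_mul]
      have : |d| * |(M' : ℝ) - M / H| ≤ 1 * 1 :=
        mul_le_mul hd1 h4 (abs_nonneg _) zero_le_one
      linarith

/-! ### sets with one element in each dyadic interval -/

theorem sum_one {r : ℕ} {G : ℕ → Prop}
    (hG : ∀ e, ∃! m, (2 ^ r * e ≤ m ∧ m < 2 ^ r * (e + 1)) ∧ G m) (e : ℕ) :
    ∑ c ∈ range (2 ^ r * e), ind G c = e := by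
  induction e with
  | zero => simp
  | succ e ih =>
    have h1 : 2 ^ r * (e + 1) = 2 ^ r * e + 2 ^ r := by ring
    rw [h1, sum_range_add, ih]
    obtain ⟨m, ⟨⟨hm1, hm2⟩, hm⟩, hu⟩ := hG e
    rw [h1] at hm2
    have h2 : ∑ x ∈ range (2 ^ r), ind G (2 ^ r * e + x) = 1 := by
      rw [sum_eq_single (m - 2 ^ r * e)]
      · apply ind_pos
        rwa [Nat.add_sub_cancel' hm1]
      · intro b hb hne
        apply ind_neg
        intro hb'
        apply hne
        rw [mem_range] at hb
        have := hu (2 ^ r * e + b) ⟨⟨by omega, by rw [h1]; omega⟩, hb'⟩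
        omega
      · intro hb
        exfalso
        apply hb
        rw [mem_range]
        omega
    rw [h2]
    push_cast
    ring

theorem sum_one_disc {r : ℕ} {G : ℕ → Prop}
    (hG : ∀ e, ∃! m, (2 ^ r * e ≤ m ∧ m < 2 ^ r * (e + 1)) ∧ G m) (M : ℕ) :
    |∑ c ∈ range M, ind G c - 1 / (2 : ℝ) ^ r * M| ≤ 1 := by
  have h2r : 0 < 2 ^ r := by positivity
  set e := M / 2 ^ r with he
  have hdm := Nat.div_add_mod M (2 ^ r)
  have hml := Nat.mod_lt M h2r
  rw [← he] at hdm
  have h1 := sum_one hG e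
  have h2 := sum_one hG (e + 1)
  have h3 : ∑ c ∈ range (2 ^ r * e), ind G c ≤ ∑ c ∈ range M, ind G c := by
    apply sum_le_sum_of_subset_of_nonneg
    · intro x hx
      rw [mem_range] at hx ⊢
      omega
    · intro c _ _
      exact ind_nonneg G c
  have h4 : ∑ c ∈ range M, ind G c ≤ ∑ c ∈ range (2 ^ r * (e + 1)), ind G c := by
    apply sum_le_sum_of_subset_of_nonneg
    · intro x hx
      rw [mem_range] at hx ⊢
      rw [mul_add, mul_one]
      omega
    · intro c _ _
      exact ind_nonneg G c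
  rw [h1] at h3
  rw [h2] at h4
  push_cast at h4
  have h5 : (2 : ℝ) ^ r * e ≤ M := by
    have : 2 ^ r * e ≤ M := by omega
    exact_mod_cast this
  have h6 : (M : ℝ) ≤ 2 ^ r * (e + 1) := by
    have : M ≤ 2 ^ r * (e + 1) := by rw [mul_add, mul_one]; omega
    exact_mod_cast this
  have h2r' : (0 : ℝ) < 2 ^ r := by positivity
  have h7 : (e : ℝ) ≤ 1 / (2 : ℝ) ^ r * M := by
    rw [one_div, inv_mul_eq_div, le_div_iff₀ h2r']
    linarith
  have h8 : 1 / (2 : ℝ) ^ r * M ≤ e + 1 := by
    rw [one_div, inv_mul_eq_div, div_le_iff₀ h2r']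
    linarith
  rw [abs_le]
  constructor <;> linarith

theorem one_mod {r k : ℕ} (hr : r ≤ 2 * (k + 10)) {B : ℕ → Prop}
    (hB : ∀ e, ∃! m, (2 ^ r * e ≤ m ∧ m < 2 ^ r * (e + 1)) ∧ B m) (e : ℕ) :
    ∃! m, (2 ^ r * e ≤ m ∧ m < 2 ^ r * (e + 1)) ∧ B (m % N k) := by
  obtain ⟨w, hw⟩ : ∃ w, N k = 2 ^ r * w := by
    refine ⟨2 ^ (2 * (k + 10) - r), ?_⟩
    unfold N
    rw [← pow_add]
    congr 1
    omega
  have hN := N_pos k
  have hw0 : 0 < w := by
    rcases Nat.eq_zero_or_pos w with h0 | h0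
    · rw [h0] at hw; omega
    · exact h0
  have hdw := Nat.div_add_mod e w
  have hmw := Nat.mod_lt e hw0
  have hsplit : 2 ^ r * e = N k * (e / w) + 2 ^ r * (e % w) := by
    conv_lhs => rw [← hdw]
    rw [hw]
    ring
  have hin : 2 ^ r * (e % w + 1) ≤ N k := by
    rw [hw]
    exact Nat.mul_le_mul_left _ hmw
  have h1 : 2 ^ r * (e + 1) = N k * (e / w) + 2 ^ r * (e % w + 1) := by
    rw [mul_add, mul_one, hsplit]
    ring
  obtain ⟨m, ⟨⟨hm1, hm2⟩, hm⟩, hu⟩ := hB (e % w)
  have hmod : ∀ m' < N k, (N k * (e / w) + m') % N k = m' := by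
    intro m' hm'
    rw [Nat.mul_add_mod, Nat.mod_eq_of_lt hm']
  refine ⟨N k * (e / w) + m, ⟨⟨by rw [hsplit]; omega, by rw [h1]; omega⟩, ?_⟩, ?_⟩
  · rw [hmod m (by omega)]
    exact hm
  · rintro y ⟨⟨hy1, hy2⟩, hy⟩
    rw [hsplit] at hy1
    rw [h1] at hy2
    obtain ⟨y', rfl⟩ : ∃ y', y = N k * (e / w) + y' := ⟨y - N k * (e / w), by omega⟩
    rw [hmod y' (by omega)] at hy
    have := hu y' ⟨⟨by omega, by omega⟩, hy⟩
    rw [this]

/-! ### the potential of the swaps -/

/-- the potential -/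
noncomputable def pot (k : ℕ) (B : ℕ → Prop) (c : ℕ) : ℝ :=
  if sb k (tau (k + 1) (c / N k)) ((c % N k) / (2 * P k + 1)) = true ∧
      1 ≤ (c % N k) % (2 * P k + 1) ∧ (c % N k) % (2 * P k + 1) ≤ P k then
    ind B ((2 * P k + 1) * ((c % N k) / (2 * P k + 1)) + P k) -
      ind B ((2 * P k + 1) * ((c % N k) / (2 * P k + 1)))
  else 0

theorem pot_abs (k : ℕ) (B : ℕ → Prop) (c : ℕ) : |pot k B c| ≤ 1 := by
  unfold pot
  split_ifs
  · rw [abs_le]
    have h1 := ind_nonneg B ((2 * P k + 1) * ((c % N k) / (2 * P k + 1)) + P k)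
    have h2 := ind_le_one B ((2 * P k + 1) * ((c % N k) / (2 * P k + 1)) + P k)
    have h3 := ind_nonneg B ((2 * P k + 1) * ((c % N k) / (2 * P k + 1)))
    have h4 := ind_le_one B ((2 * P k + 1) * ((c % N k) / (2 * P k + 1)))
    constructor <;> linarith
  · simp

/-- the potential, in coordinates -/
noncomputable def pot' (k : ℕ) (B : ℕ → Prop) (z j s : ℕ) : ℝ :=
  if sb k z j = true ∧ 1 ≤ s ∧ s ≤ P k then
    ind B ((2 * P k + 1) * j + P k) - ind B ((2 * P k + 1) * j)
  else 0

theorem pot_eq (k : ℕ) (B : ℕ → Prop) (b j s : ℕ) (hs : s < 2 * P k + 1)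
    (hjs : (2 * P k + 1) * j + s < N k) :
    pot k B (N k * b + ((2 * P k + 1) * j + s)) = pot' k B (tau (k + 1) b) j s := by
  unfold pot pot'
  have h1 : (N k * b + ((2 * P k + 1) * j + s)) / N k = b := by
    rw [Nat.mul_add_div (N_pos k), Nat.div_eq_of_lt hjs, add_zero]
  have h2 : (N k * b + ((2 * P k + 1) * j + s)) % N k = (2 * P k + 1) * j + s := by
    rw [Nat.mul_add_mod, Nat.mod_eq_of_lt hjs]
  have h3 : ((2 * P k + 1) * j + s) / (2 * P k + 1) = j := by
    rw [Nat.mul_add_div (by omega), Nat.div_eq_of_lt hs, add_zero]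
  have h4 : ((2 * P k + 1) * j + s) % (2 * P k + 1) = s := by
    rw [Nat.mul_add_mod, Nat.mod_eq_of_lt hs]
  rw [h1, h2, h3, h4]

theorem pot_zero_of_ge (k : ℕ) (B : ℕ → Prop) (c : ℕ)
    (hc : J k < (c % N k) / (2 * P k + 1)) : pot k B c = 0 := by
  unfold pot
  rw [if_neg]
  rintro ⟨hs, -⟩
  have := sb_le hs
  omega

theorem pot_step (k : ℕ) (B : ℕ → Prop) (c : ℕ) :
    ind B (tau k c) - ind B (c % N k) = pot k B (c + 1) - pot k B c := by
  have hP := P_big k
  have hNp := N_pos k
  obtain ⟨b, j, s, hs, hjs, rfl⟩ : ∃ b j s, s < 2 * P k + 1 ∧ (2 * P k + 1) * j + s < N k ∧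
      c = N k * b + ((2 * P k + 1) * j + s) := by
    refine ⟨c / N k, (c % N k) / (2 * P k + 1), (c % N k) % (2 * P k + 1),
      Nat.mod_lt _ (by omega), ?_, ?_⟩
    · rw [Nat.div_add_mod]
      exact Nat.mod_lt _ hNp
    · rw [Nat.div_add_mod, Nat.div_add_mod]
  have hmod : (N k * b + ((2 * P k + 1) * j + s)) % N k = (2 * P k + 1) * j + s := by
    rw [Nat.mul_add_mod, Nat.mod_eq_of_lt hjs]
  rw [hmod, tau_mul_add k b _ hjs, pot_eq k B b j s hs hjs]
  set z := tau (k + 1) b with hz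
  by_cases hsb : sb k z j = true
  · have hj := sb_le hsb
    have hb := QJ' k j hj.2
    by_cases hs2 : s + 1 < 2 * P k + 1
    · have h1 : N k * b + ((2 * P k + 1) * j + s) + 1 =
        N k * b + ((2 * P k + 1) * j + (s + 1)) := by ring
      have h3 : s + 1 ≤ P k ∨ P k < s + 1 := by omega
      have h2 : pot k B (N k * b + ((2 * P k + 1) * j + (s + 1))) = pot' k B z j (s + 1) := by
        apply pot_eq k B b j (s + 1) hs2
        -- below N k
        have hPJ := J_P k
        have hN := N_eq k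
        have : (2 * P k + 1) * j + (s + 1) ≤ (2 * P k + 1) * (J k + 1) := by
          have h9 : (2 * P k + 1) * (j + 1) ≤ (2 * P k + 1) * (J k + 1) :=
            Nat.mul_le_mul_left _ (by omega)
          rw [mul_add, mul_one] at h9
          omega
        have h10 : (2 * P k + 1) * (J k + 1) = P k * (2 * J k + 2) + J k + 1 := by ring
        have h11 : P k * (2 * J k + 2) + P k ≤ P k * P k := by
          have : P k * (2 * J k + 2) + P k = P k * (2 * J k + 3) := by ring
          rw [this]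
          apply Nat.mul_le_mul_left
          -- 2 J + 3 ≤ P
          have hpar : P k % 2 = 0 := by
            unfold P
            rw [pow_succ]
            omega
          by_contra hlt
          push Not at hlt
          have : P k = 2 * J k + 2 := by omega
          have h12 : P k ≥ 2 * J k + 100 := by
            clear * -
            unfold J P
            induction k with
            | zero => norm_num
            | succ k ih =>
              have : 2 ^ (k + 1 + 10) = 2 * 2 ^ (k + 10) := by ring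
              rw [this]
              omega
          omega
        omega
      rw [h1, h2]
      unfold pot'
      by_cases h0 : s = 0
      · subst h0
        rw [add_zero, row_a, if_pos hsb]
        rw [if_pos ⟨hsb, by omega, by omega⟩, if_neg (by rintro ⟨-, h4, -⟩; omega)]
        ring
      · by_cases h5 : s = P k
        · subst h5
          rw [row_b, if_pos hsb]
          rw [if_neg (by rintro ⟨-, -, h4⟩; omega), if_pos ⟨hsb, by omega, le_refl _⟩]
          ring
        · have h6 : row k z ((2 * P k + 1) * j + s) = (2 * P k + 1) * j + s := by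
            unfold row
            rw [Nat.mul_add_mod, Nat.mod_eq_of_lt hs]
            rw [if_neg (by rintro ⟨-, h7⟩; exact h0 h7), if_neg (by rintro ⟨-, h7⟩; exact h5 h7)]
          rw [h6, sub_self]
          by_cases h8 : s < P k
          · rw [if_pos ⟨hsb, by omega, by omega⟩, if_pos ⟨hsb, by omega, by omega⟩]
            ring
          · rw [if_neg (by rintro ⟨-, -, h4⟩; omega), if_neg (by rintro ⟨-, -, h4⟩; omega)]
            ring
    · -- s = 2 P
      have hs3 : s = 2 * P k := by omega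
      have h6 : row k z ((2 * P k + 1) * j + s) = (2 * P k + 1) * j + s := by
        unfold row
        rw [Nat.mul_add_mod, Nat.mod_eq_of_lt hs]
        rw [if_neg (by rintro ⟨-, h7⟩; omega), if_neg (by rintro ⟨-, h7⟩; omega)]
      rw [h6, sub_self]
      have h7 : pot' k B z j s = 0 := by
        unfold pot'
        rw [if_neg (by rintro ⟨-, -, h4⟩; omega)]
      rw [h7, sub_zero]
      symm
      have h1 : N k * b + ((2 * P k + 1) * j + s) + 1 =
        N k * b + ((2 * P k + 1) * (j + 1) + 0) := by rw [hs3]; ring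
      rw [h1]
      by_cases hlt : (2 * P k + 1) * (j + 1) + 0 < N k
      · rw [pot_eq k B b (j + 1) 0 (by omega) hlt]
        unfold pot'
        rw [if_neg (by rintro ⟨-, h4, -⟩; omega)]
      · have h8 : (2 * P k + 1) * (j + 1) + 0 = N k := by
          have : (2 * P k + 1) * (j + 1) + 0 = (2 * P k + 1) * j + s + 1 := by rw [hs3]; ring
          omega
        have h9 : N k * b + ((2 * P k + 1) * (j + 1) + 0) = N k * (b + 1) + ((2 * P k + 1) * 0 + 0) := by
          rw [h8]; ring
        rw [h9, pot_eq k B (b + 1) 0 0 (by omega) (by omega)]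
        unfold pot'
        rw [if_neg (by rintro ⟨-, h4, -⟩; omega)]
  · -- no swap in this slot
    have h6 : row k z ((2 * P k + 1) * j + s) = (2 * P k + 1) * j + s := by
      unfold row
      rw [Nat.mul_add_mod, Nat.mod_eq_of_lt hs, Nat.mul_add_div (by omega), Nat.div_eq_of_lt hs,
        add_zero]
      rw [if_neg (by rintro ⟨h7, -⟩; exact hsb h7), if_neg (by rintro ⟨h7, -⟩; exact hsb h7)]
    rw [h6, sub_self]
    have h7 : pot' k B z j s = 0 := by
      unfold pot'
      rw [if_neg (by rintro ⟨h7, -⟩; exact hsb h7)]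
    rw [h7, sub_zero]
    symm
    by_cases hs2 : s + 1 < 2 * P k + 1
    · have h1 : N k * b + ((2 * P k + 1) * j + s) + 1 =
        N k * b + ((2 * P k + 1) * j + (s + 1)) := by ring
      rw [h1]
      by_cases hlt : (2 * P k + 1) * j + (s + 1) < N k
      · rw [pot_eq k B b j (s + 1) hs2 hlt]
        unfold pot'
        rw [if_neg (by rintro ⟨h7, -⟩; exact hsb h7)]
      · have h8 : (2 * P k + 1) * j + (s + 1) = N k := by omega
        have h9 : N k * b + ((2 * P k + 1) * j + (s + 1)) =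
            N k * (b + 1) + ((2 * P k + 1) * 0 + 0) := by
          rw [h8]; ring
        rw [h9, pot_eq k B (b + 1) 0 0 (by omega) (by omega)]
        unfold pot'
        rw [if_neg (by rintro ⟨-, h4, -⟩; omega)]
    · have hs3 : s = 2 * P k := by omega
      have h1 : N k * b + ((2 * P k + 1) * j + s) + 1 =
        N k * b + ((2 * P k + 1) * (j + 1) + 0) := by rw [hs3]; ring
      rw [h1]
      by_cases hlt : (2 * P k + 1) * (j + 1) + 0 < N k
      · rw [pot_eq k B b (j + 1) 0 (by omega) hlt]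
        unfold pot'
        rw [if_neg (by rintro ⟨-, h4, -⟩; omega)]
      · have h8 : (2 * P k + 1) * (j + 1) + 0 = N k := by
          have : (2 * P k + 1) * (j + 1) + 0 = (2 * P k + 1) * j + s + 1 := by rw [hs3]; ring
          omega
        have h9 : N k * b + ((2 * P k + 1) * (j + 1) + 0) = N k * (b + 1) + ((2 * P k + 1) * 0 + 0) := by
          rw [h8]; ring
        rw [h9, pot_eq k B (b + 1) 0 0 (by omega) (by omega)]
        unfold pot'
        rw [if_neg (by rintro ⟨-, h4, -⟩; omega)]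

theorem pot_sum (k : ℕ) (B : ℕ → Prop) (M : ℕ) :
    |∑ c ∈ range M, ind B (tau k c) - ∑ c ∈ range M, ind B (c % N k)| ≤ 1 := by
  rw [← sum_sub_distrib]
  have h1 : ∑ c ∈ range M, (ind B (tau k c) - ind B (c % N k)) = pot k B M - pot k B 0 := by
    rw [← sum_range_sub]
    exact sum_congr rfl (fun c _ => pot_step k B c)
  have h2 : pot k B 0 = 0 := by
    unfold pot
    rw [if_neg]
    rintro ⟨-, h4, -⟩
    simp at h4
  rw [h1, h2, sub_zero]
  exact pot_abs k B M

/-- **types in a set with one element in each dyadic interval** -/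
theorem BD_tau {r k : ℕ} (hr : r ≤ 2 * (k + 10)) {B : ℕ → Prop}
    (hB : ∀ e, ∃! m, (2 ^ r * e ≤ m ∧ m < 2 ^ r * (e + 1)) ∧ B m) :
    BD (ind (fun c => B (tau k c))) 2 := by
  refine ⟨1 / (2 : ℝ) ^ r, fun M => ?_⟩
  have h1 := sum_one_disc (fun e => one_mod hr hB e) M
  have h2 := pot_sum k B M
  have h3 : ∑ c ∈ range M, ind (fun c => B (tau k c)) c - 1 / (2 : ℝ) ^ r * M =
      (∑ c ∈ range M, ind B (tau k c) - ∑ c ∈ range M, ind B (c % N k)) +
      (∑ c ∈ range M, ind (fun c => B (c % N k)) c - 1 / (2 : ℝ) ^ r * M) := by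
    have e1 : ∑ c ∈ range M, ind (fun c => B (tau k c)) c = ∑ c ∈ range M, ind B (tau k c) := rfl
    have e2 : ∑ c ∈ range M, ind (fun c => B (c % N k)) c = ∑ c ∈ range M, ind B (c % N k) := rfl
    rw [e1, e2]
    ring
  rw [h3]
  calc _ ≤ |∑ c ∈ range M, ind B (tau k c) - ∑ c ∈ range M, ind B (c % N k)| +
      |∑ c ∈ range M, ind (fun c => B (c % N k)) c - 1 / (2 : ℝ) ^ r * M| := abs_add_le _ _
    _ ≤ 1 + 1 := add_le_add h2 h1
    _ = 2 := by norm_num

theorem BD_bits (k i n : ℕ) (hn : n ≤ 2 * (k + 10)) (e : ℕ → Bool) :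
    BD (ind (fun c => ∀ l < n, bt (i + l) (tau k c) = e l)) 2 :=
  BD_tau (B := fun t => ∀ l < n, bt (i + l) t = e l) hn (fun c => bt_exists_unique i n c e)

end Pool.Agent.Q18.UFB
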