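import Pool.Agent.Q18.UFB2

/-!
# Several consecutive types, and what a window sees
-/

namespace Pool.Agent.Q18.UFB

open Finset

theorem dvd_N {k i : ℕ} (hi : i ≤ 2 * (k + 10)) : 2 ^ i ∣ N k := pow_dvd_pow 2 hi

theorem ind_congr_at {p q : ℕ → Prop} {a b : ℕ} (hpq : p a ↔ q b) : ind p a = ind q b := by
  unfold ind
  by_cases hp : p a
  · rw [if_pos hp, if_pos (hpq.1 hp)]
  · rw [if_neg hp, if_neg (fun hq => hp (hpq.2 hq))]

theorem BD_of_bit {p : ℕ → Prop} {bit : ℕ → Bool}
    (hbit : ∀ e : Bool, BD (ind (fun c => bit c = e)) 2)
    (hp : ∀ b b', bit b = bit b' → (p b ↔ p b')) : BD (ind p) 2 := by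
  by_cases h1 : ∃ b, bit b = true ∧ p b
  · obtain ⟨b1, hb1, hp1⟩ := h1
    have ht : ∀ b, bit b = true → p b := fun b hb => (hp b1 b (by rw [hb1, hb])).1 hp1
    by_cases h2 : ∃ b, bit b = false ∧ p b
    · obtain ⟨b2, hb2, hp2⟩ := h2
      have hf : ∀ b, bit b = false → p b := fun b hb => (hp b2 b (by rw [hb2, hb])).1 hp2
      have : ∀ b, p b := by
        intro b
        cases hb : bit b
        · exact hf b hb
        · exact ht b hb
      exact ((BD_const 1).mono (by norm_num)).congr (fun c => (ind_pos (this c)).symm)
    · push Not at h2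
      refine (hbit true).congr (fun c => ind_congr ⟨ht c, fun hc => ?_⟩)
      cases hb : bit c
      · exact absurd hc (h2 c hb)
      · rfl
  · push Not at h1
    by_cases h2 : ∃ b, bit b = false ∧ p b
    · obtain ⟨b2, hb2, hp2⟩ := h2
      have hf : ∀ b, bit b = false → p b := fun b hb => (hp b2 b (by rw [hb2, hb])).1 hp2
      refine (hbit false).congr (fun c => ind_congr ⟨hf c, fun hc => ?_⟩)
      cases hb : bit c
      · rfl
      · exact absurd hc (h1 c hb)
    · push Not at h2
      have : ∀ b, ¬ p b := by
        intro b
        cases hb : bit b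
        · exact h2 b hb
        · exact h1 b hb
      exact ((BD_const 0).mono (by norm_num)).congr (fun c => (ind_neg (this c)).symm)

theorem sw_add_mul (k b p : ℕ) : Sw k (N k * b + p) ↔ Sw k p := by
  unfold Sw
  rw [Nat.mul_add_mod]

/-- five consecutive types starting at a given row depend on one bit of the next level -/
theorem tau_dep (k ρ : ℕ) (hρ : ρ < N k) : ∃ i0, ∀ b b',
    bt i0 (tau (k + 1) b) = bt i0 (tau (k + 1) b') →
      ∀ l < 5, tau k (N k * b + ρ + l) = tau k (N k * b' + ρ + l) := by
  have hN := N_big k
  have hP := P_big k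
  have hns : ∀ l, ¬ Sw k (ρ + l) → ∀ b, tau k (N k * b + ρ + l) = (ρ + l) % N k := by
    intro l hl b
    rw [add_assoc, tau_of_not_sw (by rwa [sw_add_mul]), Nat.mul_add_mod]
  by_cases hex : ∃ l0 < 5, Sw k (ρ + l0)
  · obtain ⟨l0, hl0, hsw⟩ := hex
    have hlt : ρ + l0 < N k := by
      by_contra hge
      push Not at hge
      have h1 : (ρ + l0) % N k = ρ + l0 - N k := by
        rw [Nat.mod_eq_sub_mod hge, Nat.mod_eq_of_lt (by omega)]
      obtain ⟨⟨h2, -⟩, -⟩ := hsw
      rw [h1, Nat.div_eq_of_lt (by omega)] at h2
      omega
    have hjj := hsw.1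
    rw [Nat.mod_eq_of_lt hlt] at hjj
    set j := (ρ + l0) / (2 * P k + 1) with hj
    refine ⟨min (j - 1) (J k - j), ?_⟩
    intro b b' hbb l hl
    by_cases hll : l = l0
    · subst hll
      rw [add_assoc, add_assoc, tau_mul_add k b _ hlt, tau_mul_add k b' _ hlt]
      unfold row
      rw [← hj, sb_of hjj.1 hjj.2, sb_of hjj.1 hjj.2, hbb]
    · have hnsw : ¬ Sw k (ρ + l) := by
        rcases Nat.lt_or_gt_of_ne hll with hlt' | hgt
        · intro hc
          have := sw_gap (e := l0 - l) (by omega) (by omega) hc
          apply this
          have h5 : ρ + l + (l0 - l) = ρ + l0 := by omega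
          rw [h5]
          exact hsw
        · have := sw_gap (e := l - l0) (by omega) (by omega) hsw
          have h5 : ρ + l0 + (l - l0) = ρ + l := by omega
          rwa [h5] at this
      rw [hns l hnsw, hns l hnsw]
  · push Not at hex
    refine ⟨0, ?_⟩
    intro b b' _ l hl
    rw [hns l (hex l hl), hns l (hex l hl)]

/-- intersections of residue classes modulo powers of two -/
theorem BD_T (cc ii : ℕ → ℕ) :
    BD (ind (fun b => ∀ l < 5, (b + l) % 2 ^ (ii l) = cc l % 2 ^ (ii l))) 1 := by
  by_cases hex : ∃ b0, ∀ l < 5, (b0 + l) % 2 ^ (ii l) = cc l % 2 ^ (ii l)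
  · obtain ⟨b0, hb0⟩ := hex
    obtain ⟨L, hL, hmax⟩ := exists_max_image (range 5) ii ⟨0, by simp⟩
    rw [mem_range] at hL
    have h2 : 0 < 2 ^ (ii L) := by positivity
    have h3 := BD_class (g := fun _ => 1) (D := 0) (fun _ => zero_le_one) (fun _ => le_refl _)
      (BD_const 1) (H := 2 ^ (ii L)) (r := b0 % 2 ^ (ii L)) (Nat.mod_lt _ h2)
    rw [zero_add] at h3
    refine h3.congr (fun c => ?_)
    have hiff : c % 2 ^ ii L = b0 % 2 ^ ii L ↔
        ∀ l < 5, (c + l) % 2 ^ (ii l) = cc l % 2 ^ (ii l) := by
      constructor
      · intro hc l hl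
        rw [← hb0 l hl]
        have hdvd : 2 ^ ii l ∣ 2 ^ ii L := pow_dvd_pow 2 (hmax l (by rwa [mem_range]))
        have hc' : c ≡ b0 [MOD 2 ^ ii L] := hc
        exact (hc'.of_dvd hdvd).add_right l
      · intro hc
        have h4 : c + L ≡ b0 + L [MOD 2 ^ ii L] := (hc L hL).trans (hb0 L hL).symm
        exact Nat.ModEq.add_right_cancel' L h4
    by_cases hcc : c % 2 ^ ii L = b0 % 2 ^ ii L
    · rw [if_pos hcc, ind_pos (hiff.1 hcc)]
    · rw [if_neg hcc, ind_neg (fun hcon => hcc (hiff.2 hcon))]
  · push Not at hex
    refine ((BD_const 0).mono (by norm_num)).congr (fun c => (ind_neg ?_).symm)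
    intro hc
    obtain ⟨l, hl, hne⟩ := hex c
    exact hne (hc l hl)

/-- **several consecutive types modulo powers of two** -/
theorem BD_S (k : ℕ) (cc ii : ℕ → ℕ) (hii : ∀ l < 5, ii l ≤ 2 * (k + 10)) :
    BD (ind (fun b => ∀ l < 5, tau k (b + l) % 2 ^ (ii l) = cc l % 2 ^ (ii l))) 41 := by
  classical
  have hNp := N_pos k
  have hP := P_big k
  set S : ℕ → Prop := fun b => ∀ l < 5, tau k (b + l) % 2 ^ (ii l) = cc l % 2 ^ (ii l) with hS
  set T : ℕ → Prop := fun b => ∀ l < 5, (b + l) % 2 ^ (ii l) = cc l % 2 ^ (ii l) with hT
  set R : Finset ℕ := ((range 5 ×ˢ range 2).image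
    (fun x => (2 * P k + 1) * (cc x.1 % P k) + P k * x.2 - x.1)).filter (· < N k) with hR
  have hRcard : R.card ≤ 10 := by
    calc R.card ≤ _ := card_filter_le _ _
      _ ≤ (range 5 ×ˢ range 2).card := card_image_le
      _ = 10 := by simp
  have hTper : ∀ b ρ, T (N k * b + ρ) ↔ T ρ := by
    intro b ρ
    have hk : ∀ l < 5, (N k * b + ρ + l) % 2 ^ (ii l) = (ρ + l) % 2 ^ (ii l) := by
      intro l hl
      obtain ⟨w, hw⟩ := dvd_N (hii l hl)
      rw [hw, mul_assoc, add_assoc, Nat.mul_add_mod]
    constructor
    · intro hc l hl
      rw [← hk l hl]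
      exact hc l hl
    · intro hc l hl
      rw [hk l hl]
      exact hc l hl
  -- off the exceptional classes
  have hoff : ∀ c, c % N k ∉ R → (S c ↔ T c) := by
    intro c hc
    have hone : ∀ l < 5, (tau k (c + l) % 2 ^ (ii l) = cc l % 2 ^ (ii l) ↔
        (c + l) % 2 ^ (ii l) = cc l % 2 ^ (ii l)) := by
      intro l hl
      have hdN := dvd_N (hii l hl)
      have hclN : (c + l) % N k % 2 ^ (ii l) = (c + l) % 2 ^ (ii l) := Nat.mod_mod_of_dvd _ hdN
      by_cases hsw : Sw k (c + l)
      · -- a swap row
        have hj := hsw.1
        have hrem := hsw.2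
        set m := (c + l) % N k with hm
        set j := m / (2 * P k + 1) with hjd
        have hdm := Nat.div_add_mod m (2 * P k + 1)
        rw [← hjd] at hdm
        have htau : tau k (c + l) = m ∨ (tau k (c + l) = m + P k ∨ tau k (c + l) + P k = m) := by
          rw [tau_eq, ← hm]
          unfold row
          split_ifs with h1 h2
          · right; left; rfl
          · right; right
            omega
          · left; rfl
        rcases htau with htau | htau
        · rw [htau, hclN]
        · -- a real swap
          have hPm : tau k (c + l) ≡ m [MOD P k] := by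
            rcases htau with h1 | h1
            · rw [h1]
              exact Nat.add_mod_right m (P k)
            · rw [← h1]
              exact (Nat.add_mod_right _ (P k)).symm
          have hmj : m % P k = j := by
            have e1 : m = P k * (2 * j) + (j + m % (2 * P k + 1)) := by
              have : (2 * P k + 1) * j = P k * (2 * j) + j := by ring
              omega
            rw [e1, Nat.mul_add_mod]
            have hjP : j < P k := by
              have := J_P k
              omega
            rcases hrem with h0 | h0
            · rw [h0, add_zero, Nat.mod_eq_of_lt hjP]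
            · rw [h0, Nat.add_mod_right, Nat.mod_eq_of_lt hjP]
          by_cases hil : ii l ≤ k + 10
          · have hdP : 2 ^ (ii l) ∣ P k := pow_dvd_pow 2 hil
            have h2 : tau k (c + l) ≡ m [MOD 2 ^ (ii l)] := hPm.of_dvd hdP
            have h3 : tau k (c + l) % 2 ^ (ii l) = m % 2 ^ (ii l) := h2
            rw [h3, hclN]
          · push Not at hil
            have hPd : P k ∣ 2 ^ (ii l) := pow_dvd_pow 2 (by omega)
            -- neither side holds
            have hnot : j ≠ cc l % P k := by
              intro hjc
              apply hc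
              rw [hR, mem_filter]
              refine ⟨?_, Nat.mod_lt _ hNp⟩
              rw [mem_image]
              have hbnd := QJ' k j hj.2
              have hml : m = c % N k + l := by
                have h7 : m = (c % N k + l) % N k := by rw [hm]; simp [Nat.add_mod]
                have h8 : c % N k < N k := Nat.mod_lt _ hNp
                by_cases h9 : c % N k + l < N k
                · rw [h7, Nat.mod_eq_of_lt h9]
                · exfalso
                  push Not at h9
                  have h10 : (c % N k + l) % N k = c % N k + l - N k := by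
                    rw [Nat.mod_eq_sub_mod h9, Nat.mod_eq_of_lt (by omega)]
                  have h11 : m < 5 := by omega
                  have h12 : j = 0 := by
                    rw [hjd]
                    exact Nat.div_eq_of_lt (by omega)
                  omega
              rcases hrem with h0 | h0
              · refine ⟨(l, 0), by simp [hl], ?_⟩
                simp only
                rw [← hjc]
                omega
              · refine ⟨(l, 1), by simp [hl], ?_⟩
                simp only
                rw [← hjc]
                omega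
            constructor
            · intro h5
              exfalso
              apply hnot
              have h6 : tau k (c + l) ≡ cc l [MOD 2 ^ (ii l)] := h5
              have h7 : tau k (c + l) % P k = cc l % P k := h6.of_dvd hPd
              have h8 : tau k (c + l) % P k = m % P k := hPm
              rw [← hmj, ← h8, h7]
            · intro h5
              exfalso
              apply hnot
              rw [← hclN] at h5
              have h6 : m ≡ cc l [MOD 2 ^ (ii l)] := h5
              have h7 : m % P k = cc l % P k := h6.of_dvd hPd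
              rw [← hmj, h7]
      · rw [tau_of_not_sw hsw, hclN]
    constructor
    · intro h1 l hl
      exact (hone l hl).1 (h1 l hl)
    · intro h1 l hl
      exact (hone l hl).2 (h1 l hl)
  -- decomposition
  have hdec : ∀ c, ind T c + ∑ ρ ∈ R, (if c % N k = ρ then (ind S c - ind T c) else 0) = ind S c := by
    intro c
    rw [sum_ite_eq]
    split_ifs with h1
    · ring
    · rw [add_zero]
      exact (ind_congr (hoff c h1)).symm
  have hterm : ∀ ρ ∈ R, BD (fun c => if c % N k = ρ then (ind S c - ind T c) else 0) 4 := by
    intro ρ hρ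
    rw [hR, mem_filter] at hρ
    have hρN := hρ.2
    obtain ⟨i0, hi0⟩ := tau_dep k ρ hρN
    have hgS : BD (ind (fun b => S (N k * b + ρ))) 2 := by
      apply BD_of_bit (bit := fun b => bt i0 (tau (k + 1) b))
      · intro e
        have := BD_bits (k + 1) i0 1 (by omega) (fun _ => e)
        refine this.congr (fun c => ind_congr ?_)
        simp
      · intro b b' hbb
        have h1 := hi0 b b' hbb
        constructor
        · intro h2 l hl
          rw [← h1 l hl]
          exact h2 l hl
        · intro h2 l hl
          rw [h1 l hl]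
          exact h2 l hl
    have h1 := BD_class (ind_nonneg _) (ind_le_one _) hgS hρN
    have hgT : BD (ind (fun b => T (N k * b + ρ))) 0 := by
      by_cases hTρ : T ρ
      · exact (BD_const 1).congr (fun c => (ind_pos ((hTper c ρ).2 hTρ)).symm)
      · exact (BD_const 0).congr (fun c => (ind_neg (fun hc => hTρ ((hTper c ρ).1 hc))).symm)
    have h2 := BD_class (ind_nonneg _) (ind_le_one _) hgT hρN
    have h3 := (h1.sub h2).mono (by norm_num : (2 : ℝ) + 1 + (0 + 1) ≤ 4)
    refine h3.congr (fun c => ?_)
    by_cases hc : c % N k = ρ
    · rw [if_pos hc, if_pos hc, if_pos hc]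
      have h4 : N k * (c / N k) + ρ = c := by
        rw [← hc]
        exact Nat.div_add_mod c (N k)
      have h5 : ind (fun b => S (N k * b + ρ)) (c / N k) = ind S c := by
        apply ind_congr_at
        simp only [h4]
      have h6 : ind (fun b => T (N k * b + ρ)) (c / N k) = ind T c := by
        apply ind_congr_at
        simp only [h4]
      rw [h5, h6]
    · rw [if_neg hc, if_neg hc, if_neg hc, sub_zero]
  have h1 := (BD_T cc ii).add (BD_sum R _ 4 hterm)
  refine (h1.congr hdec).mono ?_
  have h2 : (R.card : ℝ) ≤ 10 := by exact_mod_cast hRcard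
  linarith

end Pool.Agent.Q18.UFB
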