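import Pool.Agent.Q18.UFB3

/-!
# What a window sees, and the occurrence sets
-/

namespace Pool.Agent.Q18.UFB

open Finset

/-- slot `j` is visible in the interval `[lo, hi)` of a block -/
def Rev (k lo hi j : ℕ) : Prop :=
  ∃ y, (lo ≤ y ∧ y < hi) ∧
    (y / h k = (2 * P k + 1) * j ∨ y / h k = (2 * P k + 1) * j + P k) ∧
    W k ((2 * P k + 1) * j) (y % h k) ≠ W k ((2 * P k + 1) * j + P k) (y % h k)

theorem W_succ' (k t y : ℕ) : W (k + 1) t y = W k (row k t (y / h k)) (y % h k) := rfl

theorem agree_iff (k lo hi t t' : ℕ) :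
    (∀ y, lo ≤ y → y < hi → W (k + 1) t y = W (k + 1) t' y) ↔
      ∀ j, 1 ≤ j → j ≤ J k → Rev k lo hi j → sb k t j = sb k t' j := by
  constructor
  · rintro H j hj1 hj2 ⟨y, ⟨hy1, hy2⟩, hy3, hne⟩
    have h1 := H y hy1 hy2
    rw [W_succ', W_succ'] at h1
    rcases hy3 with hy3 | hy3
    · rw [hy3, row_a, row_a] at h1
      cases hs : sb k t j <;> cases hs' : sb k t' j
      · rfl
      · rw [hs, hs'] at h1
        simp only [Bool.false_eq_true, if_false, if_true] at h1
        exact absurd h1 hne
      · rw [hs, hs'] at h1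
        simp only [Bool.false_eq_true, if_false, if_true] at h1
        exact absurd h1.symm hne
      · rfl
    · rw [hy3, row_b, row_b] at h1
      cases hs : sb k t j <;> cases hs' : sb k t' j
      · rfl
      · rw [hs, hs'] at h1
        simp only [Bool.false_eq_true, if_false, if_true] at h1
        exact absurd h1.symm hne
      · rw [hs, hs'] at h1
        simp only [Bool.false_eq_true, if_false, if_true] at h1
        exact absurd h1 hne
      · rfl
  · intro H y hy1 hy2
    rw [W_succ', W_succ']
    have hP := P_big k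
    set m := y / h k with hm
    set j := m / (2 * P k + 1) with hj
    have hdm := Nat.div_add_mod m (2 * P k + 1)
    rw [← hj] at hdm
    by_cases hcase : (1 ≤ j ∧ j ≤ J k) ∧ (m % (2 * P k + 1) = 0 ∨ m % (2 * P k + 1) = P k)
    · obtain ⟨⟨hj1, hj2⟩, hrem⟩ := hcase
      by_cases hne : W k ((2 * P k + 1) * j) (y % h k) =
          W k ((2 * P k + 1) * j + P k) (y % h k)
      · rcases hrem with h0 | h0
        · have hmm : m = (2 * P k + 1) * j := by omega
          rw [hmm, row_a, row_a]
          split_ifs <;> simp [hne]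
        · have hmm : m = (2 * P k + 1) * j + P k := by omega
          rw [hmm, row_b, row_b]
          split_ifs <;> simp [hne]
      · have hrev : Rev k lo hi j := by
          refine ⟨y, ⟨hy1, hy2⟩, ?_, hne⟩
          rw [← hm]
          rcases hrem with h0 | h0
          · left; omega
          · right; omega
        have h1 := H j hj1 hj2 hrev
        unfold row
        rw [← hj, h1]
    · have hid : ∀ z, row k z m = m := by
        intro z
        unfold row
        split_ifs with h1 h2
        · exact absurd ⟨sb_le h1.1, Or.inl h1.2⟩ hcase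
        · exact absurd ⟨sb_le h2.1, Or.inr h2.2⟩ hcase
        · rfl
      rw [hid, hid]

/-- a slot whose first row lies in the interval is visible -/
theorem rev_of_row {k lo hi j : ℕ} (hj : j ≤ J k) (h1 : lo ≤ h k * ((2 * P k + 1) * j))
    (h2 : h k * ((2 * P k + 1) * j + 1) ≤ hi) : Rev k lo hi j := by
  have hb := QJ' k j hj
  have hP := P_big k
  by_contra hno
  have : (2 * P k + 1) * j = (2 * P k + 1) * j + P k := by
    apply W_inj k _ _ (by omega) (by omega)
    intro o ho
    by_contra hne
    apply hno
    refine ⟨h k * ((2 * P k + 1) * j) + o, ⟨by omega, ?_⟩, ?_, ?_⟩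
    · rw [mul_add, mul_one] at h2
      omega
    · left
      rw [Nat.mul_add_div (h_pos k), Nat.div_eq_of_lt ho, add_zero]
    · rw [Nat.mul_add_mod, Nat.mod_eq_of_lt ho]
      exact hne
  omega

theorem rev_lo {k lo hi j1 j : ℕ} (hr : Rev k lo hi j1) (hj : j1 < j) :
    lo ≤ h k * ((2 * P k + 1) * j) := by
  obtain ⟨y, ⟨hy1, -⟩, hy3, -⟩ := hr
  have hP := P_big k
  have h1 : (2 * P k + 1) * (j1 + 1) ≤ (2 * P k + 1) * j := Nat.mul_le_mul_left _ hj
  have h2 : y / h k + 1 ≤ (2 * P k + 1) * j := by
    rw [mul_add, mul_one] at h1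
    rcases hy3 with h3 | h3 <;> omega
  have h3 : h k * (y / h k + 1) ≤ h k * ((2 * P k + 1) * j) := Nat.mul_le_mul_left _ h2
  have h4 := Nat.div_add_mod y (h k)
  have h5 := Nat.mod_lt y (h_pos k)
  rw [mul_add, mul_one] at h3
  omega

theorem rev_hi {k lo hi j2 j : ℕ} (hr : Rev k lo hi j2) (hj : j < j2) :
    h k * ((2 * P k + 1) * j + 1) ≤ hi := by
  obtain ⟨y, ⟨-, hy2⟩, hy3, -⟩ := hr
  have hP := P_big k
  have h1 : (2 * P k + 1) * (j + 1) ≤ (2 * P k + 1) * j2 := Nat.mul_le_mul_left _ hj
  have h2 : (2 * P k + 1) * j + 1 ≤ y / h k := by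
    rw [mul_add, mul_one] at h1
    rcases hy3 with h3 | h3 <;> omega
  have h3 : h k * ((2 * P k + 1) * j + 1) ≤ h k * (y / h k) := Nat.mul_le_mul_left _ h2
  have h4 := Nat.div_add_mod y (h k)
  omega

/-- visible bits -/
def RevI (k lo hi i : ℕ) : Prop := Rev k lo hi (i + 1) ∨ Rev k lo hi (J k - i)

theorem agree_iff' (k lo hi t t' : ℕ) :
    (∀ y, lo ≤ y → y < hi → W (k + 1) t y = W (k + 1) t' y) ↔
      ∀ i < 2 * (k + 1 + 10), RevI k lo hi i → bt i t = bt i t' := by
  rw [agree_iff]
  constructor
  · intro H i hi1 hr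
    rcases hr with hr | hr
    · have hJ : i + 1 ≤ J k := by unfold J; omega
      have h1 := H (i + 1) (by omega) hJ hr
      rw [sb_of (by omega) hJ, sb_of (by omega) hJ] at h1
      have h3 : min (i + 1 - 1) (J k - (i + 1)) = i := by
        unfold J
        omega
      rwa [h3] at h1
    · have hJ : 1 ≤ J k - i := by unfold J; omega
      have h1 := H (J k - i) hJ (by omega) hr
      rw [sb_of hJ (by omega), sb_of hJ (by omega)] at h1
      have h3 : min (J k - i - 1) (J k - (J k - i)) = i := by
        unfold J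
        omega
      rwa [h3] at h1
  · intro H j hj1 hj2 hr
    rw [sb_of hj1 hj2, sb_of hj1 hj2]
    by_cases hc : j - 1 ≤ J k - j
    · rw [min_eq_left hc]
      apply H
      · unfold J at hc
        omega
      · left
        rwa [Nat.sub_add_cancel hj1]
    · push Not at hc
      rw [min_eq_right hc.le]
      apply H
      · unfold J at hc ⊢
        omega
      · right
        have : J k - (J k - j) = j := by omega
        rwa [this]

theorem revI_convex {k lo hi i1 i i2 : ℕ} (h1 : i1 < i) (h2 : i < i2)
    (h3 : i2 < 2 * (k + 1 + 10)) (hr1 : RevI k lo hi i1) (hr2 : RevI k lo hi i2) :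
    RevI k lo hi i := by
  have hJ : J k = 2 * (2 * (k + 1 + 10)) := by unfold J; ring
  rcases hr1 with hr1 | hr1
  · left
    apply rev_of_row (by omega) (rev_lo hr1 (by omega))
    rcases hr2 with hr2 | hr2
    · exact rev_hi hr2 (by omega)
    · exact rev_hi hr2 (by omega)
  · right
    apply rev_of_row (by omega) _ (rev_hi hr1 (by omega))
    rcases hr2 with hr2 | hr2
    · exact rev_lo hr2 (by omega)
    · exact rev_lo hr2 (by omega)

theorem revI_down_pre {k hi i' i : ℕ} (h1 : i' < i) (h3 : i < 2 * (k + 1 + 10))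
    (hr : RevI k 0 hi i) : RevI k 0 hi i' := by
  have hJ : J k = 2 * (2 * (k + 1 + 10)) := by unfold J; ring
  left
  apply rev_of_row (by omega) (Nat.zero_le _)
  rcases hr with hr | hr
  · exact rev_hi hr (by omega)
  · exact rev_hi hr (by omega)

theorem revI_down_suf {k lo i' i : ℕ} (h1 : i' < i) (h3 : i < 2 * (k + 1 + 10))
    (hr : RevI k lo (h (k + 1)) i) : RevI k lo (h (k + 1)) i' := by
  have hJ : J k = 2 * (2 * (k + 1 + 10)) := by unfold J; ring
  right
  have hle : h k * ((2 * P k + 1) * (J k - i') + 1) ≤ h (k + 1) := by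
    have hb := QJ' k (J k - i') (by omega)
    have e : h (k + 1) = N k * h k := rfl
    rw [e, mul_comm]
    exact Nat.mul_le_mul_right _ (by omega)
  apply rev_of_row (by omega) _ hle
  rcases hr with hr | hr
  · exact rev_lo hr (by omega)
  · exact rev_lo hr (by omega)

theorem convex_interval (q : ℕ) (p : ℕ → Prop)
    (hp : ∀ i1 i i2, i1 < i → i < i2 → i2 < q → p i1 → p i2 → p i) :
    ∃ i0 n, i0 + n ≤ q ∧ ∀ i < q, (p i ↔ i0 ≤ i ∧ i < i0 + n) := by
  classical
  by_cases hex : ∃ i < q, p i
  · set F := (range q).filter p with hF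
    have hne : F.Nonempty := by
      obtain ⟨i, hi, hpi⟩ := hex
      exact ⟨i, by simp [hF, hi, hpi]⟩
    have h1 := F.min'_mem hne
    have h2 := F.max'_mem hne
    have h3 := F.min'_le _ h2
    set a := F.min' hne with ha
    set b := F.max' hne with hb
    rw [hF, mem_filter, mem_range] at h1 h2
    refine ⟨a, b - a + 1, by omega, fun i hi => ⟨fun hpi => ?_, fun hpi => ?_⟩⟩
    · have hiF : i ∈ F := by simp [hF, hi, hpi]
      have h4 := F.min'_le _ hiF
      have h5 := F.le_max' _ hiF
      omega
    · by_cases h4 : i = a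
      · rw [h4]; exact h1.2
      · by_cases h5 : i = b
        · rw [h5]; exact h2.2
        · exact hp a i b (by omega) (by omega) h2.1 h1.2 h2.2
  · push Not at hex
    refine ⟨0, 0, by omega, fun i hi => ⟨fun hpi => absurd hpi (hex i hi), fun hpi => ?_⟩⟩
    omega

theorem down_interval (q : ℕ) (p : ℕ → Prop)
    (hp : ∀ i' i, i' < i → i < q → p i → p i') :
    ∃ n ≤ q, ∀ i < q, (p i ↔ i < n) := by
  obtain ⟨i0, n, h1, h2⟩ := convex_interval q p (fun i1 i i2 h1 h2 h3 _ hp2 => hp i i2 h2 h3 hp2)
  by_cases hn : n = 0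
  · subst hn
    refine ⟨0, by omega, fun i hi => ?_⟩
    rw [h2 i hi]
    omega
  · refine ⟨i0 + n, h1, fun i hi => ?_⟩
    constructor
    · intro hpi
      exact ((h2 i hi).1 hpi).2
    · intro hlt
      by_cases h3 : i0 ≤ i
      · exact (h2 i hi).2 ⟨h3, hlt⟩
      · exact hp i i0 (by omega) (by omega) ((h2 i0 (by omega)).2 ⟨le_refl _, by omega⟩)

/-- what an interval of a block shows about its type -/
theorem window (k lo hi : ℕ) : ∃ i0 n, n ≤ 2 * (k + 1 + 10) ∧ ∀ t t',
    (∀ y, lo ≤ y → y < hi → W (k + 1) t y = W (k + 1) t' y) ↔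
      ∀ l < n, bt (i0 + l) t = bt (i0 + l) t' := by
  obtain ⟨i0, n, h1, h2⟩ := convex_interval (2 * (k + 1 + 10)) (RevI k lo hi)
    (fun i1 i i2 => revI_convex)
  refine ⟨i0, n, by omega, fun t t' => ?_⟩
  rw [agree_iff']
  constructor
  · intro H l hl
    exact H (i0 + l) (by omega) ((h2 _ (by omega)).2 ⟨by omega, by omega⟩)
  · intro H i hi1 hr
    have h3 := (h2 i hi1).1 hr
    have h4 := H (i - i0) (by omega)
    rwa [Nat.add_sub_cancel' h3.1] at h4

/-- what an initial or a final piece of a block shows about its type -/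
theorem window_end (k lo hi : ℕ) (hend : lo = 0 ∨ hi = h (k + 1)) :
    ∃ n ≤ 2 * (k + 1 + 10), ∀ t t',
    (∀ y, lo ≤ y → y < hi → W (k + 1) t y = W (k + 1) t' y) ↔ t % 2 ^ n = t' % 2 ^ n := by
  obtain ⟨n, h1, h2⟩ := down_interval (2 * (k + 1 + 10)) (RevI k lo hi) (by
    intro i' i hlt hlt2 hr
    rcases hend with h0 | h0
    · subst h0
      exact revI_down_pre hlt hlt2 hr
    · subst h0
      exact revI_down_suf hlt hlt2 hr)
  refine ⟨n, h1, fun t t' => ?_⟩
  rw [agree_iff', ← bt_zero_mod]
  constructor
  · intro H l hl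
    exact H l (by omega) ((h2 l (by omega)).2 hl)
  · intro H i hi1 hr
    exact H i ((h2 i hi1).1 hr)

/-! ### occurrence sets -/

/-- occurrences of the factor of length `n` at the position `i0` -/
def Occ (i0 n i : ℕ) : Prop := ∀ t < n, tau 0 (i + t) = tau 0 (i0 + t)

theorem BD_mod_and {H r : ℕ} (hr : r < H) {p : ℕ → Prop} {D : ℝ} (hp : BD (ind p) D) :
    BD (ind (fun i => i % H = r ∧ p (i / H))) (D + 1) := by
  have h1 := BD_class (ind_nonneg p) (ind_le_one p) hp hr
  refine h1.congr (fun c => ?_)
  by_cases hc : c % H = r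
  · rw [if_pos hc]
    apply ind_congr_at
    simp [hc]
  · rw [if_neg hc, ind_neg]
    rintro ⟨h2, -⟩
    exact hc h2

theorem BD_short (i0 n : ℕ) (hn : n < 4) : BD (ind (Occ i0 n)) 42 := by
  have h1 := BD_S 0 (fun l => tau 0 (i0 + l)) (fun l => if l < n then 20 else 0) (by
    intro l _
    split_ifs <;> omega)
  refine (h1.mono (by norm_num)).congr (fun c => ind_congr ?_)
  have hlt : ∀ p, tau 0 p < 2 ^ 20 := fun p => tau_lt 0 p
  unfold Occ
  constructor
  · intro H t ht
    have := H t (by omega)
    simp only [ht, if_true] at this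
    rwa [Nat.mod_eq_of_lt (hlt _), Nat.mod_eq_of_lt (hlt _)] at this
  · intro H l hl
    by_cases hln : l < n
    · rw [if_pos hln, H l hln]
    · rw [if_neg hln, pow_zero, Nat.mod_one, Nat.mod_one]

theorem BD_occ (i0 n : ℕ) : BD (ind (Occ i0 n)) 42 := by
  classical
  by_cases hn : n < 4
  · exact BD_short i0 n hn
  push Not at hn
  -- the level
  obtain ⟨k, hk1, hk2⟩ : ∃ k, 4 * h k ≤ n ∧ n < 4 * h (k + 1) := by
    have hex : ∃ K, n < 4 * h K := ⟨n, by have := h_ge n; omega⟩
    have hK := Nat.find_spec hex
    have hK0 : Nat.find hex ≠ 0 := by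
      intro h0
      rw [h0] at hK
      have : h 0 = 1 := rfl
      omega
    obtain ⟨k, hk⟩ := Nat.exists_eq_succ_of_ne_zero hK0
    refine ⟨k, ?_, ?_⟩
    · by_contra hlt
      push Not at hlt
      have := Nat.find_min' hex hlt
      omega
    · rw [hk] at hK
      exact hK
  set H := h (k + 1) with hH
  have hHpos : 0 < H := h_pos (k + 1)
  set r := i0 % H with hr
  set b0 := i0 / H with hb0
  have hrH : r < H := Nat.mod_lt _ hHpos
  have hi0 : i0 = H * b0 + r := (Nat.div_add_mod i0 H).symm
  have hmod : ∀ i, Occ i0 n i → i % H = r := by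
    intro i hi
    have := recog k i i0 (fun t ht => hi t (by omega))
    exact this
  by_cases hfit : r + n ≤ H
  · -- inside one block
    obtain ⟨i1, n', hn', hw⟩ := window k r (r + n)
    have h1 := BD_bits (k + 1) i1 n' hn' (fun l => bt (i1 + l) (tau (k + 1) b0))
    have h2 := (BD_mod_and hrH h1).mono (by norm_num : (2 : ℝ) + 1 ≤ 42)
    refine h2.congr (fun i => ind_congr ?_)
    have hstep : i % H = r → (Occ i0 n i ↔
        ∀ y, r ≤ y → y < r + n → W (k + 1) (tau (k + 1) (i / H)) y = W (k + 1) (tau (k + 1) b0) y) := by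
      intro hir
      have hi : i = H * (i / H) + r := by
        conv_lhs => rw [← Nat.div_add_mod i H, hir]
      constructor
      · intro ho y hy1 hy2
        rw [← tau_block (k + 1) _ _ (by omega), ← tau_block (k + 1) _ _ (by omega)]
        have := ho (y - r) (by omega)
        have e1 : i + (y - r) = h (k + 1) * (i / H) + y := by rw [← hH]; omega
        have e2 : i0 + (y - r) = h (k + 1) * b0 + y := by rw [← hH]; omega
        rwa [e1, e2] at this
      · intro ho t ht
        have := ho (r + t) (by omega) (by omega)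
        rw [← tau_block (k + 1) _ _ (by omega), ← tau_block (k + 1) _ _ (by omega)] at this
        have e1 : i + t = h (k + 1) * (i / H) + (r + t) := by rw [← hH]; omega
        have e2 : i0 + t = h (k + 1) * b0 + (r + t) := by rw [← hH]; omega
        rwa [e1, e2]
    constructor
    · rintro ⟨hir, hb⟩
      rw [hstep hir, hw]
      exact hb
    · intro ho
      have hir := hmod i ho
      refine ⟨hir, ?_⟩
      rw [hstep hir, hw] at ho
      exact ho
  · -- several blocks
    push Not at hfit
    have hwl : ∀ l, ∃ m ≤ 2 * (k + 1 + 10), ∀ t t',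
        (∀ y, (if l = 0 then r else 0) ≤ y → y < min H (r + n - l * H) →
          W (k + 1) t y = W (k + 1) t' y) ↔ t % 2 ^ m = t' % 2 ^ m := by
      intro l
      apply window_end
      by_cases hl : l = 0
      · right
        subst hl
        rw [zero_mul, Nat.sub_zero]
        exact min_eq_left hfit.le
      · left
        rw [if_neg hl]
    choose ii hii hw using hwl
    have h1 := BD_S (k + 1) (fun l => tau (k + 1) (b0 + l)) ii (fun l _ => hii l)
    have h2 := (BD_mod_and hrH h1).mono (by norm_num : (41 : ℝ) + 1 ≤ 42)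
    refine h2.congr (fun i => ind_congr ?_)
    have hstep : i % H = r → (Occ i0 n i ↔
        ∀ l < 5, tau (k + 1) (i / H + l) % 2 ^ ii l = tau (k + 1) (b0 + l) % 2 ^ ii l) := by
      intro hir
      have hi : i = H * (i / H) + r := by
        conv_lhs => rw [← Nat.div_add_mod i H, hir]
      constructor
      · intro ho l hl
        rw [← hw l]
        intro y hy1 hy2
        have hyH : y < H := lt_of_lt_of_le hy2 (min_le_left _ _)
        have hy3 : y < r + n - l * H := lt_of_lt_of_le hy2 (min_le_right _ _)
        rw [← tau_block (k + 1) _ _ hyH, ← tau_block (k + 1) _ _ hyH]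
        have hge : r ≤ l * H + y := by
          by_cases hl0 : l = 0
          · subst hl0
            rw [if_pos rfl] at hy1
            omega
          · have : 1 * H ≤ l * H := Nat.mul_le_mul_right _ (by omega)
            omega
        have := ho (l * H + y - r) (by omega)
        have e1 : i + (l * H + y - r) = h (k + 1) * (i / H + l) + y := by
          rw [← hH, mul_add, mul_comm H l]
          omega
        have e2 : i0 + (l * H + y - r) = h (k + 1) * (b0 + l) + y := by
          rw [← hH, mul_add, mul_comm H l]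
          omega
        rwa [e1, e2] at this
      · intro ho t ht
        set l := (r + t) / H with hl
        have hdm := Nat.div_add_mod (r + t) H
        rw [← hl] at hdm
        have hml := Nat.mod_lt (r + t) hHpos
        have hl5 : l < 5 := by
          rw [hl, Nat.div_lt_iff_lt_mul hHpos]
          omega
        have h3 := ho l hl5
        rw [← hw l] at h3
        have hcomm : H * l = l * H := mul_comm _ _
        have h4 := h3 ((r + t) % H) (by
          split_ifs with h0
          · rw [h0, mul_zero] at hdm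
            omega
          · exact Nat.zero_le _) (by
          rw [lt_min_iff]
          omega)
        rw [← tau_block (k + 1) _ _ hml, ← tau_block (k + 1) _ _ hml] at h4
        have e1 : i + t = h (k + 1) * (i / H + l) + (r + t) % H := by
          rw [← hH, mul_add]
          omega
        have e2 : i0 + t = h (k + 1) * (b0 + l) + (r + t) % H := by
          rw [← hH, mul_add]
          omega
        rwa [e1, e2]
    constructor
    · rintro ⟨hir, hb⟩
      rw [hstep hir]
      exact hb
    · intro ho
      have hir := hmod i ho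
      refine ⟨hir, ?_⟩
      rw [hstep hir] at ho
      exact ho

end Pool.Agent.Q18.UFB
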