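import Mathlib

/-!
Counting lemma for words with constants in symmetric groups.

A run `run g L x` applies, for each step `(c, i, e)` of the list `L`, first the constant `c` and
then the letter `x_i^e` evaluated at the tuple `g`.  The main result `count_bound` says that, if the
content of `L` (the element of the free group obtained by forgetting constants) is nontrivial, then
for all points `x, y` the number of tuples `g` with `run g L x = y` is at most
`Cc l / (n - l)` times the number of all tuples, `l` being a bound for the length of `L`.
-/

set_option linter.unusedSectionVars false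

namespace Pool.Agent.Q18.WordC

open Finset

variable {n r : ℕ}

abbrev Pm (n : ℕ) := Equiv.Perm (Fin n)

/-- one step of a run: first the constant, then the letter `x_i^e` -/
abbrev Step (n r : ℕ) := Pm n × Fin r × Bool

/-- `p` or its inverse -/
def pw (p : Pm n) (e : Bool) : Pm n := if e then p else p⁻¹

theorem pw_pw (p : Pm n) (e : Bool) : pw (pw p e) e = p := by
  cases e <;> simp [pw]

theorem pw_not_apply (p : Pm n) (e : Bool) (a : Fin n) : pw p (!e) (pw p e a) = a := by
  cases e <;> simp [pw]

/-- action of the letter `x_i^e` -/
def ap (g : Fin r → Pm n) (i : Fin r) (e : Bool) (a : Fin n) : Fin n := pw (g i) e a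

theorem ap_not (g : Fin r → Pm n) (i : Fin r) (e : Bool) (a : Fin n) :
    ap g i (!e) (ap g i e a) = a := pw_not_apply _ _ _

def run (g : Fin r → Pm n) : List (Step n r) → Fin n → Fin n
  | [], x => x
  | (c, i, e) :: L, x => run g L (ap g i e (c x))

theorem run_append (g : Fin r → Pm n) (L1 L2 : List (Step n r)) (x : Fin n) :
    run g (L1 ++ L2) x = run g L2 (run g L1 x) := by
  induction L1 generalizing x with
  | nil => rfl
  | cons s L1 ih =>
    obtain ⟨c, i, e⟩ := s
    simp only [List.cons_append, run]
    exact ih _

/-- no critical backtrack along the run -/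
def NBr (g : Fin r → Pm n) : Option (Fin r × Bool) → Fin n → List (Step n r) → Prop
  | _, _, [] => True
  | prev, p, (c, i, e) :: L =>
      (prev = some (i, !e) → c p ≠ p) ∧ NBr g (some (i, e)) (ap g i e (c p)) L

/-- constraints `(i, a, b)`, meaning `g i a = b` -/
abbrev Cn (n r : ℕ) := Fin r × Fin n × Fin n

def cn (i : Fin r) (e : Bool) (a u : Fin n) : Cn n r := if e then (i, a, u) else (i, u, a)

def sat (S : Finset (Cn n r)) (g : Fin r → Pm n) : Prop := ∀ t ∈ S, g t.1 t.2.1 = t.2.2

open scoped Classical in
noncomputable def N (S : Finset (Cn n r)) : ℕ := (univ.filter (fun g : Fin r → Pm n => sat S g)).card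

theorem sat_cn_iff (g : Fin r → Pm n) (i : Fin r) (e : Bool) (a u : Fin n) :
    (g (cn i e a u).1 (cn i e a u).2.1 = (cn i e a u).2.2) ↔ ap g i e a = u := by
  cases e
  · simp only [cn, ap, pw]
    simp only [Bool.false_eq_true, if_false]
    constructor
    · intro h
      rw [← h]
      simp
    · intro h
      rw [← h]
      simp
  · simp [cn, ap, pw]

theorem sat_insert (S : Finset (Cn n r)) (g : Fin r → Pm n) (i : Fin r) (e : Bool) (a u : Fin n) :
    sat (insert (cn i e a u) S) g ↔ ap g i e a = u ∧ sat S g := by
  unfold sat
  rw [Finset.forall_mem_insert, sat_cn_iff]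

open scoped Classical in
theorem sum_N (S : Finset (Cn n r)) (i : Fin r) (e : Bool) (a : Fin n) :
    ∑ u : Fin n, N (insert (cn i e a u) S) = N S := by
  unfold N
  rw [Finset.card_eq_sum_card_fiberwise (f := fun g : Fin r → Pm n => ap g i e a)
    (s := univ.filter (fun g : Fin r → Pm n => sat S g)) (t := univ) (by intro x _; simp)]
  refine Finset.sum_congr rfl fun u _ => ?_
  congr 1
  ext g
  simp only [Finset.mem_filter, Finset.mem_univ, true_and]
  rw [sat_insert]
  tauto

/-- replace the `i`-th permutation by composing with a transposition -/
def sw (i : Fin r) (e : Bool) (u v : Fin n) (g : Fin r → Pm n) : Fin r → Pm n :=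
  Function.update g i (pw (Equiv.swap u v * pw (g i) e) e)

theorem sw_inj (i : Fin r) (e : Bool) (u v : Fin n) : Function.Injective (sw i e u v) := by
  intro g g' h
  funext j
  by_cases hj : j = i
  · subst hj
    have h1 := congrFun h j
    simp only [sw, Function.update_self] at h1
    have h2 := congrArg (fun p => pw p e) h1
    simp only [pw_pw] at h2
    have h3 := mul_left_cancel h2
    have h4 := congrArg (fun p => pw p e) h3
    simpa only [pw_pw] using h4
  · have h1 := congrFun h j
    simpa only [sw, Function.update_of_ne hj] using h1

theorem ap_sw (i : Fin r) (e : Bool) (u v a : Fin n) (g : Fin r → Pm n) :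
    ap (sw i e u v g) i e a = Equiv.swap u v (ap g i e a) := by
  simp only [ap, sw, Function.update_self, pw_pw, Equiv.Perm.mul_apply]

theorem cn_eq_of (i : Fin r) (e : Bool) (t : Cn n r) (h : t.1 = i) :
    t = cn i e (if e then t.2.1 else t.2.2) (if e then t.2.2 else t.2.1) := by
  subst h
  cases e <;> rfl

theorem sat_sw (S : Finset (Cn n r)) (i : Fin r) (e : Bool) (u v : Fin n) (g : Fin r → Pm n)
    (hu : ∀ b, cn i e b u ∉ S) (hv : ∀ b, cn i e b v ∉ S) (h : sat S g) :
    sat S (sw i e u v g) := by
  intro t ht
  by_cases hi : t.1 = i
  · have ht' := cn_eq_of i e t hi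
    set b := (if e then t.2.1 else t.2.2) with hb
    set c := (if e then t.2.2 else t.2.1) with hc
    have h1 := h t ht
    rw [ht'] at h1 ht ⊢
    rw [sat_cn_iff] at h1 ⊢
    rw [ap_sw, h1]
    apply Equiv.swap_apply_of_ne_of_ne
    · intro hcu
      rw [hcu] at ht
      exact hu _ ht
    · intro hcv
      rw [hcv] at ht
      exact hv _ ht
  · have : sw i e u v g t.1 = g t.1 := Function.update_of_ne hi _ _
    rw [this]
    exact h t ht

theorem N_swap (S : Finset (Cn n r)) (i : Fin r) (e : Bool) (a u v : Fin n)
    (hfree : ∀ b, cn i e a b ∉ S) (hv : ∀ b, cn i e b v ∉ S) :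
    N (insert (cn i e a u) S) ≤ N (insert (cn i e a v) S) := by
  classical
  by_cases hu : ∀ b, cn i e b u ∉ S
  · unfold N
    refine Finset.card_le_card_of_injOn (sw i e u v) ?_ (fun x _ y _ h => sw_inj i e u v h)
    intro g hg
    simp only [Finset.coe_filter, Finset.mem_univ, true_and, Set.mem_ofPred_eq] at hg ⊢
    rw [sat_insert] at hg ⊢
    refine ⟨?_, sat_sw S i e u v g hu hv hg.2⟩
    rw [ap_sw, hg.1, Equiv.swap_apply_left]
  · push Not at hu
    obtain ⟨b, hb⟩ := hu
    have : N (insert (cn i e a u) S) = 0 := by
      unfold N
      rw [Finset.card_eq_zero, Finset.filter_eq_empty_iff]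
      intro g _ hg
      rw [sat_insert] at hg
      have h1 := (sat_cn_iff g i e b u).1 (hg.2 _ hb)
      have h2 : a = b := by
        apply (pw (g i) e).injective
        exact hg.1.trans h1.symm
      subst h2
      exact hfree _ hb
    rw [this]
    exact Nat.zero_le _

theorem N_ins_le (S : Finset (Cn n r)) (i : Fin r) (e : Bool) (a u : Fin n)
    (hfree : ∀ b, cn i e a b ∉ S) :
    N (insert (cn i e a u) S) * (n - S.card) ≤ N S := by
  classical
  rw [← sum_N S i e a]
  set B : Finset (Fin n) := univ.filter (fun v => ∃ b, cn i e b v ∈ S) with hB
  have hBc : B.card ≤ S.card := by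
    have : B ⊆ S.image (fun t => if e then t.2.2 else t.2.1) := by
      intro v hv
      rw [hB, Finset.mem_filter] at hv
      obtain ⟨_, b, hb⟩ := hv
      rw [Finset.mem_image]
      refine ⟨_, hb, ?_⟩
      cases e <;> simp [cn]
    exact (Finset.card_le_card this).trans Finset.card_image_le
  have h1 : n - S.card ≤ (Bᶜ).card := by
    rw [Finset.card_compl, Fintype.card_fin]
    omega
  calc N (insert (cn i e a u) S) * (n - S.card)
      ≤ N (insert (cn i e a u) S) * (Bᶜ).card := Nat.mul_le_mul_left _ h1
    _ = ∑ _v ∈ Bᶜ, N (insert (cn i e a u) S) := by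
        rw [Finset.sum_const, smul_eq_mul, mul_comm]
    _ ≤ ∑ v ∈ Bᶜ, N (insert (cn i e a v) S) := by
        refine Finset.sum_le_sum fun v hv => ?_
        apply N_swap S i e a u v hfree
        intro b hb
        rw [Finset.mem_compl] at hv
        apply hv
        rw [hB, Finset.mem_filter]
        exact ⟨Finset.mem_univ _, b, hb⟩
    _ ≤ ∑ v, N (insert (cn i e a v) S) :=
        Finset.sum_le_sum_of_subset (Finset.subset_univ _)

/-- points touched by the constraints -/
def touched (S : Finset (Cn n r)) : Finset (Fin n) :=
  S.image (fun t => t.2.1) ∪ S.image (fun t => t.2.2)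

theorem touched_card (S : Finset (Cn n r)) : (touched S).card ≤ 2 * S.card := by
  unfold touched
  refine (Finset.card_union_le _ _).trans ?_
  have h1 : (S.image (fun t => t.2.1)).card ≤ S.card := Finset.card_image_le
  have h2 : (S.image (fun t => t.2.2)).card ≤ S.card := Finset.card_image_le
  omega

theorem mem_touched (S : Finset (Cn n r)) (i : Fin r) (e : Bool) (a b : Fin n)
    (h : cn i e a b ∈ S) : a ∈ touched S := by
  unfold touched
  rw [Finset.mem_union, Finset.mem_image, Finset.mem_image]
  cases e
  · right
    exact ⟨_, h, by simp [cn]⟩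
  · left
    exact ⟨_, h, by simp [cn]⟩

def beta : ℕ → ℕ → ℕ
  | _, 0 => 1
  | s, l + 1 => (2 * s + 1) + beta (s + 1) l

theorem one_le_beta (s l : ℕ) : 1 ≤ beta s l := by
  cases l with
  | zero => exact le_refl _
  | succ l => simp only [beta]; omega

theorem beta_succ_le (l : ℕ) : ∀ s, beta s l ≤ beta s (l + 1) := by
  induction l with
  | zero => intro s; exact one_le_beta _ _
  | succ l ih =>
    intro s
    rw [beta, beta]
    exact Nat.add_le_add_left (ih _) _

theorem beta_mono (s : ℕ) : Monotone (beta s) := monotone_nat_of_le_succ fun l => beta_succ_le l s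

open scoped Classical in
theorem nbr_bound : ∀ (L : List (Step n r)) (c : Pm n) (i : Fin r) (e : Bool)
    (S : Finset (Cn n r)) (prev : Option (Fin r × Bool)) (p y : Fin n) (M : ℕ),
    (∀ b, cn i e (c p) b ∉ S) → S.card + (L.length + 1) + M ≤ n →
    (univ.filter (fun g : Fin r → Pm n => sat S g ∧ NBr g prev p ((c, i, e) :: L) ∧
      run g ((c, i, e) :: L) p = y)).card * M ≤ N S * beta S.card (L.length + 1) := by
  intro L
  induction L with
  | nil =>
    intro c i e S prev p y M hfree hM
    have h1 : (univ.filter (fun g : Fin r → Pm n => sat S g ∧ NBr g prev p ((c, i, e) :: []) ∧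
      run g ((c, i, e) :: []) p = y)).card ≤ N (insert (cn i e (c p) y) S) := by
      unfold N
      apply Finset.card_le_card
      intro g hg
      simp only [Finset.mem_filter, Finset.mem_univ, true_and] at hg ⊢
      rw [sat_insert]
      exact ⟨hg.2.2, hg.1⟩
    calc _ ≤ N (insert (cn i e (c p) y) S) * M := Nat.mul_le_mul_right _ h1
      _ ≤ N (insert (cn i e (c p) y) S) * (n - S.card) := by
        apply Nat.mul_le_mul_left
        omega
      _ ≤ N S := N_ins_le S i e (c p) y hfree
      _ ≤ N S * beta S.card (([] : List (Step n r)).length + 1) :=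
        Nat.le_mul_of_pos_right _ (one_le_beta _ _)
  | cons s L ih =>
    obtain ⟨c', i', e'⟩ := s
    intro c i e S prev p y M hfree hM
    set a := c p with ha
    set T : Finset (Fin n) := insert a (touched S) with hT
    set E : Fin n → Finset (Fin r → Pm n) := fun u => univ.filter (fun g : Fin r → Pm n =>
      sat (insert (cn i e a u) S) g ∧ NBr g (some (i, e)) u ((c', i', e') :: L) ∧
      run g ((c', i', e') :: L) u = y) with hE
    have hsplit : (univ.filter (fun g : Fin r → Pm n => sat S g ∧
        NBr g prev p ((c, i, e) :: (c', i', e') :: L) ∧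
        run g ((c, i, e) :: (c', i', e') :: L) p = y)).card ≤ ∑ u, (E u).card := by
      have h0 : (univ.filter (fun g : Fin r → Pm n => sat S g ∧
        NBr g prev p ((c, i, e) :: (c', i', e') :: L) ∧
        run g ((c, i, e) :: (c', i', e') :: L) p = y)) ⊆ univ.biUnion E := by
        intro g hg
        rw [Finset.mem_filter] at hg
        obtain ⟨_, hs, hn, hr⟩ := hg
        rw [Finset.mem_biUnion]
        refine ⟨ap g i e a, Finset.mem_univ _, ?_⟩
        simp only [hE, Finset.mem_filter, Finset.mem_univ, true_and]
        refine ⟨?_, hn.2, hr⟩
        rw [sat_insert]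
        exact ⟨rfl, hs⟩
      exact (Finset.card_le_card h0).trans Finset.card_biUnion_le
    have hEN : ∀ u, (E u).card ≤ N (insert (cn i e a u) S) := by
      intro u
      unfold N
      apply Finset.card_le_card
      intro g hg
      simp only [hE, Finset.mem_filter, Finset.mem_univ, true_and] at hg ⊢
      exact hg.1
    have hbad : ∀ u, (E u).card * M ≤ N S := by
      intro u
      calc (E u).card * M ≤ N (insert (cn i e a u) S) * (n - S.card) :=
            Nat.mul_le_mul (hEN u) (by omega)
        _ ≤ N S := N_ins_le S i e a u hfree
    have hgood : ∀ u, c' u ∉ T →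
        (E u).card * M ≤ N (insert (cn i e a u) S) * beta (S.card + 1) (L.length + 1) := by
      intro u hu
      by_cases hback : (i, e) = (i', !e') ∧ c' u = u
      · have : E u = ∅ := by
          rw [hE, Finset.filter_eq_empty_iff]
          intro g _ hg
          exact hg.2.1.1 (by rw [hback.1]) hback.2
        rw [this]
        simp
      · have hcard : (insert (cn i e a u) S).card = S.card + 1 :=
          Finset.card_insert_of_notMem (hfree u)
        have h2 := ih c' i' e' (insert (cn i e a u) S) (some (i, e)) u y M ?_ ?_
        · rw [hcard] at h2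
          exact h2
        · intro b hb
          rw [Finset.mem_insert] at hb
          rcases hb with hb | hb
          · apply hback
            have hca : c' u ≠ a := by
              intro h
              apply hu
              rw [hT, h]
              exact Finset.mem_insert_self _ _
            cases e <;> cases e' <;> simp [cn] at hb ⊢
            · exact absurd hb.2.2 hca
            · exact ⟨hb.1.symm, hb.2.1⟩
            · exact ⟨hb.1.symm, hb.2.2⟩
            · exact absurd hb.2.1 hca
          · apply hu
            rw [hT]
            exact Finset.mem_insert_of_mem (mem_touched S i' e' _ _ hb)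
        · rw [hcard]
          simp only [List.length_cons] at hM
          omega
    have hBc : (univ.filter (fun u => c' u ∈ T)).card ≤ 2 * S.card + 1 := by
      have h3 : (univ.filter (fun u => c' u ∈ T)).card ≤ T.card := by
        refine Finset.card_le_card_of_injOn c' ?_ (fun x _ y _ h => c'.injective h)
        intro u hu
        simpa using hu
      refine h3.trans ?_
      rw [hT]
      refine (Finset.card_insert_le _ _).trans ?_
      have := touched_card S
      omega
    calc (univ.filter (fun g : Fin r → Pm n => sat S g ∧
        NBr g prev p ((c, i, e) :: (c', i', e') :: L) ∧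
        run g ((c, i, e) :: (c', i', e') :: L) p = y)).card * M
        ≤ (∑ u, (E u).card) * M := Nat.mul_le_mul_right _ hsplit
      _ = ∑ u, (E u).card * M := by rw [Finset.sum_mul]
      _ = (∑ u ∈ univ.filter (fun u => c' u ∈ T), (E u).card * M) +
          ∑ u ∈ univ.filter (fun u => ¬ c' u ∈ T), (E u).card * M := by
          rw [Finset.sum_filter_add_sum_filter_not]
      _ ≤ (∑ _u ∈ univ.filter (fun u => c' u ∈ T), N S) +
          ∑ u ∈ univ.filter (fun u => ¬ c' u ∈ T),
            N (insert (cn i e a u) S) * beta (S.card + 1) (L.length + 1) := by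
          apply Nat.add_le_add
          · exact Finset.sum_le_sum fun u _ => hbad u
          · refine Finset.sum_le_sum fun u hu => hgood u ?_
            exact (Finset.mem_filter.1 hu).2
      _ ≤ (2 * S.card + 1) * N S + ∑ u,
            N (insert (cn i e a u) S) * beta (S.card + 1) (L.length + 1) := by
          apply Nat.add_le_add
          · rw [Finset.sum_const, smul_eq_mul]
            exact Nat.mul_le_mul_right _ hBc
          · exact Finset.sum_le_sum_of_subset (Finset.filter_subset _ _)
      _ = (2 * S.card + 1) * N S + N S * beta (S.card + 1) (L.length + 1) := by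
          rw [← Finset.sum_mul, sum_N]
      _ = N S * beta S.card (((c', i', e') :: L).length + 1) := by
          simp only [List.length_cons]
          rw [show beta S.card (L.length + 1 + 1) = (2 * S.card + 1) +
            beta (S.card + 1) (L.length + 1) from rfl]
          ring

/-! ### deletion of backtracks -/

theorem exists_backtrack (g : Fin r → Pm n) : ∀ (L : List (Step n r))
    (prev : Option (Fin r × Bool)) (p : Fin n), ¬ NBr g prev p L →
    (∃ c i e L', L = (c, i, e) :: L' ∧ prev = some (i, !e) ∧ c p = p) ∨
    (∃ L1 c1 i e c2 L2, L = L1 ++ (c1, i, e) :: (c2, i, !e) :: L2 ∧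
      c2 (ap g i e (c1 (run g L1 p))) = ap g i e (c1 (run g L1 p))) := by
  intro L
  induction L with
  | nil => intro prev p h; exact absurd trivial h
  | cons s L ih =>
    obtain ⟨c, i, e⟩ := s
    intro prev p h
    by_cases h1 : prev = some (i, !e) → c p ≠ p
    · right
      have h2 : ¬ NBr g (some (i, e)) (ap g i e (c p)) L := fun h3 => h ⟨h1, h3⟩
      rcases ih _ _ h2 with ⟨c', i', e', L', hL, hp, hc⟩ | ⟨L1, c1, j, d, c2, L2, hL, hc⟩
      · rw [Option.some.injEq, Prod.mk.injEq] at hp
        obtain ⟨rfl, he⟩ := hp
        have he' : e' = !e := by rw [he]; simp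
        subst he'
        exact ⟨[], c, i, e, c', L', by rw [hL]; rfl, hc⟩
      · exact ⟨(c, i, e) :: L1, c1, j, d, c2, L2, by rw [hL]; rfl, hc⟩
    · left
      push Not at h1
      exact ⟨c, i, e, L, rfl, h1.1, h1.2⟩

/-- content of a list of steps: forget the constants.  Later steps are multiplied on the left. -/
def lett (i : Fin r) (e : Bool) : FreeGroup (Fin r) :=
  if e then FreeGroup.of i else (FreeGroup.of i)⁻¹

def content : List (Step n r) → FreeGroup (Fin r)
  | [] => 1
  | (_, i, e) :: L => content L * lett i e

theorem content_append (L1 L2 : List (Step n r)) :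
    content (L1 ++ L2) = content L2 * content L1 := by
  induction L1 with
  | nil => simp [content]
  | cons s L1 ih =>
    obtain ⟨c, i, e⟩ := s
    simp only [List.cons_append, content, ih, mul_assoc]

theorem lett_not (i : Fin r) (e : Bool) : lett i (!e) * lett i e = 1 := by
  cases e <;> simp [lett]

/-- multiply the first constant on the right by `c` -/
def absorb (c : Pm n) : List (Step n r) → List (Step n r)
  | [] => []
  | (c', i, e) :: L => (c' * c, i, e) :: L

theorem content_absorb (c : Pm n) (L : List (Step n r)) : content (absorb c L) = content L := by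
  cases L with
  | nil => rfl
  | cons s L => rfl

theorem length_absorb (c : Pm n) (L : List (Step n r)) : (absorb c L).length = L.length := by
  cases L with
  | nil => rfl
  | cons s L => rfl

theorem run_absorb (g : Fin r → Pm n) (c : Pm n) (L : List (Step n r)) (hL : L ≠ []) (x : Fin n) :
    run g (absorb c L) x = run g L (c x) := by
  cases L with
  | nil => exact absurd rfl hL
  | cons s L => rfl

open scoped Classical in
noncomputable def cnt (L : List (Step n r)) (x y : Fin n) : ℕ :=
  (univ.filter (fun g : Fin r → Pm n => run g L x = y)).card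

def Cc : ℕ → ℕ
  | 0 => 0
  | l + 1 => beta 0 (l + 1) + (l + 1) * Cc l

theorem N_empty : N (∅ : Finset (Cn n r)) = Fintype.card (Fin r → Pm n) := by
  classical
  unfold N sat
  simp

open scoped Classical in
theorem count_bound : ∀ (l : ℕ) (L : List (Step n r)), L.length ≤ l → content L ≠ 1 →
    ∀ x y : Fin n, cnt L x y * (n - l) ≤ Cc l * Fintype.card (Fin r → Pm n) := by
  intro l
  induction l with
  | zero =>
    intro L hl hc
    have : L = [] := List.length_eq_zero_iff.1 (Nat.le_zero.1 hl)
    subst this
    exact absurd rfl hc
  | succ l ih =>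
    intro L hl hc x y
    rcases Nat.lt_or_ge n (l + 1) with hn | hn
    · have : n - (l + 1) = 0 := by omega
      rw [this, Nat.mul_zero]
      exact Nat.zero_le _
    set T := Fintype.card (Fin r → Pm n) with hT
    set A : Finset (Fin r → Pm n) :=
      univ.filter (fun g => NBr g none x L ∧ run g L x = y) with hA
    set E : ℕ → Finset (Fin r → Pm n) := fun k => univ.filter (fun g =>
      ∃ L1 c1 i e c2 L2, L = L1 ++ (c1, i, e) :: (c2, i, !e) :: L2 ∧ L1.length = k ∧
      c2 (ap g i e (c1 (run g L1 x))) = ap g i e (c1 (run g L1 x)) ∧ run g L x = y) with hE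
    have hcover : (univ.filter (fun g : Fin r → Pm n => run g L x = y)) ⊆
        A ∪ (Finset.range (l + 1)).biUnion E := by
      intro g hg
      rw [Finset.mem_filter] at hg
      rw [Finset.mem_union]
      by_cases hnb : NBr g none x L
      · left
        rw [hA, Finset.mem_filter]
        exact ⟨Finset.mem_univ _, hnb, hg.2⟩
      · right
        rcases exists_backtrack g L none x hnb with ⟨c, i, e, L', _, h2, _⟩ |
          ⟨L1, c1, i, e, c2, L2, h1, h2⟩
        · exact absurd h2 (by simp)
        · rw [Finset.mem_biUnion]
          refine ⟨L1.length, ?_, ?_⟩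
          · rw [Finset.mem_range]
            rw [h1] at hl
            simp only [List.length_append, List.length_cons] at hl
            omega
          · simp only [hE, Finset.mem_filter, Finset.mem_univ, true_and]
            exact ⟨L1, c1, i, e, c2, L2, h1, rfl, h2, hg.2⟩
    have hAc : A.card * (n - (l + 1)) ≤ beta 0 (l + 1) * T := by
      cases hLc : L with
      | nil => exact absurd (by rw [hLc]; rfl) hc
      | cons s L' =>
        obtain ⟨c, i, e⟩ := s
        have h1 := nbr_bound L' c i e ∅ none x y (n - (l + 1)) (by intro b; simp) (by
          rw [hLc] at hl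
          simp only [List.length_cons] at hl
          simp only [Finset.card_empty]
          omega)
        rw [N_empty, Finset.card_empty] at h1
        have h2 : A.card ≤ (univ.filter (fun g : Fin r → Pm n => sat ∅ g ∧
            NBr g none x ((c, i, e) :: L') ∧ run g ((c, i, e) :: L') x = y)).card := by
          apply Finset.card_le_card
          intro g hg
          rw [hA, Finset.mem_filter, hLc] at hg
          rw [Finset.mem_filter]
          exact ⟨Finset.mem_univ _, by intro t ht; simp at ht, hg.2⟩
        calc A.card * (n - (l + 1)) ≤ _ := Nat.mul_le_mul_right _ h2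
          _ ≤ T * beta 0 (L'.length + 1) := h1
          _ ≤ T * beta 0 (l + 1) := by
              apply Nat.mul_le_mul_left
              apply beta_mono
              rw [hLc] at hl
              simpa using hl
          _ = _ := Nat.mul_comm _ _
    have hEc : ∀ k, (E k).card * (n - (l + 1)) ≤ Cc l * T := by
      intro k
      by_cases hk : ∃ L1 c1 i e c2 L2, L = L1 ++ (c1, i, e) :: (c2, i, !e) :: L2 ∧
        L1.length = k
      · obtain ⟨L1, c1, i, e, c2, L2, h1, h2⟩ := hk
        have hlen : (L1 ++ L2).length ≤ l := by
          rw [h1] at hl
          simp only [List.length_append, List.length_cons] at hl ⊢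
          omega
        have hcon : content (L1 ++ L2) ≠ 1 := by
          intro h3
          apply hc
          rw [h1, content_append, content, content, mul_assoc (content L2), lett_not, mul_one,
            ← content_append, h3]
        have hdec : ∀ g ∈ E k, c2 (ap g i e (c1 (run g L1 x))) = ap g i e (c1 (run g L1 x)) ∧
            run g L x = y := by
          intro g hg
          simp only [hE, Finset.mem_filter, Finset.mem_univ, true_and] at hg
          obtain ⟨L1', c1', i', e', c2', L2', h1', h2', h3', h4'⟩ := hg
          rw [h1] at h1'
          have h5 := List.append_inj h1' (by rw [h2, h2'])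
          obtain ⟨h6, h7⟩ := h5
          simp only [List.cons.injEq, Prod.mk.injEq] at h7
          obtain ⟨⟨h8, h9, h10⟩, ⟨h11, _, _⟩, h12⟩ := h7
          subst h6 h8 h9 h10 h11 h12
          exact ⟨h3', h4'⟩
        have hrun : ∀ g ∈ E k, run g L2 (c1 (run g L1 x)) = y := by
          intro g hg
          obtain ⟨h3, h4⟩ := hdec g hg
          rw [h1, run_append] at h4
          simp only [run] at h4
          rw [h3, ap_not] at h4
          exact h4
        have hfin : ∃ (L' : List (Step n r)) (y' : Fin n), L'.length ≤ l ∧ content L' ≠ 1 ∧
            E k ⊆ univ.filter (fun g : Fin r → Pm n => run g L' x = y') := by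
          by_cases hL2 : L2 = []
          · subst hL2
            refine ⟨L1, c1⁻¹ y, ?_, ?_, ?_⟩
            · simpa using hlen
            · simpa using hcon
            · intro g hg
              rw [Finset.mem_filter]
              refine ⟨Finset.mem_univ _, ?_⟩
              have := hrun g hg
              simp only [run] at this
              rw [← this]
              simp
          · refine ⟨L1 ++ absorb c1 L2, y, ?_, ?_, ?_⟩
            · rw [List.length_append, length_absorb, ← List.length_append]
              exact hlen
            · rw [content_append, content_absorb, ← content_append]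
              exact hcon
            · intro g hg
              rw [Finset.mem_filter]
              refine ⟨Finset.mem_univ _, ?_⟩
              rw [run_append, run_absorb g c1 L2 hL2]
              exact hrun g hg
        obtain ⟨L', y', h3, h4, h5⟩ := hfin
        calc (E k).card * (n - (l + 1)) ≤ cnt L' x y' * (n - l) := by
              apply Nat.mul_le_mul
              · exact Finset.card_le_card h5
              · omega
          _ ≤ Cc l * T := ih L' h3 h4 x y'
      · have : E k = ∅ := by
          rw [hE, Finset.filter_eq_empty_iff]
          intro g _ hg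
          apply hk
          obtain ⟨L1', c1', i', e', c2', L2', h1', h2', h3', h4'⟩ := hg
          exact ⟨L1', c1', i', e', c2', L2', h1', h2'⟩
        rw [this]
        simp
    calc cnt L x y * (n - (l + 1))
        ≤ (A.card + ∑ k ∈ Finset.range (l + 1), (E k).card) * (n - (l + 1)) := by
          apply Nat.mul_le_mul_right
          refine (Finset.card_le_card hcover).trans ((Finset.card_union_le _ _).trans ?_)
          exact Nat.add_le_add_left Finset.card_biUnion_le _
      _ = A.card * (n - (l + 1)) + ∑ k ∈ Finset.range (l + 1), (E k).card * (n - (l + 1)) := by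
          rw [add_mul, Finset.sum_mul]
      _ ≤ beta 0 (l + 1) * T + ∑ _k ∈ Finset.range (l + 1), Cc l * T := by
          apply Nat.add_le_add hAc
          exact Finset.sum_le_sum fun k _ => hEc k
      _ = Cc (l + 1) * T := by
          rw [Finset.sum_const, Finset.card_range, smul_eq_mul, Cc]
          ring

end Pool.Agent.Q18.WordC
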