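import Pool.Agent.Q18.WordC1

/-!
Expected numbers of fixed points of powers of word values, and enumerations of a permutation
by long arcs of its cycles.
-/

set_option linter.unusedSectionVars false
set_option linter.style.haveILetI false

namespace Pool.Agent.Q18.WordC

open Finset

variable {n r : ℕ}

/-! ### powers -/

/-- the list of steps of the `(k+1)`-st power of `c0 * R` (without the last constant `c0`) -/
def rep (c0 : Pm n) (R : List (Step n r)) : ℕ → List (Step n r)
  | 0 => R
  | k + 1 => R ++ absorb c0 (rep c0 R k)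

theorem content_rep (c0 : Pm n) (R : List (Step n r)) (k : ℕ) :
    content (rep c0 R k) = content R ^ (k + 1) := by
  induction k with
  | zero => simp [rep]
  | succ k ih =>
    rw [rep, content_append, content_absorb, ih, ← pow_succ]

theorem length_rep (c0 : Pm n) (R : List (Step n r)) (k : ℕ) :
    (rep c0 R k).length = (k + 1) * R.length := by
  induction k with
  | zero => simp [rep]
  | succ k ih =>
    rw [rep, List.length_append, length_absorb, ih]
    ring

theorem run_rep (g : Fin r → Pm n) (c0 : Pm n) (R : List (Step n r)) (hR : R ≠ []) (k : ℕ) :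
    ∀ x, c0 (run g (rep c0 R k) x) = (fun z => c0 (run g R z))^[k + 1] x := by
  induction k with
  | zero => intro x; rfl
  | succ k ih =>
    intro x
    have hne : rep c0 R k ≠ [] := by
      intro h
      have h1 := length_rep c0 R k
      rw [h, List.length_nil] at h1
      have h2 : R.length ≠ 0 := by
        intro h3
        exact hR (List.length_eq_zero_iff.1 h3)
      have h3 : 0 < (k + 1) * R.length := Nat.mul_pos (Nat.succ_pos _) (Nat.pos_of_ne_zero h2)
      omega
    rw [rep, run_append, run_absorb g c0 _ hne, ih, ← Function.iterate_succ_apply]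

/-- number of fixed points -/
def fixc (σ : Pm n) : ℕ := (univ.filter (fun x => σ x = x)).card

theorem fix_bound (V : (Fin r → Pm n) → Pm n) (c0 : Pm n) (R : List (Step n r))
    (hV : ∀ g x, V g x = c0 (run g R x)) (hR : content R ≠ 1) (k l : ℕ)
    (hl : (k + 1) * R.length ≤ l) :
    (∑ g : Fin r → Pm n, fixc (V g ^ (k + 1))) * (n - l) ≤
      n * (Cc l * Fintype.card (Fin r → Pm n)) := by
  classical
  have hR0 : R ≠ [] := by
    rintro rfl
    exact hR rfl
  have h1 : ∀ g x, (V g ^ (k + 1)) x = x ↔ run g (rep c0 R k) x = c0⁻¹ x := by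
    intro g x
    have h2 : (V g ^ (k + 1)) x = c0 (run g (rep c0 R k) x) := by
      rw [run_rep g c0 R hR0 k x, ← Equiv.Perm.iterate_eq_pow]
      have : (⇑(V g)) = fun z => c0 (run g R z) := funext (hV g)
      rw [this]
    rw [h2]
    constructor
    · intro h
      rw [Equiv.Perm.eq_inv_iff_eq, h]
    · intro h
      rw [h]
      simp
  have h3 : ∑ g : Fin r → Pm n, fixc (V g ^ (k + 1)) =
      ∑ x : Fin n, cnt (rep c0 R k) x (c0⁻¹ x) := by
    unfold fixc cnt
    simp only [Finset.card_filter]
    rw [Finset.sum_comm]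
    refine Finset.sum_congr rfl fun x _ => Finset.sum_congr rfl fun g _ => ?_
    by_cases h : run g (rep c0 R k) x = c0⁻¹ x
    · rw [if_pos h, if_pos ((h1 g x).2 h)]
    · rw [if_neg h, if_neg (fun h' => h ((h1 g x).1 h'))]
  have h4 : content (rep c0 R k) ≠ 1 := by
    rw [content_rep]
    intro h
    apply hR
    exact (pow_eq_one_iff_left (Nat.succ_ne_zero k)).1 h
  rw [h3, Finset.sum_mul]
  calc ∑ x : Fin n, cnt (rep c0 R k) x (c0⁻¹ x) * (n - l)
      ≤ ∑ _x : Fin n, Cc l * Fintype.card (Fin r → Pm n) := by
        refine Finset.sum_le_sum fun x _ => ?_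
        exact count_bound l _ (by rw [length_rep]; exact hl) h4 x _
    _ = _ := by rw [Finset.sum_const, Finset.card_univ, Fintype.card_fin, smul_eq_mul]

/-! ### enumerations -/

theorem exists_enum (σ : Pm n) : ∃ e : Pm n, ∀ K : ℕ,
    K * (univ.filter (fun j => σ (e j) ≠ e (finRotate n j))).card ≤
      K * (∑ k ∈ Finset.range K, fixc (σ ^ (k + 1))) + n := by
  classical
  let st := Equiv.Perm.SameCycle.setoid σ
  let Q := Quotient st
  haveI : Finite Q := Quotient.finite st
  letI : Fintype Q := Fintype.ofFinite Q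
  let m := Fintype.card Q
  let q : Fin m ≃ Q := (Fintype.equivFin Q).symm
  let rp : Fin m → Fin n := fun i => (q i).out
  have hrp : Function.Injective rp := by
    intro i j h
    exact q.injective (Quotient.out_injective h)
  let p : Fin m → ℕ := fun i => Function.minimalPeriod σ (rp i)
  have hper : ∀ x : Fin n, 0 < Function.minimalPeriod σ x := by
    intro x
    apply Function.minimalPeriod_pos_of_mem_periodicPts
    rw [Function.mem_periodicPts]
    refine ⟨orderOf σ, orderOf_pos σ, ?_⟩
    rw [Function.IsPeriodicPt, Function.IsFixedPt, Equiv.Perm.iterate_eq_pow, pow_orderOf_eq_one]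
    rfl
  have hp : ∀ i, 0 < p i := fun i => hper _
  have hbij : Function.Bijective
      (fun z : (Σ i : Fin m, Fin (p i)) => (σ ^ (z.2 : ℕ)) (rp z.1)) := by
    constructor
    · rintro ⟨i, s⟩ ⟨j, t⟩ h
      simp only at h
      have hij : i = j := by
        apply q.injective
        have h1 : σ.SameCycle (rp i) (rp j) := by
          have h2 : σ.SameCycle (rp i) ((σ ^ (s : ℕ)) (rp i)) := ⟨(s : ℕ), by simp⟩
          have h3 : σ.SameCycle (rp j) ((σ ^ (t : ℕ)) (rp j)) := ⟨(t : ℕ), by simp⟩
          rw [h] at h2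
          exact h2.trans h3.symm
        have h4 : (⟦rp i⟧ : Q) = ⟦rp j⟧ := Quotient.sound h1
        simpa only [rp, Quotient.out_eq] using h4
      subst hij
      have h5 := Function.iterate_injOn_Iio_minimalPeriod (f := σ) (x := rp i)
      have h6 : (s : ℕ) = (t : ℕ) := by
        apply h5 (show (s : ℕ) ∈ Set.Iio (Function.minimalPeriod σ (rp i)) from s.2)
          (show (t : ℕ) ∈ Set.Iio (Function.minimalPeriod σ (rp i)) from t.2)
        simp only [Equiv.Perm.iterate_eq_pow]
        exact h
      have h7 : s = t := Fin.ext h6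
      rw [h7]
    · intro x
      let i : Fin m := q.symm ⟦x⟧
      have h1 : (⟦rp i⟧ : Q) = ⟦x⟧ := by
        simp only [rp, i, Equiv.apply_symm_apply, Quotient.out_eq]
      have h2 : σ.SameCycle (rp i) x := Quotient.exact h1
      obtain ⟨k, hk⟩ := h2.exists_nat_pow_eq
      refine ⟨⟨i, ⟨k % Function.minimalPeriod σ (rp i), Nat.mod_lt _ (hper _)⟩⟩, ?_⟩
      simp only
      rw [← Equiv.Perm.iterate_eq_pow, Function.iterate_mod_minimalPeriod_eq,
        Equiv.Perm.iterate_eq_pow, hk]
  let E : (Σ i : Fin m, Fin (p i)) ≃ Fin n := Equiv.ofBijective _ hbij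
  have hsum : ∑ i, p i = n := by
    have h1 := Fintype.card_congr E
    rw [Fintype.card_sigma, Fintype.card_fin] at h1
    simpa using h1
  let P : (Σ i : Fin m, Fin (p i)) ≃ Fin (∑ i, p i) := finSigmaFinEquiv
  let pos : Fin n → (Σ i : Fin m, Fin (p i)) := fun j => P.symm (finCongr hsum.symm j)
  let e : Pm n := (finCongr hsum.symm).trans (P.symm.trans E)
  have he : ∀ j, e j = E (pos j) := fun j => rfl
  have hpos : ∀ j, ((P (pos j) : Fin (∑ i, p i)) : ℕ) = (j : ℕ) := by
    intro j
    simp [pos]
  have hbad : ∀ j, σ (e j) ≠ e (finRotate n j) → ((pos j).2 : ℕ) + 1 = p (pos j).1 := by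
    intro j hj
    by_contra hne
    have hlt : ((pos j).2 : ℕ) + 1 < p (pos j).1 := by
      have := (pos j).2.2
      omega
    apply hj
    let z' : (Σ i : Fin m, Fin (p i)) := ⟨(pos j).1, ⟨((pos j).2 : ℕ) + 1, hlt⟩⟩
    have h1 : ((P z' : Fin (∑ i, p i)) : ℕ) = (j : ℕ) + 1 := by
      rw [← hpos j]
      simp only [P, finSigmaFinEquiv_apply, z']
      omega
    have h2 : (j : ℕ) + 1 < n := by
      have := (P z').2
      rw [h1, hsum] at this
      exact this
    have h3 : ((finRotate n j : Fin n) : ℕ) = (j : ℕ) + 1 := by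
      cases n with
      | zero => exact absurd j.2 (Nat.not_lt_zero _)
      | succ n' =>
        apply coe_finRotate_of_ne_last
        intro h
        rw [h] at h2
        simp at h2
    have h4 : pos (finRotate n j) = z' := by
      apply P.injective
      apply Fin.ext
      rw [hpos, h1, h3]
    rw [he, he, h4]
    show σ ((σ ^ ((pos j).2 : ℕ)) (rp (pos j).1)) = (σ ^ (((pos j).2 : ℕ) + 1)) (rp (pos j).1)
    rw [pow_succ', Equiv.Perm.mul_apply]
  refine ⟨e, fun K => ?_⟩
  have hm : (univ.filter (fun j => σ (e j) ≠ e (finRotate n j))).card ≤ m := by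
    have h1 : (univ.filter (fun j => σ (e j) ≠ e (finRotate n j))).card ≤
        (univ : Finset (Fin m)).card := by
      refine Finset.card_le_card_of_injOn (fun j => (pos j).1) (by intro _ _; simp) ?_
      intro j hj j' hj' h
      simp only [Finset.coe_filter, Finset.mem_univ, true_and, Set.mem_ofPred_eq] at hj hj'
      have h1 := hbad j hj
      have h2 := hbad j' hj'
      simp only at h
      apply Fin.ext
      rw [← hpos j, ← hpos j']
      congr 2
      apply Sigma.ext h
      rw [Fin.heq_ext_iff (by rw [h])]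
      have h3 : p (pos j).1 = p (pos j').1 := congrArg p h
      omega
    rwa [Finset.card_univ, Fintype.card_fin] at h1
  have hsmall : (univ.filter (fun i => p i ≤ K)).card ≤
      ∑ k ∈ Finset.range K, fixc (σ ^ (k + 1)) := by
    have h1 : (univ.filter (fun i => p i ≤ K)) ⊆
        (Finset.range K).biUnion (fun k => univ.filter (fun i => p i = k + 1)) := by
      intro i hi
      rw [Finset.mem_filter] at hi
      rw [Finset.mem_biUnion]
      refine ⟨p i - 1, ?_, ?_⟩
      · rw [Finset.mem_range]
        have := hp i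
        omega
      · rw [Finset.mem_filter]
        have := hp i
        exact ⟨Finset.mem_univ _, by omega⟩
    refine (Finset.card_le_card h1).trans (Finset.card_biUnion_le.trans ?_)
    refine Finset.sum_le_sum fun k _ => ?_
    unfold fixc
    refine Finset.card_le_card_of_injOn rp ?_ (fun x _ y _ h => hrp h)
    intro i hi
    simp only [Finset.coe_filter, Finset.mem_univ, true_and, Set.mem_ofPred_eq] at hi ⊢
    rw [← hi, ← Equiv.Perm.iterate_eq_pow]
    exact Function.iterate_minimalPeriod
  have hbig : K * (univ.filter (fun i => ¬ p i ≤ K)).card ≤ n := by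
    calc K * (univ.filter (fun i => ¬ p i ≤ K)).card
        = ∑ _i ∈ univ.filter (fun i => ¬ p i ≤ K), K := by
          rw [Finset.sum_const, smul_eq_mul, mul_comm]
      _ ≤ ∑ i ∈ univ.filter (fun i => ¬ p i ≤ K), p i := by
          refine Finset.sum_le_sum fun i hi => ?_
          rw [Finset.mem_filter] at hi
          omega
      _ ≤ ∑ i, p i := Finset.sum_le_sum_of_subset (Finset.filter_subset _ _)
      _ = n := hsum
  have hmm : m = (univ.filter (fun i => p i ≤ K)).card +
      (univ.filter (fun i => ¬ p i ≤ K)).card := by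
    rw [Finset.card_filter_add_card_filter_not, Finset.card_univ, Fintype.card_fin]
  calc K * (univ.filter (fun j => σ (e j) ≠ e (finRotate n j))).card ≤ K * m :=
        Nat.mul_le_mul_left _ hm
    _ = K * (univ.filter (fun i => p i ≤ K)).card +
        K * (univ.filter (fun i => ¬ p i ≤ K)).card := by rw [← mul_add, ← hmm]
    _ ≤ _ := Nat.add_le_add (Nat.mul_le_mul_left _ hsmall) hbig

/-- a good enumeration -/
noncomputable def enum (σ : Pm n) : Pm n := Classical.choose (exists_enum σ)

/-- number of places where the enumeration fails to follow `σ` -/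
noncomputable def bad (σ : Pm n) : ℕ :=
  (univ.filter (fun j => σ (enum σ j) ≠ enum σ (finRotate n j))).card

theorem bad_le (σ : Pm n) (K : ℕ) :
    K * bad σ ≤ K * (∑ k ∈ Finset.range K, fixc (σ ^ (k + 1))) + n :=
  Classical.choose_spec (exists_enum σ) K

/-- the sum of `bad` over all values of a nonsingular word -/
theorem sum_bad_le (V : (Fin r → Pm n) → Pm n) (c0 : Pm n) (R : List (Step n r))
    (hV : ∀ g x, V g x = c0 (run g R x)) (hR : content R ≠ 1) (K l : ℕ) (hl : R.length ≤ l) :
    (K * ∑ g : Fin r → Pm n, bad (V g)) * (n - K * l) ≤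
      K * (K * (n * (Cc (K * l) * Fintype.card (Fin r → Pm n)))) +
        Fintype.card (Fin r → Pm n) * n * (n - K * l) := by
  have h1 : K * ∑ g : Fin r → Pm n, bad (V g) ≤
      K * (∑ k ∈ Finset.range K, ∑ g : Fin r → Pm n, fixc (V g ^ (k + 1))) +
        Fintype.card (Fin r → Pm n) * n := by
    rw [Finset.mul_sum]
    calc ∑ g : Fin r → Pm n, K * bad (V g)
        ≤ ∑ g : Fin r → Pm n, (K * (∑ k ∈ Finset.range K, fixc (V g ^ (k + 1))) + n) :=
          Finset.sum_le_sum fun g _ => bad_le (V g) K
      _ = _ := by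
          rw [Finset.sum_add_distrib, ← Finset.mul_sum, Finset.sum_comm, Finset.sum_const,
            Finset.card_univ, smul_eq_mul]
  have h2 : (∑ k ∈ Finset.range K, ∑ g : Fin r → Pm n, fixc (V g ^ (k + 1))) * (n - K * l) ≤
      K * (n * (Cc (K * l) * Fintype.card (Fin r → Pm n))) := by
    rw [Finset.sum_mul]
    calc ∑ k ∈ Finset.range K, (∑ g : Fin r → Pm n, fixc (V g ^ (k + 1))) * (n - K * l)
        ≤ ∑ _k ∈ Finset.range K, (n * (Cc (K * l) * Fintype.card (Fin r → Pm n))) := by
          refine Finset.sum_le_sum fun k hk => ?_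
          rw [Finset.mem_range] at hk
          exact fix_bound V c0 R hV hR k (K * l) (Nat.mul_le_mul hk hl)
      _ = _ := by rw [Finset.sum_const, Finset.card_range, smul_eq_mul]
  calc (K * ∑ g : Fin r → Pm n, bad (V g)) * (n - K * l)
      ≤ (K * (∑ k ∈ Finset.range K, ∑ g : Fin r → Pm n, fixc (V g ^ (k + 1))) +
        Fintype.card (Fin r → Pm n) * n) * (n - K * l) := Nat.mul_le_mul_right _ h1
    _ = K * ((∑ k ∈ Finset.range K, ∑ g : Fin r → Pm n, fixc (V g ^ (k + 1))) * (n - K * l)) +
        Fintype.card (Fin r → Pm n) * n * (n - K * l) := by ring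
    _ ≤ _ := Nat.add_le_add_right (Nat.mul_le_mul_left _ h2) _

end Pool.Agent.Q18.WordC
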