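import Mathlib
import Pool.Agent.Q18.Schur
import Pool.Agent.Q18.RootSum

set_option linter.unusedSectionVars false

/-!
# The wreath product `C_p ≀ H` (regular action)
-/

namespace Q18

open Module

/-- the wreath product `C_p ≀ H`, as a set -/
@[ext] structure Wr (p : ℕ) (H : Type) where
  v : H → ZMod p
  h : H

namespace Wr

variable {p : ℕ} {H : Type} [Group H]

/-- translation -/
def tr (a : H) : (H → ZMod p) →+ (H → ZMod p) where
  toFun w := fun x => w (a⁻¹ * x)
  map_zero' := rfl
  map_add' _ _ := rfl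

theorem tr_apply (a : H) (w : H → ZMod p) (x : H) : tr a w x = w (a⁻¹ * x) := rfl

@[simp] theorem tr_one (w : H → ZMod p) : tr 1 w = w := by
  funext x; simp [tr_apply]

theorem tr_mul (a b : H) (w : H → ZMod p) : tr (a * b) w = tr a (tr b w) := by
  funext x; simp [tr_apply, mul_assoc]

instance : Mul (Wr p H) := ⟨fun g g' => ⟨g.v + tr g.h g'.v, g.h * g'.h⟩⟩
instance : One (Wr p H) := ⟨⟨0, 1⟩⟩
instance : Inv (Wr p H) := ⟨fun g => ⟨-(tr g.h⁻¹ g.v), g.h⁻¹⟩⟩

@[simp] theorem mul_v (g g' : Wr p H) : (g * g').v = g.v + tr g.h g'.v := rfl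
@[simp] theorem mul_h (g g' : Wr p H) : (g * g').h = g.h * g'.h := rfl
@[simp] theorem one_v : (1 : Wr p H).v = 0 := rfl
@[simp] theorem one_h : (1 : Wr p H).h = 1 := rfl
@[simp] theorem inv_v (g : Wr p H) : (g⁻¹).v = -(tr g.h⁻¹ g.v) := rfl
@[simp] theorem inv_h (g : Wr p H) : (g⁻¹).h = g.h⁻¹ := rfl

instance : Group (Wr p H) :=
  Group.ofLeftAxioms
    (by
      intro a b c
      ext1
      · simp [tr_mul, add_assoc]
      · simp [mul_assoc])
    (by intro a; ext1 <;> simp)
    (by
      intro a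
      ext1 <;> simp)

/-- as a product -/
def equivProd : Wr p H ≃ H × (H → ZMod p) where
  toFun g := (g.h, g.v)
  invFun q := ⟨q.2, q.1⟩
  left_inv _ := rfl
  right_inv _ := rfl

instance [NeZero p] [Finite H] : Finite (Wr p H) := Finite.of_equiv _ equivProd.symm

noncomputable instance [NeZero p] [Finite H] : Fintype (Wr p H) := Fintype.ofFinite _

theorem card_eq [NeZero p] [Finite H] :
    Nat.card (Wr p H) = Nat.card H * p ^ Nat.card H := by
  classical
  have : Fintype H := Fintype.ofFinite H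
  rw [Nat.card_congr equivProd, Nat.card_prod]
  congr 1
  rw [Nat.card_eq_fintype_card, Fintype.card_fun, ZMod.card, Nat.card_eq_fintype_card]

/-- projection to `H` -/
def pr : Wr p H →* H where
  toFun g := g.h
  map_one' := rfl
  map_mul' _ _ := rfl

theorem pr_surjective : Function.Surjective (pr : Wr p H →* H) := fun h => ⟨⟨0, h⟩, rfl⟩

/-- base group elements -/
def bs (w : H → ZMod p) : Wr p H := ⟨w, 1⟩

theorem bs_mul (w w' : H → ZMod p) : (bs w : Wr p H) * bs w' = bs (w + w') := by
  ext1 <;> simp [bs]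

theorem bs_zero : (bs 0 : Wr p H) = 1 := rfl

theorem bs_inv (w : H → ZMod p) : (bs w : Wr p H)⁻¹ = bs (-w) := by
  rw [inv_eq_iff_mul_eq_one, bs_mul, add_neg_cancel, bs_zero]

theorem conj_bs (t : Wr p H) (w : H → ZMod p) : t * bs w * t⁻¹ = bs (tr t.h w) := by
  rw [mul_inv_eq_iff_eq_mul]
  ext1 <;> simp [bs, add_comm]

theorem eq_bs (g : Wr p H) (h : g.h = 1) : g = bs g.v := by
  ext1
  · rfl
  · exact h

section char

variable [Finite H] [hp : Fact p.Prime] {V : Type*} [AddCommGroup V] [Module ℂ V]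
  [FiniteDimensional ℂ V]

theorem char_bs_ne_zero (hpH : ¬ p ∣ Nat.card H) (ρ : Representation ℂ (Wr p H) V)
    (hρ : ρ.IsIrreducible) (w : H → ZMod p) : ρ.character (bs w) ≠ 0 := by
  classical
  intro hχ
  have : Fintype H := Fintype.ofFinite H
  have hV : Nontrivial V := nontrivial_of_irreducible ρ hρ
  have h1 := sum_conj_eq_zero ρ hρ (bs w) hχ
  simp only [conj_bs] at h1
  obtain ⟨x, hx, hf⟩ := exists_common_eigenvector
    (fun u : H → ZMod p => (ρ (bs u) : Module.End ℂ V))
    (by
      intro i j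
      change ρ _ * ρ _ = ρ _ * ρ _
      rw [← map_mul, ← map_mul, bs_mul, bs_mul, add_comm])
  choose β hβ using hf
  have hβ' : ∀ u, ρ (bs u) x = β u • x := hβ
  have hpow : ∀ u (n : ℕ), ρ (bs (n • u)) x = (β u ^ n) • x := by
    intro u n
    induction n with
    | zero => simp [bs_zero]
    | succ n ih =>
      rw [succ_nsmul, ← bs_mul, map_mul, Module.End.mul_apply, hβ', map_smul, ih, smul_smul,
        pow_succ']
  have hβp : ∀ u, β u ^ p = 1 := by
    intro u
    have h2 := hpow u p
    have h3 : p • u = 0 := by funext y; simp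
    rw [h3, bs_zero, map_one, Module.End.one_apply] at h2
    have h4 : (1 : ℂ) • x = (β u ^ p) • x := by rw [one_smul]; exact h2
    exact (smul_left_injective ℂ hx h4).symm
  have h5 : ∑ t : Wr p H, β (tr t.h w) = 0 := by
    have h6 : (∑ t : Wr p H, ρ (bs (tr t.h w))) x = 0 := by rw [h1]; rfl
    rw [LinearMap.sum_apply] at h6
    simp only [hβ'] at h6
    rw [← Finset.sum_smul] at h6
    exact (smul_eq_zero.1 h6).resolve_right hx
  have h7 : ∑ t : Wr p H, β (tr t.h w) =
      (Fintype.card (H → ZMod p) : ℂ) * ∑ h : H, β (tr h w) := by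
    rw [Fintype.sum_equiv (equivProd (p := p) (H := H)) (fun t => β (tr t.h w))
      (fun q => β (tr q.1 w)) (fun _ => rfl), Fintype.sum_prod_type]
    simp only [Finset.sum_const, Finset.card_univ, nsmul_eq_mul]
    rw [Finset.mul_sum]
  rw [h7] at h5
  have h8 := (mul_eq_zero.1 h5).resolve_left (by exact_mod_cast Fintype.card_ne_zero)
  refine sum_int_root_ne_zero (Finset.univ : Finset H) p hp.out (fun _ => 1)
    (fun h => β (tr h w)) (fun h _ => hβp _) ?_ (by simpa using h8)
  simp only [Finset.sum_const, Finset.card_univ, nsmul_eq_mul, mul_one]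
  rw [← Nat.card_eq_fintype_card]
  exact_mod_cast hpH

end char

section comm

variable [Finite H] [hp : Fact p.Prime]

theorem commute_iff (g g' : Wr p H) : Commute g g' ↔
    g.h * g'.h = g'.h * g.h ∧ g.v + tr g.h g'.v = g'.v + tr g'.h g.v := by
  constructor
  · intro h
    exact ⟨congrArg Wr.h h.eq, congrArg Wr.v h.eq⟩
  · rintro ⟨h1, h2⟩
    exact Wr.ext h2 h1

/-- The solutions of `w - a w = c`, `a ≠ 1`, are at most `p ^ (|H| - 1)` in number. -/
theorem card_sol [Fintype H] (a : H) (ha : a ≠ 1) (c : H → ZMod p) :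
    Nat.card {w : H → ZMod p // w = tr a w + c} ≤ p ^ (Nat.card H - 1) := by
  classical
  have hinj : Function.Injective (fun (w : {w : H → ZMod p // w = tr a w + c})
      (y : {y : H // y ≠ 1}) => w.1 y.1) := by
    rintro ⟨w, hw⟩ ⟨w', hw'⟩ h
    have h1 : ∀ y : H, y ≠ 1 → w y = w' y := fun y hy => congrFun h ⟨y, hy⟩
    apply Subtype.ext
    funext y
    by_cases hy : y = 1
    · subst hy
      have e1 := congrFun hw a
      have e2 := congrFun hw' a
      simp only [Pi.add_apply, tr_apply, inv_mul_cancel] at e1 e2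
      have e3 := h1 a ha
      rw [e1, e2] at e3
      exact add_right_cancel e3
    · exact h1 y hy
  refine (Nat.card_le_card_of_injective _ hinj).trans ?_
  rw [Nat.card_eq_fintype_card, Fintype.card_fun, ZMod.card, Fintype.card_subtype_compl,
    Fintype.card_subtype_eq, Nat.card_eq_fintype_card]

theorem card_fib [Fintype H] (a b : H) (hab : ¬ (a = 1 ∧ b = 1)) :
    Nat.card {q : (H → ZMod p) × (H → ZMod p) // q.1 + tr a q.2 = q.2 + tr b q.1} ≤
      p ^ Nat.card H * p ^ (Nat.card H - 1) := by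
  classical
  have hV : Nat.card (H → ZMod p) = p ^ Nat.card H := by
    rw [Nat.card_eq_fintype_card, Fintype.card_fun, ZMod.card, Nat.card_eq_fintype_card]
  by_cases ha : a = 1
  · have hb : b ≠ 1 := fun h => hab ⟨ha, h⟩
    let e : {q : (H → ZMod p) × (H → ZMod p) // q.1 + tr a q.2 = q.2 + tr b q.1} →
        (w : H → ZMod p) × {v : H → ZMod p // v = tr b v + (w - tr a w)} :=
      fun q => ⟨q.1.2, ⟨q.1.1, by
        have := q.2
        rw [← add_sub_assoc, eq_sub_iff_add_eq, this, add_comm]⟩⟩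
    have he : Function.Injective e := by
      rintro ⟨⟨v, w⟩, h⟩ ⟨⟨v', w'⟩, h'⟩ heq
      simp only [e, Sigma.mk.injEq] at heq
      obtain ⟨rfl, h2⟩ := heq
      have h3 : v = v' := congrArg Subtype.val (eq_of_heq h2)
      subst h3; rfl
    refine (Nat.card_le_card_of_injective e he).trans ?_
    rw [Nat.card_sigma]
    refine (Finset.sum_le_card_nsmul _ _ _ (fun w _ => card_sol b hb _)).trans ?_
    rw [smul_eq_mul, Finset.card_univ, ← Nat.card_eq_fintype_card, hV]
  · let e : {q : (H → ZMod p) × (H → ZMod p) // q.1 + tr a q.2 = q.2 + tr b q.1} →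
        (v : H → ZMod p) × {w : H → ZMod p // w = tr a w + (v - tr b v)} :=
      fun q => ⟨q.1.1, ⟨q.1.2, by
        have := q.2
        rw [← add_sub_assoc, eq_sub_iff_add_eq, ← this, add_comm]⟩⟩
    have he : Function.Injective e := by
      rintro ⟨⟨v, w⟩, h⟩ ⟨⟨v', w'⟩, h'⟩ heq
      simp only [e, Sigma.mk.injEq] at heq
      obtain ⟨rfl, h2⟩ := heq
      have h3 : w = w' := congrArg Subtype.val (eq_of_heq h2)
      subst h3; rfl
    refine (Nat.card_le_card_of_injective e he).trans ?_
    rw [Nat.card_sigma]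
    refine (Finset.sum_le_card_nsmul _ _ _ (fun w _ => card_sol a ha _)).trans ?_
    rw [smul_eq_mul, Finset.card_univ, ← Nat.card_eq_fintype_card, hV]

/-- the class number -/
theorem card_classes_le :
    Nat.card (ConjClasses (Wr p H)) * Nat.card H ≤
      p ^ Nat.card H + Nat.card H ^ 2 * p ^ (Nat.card H - 1) := by
  classical
  have : Fintype H := Fintype.ofFinite H
  have hV : Nat.card (H → ZMod p) = p ^ Nat.card H := by
    rw [Nat.card_eq_fintype_card, Fintype.card_fun, ZMod.card, Nat.card_eq_fintype_card]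
  have hcomm := card_comm_eq_card_conjClasses_mul_card (Wr p H)
  have hle : Nat.card {q : Wr p H × Wr p H // Commute q.1 q.2} ≤
      p ^ Nat.card H * (p ^ Nat.card H + Nat.card H ^ 2 * p ^ (Nat.card H - 1)) := by
    let e : {q : Wr p H × Wr p H // Commute q.1 q.2} →
        (ab : H × H) × {q : (H → ZMod p) × (H → ZMod p) // q.1 + tr ab.1 q.2 = q.2 + tr ab.2 q.1} :=
      fun q => ⟨(q.1.1.h, q.1.2.h), ⟨(q.1.1.v, q.1.2.v), ((commute_iff _ _).1 q.2).2⟩⟩
    have he : Function.Injective e := by
      rintro ⟨⟨⟨v, a⟩, ⟨w, b⟩⟩, h⟩ ⟨⟨⟨v', a'⟩, ⟨w', b'⟩⟩, h'⟩ heq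
      simp only [e, Sigma.mk.injEq, Prod.mk.injEq] at heq
      obtain ⟨⟨rfl, rfl⟩, h2⟩ := heq
      have h3 : (v, w) = (v', w') := congrArg Subtype.val (eq_of_heq h2)
      simp only [Prod.mk.injEq] at h3
      obtain ⟨rfl, rfl⟩ := h3
      rfl
    refine (Nat.card_le_card_of_injective e he).trans ?_
    rw [Nat.card_sigma]
    have hb : ∀ ab : H × H, Nat.card {q : (H → ZMod p) × (H → ZMod p) //
        q.1 + tr ab.1 q.2 = q.2 + tr ab.2 q.1} ≤
        (if ab = (1, 1) then p ^ Nat.card H * p ^ Nat.card H else 0) +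
          p ^ Nat.card H * p ^ (Nat.card H - 1) := by
      rintro ⟨a, b⟩
      by_cases hab : a = 1 ∧ b = 1
      · obtain ⟨rfl, rfl⟩ := hab
        rw [if_pos rfl]
        refine le_trans ?_ (Nat.le_add_right _ _)
        refine (Nat.card_le_card_of_injective Subtype.val Subtype.val_injective).trans ?_
        rw [Nat.card_prod, hV]
      · rw [if_neg (by simpa using hab), zero_add]
        exact card_fib a b hab
    refine (Finset.sum_le_sum (fun ab _ => hb ab)).trans ?_
    rw [Finset.sum_add_distrib, Finset.sum_ite_eq', if_pos (Finset.mem_univ _), Finset.sum_const,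
      Finset.card_univ, Fintype.card_prod, smul_eq_mul, ← Nat.card_eq_fintype_card]
    apply le_of_eq
    ring
  rw [hcomm, card_eq] at hle
  have hpos : 0 < p ^ Nat.card H := pow_pos hp.out.pos _
  have h2 : p ^ Nat.card H * (Nat.card (ConjClasses (Wr p H)) * Nat.card H) ≤
      p ^ Nat.card H * (p ^ Nat.card H + Nat.card H ^ 2 * p ^ (Nat.card H - 1)) := by
    refine le_trans (le_of_eq ?_) hle
    ring
  exact Nat.le_of_mul_le_mul_left h2 hpos

/-- the number of classes inside the base group -/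
theorem card_base_classes :
    p ^ Nat.card H ≤ Nat.card {C : ConjClasses (Wr p H) // ∃ w, ConjClasses.mk (bs w) = C} *
      Nat.card H := by
  classical
  have : Fintype H := Fintype.ofFinite H
  have hV : Nat.card (H → ZMod p) = p ^ Nat.card H := by
    rw [Nat.card_eq_fintype_card, Fintype.card_fun, ZMod.card, Nat.card_eq_fintype_card]
  let B := {C : ConjClasses (Wr p H) // ∃ w, ConjClasses.mk (bs w) = C}
  -- a surjection `B × H → V`
  let f : B × H → (H → ZMod p) := fun q => tr q.2 (Classical.choose q.1.2)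
  have hf : Function.Surjective f := by
    intro w
    let C : B := ⟨ConjClasses.mk (bs w), w, rfl⟩
    have hC : ConjClasses.mk (bs (Classical.choose C.2)) = ConjClasses.mk (bs w) :=
      Classical.choose_spec C.2
    rw [ConjClasses.mk_eq_mk_iff_isConj, isConj_iff] at hC
    obtain ⟨t, ht⟩ := hC
    rw [conj_bs] at ht
    exact ⟨(C, t.h), congrArg Wr.v ht⟩
  have := Nat.card_le_card_of_surjective f hf
  rwa [hV, Nat.card_prod] at this

end comm

end Wr

end Q18
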