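import Mathlib

set_option linter.unusedSectionVars false

namespace Q18.Zr

/-- The underlying set of the group `(P × A) ⋊ C`. -/
@[ext] structure Gr (A : Type) {F R : Type} [Field F] [Field R] (θ : Fˣ →* Rˣ) where
  x : F
  u : F
  a : A
  c : Fˣ

variable {F R A : Type} [Field F] [CharP F 2] [Field R] [AddCommGroup A] [Module R A]
  {θ : Fˣ →* Rˣ}

namespace Gr

instance : Mul (Gr A θ) :=
  ⟨fun g h => ⟨g.x + g.c * h.x, g.u + g.c ^ 3 * h.u + g.x * (g.c * h.x) ^ 2,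
    g.a + (θ g.c) • h.a, g.c * h.c⟩⟩

instance : One (Gr A θ) := ⟨⟨0, 0, 0, 1⟩⟩

instance : Inv (Gr A θ) :=
  ⟨fun g => ⟨((g.c⁻¹ : Fˣ) : F) * g.x, ((g.c⁻¹ : Fˣ) : F) ^ 3 * (g.u + g.x ^ 3),
    -((θ g.c)⁻¹ • g.a), g.c⁻¹⟩⟩

omit [CharP F 2] in
@[simp] theorem mul_x (g h : Gr A θ) : (g * h).x = g.x + g.c * h.x := rfl
omit [CharP F 2] in
@[simp] theorem mul_u (g h : Gr A θ) :
    (g * h).u = g.u + g.c ^ 3 * h.u + g.x * (g.c * h.x) ^ 2 := rfl
omit [CharP F 2] in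
@[simp] theorem mul_a (g h : Gr A θ) : (g * h).a = g.a + (θ g.c) • h.a := rfl
omit [CharP F 2] in
@[simp] theorem mul_c (g h : Gr A θ) : (g * h).c = g.c * h.c := rfl
omit [CharP F 2] in
@[simp] theorem one_x : (1 : Gr A θ).x = 0 := rfl
omit [CharP F 2] in
@[simp] theorem one_u : (1 : Gr A θ).u = 0 := rfl
omit [CharP F 2] in
@[simp] theorem one_a : (1 : Gr A θ).a = 0 := rfl
omit [CharP F 2] in
@[simp] theorem one_c : (1 : Gr A θ).c = 1 := rfl
omit [CharP F 2] in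
@[simp] theorem inv_x (g : Gr A θ) : (g⁻¹).x = ((g.c⁻¹ : Fˣ) : F) * g.x := rfl
omit [CharP F 2] in
@[simp] theorem inv_u (g : Gr A θ) :
    (g⁻¹).u = ((g.c⁻¹ : Fˣ) : F) ^ 3 * (g.u + g.x ^ 3) := rfl
omit [CharP F 2] in
@[simp] theorem inv_a (g : Gr A θ) : (g⁻¹).a = -((θ g.c)⁻¹ • g.a) := rfl
omit [CharP F 2] in
@[simp] theorem inv_c (g : Gr A θ) : (g⁻¹).c = g.c⁻¹ := rfl

instance : Group (Gr A θ) :=
  Group.ofLeftAxioms
    (by
      intro g h k
      ext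
      · simp; ring
      · simp only [mul_u, mul_x, mul_c, Units.val_mul]
        rw [mul_pow (g.c : F) (h.x + h.c * k.x) 2, CharTwo.add_sq]
        ring
      · simp [mul_smul, add_assoc]
      · simp [mul_assoc])
    (by
      intro g
      ext <;> simp)
    (by
      intro g
      ext
      · simp [CharTwo.add_self_eq_zero]
      · simp only [mul_u, inv_u, inv_x, inv_c, one_u]
        have : ((g.c⁻¹ : Fˣ) : F) ^ 3 * (g.u + g.x ^ 3) + ((g.c⁻¹ : Fˣ) : F) ^ 3 * g.u +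
          ((g.c⁻¹ : Fˣ) : F) * g.x * (((g.c⁻¹ : Fˣ) : F) * g.x) ^ 2 =
          (((g.c⁻¹ : Fˣ) : F) ^ 3 * (g.u + g.x ^ 3)) + (((g.c⁻¹ : Fˣ) : F) ^ 3 * (g.u + g.x ^ 3)) := by
          ring
        rw [this, CharTwo.add_self_eq_zero]
      · simp
      · simp)

/-- The group as a product of sets. -/
def equivProd : Gr A θ ≃ (Fˣ × F) × (F × A) where
  toFun g := ((g.c, g.x), (g.u, g.a))
  invFun p := ⟨p.1.2, p.2.1, p.2.2, p.1.1⟩
  left_inv _ := rfl
  right_inv _ := rfl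

instance [Finite F] [Finite A] : Finite (Gr A θ) := Finite.of_equiv _ equivProd.symm

/-- The element of the kernel `K = P × A` with the given coordinates. -/
def kk (x u : F) (a : A) : Gr A θ := ⟨x, u, a, 1⟩

theorem kk_mul (x y u v : F) (a b : A) :
    (kk x u a : Gr A θ) * kk y v b = kk (x + y) (u + v + x * y ^ 2) (a + b) := by
  ext <;> simp [kk]

theorem kk_zero : (kk 0 0 0 : Gr A θ) = 1 := rfl

theorem eq_kk (g : Gr A θ) (h : g.c = 1) : g = kk g.x g.u g.a := by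
  ext <;> simp [kk, h]

theorem conj_kk (t : Gr A θ) (x u : F) (a : A) :
    t * kk x u a * t⁻¹ = kk (t.c * x) (t.c ^ 3 * u + (t.c * x * t.x ^ 2 + (t.c * x) ^ 2 * t.x))
      (θ t.c • a) := by
  rw [mul_inv_eq_iff_eq_mul]
  ext
  · simp [kk, add_comm]
  · simp only [kk, mul_u, Units.val_one]
    have : (t.c : F) ^ 3 * u + (t.c * x * t.x ^ 2 + (t.c * x) ^ 2 * t.x) + 1 ^ 3 * t.u +
        t.c * x * (1 * t.x) ^ 2 = t.u + t.c ^ 3 * u + t.x * (t.c * x) ^ 2 +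
        (t.c * x * t.x ^ 2 + t.c * x * t.x ^ 2) := by ring
    rw [this, CharTwo.add_self_eq_zero, add_zero]
  · simp [kk, add_comm]
  · simp [kk]

end Gr

end Q18.Zr
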