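import Mathlib
import Pool.Agent.Q18.Schur
import Pool.Agent.Q18.RootSum
import Pool.Agent.Q18.ZrGroup

set_option linter.unusedSectionVars false

namespace Q18.Zr

open Gr Module Representation
open scoped Classical

variable {F A : Type} [Field F] [Fintype F] [CharP F 2] {R : Type} [Field R]
  [AddCommGroup A] [Module R A] [Fintype A] {θ : Fˣ →* Rˣ}

noncomputable instance : Fintype (Gr A θ) := Fintype.ofFinite _

theorem sum_gr {M : Type*} [AddCommMonoid M] (Φ : Fˣ → F → M) :
    ∑ t : Gr A θ, Φ t.c t.x = (Fintype.card F * Fintype.card A) • ∑ c : Fˣ, ∑ y : F, Φ c y := by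
  rw [Fintype.sum_equiv (equivProd (A := A) (θ := θ)) (fun t : Gr A θ => Φ t.c t.x)
    (fun p => Φ p.1.1 p.1.2) (fun _ => rfl)]
  rw [Fintype.sum_prod_type]
  simp only [Finset.sum_const, Finset.card_univ, Fintype.card_prod]
  rw [Fintype.sum_prod_type, Finset.smul_sum]
  refine Finset.sum_congr rfl fun c _ => ?_
  rw [Finset.smul_sum]

variable {V : Type*} [AddCommGroup V] [Module ℂ V] [FiniteDimensional ℂ V]

theorem main_sum (ρ : Representation ℂ (Gr A θ) V) (hρ : ρ.IsIrreducible) (x u : F) (a : A)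
    (h : ρ.character (kk x u a) = 0) :
    ∑ c : Fˣ, ∑ y : F, ρ (kk (c * x) (c ^ 3 * u + (c * x * y ^ 2 + (c * x) ^ 2 * y))
      (θ c • a)) = 0 := by
  have h1 := sum_conj_eq_zero ρ hρ (kk x u a) h
  simp only [conj_kk] at h1
  rw [sum_gr (fun (c : Fˣ) (y : F) => ρ (kk ((c : F) * x)
      ((c : F) ^ 3 * u + ((c : F) * x * y ^ 2 + ((c : F) * x) ^ 2 * y)) (θ c • a)))] at h1
  have hne : ((Fintype.card F * Fintype.card A : ℕ) : ℂ) ≠ 0 := by
    exact_mod_cast Nat.mul_ne_zero Fintype.card_ne_zero Fintype.card_ne_zero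
  rw [← Nat.cast_smul_eq_nsmul ℂ] at h1
  exact (smul_eq_zero.1 h1).resolve_left hne

/-- common eigenvector for the centre of the kernel -/
theorem exists_char (ρ : Representation ℂ (Gr A θ) V) [Nontrivial V] :
    ∃ (v : V) (lam : F → ℂ) (μ : A → ℂ), v ≠ 0 ∧ (∀ w b, ρ (kk 0 w b) v = (lam w * μ b) • v) ∧
      (∀ w w', lam (w + w') = lam w * lam w') ∧ (∀ b b', μ (b + b') = μ b * μ b') ∧
      lam 0 = 1 ∧ μ 0 = 1 := by
  obtain ⟨v, hv, hf⟩ := exists_common_eigenvector
    (fun q : F × A => (ρ (kk 0 q.1 q.2) : Module.End ℂ V))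
    (by
      intro i j
      change ρ _ * ρ _ = ρ _ * ρ _
      rw [← map_mul, ← map_mul, kk_mul, kk_mul]
      congr 1
      ext <;> simp [kk, add_comm])
  choose β hβ using hf
  have hβ' : ∀ w b, ρ (kk 0 w b) v = β (w, b) • v := fun w b => hβ (w, b)
  have hmul : ∀ w b w' b', β (w + w', b + b') = β (w, b) * β (w', b') := by
    intro w b w' b'
    have e : (kk 0 w b : Gr A θ) * kk 0 w' b' = kk 0 (w + w') (b + b') := by
      rw [kk_mul]; simp
    have h1 := hβ' (w + w') (b + b')
    rw [← e, map_mul, Module.End.mul_apply, hβ', map_smul, hβ', smul_smul] at h1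
    have h2 := smul_left_injective ℂ hv h1
    rw [← h2, mul_comm]
  have hone : β (0, 0) = 1 := by
    have h1 := hβ' 0 0
    rw [kk_zero, map_one, Module.End.one_apply] at h1
    have h2 : (1 : ℂ) • v = β (0, 0) • v := by rw [one_smul]; exact h1
    exact (smul_left_injective ℂ hv h2).symm
  refine ⟨v, fun w => β (w, 0), fun b => β (0, b), hv, ?_, ?_, ?_, hone, hone⟩
  · intro w b
    rw [hβ', ← hmul]
    simp
  · intro w w'
    rw [← hmul]; simp
  · intro b b'
    rw [← hmul]; simp

/-- multiplicative functions into `ℂ` with exponent 2 take values `±1`. -/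
theorem lam_pm (lam : F → ℂ) (h : ∀ w w', lam (w + w') = lam w * lam w') (h0 : lam 0 = 1) (w : F) :
    lam w = 1 ∨ lam w = -1 := by
  have := h w w
  rw [CharTwo.add_self_eq_zero, h0] at this
  exact mul_self_eq_one_iff.1 this.symm

theorem mu_pow (μ : A → ℂ) (h : ∀ b b', μ (b + b') = μ b * μ b') (h0 : μ 0 = 1) (p : ℕ)
    (hA : ∀ a : A, p • a = 0) (b : A) : μ b ^ p = 1 := by
  have : ∀ n : ℕ, μ (n • b) = μ b ^ n := by
    intro n
    induction n with
    | zero => simp [h0]
    | succ n ih => rw [succ_nsmul, h, ih, pow_succ]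
  rw [← this, hA, h0]

/-- Multiplication of a nonzero element by cubes of units: a bijection from units to
nonzero elements. -/
theorem cube_bij (hF : Fintype.card F = 8) : Function.Bijective (fun c : Fˣ => c ^ 3) := by
  have hcard : Nat.card Fˣ = 7 := by
    rw [Nat.card_units, Nat.card_eq_fintype_card, hF]
  have : Nat.Coprime (Nat.card Fˣ) 3 := by rw [hcard]; decide
  exact (powCoprime this).bijective

theorem sum_units_eq (hF : Fintype.card F = 8) (lam : F → ℂ) (w : F) (hw : w ≠ 0) :
    ∑ c : Fˣ, lam ((c : F) ^ 3 * w) = ∑ z : F, lam z - lam 0 := by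
  have h1 : ∑ c : Fˣ, lam ((c : F) ^ 3 * w) = ∑ c : Fˣ, lam (c : F) := by
    let e : Fˣ ≃ Fˣ := (Equiv.ofBijective _ (cube_bij hF)).trans (Equiv.mulRight (Units.mk0 w hw))
    refine Fintype.sum_equiv e _ _ (fun c => ?_)
    simp [e]
  rw [h1]
  have h2 : ∑ z : F, lam z = lam 0 + ∑ c : Fˣ, lam (c : F) := by
    rw [← Finset.add_sum_erase _ _ (Finset.mem_univ (0 : F))]
    congr 1
    symm
    refine Finset.sum_bij (fun c _ => (c : F)) ?_ ?_ ?_ ?_
    · intro c _; simp
    · intro c _ d _ h; exact Units.ext h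
    · intro z hz
      have hz0 : z ≠ 0 := by simpa using hz
      exact ⟨Units.mk0 z hz0, Finset.mem_univ _, rfl⟩
    · intro c _; rfl
  rw [h2]; ring

/-- The sum of a multiplicative function over an additive map is 0 or 8. -/
theorem sum_hom_zero_or (hF : Fintype.card F = 8) (lam : F → ℂ)
    (h : ∀ w w', lam (w + w') = lam w * lam w') (h0 : lam 0 = 1) :
    ∑ z : F, lam z = 0 ∨ ((∀ z, lam z = 1) ∧ ∑ z : F, lam z = 8) := by
  by_cases hl : ∀ z, lam z = 1
  · right
    refine ⟨hl, ?_⟩
    simp [hl, hF]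
  · left
    push Not at hl
    obtain ⟨z, hz⟩ := hl
    have : ∑ y : F, lam y = lam z * ∑ y : F, lam y := by
      rw [Finset.mul_sum]
      refine Fintype.sum_equiv (Equiv.addLeft (-z)) _ _ (fun y => ?_)
      rw [← h]; simp
    have h2 : (lam z - 1) * ∑ y : F, lam y = 0 := by
      rw [sub_mul, ← this]; ring
    rcases mul_eq_zero.1 h2 with h3 | h3
    · exact absurd (sub_eq_zero.1 h3) hz
    · exact h3

/-- For nontrivial `lam` and `x ≠ 0`, exactly one of the seven inner sums is nonzero. -/
theorem exactly_one (hF : Fintype.card F = 8) (lam : F → ℂ)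
    (h : ∀ w w', lam (w + w') = lam w * lam w') (h0 : lam 0 = 1) (hne : ∃ z, lam z ≠ 1)
    (x : F) (hx : x ≠ 0) :
    ∃ c₀ : Fˣ, (∑ y : F, lam ((c₀ : F) * x * y ^ 2 + (c₀ * x) ^ 2 * y) = 8) ∧
      ∀ c : Fˣ, c ≠ c₀ → ∑ y : F, lam ((c : F) * x * y ^ 2 + (c * x) ^ 2 * y) = 0 := by
  have hsum0 : ∑ z : F, lam z = 0 := by
    rcases sum_hom_zero_or hF lam h h0 with h1 | h1
    · exact h1
    · obtain ⟨z, hz⟩ := hne; exact absurd (h1.1 z) hz
  set s : Fˣ → ℂ := fun c => ∑ y : F, lam ((c : F) * x * y ^ 2 + (c * x) ^ 2 * y) with hs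
  have hs08 : ∀ c, s c = 0 ∨ s c = 8 := by
    intro c
    rcases sum_hom_zero_or hF (fun y => lam ((c : F) * x * y ^ 2 + (c * x) ^ 2 * y)) (by
      intro w w'
      rw [← h]
      congr 1
      rw [CharTwo.add_sq]
      ring) (by simp [h0]) with h1 | h1
    · left; exact h1
    · right; exact h1.2
  have hs' : ∀ c : Fˣ, s c = ∑ y : F, lam ((c : F) ^ 3 * (x * y ^ 2 + x ^ 2 * y)) := by
    intro c
    rw [hs]
    symm
    refine Fintype.sum_equiv (Equiv.mulLeft₀ (c : F) c.ne_zero) _ _ (fun y => ?_)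
    congr 1
    simp only [Equiv.mulLeft₀_apply]
    ring
  have htot : ∑ c, s c = 8 := by
    simp only [hs']
    rw [Finset.sum_comm]
    have key : ∀ y : F, ∑ c : Fˣ, lam ((c : F) ^ 3 * (x * y ^ 2 + x ^ 2 * y)) =
        -1 + (if y = 0 then (8 : ℂ) else 0) + (if y = x then (8 : ℂ) else 0) := by
      intro y
      have hw : x * y ^ 2 + x ^ 2 * y = x * y * (y + x) := by ring
      have h7 : (Fintype.card Fˣ : ℂ) = 7 := by
        rw [Fintype.card_units, hF]; norm_num
      by_cases hy0 : y = 0
      · subst hy0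
        simp [h0, hx.symm, h7]; norm_num
      · by_cases hyx : y = x
        · subst hyx
          have : y * y ^ 2 + y ^ 2 * y = 0 := by
            rw [show y * y ^ 2 + y ^ 2 * y = y ^ 3 + y ^ 3 by ring, CharTwo.add_self_eq_zero]
          simp [h0, hx, h7, this]; norm_num
        · have hwne : x * y ^ 2 + x ^ 2 * y ≠ 0 := by
            rw [hw]
            refine mul_ne_zero (mul_ne_zero hx hy0) ?_
            intro h
            exact hyx (CharTwo.add_eq_zero.1 h)
          rw [sum_units_eq hF lam _ hwne, hsum0, h0]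
          simp [hy0, hyx]
    simp only [key]
    rw [Finset.sum_add_distrib, Finset.sum_add_distrib]
    simp [hF]
  have hex : ∃ c₀, s c₀ = 8 := by
    by_contra hcon
    push Not at hcon
    have : ∑ c, s c = 0 := Finset.sum_eq_zero fun c _ => (hs08 c).resolve_right (hcon c)
    rw [this] at htot
    norm_num at htot
  obtain ⟨c₀, hc₀⟩ := hex
  refine ⟨c₀, hc₀, ?_⟩
  intro c hc
  rcases hs08 c with h1 | h1
  · exact h1
  · exfalso
    have hle : (16 : ℝ) ≤ (∑ c, s c).re := by
      rw [Complex.re_sum]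
      have hnn : ∀ d ∈ (Finset.univ : Finset Fˣ), 0 ≤ (s d).re := by
        intro d _
        rcases hs08 d with h2 | h2 <;> rw [h2] <;> simp
      have hsub : ∑ d ∈ ({c, c₀} : Finset Fˣ), (s d).re ≤ ∑ d, (s d).re :=
        Finset.sum_le_sum_of_subset_of_nonneg (Finset.subset_univ _) (fun d hd _ => hnn d hd)
      rw [Finset.sum_pair hc, h1, hc₀] at hsub
      have h8 : ((8 : ℂ)).re = 8 := by norm_num
      rw [h8] at hsub
      linarith
    rw [htot] at hle
    norm_num at hle

theorem char_ne_zero (hF : Fintype.card F = 8) (p : ℕ) (hp : p.Prime) (h7 : 7 < p)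
    (hA : ∀ a : A, p • a = 0) (ρ : Representation ℂ (Gr A θ) V) (hρ : ρ.IsIrreducible)
    (x u : F) (a : A) : ρ.character (kk x u a) ≠ 0 := by
  intro hχ
  have hV : Nontrivial V := nontrivial_of_irreducible ρ hρ
  have hcu : Fintype.card Fˣ = 7 := by rw [Fintype.card_units, hF]
  have hsum := main_sum ρ hρ x u a hχ
  obtain ⟨v, lam, μ, hv, hβ, hlam, hμ, hlam0, hμ0⟩ := exists_char ρ
  have hsumv : ∑ c : Fˣ, ∑ y : F, ρ (kk (c * x)
      (c ^ 3 * u + (c * x * y ^ 2 + (c * x) ^ 2 * y)) (θ c • a)) v = 0 := by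
    have := congrArg (fun f : V →ₗ[ℂ] V => f v) hsum
    simpa using this
  by_cases hx : x = 0
  · subst hx
    have h1 : ∀ c : Fˣ, ∀ y : F, ρ (kk (c * 0)
      (c ^ 3 * u + (c * 0 * y ^ 2 + (c * 0) ^ 2 * y)) (θ c • a)) v =
        (lam (c ^ 3 * u) * μ (θ c • a)) • v := by
      intro c y
      rw [← hβ]
      congr 2
      ext <;> simp [kk]
    simp only [h1, Finset.sum_const, Finset.card_univ] at hsumv
    rw [← Finset.smul_sum, ← Finset.sum_smul, ← Nat.cast_smul_eq_nsmul ℂ] at hsumv
    have h2 := (smul_eq_zero.1 hsumv).resolve_left (by exact_mod_cast Fintype.card_ne_zero)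
    have h3 := (smul_eq_zero.1 h2).resolve_right hv
    exact sum_pm_root_ne_zero (Finset.univ : Finset Fˣ) p hp
      (by rw [Finset.card_univ, hcu]; decide) (by rw [Finset.card_univ, hcu]; exact h7)
      (fun c => lam (c ^ 3 * u)) (fun c => μ (θ c • a))
      (fun c _ => lam_pm lam hlam hlam0 _) (fun c _ => mu_pow μ hμ hμ0 p hA _) h3
  · by_cases hlt : ∃ z, lam z ≠ 1
    · obtain ⟨c₀, hc₀, hc⟩ := exactly_one hF lam hlam hlam0 hlt x hx
      have h1 : ∀ c : Fˣ, ∑ y : F, ρ (kk (c * x)
        (c ^ 3 * u + (c * x * y ^ 2 + (c * x) ^ 2 * y)) (θ c • a)) v =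
          (∑ y : F, lam ((c : F) * x * y ^ 2 + (c * x) ^ 2 * y)) •
            ρ (kk (c * x) (c ^ 3 * u) (θ c • a)) v := by
        intro c
        rw [Finset.sum_smul]
        refine Finset.sum_congr rfl fun y _ => ?_
        have e : (kk (c * x) (c ^ 3 * u + (c * x * y ^ 2 + (c * x) ^ 2 * y)) (θ c • a) : Gr A θ) =
            kk (c * x) (c ^ 3 * u) (θ c • a) * kk 0 (c * x * y ^ 2 + (c * x) ^ 2 * y) 0 := by
          rw [kk_mul]; ext <;> simp [kk]
        rw [e, map_mul, Module.End.mul_apply, hβ, hμ0, mul_one, map_smul]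
      simp only [h1] at hsumv
      rw [Finset.sum_eq_single c₀ (fun c _ hcc => by rw [hc c hcc, zero_smul])
        (fun h => absurd (Finset.mem_univ _) h), hc₀] at hsumv
      have h2 := (smul_eq_zero.1 hsumv).resolve_left (by norm_num)
      have h3 : v = 0 := by
        have := congrArg (ρ (kk (c₀ * x) (c₀ ^ 3 * u) (θ c₀ • a))⁻¹) h2
        rw [← Module.End.mul_apply, ← map_mul, inv_mul_cancel, map_one, map_zero] at this
        exact this
      exact hv h3
    · -- `P'` acts trivially on a nonzero vector, hence on everything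
      push Not at hlt
      let U : Subrepresentation ρ :=
        { toSubmodule := ⨅ w : F, LinearMap.ker (ρ (kk 0 w 0) - 1)
          apply_mem_toSubmodule := by
            intro g w hw
            simp only [Submodule.mem_iInf, LinearMap.mem_ker, LinearMap.sub_apply,
              Module.End.one_apply, sub_eq_zero] at hw ⊢
            intro z
            have e : (kk 0 z 0 : Gr A θ) * g =
                g * kk 0 ((((g.c⁻¹ : Fˣ)) : F) ^ 3 * z) 0 := by
              ext
              · simp [kk]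
              · simp [kk, add_comm]
              · simp [kk]
              · simp [kk]
            rw [← Module.End.mul_apply, ← map_mul, e, map_mul, Module.End.mul_apply, hw] }
      have hUmem : ∀ w : V, w ∈ U.toSubmodule ↔ ∀ z : F, ρ (kk 0 z 0) w = w := by
        intro w
        simp [U, Submodule.mem_iInf, sub_eq_zero]
      have hU : U = ⊤ := by
        rcases hρ.eq_bot_or_eq_top U with h1 | h1
        · exfalso
          have h2 : v ∈ U.toSubmodule := (hUmem v).2 (fun z => by
            rw [hβ, hlt, hμ0]; simp)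
          rw [h1] at h2
          have h3 : v ∈ (⊥ : Submodule ℂ V) := h2
          exact hv (by simpa using h3)
        · exact h1
      have htriv : ∀ z : F, ∀ w : V, ρ (kk 0 z 0) w = w := by
        intro z w
        refine (hUmem w).1 ?_ z
        rw [hU]
        trivial
      have htriv' : ∀ z : F, ρ (kk 0 z 0) = 1 := by
        intro z; ext w; exact htriv z w
      have hab : ∀ (y z : F) (b : A) (z' : F), ρ (kk y (z + z') b) = ρ (kk y z b) := by
        intro y z b z'
        have e : (kk y (z + z') b : Gr A θ) = kk y z b * kk 0 z' 0 := by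
          rw [kk_mul]; ext <;> simp [kk]
        rw [e, map_mul, htriv', mul_one]
      have hab' : ∀ (y z : F) (b : A) (z' : F), ρ (kk y z b) = ρ (kk y z' b) := by
        intro y z b z'
        rw [← hab y z b (z' - z)]; congr 2; ring
      obtain ⟨v', hv', hf⟩ := exists_common_eigenvector
        (fun q : F × A => (ρ (kk q.1 0 q.2) : Module.End ℂ V))
        (by
          intro i j
          change ρ _ * ρ _ = ρ _ * ρ _
          rw [← map_mul, ← map_mul, kk_mul, kk_mul, add_comm i.1, add_comm i.2]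
          exact hab' _ _ _ _)
      choose β hβ using hf
      have hβ' : ∀ w b, ρ (kk w 0 b) v' = β (w, b) • v' := fun w b => hβ (w, b)
      have hmul : ∀ w b w' b', β (w + w', b + b') = β (w, b) * β (w', b') := by
        intro w b w' b'
        have h1 := hβ' (w + w') (b + b')
        rw [hab' _ _ _ (0 + 0 + w * w' ^ 2), ← kk_mul, map_mul, Module.End.mul_apply, hβ',
          map_smul, hβ', smul_smul] at h1
        have h2 := smul_left_injective ℂ hv' h1
        rw [← h2, mul_comm]
      have hone : β (0, 0) = 1 := by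
        have h1 := hβ' 0 0
        rw [kk_zero, map_one, Module.End.one_apply] at h1
        have h2 : (1 : ℂ) • v' = β (0, 0) • v' := by rw [one_smul]; exact h1
        exact (smul_left_injective ℂ hv' h2).symm
      have hlam' : ∀ w w', β (w + w', 0) = β (w, 0) * β (w', 0) := by
        intro w w'; rw [← hmul]; simp
      have hμ' : ∀ b b', β (0, b + b') = β (0, b) * β (0, b') := by
        intro w w'; rw [← hmul]; simp
      have hsumv' : ∑ c : Fˣ, ∑ y : F, ρ (kk (c * x)
          (c ^ 3 * u + (c * x * y ^ 2 + (c * x) ^ 2 * y)) (θ c • a)) v' = 0 := by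
        have := congrArg (fun f : V →ₗ[ℂ] V => f v') hsum
        simpa using this
      have h1 : ∀ c : Fˣ, ∀ y : F, ρ (kk (c * x)
        (c ^ 3 * u + (c * x * y ^ 2 + (c * x) ^ 2 * y)) (θ c • a)) v' =
          (β (c * x, 0) * β (0, θ c • a)) • v' := by
        intro c y
        rw [hab' _ _ _ 0, hβ', ← hmul]
        simp
      simp only [h1, Finset.sum_const, Finset.card_univ] at hsumv'
      rw [← Finset.smul_sum, ← Finset.sum_smul, ← Nat.cast_smul_eq_nsmul ℂ] at hsumv'
      have h2 := (smul_eq_zero.1 hsumv').resolve_left (by exact_mod_cast Fintype.card_ne_zero)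
      have h3 := (smul_eq_zero.1 h2).resolve_right hv'
      exact sum_pm_root_ne_zero (Finset.univ : Finset Fˣ) p hp
        (by rw [Finset.card_univ, hcu]; decide) (by rw [Finset.card_univ, hcu]; exact h7)
        (fun c => β (c * x, 0)) (fun c => β (0, θ c • a))
        (fun c _ => lam_pm (fun w => β (w, 0)) hlam' hone _)
        (fun c _ => mu_pow (fun b => β (0, b)) hμ' hone p hA _) h3

end Q18.Zr
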